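import Pool.Agent.Work.MP_8dbde4_lc.FK.StmtsB

/-!
Statements of the block FK of MP_8dbde4_lc, fourth part: the extension property for infinitely many
letters (with arbitrary blocks, `ω = True`). Every docstring contains the proof.

The complete trees are indexed by `Fin n → A`, `A = Fin k` or `A = ℕ` (infinite branching).
-/

set_option autoImplicit false
open Classical

namespace Pool.Agent.Work.MP_8dbde4_lc.FK

open Pool.Agent.Work.MP_8dbde4_lc.TS
open Pool.Agent.Work.MP_8dbde4_lc.Tree (Word Agr Cc)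
open Pool.Agent.Work.MP_8dbde4_lc.Phy (PP Hom)
open Pool.Agent.Work.MP_8dbde4_lc.Bra (Same InvU BinOn pull c₂)
open Pool.Agent.Work.MP_8dbde4_lc.Full (Arr NEq Cst0 BT Sub)

variable {K : Type} {c : ℚ → K} {σ : Sig}

/-! ### Complete trees -/

/-- `m` is the first place where `a` and `b` differ. -/
def Df {n : ℕ} {A : Type} (a b : Fin n → A) (m : Fin n) : Prop :=
  (∀ l, l < m → a l = b l) ∧ a m ≠ b m

/-- `z` splits off from `x` and `y`. -/
def TC {n : ℕ} {A : Type} (z x y : Fin n → A) : Prop := ∃ m, Df z x m ∧ Df z y m ∧ x m = y m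

/-- `u` is a complete tree of depth `n` with the branches `A`. -/
def Cm {n : ℕ} {A : Type} (u : (Fin n → A) → Word c) : Prop :=
  Function.Injective u ∧ ∀ z x y, Cc (u z) (u x) (u y) ↔ TC z x y

/-- Arrows between blow-ups of `v`, `w` with the complete trees `Fin n → Fin k` at the points of `F` and
one word at the other points. -/
def NFW (𝔅 : Str σ (Word c)) {X : Type} (n k : ℕ) (F : Set X) (v w : X → Word c) : Prop :=
  ∃ v' w' : X × (Fin n → Fin k) → Word c, Bl Prod.fst v v' ∧ Bl Prod.fst w w' ∧ Arr 𝔅 v' w' ∧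
    (∀ x ∈ F, Cm (fun a => v' (x, a)) ∧ Cm (fun a => w' (x, a))) ∧
    ∀ x ∉ F, ∀ a b, v' (x, a) = v' (x, b) ∧ w' (x, a) = w' (x, b)

/-! ### Statements -/

/-- Facts on the trees `Fin n → A`. (1) First differences exist and are unique. (2) Maps which preserve
first differences along a strictly increasing map of the levels: `Df x y l` for the other pairs by (1)
and `StrictMono f`; if `(g x) (f m) = (g y) (f m)`, `Df z x m`, `Df z y m` then `x m = y m` (otherwise
`Df x y m`). (3) `g a l = a l` for `l < n` (`Fin.castLE`), `0` for the other `l`. (4) A common first entry. -/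
def S_TCF : Prop :=
  (∀ (n : ℕ) (A : Type) (a b : Fin n → A), (a ≠ b → ∃ m, Df a b m) ∧
    (∀ m m', Df a b m → Df a b m' → m = m') ∧ ∀ m, Df a b m → Df b a m) ∧
  (∀ (n n' : ℕ) (A A' : Type) (g : (Fin n → A) → (Fin n' → A')) (f : Fin n → Fin n'),
    StrictMono f → (∀ a b m, Df a b m → Df (g a) (g b) (f m)) →
    Function.Injective g ∧ ∀ z x y, TC z x y ↔ TC (g z) (g x) (g y)) ∧
  (∀ n n' k k' : ℕ, n ≤ n' → k ≤ k' → 1 ≤ k' → ∃ g : (Fin n → Fin k) → (Fin n' → Fin k'),
    Function.Injective g ∧ ∀ z x y, TC z x y ↔ TC (g z) (g x) (g y)) ∧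
  ∀ (n : ℕ) (A : Type) (t : A) (z x y : Fin n → A), TC z x y ↔
    TC (Fin.cons t z : Fin (n + 1) → A) (Fin.cons t x) (Fin.cons t y)

/-- Finite tuples embed in the complete trees. Let `D` be the finite set of the places where one of the
`v x` differs from `c`, `n₀` its number of elements, `j : Fin n₀ → ℚ` its increasing enumeration
(`Finset.orderEmbOfFin`); `L` the finite set of the letters `(v x) (j l)`, `k₀` one more than its number of
elements, `r : K → Fin k₀` injective on `L`. `e x l = r ((v x) (j l))` for `l < n₀`, `0` for the other `l < n`. -/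
def S_TCE : Prop := ∀ (K : Type) (c : ℚ → K) (X : Type) [Finite X] (v : X → Word c),
  Function.Injective v → ∃ n₀ k₀ : ℕ, ∀ n k : ℕ, n₀ ≤ n → k₀ ≤ k →
    ∃ e : X → (Fin n → Fin k), Function.Injective e ∧
      ∀ z x y, Cc (v z) (v x) (v y) ↔ TC (e z) (e x) (e y)

/-- A point is replaced by an infinitely branching tree. Let `Q` be above all the places where one of
the words `v o` (finitely many) differs from `c`, `r : ℕ → K` injective. `v⁺ (inr a)` is `v none` changed to
the letter `r (a l)` at the place `Q + 1 + l`, `l : Fin N`. The words `v o` agree with `c` at these places. -/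
def S_BLI : Prop := ∀ (K : Type) [Infinite K] (c : ℚ → K) (P : Type) [Finite P] (N : ℕ)
  (v : Option P → Word c), Function.Injective v → ∃ v' : P ⊕ (Fin N → ℕ) → Word c,
    Function.Injective v' ∧ (∀ p, v' (.inl p) = v (some p)) ∧ Cm (fun a => v' (.inr a)) ∧
    Bl (Sum.elim some (fun _ => none)) v v'

/-- Infinite extensions of arrows. Enumerate `Λ` (`Countable`; if it is empty this is trivial). By
recursion on `n` choose the words `w (inr a_n)` such that there is an arrow from `v` to `w` on
`P ⊕ {a_0, ..., a_n}` (S_ARR (4); if `a_n` is one of the earlier points nothing has to be done). For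
finite `Y` the values of `e` are among `P ⊕ {a_0, ..., a_n}` for some `n` (S_ARR (2)). -/
def S_XIW : Prop := ∀ (K : Type) (c : ℚ → K) (σ : Sig) (𝔅 : Str σ (Word c)), AllInv 𝔅 →
  ∀ (P Λ : Type) [Finite P] [Countable Λ] (v : P ⊕ Λ → Word c) (w₀ : P → Word c),
  Arr 𝔅 (fun p => v (.inl p)) w₀ → ∃ w : P ⊕ Λ → Word c, (∀ p, w (.inl p) = w₀ p) ∧
    ∀ (Y : Type) [Finite Y] (e : Y → P ⊕ Λ), Arr 𝔅 (fun y => v (e y)) (fun y => w (e y))

/-- Generic trees. In the infinitely branching tree of depth `N` there is a complete tree with the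
branches `Fin k`, on the same levels, in which the colours of the leaves are equal and the colour of
three leaves depends only on their levelled shape: `(a b) d` with the levels `m < m'` (`m`: the split of `d`
from `a, b`), `a (b d)`, or a star at the level `m`.

Proof. Let `U = Filter.hyperfilter ℕ` (`∀ x₀, ∀ᶠ x in U, x ≠ x₀`). Use Mathlib ultrafilters with `bind`,
`map`, `pure` (`Filter.eventually_bind`, `Filter.eventually_map`), or replace an ultrafilter on `A` by the
map `P ↦ ∀ᶠ a, P a` from `A → Prop` to `Prop` (commuting with `∧` and `¬`). Fix `k`.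
(a) Sequences: for an ultrafilter `V` on `A` let `W k V` be the ultrafilter on `Fin k → A` with
`W 0 V = pure _`, `W (k + 1) V = bind V (fun a => map (Fin.cons a) (W k V))`. For `i < j < l` in `Fin k`:
`∀ᶠ s in W k V, P (s i) (s j) (s l)` iff `∀ᶠ a in V, ∀ᶠ b in V, ∀ᶠ d in V, P a b d`, and the same for two
indices `i < j` and for one index (induction on `k`).
(b) Trees: `T N = (Fin N → Fin k) → (Fin N → ℕ)`, `G 0 = pure _`, and `G (N + 1)` is the image of
`W k (bind U (fun x => map (Prod.mk x) (G N)))` under the map which sends `s : Fin k → ℕ × T N` to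
`a ↦ Fin.cons (s (a 0)).1 ((s (a 0)).2 (Fin.tail a))`.
(c) For `G N`-almost all `e`: `Df a b m → Df (e a) (e b) m` for all `a, b, m` (induction on `N`; finitely
many conditions; in `W k` the first components are different for different indices, by (a)).
(d) `∀ᶠ e in G N, P (e a)` does not depend on the leaf `a`; `∀ᶠ e in G N, P (e a) (e b)` depends only on the
level `m` if `Df a b m` and `a m < b m`; `∀ᶠ e in G N, P (e a) (e b) (e d)` depends only on the levelled
shape of `a, b, d` (one of the three cases in the statement): each by induction on `N`, with (a): if the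
first entries are not all equal the quantifier over `e` splits into independent quantifiers over the
subtrees of the different branches, and the previous facts apply; if they are all equal use the
induction hypothesis.
(e) For every `a` the colour `χ (e a)` is constant for almost all `e` (finitely many colours) and by (d) it
does not depend on `a`; the same for `θ (e a) (e b) (e d)` and the levelled shapes. Finitely many leaves:
some `e` satisfies everything. (`i`, `j`, `s`: the colours of the shapes; arbitrary for the shapes which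
do not occur; `κ'` is not empty.) -/
def S_UFW : Prop := ∀ (N k : ℕ) (κ κ' : Type) [Finite κ] [Finite κ'] (χ : (Fin N → ℕ) → κ)
  (θ : (Fin N → ℕ) → (Fin N → ℕ) → (Fin N → ℕ) → κ'),
  ∃ (e : (Fin N → Fin k) → (Fin N → ℕ)) (i j : Fin N → Fin N → κ') (s : Fin N → κ'),
    (∀ a b m, Df a b m → Df (e a) (e b) m) ∧ (∀ a b, χ (e a) = χ (e b)) ∧
    (∀ a b d m m', m < m' → Df a d m → Df a b m' → a m < d m → a m' < b m' →
      θ (e a) (e b) (e d) = i m m') ∧
    (∀ a b d m m', m < m' → Df a b m → Df b d m' → a m < b m → b m' < d m' →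
      θ (e a) (e b) (e d) = j m m') ∧
    ∀ a b d m, Df a b m → Df b d m → a m < b m → b m < d m → θ (e a) (e b) (e d) = s m

/-- The finite Ramsey theorem for pairs. (1) For every `m` there is `M` such that every set of `M` numbers
contains `x_1 < ... < x_m` with `χ x_i x_j` depending only on `i` for `i < j` (induction on `m`: take the
least element `x` and a most frequent value of `χ x y`). (2) Pigeonhole for the colours of the `x_i`. -/
def S_RPW : Prop := ∀ (κ : Type) [Finite κ] (n : ℕ), ∃ N : ℕ, ∀ χ : Fin N → Fin N → κ,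
  ∃ (f : Fin n → Fin N) (x : κ), StrictMono f ∧ ∀ i j, i < j → χ (f i) (f j) = x

/-- Generic trees with constant colours. `N` from S_RPW for `κ' × κ' × κ'` and `n + 1`. S_UFW gives `e`, `i`,
`j`, `s`; S_RPW for the colouring `(i m m', j m m', s m)` gives `f₀ : Fin (n + 1) → Fin N`; `f` is its
restriction to `Fin n` (`Fin.castSucc`; then `s (f l)` is constant too). `g a = e (a')`, `a' (f l) = a l`,
`a' q = 0` for the other `q` (`1 ≤ k`); `Df a b m` implies `Df a' b' (f m)`. -/
def S_RAW : Prop := ∀ (κ' : Type) [Finite κ'] (n k : ℕ), 1 ≤ k → ∃ N : ℕ, ∀ (κ : Type) [Finite κ]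
  (χ : (Fin N → ℕ) → κ) (θ : (Fin N → ℕ) → (Fin N → ℕ) → (Fin N → ℕ) → κ'),
  ∃ (g : (Fin n → Fin k) → (Fin N → ℕ)) (f : Fin n → Fin N) (i j s : κ'), StrictMono f ∧
    (∀ a b m, Df a b m → Df (g a) (g b) (f m)) ∧ (∀ a b, χ (g a) = χ (g b)) ∧
    (∀ a b d m m', m < m' → Df a d m → Df a b m' → a m < d m → a m' < b m' →
      θ (g a) (g b) (g d) = i) ∧
    (∀ a b d m m', m < m' → Df a b m → Df b d m' → a m < b m → b m' < d m' →
      θ (g a) (g b) (g d) = j) ∧
    ∀ a b d m, Df a b m → Df b d m → a m < b m → b m < d m → θ (g a) (g b) (g d) = s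

/-- Constant behaviour. The order of three leaves `a < b < d` is lexicographic; the hypotheses say that
the behaviour (`Beh`) on the shapes `(a b) d`, `a (b d)` and on stars is `i`, `j`, `s`. As in the docstring
of S_BEH (leaves of a binary subtree of depth 3) `(i, j)` is `(2, 0)`, `(0, 0)`, `(2, 2)` or `(3, 3)`: e.g. use
`((a b) d) e` with the levels `0 < 1 < 2`, `(a b) (d e)` etc., entries `0, 1` of the leaves. Stars: consider
four leaves `(a a') b d` where `a, a'` split at the level 1 and the others at the level 0 (entries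
`0, 1, 2` there): `(a a') b`, `(a a') d`, stars `a, b, d` and `a', b, d`; and `a b (d d')`. `(0, 0)`: `Cc a a' b`,
`Cc a a' d` give `Cc a b d`, so `s = 0`. `(2, 2)`: `a b (d d')`: `Cc d' a d`, `Cc d' b d` give `Cc d' a b`, so
`s = 2`. `(3, 3)`: `s = 0`: `Cc a b d`, `Cc a b d'` give `Cc a d d'`, contradiction to `St a d d'`; `s = 1`:
`Cc b a d`, `Cc b a' d` give `Cc b a a'`, contradiction; `s = 2`: `Cc d a b`, `Cc d a' b` give `Cc d a a'`,
contradiction; so `s = 3`. Conclusion: `(2, 0, 3)`: `Cm w`; `(3, 3, 3)`: `StarT w`; in the other cases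
(`(2, 0, s)` with `s ≠ 3`, `(0, 0, 0)`, `(2, 2, 2)`) no three leaves form a star: `Bin`. (Any three different
leaves can be sorted, and are of one of the three shapes: compare the first differences.) -/
def S_BHW : Prop := ∀ (K : Type) (c : ℚ → K) (n k : ℕ) (w : (Fin n → Fin k) → Word c)
  (i j s : Fin 4), 3 ≤ n → 3 ≤ k → Function.Injective w →
  (∀ a b d m m', m < m' → Df a d m → Df a b m' → a m < d m → a m' < b m' → Beh w i a b d) →
  (∀ a b d m m', m < m' → Df a b m → Df b d m' → a m < b m → b m' < d m' → Beh w j a b d) →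
  (∀ a b d m, Df a b m → Df b d m → a m < b m → b m < d m → Beh w s a b d) →
  Cm w ∨ Bin Set.univ w ∨ StarT w

/-- Large complete trees cannot be mapped to binary tuples or stars. Let `v₁ : X₁ → Word c` be injective
without an arrow to an injective binary tuple (`¬ BB`), `v₂` the same for `SS`; `n₀`, `k₀`: maxima of those of
S_TCE. If `Bin Set.univ w` then `v₁` has the splits of `v ∘ e` (`Cm v`), `Arr (v ∘ e) (w ∘ e)` (S_ARR (1), (2)),
and `w ∘ e` is binary and injective. The same for stars. -/
def S_NBW : Prop := ∀ (K : Type) (c : ℚ → K) (σ : Sig) (𝔅 : Str σ (Word c)), AllInv 𝔅 →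
  ¬ BB 𝔅 → ¬ SS 𝔅 → ∃ n₀ k₀ : ℕ, ∀ n k : ℕ, n₀ ≤ n → k₀ ≤ k →
    ∀ v w : (Fin n → Fin k) → Word c, Cm v → Arr 𝔅 v w → Function.Injective w →
      ¬ Bin Set.univ w ∧ ¬ StarT w

/-- Growth. `N` from S_RAW for `κ' = Fin 4`, `n`, `k`. `v'` on `P ⊕ (Fin N → ℕ)` from S_BLI, `w'` from S_XIW (for
`w₁`); `w'` is injective by S_ARR (6) (pairs). Colours: `χ a : P → P → Prop`,
`χ a p p' = Cc (w' (inr a)) (w₁ p) (w₁ p')`; `θ a b d` some `i : Fin 4` with `Beh (fun a => w' (inr a)) i a b d` (if
there is one; by `cc_tri` there is one if `a, b, d` are different). S_RAW gives `g`; `v₂ = v'`, `w₂ = w'`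
composed with `Sum.map id g`. `Cm` for `v₂` by S_TCF (2), for `w₂` by S_BHW and the hypothesis `hNB`. -/
def S_GRW : Prop := ∀ (K : Type) [Infinite K] (c : ℚ → K) (σ : Sig) (𝔅 : Str σ (Word c)),
  AllInv 𝔅 → NEq 𝔅 → ∀ (P : Type) [Finite P] (v₁ : Option P → Word c) (w₁ : P → Word c)
  (n k : ℕ), Function.Injective v₁ → Arr 𝔅 (fun p => v₁ (some p)) w₁ → 3 ≤ n → 3 ≤ k →
  (∀ v w : (Fin n → Fin k) → Word c, Cm v → Arr 𝔅 v w → Function.Injective w →
    ¬ Bin Set.univ w ∧ ¬ StarT w) →
  ∃ v₂ w₂ : P ⊕ (Fin n → Fin k) → Word c, Function.Injective v₂ ∧ Function.Injective w₂ ∧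
    (∀ p, v₂ (.inl p) = v₁ (some p)) ∧ (∀ p, w₂ (.inl p) = w₁ p) ∧
    Bl (Sum.elim some (fun _ => none)) v₁ v₂ ∧ Cm (fun a => v₂ (.inr a)) ∧
    Cm (fun a => w₂ (.inr a)) ∧ Arr 𝔅 v₂ w₂ ∧
    ∀ p p' a b, Cc (w₂ (.inr a)) (w₁ p) (w₁ p') ↔ Cc (w₂ (.inr b)) (w₁ p) (w₁ p')

/-- Thinning. Call the branch `t : Fin k` at the root bad for `x` if `¬ Cc (b x) (u a) (u a')` for some `a, a'`
with `a 0 = a' 0 = t`. At most one branch is bad for `x`: let `p, p'` be such leaves for `t` and `p₂, p₃` for
`t' ≠ t`, `b = b x`. `Cc p₂ p p'` (`Cm`), so by `cc_or` with `b`: `Cc p₂ p b`. `Cc p p₂ p₃`, so by `cc_or` with `b`: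
`Cc p p₂ b`. This contradicts `cc_asymm`. As `X` has less than `k` elements some branch is not bad for any
`x`. -/
def S_THW : Prop := ∀ (K : Type) (c : ℚ → K) (n k : ℕ) (u : (Fin (n + 1) → Fin k) → Word c)
  (X : Type) [Finite X] (b : X → Word c), Cm u → Nat.card X < k → ∃ t : Fin k,
    ∀ x a a', a 0 = t → a' 0 = t → Cc (b x) (u a) (u a')

/-- Tuples with blocks. First `Cc (u z) (u y) (u (s (π y)))` for `π z ≠ π y`, so in the first two arguments
after the first one of `Cc (u y'') (u y) (u y')` the points can be replaced by those of the section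
(`cc_trans`, `cc_symm`); in the first argument: `Cc (u a) (u y'') (u (s (π y'')))` for the other ones `a`, `cc_or`
for `Cc (u y'') (u a) (u a')` with `u (s (π y''))` and `cc_asymm`. -/
def S_BLS : Prop := ∀ (K : Type) (c : ℚ → K) (X Y : Type) (π : Y → X) (u : Y → Word c)
  (s : X → Y), (∀ x, π (s x) = x) → (∀ y y' z, π y = π y' → π z ≠ π y → Cc (u z) (u y) (u y')) →
  Bl π (fun x => u (s x)) u ∧ Function.Injective (fun x => u (s x))

/-- Smaller trees: compose with `g` of S_TCF (3) in the second argument (S_ARR (2)). -/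
def S_MNW : Prop := ∀ (K : Type) (c : ℚ → K) (σ : Sig) (𝔅 : Str σ (Word c)), AllInv 𝔅 →
  ∀ (X : Type) [Finite X] (F : Set X) (v w : X → Word c) (n n' k k' : ℕ), n ≤ n' → k ≤ k' →
  1 ≤ k' → NFW 𝔅 n' k' F v w → NFW 𝔅 n k F v w

/-- One step of the extension. By S_MNW we may increase `n` and `k`: let `n ≥ n₀`, `k ≥ k₀` (S_NBW),
`n, k ≥ 3`. Let `k₂ = k + Nat.card X + 1`, `P = {p : X × (Fin (n + 1) → Fin k) // p.1 ∉ F → p.2 = fun _ => 0}` (with
`0 : Fin k`), `U : (Fin (n + 1) → Fin k) → Word c` with `Cm U` (S_BLI for `P = Empty`, restricted by S_TCF (2)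
to entries `< k`). `v₁ : Option P → Word c`: a blow-up of `v'` along `Option.map (fun p => p.1.1)` with the blocks
`u (some p) = U p.1.2` (S_BLW), `w₁ : P → Word c` the blow-up of `w` along `fun p => p.1.1` with the same blocks.
`Arr (v₁ ∘ some) w₁` by `Fat True 𝔅 F v w`. S_GRW for `n + 1`, `k₂` (`hNB` by S_NBW): `v₂`, `w₂` on `P ⊕ H`,
`H = (Fin (n + 1) → Fin k₂)`. Let `h₀ ∈ H`. For `x ∈ F` the tuple `a ↦ w₁ (x, a)` is `Cm` (same splits as `U`);
S_THW (for `Unit`, `1 < k`) gives `t x : Fin k` with `Cc (w₂ h₀) (w₁ (x, a)) (w₁ (x, a'))` for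
`a 0 = a' 0 = t x`; by the last property of S_GRW the same for all `h ∈ H`. Let `p x = (x, fun _ => t x)` for
`x ∈ F`, `(x, fun _ => 0)` otherwise. S_THW for `H` and `b x = w₁ (p x)` gives `t₂ : Fin k₂`:
`Cc (w₁ (p x)) (w₂ h) (w₂ h')` for `h 0 = h' 0 = t₂`. For every `p'` in the chosen part of the block of `x`
also `Cc (w₁ p') (w₂ h) (w₂ h')`: `cc_or` for `Cc (p x) h h'` with `p'`; `Cc (p x) h p'` contradicts
`Cc h (p x) p'`. Now let `v'' (some x, a) = v₂ (inl (x, Fin.cons (t x) a))` for `x ∈ F`,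
`v₂ (inl (x, fun _ => 0))` for `x ∉ F`, `v'' (none, a) = v₂ (inr (Fin.cons t₂ (a as an element of
Fin n → Fin k₂)))`, and `w''` the same with `w₂`. `v''` is a blow-up of `v'` (S_BLF (2); `Bl` is preserved by
renaming the points of the second tuple). `w''` satisfies the hypothesis of S_BLS for `π = Prod.fst`
(blocks of `w₁`: `Bl` with `w` injective; the others: shown above), with the section
`s o = (o, fun _ => 0)`: `w''` is a blow-up of `w'' ∘ s`, which is injective and has on the points `some x` the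
splits of `w` (S_BLF (4) for `w₁`); by S_AMG there is `w'`, `w' (some x) = w x`, with the splits of `w'' ∘ s`. So
`Bl Prod.fst w' w''`. `Cm`: S_TCF (4). `Arr v'' w''`: S_ARR (2). (Compare `Full/I_EXN.lean`.) -/
def S_ENW : Prop := ∀ (K : Type) [Infinite K] (c : ℚ → K) (σ : Sig) (𝔅 : Str σ (Word c)),
  AllInv 𝔅 → NEq 𝔅 → ¬ BB 𝔅 → ¬ SS 𝔅 → ∀ (X : Type) [Finite X] (F : Set X)
  (v w : X → Word c), Function.Injective v → Function.Injective w → Fat True 𝔅 F v w →
  ∀ v' : Option X → Word c, Function.Injective v' → (∀ x, v' (some x) = v x) → ∀ n k : ℕ,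
  ∃ w' : Option X → Word c, Function.Injective w' ∧ (∀ x, w' (some x) = w x) ∧
    NFW 𝔅 n k {o | ∀ x, o = some x → x ∈ F} v' w'

/-- Arrows between blow-ups with complete trees of all sizes suffice. Let `Y, π, v₁, w₁` be as in the
definition of `Fat` (with `ω = True`). For `x ∈ F` S_TCE for the block `{y // π y = x}` and `v₁` gives `n`, `k`;
take the maxima over `x` (and `k ≥ 1`): a map `e : Y → (Fin n → Fin k)` which on every block over `x ∈ F` is
injective with `Cc (v₁ z) (v₁ x) (v₁ y) ↔ TC (e z) (e x) (e y)`; the blocks over `x ∉ F` have at most one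
element. Let `v', w'` be as in `NFW 𝔅 n k F v w`. `y ↦ v' (π y, e y)` is injective, a blow-up of `v` along `π`,
and has the same splits as `v₁` on the blocks, so everywhere (S_BLF (3)); the same for `w'`, `w₁` (`SameOn` of
the blocks of `v₁` and `w₁`). S_ARR (2), (1), `Arr.trans`. (Compare `Full/I_NFF.lean`.) -/
def S_NGW : Prop := ∀ (K : Type) (c : ℚ → K) (σ : Sig) (𝔅 : Str σ (Word c)), AllInv 𝔅 →
  ∀ (X : Type) [Finite X] (F : Set X) (v w : X → Word c), Function.Injective v →
    Function.Injective w → (∀ n k, NFW 𝔅 n k F v w) → Fat True 𝔅 F v w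

/-- The extension property for infinitely many letters. For every `n` take `w'_n` from S_ENW for `n`,
`k = n + 1`. There are finitely many possibilities for the splits (and equalities) of `w'_n`, so for some
`w' = w'_(n₁)` there are infinitely many `n` such that `w'_n` has the same splits as `w'`; then
`NFW 𝔅 n (n + 1) F' v' w'` for these `n` (`Bl π w'_n w''` implies `Bl π w' w''`), so for all `n`, `k` (S_MNW), and
S_NGW. (Compare `Full/I_EXT2.lean`.) -/
def S_ETW : Prop := ∀ (K : Type) [Infinite K] (c : ℚ → K) (σ : Sig) (𝔅 : Str σ (Word c)),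
  AllInv 𝔅 → NEq 𝔅 → ¬ BB 𝔅 → ¬ SS 𝔅 → Ext True 𝔅

end Pool.Agent.Work.MP_8dbde4_lc.FK
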