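import Pool.Agent.Work.MP_8dbde4_lc.FK.StmtsE
import Pool.Agent.Work.MP_8dbde4_lc.FK.StmtsW

/-!
Assembly of the classification of the arrows from the statements of the block (all as hypotheses).
-/

set_option autoImplicit false
open Classical

namespace Pool.Agent.Work.MP_8dbde4_lc.FK

open Pool.Agent.Work.MP_8dbde4_lc.TS
open Pool.Agent.Work.MP_8dbde4_lc.Tree (Word Agr Cc)
open Pool.Agent.Work.MP_8dbde4_lc.Phy (PP Hom)
open Pool.Agent.Work.MP_8dbde4_lc.Bra (Same InvU BinOn pull c₂)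
open Pool.Agent.Work.MP_8dbde4_lc.Full (Arr NEq Cst0 BT Sub)

variable {K : Type} {c : ℚ → K} {σ : Sig}

/-- If there are arrows neither to binary tuples nor to stars then the quartet relation is primitive
positive definable (given the extension property of fat arrows). -/
theorem quart_of_ext (hT0 : S_T0) (hT1 : S_T1) (hVD : S_VD) (hNM : S_NM) (hNR : S_NR) (hCX : S_CX)
    (hCR : S_CR) (hQV : S_QV) (hXM : S_XM) (hXR : S_XR) (hQPP : S_QPP) {𝔅 : Str σ (Word c)}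
    (hK : ∃ a b d : K, a ≠ b ∧ a ≠ d ∧ b ≠ d) (hA : AllInv 𝔅) (hN : NEq 𝔅)
    (hC : ¬ PP 𝔅 (C3 (c := c))) (hB : ¬ BB 𝔅) (hS : ¬ SS 𝔅) {ω : Prop} (hE : Ext ω 𝔅) :
    PP 𝔅 (Q4 (c := c)) := by
  have hK2 : ∃ a b : K, a ≠ b := by
    obtain ⟨a, b, _, h, _, _⟩ := hK
    exact ⟨a, b, h⟩
  have h3 : E3 𝔅 := by
    rcases hT0 K c σ 𝔅 hK hA hN hC with h | h | h
    · exact absurd h hB
    · exact absurd h hS
    · exact h
  rcases hT1 K c σ ω 𝔅 hK hA hN hE with h | h | hF | hR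
  · exact absurd h hB
  · exact absurd h hS
  · have hX : ¬ XQ ω 𝔅 := fun hX => hB (hCX K c σ ω 𝔅 hK2 hA hN hE hF hX)
    rcases hCR K c σ ω 𝔅 hK hA hN hE hF hX with h | hR
    · exact absurd h hS
    have hQ : QP 𝔅 := by
      by_contra hQ
      have hv := hQV K c σ ω 𝔅 hK2 hA hN hE hQ
      by_cases hm : ∃ v w : Fin 4 → Word c, Function.Injective v ∧ Function.Injective w ∧
          Fat ω 𝔅 {1, 2, 3} v w ∧ Xr (v 0) (v 1) (v 2) (v 3) ∧ ¬ Xr (w 0) (w 1) (w 2) (w 3)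
      · exact hB (hXM K c σ ω 𝔅 hK2 hA hN hE hF hR hm)
      · exact hS (hXR K c σ ω 𝔅 hK hA hN hE hF hR hv hm)
    exact hQPP K c σ ω 𝔅 hK2 hA hF hQ
  · have hv := hVD K c σ ω 𝔅 hK2 hA h3 hE
    by_cases hm : ∃ v w : Fin 3 → Word c, Function.Injective v ∧ Function.Injective w ∧
        Fat ω 𝔅 {1, 2} v w ∧ St (v 0) (v 1) (v 2) ∧ ¬ St (w 0) (w 1) (w 2)
    · exact absurd (hNM K c σ ω 𝔅 hK hA hN hE hR hm) hB
    · exact absurd (hNR K c σ ω 𝔅 hK hA hN hE hR hv hm) hS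

/-- Theorem A. -/
theorem thmA_of (hT0 : S_T0) (hT1 : S_T1) (hVD : S_VD) (hNM : S_NM) (hNR : S_NR) (hCX : S_CX)
    (hCR : S_CR) (hQV : S_QV) (hXM : S_XM) (hXR : S_XR) (hQPP : S_QPP) (hLLC : S_LLC)
    (hLBB : S_LBB) (hEXT : S_EXT) (hETW : S_ETW) {𝔅 : Str σ (Word c)}
    (hK : ∃ a b d : K, a ≠ b ∧ a ≠ d ∧ b ≠ d) (hA : AllInv 𝔅) (hN : NEq 𝔅)
    (hC : ¬ PP 𝔅 (C3 (c := c))) : BB 𝔅 ∨ SS 𝔅 ∨ PP 𝔅 (Q4 (c := c)) := by
  have hK2 : ∃ a b : K, a ≠ b := by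
    obtain ⟨a, b, _, h, _, _⟩ := hK
    exact ⟨a, b, h⟩
  by_cases hB : BB 𝔅
  · exact Or.inl hB
  by_cases hS : SS 𝔅
  · exact Or.inr (Or.inl hS)
  right
  right
  rcases finite_or_infinite K with hf | hf
  · have hL : ¬ LIN 𝔅 := fun h => hB (hLBB K c σ 𝔅 hA hN (hLLC K c σ 𝔅 hK2 hA h))
    exact quart_of_ext hT0 hT1 hVD hNM hNR hCX hCR hQV hXM hXR hQPP hK hA hN hC hB hS
      (hEXT K c σ 𝔅 hK2 hA hN hL)
  · exact quart_of_ext hT0 hT1 hVD hNM hNR hCX hCR hQV hXM hXR hQPP hK hA hN hC hB hS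
      (hETW K c σ 𝔅 hA hN hB hS)

/-- Two letters: there are no stars. -/
theorem no_st (hK : ¬ ∃ a b d : K, a ≠ b ∧ a ≠ d ∧ b ≠ d) (x y z : Word c) : ¬ St x y z := by
  rintro ⟨h1, h2, h3, h4, h5, h6⟩
  obtain ⟨q, hq, _, _, hq'⟩ := cc_self h1
  -- `q`: the first place where `x`, `y` differ
  by_cases hA : Agr x z q
  · by_cases hx : x.1 q = z.1 q
    · exact h5 ⟨q, fun q' h => (hq q' h).symm, fun q' h => (hq q' h).symm.trans (hA q' h), hx,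
        fun h => hq' h.symm⟩
    · by_cases hy : y.1 q = z.1 q
      · exact h6 ⟨q, hq, hA, hy, hq'⟩
      · exact hK ⟨x.1 q, y.1 q, z.1 q, hq', hx, hy⟩
  · obtain ⟨r, hr1, _, _, hr4⟩ := cc_self h3
    have hrq : r < q := by
      by_contra hc
      apply hA
      intro q' hq'
      exact hr1 q' (lt_of_lt_of_le hq' (not_lt.1 hc))
    exact h4 ⟨r, fun q' h => (hr1 q' h).symm, fun q' h => (hr1 q' h).symm.trans
      (hq q' (h.trans hrq)), hq r hrq, fun h => hr4 h.symm⟩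

theorem bb_two (hK : ¬ ∃ a b d : K, a ≠ b ∧ a ≠ d ∧ b ≠ d) (𝔅 : Str σ (Word c)) : BB 𝔅 :=
  fun _ _ v hv => ⟨v, hv, fun _ _ h => h, fun _ _ _ _ _ _ => no_st hK _ _ _⟩

end Pool.Agent.Work.MP_8dbde4_lc.FK
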