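import Pool.Agent.Work.MP_8dbde4_lc.Full.Main
import Pool.Agent.Work.MP_8dbde4_lc.Om.Main
import Pool.Agent.Work.MP_8dbde4_lc.FK.Asm

/-!
The classification of all first-order reducts, from the theorems of the block (collected in `Pk`).
-/

set_option autoImplicit false
open Classical

namespace Pool.Agent.Work.MP_8dbde4_lc.FK

open Pool.Agent.Work.MP_8dbde4_lc.TS
open Pool.Agent.Work.MP_8dbde4_lc.Tree (Word Agr Cc RFBH)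
open Pool.Agent.Work.MP_8dbde4_lc.Phy (PP Hom HornC)
open Pool.Agent.Work.MP_8dbde4_lc.Bra (Same InvU BinOn pull c₂)
open Pool.Agent.Work.MP_8dbde4_lc.Full (Arr NEq Cst0 BT Sub EqH)
open Pool.Agent.Work.MP_8dbde4_lc.Om (HornR)

/-- The theorems of the block. -/
structure Pk : Prop where
  nec : S_NEC
  thmA : ∀ (K : Type) (c : ℚ → K) (σ : Sig) (𝔅 : Str σ (Word c)),
    (∃ a b d : K, a ≠ b ∧ a ≠ d ∧ b ≠ d) → AllInv 𝔅 → NEq 𝔅 → ¬ PP 𝔅 (C3 (c := c)) →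
    BB 𝔅 ∨ SS 𝔅 ∨ PP 𝔅 (Q4 (c := c))
  nfq : ∀ (K : Type) (c : ℚ → K) (σ : Sig) (𝔅 : Str σ (Word c)), (∃ a b : K, a ≠ b) →
    PP 𝔅 (Q4 (c := c)) → ¬ InFPC (CSP 𝔅)
  bbm : ∀ (K : Type) (c : ℚ → K) (σ : Sig) (𝔅 : Str σ (Word c)), BB 𝔅 →
    ∀ (X : Type) [Finite X] (S : (X → Word c) → Prop), PP 𝔅 S → (∃ w, S w) →
    ∃ w, S w ∧ BinOn Set.univ w
  ssk : S_SSK
  snf : ∀ (K : Type) [Infinite K] (c : ℚ → K) (σ : Sig) (𝔅 : Str σ (Word c)), AllInv 𝔅 →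
    NEq 𝔅 → SS 𝔅 → InFPC (CSP 𝔅) → ∀ R, EqS (𝔅.rel R)
  sfp : ∀ (K : Type) [Infinite K] (c : ℚ → K) (σ : Sig) (𝔅 : Str σ (Word c)),
    (∀ R, EqS (𝔅.rel R)) → InFP (CSP 𝔅)
  cfp : ∀ (K : Type) (c : ℚ → K) (σ : Sig) (𝔅 : Str σ (Word c)), AllInv 𝔅 → Cst0 𝔅 →
    InFP (CSP 𝔅)

/-- The problem is that of the restriction to the subtree. -/
def Red {σ : Sig} {B B' : Type} (𝔅 : Str σ B) (ι : B' → B) : Prop :=
  ∀ (A : Type) [Finite A] (𝔄 : Str σ A), CSP 𝔅 A 𝔄 ↔ CSP (pull 𝔅 ι) A 𝔄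

variable {K : Type} {c : ℚ → K} {σ : Sig} {𝔅 : Str σ (Word c)}

theorem allInv_iff : AllInv 𝔅 ↔ InvU 𝔅 :=
  ⟨fun h R v w hvw hv => h R v w (same_iff.1 hvw) hv,
    fun h R v w hvw hv => h R v w (same_iff.2 hvw) hv⟩

/-- The restriction to the binary subtree has invariant relations. -/
theorem allInv_pull (hA : AllInv 𝔅) {ι : Word c₂ → Word c} (hi : Function.Injective ι)
    (hι : ∀ x y z, Cc x y z ↔ Cc (ι x) (ι y) (ι z)) : Full.AllInv (pull 𝔅 ι) := by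
  intro R v w hvw hv
  have h1 : Same v w := ⟨fun x y => hvw.1 x trivial y trivial,
    fun x y z => hvw.2 x trivial y trivial z trivial⟩
  have h2 : Same (fun j => ι (v j)) (fun j => ι (w j)) :=
    (Bra.same_iota hi hι v).symm.trans (h1.trans (Bra.same_iota hi hι w))
  exact allInv_iff.1 hA R _ _ h2 hv

/-- The binary case. -/
theorem bb_class (hP : Pk) (hA : AllInv 𝔅) (hB : BB 𝔅) {ι : Word c₂ → Word c}
    (hi : Function.Injective ι) (hι : ∀ x y z, Cc x y z ↔ Cc (ι x) (ι y) (ι z))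
    (h : InFPC (CSP 𝔅)) : Cst0 𝔅 ∨
      (((∀ R, HornC ((pull 𝔅 ι).rel R)) ∨ ∀ R, EqH ((pull 𝔅 ι).rel R)) ∧ Red 𝔅 ι) := by
  have hb := hP.bbm K c σ 𝔅 hB
  have hR : Red 𝔅 ι := fun A _ 𝔄 => Om.csp_pull_of (allInv_iff.1 hA) hb hi hι A 𝔄
  have h1 : InFPC (CSP (pull 𝔅 ι)) := Bra.inFPC_congr hR h
  rcases Full.class_ok (pull 𝔅 ι) (allInv_pull hA hi hι) h1 with h2 | h2 | h2
  · left
    intro R hne
    obtain ⟨w, hw, hbw⟩ := hb _ _ ((Phy.PPB_pf σ (Word c) 𝔅).1 R) hne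
    obtain ⟨u, hu⟩ := Bra.EMB_pf K c _ w hbw
    have h3 : Same w (fun x => ι (u x)) := hu.trans (Bra.same_iota hi hι u)
    obtain ⟨a, ha⟩ := h2 R ⟨u, allInv_iff.1 hA R _ _ h3 hw⟩
    exact ⟨ι a, ha⟩
  · exact Or.inr ⟨Or.inl h2, hR⟩
  · exact Or.inr ⟨Or.inr h2, hR⟩

theorem cst0_of_one (hK : ¬ ∃ a b : K, a ≠ b) : Cst0 𝔅 := by
  intro R ⟨v, hv⟩
  have h : ∀ x y : Word c, x = y := by
    intro x y
    apply Subtype.ext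
    funext q
    by_contra hq
    exact hK ⟨_, _, hq⟩
  have hne : Nonempty (Word c) := ⟨⟨c, by simp⟩⟩
  refine ⟨Classical.arbitrary _, ?_⟩
  have h1 : v = fun _ => Classical.arbitrary (Word c) := funext fun _ => h _ _
  rwa [← h1]

/-- The classification for finite alphabets. -/
theorem class_fin (hP : Pk) [Finite K] (hA : AllInv 𝔅) {ι : Word c₂ → Word c}
    (hi : Function.Injective ι) (hι : ∀ x y z, Cc x y z ↔ Cc (ι x) (ι y) (ι z))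
    (h : InFPC (CSP 𝔅)) : Cst0 𝔅 ∨
      (((∀ R, HornC ((pull 𝔅 ι).rel R)) ∨ ∀ R, EqH ((pull 𝔅 ι).rel R)) ∧ Red 𝔅 ι) := by
  by_cases hK2 : ∃ a b : K, a ≠ b
  swap
  · exact Or.inl (cst0_of_one hK2)
  by_cases hN : NEq 𝔅
  swap
  · exact Or.inl (hP.nec K c σ 𝔅 hA hN)
  by_cases hC : PP 𝔅 (C3 (c := c))
  · have h1 := (Bra.class_main ⟨allInv_iff.1 hA, hC⟩ hi hι).1 h
    exact Or.inr ⟨Or.inl h1.1, h1.2⟩
  by_cases hK3 : ∃ a b d : K, a ≠ b ∧ a ≠ d ∧ b ≠ d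
  · rcases hP.thmA K c σ 𝔅 hK3 hA hN hC with hB | hS | hQ
    · exact bb_class hP hA hB hi hι h
    · have := hP.ssk K c σ 𝔅 hK2 hS
      exact (not_finite K).elim
    · exact absurd h (hP.nfq K c σ 𝔅 hK2 hQ)
  · exact bb_class hP hA (bb_two hK3 𝔅) hi hι h

/-- The converse. -/
theorem fp_of_class (hP : Pk) (hA : AllInv 𝔅) {ι : Word c₂ → Word c} (h : Cst0 𝔅 ∨
      (((∀ R, HornC ((pull 𝔅 ι).rel R)) ∨ ∀ R, EqH ((pull 𝔅 ι).rel R)) ∧ Red 𝔅 ι)) :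
    InFP (CSP 𝔅) := by
  rcases h with h | ⟨h | h, hR⟩
  · exact hP.cfp K c σ 𝔅 hA h
  · exact Bra.inFP_congr (fun A _ 𝔄 => (hR A 𝔄).symm) (Phy.inFP_of_hornC _ h)
  · exact Bra.inFP_congr (fun A _ 𝔄 => (hR A 𝔄).symm)
      (Full.EFP_ok Full.inFP_of_horn _ _ _ h)

/-- The classification for the alphabet `ℕ`. -/
theorem class_w (hP : Pk) {c : ℚ → ℕ} {𝔅 : Str σ (Word c)} (hA : AllInv 𝔅)
    {ι : Word c₂ → Word c} (hi : Function.Injective ι)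
    (hι : ∀ x y z, Cc x y z ↔ Cc (ι x) (ι y) (ι z)) (h : InFPC (CSP 𝔅)) : Cst0 𝔅 ∨
      (((∀ R, HornC ((pull 𝔅 ι).rel R)) ∨ ∀ R, EqH ((pull 𝔅 ι).rel R)) ∧ Red 𝔅 ι) ∨
      (∀ R, HornR (𝔅.rel R)) ∨ ∀ R, EqS (𝔅.rel R) := by
  have hK2 : ∃ a b : ℕ, a ≠ b := ⟨0, 1, by norm_num⟩
  have hK3 : ∃ a b d : ℕ, a ≠ b ∧ a ≠ d ∧ b ≠ d := ⟨0, 1, 2, by norm_num, by norm_num, by norm_num⟩
  by_cases hN : NEq 𝔅
  swap
  · exact Or.inl (hP.nec ℕ c σ 𝔅 hA hN)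
  by_cases hC : PP 𝔅 (C3 (c := c))
  · rcases (Om.class_w ⟨allInv_iff.1 hA, hC⟩ hi hι).1 h with h1 | h1
    · exact Or.inr (Or.inr (Or.inl h1))
    · exact Or.inr (Or.inl ⟨Or.inl h1.1, h1.2⟩)
  rcases hP.thmA ℕ c σ 𝔅 hK3 hA hN hC with hB | hS | hQ
  · rcases bb_class hP hA hB hi hι h with h1 | h1
    · exact Or.inl h1
    · exact Or.inr (Or.inl h1)
  · exact Or.inr (Or.inr (Or.inr (hP.snf ℕ c σ 𝔅 hA hN hS h)))
  · exact absurd h (hP.nfq ℕ c σ 𝔅 hK2 hQ)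

theorem fp_of_class_w (hP : Pk) {c : ℚ → ℕ} {𝔅 : Str σ (Word c)} (hA : AllInv 𝔅)
    {ι : Word c₂ → Word c} (h : Cst0 𝔅 ∨
      (((∀ R, HornC ((pull 𝔅 ι).rel R)) ∨ ∀ R, EqH ((pull 𝔅 ι).rel R)) ∧ Red 𝔅 ι) ∨
      (∀ R, HornR (𝔅.rel R)) ∨ ∀ R, EqS (𝔅.rel R)) : InFP (CSP 𝔅) := by
  rcases h with h | h | h | h
  · exact fp_of_class hP hA (ι := ι) (Or.inl h)
  · exact fp_of_class hP hA (ι := ι) (Or.inr h)
  · exact Om.inFP_of_hornR 𝔅 h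
  · exact hP.sfp ℕ c σ 𝔅 h

/-- Question Q1 for all first-order reducts. -/
theorem main_of (hP : Pk) [Countable K] (hA : AllInv 𝔅) (h : InFPC (CSP 𝔅)) : InFP (CSP 𝔅) := by
  by_cases hK2 : ∃ a b : K, a ≠ b
  swap
  · exact hP.cfp K c σ 𝔅 hA (cst0_of_one hK2)
  rcases finite_or_infinite K with hK | hK
  · obtain ⟨ι, hi, hι⟩ := Bra.IOT_pf K c hK2
    exact fp_of_class hP hA (class_fin hP hA hi hι h)
  · obtain ⟨_⟩ := nonempty_denumerable K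
    let e : K ≃ ℕ := Denumerable.eqv K
    let E : Word (fun q => e (c q)) ≃ Word c := (Om.rl e c).symm
    have h1 : ∀ (A : Type) [Finite A] (𝔄 : Str σ A), CSP (pull 𝔅 E) A 𝔄 ↔ CSP 𝔅 A 𝔄 :=
      fun A _ 𝔄 => Bra.csp_pull_equiv 𝔅 E A 𝔄
    have h2 : AllInv (pull 𝔅 E) := allInv_iff.2 (fun R v w hvw hv =>
      allInv_iff.1 hA R _ _ ((Om.same_equivK (Om.symm_cc (Om.rl_cc e c)) v).symm.trans
        (hvw.trans (Om.same_equivK (Om.symm_cc (Om.rl_cc e c)) w))) hv)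
    obtain ⟨ι, hi, hι⟩ := Bra.IOT_pf ℕ (fun q => e (c q)) ⟨0, 1, by norm_num⟩
    exact Bra.inFP_congr h1 (fp_of_class_w hP h2 (class_w hP h2 hi hι
      (Bra.inFPC_congr (fun A _ 𝔄 => (h1 A 𝔄).symm) h)))

end Pool.Agent.Work.MP_8dbde4_lc.FK
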