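import Pool.Agent.Work.MP_8dbde4_lc.Full.StmtsB
import Pool.Agent.Work.MP_8dbde4_lc.Bra.Defs

/-!
# All first-order reducts of the homogeneous C-relations: definitions

The domain is `Word c`, `c : ℚ → K`, for any set `K` of letters (the branching number is `card K`);
`Cc z x y`: `z` splits off from `x` and `y` first. Continuation of `Full/Defs.lean` (two letters).
-/

set_option autoImplicit false
open Classical

namespace Pool.Agent.Work.MP_8dbde4_lc.FK

open Pool.Agent.Work.MP_8dbde4_lc.TS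
open Pool.Agent.Work.MP_8dbde4_lc.Tree (Word Agr Cc)
open Pool.Agent.Work.MP_8dbde4_lc.Phy (PP Hom)
open Pool.Agent.Work.MP_8dbde4_lc.Bra (Same InvU BinOn pull c₂)
open Pool.Agent.Work.MP_8dbde4_lc.Full (Arr NEq Cst0 BT Sub)
open Pool.Agent.Work.MP_8dbde4_lc.Full.BT

variable {K : Type} {c : ℚ → K} {σ : Sig}

/-! ### Facts on the split relation (all proved here) -/

theorem cc_symm {z x y : Word c} (h : Cc z x y) : Cc z y x := by
  obtain ⟨q, h1, h2, h3, h4⟩ := h
  exact ⟨q, h2, h1, h3.symm, fun h => h4 (h.trans h3.symm)⟩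

theorem cc_ne {z x y : Word c} (h : Cc z x y) : z ≠ x := by
  obtain ⟨q, h1, h2, h3, h4⟩ := h
  intro h
  exact h4 (by rw [h])

theorem cc_ne' {z x y : Word c} (h : Cc z x y) : z ≠ y := cc_ne (cc_symm h)

theorem cc_self {z x : Word c} (h : z ≠ x) : Cc z x x := by
  have hfin : {q | z.1 q ≠ x.1 q}.Finite := by
    refine (z.2.union x.2).subset ?_
    intro q hq
    by_contra hc
    simp only [Set.mem_union, Set.mem_ofPred_eq, not_or, not_not] at hc
    exact hq (hc.1.trans hc.2.symm)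
  have hne : {q | z.1 q ≠ x.1 q}.Nonempty := by
    by_contra hc
    rw [Set.not_nonempty_iff_eq_empty] at hc
    apply h
    apply Subtype.ext
    funext q
    by_contra hq
    have : q ∈ {q | z.1 q ≠ x.1 q} := hq
    rw [hc] at this
    exact this
  obtain ⟨q, hq, hmin⟩ := Set.exists_min_image _ id hfin hne
  have hA : Agr z x q := by
    intro q' hq'
    by_contra hc
    exact absurd (hmin q' hc) (not_le.2 hq')
  exact ⟨q, hA, hA, rfl, hq⟩

theorem cc_iff_ne {z x : Word c} : Cc z x x ↔ z ≠ x := ⟨cc_ne, cc_self⟩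

/-- Asymmetry. -/
theorem cc_asymm {z x y : Word c} (h : Cc z x y) : ¬ Cc x z y := by
  rintro ⟨q', h1', h2', h3', h4'⟩
  obtain ⟨q, h1, h2, h3, h4⟩ := h
  rcases lt_trichotomy q q' with hlt | heq | hgt
  · have h5 : x.1 q = z.1 q := h1' q hlt
    exact h4 h5.symm
  · subst heq
    exact h4' (h3.trans h3'.symm)
  · exact h4' (h1 q' hgt).symm

/-- The main property: a further point is on one of the two sides. -/
theorem cc_or {z x y : Word c} (h : Cc z x y) (w : Word c) : Cc z x w ∨ Cc w x y := by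
  obtain ⟨q, h1, h2, h3, h4⟩ := h
  by_cases hA : Agr z w q
  · by_cases hw : w.1 q = x.1 q
    · left
      exact ⟨q, h1, hA, hw.symm, h4⟩
    · right
      refine ⟨q, ?_, ?_, h3, hw⟩
      · intro q' hq'
        exact (hA q' hq').symm.trans (h1 q' hq')
      · intro q' hq'
        exact (hA q' hq').symm.trans (h2 q' hq')
  · right
    have hne : w ≠ x := by
      rintro rfl
      exact hA h1
    obtain ⟨r, hr1, hr2, hr3, hr4⟩ := cc_self hne
    have hrq : r < q := by
      by_contra hc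
      apply hA
      intro q' hq'
      rw [h1 q' hq']
      exact (hr1 q' (lt_of_lt_of_le hq' (not_lt.1 hc))).symm
    have hxy : ∀ q' < q, x.1 q' = y.1 q' := fun q' hq' => (h1 q' hq').symm.trans (h2 q' hq')
    refine ⟨r, hr1, ?_, hxy r hrq, hr4⟩
    intro q' hq'
    exact (hr1 q' hq').trans (hxy q' (hq'.trans hrq))

theorem cc_trans {z x y w : Word c} (h : Cc z x y) (h' : Cc z y w) : Cc z x w := by
  rcases cc_or h w with h1 | h1
  · exact h1
  · rcases cc_or (cc_symm h') x with h2 | h2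
    · exact cc_symm h2
    · exact absurd h2 (cc_asymm h1)

/-- `x` and `y` on different sides of `u | v`. -/
theorem cc_mid {x y z w : Word c} (h : Cc z x y) (h' : Cc x z w) : Cc y z w := by
  rcases cc_or h' y with h1 | h1
  · exact absurd h1 (cc_asymm h)
  · exact h1

theorem cc_irrefl {x y : Word c} : ¬ Cc x x y := fun h => cc_ne h rfl

theorem cc_irrefl' {x y : Word c} : ¬ Cc x y x := fun h => cc_ne' h rfl

/-- Three different words which split at the same place. -/
def St (x y z : Word c) : Prop :=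
  x ≠ y ∧ y ≠ z ∧ x ≠ z ∧ ¬ Cc z x y ∧ ¬ Cc y x z ∧ ¬ Cc x y z

/-- Three different words form a star, or one of them splits off from the other two. -/
theorem cc_tri {x y z : Word c} (hxy : x ≠ y) (hxz : x ≠ z) (hyz : y ≠ z) :
    Cc x y z ∨ Cc y x z ∨ Cc z x y ∨ St x y z := by
  by_cases h1 : Cc x y z
  · exact Or.inl h1
  · by_cases h2 : Cc y x z
    · exact Or.inr (Or.inl h2)
    · by_cases h3 : Cc z x y
      · exact Or.inr (Or.inr (Or.inl h3))
      · exact Or.inr (Or.inr (Or.inr ⟨hxy, hyz, hxz, h3, h2, h1⟩))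

theorem St.swap {x y z : Word c} (h : St x y z) : St y x z :=
  ⟨h.1.symm, h.2.2.1, h.2.1, fun h1 => h.2.2.2.1 (cc_symm h1), h.2.2.2.2.2, h.2.2.2.2.1⟩

theorem St.rot {x y z : Word c} (h : St x y z) : St y z x :=
  ⟨h.2.1, h.2.2.1.symm, h.1.symm, h.2.2.2.2.2, fun h1 => h.2.2.2.1 (cc_symm h1),
    fun h1 => h.2.2.2.2.1 (cc_symm h1)⟩

/-! ### Tuples -/

/-- On `Y` the tuples `v` and `w` have the same equalities and the same splits. -/
def SameOn {X : Type} (Y : Set X) (v w : X → Word c) : Prop :=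
  (∀ x ∈ Y, ∀ y ∈ Y, v x = v y ↔ w x = w y) ∧
    ∀ x ∈ Y, ∀ y ∈ Y, ∀ z ∈ Y, Cc (v z) (v x) (v y) ↔ Cc (w z) (w x) (w y)

/-- Invariant sets of tuples. -/
def Inv {X : Type} (S : (X → Word c) → Prop) : Prop :=
  ∀ v w : X → Word c, SameOn Set.univ v w → S v → S w

/-- All the relations are invariant (first-order definable from the split relation). -/
def AllInv (𝔅 : Str σ (Word c)) : Prop := ∀ R, Inv (𝔅.rel R)

/-- The split relation as a set of triples. -/
def C3 (v : Fin 3 → Word c) : Prop := Cc (v 0) (v 1) (v 2)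

/-- No three entries with coordinates in `Y` form a star. -/
def Bin {X : Type} (Y : Set X) (v : X → Word c) : Prop :=
  ∀ x ∈ Y, ∀ y ∈ Y, ∀ z ∈ Y, ¬ St (v x) (v y) (v z)

/-- All the different entries split at the same place. -/
def StarT {X : Type} (v : X → Word c) : Prop := ∀ x y z, Cc (v z) (v x) (v y) → v x = v y

/-- Every tuple can be mapped to a binary tuple. -/
def BB (𝔅 : Str σ (Word c)) : Prop := ∀ (X : Type) [Finite X] (v : X → Word c),
  Function.Injective v → ∃ w : X → Word c, Function.Injective w ∧ Arr 𝔅 v w ∧ Bin Set.univ w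

/-- Every tuple can be mapped to a star. -/
def SS (𝔅 : Str σ (Word c)) : Prop := ∀ (X : Type) [Finite X] (v : X → Word c),
  Function.Injective v → ∃ w : X → Word c, Function.Injective w ∧ Arr 𝔅 v w ∧ StarT w

/-- Arrows between all the types of three points. -/
def E3 (𝔅 : Str σ (Word c)) : Prop := ∀ v w : Fin 3 → Word c, Function.Injective v →
  Function.Injective w → Arr 𝔅 v w

/-! ### Fat points -/

/-- `v'` is obtained from `v` by replacing points by (possibly empty) blocks: a block does not split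
relative to the other points. -/
def Bl {X Y : Type} (π : Y → X) (v : X → Word c) (v' : Y → Word c) : Prop :=
  ∀ y y' y'', π y'' ≠ π y → π y'' ≠ π y' →
    (Cc (v' y'') (v' y) (v' y') ↔ Cc (v (π y'')) (v (π y)) (v (π y')))

/-- Fat arrows: arrows after all replacements of the points in `F` by blocks (and after omitting
points). The blocks are binary, or arbitrary if `ω` is true. -/
def Fat (ω : Prop) (𝔅 : Str σ (Word c)) {X : Type} (F : Set X) (v w : X → Word c) : Prop :=
  ∀ (Y : Type) [Finite Y] (π : Y → X) (v' w' : Y → Word c),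
    (∀ y y', π y = π y' → π y ∉ F → y = y') → Function.Injective v' → Function.Injective w' →
    (ω ∨ ∀ x, Bin {y | π y = x} v') →
    Bl π v v' → Bl π w w' → (∀ x, SameOn {y | π y = x} v' w') → Arr 𝔅 v' w'

/-- Fat arrows can be extended to a further point, which is then fat. -/
def Ext (ω : Prop) (𝔅 : Str σ (Word c)) : Prop :=
  ∀ (X : Type) [Finite X] (F : Set X) (v w : X → Word c), Function.Injective v →
    Function.Injective w → Fat ω 𝔅 F v w → ∀ v' : Option X → Word c, Function.Injective v' →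
    (∀ x, v' (some x) = v x) → ∃ w' : Option X → Word c, Function.Injective w' ∧
      (∀ x, w' (some x) = w x) ∧ Fat ω 𝔅 {o | ∀ x, o = some x → x ∈ F} v' w'

/-- All the fat arrows between the types of three points. -/
def F3 (ω : Prop) (𝔅 : Str σ (Word c)) : Prop := ∀ v w : Fin 3 → Word c, Function.Injective v →
  Function.Injective w → Fat ω 𝔅 Set.univ v w

/-- Fat points keep their splits. -/
def Rg3 (ω : Prop) (𝔅 : Str σ (Word c)) : Prop := ∀ (X : Type) [Finite X] (F : Set X)
  (v w : X → Word c), Function.Injective v → Function.Injective w → Fat ω 𝔅 F v w → SameOn F v w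

/-! ### Quartets -/

/-- The quartet relation `x y | z t` of the unrooted tree. -/
def Qr (x y z t : Word c) : Prop :=
  x ≠ y ∧ z ≠ t ∧ ((Cc z x y ∧ Cc t x y) ∨ (Cc x z t ∧ Cc y z t))

/-- The quartet relation as a set of tuples. -/
def Q4 (v : Fin 4 → Word c) : Prop := Qr (v 0) (v 1) (v 2) (v 3)

/-- Four different words in different directions from one branch point of the unrooted tree. -/
def Xr (x y z t : Word c) : Prop :=
  x ≠ y ∧ x ≠ z ∧ x ≠ t ∧ y ≠ z ∧ y ≠ t ∧ z ≠ t ∧ ¬ Qr x y z t ∧ ¬ Qr x z y t ∧ ¬ Qr x t y z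

/-- The points `v 2`, `v 3` are attached at the same place of the path from `v 0` to `v 1`. -/
def QQ (v : Fin 4 → Word c) : Prop :=
  (v 0 ≠ v 1 ∧ v 2 ≠ v 0 ∧ v 2 ≠ v 1 ∧ v 2 = v 3) ∨ Qr (v 0) (v 1) (v 2) (v 3)

/-- Quartets are preserved. -/
def QP (𝔅 : Str σ (Word c)) : Prop := ∀ v w : Fin 4 → Word c, Function.Injective v →
  Arr 𝔅 v w → Q4 v → Q4 w

/-- Fat points keep their quartets. -/
def Rg4 (ω : Prop) (𝔅 : Str σ (Word c)) : Prop := ∀ (X : Type) [Finite X] (F : Set X)
  (v w : X → Word c), Function.Injective v → Function.Injective w → Fat ω 𝔅 F v w →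
  ∀ x ∈ F, ∀ y ∈ F, ∀ z ∈ F, ∀ t ∈ F, Qr (v x) (v y) (v z) (v t) ↔ Qr (w x) (w y) (w z) (w t)

/-- Some fat arrow maps four points in different directions to a quartet. -/
def XQ (ω : Prop) (𝔅 : Str σ (Word c)) : Prop := ∃ v w : Fin 4 → Word c, Function.Injective v ∧
  Function.Injective w ∧ Fat ω 𝔅 Set.univ v w ∧ Xr (v 0) (v 1) (v 2) (v 3) ∧
    ¬ Xr (w 0) (w 1) (w 2) (w 3)

/-- Some fat arrow maps a quartet to four points in different directions. -/
def QX (ω : Prop) (𝔅 : Str σ (Word c)) : Prop := ∃ v w : Fin 4 → Word c, Function.Injective v ∧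
  Function.Injective w ∧ Fat ω 𝔅 Set.univ v w ∧ Q4 v ∧ Xr (w 0) (w 1) (w 2) (w 3)

/-! ### Abstract C-relations -/

/-- The properties of the split relation. -/
structure CRel {X : Type} (C : X → X → X → Prop) : Prop where
  symm : ∀ z x y, C z x y → C z y x
  asymm : ∀ z x y, C z x y → ¬ C x z y
  or : ∀ z x y w, C z x y → C z x w ∨ C w x y
  self : ∀ z x, z ≠ x → C z x x

/-- Stars of an abstract C-relation. -/
def AS {X : Type} (C : X → X → X → Prop) (x y z : X) : Prop :=
  x ≠ y ∧ y ≠ z ∧ x ≠ z ∧ ¬ C z x y ∧ ¬ C y x z ∧ ¬ C x y z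

/-- The splits of the tuple `v` in the unrooted tree, seen from the word `s`. -/
def Rt {X : Type} (s : Word c) (v : X → Word c) (z x y : X) : Prop :=
  (x = y ∧ z ≠ x) ∨ Qr s (v z) (v x) (v y)

/-! ### Trees -/

/-- The points of `A` and `B` are separated. -/
def Sep {X : Type} (v : X → Word c) (A B : List X) : Prop :=
  (∀ x ∈ A, ∀ y ∈ A, ∀ z ∈ B, Cc (v z) (v x) (v y)) ∧
    ∀ x ∈ A, ∀ y ∈ B, ∀ z ∈ B, Cc (v x) (v y) (v z)

/-- The tuple `v` has the (binary) shape `T`. -/
def Sh {X : Type} (v : X → Word c) : BT X → Prop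
  | lf _ => True
  | nd l r => Sh v l ∧ Sh v r ∧ Sep v l.lvs r.lvs

/-- The entries split off one after the other. -/
def CombL {X : Type} (v : X → Word c) : List X → Prop
  | [] => True
  | x :: ℓ => (∀ y ∈ ℓ, ∀ z ∈ ℓ, Cc (v x) (v y) (v z)) ∧ CombL v ℓ

/-- The entries form a star. -/
def StL {X : Type} (v : X → Word c) (ℓ : List X) : Prop :=
  ∀ x ∈ ℓ, ∀ y ∈ ℓ, ∀ z ∈ ℓ, x ≠ y → y ≠ z → x ≠ z → St (v x) (v y) (v z)

/-- Every binary shape can be mapped to the comb with the same order of the leaves. -/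
def LIN (𝔅 : Str σ (Word c)) : Prop := ∀ (X : Type) [Finite X] (T : BT X) (v z : X → Word c),
  (∀ x, x ∈ T.lvs) → Sh v T → CombL z T.lvs → Arr 𝔅 v z

/-- Every binary tuple can be mapped to a comb. -/
def LINC (𝔅 : Str σ (Word c)) : Prop := ∀ (X : Type) [Finite X] (v : X → Word c),
  Function.Injective v → Bin Set.univ v → ∃ (z : X → Word c) (ℓ : List X),
    Function.Injective z ∧ (∀ x, x ∈ ℓ) ∧ ℓ.Nodup ∧ CombL z ℓ ∧ Arr 𝔅 v z

/-- Arrows between blow-ups of `v`, `w` with complete binary trees of depth `n` at the points of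
`F`. -/
def NF (𝔅 : Str σ (Word c)) {X : Type} (n : ℕ) (F : Set X) (v w : X → Word c) : Prop :=
  ∃ (Y : Type) (_ : Finite Y) (π : Y → X) (T : X → BT Y) (v' w' : Y → Word c),
    Function.Injective v' ∧ Function.Injective w' ∧ Bl π v v' ∧ Bl π w w' ∧ Arr 𝔅 v' w' ∧
      ∀ x, (∀ y ∈ (T x).lvs, π y = x) ∧ Sh v' (T x) ∧ Sh w' (T x) ∧ (x ∈ F → (T x).Cpl n)

/-! ### Easy facts -/

theorem same_iff {X : Type} {v w : X → Word c} : Same v w ↔ SameOn Set.univ v w :=
  ⟨fun h => ⟨fun x _ y _ => h.1 x y, fun x _ y _ z _ => h.2 x y z⟩,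
    fun h => ⟨fun x y => h.1 x trivial y trivial, fun x y z => h.2 x trivial y trivial z trivial⟩⟩

theorem SameOn.refl {X : Type} (Y : Set X) (v : X → Word c) : SameOn Y v v :=
  ⟨fun _ _ _ _ => Iff.rfl, fun _ _ _ _ _ _ => Iff.rfl⟩

theorem SameOn.symm {X : Type} {Y : Set X} {v w : X → Word c} (h : SameOn Y v w) : SameOn Y w v :=
  ⟨fun x hx y hy => (h.1 x hx y hy).symm, fun x hx y hy z hz => (h.2 x hx y hy z hz).symm⟩

theorem SameOn.trans {X : Type} {Y : Set X} {u v w : X → Word c} (h : SameOn Y u v)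
    (h' : SameOn Y v w) : SameOn Y u w :=
  ⟨fun x hx y hy => (h.1 x hx y hy).trans (h'.1 x hx y hy),
    fun x hx y hy z hz => (h.2 x hx y hy z hz).trans (h'.2 x hx y hy z hz)⟩

theorem SameOn.mono {X : Type} {Y Y' : Set X} {v w : X → Word c} (h : SameOn Y v w)
    (hY : Y' ⊆ Y) : SameOn Y' v w :=
  ⟨fun x hx y hy => h.1 x (hY hx) y (hY hy), fun x hx y hy z hz => h.2 x (hY hx) y (hY hy) z (hY hz)⟩

theorem SameOn.comp {X Y : Type} {v w : X → Word c} (h : SameOn Set.univ v w) (e : Y → X) :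
    SameOn Set.univ (fun y => v (e y)) (fun y => w (e y)) :=
  ⟨fun x _ y _ => h.1 (e x) trivial (e y) trivial,
    fun x _ y _ z _ => h.2 (e x) trivial (e y) trivial (e z) trivial⟩

theorem SameOn.st {X : Type} {Y : Set X} {v w : X → Word c} (h : SameOn Y v w) {x y z : X}
    (hx : x ∈ Y) (hy : y ∈ Y) (hz : z ∈ Y) : St (v x) (v y) (v z) ↔ St (w x) (w y) (w z) := by
  unfold St
  rw [ne_eq, ne_eq, ne_eq, ne_eq, ne_eq, ne_eq, h.1 x hx y hy, h.1 y hy z hz, h.1 x hx z hz,
    h.2 x hx y hy z hz, h.2 x hx z hz y hy, h.2 y hy z hz x hx]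

theorem SameOn.qr {X : Type} {Y : Set X} {v w : X → Word c} (h : SameOn Y v w) {x y z t : X}
    (hx : x ∈ Y) (hy : y ∈ Y) (hz : z ∈ Y) (ht : t ∈ Y) :
    Qr (v x) (v y) (v z) (v t) ↔ Qr (w x) (w y) (w z) (w t) := by
  unfold Qr
  rw [ne_eq, ne_eq, ne_eq, ne_eq, h.1 x hx y hy, h.1 z hz t ht, h.2 x hx y hy z hz,
    h.2 x hx y hy t ht, h.2 z hz t ht x hx, h.2 z hz t ht y hy]

theorem SameOn.bin {X : Type} {Y : Set X} {v w : X → Word c} (h : SameOn Y v w)
    (hv : Bin Y v) : Bin Y w :=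
  fun x hx y hy z hz h1 => hv x hx y hy z hz ((h.st hx hy hz).2 h1)

theorem bin_iff {X : Type} {v : X → Word c} : BinOn Set.univ v ↔ Bin Set.univ v := by
  constructor
  · intro h x _ y _ z _ hs
    obtain ⟨h1, h2, h3, h4, h5, h6⟩ := hs
    rcases h x trivial y trivial z trivial with h7 | h7 | h7 | h7
    · exact h1 h7.1
    · exact h4 h7
    · exact h5 h7
    · exact h6 h7
  · intro h x _ y _ z _
    by_cases h1 : v x = v y
    · by_cases h2 : v y = v z
      · exact Or.inl ⟨h1, h2⟩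
      · right
        left
        rw [h1]
        exact cc_self (Ne.symm h2)
    · by_cases h2 : v x = v z
      · right
        right
        left
        rw [← h2]
        exact cc_self (Ne.symm h1)
      · by_cases h3 : v y = v z
        · right
          right
          right
          rw [← h3]
          exact cc_self h1
        · rcases cc_tri h1 h2 h3 with h4 | h4 | h4 | h4
          · exact Or.inr (Or.inr (Or.inr h4))
          · exact Or.inr (Or.inr (Or.inl h4))
          · exact Or.inr (Or.inl h4)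
          · exact absurd h4 (h x trivial y trivial z trivial)

theorem Bin.mono {X : Type} {Y Y' : Set X} {v : X → Word c} (h : Bin Y v) (hY : Y' ⊆ Y) :
    Bin Y' v := fun x hx y hy z hz => h x (hY hx) y (hY hy) z (hY hz)

theorem Fat.congr_prop {ω : Prop} {𝔅 : Str σ (Word c)} {X : Type} {F : Set X}
    {v w : X → Word c} (h : Fat ω 𝔅 F v w) : Fat False 𝔅 F v w :=
  fun Y _ π v' w' h1 h2 h3 h4 h5 h6 h7 =>
    h Y π v' w' h1 h2 h3 (Or.inr (h4.resolve_left id)) h5 h6 h7

end Pool.Agent.Work.MP_8dbde4_lc.FK
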