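import Pool.Agent.Work.MP_8dbde4_lc.FK.Class
import Pool.Agent.Work.MP_8dbde4_lc.Om.Example

/-!
# Examples: the quartet relation alone, threefold branching alone
-/

set_option autoImplicit false
open Classical

namespace Pool.Agent.Work.MP_8dbde4_lc.FK

open Pool.Agent.Work.MP_8dbde4_lc.TS
open Pool.Agent.Work.MP_8dbde4_lc.Tree (Word Agr Cc)
open Pool.Agent.Work.MP_8dbde4_lc.Phy (PP Hom HornC)
open Pool.Agent.Work.MP_8dbde4_lc.Bra (Same InvU BinOn pull c₂ Star)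
open Pool.Agent.Work.MP_8dbde4_lc.Full (Arr NEq Cst0 BT Sub EqH)

variable {K : Type} {c : ℚ → K}

/-- The structure with the quartet relation only. -/
def Qk (c : ℚ → K) : Str (Phy.sg 4) (Word c) where
  rel _ t := Qr (t (0 : Fin 4)) (t (1 : Fin 4)) (t (2 : Fin 4)) (t (3 : Fin 4))

/-- The structure with the relation `Star` only. -/
def Nk (c : ℚ → K) : Str (Phy.sg 3) (Word c) where
  rel _ t := Star (t (0 : Fin 3)) (t (1 : Fin 3)) (t (2 : Fin 3))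

/-- The quartet relation is not in FPC, for all branching numbers. -/
theorem not_inFPC_Qk (hP : Pk) (c : ℚ → K) (hK : ∃ a b : K, a ≠ b) : ¬ InFPC (CSP (Qk c)) :=
  hP.nfq K c _ (Qk c) hK ((Phy.PPB_pf (Phy.sg 4) (Word c) (Qk c)).1 ())

theorem allInv_Nk (c : ℚ → K) : AllInv (Nk c) := by
  intro R v w H hv
  exact (H.st (Set.mem_univ (0 : Fin 3)) (Set.mem_univ (1 : Fin 3)) (Set.mem_univ (2 : Fin 3))).1
    (show St (v (0 : Fin 3)) (v (1 : Fin 3)) (v (2 : Fin 3)) from hv)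

/-- With finitely many and at least three branches `Star` alone is not in FPC. -/
theorem not_inFPC_Nk (hP : Pk) [Finite K] (c : ℚ → K) (hK : ∃ a b d : K, a ≠ b ∧ b ≠ d ∧ a ≠ d) :
    ¬ InFPC (CSP (Nk c)) := by
  intro h
  obtain ⟨a, b, d, hab, hbd, had⟩ := hK
  obtain ⟨ι, hi, hι⟩ := Bra.IOT_pf K c ⟨a, b, hab⟩
  have hst := Bra.star_at0 c hab hbd had
  rcases class_fin hP (allInv_Nk c) hi hι h with h1 | ⟨_, h1⟩
  · obtain ⟨e, he⟩ := h1 () ⟨(![Bra.at0 c a, Bra.at0 c b, Bra.at0 c d] : Fin 3 → Word c), hst⟩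
    exact he.1 rfl
  · let 𝔄 : Str (Phy.sg 3) (Fin 3) := ⟨fun _ t => t = fun j : Fin 3 => j⟩
    have h2 : CSP (Nk c) (Fin 3) 𝔄 := by
      refine ⟨![Bra.at0 c a, Bra.at0 c b, Bra.at0 c d], ?_⟩
      rintro R t rfl
      exact hst
    obtain ⟨u, hu⟩ := (h1 (Fin 3) 𝔄).1 h2
    have h3 : Star (ι (u 0)) (ι (u 1)) (ι (u 2)) := hu () (fun j : Fin 3 => j) rfl
    obtain ⟨e1, e2, e3, e4, e5, e6⟩ := h3
    exact Bra.no_star (u 0) (u 1) (u 2) ⟨fun h => e1 (congrArg ι h), fun h => e2 (congrArg ι h),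
      fun h => e3 (congrArg ι h), fun h => e4 ((hι _ _ _).1 h), fun h => e5 ((hι _ _ _).1 h),
      fun h => e6 ((hι _ _ _).1 h)⟩

/-- With infinitely many branches `Star` alone is in FP. -/
theorem inFP_Nk (hP : Pk) (c : ℚ → ℕ) : InFP (CSP (Nk c)) := by
  refine hP.sfp ℕ c _ (Nk c) (fun R v w z hv _ hz hk => ?_)
  have hv' : Star (v (0 : Fin 3)) (v (1 : Fin 3)) (v (2 : Fin 3)) := hv
  have hne : ∀ i j : Fin 3, v i ≠ v j → z i ≠ z j := fun i j h h' => h ((hk i j).1 h').1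
  have hz' : ∀ i j k : Fin 3, Cc (z k) (z i) (z j) → z i = z j := fun i j k => hz i j k
  have h01 := hne 0 1 hv'.1
  have h12 := hne 1 2 hv'.2.1
  have h02 := hne 0 2 hv'.2.2.1
  exact ⟨h01, h12, h02, fun h => h01 (hz' 0 1 2 h), fun h => h02 (hz' 0 2 1 h),
    fun h => h12 (hz' 1 2 0 h)⟩

end Pool.Agent.Work.MP_8dbde4_lc.FK
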