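import Pool.Agent.Work.MP_8dbde4_lc.FK.StmtsB

/-!
Item AXS of the block FK: tuples without quartets can be mapped to stars.
-/

set_option autoImplicit false
open Classical

namespace Pool.Agent.Work.MP_8dbde4_lc.FK

open Pool.Agent.Work.MP_8dbde4_lc.TS
open Pool.Agent.Work.MP_8dbde4_lc.Tree (Word Agr Cc)
open Pool.Agent.Work.MP_8dbde4_lc.Phy (PP Hom)
open Pool.Agent.Work.MP_8dbde4_lc.Bra (Same InvU BinOn pull c₂)
open Pool.Agent.Work.MP_8dbde4_lc.Full (Arr NEq Cst0 BT Sub)
open Pool.Agent.Work.MP_8dbde4_lc.Full.BT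

namespace XAXS

variable {K : Type} {c : ℚ → K} {Y : Type}

/-- The entry `z` is split off from two different entries. -/
def Top (w : Y → Word c) (z : Y) : Prop := ∃ x y, w x ≠ w y ∧ Cc (w z) (w x) (w y)

/-- Without quartets an entry which is split off from two others is split off from all. -/
theorem top_all {w : Y → Word c} (hw : Function.Injective w)
    (hQ : ∀ x y z t, ¬ Qr (w x) (w y) (w z) (w t)) {z : Y} (hz : Top w z) {s t : Y}
    (hs : s ≠ z) (ht : t ≠ z) : Cc (w z) (w s) (w t) := by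
  obtain ⟨x, y, hxy, h⟩ := hz
  have key : ∀ a, a ≠ z → Cc (w z) (w x) (w a) := by
    intro a ha
    rcases cc_or h (w a) with h1 | h1
    · exact h1
    · exact absurd ⟨hxy, fun h2 => ha (hw h2).symm, Or.inl ⟨h, h1⟩⟩ (hQ x y z a)
  exact cc_trans (cc_symm (key s hs)) (key t ht)

/-- Without quartets at most one entry is split off from two different entries. -/
theorem top_unique {w : Y → Word c} (hw : Function.Injective w)
    (hQ : ∀ x y z t, ¬ Qr (w x) (w y) (w z) (w t)) {z z' : Y} (hz : Top w z) (hz' : Top w z') :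
    z = z' := by
  by_contra hne
  obtain ⟨x', y', hxy, h'⟩ := id hz'
  have ht : ∃ t, t ≠ z ∧ t ≠ z' := by
    by_cases hx : x' = z
    · refine ⟨y', ?_, ?_⟩
      · intro h
        exact hxy (by rw [hx, h])
      · intro h
        exact cc_ne' h' (by rw [h])
    · refine ⟨x', hx, ?_⟩
      intro h
      exact cc_ne h' (by rw [h])
  obtain ⟨t, ht1, ht2⟩ := ht
  exact cc_asymm (top_all hw hQ hz (Ne.symm hne) ht1) (top_all hw hQ hz' hne ht2)

end XAXS

open XAXS in
theorem AXS_pf (h1 : S_ARR) (h2 : S_BLW) (h3 : S_BLF) : S_AXS := by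
  intro K c σ 𝔅 hI _ H X _ v hv
  obtain ⟨hA1, hA2, _, _, _, _⟩ := h1 K c σ 𝔅 hI
  by_cases hsub : ∀ x y : X, x = y
  · exact ⟨v, hv, Arr.refl 𝔅 v, fun x y z _ => by rw [hsub x y]⟩
  · push Not at hsub
    obtain ⟨a, b, hab⟩ := hsub
    obtain ⟨vp, hvp, hBl, _⟩ := h2 K c X (X × Bool) Prod.fst v
      (fun y => if y.2 = true then v a else v b) hv (by
        rintro ⟨x, i⟩ ⟨x', i'⟩ hxx hu
        obtain rfl : x = x' := hxx
        cases i <;> cases i'
        · rfl
        · exact absurd (hv (by simpa using hu)) (Ne.symm hab)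
        · exact absurd (hv (by simpa using hu)) hab
        · rfl)
    obtain ⟨wp, hwp, hArr, hQ⟩ := H (X × Bool) vp hvp
    have hsec : ∀ x : X, ∃ y : X × Bool, y.1 = x ∧ ¬ Top wp y := by
      intro x
      by_cases ht : Top wp (x, true)
      · refine ⟨(x, false), rfl, fun hf => ?_⟩
        have := top_unique hwp hQ ht hf
        simp at this
      · exact ⟨(x, true), rfl, ht⟩
    choose s hs1 hs2 using hsec
    have hsinj : Function.Injective s := by
      intro x y hxy
      rw [← hs1 x, ← hs1 y, hxy]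
    have hB4 := (h3 K c X (X × Bool) Prod.fst v vp hv hvp hBl).2.2.2.1 s hs1
    refine ⟨fun x => wp (s x), fun x y hxy => hsinj (hwp hxy), ?_, ?_⟩
    · exact (hA1 X v (fun x => vp (s x)) hB4).trans (hA2 (X × Bool) X s vp wp hArr)
    · intro x y z hz
      by_contra hne
      exact hs2 z ⟨s x, s y, hne, hz⟩

end Pool.Agent.Work.MP_8dbde4_lc.FK
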