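import Pool.Agent.Work.MP_8dbde4_lc.FK.StmtsA

/-!
Item BEH of the block FK of MP_8dbde4_lc: constant behaviour on triples of leaves, any letters.
-/

set_option autoImplicit false
open Classical

namespace Pool.Agent.Work.MP_8dbde4_lc.FK

open Pool.Agent.Work.MP_8dbde4_lc.TS
open Pool.Agent.Work.MP_8dbde4_lc.Tree (Word Agr Cc)
open Pool.Agent.Work.MP_8dbde4_lc.Phy (PP Hom)
open Pool.Agent.Work.MP_8dbde4_lc.Bra (Same InvU BinOn pull c₂)
open Pool.Agent.Work.MP_8dbde4_lc.Full (Arr NEq Cst0 BT Sub)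
open Pool.Agent.Work.MP_8dbde4_lc.Full.BT

namespace XBEH

variable {K : Type} {c : ℚ → K} {Λ : Type}

/-- Leaves are subtrees. -/
theorem sub_leaf (t : BT Λ) : ∀ a ∈ t.lvs, Sub (lf a) t := by
  induction t with
  | lf x =>
    intro a ha
    have : a = x := by simpa [BT.lvs] using ha
    subst this
    exact Sub.rfl _
  | nd l r ihl ihr =>
    intro a ha
    rcases List.mem_append.1 ha with h | h
    · exact Sub.left r (ihl a h)
    · exact Sub.right l (ihr a h)

/-- Pairs in the right order are subtrees. -/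
theorem sub_pair (t : BT Λ) : ∀ a b, List.Sublist [a, b] t.lvs →
    Sub (nd (lf a) (lf b)) t := by
  induction t with
  | lf x =>
    intro a b h
    have := h.length_le
    simp [BT.lvs] at this
  | nd l r ihl ihr =>
    intro a b h
    obtain ⟨l1, l2, hE, h1, h2⟩ := List.sublist_append_iff.1 h
    match l1, hE, h1 with
    | [], hE, _ =>
      have hE' : l2 = [a, b] := by simpa using hE.symm
      subst hE'
      exact Sub.right l (ihr a b h2)
    | [a'], hE, h1 =>
      have hE' : a = a' ∧ l2 = [b] := by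
        simp only [List.cons_append, List.nil_append, List.cons.injEq] at hE
        exact ⟨hE.1, hE.2.symm⟩
      obtain ⟨rfl, rfl⟩ := hE'
      refine Sub.both (sub_leaf l a ?_) (sub_leaf r b ?_)
      · exact h1.subset (by simp)
      · exact h2.subset (by simp)
    | a' :: b' :: l3, hE, h1 =>
      have hE' : a = a' ∧ b = b' ∧ l3 = [] := by
        simp only [List.cons_append, List.cons.injEq] at hE
        refine ⟨hE.1, hE.2.1, ?_⟩
        have := hE.2.2
        have h3 := congrArg List.length this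
        simp only [List.length_nil, List.length_append] at h3
        exact List.eq_nil_of_length_eq_zero (by omega)
      obtain ⟨rfl, rfl, rfl⟩ := hE'
      exact Sub.left r (ihl a b h1)

/-- Triples in the right order are subtrees of one of the two shapes. -/
theorem sub_triple (t : BT Λ) : ∀ a b d, List.Sublist [a, b, d] t.lvs →
    Sub (nd (nd (lf a) (lf b)) (lf d)) t ∨ Sub (nd (lf a) (nd (lf b) (lf d))) t := by
  induction t with
  | lf x =>
    intro a b d h
    have := h.length_le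
    simp [BT.lvs] at this
  | nd l r ihl ihr =>
    intro a b d h
    obtain ⟨l1, l2, hE, h1, h2⟩ := List.sublist_append_iff.1 h
    match l1, hE, h1 with
    | [], hE, _ =>
      have hE' : l2 = [a, b, d] := by simpa using hE.symm
      subst hE'
      rcases ihr a b d h2 with h | h
      · exact Or.inl (Sub.right l h)
      · exact Or.inr (Sub.right l h)
    | [a'], hE, h1 =>
      have hE' : a = a' ∧ l2 = [b, d] := by
        simp only [List.cons_append, List.nil_append, List.cons.injEq] at hE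
        exact ⟨hE.1, hE.2.symm⟩
      obtain ⟨rfl, rfl⟩ := hE'
      right
      refine Sub.both (sub_leaf l a (h1.subset (by simp))) (sub_pair r b d h2)
    | [a', b'], hE, h1 =>
      have hE' : a = a' ∧ b = b' ∧ l2 = [d] := by
        simp only [List.cons_append, List.nil_append, List.cons.injEq] at hE
        exact ⟨hE.1, hE.2.1, hE.2.2.symm⟩
      obtain ⟨rfl, rfl, rfl⟩ := hE'
      left
      refine Sub.both (sub_pair l a b h1) (sub_leaf r d (h2.subset (by simp)))
    | a' :: b' :: d' :: l3, hE, h1 =>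
      have hE' : a = a' ∧ b = b' ∧ d = d' ∧ l3 = [] := by
        simp only [List.cons_append, List.cons.injEq] at hE
        refine ⟨hE.1, hE.2.1, hE.2.2.1, ?_⟩
        have := hE.2.2.2
        have h3 := congrArg List.length this
        simp only [List.length_nil, List.length_append] at h3
        exact List.eq_nil_of_length_eq_zero (by omega)
      obtain ⟨rfl, rfl, rfl, rfl⟩ := hE'
      rcases ihl a b d h1 with h | h
      · exact Or.inl (Sub.left r h)
      · exact Or.inr (Sub.left r h)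

/-- Two different members of a list, in some order. -/
theorem pair_sublist (ℓ : List Λ) : ∀ x ∈ ℓ, ∀ y ∈ ℓ, x ≠ y →
    List.Sublist [x, y] ℓ ∨ List.Sublist [y, x] ℓ := by
  induction ℓ with
  | nil => intro x hx; simp at hx
  | cons a ℓ ih =>
    intro x hx y hy hxy
    rcases List.mem_cons.1 hx with hxa | hx'
    · subst hxa
      rcases List.mem_cons.1 hy with hya | hy'
      · exact absurd hya.symm hxy
      · left
        exact List.Sublist.cons_cons _ (List.singleton_sublist.2 hy')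
    · rcases List.mem_cons.1 hy with hya | hy'
      · subst hya
        right
        exact List.Sublist.cons_cons _ (List.singleton_sublist.2 hx')
      · rcases ih x hx' y hy' hxy with h | h
        · exact Or.inl (List.Sublist.cons _ h)
        · exact Or.inr (List.Sublist.cons _ h)

/-- Combs from triples. -/
theorem combL_of (w : Λ → Word c) (ℓ : List Λ) (hn : ℓ.Nodup) (hi : Set.InjOn w {x | x ∈ ℓ})
    (h : ∀ a b d, List.Sublist [a, b, d] ℓ → Cc (w a) (w b) (w d)) : CombL w ℓ := by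
  induction ℓ with
  | nil => trivial
  | cons x ℓ ih =>
    have hn' := List.nodup_cons.1 hn
    refine ⟨?_, ih hn'.2 (hi.mono (fun y hy => List.mem_cons_of_mem _ hy))
      (fun a b d hs => h a b d (List.Sublist.cons _ hs))⟩
    intro y hy z hz
    by_cases hyz : y = z
    · subst hyz
      apply cc_self
      intro he
      have hxy : x = y := hi (show x ∈ x :: ℓ by simp)
        (show y ∈ x :: ℓ from List.mem_cons_of_mem _ hy) he
      exact hn'.1 (hxy ▸ hy)
    · rcases pair_sublist ℓ y hy z hz hyz with hs | hs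
      · exact h x y z (List.Sublist.cons_cons _ hs)
      · exact cc_symm (h x z y (List.Sublist.cons_cons _ hs))

/-- Shapes from triples. -/
theorem sh_of (w : Λ → Word c) (t : BT Λ) (hn : t.lvs.Nodup)
    (hi : Set.InjOn w {x | x ∈ t.lvs})
    (h1 : ∀ a b d, Sub (nd (nd (lf a) (lf b)) (lf d)) t → Cc (w d) (w a) (w b))
    (h2 : ∀ a b d, Sub (nd (lf a) (nd (lf b) (lf d))) t → Cc (w a) (w b) (w d)) : Sh w t := by
  induction t with
  | lf x => trivial
  | nd l r ihl ihr =>
    have hn' := List.nodup_append.1 hn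
    have hl : ∀ x ∈ l.lvs, x ∈ (nd l r).lvs := fun x hx => List.mem_append.2 (Or.inl hx)
    have hr : ∀ x ∈ r.lvs, x ∈ (nd l r).lvs := fun x hx => List.mem_append.2 (Or.inr hx)
    have hne : ∀ x ∈ l.lvs, ∀ y ∈ r.lvs, w x ≠ w y := by
      intro x hx y hy he
      exact hn'.2.2 x hx y hy (hi (hl x hx) (hr y hy) he)
    refine ⟨ihl hn'.1 (hi.mono hl) (fun a b d hs => h1 a b d (Sub.left r hs))
        (fun a b d hs => h2 a b d (Sub.left r hs)),
      ihr hn'.2.1 (hi.mono hr) (fun a b d hs => h1 a b d (Sub.right l hs))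
        (fun a b d hs => h2 a b d (Sub.right l hs)), ?_, ?_⟩
    · intro x hx y hy u hu
      by_cases hxy : x = y
      · subst hxy
        exact cc_self (hne x hx u hu).symm
      · rcases pair_sublist l.lvs x hx y hy hxy with hs | hs
        · exact h1 x y u (Sub.both (sub_pair l x y hs) (sub_leaf r u hu))
        · exact cc_symm (h1 y x u (Sub.both (sub_pair l y x hs) (sub_leaf r u hu)))
    · intro x hx y hy u hu
      by_cases hyu : y = u
      · subst hyu
        exact cc_self (hne x hx y hy)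
      · rcases pair_sublist r.lvs y hy u hu hyu with hs | hs
        · exact h2 x y u (Sub.both (sub_leaf l x hx) (sub_pair r y u hs))
        · exact cc_symm (h2 x u y (Sub.both (sub_leaf l x hx) (sub_pair r u y hs)))

/-- A leaf exists. -/
theorem ex_leaf (t : BT Λ) : ∃ a, a ∈ t.lvs := by
  induction t with
  | lf x => exact ⟨x, by simp [BT.lvs]⟩
  | nd l r ihl _ =>
    obtain ⟨a, ha⟩ := ihl
    exact ⟨a, List.mem_append.2 (Or.inl ha)⟩

/-- A complete tree of positive depth is a node. -/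
theorem cpl_succ (t : BT Λ) (n : ℕ) (h : t.Cpl (n + 1)) : ∃ l r, t = nd l r ∧ l.Cpl n ∧
    r.Cpl n := by
  cases t with
  | lf x => exact absurd h (by simp [BT.Cpl])
  | nd l r => exact ⟨l, r, rfl, h⟩

/-- Stars from triples. -/
theorem stL_of (w : Λ → Word c) (ℓ : List Λ)
    (h : ∀ a b d, List.Sublist [a, b, d] ℓ → St (w a) (w b) (w d)) : StL w ℓ := by
  have key : ∀ (ℓ : List Λ) (x y z : Λ), x ∈ ℓ → y ∈ ℓ → z ∈ ℓ → x ≠ y → y ≠ z → x ≠ z →
      List.Sublist [x, y, z] ℓ ∨ List.Sublist [x, z, y] ℓ ∨ List.Sublist [y, x, z] ℓ ∨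
      List.Sublist [y, z, x] ℓ ∨ List.Sublist [z, x, y] ℓ ∨ List.Sublist [z, y, x] ℓ := by
    intro ℓ
    induction ℓ with
    | nil => intro x y z hx; simp at hx
    | cons a ℓ ih =>
      intro x y z hx hy hz hxy hyz hxz
      rcases List.mem_cons.1 hx with rfl | hx'
      · have hy' : y ∈ ℓ := (List.mem_cons.1 hy).resolve_left hxy.symm
        have hz' : z ∈ ℓ := (List.mem_cons.1 hz).resolve_left hxz.symm
        rcases pair_sublist ℓ y hy' z hz' hyz with hs | hs
        · exact Or.inl (List.Sublist.cons_cons _ hs)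
        · exact Or.inr (Or.inl (List.Sublist.cons_cons _ hs))
      · rcases List.mem_cons.1 hy with rfl | hy'
        · have hz' : z ∈ ℓ := (List.mem_cons.1 hz).resolve_left hyz.symm
          rcases pair_sublist ℓ x hx' z hz' hxz with hs | hs
          · exact Or.inr (Or.inr (Or.inl (List.Sublist.cons_cons _ hs)))
          · exact Or.inr (Or.inr (Or.inr (Or.inl (List.Sublist.cons_cons _ hs))))
        · rcases List.mem_cons.1 hz with rfl | hz'
          · rcases pair_sublist ℓ x hx' y hy' hxy with hs | hs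
            · exact Or.inr (Or.inr (Or.inr (Or.inr (Or.inl (List.Sublist.cons_cons _ hs)))))
            · exact Or.inr (Or.inr (Or.inr (Or.inr (Or.inr (List.Sublist.cons_cons _ hs)))))
          · rcases ih x y z hx' hy' hz' hxy hyz hxz with hs | hs | hs | hs | hs | hs
            · exact Or.inl (List.Sublist.cons _ hs)
            · exact Or.inr (Or.inl (List.Sublist.cons _ hs))
            · exact Or.inr (Or.inr (Or.inl (List.Sublist.cons _ hs)))
            · exact Or.inr (Or.inr (Or.inr (Or.inl (List.Sublist.cons _ hs))))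
            · exact Or.inr (Or.inr (Or.inr (Or.inr (Or.inl (List.Sublist.cons _ hs)))))
            · exact Or.inr (Or.inr (Or.inr (Or.inr (Or.inr (List.Sublist.cons _ hs)))))
  intro x hx y hy z hz hxy hyz hxz
  rcases key ℓ x y z hx hy hz hxy hyz hxz with hs | hs | hs | hs | hs | hs
  · exact h _ _ _ hs
  · exact (h _ _ _ hs).rot.rot.swap
  · exact (h _ _ _ hs).swap
  · exact (h _ _ _ hs).rot.rot
  · exact (h _ _ _ hs).rot
  · exact (h _ _ _ hs).rot.swap

end XBEH

open XBEH in
theorem BEH_pf : S_BEH := by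
  intro K c Λ z w n i j hn hz hnd hinj h1 h2
  obtain ⟨m, rfl⟩ : ∃ m, n = m + 1 + 1 + 1 := ⟨n - 3, by omega⟩
  obtain ⟨l, r, rfl, hl, hr⟩ := cpl_succ z _ hz
  obtain ⟨ll, lr, rfl, hll, hlr⟩ := cpl_succ l _ hl
  obtain ⟨rl, rr, rfl, hrl, hrr⟩ := cpl_succ r _ hr
  obtain ⟨lll, llr, rfl, -, -⟩ := cpl_succ ll _ hll
  obtain ⟨lrl, lrr, rfl, -, -⟩ := cpl_succ lr _ hlr
  obtain ⟨rll, rlr, rfl, -, -⟩ := cpl_succ rl _ hrl
  obtain ⟨rrl, rrr, rfl, -, -⟩ := cpl_succ rr _ hrr
  obtain ⟨a1, ha1⟩ := ex_leaf lll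
  obtain ⟨a2, ha2⟩ := ex_leaf llr
  obtain ⟨a3, ha3⟩ := ex_leaf lrl
  obtain ⟨a4, ha4⟩ := ex_leaf lrr
  obtain ⟨b1, hb1⟩ := ex_leaf rll
  obtain ⟨b2, hb2⟩ := ex_leaf rlr
  obtain ⟨b3, hb3⟩ := ex_leaf rrl
  obtain ⟨b4, hb4⟩ := ex_leaf rrr
  have A1 := sub_leaf _ a1 ha1
  have A2 := sub_leaf _ a2 ha2
  have A3 := sub_leaf _ a3 ha3
  have A4 := sub_leaf _ a4 ha4
  have B1 := sub_leaf _ b1 hb1
  have B2 := sub_leaf _ b2 hb2
  have B3 := sub_leaf _ b3 hb3
  have B4 := sub_leaf _ b4 hb4
  -- the first behaviour is not `1`: `((a1 a2) a3) b1`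
  have hi1 : i ≠ 1 := by
    rintro rfl
    have k1 : Cc (w a2) (w a1) (w a3) := h1 a1 a2 a3 (Sub.left _ (Sub.both (Sub.both A1 A2)
      (Sub.left _ A3)))
    have k2 : Cc (w a2) (w a1) (w b1) := h1 a1 a2 b1 (Sub.both (Sub.left _ (Sub.both A1 A2))
      (Sub.left _ (Sub.left _ B1)))
    have k3 : Cc (w a3) (w a2) (w b1) := h1 a2 a3 b1 (Sub.both (Sub.both (Sub.right _ A2)
      (Sub.left _ A3)) (Sub.left _ (Sub.left _ B1)))
    exact cc_asymm (cc_trans (cc_symm k1) k2) k3
  -- the second behaviour is not `1`: `a1 (b1 (b3 b4))`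
  have hj1 : j ≠ 1 := by
    rintro rfl
    have k1 : Cc (w b1) (w a1) (w b3) := h2 a1 b1 b3 (Sub.both (Sub.left _ (Sub.left _ A1))
      (Sub.both (Sub.left _ B1) (Sub.left _ B3)))
    have k2 : Cc (w b1) (w a1) (w b4) := h2 a1 b1 b4 (Sub.both (Sub.left _ (Sub.left _ A1))
      (Sub.both (Sub.left _ B1) (Sub.right _ B4)))
    have k3 : Cc (w b3) (w b1) (w b4) := h2 b1 b3 b4 (Sub.right _ (Sub.both (Sub.left _ B1)
      (Sub.both B3 B4)))
    exact cc_asymm (cc_trans (cc_symm k1) k2) k3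
  -- the subtree `(a1 a3) (b1 b3)`
  have s1 : ∀ d, Sub (lf d) (nd (nd rll rlr) (nd rrl rrr)) →
      Sub (nd (nd (lf a1) (lf a3)) (lf d)) (nd (nd (nd lll llr) (nd lrl lrr))
        (nd (nd rll rlr) (nd rrl rrr))) := fun d hd => Sub.both (Sub.both (Sub.left _ A1)
      (Sub.left _ A3)) hd
  have s2 : ∀ a, Sub (lf a) (nd (nd lll llr) (nd lrl lrr)) →
      Sub (nd (lf a) (nd (lf b1) (lf b3))) (nd (nd (nd lll llr) (nd lrl lrr))
        (nd (nd rll rlr) (nd rrl rrr))) := fun a ha => Sub.both ha (Sub.both (Sub.left _ B1)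
      (Sub.left _ B3))
  have D1 : Sub (lf b1) (nd (nd rll rlr) (nd rrl rrr)) := Sub.left _ (Sub.left _ B1)
  have D3 : Sub (lf b3) (nd (nd rll rlr) (nd rrl rrr)) := Sub.right _ (Sub.left _ B3)
  have C1 : Sub (lf a1) (nd (nd lll llr) (nd lrl lrr)) := Sub.left _ (Sub.left _ A1)
  have C3 : Sub (lf a3) (nd (nd lll llr) (nd lrl lrr)) := Sub.right _ (Sub.left _ A3)
  -- the pair `(0, 2)` is excluded
  have h02 : ¬ (i = 0 ∧ j = 2) := by
    rintro ⟨rfl, rfl⟩
    have k1 : Cc (w a1) (w a3) (w b1) := h1 _ _ _ (s1 _ D1)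
    have k2 : Cc (w a1) (w a3) (w b3) := h1 _ _ _ (s1 _ D3)
    have k3 : Cc (w b3) (w a1) (w b1) := h2 _ _ _ (s2 _ C1)
    exact cc_asymm (cc_trans (cc_symm k2) k1) k3
  have h03 : ¬ (i = 0 ∧ j = 3) := by
    rintro ⟨rfl, rfl⟩
    have k1 : Cc (w a1) (w a3) (w b1) := h1 _ _ _ (s1 _ D1)
    have k2 : Cc (w a1) (w a3) (w b3) := h1 _ _ _ (s1 _ D3)
    have k3 : St (w a1) (w b1) (w b3) := h2 _ _ _ (s2 _ C1)
    exact k3.2.2.2.2.2 (cc_trans (cc_symm k1) k2)
  have h32 : ¬ (i = 3 ∧ j = 2) := by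
    rintro ⟨rfl, rfl⟩
    have k1 : St (w a1) (w a3) (w b3) := h1 _ _ _ (s1 _ D3)
    have k2 : Cc (w b3) (w a1) (w b1) := h2 _ _ _ (s2 _ C1)
    have k3 : Cc (w b3) (w a3) (w b1) := h2 _ _ _ (s2 _ C3)
    exact k1.2.2.2.1 (cc_trans k2 (cc_symm k3))
  have h23 : ¬ (i = 2 ∧ j = 3) := by
    rintro ⟨rfl, rfl⟩
    have k1 : Cc (w b3) (w b1) (w b2) := h1 b1 b2 b3 (Sub.right _ (Sub.both (Sub.both B1 B2)
      (Sub.left _ B3)))
    have k2 : St (w a1) (w b1) (w b3) := h2 _ _ _ (s2 _ C1)
    have k3 : St (w a1) (w b1) (w b2) := h2 a1 b1 b2 (Sub.both C1 (Sub.left _ (Sub.both B1 B2)))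
    rcases cc_or k1 (w a1) with k | k
    · exact k2.2.2.2.1 (cc_symm k)
    · exact k3.2.2.2.2.2 k
  have h30 : ¬ (i = 3 ∧ j = 0) := by
    rintro ⟨rfl, rfl⟩
    have k1 : Cc (w a1) (w a3) (w a4) := h2 a1 a3 a4 (Sub.left _ (Sub.both (Sub.left _ A1)
      (Sub.both A3 A4)))
    have k2 : St (w a1) (w a3) (w b1) := h1 _ _ _ (s1 _ D1)
    have k3 : St (w a3) (w a4) (w b1) := h1 a3 a4 b1 (Sub.both (Sub.right _ (Sub.both A3 A4)) D1)
    rcases cc_or k1 (w b1) with k | k
    · exact k2.2.2.2.2.2 k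
    · exact k3.2.2.2.1 k
  have hcases : (i = 0 ∧ j = 0) ∨ (i = 2 ∧ j = 0) ∨ (i = 2 ∧ j = 2) ∨ (i = 3 ∧ j = 3) := by
    clear h1 h2
    revert hi1 hj1 h02 h03 h32 h23 h30
    revert i j
    decide
  rcases hcases with ⟨rfl, rfl⟩ | ⟨rfl, rfl⟩ | ⟨rfl, rfl⟩ | ⟨rfl, rfl⟩
  · right
    left
    refine combL_of w _ hnd hinj ?_
    intro a b d hs
    rcases sub_triple _ a b d hs with hs | hs
    · exact h1 a b d hs
    · exact h2 a b d hs
  · left
    exact sh_of w _ hnd hinj (fun a b d hs => h1 a b d hs) (fun a b d hs => h2 a b d hs)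
  · right
    right
    left
    refine combL_of w _ (List.nodup_reverse.2 hnd) ?_ ?_
    · intro x hx y hy he
      exact hinj (List.mem_reverse.1 hx) (List.mem_reverse.1 hy) he
    · intro a b d hs
      have hs' : List.Sublist [d, b, a] (nd (nd (nd lll llr) (nd lrl lrr))
          (nd (nd rll rlr) (nd rrl rrr))).lvs := by
        have := List.reverse_sublist.2 hs
        rw [List.reverse_reverse] at this
        simpa using this
      rcases sub_triple _ d b a hs' with hs | hs
      · have k : Cc (w a) (w d) (w b) := h1 d b a hs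
        exact cc_symm k
      · have k : Cc (w a) (w d) (w b) := h2 d b a hs
        exact cc_symm k
  · right
    right
    right
    refine stL_of w _ ?_
    intro a b d hs
    rcases sub_triple _ a b d hs with hs | hs
    · exact h1 a b d hs
    · exact h2 a b d hs

end Pool.Agent.Work.MP_8dbde4_lc.FK
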