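import Pool.Agent.Work.MP_8dbde4_lc.FK.StmtsW

set_option autoImplicit false

namespace Pool.Agent.Work.MP_8dbde4_lc.FK.XBHW

set_option synthInstance.maxSize 100000 in
set_option maxRecDepth 100000 in
theorem casesD : ∀ i j s : Fin 4, i ≠ 1 → j ≠ 1 →
    (¬ (i = 0 ∧ j = 2) ∧ ¬ (i = 0 ∧ j = 3) ∧ ¬ (i = 3 ∧ j = 2)) →
    ¬ (i = 2 ∧ j = 3) → ¬ (i = 3 ∧ j = 0) →
    ((i = 0 → s = 0) ∧ (i = 3 → s = 0 ∨ s = 3)) → ((j = 2 → s = 2) ∧ (j = 3 → s ≠ 0)) →
    (i = 2 ∧ j = 0 ∧ s = 3) ∨ (i = 3 ∧ j = 3 ∧ s = 3) ∨ (i ≠ 3 ∧ j ≠ 3 ∧ s ≠ 3) := by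
  decide

end Pool.Agent.Work.MP_8dbde4_lc.FK.XBHW

open Classical

namespace Pool.Agent.Work.MP_8dbde4_lc.FK

open Pool.Agent.Work.MP_8dbde4_lc.TS
open Pool.Agent.Work.MP_8dbde4_lc.Tree (Word Agr Cc)
open Pool.Agent.Work.MP_8dbde4_lc.Phy (PP Hom)
open Pool.Agent.Work.MP_8dbde4_lc.Bra (Same InvU BinOn pull c₂)
open Pool.Agent.Work.MP_8dbde4_lc.Full (Arr NEq Cst0 BT Sub)

namespace XBHW

/-! ### Numbers -/

/-- The behaviour in terms of the numbers `p = δ a b`, `q = δ b d`, `r = δ a d`. -/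
def bh (i : Fin 4) (p q r : ℕ) : Prop :=
  match i with
  | 0 => p < q
  | 1 => p < r
  | 2 => r < p
  | 3 => p = q ∧ q = r

/-- The ultrametric inequalities of a triangle. -/
def ut (p q r : ℕ) : Prop := (p ≤ r ∨ q ≤ r) ∧ (p ≤ q ∨ r ≤ q) ∧ (q ≤ p ∨ r ≤ p)

section

variable (ab ad ae bd be de : ℕ)

/-- `((a b) d) e` -/
theorem conf1 (i : Fin 4) (u1 : ut ab bd ad) (u2 : ut ab be ae)
    (h1 : bh i ab bd ad) (h2 : bh i ab be ae) (h3 : bh i ad de ae)
    (h4 : bh i bd de be) : i ≠ 1 := by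
  unfold ut at *
  rintro rfl
  simp only [bh] at h1 h2 h3 h4
  omega

/-- `(a b) (d e)` -/
theorem conf3 (i j : Fin 4) (u1 : ut ab bd ad) (u2 : ut ab be ae)
    (h1 : bh i ab bd ad) (h2 : bh i ab be ae) (h3 : bh j ad de ae)
    (h4 : bh j bd de be) : ¬ (i = 0 ∧ j = 2) ∧ ¬ (i = 0 ∧ j = 3) ∧ ¬ (i = 3 ∧ j = 2) := by
  unfold ut at *
  refine ⟨?_, ?_, ?_⟩ <;> rintro ⟨rfl, rfl⟩ <;> simp only [bh] at h1 h2 h3 h4 <;> omega

/-- `a ((b d) e)` -/
theorem conf4 (i j : Fin 4) (_ : ut ab bd ad) (_ : ut ab be ae)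
    (h1 : bh j ab bd ad) (h2 : bh j ab be ae) (h3 : bh j ad de ae)
    (h4 : bh i bd de be) : ¬ (i = 2 ∧ j = 3) := by
  rintro ⟨rfl, rfl⟩
  simp only [bh] at h1 h2 h3 h4
  omega

/-- `(a (b d)) e` -/
theorem conf5 (i j : Fin 4) (_ : ut ab bd ad) (_ : ut ab be ae)
    (h1 : bh j ab bd ad) (h2 : bh i ab be ae) (h3 : bh i ad de ae)
    (h4 : bh i bd de be) : ¬ (i = 3 ∧ j = 0) := by
  rintro ⟨rfl, rfl⟩
  simp only [bh] at h1 h2 h3 h4
  omega

/-- `(a b) d e` -/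
theorem conf6 (i s : Fin 4) (u1 : ut ab bd ad) (u2 : ut ab be ae)
    (h1 : bh i ab bd ad) (h2 : bh i ab be ae) (h3 : bh s ad de ae)
    (h4 : bh s bd de be) : (i = 0 → s = 0) ∧ (i = 3 → s = 0 ∨ s = 3) := by
  unfold ut at *
  constructor
  · rintro rfl
    fin_cases s <;> simp only [bh] at h1 h2 h3 h4 <;> first | rfl | (exfalso; omega)
  · rintro rfl
    fin_cases s <;> simp only [bh] at h1 h2 h3 h4 <;>
      first | (left; rfl) | (right; rfl) | (exfalso; omega)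

/-- `a b (d e)` -/
theorem conf7 (j s : Fin 4) (u1 : ut ab bd ad) (u2 : ut ab be ae)
    (h1 : bh s ab bd ad) (h2 : bh s ab be ae) (h3 : bh j ad de ae)
    (h4 : bh j bd de be) : (j = 2 → s = 2) ∧ (j = 3 → s ≠ 0) := by
  unfold ut at *
  constructor
  · rintro rfl
    fin_cases s <;> simp only [bh] at h1 h2 h3 h4 <;> first | rfl | (exfalso; omega)
  · rintro rfl rfl
    simp only [bh] at h1 h2 h3 h4
    omega

end

/-! ### Leaves -/

variable {n k : ℕ}

theorem df_unique {A : Type} {a b : Fin n → A} {m m' : Fin n} (h : Df a b m) (h' : Df a b m') :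
    m = m' := by
  rcases lt_trichotomy m m' with h1 | h1 | h1
  · exact absurd (h'.1 m h1) h.2
  · exact h1
  · exact absurd (h.1 m' h1) h'.2

theorem df_symm {A : Type} {a b : Fin n → A} {m : Fin n} (h : Df a b m) : Df b a m :=
  ⟨fun l hl => (h.1 l hl).symm, h.2.symm⟩

theorem tc_symm {A : Type} {z x y : Fin n → A} (h : TC z x y) : TC z y x := by
  obtain ⟨m, h1, h2, h3⟩ := h
  exact ⟨m, h2, h1, h3.symm⟩

/-- Every triple of different leaves can be sorted. -/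
theorem sort3 (P : (Fin n → Fin k) → (Fin n → Fin k) → (Fin n → Fin k) → Prop)
    (hex : ∀ a b : Fin n → Fin k, a ≠ b → ∃ m, Df a b m)
    (hswap : ∀ a b d, P a b d → P b a d) (hrot : ∀ a b d, P a b d → P b d a)
    (hs : ∀ a b d m m', Df a b m → a m < b m → Df b d m' → b m' < d m' → P a b d)
    (a b d : Fin n → Fin k) (hab : a ≠ b) (hbd : b ≠ d) (had : a ≠ d) : P a b d := by
  have key : ∀ x y : Fin n → Fin k, x ≠ y → (∃ m, Df x y m ∧ x m < y m) ∨
      (∃ m, Df y x m ∧ y m < x m) := by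
    intro x y h
    obtain ⟨m, hm⟩ := hex x y h
    rcases lt_or_gt_of_ne hm.2 with h1 | h1
    · exact Or.inl ⟨m, hm, h1⟩
    · exact Or.inr ⟨m, df_symm hm, h1⟩
  have hs' : ∀ x y z : Fin n → Fin k, (∃ m, Df x y m ∧ x m < y m) →
      (∃ m, Df y z m ∧ y m < z m) → P x y z := by
    rintro x y z ⟨m, h1, h2⟩ ⟨m', h3, h4⟩
    exact hs x y z m m' h1 h2 h3 h4
  rcases key a b hab with h1 | h1
  · rcases key b d hbd with h2 | h2
    · exact hs' a b d h1 h2
    · rcases key a d had with h3 | h3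
      · -- a < d < b
        exact hrot _ _ _ (hswap _ _ _ (hs' a d b h3 h2))
      · -- d < a < b
        exact hrot _ _ _ (hs' d a b h3 h1)
  · rcases key b d hbd with h2 | h2
    · rcases key a d had with h3 | h3
      · -- b < a < d
        exact hswap _ _ _ (hs' b a d h1 h3)
      · -- b < d < a
        exact hrot _ _ _ (hrot _ _ _ (hs' b d a h2 h3))
    · -- d < b < a
      exact hswap _ _ _ (hrot _ _ _ (hs' d b a h2 h1))

/-- The leaf with the first three entries `x, y, z`. -/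
def lf3 (e : Fin 3 → Fin n) (t : Fin k) (x y z : Fin k) : Fin n → Fin k :=
  fun l => if l = e 0 then x else if l = e 1 then y else if l = e 2 then z else t

section

variable {e : Fin 3 → Fin n} {t : Fin k}

theorem lf0 (x y z : Fin k) : lf3 e t x y z (e 0) = x := by
  simp [lf3]

theorem lf1 (h : Function.Injective e) (x y z : Fin k) : lf3 e t x y z (e 1) = y := by
  have h1 : e 1 ≠ e 0 := fun h' => by simpa using h h'
  simp [lf3, h1]

theorem lf2 (h : Function.Injective e) (x y z : Fin k) : lf3 e t x y z (e 2) = z := by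
  have h1 : e 2 ≠ e 0 := fun h' => by simpa using h h'
  have h2 : e 2 ≠ e 1 := fun h' => by simpa using h h'
  simp [lf3, h1, h2]

theorem d0 (he : StrictMono e) {x y z x' y' z' : Fin k} (h : x ≠ x') :
    Df (lf3 e t x y z) (lf3 e t x' y' z') (e 0) := by
  refine ⟨?_, ?_⟩
  · intro l hl
    have h0 : e 0 < e 1 := he (by decide)
    have h1 : e 0 < e 2 := he (by decide)
    have a0 : l ≠ e 0 := ne_of_lt hl
    have a1 : l ≠ e 1 := ne_of_lt (hl.trans h0)
    have a2 : l ≠ e 2 := ne_of_lt (hl.trans h1)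
    simp [lf3, a0, a1, a2]
  · rw [lf0, lf0]
    exact h

theorem d1 (he : StrictMono e) {x y z y' z' : Fin k} (h : y ≠ y') :
    Df (lf3 e t x y z) (lf3 e t x y' z') (e 1) := by
  refine ⟨?_, ?_⟩
  · intro l hl
    have h1 : e 1 < e 2 := he (by decide)
    have a1 : l ≠ e 1 := ne_of_lt hl
    have a2 : l ≠ e 2 := ne_of_lt (hl.trans h1)
    simp [lf3, a1, a2]
  · rw [lf1 he.injective, lf1 he.injective]
    exact h

theorem d2 (he : StrictMono e) {x y z z' : Fin k} (h : z ≠ z') :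
    Df (lf3 e t x y z) (lf3 e t x y z') (e 2) := by
  refine ⟨?_, ?_⟩
  · intro l hl
    have a2 : l ≠ e 2 := ne_of_lt hl
    simp [lf3, a2]
  · rw [lf2 he.injective, lf2 he.injective]
    exact h

end

end XBHW

open XBHW

theorem BHW_pf (h : S_TCF) : S_BHW := by
  intro K c n k w i j s hn hk hinj hi hj hst
  obtain ⟨δ, M, hs, hu, hM, heq, hcc⟩ := rank w
  have hex : ∀ a b : Fin n → Fin k, a ≠ b → ∃ m, Df a b m := fun a b hab =>
    (h.1 n (Fin k) a b).1 hab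
  have hut : ∀ a b d, ut (δ a b) (δ b d) (δ a d) := by
    intro a b d
    have h1 := hu a b d
    have h2 := hu b a d
    have h3 := hu a d b
    have e1 := hs a b
    have e2 := hs b d
    have e3 := hs a d
    unfold ut
    omega
  have hbh : ∀ (x : Fin 4) a b d, Beh w x a b d → bh x (δ a b) (δ b d) (δ a d) := by
    intro x a b d hx
    have e1 := hs a b
    have e2 := hs b d
    have e3 := hs a d
    have h3 := hut a b d
    unfold ut at h3
    fin_cases x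
    · show δ a b < δ b d
      exact (hcc b d a).1 hx
    · show δ a b < δ a d
      rw [e1]
      exact (hcc a d b).1 hx
    · show δ a d < δ a b
      rw [e3]
      exact (hcc a b d).1 hx
    · show δ a b = δ b d ∧ δ b d = δ a d
      obtain ⟨_, _, _, h4, h5, h6⟩ : St (w a) (w b) (w d) := hx
      rw [hcc] at h4 h5 h6
      omega
  -- special leaves
  let e : Fin 3 → Fin n := fun l => ⟨l.val, by omega⟩
  have he : StrictMono e := fun a b hab => by
    show a.val < b.val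
    exact hab
  let x0 : Fin k := ⟨0, by omega⟩
  let x1 : Fin k := ⟨1, by omega⟩
  let x2 : Fin k := ⟨2, by omega⟩
  have h01 : x0 < x1 := by show (0 : ℕ) < 1; omega
  have h12 : x1 < x2 := by show (1 : ℕ) < 2; omega
  have h02 : x0 < x2 := by show (0 : ℕ) < 2; omega
  have n01 := ne_of_lt h01
  have n12 := ne_of_lt h12
  have n02 := ne_of_lt h02
  have e01 : e 0 < e 1 := he (by decide)
  have e12 : e 1 < e 2 := he (by decide)
  have e02 : e 0 < e 2 := he (by decide)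
  let L : Fin k → Fin k → Fin k → (Fin n → Fin k) := lf3 e x0
  have L0 : ∀ x y z, L x y z (e 0) = x := fun x y z => lf0 x y z
  have L1 : ∀ x y z, L x y z (e 1) = y := fun x y z => lf1 he.injective x y z
  have L2 : ∀ x y z, L x y z (e 2) = z := fun x y z => lf2 he.injective x y z
  have D0 : ∀ {x y z x' y' z'}, x ≠ x' → Df (L x y z) (L x' y' z') (e 0) := fun h => d0 he h
  have D1 : ∀ {x y z y' z'}, y ≠ y' → Df (L x y z) (L x y' z') (e 1) := fun h => d1 he h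
  have D2 : ∀ {x y z z'}, z ≠ z' → Df (L x y z) (L x y z') (e 2) := fun h => d2 he h
  -- the shapes on special leaves
  have I01 : ∀ x y z y' z' x'' y'' z'', y < y' → x < x'' →
      Beh w i (L x y z) (L x y' z') (L x'' y'' z'') := by
    intro x y z y' z' x'' y'' z'' h1 h2
    exact hi _ _ _ (e 0) (e 1) e01 (D0 (ne_of_lt h2)) (D1 (ne_of_lt h1)) (by rw [L0, L0]; exact h2)
      (by rw [L1, L1]; exact h1)
  have I02 : ∀ x y z z' x'' y'' z'', z < z' → x < x'' →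
      Beh w i (L x y z) (L x y z') (L x'' y'' z'') := by
    intro x y z z' x'' y'' z'' h1 h2
    exact hi _ _ _ (e 0) (e 2) e02 (D0 (ne_of_lt h2)) (D2 (ne_of_lt h1)) (by rw [L0, L0]; exact h2)
      (by rw [L2, L2]; exact h1)
  have I12 : ∀ x y z z' y'' z'', z < z' → y < y'' →
      Beh w i (L x y z) (L x y z') (L x y'' z'') := by
    intro x y z z' y'' z'' h1 h2
    exact hi _ _ _ (e 1) (e 2) e12 (D1 (ne_of_lt h2)) (D2 (ne_of_lt h1)) (by rw [L1, L1]; exact h2)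
      (by rw [L2, L2]; exact h1)
  have J01 : ∀ x y z x' y' z' y'' z'', x < x' → y' < y'' →
      Beh w j (L x y z) (L x' y' z') (L x' y'' z'') := by
    intro x y z x' y' z' y'' z'' h1 h2
    exact hj _ _ _ (e 0) (e 1) e01 (D0 (ne_of_lt h1)) (D1 (ne_of_lt h2)) (by rw [L0, L0]; exact h1)
      (by rw [L1, L1]; exact h2)
  have J02 : ∀ x y z x' y' z' z'', x < x' → z' < z'' →
      Beh w j (L x y z) (L x' y' z') (L x' y' z'') := by
    intro x y z x' y' z' z'' h1 h2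
    exact hj _ _ _ (e 0) (e 2) e02 (D0 (ne_of_lt h1)) (D2 (ne_of_lt h2)) (by rw [L0, L0]; exact h1)
      (by rw [L2, L2]; exact h2)
  have J12 : ∀ x y z y' z' z'', y < y' → z' < z'' →
      Beh w j (L x y z) (L x y' z') (L x y' z'') := by
    intro x y z y' z' z'' h1 h2
    exact hj _ _ _ (e 1) (e 2) e12 (D1 (ne_of_lt h1)) (D2 (ne_of_lt h2)) (by rw [L1, L1]; exact h1)
      (by rw [L2, L2]; exact h2)
  have S0 : ∀ x y z x' y' z' x'' y'' z'', x < x' → x' < x'' →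
      Beh w s (L x y z) (L x' y' z') (L x'' y'' z'') := by
    intro x y z x' y' z' x'' y'' z'' h1 h2
    exact hst _ _ _ (e 0) (D0 (ne_of_lt h1)) (D0 (ne_of_lt h2)) (by rw [L0, L0]; exact h1)
      (by rw [L0, L0]; exact h2)
  -- the configurations
  have c1 : i ≠ 1 := by
    refine conf1 _ _ _ _ _ _ i (hut (L x0 x0 x0) (L x0 x0 x1) (L x0 x1 x0))
      (hut _ _ (L x1 x0 x0)) (hbh _ _ _ _ ?_) (hbh _ _ _ _ ?_)
      (hbh _ _ _ _ ?_) (hbh _ _ _ _ ?_)
    · exact I12 _ _ _ _ _ _ h01 h01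
    · exact I02 _ _ _ _ _ _ _ h01 h01
    · exact I01 _ _ _ _ _ _ _ _ h01 h01
    · exact I01 _ _ _ _ _ _ _ _ h01 h01
  have c2 : j ≠ 1 := by
    refine conf1 _ _ _ _ _ _ j (hut (L x0 x0 x0) (L x1 x0 x0) (L x1 x1 x0))
      (hut _ _ (L x1 x1 x1)) (hbh _ _ _ _ ?_) (hbh _ _ _ _ ?_)
      (hbh _ _ _ _ ?_) (hbh _ _ _ _ ?_)
    · exact J01 _ _ _ _ _ _ _ _ h01 h01
    · exact J01 _ _ _ _ _ _ _ _ h01 h01
    · exact J02 _ _ _ _ _ _ _ h01 h01
    · exact J12 _ _ _ _ _ _ h01 h01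
  have c3 : ¬ (i = 0 ∧ j = 2) ∧ ¬ (i = 0 ∧ j = 3) ∧ ¬ (i = 3 ∧ j = 2) := by
    refine conf3 _ _ _ _ _ _ i j (hut (L x0 x0 x0) (L x0 x1 x0) (L x1 x0 x0))
      (hut _ _ (L x1 x1 x0)) (hbh _ _ _ _ ?_) (hbh _ _ _ _ ?_)
      (hbh _ _ _ _ ?_) (hbh _ _ _ _ ?_)
    · exact I01 _ _ _ _ _ _ _ _ h01 h01
    · exact I01 _ _ _ _ _ _ _ _ h01 h01
    · exact J01 _ _ _ _ _ _ _ _ h01 h01
    · exact J01 _ _ _ _ _ _ _ _ h01 h01
  have c4 : ¬ (i = 2 ∧ j = 3) := by
    refine conf4 _ _ _ _ _ _ i j (hut (L x0 x0 x0) (L x1 x0 x0) (L x1 x0 x1))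
      (hut _ _ (L x1 x1 x0)) (hbh _ _ _ _ ?_) (hbh _ _ _ _ ?_)
      (hbh _ _ _ _ ?_) (hbh _ _ _ _ ?_)
    · exact J02 _ _ _ _ _ _ _ h01 h01
    · exact J01 _ _ _ _ _ _ _ _ h01 h01
    · exact J01 _ _ _ _ _ _ _ _ h01 h01
    · exact I12 _ _ _ _ _ _ h01 h01
  have c5 : ¬ (i = 3 ∧ j = 0) := by
    refine conf5 _ _ _ _ _ _ i j (hut (L x0 x0 x0) (L x0 x1 x0) (L x0 x1 x1))
      (hut _ _ (L x1 x0 x0)) (hbh _ _ _ _ ?_) (hbh _ _ _ _ ?_)
      (hbh _ _ _ _ ?_) (hbh _ _ _ _ ?_)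
    · exact J12 _ _ _ _ _ _ h01 h01
    · exact I01 _ _ _ _ _ _ _ _ h01 h01
    · exact I01 _ _ _ _ _ _ _ _ h01 h01
    · exact I02 _ _ _ _ _ _ _ h01 h01
  have c6 : (i = 0 → s = 0) ∧ (i = 3 → s = 0 ∨ s = 3) := by
    refine conf6 _ _ _ _ _ _ i s (hut (L x0 x0 x0) (L x0 x1 x0) (L x1 x0 x0))
      (hut _ _ (L x2 x0 x0)) (hbh _ _ _ _ ?_) (hbh _ _ _ _ ?_)
      (hbh _ _ _ _ ?_) (hbh _ _ _ _ ?_)
    · exact I01 _ _ _ _ _ _ _ _ h01 h01
    · exact I01 _ _ _ _ _ _ _ _ h01 h02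
    · exact S0 _ _ _ _ _ _ _ _ _ h01 h12
    · exact S0 _ _ _ _ _ _ _ _ _ h01 h12
  have c7 : (j = 2 → s = 2) ∧ (j = 3 → s ≠ 0) := by
    refine conf7 _ _ _ _ _ _ j s (hut (L x0 x0 x0) (L x1 x0 x0) (L x2 x0 x0))
      (hut _ _ (L x2 x1 x0)) (hbh _ _ _ _ ?_) (hbh _ _ _ _ ?_)
      (hbh _ _ _ _ ?_) (hbh _ _ _ _ ?_)
    · exact S0 _ _ _ _ _ _ _ _ _ h01 h12
    · exact S0 _ _ _ _ _ _ _ _ _ h01 h12
    · exact J01 _ _ _ _ _ _ _ _ h02 h01
    · exact J01 _ _ _ _ _ _ _ _ h12 h01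
  have hcases : (i = 2 ∧ j = 0 ∧ s = 3) ∨ (i = 3 ∧ j = 3 ∧ s = 3) ∨ (i ≠ 3 ∧ j ≠ 3 ∧ s ≠ 3) := by
    exact casesD i j s c1 c2 c3 c4 c5 c6 c7
  -- sorted triples
  have hsorted : ∀ (a b d : Fin n → Fin k) (m m' : Fin n), Df a b m → a m < b m → Df b d m' →
      b m' < d m' →
      (m < m' ∧ Df a d m ∧ b m = d m ∧ Beh w j a b d) ∨
      (m = m' ∧ Df a d m ∧ Beh w s a b d) ∨
      (m' < m ∧ Df a d m' ∧ a m' = b m' ∧ Beh w i a b d) := by
    intro a b d m m' h1 h2 h3 h4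
    rcases lt_trichotomy m m' with h5 | h5 | h5
    · left
      refine ⟨h5, ⟨fun l hl => (h1.1 l hl).trans (h3.1 l (hl.trans h5)), ?_⟩, h3.1 m h5,
        hj a b d m m' h5 h1 h3 h2 h4⟩
      rw [← h3.1 m h5]
      exact h1.2
    · right
      left
      subst h5
      exact ⟨rfl, ⟨fun l hl => (h1.1 l hl).trans (h3.1 l hl), ne_of_lt (h2.trans h4)⟩,
        hst a b d m h1 h3 h2 h4⟩
    · right
      right
      have h6 : Df a d m' := ⟨fun l hl => (h1.1 l (hl.trans h5)).trans (h3.1 l hl), by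
        rw [h1.1 m' h5]
        exact h3.2⟩
      exact ⟨h5, h6, h1.1 m' h5, hi a b d m' m h5 h6 h1 (by rw [h1.1 m' h5]; exact h4) h2⟩
  rcases hcases with ⟨rfl, rfl, rfl⟩ | ⟨rfl, rfl, rfl⟩ | ⟨hi3, hj3, hs3⟩
  · -- complete tree
    left
    refine ⟨hinj, ?_⟩
    have main : ∀ a b d : Fin n → Fin k, a ≠ b → b ≠ d → a ≠ d →
        (Cc (w a) (w b) (w d) ↔ TC a b d) ∧ (Cc (w b) (w a) (w d) ↔ TC b a d) ∧
          (Cc (w d) (w a) (w b) ↔ TC d a b) := by
      refine sort3 (fun a b d => (Cc (w a) (w b) (w d) ↔ TC a b d) ∧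
        (Cc (w b) (w a) (w d) ↔ TC b a d) ∧ (Cc (w d) (w a) (w b) ↔ TC d a b)) hex ?_ ?_ ?_
      · rintro a b d ⟨h1, h2, h3⟩
        exact ⟨h2, h1, ⟨fun h => tc_symm (h3.1 (cc_symm h)), fun h => cc_symm (h3.2 (tc_symm h))⟩⟩
      · rintro a b d ⟨h1, h2, h3⟩
        exact ⟨⟨fun h => tc_symm (h2.1 (cc_symm h)), fun h => cc_symm (h2.2 (tc_symm h))⟩,
          ⟨fun h => tc_symm (h3.1 (cc_symm h)), fun h => cc_symm (h3.2 (tc_symm h))⟩, h1⟩
      · intro a b d m m' h1 h2 h3 h4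
        rcases hsorted a b d m m' h1 h2 h3 h4 with ⟨h5, h6, h7, h8⟩ | ⟨h5, h6, h8⟩ |
          ⟨h5, h6, h7, h8⟩
        · -- a (b d)
          have h9 : Cc (w a) (w b) (w d) := h8
          refine ⟨⟨fun _ => ⟨m, h1, h6, h7⟩, fun _ => h9⟩, ⟨fun h => absurd h (cc_asymm h9), ?_⟩,
            ⟨fun h => absurd h (cc_asymm (cc_symm h9)), ?_⟩⟩
          · rintro ⟨p, q1, q2, q3⟩
            have r1 := df_unique q1 (df_symm h1)
            have r2 := df_unique q2 h3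
            exact absurd (r1.symm.trans r2) (ne_of_lt h5)
          · rintro ⟨p, q1, q2, q3⟩
            have r1 := df_unique q1 (df_symm h6)
            have r2 := df_unique q2 (df_symm h3)
            exact absurd (r1.symm.trans r2) (ne_of_lt h5)
        · -- star
          obtain ⟨_, _, _, g1, g2, g3⟩ : St (w a) (w b) (w d) := h8
          subst h5
          refine ⟨⟨fun h => absurd h g3, ?_⟩, ⟨fun h => absurd h g2, ?_⟩,
            ⟨fun h => absurd h g1, ?_⟩⟩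
          · rintro ⟨p, q1, q2, q3⟩
            have r1 := df_unique q1 h1
            subst r1
            exact absurd q3 h3.2
          · rintro ⟨p, q1, q2, q3⟩
            have r1 := df_unique q1 (df_symm h1)
            subst r1
            exact absurd q3 h6.2
          · rintro ⟨p, q1, q2, q3⟩
            have r1 := df_unique q1 (df_symm h6)
            subst r1
            exact absurd q3 h1.2
        · -- (a b) d
          have h9 : Cc (w d) (w a) (w b) := h8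
          refine ⟨⟨fun h => absurd (cc_symm h) (cc_asymm h9), ?_⟩,
            ⟨fun h => absurd (cc_symm h) (cc_asymm (cc_symm h9)), ?_⟩,
            ⟨fun _ => ⟨m', df_symm h6, df_symm h3, h7⟩, fun _ => h9⟩⟩
          · rintro ⟨p, q1, q2, q3⟩
            have r1 := df_unique q1 h1
            have r2 := df_unique q2 h6
            exact absurd (r2.symm.trans r1) (ne_of_lt h5)
          · rintro ⟨p, q1, q2, q3⟩
            have r1 := df_unique q1 (df_symm h1)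
            have r2 := df_unique q2 h3
            exact absurd (r2.symm.trans r1) (ne_of_lt h5)
    intro z x y
    by_cases hzx : z = x
    · subst hzx
      refine ⟨fun h => absurd h cc_irrefl, ?_⟩
      rintro ⟨m, q1, _, _⟩
      exact absurd rfl q1.2
    by_cases hzy : z = y
    · subst hzy
      refine ⟨fun h => absurd h cc_irrefl', ?_⟩
      rintro ⟨m, _, q1, _⟩
      exact absurd rfl q1.2
    by_cases hxy : x = y
    · subst hxy
      refine ⟨fun _ => ?_, fun _ => cc_self fun h => hzx (hinj h)⟩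
      obtain ⟨m, hm⟩ := hex z x hzx
      exact ⟨m, hm, hm, rfl⟩
    exact (main z x y hzx hxy hzy).1
  · -- star
    right
    right
    have main : ∀ a b d : Fin n → Fin k, a ≠ b → b ≠ d → a ≠ d → St (w a) (w b) (w d) := by
      refine sort3 (fun a b d => St (w a) (w b) (w d)) hex (fun _ _ _ h => h.swap)
        (fun _ _ _ h => h.rot) ?_
      intro a b d m m' h1 h2 h3 h4
      rcases hsorted a b d m m' h1 h2 h3 h4 with ⟨_, _, _, h8⟩ | ⟨_, _, h8⟩ | ⟨_, _, _, h8⟩ <;>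
        exact h8
    intro x y z hC
    by_contra hne
    have hxy : x ≠ y := fun h => hne (by rw [h])
    have hzx : z ≠ x := fun h => by rw [h] at hC; exact cc_irrefl hC
    have hzy : z ≠ y := fun h => by rw [h] at hC; exact cc_irrefl' hC
    exact (main x y z hxy (Ne.symm hzy) (Ne.symm hzx)).2.2.2.1 hC
  · -- binary
    right
    left
    have hb : ∀ (x : Fin 4) (a b d : Fin n → Fin k), x ≠ 3 → Beh w x a b d →
        ¬ St (w a) (w b) (w d) := by
      intro x a b d hx hB hS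
      obtain ⟨_, _, _, g1, g2, g3⟩ := hS
      fin_cases x
      · exact g3 hB
      · exact g2 hB
      · exact g1 hB
      · exact hx rfl
    have main : ∀ a b d : Fin n → Fin k, a ≠ b → b ≠ d → a ≠ d → ¬ St (w a) (w b) (w d) := by
      refine sort3 (fun a b d => ¬ St (w a) (w b) (w d)) hex (fun _ _ _ h h' => h h'.swap)
        (fun _ _ _ h h' => h h'.rot.rot) ?_
      intro a b d m m' h1 h2 h3 h4
      rcases hsorted a b d m m' h1 h2 h3 h4 with ⟨_, _, _, h8⟩ | ⟨_, _, h8⟩ | ⟨_, _, _, h8⟩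
      · exact hb _ _ _ _ hj3 h8
      · exact hb _ _ _ _ hs3 h8
      · exact hb _ _ _ _ hi3 h8
    intro x _ y _ z _ hS
    exact main x y z (fun h => hS.1 (by rw [h])) (fun h => hS.2.1 (by rw [h]))
      (fun h => hS.2.2.1 (by rw [h])) hS

end Pool.Agent.Work.MP_8dbde4_lc.FK
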