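import Pool.Agent.Work.MP_8dbde4_lc.FK.StmtsW

/-!
# Item [8dbde4 FK BLI]: a point is replaced by an infinitely branching tree
-/

set_option autoImplicit false
open Classical

namespace Pool.Agent.Work.MP_8dbde4_lc.FK

open Pool.Agent.Work.MP_8dbde4_lc.TS
open Pool.Agent.Work.MP_8dbde4_lc.Tree (Word Agr Cc)
open Pool.Agent.Work.MP_8dbde4_lc.Phy (PP Hom)
open Pool.Agent.Work.MP_8dbde4_lc.Bra (Same InvU BinOn pull c₂)
open Pool.Agent.Work.MP_8dbde4_lc.Full (Arr NEq Cst0 BT Sub)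

namespace XBLI

variable {K : Type} {c : ℚ → K}

lemma exists_high {X : Type} [Finite X] (v : X → Word c) :
    ∃ q : ℚ, ∀ x, ∀ r, q < r → (v x).1 r = c r := by
  have hfin : (⋃ i, {r | (v i).1 r ≠ c r}).Finite := Set.finite_iUnion (fun i => (v i).2)
  obtain ⟨m, hm⟩ := hfin.bddAbove
  refine ⟨m, fun i r hr => ?_⟩
  by_contra hne
  have := hm (Set.mem_iUnion.2 ⟨i, hne⟩)
  linarith

/-- the new words, as functions: letters `ρ (a l)` at the places `q + 1 + l` -/
noncomputable def nf {N : ℕ} (v : Word c) (q : ℚ) (ρ : ℕ → K) (a : Fin N → ℕ) : ℚ → K := fun s =>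
  if h : ∃ l : Fin N, s = q + 1 + (l : ℕ) then ρ (a h.choose) else v.1 s

lemma nf_place {N : ℕ} (v : Word c) (q : ℚ) (ρ : ℕ → K) (a : Fin N → ℕ) (l : Fin N) :
    nf v q ρ a (q + 1 + (l : ℕ)) = ρ (a l) := by
  unfold nf
  have h : ∃ l' : Fin N, q + 1 + ((l : ℕ) : ℚ) = q + 1 + ((l' : ℕ) : ℚ) := ⟨l, rfl⟩
  rw [dif_pos h]
  have h1 := h.choose_spec
  have h2 : ((l : ℕ) : ℚ) = ((h.choose : ℕ) : ℚ) := by linarith
  have h3 : (l : ℕ) = (h.choose : ℕ) := by exact_mod_cast h2
  have h4 : l = h.choose := Fin.ext h3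
  rw [← h4]

lemma nf_other {N : ℕ} (v : Word c) (q : ℚ) (ρ : ℕ → K) (a : Fin N → ℕ) (s : ℚ)
    (h : ¬ ∃ l : Fin N, s = q + 1 + (l : ℕ)) : nf v q ρ a s = v.1 s := by
  unfold nf
  rw [dif_neg h]

lemma nf_low {N : ℕ} (v : Word c) (q : ℚ) (ρ : ℕ → K) (a : Fin N → ℕ) (s : ℚ)
    (h : s ≤ q) : nf v q ρ a s = v.1 s := by
  apply nf_other
  rintro ⟨l, hl⟩
  have : (0 : ℚ) ≤ ((l : ℕ) : ℚ) := Nat.cast_nonneg _
  linarith

lemma nf_fin {N : ℕ} (v : Word c) (q : ℚ) (ρ : ℕ → K) (a : Fin N → ℕ) :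
    {s | nf v q ρ a s ≠ c s}.Finite := by
  have h1 : (Set.range fun l : Fin N => q + 1 + ((l : ℕ) : ℚ)).Finite := Set.finite_range _
  refine (h1.union v.2).subset ?_
  intro s hs
  have hs' : nf v q ρ a s ≠ c s := hs
  by_cases h : ∃ l : Fin N, s = q + 1 + (l : ℕ)
  · left
    obtain ⟨l, hl⟩ := h
    exact ⟨l, hl.symm⟩
  · right
    rw [nf_other _ _ _ _ _ h] at hs'
    exact hs'

end XBLI

open XBLI in
theorem BLI_pf : S_BLI := by
  intro K _ c P _ N v hv
  obtain ⟨q, hq⟩ := exists_high v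
  set ρ : ℕ → K := fun n => Infinite.natEmbedding K n with hρd
  have hρ : Function.Injective ρ := (Infinite.natEmbedding K).injective
  set W : (Fin N → ℕ) → Word c := fun a => ⟨nf (v none) q ρ a, nf_fin (v none) q ρ a⟩ with hW
  have W1 : ∀ a (l : Fin N), (W a).1 (q + 1 + (l : ℕ)) = ρ (a l) := fun a l => nf_place _ _ _ _ _
  have W2 : ∀ a s, (¬ ∃ l : Fin N, s = q + 1 + (l : ℕ)) → (W a).1 s = (v none).1 s :=
    fun a s h => nf_other _ _ _ _ _ h
  have W3 : ∀ a s, s ≤ q → (W a).1 s = (v none).1 s := fun a s h => nf_low _ _ _ _ _ h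
  set V : P ⊕ (Fin N → ℕ) → Word c := Sum.elim (fun p => v (some p)) W with hV
  set π : P ⊕ (Fin N → ℕ) → Option P := Sum.elim some (fun _ => none) with hπ
  have F1 : ∀ y r, r ≤ q → (V y).1 r = (v (π y)).1 r := by
    rintro (p | a) r hr
    · rfl
    · exact W3 a r hr
  have G1 : ∀ x x', (∀ r ≤ q, (v x).1 r = (v x').1 r) → x = x' := by
    intro x x' h
    apply hv
    apply Subtype.ext
    funext r
    rcases le_or_gt r q with hr | hr
    · exact h r hr
    · rw [hq x r hr, hq x' r hr]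
  have Winj : Function.Injective W := by
    intro a b h
    funext l
    apply hρ
    rw [← W1 a l, ← W1 b l, h]
  refine ⟨V, ?_, fun _ => rfl, ⟨Winj, ?_⟩, ?_⟩
  · intro y y' h
    have hπ' : π y = π y' := G1 _ _ fun r hr => by rw [← F1 y r hr, ← F1 y' r hr, h]
    rcases y with p | a <;> rcases y' with p' | a'
    · have : p = p' := Option.some_injective _ hπ'
      rw [this]
    · exact absurd hπ' (by simp [hπ])
    · exact absurd hπ' (by simp [hπ])
    · rw [Winj h]
  · intro z x y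
    constructor
    · rintro ⟨s, a1, a2, a3, a4⟩
      by_cases hs : ∃ m : Fin N, s = q + 1 + (m : ℕ)
      · obtain ⟨m, rfl⟩ := hs
        have e1 : ∀ a b : Fin N → ℕ, Agr (W a) (W b) (q + 1 + ((m : ℕ) : ℚ)) →
            ∀ l, l < m → a l = b l := by
          intro a b h l hl
          apply hρ
          rw [← W1 a l, ← W1 b l]
          apply h
          have : ((l : ℕ) : ℚ) < ((m : ℕ) : ℚ) := by exact_mod_cast hl
          linarith
        have b3 : x m = y m := by
          apply hρ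
          rw [← W1 x m, ← W1 y m]
          exact a3
        have b4 : z m ≠ x m := by
          intro h
          apply a4
          change (W z).1 _ = (W x).1 _
          rw [W1 z m, W1 x m, h]
        exact ⟨m, ⟨e1 z x a1, b4⟩, ⟨e1 z y a2, fun h => b4 (h.trans b3.symm)⟩, b3⟩
      · exfalso
        apply a4
        change (W z).1 s = (W x).1 s
        rw [W2 z s hs, W2 x s hs]
    · rintro ⟨m, ⟨a1, b1⟩, ⟨a2, b2⟩, a3⟩
      have e1 : ∀ a b : Fin N → ℕ, (∀ l, l < m → a l = b l) →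
          Agr (W a) (W b) (q + 1 + ((m : ℕ) : ℚ)) := by
        intro a b h s hs
        by_cases hp : ∃ l : Fin N, s = q + 1 + (l : ℕ)
        · obtain ⟨l, rfl⟩ := hp
          have h1 : ((l : ℕ) : ℚ) < ((m : ℕ) : ℚ) := by linarith
          have h2 : l < m := by exact_mod_cast h1
          rw [W1 a l, W1 b l, h l h2]
        · rw [W2 a s hp, W2 b s hp]
      refine ⟨q + 1 + ((m : ℕ) : ℚ), e1 z x a1, e1 z y a2, ?_, ?_⟩
      · change (W x).1 _ = (W y).1 _
        rw [W1 x m, W1 y m, a3]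
      · change (W z).1 _ ≠ (W x).1 _
        rw [W1 z m, W1 x m]
        exact fun h => b1 (hρ h)
  · intro y y' y'' h1 h2
    constructor
    · rintro ⟨r, a1, a2, a3, a4⟩
      have hr : r ≤ q := by
        by_contra hr
        apply h1
        apply G1
        intro r' hr'
        rw [← F1 y'' r' hr', ← F1 y r' hr']
        exact a1 r' (lt_of_le_of_lt hr' (not_le.1 hr))
      refine ⟨r, fun r' hr' => ?_, fun r' hr' => ?_, ?_, ?_⟩
      · rw [← F1 y'' r' (hr'.le.trans hr), ← F1 y r' (hr'.le.trans hr)]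
        exact a1 r' hr'
      · rw [← F1 y'' r' (hr'.le.trans hr), ← F1 y' r' (hr'.le.trans hr)]
        exact a2 r' hr'
      · rw [← F1 y r hr, ← F1 y' r hr]
        exact a3
      · rw [← F1 y r hr, ← F1 y'' r hr]
        exact a4
    · rintro ⟨r, a1, a2, a3, a4⟩
      have hr : r ≤ q := by
        by_contra hr
        apply a4
        rw [hq _ r (not_le.1 hr), hq _ r (not_le.1 hr)]
      refine ⟨r, fun r' hr' => ?_, fun r' hr' => ?_, ?_, ?_⟩
      · rw [F1 y'' r' (hr'.le.trans hr), F1 y r' (hr'.le.trans hr)]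
        exact a1 r' hr'
      · rw [F1 y'' r' (hr'.le.trans hr), F1 y' r' (hr'.le.trans hr)]
        exact a2 r' hr'
      · rw [F1 y r hr, F1 y' r hr]
        exact a3
      · rw [F1 y r hr, F1 y'' r hr]
        exact a4

end Pool.Agent.Work.MP_8dbde4_lc.FK
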