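import Pool.Agent.Work.MP_8dbde4_lc.FK.StmtsA

/-!
MP_8dbde4_lc, block FK, item CAN: canonical behaviour for finitely many letters.
-/

set_option autoImplicit false
open Classical

namespace Pool.Agent.Work.MP_8dbde4_lc.FK

open Pool.Agent.Work.MP_8dbde4_lc.TS
open Pool.Agent.Work.MP_8dbde4_lc.Tree (Word Agr Cc)
open Pool.Agent.Work.MP_8dbde4_lc.Phy (PP Hom)
open Pool.Agent.Work.MP_8dbde4_lc.Bra (Same InvU BinOn pull c₂)
open Pool.Agent.Work.MP_8dbde4_lc.Full (Arr NEq Cst0 BT Sub)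
open Pool.Agent.Work.MP_8dbde4_lc.Full.BT

namespace XCAN

theorem combL_sublist {K : Type} {c : ℚ → K} {X : Type} (w : X → Word c) {l1 l2 : List X}
    (h : List.Sublist l1 l2) : CombL w l2 → CombL w l1 := by
  induction h with
  | slnil => exact id
  | cons a _ ih => exact fun h => ih h.2
  | cons_cons a hs ih =>
    intro h
    exact ⟨fun y hy z hz => h.1 y (hs.subset hy) z (hs.subset hz), ih h.2⟩

/-- The colouring. -/
noncomputable def chi {K : Type} {c : ℚ → K} {Λ : Type} (w : Λ → Word c) (t : BT Λ) : Fin 4 :=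
  if h : ∃ (i : Fin 4), ∃ a b d, t.lvs = [a, b, d] ∧ Beh w i a b d then h.choose else 0

theorem chi_spec {K : Type} {c : ℚ → K} {Λ : Type} (w : Λ → Word c) (t : BT Λ) (a b d : Λ)
    (ht : t.lvs = [a, b, d]) (hw : ∃ i, Beh w i a b d) : Beh w (chi w t) a b d := by
  obtain ⟨i, hi⟩ := hw
  have h : ∃ (i : Fin 4), ∃ a b d, t.lvs = [a, b, d] ∧ Beh w i a b d := ⟨i, a, b, d, ht, hi⟩
  have h2 : chi w t = h.choose := by
    unfold chi
    rw [dif_pos h]
  rw [h2]
  obtain ⟨a', b', d', h3, h4⟩ := h.choose_spec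
  rw [ht] at h3
  simp only [List.cons.injEq, and_true] at h3
  obtain ⟨rfl, rfl, rfl⟩ := h3
  exact h4

theorem beh_ex {K : Type} {c : ℚ → K} {Λ : Type} (w : Λ → Word c) (a b d : Λ)
    (hab : w a ≠ w b) (had : w a ≠ w d) (hbd : w b ≠ w d) : ∃ i, Beh w i a b d := by
  rcases cc_tri hab had hbd with h | h | h | h
  · exact ⟨0, h⟩
  · exact ⟨1, h⟩
  · exact ⟨2, h⟩
  · exact ⟨3, h⟩

/-- A complete tree of depth `m` has more than `m` leaves. -/
theorem lvs_len {X : Type} : ∀ (z : BT X) (m : ℕ), z.Cpl m → m + 1 ≤ z.lvs.length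
  | .lf x, 0, _ => by simp [Full.BT.lvs]
  | .lf x, m + 1, h => by simp [Full.BT.Cpl] at h
  | .nd l r, 0, h => by simp [Full.BT.Cpl] at h
  | .nd l r, m + 1, h => by
    have h1 := lvs_len l m h.1
    have h2 := lvs_len r m h.2
    simp only [Full.BT.lvs, List.length_append]
    omega

/-- The place where the words of a star split. -/
theorem star_place {K : Type} {c : ℚ → K} {a b d : Word c} (h : St a b d) {q : ℚ}
    (h1 : Agr a b q) (h2 : a.1 q ≠ b.1 q) : Agr a d q ∧ d.1 q ≠ a.1 q ∧ d.1 q ≠ b.1 q := by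
  have hA : Agr a d q := by
    by_contra hA
    obtain ⟨r, hr1, hr2, hr3, hr4⟩ := cc_self (Ne.symm h.2.2.1)
    have hrq : r < q := by
      by_contra hc
      apply hA
      intro q' hq'
      exact (hr1 q' (lt_of_lt_of_le hq' (not_lt.1 hc))).symm
    apply h.2.2.2.1
    exact ⟨r, hr1, fun q' hq' => (hr1 q' hq').trans (h1 q' (hq'.trans hrq)), h1 r hrq, hr4⟩
  refine ⟨hA, ?_, ?_⟩
  · intro h3
    apply h.2.2.2.2.1
    exact ⟨q, fun q' hq' => (h1 q' hq').symm,
      fun q' hq' => (h1 q' hq').symm.trans (hA q' hq'), h3.symm, fun h4 => h2 h4.symm⟩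
  · intro h3
    apply h.2.2.2.2.2
    exact ⟨q, h1, hA, h3.symm, h2⟩

/-- A star has at most as many words as there are letters. -/
theorem star_card {K : Type} [Finite K] {c : ℚ → K} {Λ : Type} (w : Λ → Word c) (ℓ : List Λ)
    (hnd : ℓ.Nodup) (hinj : Set.InjOn w {x | x ∈ ℓ}) (h : StL w ℓ) : ℓ.length ≤ Nat.card K := by
  by_cases h2 : ∃ x0 ∈ ℓ, ∃ x1 ∈ ℓ, x0 ≠ x1
  · obtain ⟨x0, hx0, x1, hx1, hne⟩ := h2
    have hw : w x0 ≠ w x1 := fun h => hne (hinj hx0 hx1 h)
    obtain ⟨q, hq1, -, -, hq2⟩ := cc_self hw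
    have key0 : ∀ x ∈ ℓ, x ≠ x0 → Agr (w x0) (w x) q ∧ (w x).1 q ≠ (w x0).1 q := by
      intro x hx hxx
      by_cases hx' : x = x1
      · subst hx'
        exact ⟨hq1, fun h => hq2 h.symm⟩
      · have h3 := star_place (h x0 hx0 x1 hx1 x hx hne (Ne.symm hx') (Ne.symm hxx)) hq1 hq2
        exact ⟨h3.1, h3.2.1⟩
    have key : ∀ x ∈ ℓ, ∀ y ∈ ℓ, x ≠ y → (w x).1 q ≠ (w y).1 q := by
      intro x hx y hy hxy
      by_cases hx' : x = x0
      · subst hx'
        exact fun h => (key0 y hy (Ne.symm hxy)).2 h.symm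
      · by_cases hy' : y = x0
        · subst hy'
          exact (key0 x hx hxy).2
        · obtain ⟨h3, h4⟩ := key0 x hx hx'
          have h5 := star_place (h x0 hx0 x hx y hy (Ne.symm hx') hxy (Ne.symm hy')) h3
            (fun h => h4 h.symm)
          exact fun h => h5.2.2 h.symm
    have hfi : Function.Injective (fun i : Fin ℓ.length => (w (ℓ.get i)).1 q) := by
      intro i j hij
      by_contra hc
      have hne2 : ℓ.get i ≠ ℓ.get j := fun h3 => hc (hnd.injective_get h3)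
      exact key _ (List.get_mem ℓ i) _ (List.get_mem ℓ j) hne2 hij
    have h6 := Nat.card_le_card_of_injective _ hfi
    rw [Nat.card_eq_fintype_card, Fintype.card_fin] at h6
    exact h6
  · push Not at h2
    have hK : 1 ≤ Nat.card K := by
      have : Nonempty K := ⟨c 0⟩
      exact Nat.card_pos
    refine le_trans ?_ hK
    match ℓ, hnd, h2 with
    | [], _, _ => simp
    | [a], _, _ => simp
    | a :: b :: l, hnd, h2 =>
      exfalso
      have h3 : a = b := h2 a (by simp) b (by simp)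
      subst h3
      simp at hnd

end XCAN

theorem CAN_pf (h1 : Full.S_RAM) (h2 : S_BEH) (h3 : Full.S_SUB) (h4 : S_SHF) : S_CAN := by
  intro K _ n
  obtain ⟨m, hm1, hm2, hm3⟩ : ∃ m : ℕ, n ≤ m ∧ 3 ≤ m ∧ Nat.card K ≤ m :=
    ⟨max (max n 3) (Nat.card K), (le_max_left _ _).trans (le_max_left _ _),
      (le_max_right _ _).trans (le_max_left _ _), le_max_right _ _⟩
  obtain ⟨N2, hN2⟩ := h1 (nd (lf ()) (nd (lf ()) (lf ()))) 4 m
  obtain ⟨N1, hN1⟩ := h1 (nd (nd (lf ()) (lf ())) (lf ())) 4 N2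
  refine ⟨N1, ?_⟩
  intro c Λ y w hy hnd hinj
  obtain ⟨hrefl, htrans, hcut, -, -, -⟩ := h3 Λ
  obtain ⟨z1, hz1y, hz1, k1, hk1⟩ := hN1 Λ y hy (XCAN.chi w)
  obtain ⟨z2, hz2z1, hz2, k2, hk2⟩ := hN2 Λ z1 hz1 (XCAN.chi w)
  have hz2y : Sub z2 y := htrans _ _ _ hz2z1 hz1y
  have hsl : List.Sublist z2.lvs y.lvs := (h4 K c Λ y).2.2.2.2.2.2.1 z2 hz2y
  have hnd2 : z2.lvs.Nodup := hsl.nodup hnd
  have hinj2 : Set.InjOn w {x | x ∈ z2.lvs} := fun a ha b hb h =>
    hinj (hsl.subset ha) (hsl.subset hb) h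
  have key : ∀ (t : BT Λ) (a b d : Λ), t.lvs = [a, b, d] → Sub t z2 →
      Beh w (XCAN.chi w t) a b d := by
    intro t a b d ht hs
    have hsl3 : List.Sublist t.lvs z2.lvs := (h4 K c Λ z2).2.2.2.2.2.2.1 t hs
    have hnd3 : t.lvs.Nodup := hsl3.nodup hnd2
    rw [ht] at hnd3 hsl3
    have ha : a ∈ z2.lvs := hsl3.subset (by simp)
    have hb : b ∈ z2.lvs := hsl3.subset (by simp)
    have hd : d ∈ z2.lvs := hsl3.subset (by simp)
    simp only [List.nodup_cons, List.mem_cons, not_or, List.not_mem_nil, not_false_eq_true,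
      and_true, List.nodup_nil] at hnd3
    apply XCAN.chi_spec w t a b d ht
    apply XCAN.beh_ex
    · intro h
      exact hnd3.1.1 (hinj2 ha hb h)
    · intro h
      exact hnd3.1.2 (hinj2 ha hd h)
    · intro h
      exact hnd3.2 (hinj2 hb hd h)
  have h5 : ∀ a b d, Sub (nd (nd (lf a) (lf b)) (lf d)) z2 → Beh w k1 a b d := by
    intro a b d hs
    have h3 := key _ a b d (by simp [Full.BT.lvs]) hs
    rw [hk1 _ (htrans _ _ _ hs hz2z1) (by simp [Full.BT.map])] at h3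
    exact h3
  have h6 : ∀ a b d, Sub (nd (lf a) (nd (lf b) (lf d))) z2 → Beh w k2 a b d := by
    intro a b d hs
    have h3 := key _ a b d (by simp [Full.BT.lvs]) hs
    rw [hk2 _ hs (by simp [Full.BT.map])] at h3
    exact h3
  obtain ⟨z, hzz2, hz⟩ := hcut z2 n m hz2 hm1
  have hslz : List.Sublist z.lvs z2.lvs := (h4 K c Λ z2).2.2.2.2.2.2.1 z hzz2
  refine ⟨z, htrans _ _ _ hzz2 hz2y, hz, ?_⟩
  rcases h2 K c Λ z2 w m k1 k2 hm2 hz2 hnd2 hinj2 h5 h6 with h | h | h | h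
  · left
    exact (h4 K c Λ z2).2.2.2.2.2.1 z w hzz2 h
  · right
    left
    exact XCAN.combL_sublist w hslz h
  · right
    right
    exact XCAN.combL_sublist w hslz.reverse h
  · exfalso
    have h7 := XCAN.star_card w z2.lvs hnd2 hinj2 h
    have h8 := XCAN.lvs_len z2 m hz2
    omega

end Pool.Agent.Work.MP_8dbde4_lc.FK
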