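import Pool.Agent.Work.MP_8dbde4_lc.FK.StmtsB

/-!
# Rewriting trees to combs: the statement `S_CBQ` of FK/StmtsB.lean
-/

set_option autoImplicit false
open Classical

namespace Pool.Agent.Work.MP_8dbde4_lc.FK

open Pool.Agent.Work.MP_8dbde4_lc.TS
open Pool.Agent.Work.MP_8dbde4_lc.Tree (Word Agr Cc)
open Pool.Agent.Work.MP_8dbde4_lc.Phy (PP Hom)
open Pool.Agent.Work.MP_8dbde4_lc.Bra (Same InvU BinOn pull c₂)
open Pool.Agent.Work.MP_8dbde4_lc.Full (Arr NEq Cst0 BT Sub combT)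
open Pool.Agent.Work.MP_8dbde4_lc.Full.BT

namespace XCBQ

variable {K : Type} {c : ℚ → K} {σ : Sig} {I X : Type}

/-- Substitution of trees for the leaves. -/
def sbs (t : I → BT X) : BT I → BT X
  | lf i => t i
  | nd l r => nd (sbs t l) (sbs t r)

theorem mem_sbs (t : I → BT X) (T : BT I) (x : X) :
    x ∈ (sbs t T).lvs ↔ ∃ i ∈ T.lvs, x ∈ (t i).lvs := by
  induction T with
  | lf i => simp [sbs, BT.lvs]
  | nd l r hl hr =>
    simp only [sbs, BT.lvs, List.mem_append, hl, hr]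
    constructor
    · rintro (⟨i, hi, hx⟩ | ⟨i, hi, hx⟩)
      · exact ⟨i, Or.inl hi, hx⟩
      · exact ⟨i, Or.inr hi, hx⟩
    · rintro ⟨i, hi | hi, hx⟩
      · exact Or.inl ⟨i, hi, hx⟩
      · exact Or.inr ⟨i, hi, hx⟩

theorem sh_part {v : X → Word c} {t : I → BT X} :
    ∀ T : BT I, Sh v (sbs t T) → ∀ i ∈ T.lvs, Sh v (t i)
  | lf j, h, i, hi => by
    simp only [BT.lvs, List.mem_singleton] at hi
    subst hi
    exact h
  | nd l r, h, i, hi => by
    simp only [BT.lvs, List.mem_append] at hi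
    rcases hi with hi | hi
    · exact sh_part l h.1 i hi
    · exact sh_part r h.2.1 i hi

theorem sel {v : X → Word c} {t : I → BT X} {a : I → X} :
    ∀ T : BT I, Sh v (sbs t T) → (∀ i ∈ T.lvs, a i ∈ (t i).lvs) → Sh (fun i => v (a i)) T
  | lf j, _, _ => trivial
  | nd l r, h, ha => by
    have al : ∀ i ∈ l.lvs, a i ∈ (t i).lvs := fun i hi => ha i (by simp [BT.lvs, hi])
    have ar : ∀ i ∈ r.lvs, a i ∈ (t i).lvs := fun i hi => ha i (by simp [BT.lvs, hi])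
    have hl : ∀ i ∈ l.lvs, a i ∈ (sbs t l).lvs := fun i hi => (mem_sbs t l _).2 ⟨i, hi, al i hi⟩
    have hr : ∀ i ∈ r.lvs, a i ∈ (sbs t r).lvs := fun i hi => (mem_sbs t r _).2 ⟨i, hi, ar i hi⟩
    exact ⟨sel l h.1 al, sel r h.2.1 ar,
      fun x hx y hy z hz => h.2.2.1 _ (hl x hx) _ (hl y hy) _ (hr z hz),
      fun x hx y hy z hz => h.2.2.2 _ (hl x hx) _ (hr y hy) _ (hr z hz)⟩

theorem sep {v : X → Word c} {t : I → BT X} :
    ∀ T : BT I, Sh v (sbs t T) → ∀ i ∈ T.lvs, ∀ j ∈ T.lvs, i ≠ j →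
      ∀ y ∈ (t i).lvs, ∀ y' ∈ (t i).lvs, ∀ y'' ∈ (t j).lvs, Cc (v y'') (v y) (v y')
  | lf k, _, i, hi, j, hj, hij, _, _, _, _, _, _ => by
    simp only [BT.lvs, List.mem_singleton] at hi hj
    exact absurd (hi.trans hj.symm) hij
  | nd l r, h, i, hi, j, hj, hij, y, hy, y', hy', y'', hy'' => by
    simp only [BT.lvs, List.mem_append] at hi hj
    rcases hi with hi | hi
    · have m : y ∈ (sbs t l).lvs := (mem_sbs t l _).2 ⟨i, hi, hy⟩
      have m' : y' ∈ (sbs t l).lvs := (mem_sbs t l _).2 ⟨i, hi, hy'⟩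
      rcases hj with hj | hj
      · exact sep l h.1 i hi j hj hij y hy y' hy' y'' hy''
      · exact h.2.2.1 y m y' m' y'' ((mem_sbs t r _).2 ⟨j, hj, hy''⟩)
    · have m : y ∈ (sbs t r).lvs := (mem_sbs t r _).2 ⟨i, hi, hy⟩
      have m' : y' ∈ (sbs t r).lvs := (mem_sbs t r _).2 ⟨i, hi, hy'⟩
      rcases hj with hj | hj
      · exact h.2.2.2 y'' ((mem_sbs t l _).2 ⟨j, hj, hy''⟩) y m y' m'
      · exact sep r h.2.1 i hi j hj hij y hy y' hy' y'' hy''

theorem ex_leaf : ∀ T : BT X, ∃ x, x ∈ T.lvs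
  | lf x => ⟨x, by simp [BT.lvs]⟩
  | nd l r => by
      obtain ⟨x, hx⟩ := ex_leaf l
      exact ⟨x, by simp [BT.lvs, hx]⟩

/-- A tuple of a composed shape is a blow-up. -/
theorem blow (hSHF : S_SHF) {T : BT I} (aT : ∀ i, i ∈ T.lvs) {t : I → BT X} {v : X → Word c}
    (hv : Sh v (sbs t T)) (vi : Function.Injective v) {π : X → I} (hπ : ∀ x, x ∈ (t (π x)).lvs)
    {s : I → X} (hs : ∀ i, s i ∈ (t i).lvs) (si : Function.Injective s) :
    Bl π (fun i => v (s i)) v := by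
  intro y y' y'' h1 h2
  by_cases e : π y = π y'
  · constructor
    · intro _
      show Cc (v (s (π y''))) (v (s (π y))) (v (s (π y')))
      rw [← e]
      exact cc_self fun h => h1 (si (vi h))
    · intro _
      exact sep T hv (π y) (aT _) (π y'') (aT _) (Ne.symm h1) y (hπ y) y' (by rw [e]; exact hπ y')
        y'' (hπ y'')
  · let a : I → X := fun i => if i = π y then y else if i = π y' then y' else
      if i = π y'' then y'' else s i
    have ha : ∀ i ∈ T.lvs, a i ∈ (t i).lvs := by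
      intro i _
      show (if i = π y then y else if i = π y' then y' else if i = π y'' then y'' else s i) ∈ _
      split_ifs with g1 g2 g3
      · rw [g1]
        exact hπ y
      · rw [g2]
        exact hπ y'
      · rw [g3]
        exact hπ y''
      · exact hs i
    have a1 : a (π y) = y := if_pos rfl
    have a2 : a (π y') = y' := by
      show (if π y' = π y then y else if π y' = π y' then y' else _) = _
      rw [if_neg (Ne.symm e), if_pos rfl]
    have a3 : a (π y'') = y'' := by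
      show (if π y'' = π y then y else if π y'' = π y' then y' else
        if π y'' = π y'' then y'' else _) = _
      rw [if_neg h1, if_neg h2, if_pos rfl]
    have key := ((hSHF K c I T).2.1 _ _ (sel T hv ha) (sel T hv fun i _ => hs i)).2 (π y) (aT _)
      (π y') (aT _) (π y'') (aT _)
    simp only [a1, a2, a3] at key
    exact key

/-- Fat arrows between two shapes give arrows between the composed shapes. -/
theorem gen (hSHF : S_SHF) {ω : Prop} {𝔅 : Str σ (Word c)} [Finite X] {T₀ T₁ : BT I}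
    (a0 : ∀ i, i ∈ T₀.lvs) (a1 : ∀ i, i ∈ T₁.lvs) (t : I → BT X)
    (hf : ∀ v₁ w₁ : I → Word c, Function.Injective v₁ → Function.Injective w₁ → Sh v₁ T₀ →
      Sh w₁ T₁ → Fat ω 𝔅 Set.univ v₁ w₁) {v w : X → Word c} (hv : Sh v (sbs t T₀))
    (hw : Sh w (sbs t T₁)) (hall : ∀ x, x ∈ (sbs t T₀).lvs) : Arr 𝔅 v w := by
  have hex : ∀ x, ∃ i, x ∈ (t i).lvs := fun x => by
    obtain ⟨i, _, hi⟩ := (mem_sbs t T₀ x).1 (hall x)
    exact ⟨i, hi⟩
  have hall1 : ∀ x, x ∈ (sbs t T₁).lvs := fun x => by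
    obtain ⟨i, hi⟩ := hex x
    exact (mem_sbs t T₁ x).2 ⟨i, a1 i, hi⟩
  have vi : Function.Injective v := fun x y h =>
    ((hSHF K c X _).1 v hv).2 (hall x) (hall y) h
  have wi : Function.Injective w := fun x y h =>
    ((hSHF K c X _).1 w hw).2 (hall1 x) (hall1 y) h
  choose π hπ using hex
  have uniq : ∀ i x, x ∈ (t i).lvs → π x = i := by
    intro i x hx
    by_contra hne
    exact cc_irrefl (sep T₀ hv i (a0 _) (π x) (a0 _) (Ne.symm hne) x hx x hx x (hπ x))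
  choose s hs using fun i : I => ex_leaf (t i)
  have hπs : ∀ i, π (s i) = i := fun i => uniq i _ (hs i)
  have si : Function.Injective s := by
    intro i j h
    rw [← hπs i, ← hπs j, h]
  have hfat := hf (fun i => v (s i)) (fun i => w (s i)) (vi.comp si) (wi.comp si)
    (sel T₀ hv fun i _ => hs i) (sel T₁ hw fun i _ => hs i)
  refine hfat X π v w ?_ vi wi ?_ (blow hSHF a0 hv vi hπ hs si) (blow hSHF a1 hw wi hπ hs si) ?_
  · intro y y' _ h
    exact absurd (Set.mem_univ _) h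
  · right
    intro i
    refine ((hSHF K c X (t i)).2.2.2.2.2.2.2 v (sh_part T₀ hv i (a0 i))).mono ?_
    intro y hy
    have e : π y = i := hy
    show y ∈ (t i).lvs
    rw [← e]
    exact hπ y
  · intro i
    refine ((hSHF K c X (t i)).2.1 v w (sh_part T₀ hv i (a0 i)) (sh_part T₁ hw i (a1 i))).mono ?_
    intro y hy
    have e : π y = i := hy
    show y ∈ (t i).lvs
    rw [← e]
    exact hπ y

/-- Rotation at the root. -/
theorem m3 (hSHF : S_SHF) {ω : Prop} {𝔅 : Str σ (Word c)} (hF : F3 ω 𝔅) [Finite X] (A B C : BT X)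
    {v w : X → Word c} (hall : ∀ x, x ∈ (nd (nd A B) C).lvs) (hv : Sh v (nd (nd A B) C))
    (hw : Sh w (nd A (nd B C))) : Arr 𝔅 v w :=
  gen hSHF (T₀ := nd (nd (lf (0 : Fin 3)) (lf 1)) (lf 2)) (T₁ := nd (lf 0) (nd (lf 1) (lf 2)))
    (by intro i; fin_cases i <;> simp [BT.lvs]) (by intro i; fin_cases i <;> simp [BT.lvs])
    ![A, B, C] (fun v₁ w₁ h1 h2 _ _ => hF v₁ w₁ h1 h2) hv hw hall

theorem m3' (hSHF : S_SHF) {ω : Prop} {𝔅 : Str σ (Word c)} (hF : F3 ω 𝔅) [Finite X] (A B C : BT X)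
    {v w : X → Word c} (hall : ∀ x, x ∈ (nd A (nd B C)).lvs) (hv : Sh v (nd A (nd B C)))
    (hw : Sh w (nd (nd A B) C)) : Arr 𝔅 v w :=
  gen hSHF (T₁ := nd (nd (lf (0 : Fin 3)) (lf 1)) (lf 2)) (T₀ := nd (lf 0) (nd (lf 1) (lf 2)))
    (by intro i; fin_cases i <;> simp [BT.lvs]) (by intro i; fin_cases i <;> simp [BT.lvs])
    ![A, B, C] (fun v₁ w₁ h1 h2 _ _ => hF v₁ w₁ h1 h2) hv hw hall

/-- Rotation below the root. -/
theorem m4 (hSHF : S_SHF) {ω : Prop} {𝔅 : Str σ (Word c)}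
    (hF : ∀ v w : Fin 4 → Word c, Function.Injective v → Function.Injective w →
      ¬ Xr (v 0) (v 1) (v 2) (v 3) → ¬ Xr (w 0) (w 1) (w 2) (w 3) → Fat ω 𝔅 Set.univ v w)
    [Finite X] (A B C D : BT X) {v w : X → Word c} (hall : ∀ x, x ∈ (nd D (nd (nd A B) C)).lvs)
    (hv : Sh v (nd D (nd (nd A B) C))) (hw : Sh w (nd D (nd A (nd B C)))) : Arr 𝔅 v w := by
  refine gen hSHF (ω := ω) (T₀ := nd (lf (3 : Fin 4)) (nd (nd (lf 0) (lf 1)) (lf 2)))
    (T₁ := nd (lf 3) (nd (lf 0) (nd (lf 1) (lf 2))))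
    (by intro i; fin_cases i <;> simp [BT.lvs]) (by intro i; fin_cases i <;> simp [BT.lvs])
    ![A, B, C, D] ?_ hv hw hall
  intro v₁ w₁ i1 i2 s1 s2
  refine hF v₁ w₁ i1 i2 ?_ ?_
  · intro h
    obtain ⟨-, -, -, -, -, -, h7, -, -⟩ := h
    obtain ⟨-, ⟨-, -, g1, -⟩, -, g2⟩ := s1
    refine h7 ⟨fun h => absurd (i1 h) (by decide), fun h => absurd (i1 h) (by decide), Or.inl
      ⟨g1 0 (by simp [BT.lvs]) 1 (by simp [BT.lvs]) 2 (by simp [BT.lvs]),
        g2 3 (by simp [BT.lvs]) 0 (by simp [BT.lvs]) 1 (by simp [BT.lvs])⟩⟩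
  · intro h
    obtain ⟨-, -, -, -, -, -, -, -, h9⟩ := h
    obtain ⟨-, ⟨-, -, -, g1⟩, -, g2⟩ := s2
    refine h9 ⟨fun h => absurd (i2 h) (by decide), fun h => absurd (i2 h) (by decide), Or.inr
      ⟨g1 0 (by simp [BT.lvs]) 1 (by simp [BT.lvs]) 2 (by simp [BT.lvs]),
        g2 3 (by simp [BT.lvs]) 1 (by simp [BT.lvs]) 2 (by simp [BT.lvs])⟩⟩

theorem sep_symm {v : X → Word c} {A B : List X} (h : Sep v A B) : Sep v B A :=
  ⟨fun x hx y hy z hz => h.2 z hz x hx y hy, fun x hx y hy z hz => h.1 y hy z hz x hx⟩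

theorem sh_swap {v : X → Word c} {l r : BT X} (h : Sh v (nd l r)) : Sh v (nd r l) :=
  ⟨h.2.1, h.1, sep_symm h.2.2⟩

theorem sep_perm {v : X → Word c} {A A' B : List X} (hA : List.Perm A A') (h : Sep v A B) :
    Sep v A' B :=
  ⟨fun x hx y hy z hz => h.1 x (hA.mem_iff.2 hx) y (hA.mem_iff.2 hy) z hz,
    fun x hx y hy z hz => h.2 x (hA.mem_iff.2 hx) y hy z hz⟩

/-- Every tuple of the first shape can be mapped to every tuple of the second one. -/
def Rw (𝔅 : Str σ (Word c)) (T T' : BT X) : Prop :=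
  List.Perm T.lvs T'.lvs ∧ ∀ v w : X → Word c, Sh v T → Sh w T' → Arr 𝔅 v w

/-- Every point is exactly once a leaf. -/
def Gd (T : BT X) : Prop := T.lvs.Nodup ∧ ∀ x, x ∈ T.lvs

theorem Gd.perm {T T' : BT X} (h : Gd T) (hp : List.Perm T.lvs T'.lvs) : Gd T' :=
  ⟨hp.nodup_iff.1 h.1, fun x => hp.mem_iff.1 (h.2 x)⟩

theorem rw_trans (hSHX : S_SHX) (hab : ∃ a b : K, a ≠ b) {𝔅 : Str σ (Word c)} [Finite X]
    {T T' T'' : BT X} (hT : Gd T) (h : Rw 𝔅 T T') (h' : Rw 𝔅 T' T'') : Rw 𝔅 T T'' := by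
  obtain ⟨u, hu⟩ := (hSHX K c X).1 hab T' (hT.perm h.1).1
  exact ⟨h.1.trans h'.1, fun v w hv hw => (h.2 v u hv hu).trans (h'.2 u w hu hw)⟩

theorem rw_same (hSHF : S_SHF) (hARR : S_ARR) {𝔅 : Str σ (Word c)} (hI : AllInv 𝔅) [Finite X]
    {T T' : BT X} (hT : Gd T) (hp : List.Perm T.lvs T'.lvs) (h : ∀ v : X → Word c, Sh v T → Sh v T') :
    Rw 𝔅 T T' := by
  refine ⟨hp, fun v w hv hw => (hARR K c σ 𝔅 hI).1 X v w ?_⟩
  refine ((hSHF K c X T').2.1 v w (h v hv) hw).mono ?_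
  intro x _
  exact (hT.perm hp).2 x

theorem lvs_combT : ∀ (x : X) (ℓ : List X), (combT x ℓ).lvs = x :: ℓ
  | x, [] => rfl
  | x, y :: ℓ => by
    show [x] ++ (combT y ℓ).lvs = x :: y :: ℓ
    rw [lvs_combT y ℓ]
    rfl

theorem combL {v : X → Word c} : ∀ (x : X) (ℓ : List X), Sh v (combT x ℓ) → CombL v (x :: ℓ)
  | x, [], _ => ⟨fun y hy => absurd hy (by simp), trivial⟩
  | x, y :: ℓ, h => by
    refine ⟨?_, combL y ℓ h.2.1⟩
    intro a ha b hb
    have e := h.2.2.2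
    rw [lvs_combT] at e
    exact e x (by simp [BT.lvs]) a ha b hb

theorem lvs_pos (T : BT X) : 0 < T.lvs.length := by
  obtain ⟨x, hx⟩ := ex_leaf T
  exact List.length_pos_of_mem hx

theorem len_nd (l r : BT X) : (nd l r).lvs.length = l.lvs.length + r.lvs.length :=
  List.length_append

section

variable (hSHF : S_SHF) (hSHX : S_SHX) (hARR : S_ARR) (hab : ∃ a b : K, a ≠ b) {ω : Prop}
  {𝔅 : Str σ (Word c)} (hI : AllInv 𝔅) (hF : F3 ω 𝔅)
  (hF4 : ∀ v w : Fin 4 → Word c, Function.Injective v → Function.Injective w →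
    ¬ Xr (v 0) (v 1) (v 2) (v 3) → ¬ Xr (w 0) (w 1) (w 2) (w 3) → Fat ω 𝔅 Set.univ v w)
  [Finite X]

include hSHF hSHX hARR hab hI hF in
/-- The left side of the root becomes a leaf. -/
theorem top : ∀ (k : ℕ) (T₁ T₂ : BT X), T₁.lvs.length = k → Gd (nd T₁ T₂) →
    ∃ (x : X) (T' : BT X), Rw 𝔅 (nd T₁ T₂) (nd (lf x) T') := by
  intro k
  induction k using Nat.strong_induction_on with
  | _ k ih =>
    intro T₁ T₂ hk hG
    cases T₁ with
    | lf x => exact ⟨x, T₂, rw_same hSHF hARR hI hG (List.Perm.refl _) fun v h => h⟩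
    | nd A B =>
      have hA := len_nd A B
      have hB := lvs_pos B
      have hp : List.Perm (nd (nd A B) T₂).lvs (nd A (nd B T₂)).lvs := by
        simp only [BT.lvs, List.append_assoc]
        exact List.Perm.refl _
      have r1 : Rw 𝔅 (nd (nd A B) T₂) (nd A (nd B T₂)) :=
        ⟨hp, fun v w hv hw => m3 hSHF hF A B T₂ hG.2 hv hw⟩
      obtain ⟨x, T', h'⟩ := ih A.lvs.length (by omega) A (nd B T₂) rfl (hG.perm hp)
      exact ⟨x, T', rw_trans hSHX hab hG r1 h'⟩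

include hSHF hSHX hARR hab hI hF4 in
/-- The left side of the right side of the root becomes a leaf. -/
theorem mid (D : BT X) : ∀ (k : ℕ) (T₁ T₂ : BT X), T₁.lvs.length = k → Gd (nd D (nd T₁ T₂)) →
    ∃ (x : X) (T' : BT X), Rw 𝔅 (nd D (nd T₁ T₂)) (nd D (nd (lf x) T')) := by
  intro k
  induction k using Nat.strong_induction_on with
  | _ k ih =>
    intro T₁ T₂ hk hG
    cases T₁ with
    | lf x => exact ⟨x, T₂, rw_same hSHF hARR hI hG (List.Perm.refl _) fun v h => h⟩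
    | nd A B =>
      have hA := len_nd A B
      have hB := lvs_pos B
      have hp : List.Perm (nd D (nd (nd A B) T₂)).lvs (nd D (nd A (nd B T₂))).lvs := by
        simp only [BT.lvs, List.append_assoc]
        exact List.Perm.refl _
      have r1 : Rw 𝔅 (nd D (nd (nd A B) T₂)) (nd D (nd A (nd B T₂))) :=
        ⟨hp, fun v w hv hw => m4 hSHF hF4 A B T₂ D hG.2 hv hw⟩
      obtain ⟨x, T', h'⟩ := ih A.lvs.length (by omega) A (nd B T₂) rfl (hG.perm hp)
      exact ⟨x, T', rw_trans hSHX hab hG r1 h'⟩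

include hSHF hSHX hARR hab hI hF hF4 in
/-- The main induction. -/
theorem main : ∀ (n : ℕ) (T : BT X) (x : X) (ℓ : List X), T.lvs.length = n →
    Gd (nd (combT x ℓ) T) → ∃ (x' : X) (ℓ' : List X), Rw 𝔅 (nd (combT x ℓ) T) (combT x' ℓ') := by
  intro n
  induction n using Nat.strong_induction_on with
  | _ n ih =>
    intro T x ℓ hn hG
    cases T with
    | lf y =>
      refine ⟨y, x :: ℓ, rw_same hSHF hARR hI hG ?_ fun v h => sh_swap h⟩
      show List.Perm ((combT x ℓ).lvs ++ [y]) ([y] ++ (combT x ℓ).lvs)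
      exact List.perm_append_comm
    | nd T₁ T₂ =>
      obtain ⟨y, T₃, r1⟩ := mid hSHF hSHX hARR hab hI hF4 (combT x ℓ) T₁.lvs.length T₁ T₂ rfl hG
      have hG1 : Gd (nd (combT x ℓ) (nd (lf y) T₃)) := hG.perm r1.1
      have hlen : T₃.lvs.length + 1 = n := by
        have e := r1.1.length_eq
        rw [len_nd, len_nd (combT x ℓ) (nd (lf y) T₃), len_nd (lf y) T₃, hn] at e
        have e1 : (lf y : BT X).lvs.length = 1 := rfl
        omega
      have hp2 : List.Perm (nd (combT x ℓ) (nd (lf y) T₃)).lvs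
          (nd (nd (combT x ℓ) (lf y)) T₃).lvs := by
        simp only [BT.lvs, List.append_assoc]
        exact List.Perm.refl _
      have r2 : Rw 𝔅 (nd (combT x ℓ) (nd (lf y) T₃)) (nd (nd (combT x ℓ) (lf y)) T₃) :=
        ⟨hp2, fun v w hv hw => m3' hSHF hF (combT x ℓ) (lf y) T₃ hG1.2 hv hw⟩
      have hG2 := hG1.perm hp2
      have hp3' : List.Perm (nd (combT x ℓ) (lf y)).lvs (combT y (x :: ℓ)).lvs := by
        show List.Perm ((combT x ℓ).lvs ++ [y]) ([y] ++ (combT x ℓ).lvs)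
        exact List.perm_append_comm
      have hp3 : List.Perm (nd (nd (combT x ℓ) (lf y)) T₃).lvs (nd (combT y (x :: ℓ)) T₃).lvs :=
        hp3'.append_right _
      have r3 : Rw 𝔅 (nd (nd (combT x ℓ) (lf y)) T₃) (nd (combT y (x :: ℓ)) T₃) :=
        rw_same hSHF hARR hI hG2 hp3 fun v h => ⟨sh_swap h.1, h.2.1, sep_perm hp3' h.2.2⟩
      have hG3 := hG2.perm hp3
      obtain ⟨x', ℓ', r4⟩ := ih T₃.lvs.length (by omega) T₃ y (x :: ℓ) rfl hG3
      exact ⟨x', ℓ', rw_trans hSHX hab hG r1 (rw_trans hSHX hab hG1 r2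
        (rw_trans hSHX hab hG2 r3 r4))⟩

include hSHF hSHX hARR hab hI hF hF4 in
theorem all (T : BT X) (hG : Gd T) : ∃ (x : X) (ℓ : List X), Rw 𝔅 T (combT x ℓ) := by
  cases T with
  | lf x => exact ⟨x, [], rw_same hSHF hARR hI hG (List.Perm.refl _) fun v h => h⟩
  | nd T₁ T₂ =>
    obtain ⟨x, T', r1⟩ := top hSHF hSHX hARR hab hI hF T₁.lvs.length T₁ T₂ rfl hG
    obtain ⟨x', ℓ', r2⟩ := main hSHF hSHX hARR hab hI hF hF4 T'.lvs.length T' x [] rfl
      (hG.perm r1.1)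
    exact ⟨x', ℓ', rw_trans hSHX hab hG r1 r2⟩

end

end XCBQ

open XCBQ in
theorem CBQ_pf (_h1 : S_FAT) (h2 : S_SHF) (h3 : S_SHX) (_h4 : S_BLW) (_h5 : S_BLF) (h6 : S_ARR) :
    S_CBQ := by
  intro K c σ ω 𝔅 hab hI hF hF4 X _ v hv hb
  by_cases hX : Nonempty X
  · obtain ⟨x₀⟩ := hX
    obtain ⟨T, hT, hs⟩ := (h3 K c X).2.1 v Set.univ ⟨x₀, trivial⟩ hv.injOn hb
    have hG : Gd T := ⟨((h2 K c X T).1 v hs).1, fun x => (hT x).2 trivial⟩
    obtain ⟨x, ℓ, r⟩ := all h2 h3 h6 hab hI hF hF4 T hG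
    have hG' := hG.perm r.1
    obtain ⟨z, hz⟩ := (h3 K c X).1 hab (combT x ℓ) hG'.1
    refine ⟨z, x :: ℓ, ?_, ?_, ?_, combL x ℓ hz, r.2 v z hs hz⟩
    · intro a b h
      exact ((h2 K c X _).1 z hz).2 (hG'.2 a) (hG'.2 b) h
    · intro a
      have := hG'.2 a
      rwa [lvs_combT] at this
    · have := hG'.1
      rwa [lvs_combT] at this
  · refine ⟨v, [], hv, fun x => absurd ⟨x⟩ hX, List.nodup_nil, trivial, Arr.refl 𝔅 v⟩

end Pool.Agent.Work.MP_8dbde4_lc.FK
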