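import Pool.Agent.Work.MP_8dbde4_lc.FK.StmtsB

/-!
# Item [8dbde4 FK CR]: the case without `XQ`
-/

set_option autoImplicit false
open Classical

namespace Pool.Agent.Work.MP_8dbde4_lc.FK

open Pool.Agent.Work.MP_8dbde4_lc.TS
open Pool.Agent.Work.MP_8dbde4_lc.Tree (Word Agr Cc)
open Pool.Agent.Work.MP_8dbde4_lc.Phy (PP Hom)
open Pool.Agent.Work.MP_8dbde4_lc.Bra (Same InvU BinOn pull c₂)
open Pool.Agent.Work.MP_8dbde4_lc.Full (Arr NEq Cst0 BT Sub)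
open Pool.Agent.Work.MP_8dbde4_lc.Full.BT

namespace XCR

variable {K : Type} {c : ℚ → K} {σ : Sig} {ω : Prop}

/-- a word above a star -/
lemma xr_top {t x y a : Word c} (h : St x y a) (h1 : Cc t x y) (h2 : Cc t x a)
    (_h3 : Cc t y a) : Xr t x y a := by
  obtain ⟨n1, n2, n3, s1, s2, s3⟩ := h
  refine ⟨cc_ne h1, cc_ne' h1, cc_ne' h2, n1, n3, n2, ?_, ?_, ?_⟩
  · rintro ⟨_, _, ⟨h4, _⟩ | ⟨_, h4⟩⟩
    · exact cc_asymm (cc_symm h1) h4
    · exact s3 h4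
  · rintro ⟨_, _, ⟨h4, _⟩ | ⟨_, h4⟩⟩
    · exact cc_asymm h1 h4
    · exact s2 h4
  · rintro ⟨_, _, ⟨h4, _⟩ | ⟨_, h4⟩⟩
    · exact cc_asymm h2 h4
    · exact s1 h4

lemma qs1 (hQ : S_QFA) {x y z t : Word c} (h : Qr x y z t) : Qr y x z t :=
  ((hQ K c).1 x y z t).1 h

lemma qs2 (hQ : S_QFA) {x y z t : Word c} (h : Qr x y z t) : Qr z t x y :=
  ((hQ K c).1 x y z t).2.1 h

lemma qs3 (hQ : S_QFA) {x y z t : Word c} (h : Qr x y z t) : Qr x y t z :=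
  qs2 hQ (qs1 hQ (qs2 hQ h))

lemma xs1 (hQ : S_QFA) {x y z t : Word c} (h : Xr x y z t) : Xr x z y t := by
  obtain ⟨h1, h2, h3, h4, h5, h6, h7, h8, h9⟩ := h
  exact ⟨h2, h1, h3, h4.symm, h6, h5, h8, h7, fun h => h9 (qs3 hQ h)⟩

lemma xs2 (hQ : S_QFA) {x y z t : Word c} (h : Xr x y z t) : Xr x t y z := by
  obtain ⟨h1, h2, h3, h4, h5, h6, h7, h8, h9⟩ := h
  exact ⟨h3, h1, h2, h5.symm, h6.symm, h4, h9, fun h => h7 (qs3 hQ h), fun h => h8 (qs3 hQ h)⟩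

lemma inj4 {X : Type} {x y z t : X} (h1 : x ≠ y) (h2 : x ≠ z) (h3 : x ≠ t) (h4 : y ≠ z)
    (h5 : y ≠ t) (h6 : z ≠ t) : Function.Injective (![x, y, z, t] : Fin 4 → X) := by
  intro i j h
  fin_cases i <;> fin_cases j
  · rfl
  · exact absurd h h1
  · exact absurd h h2
  · exact absurd h h3
  · exact absurd h.symm h1
  · rfl
  · exact absurd h h4
  · exact absurd h h5
  · exact absurd h.symm h2
  · exact absurd h.symm h4
  · rfl
  · exact absurd h h6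
  · exact absurd h.symm h3
  · exact absurd h.symm h5
  · exact absurd h.symm h6
  · rfl

/-- restriction to four fat points -/
lemma restr (hF : S_FAT) (𝔅 : Str σ (Word c)) (hI : AllInv 𝔅) {X : Type} [Finite X] {F : Set X}
    {v w : X → Word c} (hv : Function.Injective v) (hw : Function.Injective w)
    (h : Fat ω 𝔅 F v w) (e : Fin 4 → X) (he : Function.Injective e) (heF : ∀ i, e i ∈ F) :
    Fat ω 𝔅 Set.univ (fun i => v (e i)) (fun i => w (e i)) := by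
  have h6 := (hF K c σ ω 𝔅 hI X F v w hv hw).2.2.2.2.2.1 (Fin 4) e he h
  exact (hF K c σ ω 𝔅 hI (Fin 4) _ _ _ (hv.comp he) (hw.comp he)).2.2.2.1 Set.univ
    (fun i _ => heF i) h6

/-- `Xr` is preserved -/
lemma pres (𝔅 : Str σ (Word c)) (hXQ : ¬ XQ ω 𝔅) {v w : Fin 4 → Word c}
    (hv : Function.Injective v) (hw : Function.Injective w) (h : Fat ω 𝔅 Set.univ v w)
    (hx : Xr (v 0) (v 1) (v 2) (v 3)) : Xr (w 0) (w 1) (w 2) (w 3) := by
  by_contra hc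
  exact hXQ ⟨v, w, hv, hw, h, hx, hc⟩

/-- one of the quartets -/
lemma three {v : Fin 4 → Word c} (hv : Function.Injective v)
    (h : ¬ Xr (v 0) (v 1) (v 2) (v 3)) : Qr (v 0) (v 1) (v 2) (v 3) ∨
      Qr (v 0) (v 2) (v 1) (v 3) ∨ Qr (v 0) (v 3) (v 1) (v 2) := by
  by_contra hc
  push Not at hc
  have hd : ∀ i j : Fin 4, i ≠ j → v i ≠ v j := fun i j hij h => hij (hv h)
  exact h ⟨hd 0 1 (by decide), hd 0 2 (by decide), hd 0 3 (by decide), hd 1 2 (by decide),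
    hd 1 3 (by decide), hd 2 3 (by decide), hc.1, hc.2.1, hc.2.2⟩

/-- the complement of `Xr` is preserved -/
lemma pres' (hF : S_FAT) (hQ : S_QFA) (𝔅 : Str σ (Word c)) (hI : AllInv 𝔅) (hQX : ¬ QX ω 𝔅)
    {v w : Fin 4 → Word c} (hv : Function.Injective v) (hw : Function.Injective w)
    (h : Fat ω 𝔅 Set.univ v w) (hx : ¬ Xr (v 0) (v 1) (v 2) (v 3)) :
    ¬ Xr (w 0) (w 1) (w 2) (w 3) := by
  intro hc
  rcases three hv hx with h1 | h1 | h1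
  · exact hQX ⟨v, w, hv, hw, h, h1, hc⟩
  · have hi : Function.Injective (![0, 2, 1, 3] : Fin 4 → Fin 4) := by decide
    exact hQX ⟨_, _, hv.comp hi, hw.comp hi,
      restr hF 𝔅 hI hv hw h _ hi fun _ => trivial, h1, xs1 hQ hc⟩
  · have hi : Function.Injective (![0, 3, 1, 2] : Fin 4 → Fin 4) := by decide
    exact hQX ⟨_, _, hv.comp hi, hw.comp hi,
      restr hF 𝔅 hI hv hw h _ hi fun _ => trivial, h1, xs2 hQ hc⟩

/-- no fat arrow changes a quartet into another one -/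
lemma core (hF : S_FAT) (hE : S_EXM) (hQ : S_QFA) (hT4 : S_QFT) (hT : S_TY3)
    (hK : ∃ a b d : K, a ≠ b ∧ a ≠ d ∧ b ≠ d) (𝔅 : Str σ (Word c)) (hI : AllInv 𝔅)
    (hX : Ext ω 𝔅) (hF3 : F3 ω 𝔅) (hXQ : ¬ XQ ω 𝔅) {v w : Fin 4 → Word c}
    (hv : Function.Injective v) (hw : Function.Injective w) (hfat : Fat ω 𝔅 Set.univ v w)
    (hv4 : Q4 v) (hw4 : Qr (w 0) (w 2) (w 1) (w 3)) : False := by
  have hK2 : ∃ a b : K, a ≠ b := by
    obtain ⟨a, b, _, h, _⟩ := hK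
    exact ⟨a, b, h⟩
  obtain ⟨p, hp, hst⟩ := (hT K c).2.2.1 hK
  obtain ⟨z, hz⟩ := (hT K c).2.2.2.2.1 hK2 (Fin 3) p
  obtain ⟨s, hs⟩ := (hT K c).2.2.2.2.1 hK2 (Option (Fin 3)) (fun o => o.elim z p)
  have hsz : s ≠ z := cc_ne (hs none none)
  have hsp : ∀ i, s ≠ p i := fun i => cc_ne (hs (some i) none)
  have hzp : ∀ i, z ≠ p i := fun i => cc_ne (hz i 0)
  have hpp : ∀ i j : Fin 3, i ≠ j → p i ≠ p j := fun i j hij h => hij (hp h)
  obtain ⟨u, hu⟩ : ∃ u : Fin 5 → Word c, u = ![s, z, p 0, p 1, p 2] := ⟨_, rfl⟩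
  have u0 : u 0 = s := by rw [hu]; rfl
  have u1 : u 1 = z := by rw [hu]; rfl
  have u2 : u 2 = p 0 := by rw [hu]; rfl
  have u3 : u 3 = p 1 := by rw [hu]; rfl
  have u4 : u 4 = p 2 := by rw [hu]; rfl
  have hui : Function.Injective u := by
    have key : ∀ i j : Fin 5, i < j → u i ≠ u j := by
      intro i j hij
      fin_cases i <;> fin_cases j <;> first
        | exact absurd hij (by decide)
        | (change u 0 ≠ u 1; rw [u0, u1]; exact hsz)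
        | (change u 0 ≠ u 2; rw [u0, u2]; exact hsp 0)
        | (change u 0 ≠ u 3; rw [u0, u3]; exact hsp 1)
        | (change u 0 ≠ u 4; rw [u0, u4]; exact hsp 2)
        | (change u 1 ≠ u 2; rw [u1, u2]; exact hzp 0)
        | (change u 1 ≠ u 3; rw [u1, u3]; exact hzp 1)
        | (change u 1 ≠ u 4; rw [u1, u4]; exact hzp 2)
        | (change u 2 ≠ u 3; rw [u2, u3]; exact hpp 0 1 (by decide))
        | (change u 2 ≠ u 4; rw [u2, u4]; exact hpp 0 2 (by decide))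
        | (change u 3 ≠ u 4; rw [u3, u4]; exact hpp 1 2 (by decide))
    intro i j h
    rcases lt_trichotomy i j with h1 | h1 | h1
    · exact absurd h (key i j h1)
    · exact h1
    · exact absurd h.symm (key j i h1)
  have hei : Function.Injective (![0, 1, 2, 3] : Fin 4 → Fin 5) := by decide
  have hq : Q4 (fun i => u ((![0, 1, 2, 3] : Fin 4 → Fin 5) i)) := by
    change Qr (u 0) (u 1) (u 2) (u 3)
    rw [u0, u1, u2, u3]
    exact ⟨hsz, hpp 0 1 (by decide), Or.inr ⟨hs (some 0) (some 1), hz 0 1⟩⟩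
  have hfat1 : Fat ω 𝔅 Set.univ (fun i => u ((![0, 1, 2, 3] : Fin 4 → Fin 5) i)) v :=
    hT4 K c σ ω 𝔅 hK2 hI hF3 _ _ (hui.comp hei) hv hq hv4
  have hfat2 : Fat ω 𝔅 Set.univ (fun i => u ((![0, 1, 2, 3] : Fin 4 → Fin 5) i)) w :=
    (hF K c σ ω 𝔅 hI (Fin 4) Set.univ _ _ (hui.comp hei) hw).2.2.1 v hv hfat1 hfat
  obtain ⟨w', hw', hww, hfat3⟩ := hE K c σ ω 𝔅 hI hX (Fin 4) (Fin 5) ![0, 1, 2, 3] Set.univ u w
    hei hui hw hfat2
  have e0 : w' 0 = w 0 := hww 0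
  have e1 : w' 1 = w 1 := hww 1
  have e2 : w' 2 = w 2 := hww 2
  have e3 : w' 3 = w 3 := hww 3
  have ha : Function.Injective (![0, 2, 3, 4] : Fin 4 → Fin 5) := by decide
  have hb : Function.Injective (![1, 2, 3, 4] : Fin 4 → Fin 5) := by decide
  have x1 : Xr (w' 0) (w' 2) (w' 3) (w' 4) := by
    refine pres 𝔅 hXQ (hui.comp ha) (hw'.comp ha)
      (restr hF 𝔅 hI hui hw' hfat3 _ ha fun _ _ _ => trivial) ?_
    change Xr (u 0) (u 2) (u 3) (u 4)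
    rw [u0, u2, u3, u4]
    exact xr_top hst (hs (some 0) (some 1)) (hs (some 0) (some 2)) (hs (some 1) (some 2))
  have x2 : Xr (w' 1) (w' 2) (w' 3) (w' 4) := by
    refine pres 𝔅 hXQ (hui.comp hb) (hw'.comp hb)
      (restr hF 𝔅 hI hui hw' hfat3 _ hb fun _ _ _ => trivial) ?_
    change Xr (u 1) (u 2) (u 3) (u 4)
    rw [u1, u2, u3, u4]
    exact xr_top hst (hz 0 1) (hz 0 2) (hz 1 2)
  refine (hQ K c).2.2.2.2.2.2.1 (w' 0) (w' 1) (w' 2) (w' 3) (w' 4) x1 x2 ?_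
  rw [e0, e1, e2, e3]
  exact hw4

/-- quartets are preserved -/
lemma keep (hF : S_FAT) (hE : S_EXM) (hQ : S_QFA) (hT4 : S_QFT) (hT : S_TY3)
    (hK : ∃ a b d : K, a ≠ b ∧ a ≠ d ∧ b ≠ d) (𝔅 : Str σ (Word c)) (hI : AllInv 𝔅)
    (hX : Ext ω 𝔅) (hF3 : F3 ω 𝔅) (hXQ : ¬ XQ ω 𝔅) (hQX : ¬ QX ω 𝔅) {v w : Fin 4 → Word c}
    (hv : Function.Injective v) (hw : Function.Injective w) (hfat : Fat ω 𝔅 Set.univ v w)
    (hv4 : Q4 v) : Q4 w := by
  have h1 : ¬ Xr (v 0) (v 1) (v 2) (v 3) := fun h => h.2.2.2.2.2.2.1 hv4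
  rcases three hw (pres' hF hQ 𝔅 hI hQX hv hw hfat h1) with h2 | h2 | h2
  · exact h2
  · exact (core hF hE hQ hT4 hT hK 𝔅 hI hX hF3 hXQ hv hw hfat hv4 h2).elim
  · have hi : Function.Injective (![0, 1, 3, 2] : Fin 4 → Fin 4) := by decide
    exact (core hF hE hQ hT4 hT hK 𝔅 hI hX hF3 hXQ (hv.comp hi) (hw.comp hi)
      (restr hF 𝔅 hI hv hw hfat _ hi fun _ => trivial) (qs3 hQ hv4) h2).elim

end XCR

open XCR in
theorem CR_pf (h1 : S_FAT) (h2 : S_EXM) (h3 : S_QFA) (h4 : S_QFT) (h5 : S_ITR) (h6 : S_AXS)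
    (h7 : S_TY3) : S_CR := by
  intro K c σ ω 𝔅 hK hI hN hX hF3 hXQ
  have hK2 : ∃ a b : K, a ≠ b := by
    obtain ⟨a, b, _, h, _⟩ := hK
    exact ⟨a, b, h⟩
  by_cases hQX : QX ω 𝔅
  · left
    obtain ⟨v₀, w₀, hv₀, hw₀, hfat, hq₀, hx₀⟩ := hQX
    refine h6 K c σ 𝔅 hI hN ((h5 K c σ 𝔅).2.2.2 ?_)
    intro X _ v hv hex
    obtain ⟨x, y, z, t, hq⟩ := hex
    obtain ⟨n1, n2, n3, n4, n5, n6⟩ := ((h3 K c).1 _ _ _ _).2.2 hq
    have hne : ∀ a b : X, v a ≠ v b → a ≠ b := fun a b h h' => h (by rw [h'])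
    have hi : Function.Injective (![x, y, z, t] : Fin 4 → X) :=
      inj4 (hne _ _ n1) (hne _ _ n2) (hne _ _ n3) (hne _ _ n4) (hne _ _ n5) (hne _ _ n6)
    have hf1 : Fat ω 𝔅 Set.univ (fun i => v ((![x, y, z, t] : Fin 4 → X) i)) v₀ :=
      h4 K c σ ω 𝔅 hK2 hI hF3 _ _ (hv.comp hi) hv₀ hq hq₀
    have hf2 : Fat ω 𝔅 Set.univ (fun i => v ((![x, y, z, t] : Fin 4 → X) i)) w₀ :=
      (h1 K c σ ω 𝔅 hI (Fin 4) Set.univ _ _ (hv.comp hi) hw₀).2.2.1 v₀ hv₀ hf1 hfat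
    obtain ⟨w, hw, hww, hf3⟩ := h2 K c σ ω 𝔅 hI hX (Fin 4) X ![x, y, z, t] Set.univ v w₀ hi hv
      hw₀ hf2
    refine ⟨w, hw, (h1 K c σ ω 𝔅 hI X _ v w hv hw).1 hf3, ?_, x, y, z, t, ?_, ?_⟩
    · intro a b d e hx
      have hi' : Function.Injective (![a, b, d, e] : Fin 4 → X) :=
        inj4 (hne _ _ hx.1) (hne _ _ hx.2.1) (hne _ _ hx.2.2.1) (hne _ _ hx.2.2.2.1)
          (hne _ _ hx.2.2.2.2.1) (hne _ _ hx.2.2.2.2.2.1)
      exact pres 𝔅 hXQ (hv.comp hi') (hw.comp hi')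
        (restr h1 𝔅 hI hv hw hf3 _ hi' fun _ _ _ => trivial) hx
    · have e0 : w x = w₀ 0 := hww 0
      have e1 : w y = w₀ 1 := hww 1
      have e2 : w z = w₀ 2 := hww 2
      have e3 : w t = w₀ 3 := hww 3
      rw [e0, e1, e2, e3]
      exact hx₀
    · exact fun h => h.2.2.2.2.2.2.1 hq
  · right
    intro X _ F v w hv hw hfat x hx y hy z hz t ht
    have main : ∀ x ∈ F, ∀ y ∈ F, ∀ z ∈ F, ∀ t ∈ F, Qr (v x) (v y) (v z) (v t) →
        Qr (w x) (w y) (w z) (w t) := by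
      intro x hx y hy z hz t ht hq
      obtain ⟨n1, n2, n3, n4, n5, n6⟩ := ((h3 K c).1 _ _ _ _).2.2 hq
      have hne : ∀ a b : X, v a ≠ v b → a ≠ b := fun a b h h' => h (by rw [h'])
      have hi : Function.Injective (![x, y, z, t] : Fin 4 → X) :=
        inj4 (hne _ _ n1) (hne _ _ n2) (hne _ _ n3) (hne _ _ n4) (hne _ _ n5) (hne _ _ n6)
      have hm : ∀ i, (![x, y, z, t] : Fin 4 → X) i ∈ F := by
        intro i
        fin_cases i
        · exact hx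
        · exact hy
        · exact hz
        · exact ht
      exact keep h1 h2 h3 h4 h7 hK 𝔅 hI hX hF3 hXQ hQX (hv.comp hi) (hw.comp hi)
        (restr h1 𝔅 hI hv hw hfat _ hi hm) hq
    refine ⟨main x hx y hy z hz t ht, fun hq => ?_⟩
    obtain ⟨n1, n2, n3, n4, n5, n6⟩ := ((h3 K c).1 _ _ _ _).2.2 hq
    have hne : ∀ a b : X, w a ≠ w b → a ≠ b := fun a b h h' => h (by rw [h'])
    have hi : Function.Injective (![x, y, z, t] : Fin 4 → X) :=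
      inj4 (hne _ _ n1) (hne _ _ n2) (hne _ _ n3) (hne _ _ n4) (hne _ _ n5) (hne _ _ n6)
    have hm : ∀ i, (![x, y, z, t] : Fin 4 → X) i ∈ F := by
      intro i
      fin_cases i
      · exact hx
      · exact hy
      · exact hz
      · exact ht
    have hf := restr h1 𝔅 hI hv hw hfat _ hi hm
    have hnx : ¬ Xr (v x) (v y) (v z) (v t) := by
      intro hc
      have h8 : Xr (w x) (w y) (w z) (w t) := pres 𝔅 hXQ (hv.comp hi) (hw.comp hi) hf hc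
      exact h8.2.2.2.2.2.2.1 hq
    have h9 : Qr (v x) (v y) (v z) (v t) ∨ Qr (v x) (v z) (v y) (v t) ∨
        Qr (v x) (v t) (v y) (v z) := three (hv.comp hi) hnx
    rcases h9 with h10 | h10 | h10
    · exact h10
    · have h11 := main x hx z hz y hy t ht h10
      exact ((h3 K c).2.1 _ _ _ _ ⟨hq, h11⟩).elim
    · have h11 := main x hx t ht y hy z hz h10
      exact ((h3 K c).2.1 _ _ _ _ ⟨qs3 h3 hq, h11⟩).elim

end Pool.Agent.Work.MP_8dbde4_lc.FK
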