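import Pool.Agent.Work.MP_8dbde4_lc.FK.StmtsB

/-!
# Item [8dbde4 FK CX]: the case `XQ`
-/

set_option autoImplicit false
open Classical

namespace Pool.Agent.Work.MP_8dbde4_lc.FK

open Pool.Agent.Work.MP_8dbde4_lc.TS
open Pool.Agent.Work.MP_8dbde4_lc.Tree (Word Agr Cc)
open Pool.Agent.Work.MP_8dbde4_lc.Phy (PP Hom)
open Pool.Agent.Work.MP_8dbde4_lc.Bra (Same InvU BinOn pull c₂)
open Pool.Agent.Work.MP_8dbde4_lc.Full (Arr NEq Cst0 BT Sub)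
open Pool.Agent.Work.MP_8dbde4_lc.Full.BT

namespace XCX

variable {K : Type} {c : ℚ → K} {σ : Sig} {ω : Prop}

lemma qs1 (hQ : S_QFA) {x y z t : Word c} (h : Qr x y z t) : Qr y x z t :=
  ((hQ K c).1 x y z t).1 h

lemma qs2 (hQ : S_QFA) {x y z t : Word c} (h : Qr x y z t) : Qr z t x y :=
  ((hQ K c).1 x y z t).2.1 h

lemma qs3 (hQ : S_QFA) {x y z t : Word c} (h : Qr x y z t) : Qr x y t z :=
  qs2 hQ (qs1 hQ (qs2 hQ h))

lemma xs1 (hQ : S_QFA) {x y z t : Word c} (h : Xr x y z t) : Xr x z y t := by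
  obtain ⟨h1, h2, h3, h4, h5, h6, h7, h8, h9⟩ := h
  exact ⟨h2, h1, h3, h4.symm, h6, h5, h8, h7, fun h => h9 (qs3 hQ h)⟩

lemma xs2 (hQ : S_QFA) {x y z t : Word c} (h : Xr x y z t) : Xr x t y z := by
  obtain ⟨h1, h2, h3, h4, h5, h6, h7, h8, h9⟩ := h
  exact ⟨h3, h1, h2, h5.symm, h6.symm, h4, h9, fun h => h7 (qs3 hQ h), fun h => h8 (qs3 hQ h)⟩

lemma inj4 {X : Type} {x y z t : X} (h1 : x ≠ y) (h2 : x ≠ z) (h3 : x ≠ t) (h4 : y ≠ z)
    (h5 : y ≠ t) (h6 : z ≠ t) : Function.Injective (![x, y, z, t] : Fin 4 → X) := by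
  intro i j h
  fin_cases i <;> fin_cases j
  · rfl
  · exact absurd h h1
  · exact absurd h h2
  · exact absurd h h3
  · exact absurd h.symm h1
  · rfl
  · exact absurd h h4
  · exact absurd h h5
  · exact absurd h.symm h2
  · exact absurd h.symm h4
  · rfl
  · exact absurd h h6
  · exact absurd h.symm h3
  · exact absurd h.symm h5
  · exact absurd h.symm h6
  · rfl

/-- restriction to four fat points -/
lemma restr (hF : S_FAT) (𝔅 : Str σ (Word c)) (hI : AllInv 𝔅) {X : Type} [Finite X] {F : Set X}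
    {v w : X → Word c} (hv : Function.Injective v) (hw : Function.Injective w)
    (h : Fat ω 𝔅 F v w) (e : Fin 4 → X) (he : Function.Injective e) (heF : ∀ i, e i ∈ F) :
    Fat ω 𝔅 Set.univ (fun i => v (e i)) (fun i => w (e i)) := by
  have h6 := (hF K c σ ω 𝔅 hI X F v w hv hw).2.2.2.2.2.1 (Fin 4) e he h
  exact (hF K c σ ω 𝔅 hI (Fin 4) _ _ _ (hv.comp he) (hw.comp he)).2.2.2.1 Set.univ
    (fun i _ => heF i) h6

/-- one of the quartets -/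
lemma three {v : Fin 4 → Word c} (hv : Function.Injective v)
    (h : ¬ Xr (v 0) (v 1) (v 2) (v 3)) : Qr (v 0) (v 1) (v 2) (v 3) ∨
      Qr (v 0) (v 2) (v 1) (v 3) ∨ Qr (v 0) (v 3) (v 1) (v 2) := by
  by_contra hc
  push Not at hc
  have hd : ∀ i j : Fin 4, i ≠ j → v i ≠ v j := fun i j hij h => hij (hv h)
  exact h ⟨hd 0 1 (by decide), hd 0 2 (by decide), hd 0 3 (by decide), hd 1 2 (by decide),
    hd 1 3 (by decide), hd 2 3 (by decide), hc.1, hc.2.1, hc.2.2⟩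

/-- the complement of `Xr` is preserved -/
lemma pres' (hF : S_FAT) (hQ : S_QFA) (𝔅 : Str σ (Word c)) (hI : AllInv 𝔅) (hQX : ¬ QX ω 𝔅)
    {v w : Fin 4 → Word c} (hv : Function.Injective v) (hw : Function.Injective w)
    (h : Fat ω 𝔅 Set.univ v w) (hx : ¬ Xr (v 0) (v 1) (v 2) (v 3)) :
    ¬ Xr (w 0) (w 1) (w 2) (w 3) := by
  intro hc
  rcases three hv hx with h1 | h1 | h1
  · exact hQX ⟨v, w, hv, hw, h, h1, hc⟩
  · have hi : Function.Injective (![0, 2, 1, 3] : Fin 4 → Fin 4) := by decide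
    exact hQX ⟨_, _, hv.comp hi, hw.comp hi,
      restr hF 𝔅 hI hv hw h _ hi fun _ => trivial, h1, xs1 hQ hc⟩
  · have hi : Function.Injective (![0, 3, 1, 2] : Fin 4 → Fin 4) := by decide
    exact hQX ⟨_, _, hv.comp hi, hw.comp hi,
      restr hF 𝔅 hI hv hw h _ hi fun _ => trivial, h1, xs2 hQ hc⟩

/-- from a quartet everywhere -/
lemma allq (hF : S_FAT) (hT4 : S_QFT) (hXA : S_XAL) (hK : ∃ a b : K, a ≠ b)
    (𝔅 : Str σ (Word c)) (hI : AllInv 𝔅) (hN : NEq 𝔅) (hX : Ext ω 𝔅) (hF3 : F3 ω 𝔅)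
    (hXQ : XQ ω 𝔅) (hQX : QX ω 𝔅) {v w : Fin 4 → Word c}
    (hv : Function.Injective v) (hw : Function.Injective w) (hq : Q4 v)
    (hn : ¬ Xr (w 0) (w 1) (w 2) (w 3)) : Fat ω 𝔅 Set.univ v w := by
  obtain ⟨v₀, w₀, hv₀, hw₀, hfat, hq₀, hx₀⟩ := hQX
  have f1 : Fat ω 𝔅 Set.univ v v₀ := hT4 K c σ ω 𝔅 hK hI hF3 _ _ hv hv₀ hq hq₀
  have f2 : Fat ω 𝔅 Set.univ v w₀ :=
    (hF K c σ ω 𝔅 hI (Fin 4) Set.univ _ _ hv hw₀).2.2.1 v₀ hv₀ f1 hfat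
  have f3 : Fat ω 𝔅 Set.univ w₀ w := (hXA K c σ ω 𝔅 hK hI hN hX hF3).2 hXQ _ _ hw₀ hw hx₀ hn
  exact (hF K c σ ω 𝔅 hI (Fin 4) Set.univ _ _ hv hw).2.2.1 w₀ hw₀ f2 f3

/-- all the fat arrows between tuples without `Xr` -/
lemma alln (hF : S_FAT) (hQ : S_QFA) (hT4 : S_QFT) (hXA : S_XAL) (hK : ∃ a b : K, a ≠ b)
    (𝔅 : Str σ (Word c)) (hI : AllInv 𝔅) (hN : NEq 𝔅) (hX : Ext ω 𝔅) (hF3 : F3 ω 𝔅)
    (hXQ : XQ ω 𝔅) (hQX : QX ω 𝔅) {v w : Fin 4 → Word c}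
    (hv : Function.Injective v) (hw : Function.Injective w)
    (hn0 : ¬ Xr (v 0) (v 1) (v 2) (v 3))
    (hn : ¬ Xr (w 0) (w 1) (w 2) (w 3)) : Fat ω 𝔅 Set.univ v w := by
  rcases three hv hn0 with h1 | h1 | h1
  · exact allq hF hT4 hXA hK 𝔅 hI hN hX hF3 hXQ hQX hv hw h1 hn
  · have hi : Function.Injective (![0, 2, 1, 3] : Fin 4 → Fin 4) := by decide
    have hn' : ¬ Xr (w 0) (w 2) (w 1) (w 3) := fun h => hn (xs1 hQ h)
    have f := allq hF hT4 hXA hK 𝔅 hI hN hX hF3 hXQ hQX (hv.comp hi) (hw.comp hi) h1 hn'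
    have f' := restr hF 𝔅 hI (hv.comp hi) (hw.comp hi) f (![0, 2, 1, 3] : Fin 4 → Fin 4) hi
      fun _ => trivial
    have e1 : ∀ u : Fin 4 → Word c, (fun i => (u ∘ (![0, 2, 1, 3] : Fin 4 → Fin 4))
        ((![0, 2, 1, 3] : Fin 4 → Fin 4) i)) = u := by
      intro u
      funext i
      fin_cases i <;> rfl
    rw [e1 v, e1 w] at f'
    exact f'
  · have hi : Function.Injective (![0, 3, 1, 2] : Fin 4 → Fin 4) := by decide
    have hj : Function.Injective (![0, 2, 3, 1] : Fin 4 → Fin 4) := by decide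
    have hn' : ¬ Xr (w 0) (w 3) (w 1) (w 2) := fun h => hn (xs2 hQ (xs2 hQ h))
    have f := allq hF hT4 hXA hK 𝔅 hI hN hX hF3 hXQ hQX (hv.comp hi) (hw.comp hi) h1 hn'
    have f' := restr hF 𝔅 hI (hv.comp hi) (hw.comp hi) f (![0, 2, 3, 1] : Fin 4 → Fin 4) hj
      fun _ => trivial
    have e1 : ∀ u : Fin 4 → Word c, (fun i => (u ∘ (![0, 3, 1, 2] : Fin 4 → Fin 4))
        ((![0, 2, 3, 1] : Fin 4 → Fin 4) i)) = u := by
      intro u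
      funext i
      fin_cases i <;> rfl
    rw [e1 v, e1 w] at f'
    exact f'

end XCX

open XCX in
theorem CX_pf (h1 : S_FAT) (h2 : S_EXM) (h3 : S_QFA) (h4 : S_QFT) (h5 : S_XAL) (h6 : S_CBQ)
    (h7 : S_LBB) (h8 : S_ITR) (h9 : S_XFB) (h10 : S_TY3) : S_CX := by
  intro K c σ ω 𝔅 hK hI hN hX hF3 hXQ
  have _ := h10
  by_cases hQX : QX ω 𝔅
  · refine h7 K c σ 𝔅 hI hN (h6 K c σ ω 𝔅 hK hI hF3 ?_)
    intro v w hv hw hn0 hn
    exact alln h1 h3 h4 h5 hK 𝔅 hI hN hX hF3 hXQ hQX hv hw hn0 hn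
  · have hstep := (h8 K c σ 𝔅).2.2.1 (by
      intro X _ v hv hex
      obtain ⟨x, y, z, t, hx⟩ := hex
      obtain ⟨v₀, w₀, -, hw₀, -, -, hn₀⟩ := id hXQ
      have hne : ∀ a b : X, v a ≠ v b → a ≠ b := fun a b h h' => h (by rw [h'])
      have hi : Function.Injective (![x, y, z, t] : Fin 4 → X) :=
        inj4 (hne _ _ hx.1) (hne _ _ hx.2.1) (hne _ _ hx.2.2.1) (hne _ _ hx.2.2.2.1)
          (hne _ _ hx.2.2.2.2.1) (hne _ _ hx.2.2.2.2.2.1)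
      have hf2 : Fat ω 𝔅 Set.univ (fun i => v ((![x, y, z, t] : Fin 4 → X) i)) w₀ :=
        (h5 K c σ ω 𝔅 hK hI hN hX hF3).2 hXQ _ _ (hv.comp hi) hw₀ hx hn₀
      obtain ⟨w, hw, hww, hf3⟩ := h2 K c σ ω 𝔅 hI hX (Fin 4) X ![x, y, z, t] Set.univ v w₀ hi hv
        hw₀ hf2
      refine ⟨w, hw, (h1 K c σ ω 𝔅 hI X _ v w hv hw).1 hf3, ?_, x, y, z, t, hx, ?_⟩
      · intro a b d e hx'
        have hne' : ∀ a b : X, w a ≠ w b → a ≠ b := fun a b h h' => h (by rw [h'])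
        have hi' : Function.Injective (![a, b, d, e] : Fin 4 → X) :=
          inj4 (hne' _ _ hx'.1) (hne' _ _ hx'.2.1) (hne' _ _ hx'.2.2.1) (hne' _ _ hx'.2.2.2.1)
            (hne' _ _ hx'.2.2.2.2.1) (hne' _ _ hx'.2.2.2.2.2.1)
        by_contra hc
        exact pres' h1 h3 𝔅 hI hQX (hv.comp hi') (hw.comp hi')
          (restr h1 𝔅 hI hv hw hf3 _ hi' fun _ _ _ => trivial) hc hx'
      · have e0 : w x = w₀ 0 := hww 0
        have e1 : w y = w₀ 1 := hww 1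
        have e2 : w z = w₀ 2 := hww 2
        have e3 : w t = w₀ 3 := hww 3
        rw [e0, e1, e2, e3]
        exact hn₀)
    intro X _ v hv
    obtain ⟨w, hw, ha, hnx⟩ := hstep X v hv
    obtain ⟨w', hw', ha', hb⟩ := h9 K c σ ω 𝔅 hK hI hF3 X w hw hnx
    exact ⟨w', hw', Full.Arr.trans ha ha', hb⟩

end Pool.Agent.Work.MP_8dbde4_lc.FK
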