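import Pool.Agent.Work.MP_8dbde4_lc.FK.StmtsW

/-!
Item ENW of the block FK of MP_8dbde4_lc: one step of the extension, infinitely many letters.
-/

set_option autoImplicit false
open Classical

namespace Pool.Agent.Work.MP_8dbde4_lc.FK

open Pool.Agent.Work.MP_8dbde4_lc.TS
open Pool.Agent.Work.MP_8dbde4_lc.Tree (Word Agr Cc)
open Pool.Agent.Work.MP_8dbde4_lc.Phy (PP Hom)
open Pool.Agent.Work.MP_8dbde4_lc.Bra (Same InvU BinOn pull c₂)
open Pool.Agent.Work.MP_8dbde4_lc.Full (Arr NEq Cst0 BT Sub)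

namespace XENW

variable {K : Type} {c : ℚ → K} {σ : Sig}

theorem cm_cons (hTCF : S_TCF) {n : ℕ} {A : Type} (t : A) {u : (Fin (n + 1) → A) → Word c}
    (hu : Cm u) : Cm (fun a : Fin n → A => u (Fin.cons t a)) := by
  refine ⟨fun a b h => ?_, fun z x y => ?_⟩
  · have h1 := hu.1 h
    funext l
    have h2 := congrFun h1 l.succ
    simpa using h2
  · rw [hu.2]
    exact (hTCF.2.2.2 n A t z x y).symm

theorem cm_map (hTCF : S_TCF) {n : ℕ} {A A' : Type} (e : A → A') (he : Function.Injective e)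
    {u : (Fin n → A') → Word c} (hu : Cm u) : Cm (fun a : Fin n → A => u (fun l => e (a l))) := by
  have h1 := hTCF.2.1 n n A A' (fun a l => e (a l)) id strictMono_id (by
    intro a b m hm
    exact ⟨fun l hl => congrArg e (hm.1 l hl), fun h => hm.2 (he h)⟩)
  refine ⟨fun a b h => h1.1 (hu.1 h), fun z x y => ?_⟩
  rw [hu.2]
  exact (h1.2 z x y).symm

/-- `Cm` only depends on the splits. -/
theorem cm_same {n : ℕ} {A : Type} {u u' : (Fin n → A) → Word c} (hu : Cm u)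
    (h : SameOn Set.univ u u') : Cm u' :=
  ⟨fun a b hab => hu.1 ((h.1 a trivial b trivial).2 hab),
    fun z x y => (h.2 x trivial y trivial z trivial).symm.trans (hu.2 z x y)⟩

theorem so_comp {X Y : Type} {S : Set X} {T : Set Y} {v w : X → Word c} (e : Y → X)
    (h : SameOn S v w) (hs : ∀ y ∈ T, e y ∈ S) :
    SameOn T (fun y => v (e y)) (fun y => w (e y)) :=
  ⟨fun x hx y hy => h.1 _ (hs x hx) _ (hs y hy),
    fun x hx y hy z hz => h.2 _ (hs x hx) _ (hs y hy) _ (hs z hz)⟩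

/-- Complete trees with the branches `Fin k` exist. -/
theorem ex_cm [Infinite K] (hTCF : S_TCF) (hBLI : S_BLI) (c : ℚ → K) (n k : ℕ) :
    ∃ U : (Fin n → Fin k) → Word c, Cm U := by
  obtain ⟨v', -, -, h3, -⟩ := hBLI K c Empty n (fun _ => ⟨c, by simp⟩) (by
    intro a b _
    rcases a with _ | a
    · rcases b with _ | b
      · rfl
      · exact b.elim
    · exact a.elim)
  exact ⟨_, cm_map hTCF (fun i : Fin k => (i : ℕ)) Fin.val_injective h3⟩

/-- The chosen points of the blocks. -/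
abbrev PX (X : Type) (F : Set X) (n k : ℕ) (z₀ : Fin k) : Type :=
  {p : X × (Fin (n + 1) → Fin k) // p.1 ∉ F → p.2 = fun _ => z₀}

/-- The chosen point of the block of `x` with the parameter `a`. -/
noncomputable def pt {X : Type} (F : Set X) {n k : ℕ} (z₀ : Fin k) (t : X → Fin k) (x : X)
    (a : Fin n → Fin k) : PX X F n k z₀ :=
  if h : x ∈ F then ⟨(x, Fin.cons (t x) a), fun h' => absurd h h'⟩ else ⟨(x, fun _ => z₀), fun _ => rfl⟩

theorem pt_fst {X : Type} (F : Set X) {n k : ℕ} (z₀ : Fin k) (t : X → Fin k) (x : X)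
    (a : Fin n → Fin k) : (pt F z₀ t x a).1.1 = x := by
  unfold pt
  split_ifs <;> rfl

theorem pt_in {X : Type} (F : Set X) {n k : ℕ} (z₀ : Fin k) (t : X → Fin k) {x : X} (hx : x ∈ F)
    (a : Fin n → Fin k) : pt F z₀ t x a = ⟨(x, Fin.cons (t x) a), fun h' => absurd hx h'⟩ := by
  unfold pt
  rw [dif_pos hx]

theorem pt_out {X : Type} (F : Set X) {n k : ℕ} (z₀ : Fin k) (t : X → Fin k) {x : X} (hx : x ∉ F)
    (a b : Fin n → Fin k) : pt F z₀ t x a = pt F z₀ t x b := by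
  unfold pt
  rw [dif_neg hx, dif_neg hx]

end XENW

open XENW

/-- Item ENW. -/
theorem ENW_pf (h1 : S_ARR) (h2 : S_BLW) (h3 : S_BLF) (h4 : S_AMG) (h5 : S_TCF) (h6 : S_BLI)
    (h7 : S_NBW) (h8 : S_GRW) (h9 : S_THW) (h10 : S_BLS) (h11 : S_MNW) : S_ENW := by
  intro K _ c σ 𝔅 hB hNE hBB hSS X _ F v w hv hw hF v' hv' hvv n₀' k₀'
  obtain ⟨hA1, hA2, -, hA4, -, hA6⟩ := h1 K c σ 𝔅 hB
  obtain ⟨n₀, k₀, hNB⟩ := h7 K c σ 𝔅 hB hBB hSS
  -- we may increase `n`, `k`
  obtain ⟨n, hn1, hn2, hn3⟩ : ∃ n, n₀' ≤ n ∧ n₀ ≤ n ∧ 3 ≤ n :=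
    ⟨n₀' + n₀ + 3, by omega, by omega, by omega⟩
  obtain ⟨k, hk1, hk2, hk3⟩ : ∃ k, k₀' ≤ k ∧ k₀ ≤ k ∧ 3 ≤ k :=
    ⟨k₀' + k₀ + 3, by omega, by omega, by omega⟩
  suffices hmain : ∃ w' : Option X → Word c, Function.Injective w' ∧ (∀ x, w' (some x) = w x) ∧
      NFW 𝔅 n k {o | ∀ x, o = some x → x ∈ F} v' w' by
    obtain ⟨w', hw'1, hw'2, hw'3⟩ := hmain
    exact ⟨w', hw'1, hw'2, h11 K c σ 𝔅 hB (Option X) _ v' w' n₀' n k₀' k hn1 hk1 (by omega) hw'3⟩
  set k₂ : ℕ := k + Nat.card X + 1 with hk₂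
  have hkk : k ≤ k₂ := by omega
  let z₀ : Fin k := ⟨0, by omega⟩
  let h₀ : Fin (n + 1) → Fin k₂ := fun _ => ⟨0, by omega⟩
  obtain ⟨U, hU⟩ := ex_cm h5 h6 c (n + 1) k
  let P : Type := PX X F n k z₀
  have : Finite P := inferInstanceAs (Finite (PX X F n k z₀))
  let π₀ : P → X := fun p => p.1.1
  let π : Option P → Option X := Option.map π₀
  let u : Option P → Word c := fun o => o.elim (U fun _ => z₀) (fun p => U p.1.2)
  obtain ⟨v₁, hv₁i, hv₁B, hv₁S⟩ := h2 K c (Option X) (Option P) π v' u hv' (by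
    rintro (_ | y) (_ | y') e1 e2
    · rfl
    · cases e1
    · cases e1
    · have g1 : y.1.1 = y'.1.1 := Option.some.inj e1
      have g2 : y.1.2 = y'.1.2 := hU.1 e2
      exact congrArg some (Subtype.ext (Prod.ext g1 g2)))
  obtain ⟨w₁, hw₁i, hw₁B, hw₁S⟩ := h2 K c X P π₀ w (fun p => U p.1.2) hw (by
    intro y y' e1 e2
    exact Subtype.ext (Prod.ext e1 (hU.1 e2)))
  -- the arrow on the blocks of the points of `X`
  have hArr0 : Arr 𝔅 (fun p : P => v₁ (some p)) w₁ := by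
    refine hF P π₀ (fun p => v₁ (some p)) w₁ ?_ ?_ hw₁i (Or.inl trivial) ?_ hw₁B ?_
    · intro y y' e1 e2
      have g1 := y.2 e2
      have g2 := y'.2 (by
        have g3 : y'.1.1 = y.1.1 := e1.symm
        rw [g3]
        exact e2)
      exact Subtype.ext (Prod.ext e1 (g1.trans g2.symm))
    · intro y y' e
      exact Option.some.inj (hv₁i e)
    · intro y y' y'' e1 e2
      have g := hv₁B (some y) (some y') (some y'')
        (fun e => e1 (Option.some.inj e)) (fun e => e2 (Option.some.inj e))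
      rw [g]
      show Cc (v' (some (π₀ y''))) (v' (some (π₀ y))) (v' (some (π₀ y'))) ↔ _
      rw [hvv, hvv, hvv]
    · intro x
      have g1 := so_comp (T := {y : P | π₀ y = x}) some (hv₁S (some x))
        (fun y hy => congrArg some hy)
      exact g1.symm.trans (hw₁S x)
  -- growth
  obtain ⟨v₂, w₂, hv₂i, hw₂i, hv₂, hw₂, hB₂, hCv, hCw, hArr2, hcol⟩ :=
    h8 K c σ 𝔅 hB hNE P v₁ w₁ (n + 1) k₂ hv₁i hArr0 (by omega) (by omega)
      (hNB (n + 1) k₂ (by omega) (by omega))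
  have hne : ∀ p h, w₂ (.inr h) ≠ w₁ p := by
    intro p h e
    rw [← hw₂] at e
    cases hw₂i e
  -- the branch of the points of `F`
  have hCx : ∀ x, ∀ hx : x ∈ F, Cm (fun a : Fin (n + 1) → Fin k =>
      w₁ ⟨(x, a), fun h' => absurd hx h'⟩) := by
    intro x hx
    refine cm_same hU ?_
    exact so_comp (fun a : Fin (n + 1) → Fin k => (⟨(x, a), fun h' => absurd hx h'⟩ : P))
      (hw₁S x) (fun a _ => rfl)
  have ht : ∀ x, ∃ t : Fin k, ∀ hx : x ∈ F, ∀ a a' : Fin (n + 1) → Fin k, a 0 = t → a' 0 = t →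
      Cc (w₂ (.inr h₀)) (w₁ ⟨(x, a), fun h' => absurd hx h'⟩)
        (w₁ ⟨(x, a'), fun h' => absurd hx h'⟩) := by
    intro x
    by_cases hx : x ∈ F
    · obtain ⟨t, ht⟩ := h9 K c n k _ Unit (fun _ => w₂ (.inr h₀)) (hCx x hx) (by
        rw [Nat.card_unique]
        omega)
      exact ⟨t, fun _ a a' e e' => ht () a a' e e'⟩
    · exact ⟨z₀, fun hx' => absurd hx' hx⟩
  choose t ht using ht
  let q : X → (Fin n → Fin k) → P := fun x a => pt F z₀ t x a
  have hq1 : ∀ x a, π₀ (q x a) = x := fun x a => pt_fst F z₀ t x a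
  have hq2 : ∀ h x a a', Cc (w₂ (.inr h)) (w₁ (q x a)) (w₁ (q x a')) := by
    intro h x a a'
    rw [hcol _ _ h h₀]
    by_cases hx : x ∈ F
    · show Cc (w₂ (.inr h₀)) (w₁ (pt F z₀ t x a)) (w₁ (pt F z₀ t x a'))
      rw [pt_in F z₀ t hx, pt_in F z₀ t hx]
      exact ht x hx _ _ rfl rfl
    · have e : q x a = q x a' := pt_out F z₀ t hx a a'
      rw [e]
      exact cc_self (hne _ _)
  -- the branch of the new point
  obtain ⟨t₂, ht₂⟩ := h9 K c n k₂ (fun h => w₂ (.inr h)) X (fun x => w₁ (q x fun _ => z₀)) hCw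
    (by omega)
  have hq3 : ∀ x a h h', h 0 = t₂ → h' 0 = t₂ → Cc (w₁ (q x a)) (w₂ (.inr h)) (w₂ (.inr h')) := by
    intro x a h h' e e'
    rcases cc_or (ht₂ x h h' e e') (w₁ (q x a)) with g | g
    · exact absurd g (cc_asymm (hq2 h x (fun _ => z₀) a))
    · exact g
  -- the trees
  let cst : (Fin n → Fin k) → (Fin (n + 1) → Fin k₂) :=
    fun a => Fin.cons t₂ (fun l => Fin.castLE hkk (a l))
  let e : Option X × (Fin n → Fin k) → P ⊕ (Fin (n + 1) → Fin k₂) :=
    fun y => y.1.elim (.inr (cst y.2)) (fun x => .inl (q x y.2))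
  let v'' : Option X × (Fin n → Fin k) → Word c := fun y => v₂ (e y)
  let w'' : Option X × (Fin n → Fin k) → Word c := fun y => w₂ (e y)
  let s : Option X → Option X × (Fin n → Fin k) := fun o => (o, fun _ => z₀)
  have hArr3 : Arr 𝔅 v'' w'' := hA2 _ _ e v₂ w₂ hArr2
  have hBv : Bl Prod.fst v' v'' := by
    have g := (h3 K c (Option X) (Option P) π v' v₁ hv' hv₁i hv₁B).2.1 _ _ v₂ hB₂
    have g2 : ∀ y, π ((Sum.elim some (fun _ => none) : P ⊕ (Fin (n + 1) → Fin k₂) → Option P)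
        (e y)) = y.1 := by
      rintro ⟨_ | x, a⟩
      · rfl
      · exact congrArg some (hq1 x a)
    intro y y' y'' e1 e2
    have g4 : π ((Sum.elim some (fun _ => none) : P ⊕ (Fin (n + 1) → Fin k₂) → Option P)
        (e y'')) ≠ π ((Sum.elim some (fun _ => none) :
          P ⊕ (Fin (n + 1) → Fin k₂) → Option P) (e y)) := by rw [g2, g2]; exact e1
    have g5 : π ((Sum.elim some (fun _ => none) : P ⊕ (Fin (n + 1) → Fin k₂) → Option P)
        (e y'')) ≠ π ((Sum.elim some (fun _ => none) :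
          P ⊕ (Fin (n + 1) → Fin k₂) → Option P) (e y')) := by rw [g2, g2]; exact e2
    have g3 : _ ↔ Cc (v' (π _)) (v' (π _)) (v' (π _)) := g (e y) (e y') (e y'') g4 g5
    rw [g2, g2, g2] at g3
    exact g3
  have hsec : ∀ y y' z, y.1 = y'.1 → z.1 ≠ y.1 → Cc (w'' z) (w'' y) (w'' y') := by
    rintro ⟨_ | x, a⟩ ⟨_ | x', a'⟩ ⟨_ | x'', a''⟩ e1 e2
    · exact absurd rfl e2
    · show Cc (w₂ (.inl (q x'' a''))) (w₂ (.inr (cst a))) (w₂ (.inr (cst a')))
      rw [hw₂]
      exact hq3 x'' a'' (cst a) (cst a') rfl rfl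
    · cases e1
    · cases e1
    · cases e1
    · cases e1
    · have g : x = x' := Option.some.inj e1
      subst g
      show Cc (w₂ (.inr (cst a''))) (w₂ (.inl (q x a))) (w₂ (.inl (q x a')))
      rw [hw₂, hw₂]
      exact hq2 _ _ _ _
    · have g : x = x' := Option.some.inj e1
      subst g
      have g' : x'' ≠ x := fun g => e2 (congrArg some g)
      show Cc (w₂ (.inl (q x'' a''))) (w₂ (.inl (q x a))) (w₂ (.inl (q x a')))
      rw [hw₂, hw₂, hw₂]
      rw [hw₁B (q x a) (q x a') (q x'' a'') (by rw [hq1, hq1]; exact g')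
        (by rw [hq1, hq1]; exact g'), hq1, hq1, hq1]
      exact cc_self (fun h => g' (hw h))
  obtain ⟨hBs, hBi⟩ := h10 K c (Option X) _ Prod.fst w'' s (fun _ => rfl) hsec
  -- the section
  have hsw : Same w (fun x => w'' (s (some x))) := by
    have g1 := (h3 K c X P π₀ w w₁ hw hw₁i hw₁B).2.2.2.1 (fun x => q x fun _ => z₀)
      (fun x => hq1 x _)
    rw [same_iff]
    have g2 : (fun x => w'' (s (some x))) = fun x => w₁ (q x fun _ => z₀) := by
      funext x
      exact hw₂ _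
    rw [g2]
    exact g1
  obtain ⟨w', hw'1, hw'2⟩ := h4 K c (Option X) X (fun o => w'' (s o)) w some hsw
  refine ⟨w', ?_, hw'2, v'', w'', hBv, ?_, hArr3, ?_, ?_⟩
  · intro o o' h
    exact hBi ((hw'1.1 o o').2 h)
  · intro y y' y'' e1 e2
    rw [hBs y y' y'' e1 e2]
    exact hw'1.2 _ _ _
  · rintro (_ | x) hx
    · exact ⟨cm_map h5 (Fin.castLE hkk) (Fin.castLE_injective hkk) (cm_cons h5 t₂ hCv),
        cm_map h5 (Fin.castLE hkk) (Fin.castLE_injective hkk) (cm_cons h5 t₂ hCw)⟩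
    · have hx' : x ∈ F := hx x rfl
      have g1 : ∀ a, v'' (some x, a) = v₁ (some ⟨(x, Fin.cons (t x) a), fun h' => absurd hx' h'⟩) := by
        intro a
        show v₂ (.inl (pt F z₀ t x a)) = _
        rw [pt_in F z₀ t hx', hv₂]
      have g2 : ∀ a, w'' (some x, a) = w₁ ⟨(x, Fin.cons (t x) a), fun h' => absurd hx' h'⟩ := by
        intro a
        show w₂ (.inl (pt F z₀ t x a)) = _
        rw [pt_in F z₀ t hx', hw₂]
      have g3 : Cm (fun a : Fin (n + 1) → Fin k =>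
          v₁ (some ⟨(x, a), fun h' => absurd hx' h'⟩)) := by
        refine cm_same hU ?_
        exact so_comp (fun a : Fin (n + 1) → Fin k =>
          (some (⟨(x, a), fun h' => absurd hx' h'⟩ : P) : Option P))
          (hv₁S (some x)) (fun a _ => rfl)
      simp only [g1, g2]
      exact ⟨cm_cons h5 (t x) g3, cm_cons h5 (t x) (hCx x hx')⟩
  · rintro (_ | x) hx a b
    · exact absurd (fun x hx => by cases hx) hx
    · have hx' : x ∉ F := fun h => hx (fun x' e => by cases e; exact h)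
      have g : q x a = q x b := pt_out F z₀ t hx' a b
      show v₂ (.inl (q x a)) = v₂ (.inl (q x b)) ∧ w₂ (.inl (q x a)) = w₂ (.inl (q x b))
      rw [g]
      exact ⟨rfl, rfl⟩

end Pool.Agent.Work.MP_8dbde4_lc.FK
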