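import Pool.Agent.Work.MP_8dbde4_lc.FK.StmtsW

/-!
The extension property for infinitely many letters: the statement `S_ETW` of FK/StmtsW.lean.
-/

set_option autoImplicit false
open Classical

namespace Pool.Agent.Work.MP_8dbde4_lc.FK

open Pool.Agent.Work.MP_8dbde4_lc.TS
open Pool.Agent.Work.MP_8dbde4_lc.Tree (Word Agr Cc)
open Pool.Agent.Work.MP_8dbde4_lc.Phy (PP Hom)
open Pool.Agent.Work.MP_8dbde4_lc.Bra (Same InvU BinOn pull c₂)
open Pool.Agent.Work.MP_8dbde4_lc.Full (Arr NEq Cst0 BT Sub)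

namespace XETW

variable {K : Type} {c : ℚ → K} {σ : Sig}

/-- The property depends on the splits only. -/
theorem nfw_same (𝔅 : Str σ (Word c)) {X : Type} {n k : ℕ} (F : Set X) (v w w₂ : X → Word c)
    (hs : ∀ x y z, Cc (w z) (w x) (w y) ↔ Cc (w₂ z) (w₂ x) (w₂ y)) (h : NFW 𝔅 n k F v w) :
    NFW 𝔅 n k F v w₂ := by
  obtain ⟨v', w', hbv, hbw, harr, hF, hF'⟩ := h
  refine ⟨v', w', hbv, ?_, harr, hF, hF'⟩
  intro y y' y'' h1 h2
  exact (hbw y y' y'' h1 h2).trans (hs _ _ _)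

end XETW

open XETW

theorem ETW_pf (h1 : S_ENW) (h2 : S_NGW) (h3 : S_MNW) : S_ETW := by
  intro K hK c σ 𝔅 hinv hneq hbb hss X hX F v w hv hw hfat v' hv' hv'e
  have hex := fun n => h1 K c σ 𝔅 hinv hneq hbb hss X F v w hv hw hfat v' hv' hv'e n (n + 1)
  choose W hW1 hW2 hW3 using hex
  let cls : ℕ → Set (Option X × Option X × Option X) :=
    fun n => {p | Cc (W n p.2.2) (W n p.1) (W n p.2.1)}
  obtain ⟨S, hS⟩ := Finite.exists_infinite_fiber cls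
  have hSinf : (cls ⁻¹' {S}).Infinite := Set.infinite_coe_iff.1 hS
  obtain ⟨m₀, hm₀⟩ := hSinf.nonempty
  have hm₀' : cls m₀ = S := hm₀
  refine ⟨W m₀, hW1 m₀, hW2 m₀, ?_⟩
  apply h2 K c σ 𝔅 hinv (Option X) _ v' (W m₀) hv' (hW1 m₀)
  intro n k
  obtain ⟨m, hm, hnm⟩ := hSinf.exists_gt (max n k)
  have hm' : cls m = S := hm
  have hn : n ≤ m := (le_max_left n k).trans hnm.le
  have hk : k ≤ m + 1 := ((le_max_right n k).trans hnm.le).trans (Nat.le_succ m)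
  have h4 := h3 K c σ 𝔅 hinv (Option X) _ v' (W m) n m k (m + 1) hn hk (Nat.succ_pos m) (hW3 m)
  refine nfw_same 𝔅 _ v' (W m) (W m₀) ?_ h4
  intro x y z
  have h5 : cls m = cls m₀ := hm'.trans hm₀'.symm
  have h6 : (x, y, z) ∈ cls m ↔ (x, y, z) ∈ cls m₀ := by rw [h5]
  exact h6

end Pool.Agent.Work.MP_8dbde4_lc.FK
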