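import Pool.Agent.Work.MP_8dbde4_lc.FK.StmtsA

/-! Item EXM: extension of fat arrows along injective maps. -/

set_option autoImplicit false
open Classical

namespace Pool.Agent.Work.MP_8dbde4_lc.FK

open Pool.Agent.Work.MP_8dbde4_lc.TS
open Pool.Agent.Work.MP_8dbde4_lc.Tree (Word Agr Cc)

namespace XEXM

variable {K : Type} {c : ℚ → K} {σ : Sig} {ω : Prop}

theorem transfer (hFAT : S_FAT) (𝔅 : Str σ (Word c)) (hI : AllInv 𝔅) {X X₀ : Type} [Finite X]
    [Finite X₀] (F : Set X) (F₀ : Set X₀) (v w : X → Word c) (hv : Function.Injective v)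
    (hw : Function.Injective w) (i : X₀ → X) (hi : Function.Injective i)
    (hF : ∀ x ∈ F₀, i x ∈ F) (v₀ w₀ : X₀ → Word c) (hv₀ : ∀ x, v₀ x = v (i x))
    (hw₀ : ∀ x, w₀ x = w (i x)) (h : Fat ω 𝔅 F v w) : Fat ω 𝔅 F₀ v₀ w₀ := by
  have e1 : v₀ = fun x => v (i x) := funext hv₀
  have e2 : w₀ = fun x => w (i x) := funext hw₀
  rw [e1, e2]
  have h1 := (hFAT K c σ ω 𝔅 hI X F v w hv hw).2.2.2.2.2.1 X₀ i hi h
  exact (hFAT K c σ ω 𝔅 hI X₀ {x | i x ∈ F} (fun x => v (i x)) (fun x => w (i x))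
    (hv.comp hi) (hw.comp hi)).2.2.2.1 F₀ hF h1

/-- the property to be proved by induction -/
def Q (ω : Prop) (𝔅 : Str σ (Word c)) (X : Type) (P : Type) : Prop :=
  ∀ (F : Set X) (v : X ⊕ P → Word c) (w : X → Word c),
  Function.Injective v → Function.Injective w → Fat ω 𝔅 F (fun x => v (.inl x)) w →
  ∃ w' : X ⊕ P → Word c, Function.Injective w' ∧ (∀ x, w' (.inl x) = w x) ∧
    Fat ω 𝔅 {o | ∀ x, o = .inl x → x ∈ F} v w'

theorem q_equiv (hFAT : S_FAT) (𝔅 : Str σ (Word c)) (hI : AllInv 𝔅) (X : Type) [Finite X]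
    {P P' : Type} [Finite P] (e : P ≃ P') (h : Q ω 𝔅 X P) : Q ω 𝔅 X P' := by
  intro F v w hv hw hf
  have hfin : Finite P' := Finite.of_equiv P e
  have hj : Function.Injective (Sum.map (id : X → X) e) :=
    Function.Injective.sumMap Function.injective_id e.injective
  have hj' : Function.Injective (Sum.map (id : X → X) e.symm) :=
    Function.Injective.sumMap Function.injective_id e.symm.injective
  obtain ⟨w₁, h1, h2, h3⟩ := h F (fun o => v (Sum.map id e o)) w (hv.comp hj) hw hf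
  refine ⟨fun o => w₁ (Sum.map id e.symm o), h1.comp hj', fun x => h2 x, ?_⟩
  refine transfer hFAT 𝔅 hI _ _ (fun o => v (Sum.map id e o)) w₁ (hv.comp hj) h1
    (Sum.map id e.symm) hj' ?_ v _ ?_ (fun _ => rfl) h3
  · rintro (x | p) hx y hy
    · exact hx y (by
        have h4 : (Sum.inl x : X ⊕ P) = Sum.inl y := hy
        rw [Sum.inl.inj h4])
    · exact absurd hy Sum.inr_ne_inl
  · rintro (x | p)
    · rfl
    · show v (.inr p) = v (.inr (e (e.symm p)))
      rw [e.apply_symm_apply]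

theorem q_empty (hFAT : S_FAT) (𝔅 : Str σ (Word c)) (hI : AllInv 𝔅) (X : Type) [Finite X] :
    Q ω 𝔅 X PEmpty := by
  intro F v w hv hw hf
  have hi : Function.Injective (Sum.elim (id : X → X) (PEmpty.elim : PEmpty → X)) := by
    rintro (x | p) (y | q) h
    · exact congrArg Sum.inl h
    · exact q.elim
    · exact p.elim
    · exact p.elim
  refine ⟨fun o => w (Sum.elim id PEmpty.elim o), hw.comp hi, fun _ => rfl, ?_⟩
  refine transfer hFAT 𝔅 hI F _ (fun x => v (.inl x)) w (hv.comp Sum.inl_injective) hw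
    (Sum.elim id PEmpty.elim) hi ?_ v _ ?_ (fun _ => rfl) hf
  · rintro (x | p) hx
    · exact hx x rfl
    · exact p.elim
  · rintro (x | p)
    · rfl
    · exact p.elim

/-- moving the additional point outside -/
def mv (X P : Type) : X ⊕ Option P → Option (X ⊕ P)
  | .inl x => some (.inl x)
  | .inr none => none
  | .inr (some q) => some (.inr q)

/-- moving the additional point inside -/
def mv' (X P : Type) : Option (X ⊕ P) → X ⊕ Option P
  | some (.inl x) => .inl x
  | none => .inr none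
  | some (.inr q) => .inr (some q)

theorem mv_mv' (X P : Type) (o : Option (X ⊕ P)) : mv X P (mv' X P o) = o := by
  rcases o with _ | (x | q)
  · rfl
  · rfl
  · rfl

theorem mv'_mv (X P : Type) (o : X ⊕ Option P) : mv' X P (mv X P o) = o := by
  rcases o with x | (_ | q)
  · rfl
  · rfl
  · rfl

theorem q_option (hFAT : S_FAT) (𝔅 : Str σ (Word c)) (hI : AllInv 𝔅) (hE : Ext ω 𝔅) (X : Type)
    [Finite X] (P : Type) [Finite P] (h : Q ω 𝔅 X P) : Q ω 𝔅 X (Option P) := by
  intro F v w hv hw hf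
  have hj : Function.Injective (mv' X P) := Function.LeftInverse.injective (mv_mv' X P)
  have hj' : Function.Injective (mv X P) := Function.LeftInverse.injective (mv'_mv X P)
  have hs : Function.Injective (fun o : X ⊕ P => mv' X P (some o)) :=
    hj.comp (Option.some_injective _)
  obtain ⟨w₁, h1, h2, h3⟩ := h F (fun o => v (mv' X P (some o))) w (hv.comp hs) hw hf
  obtain ⟨w₂, k1, k2, k3⟩ := hE (X ⊕ P) _ (fun o => v (mv' X P (some o))) w₁ (hv.comp hs) h1 h3
    (fun o => v (mv' X P o)) (hv.comp hj) (fun _ => rfl)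
  refine ⟨fun o => w₂ (mv X P o), k1.comp hj', fun x => (k2 (.inl x)).trans (h2 x), ?_⟩
  refine transfer hFAT 𝔅 hI _ _ (fun o => v (mv' X P o)) w₂ (hv.comp hj) k1 (mv X P) hj' ?_ v _
    ?_ (fun _ => rfl) k3
  · rintro o ho y hy x hx
    apply ho x
    rw [hx] at hy
    have h5 := congrArg (mv' X P) hy
    rw [mv'_mv] at h5
    exact h5
  · intro o
    show v o = v (mv' X P (mv X P o))
    rw [mv'_mv]

theorem q_all (hFAT : S_FAT) (𝔅 : Str σ (Word c)) (hI : AllInv 𝔅) (hE : Ext ω 𝔅) (X : Type)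
    [Finite X] (P : Type) [Finite P] : Q ω 𝔅 X P := by
  have h := Finite.induction_empty_option (P := fun P : Type => Finite P → Q ω 𝔅 X P)
    (fun {α β} e ih _ => by
      have : Finite α := Finite.of_equiv β e.symm
      exact q_equiv hFAT 𝔅 hI X e (ih this))
    (fun _ => q_empty hFAT 𝔅 hI X)
    (fun {α} _ ih _ => q_option hFAT 𝔅 hI hE X α (ih inferInstance)) P
  exact h inferInstance

end XEXM

open XEXM in
theorem EXM_pf (h : S_FAT) : S_EXM := by
  intro K c σ ω 𝔅 hI hE X X' _ _ e F v w he hv hw hf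
  let P : Type := {x' : X' // x' ∉ Set.range e}
  have hP : Finite P := Subtype.finite
  let f : X ⊕ P → X' := Sum.elim e Subtype.val
  have hf1 : Function.Injective f := by
    rintro (x | p) (y | q) hxy
    · exact congrArg Sum.inl (he hxy)
    · exact absurd ⟨x, hxy⟩ q.2
    · exact absurd ⟨y, hxy.symm⟩ p.2
    · exact congrArg Sum.inr (Subtype.ext hxy)
  have hf2 : Function.Surjective f := by
    intro x'
    by_cases hx : x' ∈ Set.range e
    · obtain ⟨x, rfl⟩ := hx
      exact ⟨.inl x, rfl⟩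
    · exact ⟨.inr ⟨x', hx⟩, rfl⟩
  let E : X ⊕ P ≃ X' := Equiv.ofBijective f ⟨hf1, hf2⟩
  have hE1 : ∀ x', f (E.symm x') = x' := fun x' => E.apply_symm_apply x'
  have hE2 : ∀ o, E.symm (f o) = o := fun o => E.symm_apply_apply o
  obtain ⟨w₁, h1, h2, h3⟩ := q_all h 𝔅 hI hE X P F (fun o => v (f o)) w (hv.comp hf1) hw hf
  refine ⟨fun x' => w₁ (E.symm x'), h1.comp E.symm.injective, fun x => ?_, ?_⟩
  · show w₁ (E.symm (f (.inl x))) = w x
    rw [hE2, h2]
  · refine transfer h 𝔅 hI _ _ (fun o => v (f o)) w₁ (hv.comp hf1) h1 E.symm E.symm.injective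
      ?_ v _ ?_ (fun _ => rfl) h3
    · intro x' hx' x hx
      apply hx' x
      have h4 := congrArg f hx
      rw [hE1] at h4
      exact h4.symm
    · intro x'
      show v x' = v (f (E.symm x'))
      rw [hE1]

end Pool.Agent.Work.MP_8dbde4_lc.FK
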