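import Pool.Agent.Work.MP_8dbde4_lc.FK.StmtsA

/-!
The extension property: the statement `S_EXT` of FK/StmtsA.lean.
-/

set_option autoImplicit false
open Classical

namespace Pool.Agent.Work.MP_8dbde4_lc.FK

open Pool.Agent.Work.MP_8dbde4_lc.TS
open Pool.Agent.Work.MP_8dbde4_lc.Tree (Word Agr Cc)
open Pool.Agent.Work.MP_8dbde4_lc.Phy (PP Hom)
open Pool.Agent.Work.MP_8dbde4_lc.Bra (Same InvU BinOn pull c₂)
open Pool.Agent.Work.MP_8dbde4_lc.Full (Arr NEq Cst0 BT Sub)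
open Pool.Agent.Work.MP_8dbde4_lc.Full.BT

namespace XEXT

variable {K : Type} {c : ℚ → K} {σ : Sig}

/-- Smaller depths. -/
theorem nf_mono (hSUB : Full.S_SUB) (hSHF : S_SHF) (𝔅 : Str σ (Word c)) {X : Type} {n m : ℕ}
    (hnm : n ≤ m) (F : Set X) (v w : X → Word c) (h : NF 𝔅 m F v w) : NF 𝔅 n F v w := by
  obtain ⟨Y, hY, π, T, v', w', hv', hw', hbv, hbw, harr, hT⟩ := h
  have hz : ∀ x, ∃ z : BT Y, Sub z (T x) ∧ (x ∈ F → z.Cpl n) := by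
    intro x
    by_cases hx : x ∈ F
    · obtain ⟨z, hz1, hz2⟩ := (hSUB Y).2.2.1 (T x) n m ((hT x).2.2.2 hx) hnm
      exact ⟨z, hz1, fun _ => hz2⟩
    · exact ⟨T x, (hSUB Y).1 (T x), fun h => absurd h hx⟩
  choose T' hT'1 hT'2 using hz
  refine ⟨Y, hY, π, T', v', w', hv', hw', hbv, hbw, harr, fun x => ?_⟩
  refine ⟨?_, ?_, ?_, hT'2 x⟩
  · intro y hy
    exact (hT x).1 y (((hSHF K c Y (T x)).2.2.2.2.2.2.1 (T' x) (hT'1 x)).subset hy)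
  · exact (hSHF K c Y (T x)).2.2.2.2.2.1 (T' x) v' (hT'1 x) (hT x).2.1
  · exact (hSHF K c Y (T x)).2.2.2.2.2.1 (T' x) w' (hT'1 x) (hT x).2.2.1

/-- The property depends on the splits only. -/
theorem nf_same (𝔅 : Str σ (Word c)) {X : Type} {n : ℕ} (F : Set X) (v w w₂ : X → Word c)
    (hs : ∀ x y z, Cc (w z) (w x) (w y) ↔ Cc (w₂ z) (w₂ x) (w₂ y)) (h : NF 𝔅 n F v w) :
    NF 𝔅 n F v w₂ := by
  obtain ⟨Y, hY, π, T, v', w', hv', hw', hbv, hbw, harr, hT⟩ := h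
  refine ⟨Y, hY, π, T, v', w', hv', hw', hbv, ?_, harr, hT⟩
  intro y y' y'' h1 h2
  exact (hbw y y' y'' h1 h2).trans (hs _ _ _)

end XEXT

open XEXT

theorem EXT_pf (h1 : S_EXN) (h2 : S_NFF) (h3 : Full.S_SUB) (h4 : S_SHF) : S_EXT := by
  intro K _ c σ 𝔅 hab hinv hneq hlin X hX F v w hv hw hfat v' hv' hv'e
  have hex := h1 K c σ 𝔅 hab hinv hneq hlin X F v w hv hw hfat v' hv' hv'e
  choose W hW1 hW2 hW3 using hex
  let cls : ℕ → Set (Option X × Option X × Option X) :=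
    fun n => {p | Cc (W n p.2.2) (W n p.1) (W n p.2.1)}
  obtain ⟨S, hS⟩ := Finite.exists_infinite_fiber cls
  have hSinf : (cls ⁻¹' {S}).Infinite := Set.infinite_coe_iff.1 hS
  obtain ⟨m₀, hm₀⟩ := hSinf.nonempty
  have hm₀' : cls m₀ = S := hm₀
  refine ⟨W m₀, hW1 m₀, hW2 m₀, ?_⟩
  apply h2 K c σ 𝔅 hinv (Option X) _ v' (W m₀) hv' (hW1 m₀)
  intro n
  obtain ⟨m, hm, hnm⟩ := hSinf.exists_gt n
  have hm' : cls m = S := hm
  have h5 := nf_mono h3 h4 𝔅 hnm.le _ v' (W m) (hW3 m)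
  refine nf_same 𝔅 _ v' (W m) (W m₀) ?_ h5
  intro x y z
  have h6 : cls m = cls m₀ := hm'.trans hm₀'.symm
  have h7 : (x, y, z) ∈ cls m ↔ (x, y, z) ∈ cls m₀ := by rw [h6]
  exact h7

end Pool.Agent.Work.MP_8dbde4_lc.FK
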