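import Pool.Agent.Work.MP_8dbde4_lc.FK.StmtsW

/-!
# Item [8dbde4 FK GRW]: growth of one block
-/

set_option autoImplicit false
open Classical

namespace Pool.Agent.Work.MP_8dbde4_lc.FK

open Pool.Agent.Work.MP_8dbde4_lc.TS
open Pool.Agent.Work.MP_8dbde4_lc.Tree (Word Agr Cc)
open Pool.Agent.Work.MP_8dbde4_lc.Phy (PP Hom)
open Pool.Agent.Work.MP_8dbde4_lc.Bra (Same InvU BinOn pull c₂)
open Pool.Agent.Work.MP_8dbde4_lc.Full (Arr NEq Cst0 BT Sub)

namespace XGRW

variable {K : Type} {c : ℚ → K}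

/-- the behaviour of three different leaves -/
noncomputable def th {Λ : Type} (u : Λ → Word c) (a b d : Λ) : Fin 4 :=
  if h : ∃ i : Fin 4, Beh u i a b d then h.choose else 0

theorem th_spec {Λ : Type} (u : Λ → Word c) (hu : Function.Injective u) {a b d : Λ}
    (hab : a ≠ b) (had : a ≠ d) (hbd : b ≠ d) : Beh u (th u a b d) a b d := by
  have h : ∃ i : Fin 4, Beh u i a b d := by
    rcases cc_tri (fun h => hab (hu h)) (fun h => had (hu h)) (fun h => hbd (hu h)) with
      h | h | h | h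
    · exact ⟨0, h⟩
    · exact ⟨1, h⟩
    · exact ⟨2, h⟩
    · exact ⟨3, h⟩
  unfold th
  rw [dif_pos h]
  exact h.choose_spec

theorem beh_comp {Λ Λ' : Type} (u : Λ' → Word c) (g : Λ → Λ') (i : Fin 4) (a b d : Λ)
    (h : Beh u i (g a) (g b) (g d)) : Beh (fun x => u (g x)) i a b d := by
  fin_cases i
  · exact h
  · exact h
  · exact h
  · exact h

theorem df_ne {n : ℕ} {A : Type} {a b : Fin n → A} {m : Fin n} (h : Df a b m) : a ≠ b := by
  intro h1
  exact h.2 (congrFun h1 m)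

end XGRW

open XGRW in
theorem GRW_pf (h1 : S_ARR) (h2 : S_TCF) (h3 : S_BLI) (h4 : S_XIW) (h5 : S_RAW) (h6 : S_BHW) :
    S_GRW := by
  intro K _ c σ 𝔅 hI hN P _ v₁ w₁ n k hv₁ hA hn hk hNB
  obtain ⟨N, hRam⟩ := h5 (Fin 4) n k (by omega)
  obtain ⟨v', hv'i, hv'p, hv'C, hv'B⟩ := h3 K c P N v₁ hv₁
  obtain ⟨w', hw'p, hw'A⟩ := h4 K c σ 𝔅 hI P (Fin N → ℕ) v' w₁ (by
    have h : (fun p => v' (.inl p)) = fun p => v₁ (some p) := funext hv'p
    rw [h]
    exact hA)
  have hw'i : Function.Injective w' := by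
    intro x y hxy
    by_contra hne
    have h7 := (h1 K c σ 𝔅 hI).2.2.2.2.2 hN (Fin 2) (fun t => v' ((![x, y] : Fin 2 → _) t))
      (fun t => w' ((![x, y] : Fin 2 → _) t)) 0 1 (hw'A (Fin 2) ![x, y])
      (fun h => hne (hv'i h))
    exact h7 hxy
  obtain ⟨g, f, i, j, s, hf, hg, hχ, hi, hj, hs⟩ := hRam (P → P → Prop)
    (fun a p p' => Cc (w' (.inr a)) (w₁ p) (w₁ p')) (th (fun a => w' (.inr a)))
  obtain ⟨hgi, hgT⟩ := h2.2.1 n N (Fin k) ℕ g f hf hg
  have hmi : Function.Injective (Sum.map id g : P ⊕ (Fin n → Fin k) → P ⊕ (Fin N → ℕ)) :=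
    Function.injective_id.sumMap hgi
  have hwr : Function.Injective (fun a : Fin N → ℕ => w' (.inr a)) := fun a b h =>
    Sum.inr_injective (hw'i h)
  have hCv : Cm (fun a : Fin n → Fin k => v' (.inr (g a))) :=
    ⟨fun a b h => hgi (hv'C.1 h), fun z x y => (hv'C.2 (g z) (g x) (g y)).trans (hgT z x y).symm⟩
  have hwi : Function.Injective (fun a : Fin n → Fin k => w' (.inr (g a))) := fun a b h =>
    hgi (hwr h)
  have hArr : Arr 𝔅 (fun x : P ⊕ (Fin n → Fin k) => v' (Sum.map id g x))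
      (fun x => w' (Sum.map id g x)) := hw'A _ (Sum.map id g)
  have hArr' : Arr 𝔅 (fun a : Fin n → Fin k => v' (.inr (g a)))
      (fun a : Fin n → Fin k => w' (.inr (g a))) := hw'A _ (fun a => .inr (g a))
  have hBeh : ∀ (q : Fin 4) (a b d : Fin n → Fin k), a ≠ b → a ≠ d → b ≠ d →
      th (fun a => w' (.inr a)) (g a) (g b) (g d) = q →
      Beh (fun a : Fin n → Fin k => w' (.inr (g a))) q a b d := by
    intro q a b d hab had hbd hq
    apply beh_comp (fun a : Fin N → ℕ => w' (.inr a)) g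
    rw [← hq]
    exact th_spec _ hwr (fun h => hab (hgi h)) (fun h => had (hgi h)) (fun h => hbd (hgi h))
  have hCw : Cm (fun a : Fin n → Fin k => w' (.inr (g a))) := by
    have h8 := hNB _ _ hCv hArr' hwi
    refine (h6 K c n k (fun a : Fin n → Fin k => w' (.inr (g a))) i j s hn hk hwi
      ?_ ?_ ?_).elim id (fun h => absurd h (not_or.2 h8))
    · intro a b d m m' hm had hab h9 h10
      refine hBeh i a b d (df_ne hab) (df_ne had) ?_ (hi a b d m m' hm had hab h9 h10)
      intro hbd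
      apply had.2
      rw [hab.1 m hm, hbd]
    · intro a b d m m' hm hab hbd h9 h10
      refine hBeh j a b d (df_ne hab) ?_ (df_ne hbd) (hj a b d m m' hm hab hbd h9 h10)
      intro had
      apply hab.2
      rw [hbd.1 m hm, had]
    · intro a b d m hab hbd h9 h10
      refine hBeh s a b d (df_ne hab) ?_ (df_ne hbd) (hs a b d m hab hbd h9 h10)
      intro had
      rw [had] at h9
      exact absurd (h9.trans h10) (lt_irrefl _)
  have hel : ∀ y : P ⊕ (Fin n → Fin k), Sum.elim some (fun _ => none) (Sum.map id g y) =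
      (Sum.elim some (fun _ => none) y : Option P) := by
    rintro (p | a)
    · rfl
    · rfl
  refine ⟨fun x => v' (Sum.map id g x), fun x => w' (Sum.map id g x), hv'i.comp hmi,
    hw'i.comp hmi, fun p => hv'p p, fun p => hw'p p, ?_, hCv, hCw, hArr, ?_⟩
  · intro y y' y'' h7 h8
    have h9 := hv'B (Sum.map id g y) (Sum.map id g y') (Sum.map id g y'') (by
      rw [hel, hel]
      exact h7) (by
      rw [hel, hel]
      exact h8)
    rw [hel, hel, hel] at h9
    exact h9
  · intro p p' a b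
    exact iff_of_eq (congrFun (congrFun (hχ a b) p) p')

end Pool.Agent.Work.MP_8dbde4_lc.FK
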