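import Pool.Agent.Work.MP_8dbde4_lc.FK.StmtsA

/-!
Item IND of the block FK: adding points one after the other.
-/

set_option autoImplicit false
open Classical

namespace Pool.Agent.Work.MP_8dbde4_lc.FK

open Pool.Agent.Work.MP_8dbde4_lc.TS
open Pool.Agent.Work.MP_8dbde4_lc.Tree (Word Agr Cc)
open Pool.Agent.Work.MP_8dbde4_lc.Phy (PP Hom)
open Pool.Agent.Work.MP_8dbde4_lc.Bra (Same InvU BinOn pull c₂)
open Pool.Agent.Work.MP_8dbde4_lc.Full (Arr NEq Cst0 BT Sub)
open Pool.Agent.Work.MP_8dbde4_lc.Full.BT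

namespace XIND

variable {K : Type} {c : ℚ → K} {σ : Sig}

/-- Adding points one after the other, for a property `G` of tuples which does not depend on the
names of the coordinates and holds for the empty tuple. -/
theorem gen (h : S_ARR) (𝔅 : Str σ (Word c)) (hI : AllInv 𝔅) (hN : NEq 𝔅)
    (G : ∀ X : Type, (X → Word c) → Prop)
    (hG : ∀ (X Y : Type) (e : Y ≃ X) (v : X → Word c), G X v → G Y (fun y => v (e y)))
    (h0 : ∀ v : PEmpty.{1} → Word c, G PEmpty v)
    (hs : ∀ (X : Type) [Finite X] (v : Option X → Word c), Function.Injective v →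
      G X (fun x => v (some x)) → ∃ w : Option X → Word c, Function.Injective w ∧
        Arr 𝔅 v w ∧ G (Option X) w) :
    ∀ (X : Type) [Finite X] (v : X → Word c), Function.Injective v → ∃ w : X → Word c,
      Function.Injective w ∧ Arr 𝔅 v w ∧ G X w := by
  obtain ⟨-, h2, -, h4, -, h6⟩ := h K c σ 𝔅 hI
  intro X hX
  refine Finite.induction_empty_option (P := fun X : Type => Finite X → ∀ v : X → Word c,
    Function.Injective v → ∃ w : X → Word c, Function.Injective w ∧ Arr 𝔅 v w ∧ G X w)
    ?_ ?_ ?_ X hX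
  · intro α β e hα hβ v hv
    have hfin : Finite α := Finite.of_equiv β e.symm
    obtain ⟨w, hw1, hw2, hw3⟩ := hα hfin (fun a => v (e a)) (hv.comp e.injective)
    refine ⟨fun b => w (e.symm b), hw1.comp e.symm.injective, ?_, hG α β e.symm w hw3⟩
    have h7 := h2 α β e.symm (fun a => v (e a)) w hw2
    simpa using h7
  · intro _ v hv
    exact ⟨v, hv, Arr.refl 𝔅 v, h0 v⟩
  · intro α _ hα _ v hv
    obtain ⟨w, hw1, hw2, hw3⟩ := hα inferInstance (fun a => v (some a))
      (hv.comp (Option.some_injective α))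
    obtain ⟨w', hw4, hw5⟩ := h4 α (Option α) some v w hw2
    have hinj : Function.Injective w' := by
      intro x y hxy
      by_contra hne
      exact h6 hN (Option α) v w' x y hw5 (fun h => hne (hv h)) hxy
    have hg : G α (fun x => w' (some x)) := by
      have e1 : (fun x => w' (some x)) = w := funext hw4
      rw [e1]
      exact hw3
    obtain ⟨w'', h8, h9, h10⟩ := hs α w' hinj hg
    exact ⟨w'', h8, hw5.trans h9, h10⟩

end XIND

open XIND in
theorem IND_pf (h : S_ARR) : S_IND := by
  intro K c σ 𝔅 hI hN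
  refine ⟨?_, ?_⟩
  · intro hs X _ v hv
    refine gen h 𝔅 hI hN (fun X v => Bin Set.univ v) ?_ ?_ hs X v hv
    · intro X Y e v hb x _ y _ z _
      exact hb (e x) trivial (e y) trivial (e z) trivial
    · intro v x
      exact x.elim
  · intro hs X _ v hv
    refine gen h 𝔅 hI hN (fun X v => ∀ x y z t : X, ¬ Xr (v x) (v y) (v z) (v t)) ?_ ?_ hs X v hv
    · intro X Y e v hb x y z t
      exact hb (e x) (e y) (e z) (e t)
    · intro v x
      exact x.elim

end Pool.Agent.Work.MP_8dbde4_lc.FK
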