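import Pool.Agent.Work.MP_8dbde4_lc.FK.StmtsA

/-!
Item ITR of the block FK of MP_8dbde4_lc: iteration.
-/

set_option autoImplicit false
open Classical

namespace Pool.Agent.Work.MP_8dbde4_lc.FK

open Pool.Agent.Work.MP_8dbde4_lc.TS
open Pool.Agent.Work.MP_8dbde4_lc.Tree (Word Agr Cc)
open Pool.Agent.Work.MP_8dbde4_lc.Full (Arr)

namespace XITR

variable {K : Type} {c : ℚ → K} {σ : Sig}

theorem iter {𝔅 : Str σ (Word c)} {X T : Type} [Finite T] (A : (X → Word c) → T → Prop)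
    (good : (X → Word c) → Prop)
    (step : ∀ v : X → Word c, Function.Injective v → ¬ good v → ∃ w : X → Word c,
      Function.Injective w ∧ Arr 𝔅 v w ∧ (∀ t, A w t → A v t) ∧ ∃ t, A v t ∧ ¬ A w t) :
    ∀ (n : ℕ) (v : X → Word c), {t | A v t}.ncard ≤ n → Function.Injective v →
      ∃ w : X → Word c, Function.Injective w ∧ Arr 𝔅 v w ∧ good w := by
  intro n
  induction n with
  | zero =>
    intro v hn hv
    by_cases hg : good v
    · exact ⟨v, hv, fun _ _ h => h, hg⟩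
    · obtain ⟨w, _, _, _, t, ht, _⟩ := step v hv hg
      have h1 : {t | A v t} = ∅ := by
        rw [← Set.ncard_eq_zero (Set.toFinite _)]
        omega
      have h2 : t ∈ {t | A v t} := ht
      rw [h1] at h2
      exact h2.elim
  | succ n ih =>
    intro v hn hv
    by_cases hg : good v
    · exact ⟨v, hv, fun _ _ h => h, hg⟩
    · obtain ⟨w, hw, ha, hs, t, ht, ht'⟩ := step v hv hg
      have h1 : {t | A w t}.ncard < {t | A v t}.ncard := by
        refine Set.ncard_lt_ncard ⟨fun s hs' => hs s hs', fun h => ht' (h ht)⟩ (Set.toFinite _)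
      obtain ⟨u, hu, ha', hg'⟩ := ih w (by omega) hw
      exact ⟨u, hu, fun S hS h => ha' S hS (ha S hS h), hg'⟩

end XITR

open XITR in
theorem ITR_pf : S_ITR := by
  intro K c σ 𝔅
  refine ⟨fun h X _ v hv => ?_, fun h X _ v hv => ?_, fun h X _ v hv => ?_,
    fun h X _ v hv => ?_⟩
  · refine iter (𝔅 := 𝔅) (T := X × X × X) (fun v t => St (v t.1) (v t.2.1) (v t.2.2))
      (Bin Set.univ) ?_ _ v le_rfl hv
    intro v hv hg
    have h1 : ∃ x y z, St (v x) (v y) (v z) := by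
      by_contra hc
      exact hg (fun x _ y _ z _ hs => hc ⟨x, y, z, hs⟩)
    obtain ⟨w, hw, ha, hs, x, y, z, h2, h3⟩ := h X v hv h1
    exact ⟨w, hw, ha, fun t ht => hs _ _ _ ht, (x, y, z), h2, h3⟩
  · refine iter (𝔅 := 𝔅) (T := X × X × X) (fun v t => ¬ St (v t.1) (v t.2.1) (v t.2.2))
      StarT ?_ _ v le_rfl hv
    intro v hv hg
    obtain ⟨w, hw, ha, hs, x, y, z, h2, h3⟩ := h X v hv hg
    exact ⟨w, hw, ha, fun t ht ht' => ht (hs _ _ _ ht'), (x, y, z), h3, fun h4 => h4 h2⟩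
  · refine iter (𝔅 := 𝔅) (T := X × X × X × X)
      (fun v t => Xr (v t.1) (v t.2.1) (v t.2.2.1) (v t.2.2.2))
      (fun w => ∀ x y z t, ¬ Xr (w x) (w y) (w z) (w t)) ?_ _ v le_rfl hv
    intro v hv hg
    have h1 : ∃ x y z t, Xr (v x) (v y) (v z) (v t) := by
      by_contra hc
      exact hg (fun x y z t hs => hc ⟨x, y, z, t, hs⟩)
    obtain ⟨w, hw, ha, hs, x, y, z, t, h2, h3⟩ := h X v hv h1
    exact ⟨w, hw, ha, fun t ht => hs _ _ _ _ ht, (x, y, z, t), h2, h3⟩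
  · refine iter (𝔅 := 𝔅) (T := X × X × X × X)
      (fun v t => ¬ Xr (v t.1) (v t.2.1) (v t.2.2.1) (v t.2.2.2))
      (fun w => ∀ x y z t, ¬ Qr (w x) (w y) (w z) (w t)) ?_ _ v le_rfl hv
    intro v hv hg
    have h1 : ∃ x y z t, Qr (v x) (v y) (v z) (v t) := by
      by_contra hc
      exact hg (fun x y z t hs => hc ⟨x, y, z, t, hs⟩)
    obtain ⟨w, hw, ha, hs, x, y, z, t, h2, h3⟩ := h X v hv h1
    exact ⟨w, hw, ha, fun t ht ht' => ht (hs _ _ _ _ ht'), (x, y, z, t), h3, fun h4 => h4 h2⟩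

end Pool.Agent.Work.MP_8dbde4_lc.FK
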