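import Pool.Agent.Work.MP_8dbde4_lc.FK.StmtsA

/-!
# Item LBB: maps to combs give maps to binary tuples
-/

set_option autoImplicit false
open Classical

namespace Pool.Agent.Work.MP_8dbde4_lc.FK

open Pool.Agent.Work.MP_8dbde4_lc.TS
open Pool.Agent.Work.MP_8dbde4_lc.Tree (Word Agr Cc)
open Pool.Agent.Work.MP_8dbde4_lc.Phy (PP Hom)
open Pool.Agent.Work.MP_8dbde4_lc.Bra (Same InvU BinOn pull c₂)
open Pool.Agent.Work.MP_8dbde4_lc.Full (Arr NEq Cst0 BT Sub)
open Pool.Agent.Work.MP_8dbde4_lc.Full.BT

theorem LLC_pf (h1 : S_SHX) (h2 : S_SHF) : S_LLC := by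
  intro K c σ 𝔅 hK hA hL X _ v hv hb
  rcases isEmpty_or_nonempty X with hX | hX
  · exact ⟨v, [], hv, fun x => hX.elim x, List.nodup_nil, trivial, Full.Arr.refl 𝔅 v⟩
  · obtain ⟨-, h4, h5⟩ := h1 K c X
    obtain ⟨T, hT, hsh⟩ := h4 v Set.univ Set.univ_nonempty hv.injOn hb
    have hnd := ((h2 K c X T).1 v hsh).1
    obtain ⟨z, hz, hc⟩ := h5 hK T.lvs hnd (fun x => (hT x).2 trivial)
    exact ⟨z, T.lvs, hz, fun x => (hT x).2 trivial, hnd, hc,
      hL X T v z (fun x => (hT x).2 trivial) hsh hc⟩

namespace XLBB

variable {K : Type} {c : ℚ → K}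

/-- There are no stars in a comb. -/
theorem comb_st {Z : Type} (v : Z → Word c) : ∀ ℓ : List Z, CombL v ℓ →
    ∀ x ∈ ℓ, ∀ y ∈ ℓ, ∀ z ∈ ℓ, ¬ St (v x) (v y) (v z)
  | [], _ => fun _ h => absurd h List.not_mem_nil
  | a :: ℓ, hc => by
    intro x hx y hy z hz hs
    have hxy : v x ≠ v y := hs.1
    have hyz : v y ≠ v z := hs.2.1
    have hxz : v x ≠ v z := hs.2.2.1
    rcases List.mem_cons.1 hx with h1 | h1
    · rcases List.mem_cons.1 hy with h2 | h2
      · exact hxy (by rw [h1, h2])
      · rcases List.mem_cons.1 hz with h3 | h3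
        · exact hxz (by rw [h1, h3])
        · subst h1
          exact hs.2.2.2.2.2 (hc.1 y h2 z h3)
    · rcases List.mem_cons.1 hy with h2 | h2
      · rcases List.mem_cons.1 hz with h3 | h3
        · exact hyz (by rw [h2, h3])
        · subst h2
          exact hs.2.2.2.2.1 (hc.1 x h1 z h3)
      · rcases List.mem_cons.1 hz with h3 | h3
        · subst h3
          exact hs.2.2.2.1 (hc.1 x h1 y h2)
        · exact comb_st v ℓ hc.2 x h1 y h2 z h3 hs

/-- The stars which a further word forms with a comb have a common point. -/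
theorem comb_one {Z : Type} (v : Z → Word c) (n : Word c) : ∀ ℓ : List Z, CombL v ℓ →
    (∀ y ∈ ℓ, ∀ y' ∈ ℓ, ¬ St n (v y) (v y')) ∨
      ∃ y₀, ∀ y ∈ ℓ, ∀ y' ∈ ℓ, St n (v y) (v y') → y₀ = y ∨ y₀ = y'
  | [], _ => Or.inl fun _ h => absurd h List.not_mem_nil
  | a :: ℓ, hc => by
    by_cases ha : ∃ t ∈ ℓ, St n (v a) (v t)
    · right
      obtain ⟨t, ht, hst⟩ := ha
      refine ⟨a, ?_⟩
      intro y hy y' hy' hs
      rcases List.mem_cons.1 hy with h1 | h1
      · exact Or.inl h1.symm
      · rcases List.mem_cons.1 hy' with h2 | h2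
        · exact Or.inr h2.symm
        · exfalso
          have key : ∀ u ∈ ℓ, Cc n (v t) (v u) := by
            intro u hu
            rcases cc_or (hc.1 t ht u hu) n with h3 | h3
            · exact absurd (cc_symm h3) hst.2.2.2.2.1
            · exact h3
          exact hs.2.2.2.2.2 (cc_trans (cc_symm (key y h1)) (key y' h2))
    · have hno : ∀ t ∈ a :: ℓ, ¬ St n (v a) (v t) := by
        intro t ht hs
        rcases List.mem_cons.1 ht with h1 | h1
        · exact hs.2.1 (by rw [h1])
        · exact ha ⟨t, h1, hs⟩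
      rcases comb_one v n ℓ hc.2 with h | ⟨y₀, h⟩
      · left
        intro y hy y' hy' hs
        rcases List.mem_cons.1 hy with h1 | h1
        · subst h1
          exact hno y' hy' hs
        · rcases List.mem_cons.1 hy' with h2 | h2
          · subst h2
            exact hno y hy (hs.rot.swap.rot.rot)
          · exact h y h1 y' h2 hs
      · right
        refine ⟨y₀, ?_⟩
        intro y hy y' hy' hs
        rcases List.mem_cons.1 hy with h1 | h1
        · subst h1
          exact absurd hs (hno y' hy')
        · rcases List.mem_cons.1 hy' with h2 | h2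
          · subst h2
            exact absurd (hs.rot.swap.rot.rot) (hno y hy)
          · exact h y h1 y' h2 hs

/-- The choice of one copy of every point. -/
theorem comb_two {X : Type} (z : X × Bool → Word c) (n : Word c) (ℓ : List (X × Bool))
    (hl : ∀ p, p ∈ ℓ) (hc : CombL z ℓ) : ∃ b : Bool, ∀ x y : X, ¬ St n (z (x, b)) (z (y, b)) := by
  rcases comb_one z n ℓ hc with h | ⟨y₀, h⟩
  · exact ⟨true, fun x y => h _ (hl _) _ (hl _)⟩
  · refine ⟨!y₀.2, fun x y hs => ?_⟩
    rcases h _ (hl _) _ (hl _) hs with h1 | h1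
    · have h2 := congrArg Prod.snd h1
      simp at h2
    · have h2 := congrArg Prod.snd h1
      simp at h2

end XLBB

open XLBB in
theorem LBB_pf (h1 : S_ARR) (h2 : S_IND) (h3 : S_BLW) (h4 : S_BLF) : S_LBB := by
  intro K c σ 𝔅 hA hN hL
  obtain ⟨a1, a2, -, a4, -, a6⟩ := h1 K c σ 𝔅 hA
  apply (h2 K c σ 𝔅 hA hN).1
  intro X _ v hv hbin
  obtain ⟨v', hv', hbl, -⟩ := h3 K c (Option X) (Option (X × Bool)) (Option.map Prod.fst) v
    (fun o => match o with
      | none => v none
      | some p => if p.2 = true then v none else v (some p.1)) hv (by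
        intro y y' hp hu
        rcases y with _ | ⟨x, b⟩
        · rcases y' with _ | ⟨x', b'⟩
          · rfl
          · exact absurd hp (by simp)
        · rcases y' with _ | ⟨x', b'⟩
          · exact absurd hp (by simp)
          · have hx : x = x' := by simpa using hp
            subst hx
            cases b <;> cases b'
            · rfl
            · exact absurd (hv (by simpa using hu)) (by simp)
            · exact absurd (hv (by simpa using hu)) (by simp)
            · rfl)
  have hvs : Function.Injective (fun x => v (some x)) := fun x y h =>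
    Option.some_injective _ (hv h)
  have hvs' : Function.Injective (fun p => v' (some p)) := fun x y h =>
    Option.some_injective _ (hv' h)
  have hbl' : Bl (Prod.fst : X × Bool → X) (fun x => v (some x)) (fun p => v' (some p)) := by
    intro y y' y'' hy hy'
    exact hbl (some y) (some y') (some y'') (fun h => hy (Option.some_injective _ h))
      (fun h => hy' (Option.some_injective _ h))
  have hb' : Bin Set.univ (fun p : X × Bool => v' (some p)) := by
    refine (h4 K c X (X × Bool) Prod.fst (fun x => v (some x)) (fun p => v' (some p)) hvs hvs'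
      hbl').2.2.2.2.1 hbin ?_
    intro x p hp q hq r hr hs
    have hp' : p.1 = x := hp
    have hq' : q.1 = x := hq
    have hr' : r.1 = x := hr
    have e1 : p.2 ≠ q.2 := fun h => hs.1 (congrArg (fun p => v' (some p))
      (Prod.ext (hp'.trans hq'.symm) h))
    have e2 : q.2 ≠ r.2 := fun h => hs.2.1 (congrArg (fun p => v' (some p))
      (Prod.ext (hq'.trans hr'.symm) h))
    have e3 : p.2 ≠ r.2 := fun h => hs.2.2.1 (congrArg (fun p => v' (some p))
      (Prod.ext (hp'.trans hr'.symm) h))
    revert e1 e2 e3
    cases p.2 <;> cases q.2 <;> cases r.2 <;> simp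
  obtain ⟨z, ℓ, hz, hl, hnd, hc, harr⟩ := hL (X × Bool) (fun p => v' (some p)) hvs' hb'
  obtain ⟨w', hw1, hw2⟩ := a4 (X × Bool) (Option (X × Bool)) some v' z harr
  have hwi : Function.Injective w' := by
    intro x y h
    by_contra hne
    exact a6 hN (Option (X × Bool)) v' w' x y hw2 (fun h => hne (hv' h)) h
  obtain ⟨b, hb⟩ := comb_two z (w' none) ℓ hl hc
  have hsi : Function.Injective (Option.map (fun x : X => (x, b))) :=
    Option.map_injective (fun x y h => congrArg Prod.fst h)
  refine ⟨fun o => w' (Option.map (fun x => (x, b)) o), hwi.comp hsi, ?_, ?_⟩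
  · refine Full.Arr.trans (a1 (Option X) v (fun o => v' (Option.map (fun x => (x, b)) o)) ?_)
      (a2 (Option (X × Bool)) (Option X) (Option.map (fun x => (x, b))) v' w' hw2)
    exact (h4 K c (Option X) (Option (X × Bool)) (Option.map Prod.fst) v v' hv hv'
      hbl).2.2.2.1 (Option.map (fun x => (x, b))) (by
        intro x
        cases x <;> rfl)
  · have hno : ∀ x y : X, ¬ St (w' none) (w' (some (x, b))) (w' (some (y, b))) := by
      intro x y
      rw [hw1, hw1]
      exact hb x y
    intro x _ y _ t _ hs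
    rcases x with _ | x
    · rcases y with _ | y
      · exact hs.1 rfl
      · rcases t with _ | t
        · exact hs.2.2.1 rfl
        · exact hno y t hs
    · rcases y with _ | y
      · rcases t with _ | t
        · exact hs.2.1 rfl
        · exact hno x t hs.swap
      · rcases t with _ | t
        · exact hno x y hs.rot.rot
        · have hs' : St (w' (some (x, b))) (w' (some (y, b))) (w' (some (t, b))) := hs
          rw [hw1, hw1, hw1] at hs'
          exact comb_st z ℓ hc _ (hl _) _ (hl _) _ (hl _) hs'

end Pool.Agent.Work.MP_8dbde4_lc.FK
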