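import Pool.Agent.Work.MP_8dbde4_lc.FK.StmtsW

/-!
# Items MNW and NGW: smaller trees; arrows between complete blow-ups of all sizes suffice
-/

set_option autoImplicit false
open Classical

namespace Pool.Agent.Work.MP_8dbde4_lc.FK

open Pool.Agent.Work.MP_8dbde4_lc.TS
open Pool.Agent.Work.MP_8dbde4_lc.Tree (Word Agr Cc)
open Pool.Agent.Work.MP_8dbde4_lc.Phy (PP Hom)
open Pool.Agent.Work.MP_8dbde4_lc.Bra (Same InvU BinOn pull c₂)
open Pool.Agent.Work.MP_8dbde4_lc.Full (Arr NEq Cst0 BT Sub)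

namespace XMNW

variable {A : Type} {c : ℚ → A} {X Y₀ Y : Type}

theorem sameOn_single {Z : Set Y₀} (h : ∀ y ∈ Z, ∀ y' ∈ Z, y = y') (v w : Y₀ → Word c) :
    SameOn Z v w := by
  refine ⟨?_, ?_⟩
  · intro x hx y hy
    rw [h x hx y hy]
    simp
  · intro x hx y hy z hz
    rw [h z hz x hx]
    exact ⟨fun h => absurd h cc_irrefl, fun h => absurd h cc_irrefl⟩

/-- Complete trees composed with a map which preserves `TC`. -/
theorem cm_comp {n n' : ℕ} {B B' : Type} {u : (Fin n' → B') → Word c}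
    (g : (Fin n → B) → (Fin n' → B')) (hg : Function.Injective g)
    (hTC : ∀ z x y, TC z x y ↔ TC (g z) (g x) (g y)) (hu : Cm u) : Cm (fun a => u (g a)) :=
  ⟨fun _ _ h => hg (hu.1 h), fun z x y => (hu.2 (g z) (g x) (g y)).trans (hTC z x y).symm⟩

/-- Different blocks of a blow-up of an injective tuple have different words. -/
theorem bl_ne {π : Y → X} {v : X → Word c} {v' : Y → Word c} (hv : Function.Injective v)
    (hb : Bl π v v') {y y' : Y} (h : π y ≠ π y') : v' y ≠ v' y' :=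
  cc_ne ((hb y' y' y h h).2 (cc_self (fun h' => h (hv h'))))

/-- One side of NGW. -/
theorem side (hBLF : S_BLF) {n k : ℕ} {F : Set X} {π : Y₀ → X} {v : X → Word c}
    {v₀ : Y₀ → Word c} {v' : X × (Fin n → Fin k) → Word c} {e : Y₀ → (Fin n → Fin k)}
    (hF : ∀ y y', π y = π y' → π y ∉ F → y = y') (hv : Function.Injective v)
    (hv₀ : Function.Injective v₀) (hb₀ : Bl π v v₀) (hb' : Bl Prod.fst v v')
    (hC : ∀ x ∈ F, Cm (fun a => v' (x, a)))
    (he : ∀ y y', π y = π y' → e y = e y' → y = y')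
    (heC : ∀ z x y, π x = π z → π y = π z → (Cc (v₀ z) (v₀ x) (v₀ y) ↔ TC (e z) (e x) (e y))) :
    SameOn Set.univ v₀ (fun y => v' (π y, e y)) := by
  have hinj : Function.Injective (fun y => v' (π y, e y)) := by
    intro y y' h
    by_cases hπ : π y = π y'
    · by_cases hx : π y ∈ F
      · apply he y y' hπ
        have h1 : v' (π y, e y) = v' (π y, e y') := by
          have h2 : v' (π y, e y) = v' (π y', e y') := h
          rw [h2, hπ]
        exact (hC _ hx).1 h1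
      · exact hF y y' hπ hx
    · exact absurd h (bl_ne hv hb' (y := (π y, e y)) (y' := (π y', e y')) hπ)
  refine (hBLF A c X Y₀ π v v₀ hv hv₀ hb₀).2.2.1 _ hinj ?_ ?_
  · intro y y' y'' h1 h2
    exact hb' (π y, e y) (π y', e y') (π y'', e y'') h1 h2
  · intro x
    by_cases hx : x ∈ F
    · refine ⟨fun y _ y' _ => ?_, ?_⟩
      · exact ⟨fun h => by rw [hv₀ h], fun h => by rw [hinj h]⟩
      · intro y hy y' hy' y'' hy''
        have e1 : π y = x := hy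
        have e2 : π y' = x := hy'
        have e3 : π y'' = x := hy''
        rw [heC y'' y y' (e1.trans e3.symm) (e2.trans e3.symm)]
        simp only [e1, e2, e3]
        exact ((hC x hx).2 (e y'') (e y) (e y')).symm
    · apply sameOn_single
      intro y hy y' hy'
      have e1 : π y = x := hy
      have e2 : π y' = x := hy'
      exact hF y y' (e1.trans e2.symm) (by rw [e1]; exact hx)

end XMNW

open XMNW

theorem MNW_pf (h1 : S_ARR) (h2 : S_TCF) : S_MNW := by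
  intro K c σ 𝔅 hI X _ F v w n n' k k' hn hk hk1 hN
  obtain ⟨v', w', hbv, hbw, hA, hin, hout⟩ := hN
  obtain ⟨g, hg, hTC⟩ := h2.2.2.1 n n' k k' hn hk hk1
  refine ⟨fun p => v' (p.1, g p.2), fun p => w' (p.1, g p.2), ?_, ?_, ?_, ?_, ?_⟩
  · intro y y' y'' e1 e2
    exact hbv (y.1, g y.2) (y'.1, g y'.2) (y''.1, g y''.2) e1 e2
  · intro y y' y'' e1 e2
    exact hbw (y.1, g y.2) (y'.1, g y'.2) (y''.1, g y''.2) e1 e2
  · exact (h1 K c σ 𝔅 hI).2.1 (X × (Fin n' → Fin k')) (X × (Fin n → Fin k))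
      (fun p => (p.1, g p.2)) v' w' hA
  · intro x hx
    exact ⟨cm_comp g hg hTC (hin x hx).1, cm_comp g hg hTC (hin x hx).2⟩
  · intro x hx a b
    exact hout x hx (g a) (g b)

theorem NGW_pf (h1 : S_ARR) (h2 : S_BLF) (h3 : S_TCE) : S_NGW := by
  intro K c σ 𝔅 hI X _ F v w hv hw hN Y₀ _ π v₀ w₀ hF hv₀ hw₀ _ hbv hbw hs
  obtain ⟨hA1, hA2, -, -, -, -⟩ := h1 K c σ 𝔅 hI
  have hblock : ∀ x : X, ∃ n₀ k₀ : ℕ, ∀ n k : ℕ, n₀ ≤ n → k₀ ≤ k →
      ∃ e : {y : Y₀ // π y = x} → (Fin n → Fin k), Function.Injective e ∧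
        ∀ z x' y, Cc (v₀ z.1) (v₀ x'.1) (v₀ y.1) ↔ TC (e z) (e x') (e y) := by
    intro x
    exact h3 K c {y : Y₀ // π y = x} (fun y => v₀ y.1)
      (fun a b h => Subtype.ext (hv₀ h))
  choose n₀ k₀ hnk using hblock
  obtain ⟨n, hn⟩ := (Set.finite_range n₀).bddAbove
  obtain ⟨k, hk⟩ := (Set.finite_range k₀).bddAbove
  have he := fun x => hnk x n k (hn ⟨x, rfl⟩) (hk ⟨x, rfl⟩)
  choose e he1 he2 using he
  obtain ⟨v', w', hbv', hbw', hA, hin, -⟩ := hN n k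
  have hE1 : ∀ y y', π y = π y' → e (π y) ⟨y, rfl⟩ = e (π y') ⟨y', rfl⟩ → y = y' := by
    have aux : ∀ (x : X) (y y' : {y : Y₀ // π y = x}), e (π y.1) ⟨y.1, rfl⟩ = e (π y'.1) ⟨y'.1, rfl⟩ →
        y.1 = y'.1 := by
      rintro x ⟨y, hy⟩ ⟨y', hy'⟩ h
      subst hy
      have h4 : ∀ (x' : X) (q : π y' = x'), e (π y') ⟨y', rfl⟩ = e x' ⟨y', q⟩ := by
        rintro x' rfl
        rfl
      rw [h4 _ hy'] at h
      exact congrArg Subtype.val (he1 _ h)
    intro y y' hπ h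
    exact aux (π y) ⟨y, rfl⟩ ⟨y', hπ.symm⟩ h
  have hE2 : ∀ z x y, π x = π z → π y = π z → (Cc (v₀ z) (v₀ x) (v₀ y) ↔
      TC (e (π z) ⟨z, rfl⟩) (e (π x) ⟨x, rfl⟩) (e (π y) ⟨y, rfl⟩)) := by
    intro z x y e1 e2
    have h4 : ∀ (t : Y₀) (x' : X) (q : π t = x'), e (π t) ⟨t, rfl⟩ = e x' ⟨t, q⟩ := by
      rintro t x' rfl
      rfl
    rw [h4 x _ e1, h4 y _ e2]
    exact he2 (π z) ⟨z, rfl⟩ ⟨x, e1⟩ ⟨y, e2⟩
  have k1 : SameOn Set.univ v₀ (fun y => v' (π y, e (π y) ⟨y, rfl⟩)) :=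
    side h2 hF hv hv₀ hbv hbv' (fun x hx => (hin x hx).1) hE1 hE2
  have k2 : SameOn Set.univ w₀ (fun y => w' (π y, e (π y) ⟨y, rfl⟩)) := by
    refine side h2 hF hw hw₀ hbw hbw' (fun x hx => (hin x hx).2) hE1 ?_
    intro z x y e1 e2
    rw [← hE2 z x y e1 e2]
    exact ((hs (π z)).2 x e1 y e2 z rfl).symm
  exact (hA1 Y₀ _ _ k1).trans ((hA2 (X × (Fin n → Fin k)) Y₀
    (fun y => (π y, e (π y) ⟨y, rfl⟩)) v' w' hA).trans (hA1 Y₀ _ _ k2.symm))

end Pool.Agent.Work.MP_8dbde4_lc.FK
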