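import Pool.Agent.Work.MP_8dbde4_lc.FK.StmtsB

/-!
# A point moves away from its branch point
-/

set_option autoImplicit false
open Classical

namespace Pool.Agent.Work.MP_8dbde4_lc.FK

namespace XMOVE

variable {X : Type} {C : X → X → X → Prop}

theorem irrefl (H : CRel C) {x y : X} : ¬ C x x y := fun h => H.asymm x x y h h

theorem irrefl' (H : CRel C) {x y : X} : ¬ C x y x := fun h => irrefl H (H.symm x y x h)

theorem trans (H : CRel C) {z x y w : X} (h : C z x y) (h' : C z y w) : C z x w := by
  rcases H.or z x y w h with h1 | h1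
  · exact h1
  · rcases H.or z w y x (H.symm z y w h') with h2 | h2
    · exact H.symm z w x h2
    · exact absurd (H.symm x w y h2) (fun h3 => by
        rcases H.or x y w z h3 with h4 | h4
        · exact H.asymm z x y h (H.symm x y z h4)
        · exact H.asymm w x y h1 (H.symm x y w h3))

/-- `x` and `y` on different sides of `z | w`. -/
theorem mid (H : CRel C) {x y z w : X} (h : C z x y) (h' : C x z w) : C y z w := by
  rcases H.or x z w y h' with h1 | h1
  · exact absurd h1 (H.asymm z x y h)
  · exact h1

/-- The star at `none` of the new relation lies in the branch of `x`. -/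
theorem key {C C' : Option X → Option X → Option X → Prop} (H' : CRel C')
    (hs : ∀ x y z : X, C (some z) (some x) (some y) ↔ C' (some z) (some x) (some y))
    (hb : ∀ x y z : X, ¬ AS C (some x) (some y) (some z)) {x y s t : X}
    (h : C' (some y) none (some x)) (hst : AS C' none (some s) (some t)) :
    C' (some y) none (some s) := by
  obtain ⟨_, h2, _, h4, h5, h6⟩ := hst
  rcases H'.or _ _ _ (some s) h with h1 | h1
  · exact h1
  · rcases H'.or _ _ _ (some t) h1 with h7 | h7
    · exact absurd h7 h5
    · exfalso
      have hxs : x ≠ s := by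
        rintro rfl
        exact irrefl' H' h1
      have hxt : x ≠ t := by
        rintro rfl
        exact irrefl' H' h7
      refine hb x s t ⟨fun e => hxs (Option.some.inj e), h2, fun e => hxt (Option.some.inj e),
        ?_, ?_, ?_⟩
      · intro h8
        exact h4 (trans H' h7 ((hs x s t).1 h8))
      · intro h8
        exact h5 (trans H' h1 ((hs x t s).1 h8))
      · intro h8
        exact h6 (mid H' (H'.symm _ _ _ h1) ((hs s t x).1 h8))

end XMOVE

open XMOVE in
theorem MOVE_pf : S_MOVE := by
  intro X C C' H H' hs hb x y hxy h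
  obtain ⟨_, g2, g3, g4, g5, g6⟩ := hxy
  have hfirst : ∀ s t : X, AS C' none (some s) (some t) →
      C' (some y) none (some s) := fun s t hst => key H' hs hb h hst
  rw [Set.ssubset_iff_subset_ne]
  constructor
  · rintro s ⟨t, hst⟩
    have h1 := hfirst s t hst
    have hsy : some s ≠ some y := by
      intro e
      rw [e] at h1
      exact irrefl' H' h1
    have h2 : C (some y) (some s) (some x) :=
      (hs s x y).2 (trans H' (H'.symm _ _ _ h1) h)
    refine ⟨y, (by simp), hsy, g3, ?_, ?_, ?_⟩
    · intro h3
      exact g4 (trans H h3 h2)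
    · intro h3
      exact g5 (H.symm _ _ _ (mid H h2 (H.symm _ _ _ h3)))
    · intro h3
      rcases H.or _ _ _ (some x) (H.symm _ _ _ h3) with h4 | h4
      · exact g6 (H.symm _ _ _ h4)
      · exact H.asymm _ _ _ (H.symm _ _ _ h2) h4
  · intro e
    have hy : y ∈ {s : X | ∃ t : X, AS C none (some s) (some t)} :=
      ⟨x, g3, g2.symm, (by simp), g5, g4, fun h1 => g6 (H.symm _ _ _ h1)⟩
    rw [← e] at hy
    obtain ⟨t, ht⟩ := hy
    exact irrefl' H' (hfirst y t ht)

end Pool.Agent.Work.MP_8dbde4_lc.FK
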