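import Pool.Agent.Work.MP_8dbde4_lc.FK.StmtsW

/-!
# Item NBW: large complete trees cannot be mapped to binary tuples or stars
-/

set_option autoImplicit false
open Classical

namespace Pool.Agent.Work.MP_8dbde4_lc.FK

open Pool.Agent.Work.MP_8dbde4_lc.TS
open Pool.Agent.Work.MP_8dbde4_lc.Tree (Word Agr Cc)
open Pool.Agent.Work.MP_8dbde4_lc.Phy (PP Hom)
open Pool.Agent.Work.MP_8dbde4_lc.Bra (Same InvU BinOn pull c₂)
open Pool.Agent.Work.MP_8dbde4_lc.Full (Arr NEq Cst0 BT Sub)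

namespace XNBW

/-- An arrow from a tuple which is embedded in a complete tree. -/
theorem arr_emb (h1 : S_ARR) {K : Type} {c : ℚ → K} {σ : Sig} {𝔅 : Str σ (Word c)}
    (hI : AllInv 𝔅) {X : Type} [Finite X] {v₁ : X → Word c} (hv₁ : Function.Injective v₁)
    {n k : ℕ} {v w : (Fin n → Fin k) → Word c} (hv : Cm v) (ha : Arr 𝔅 v w)
    {e : X → (Fin n → Fin k)} (he : Function.Injective e)
    (hc : ∀ z x y, Cc (v₁ z) (v₁ x) (v₁ y) ↔ TC (e z) (e x) (e y)) :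
    Arr 𝔅 v₁ (fun x => w (e x)) := by
  obtain ⟨a1, a2, -⟩ := h1 K c σ 𝔅 hI
  have b1 : Arr 𝔅 v₁ (fun x => v (e x)) := by
    apply a1
    refine ⟨fun x _ y _ => ⟨fun h => by rw [hv₁ h], fun h => by rw [he (hv.1 h)]⟩, ?_⟩
    intro x _ y _ z _
    rw [hc z x y]
    exact (hv.2 (e z) (e x) (e y)).symm
  exact b1.trans (a2 _ X e v w ha)

end XNBW

open XNBW in
theorem NBW_pf (h1 : S_ARR) (h2 : S_TCE) : S_NBW := by
  intro K c σ 𝔅 hI hBB hSS
  unfold BB at hBB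
  unfold SS at hSS
  push Not at hBB hSS
  obtain ⟨X₁, hX₁, v₁, hv₁, hn₁⟩ := hBB
  obtain ⟨X₂, hX₂, v₂, hv₂, hn₂⟩ := hSS
  obtain ⟨n₁, k₁, ht₁⟩ := h2 K c X₁ v₁ hv₁
  obtain ⟨n₂, k₂, ht₂⟩ := h2 K c X₂ v₂ hv₂
  refine ⟨max n₁ n₂, max k₁ k₂, ?_⟩
  intro n k hn hk v w hv ha hw
  constructor
  · intro hB
    obtain ⟨e, he, hc⟩ := ht₁ n k ((le_max_left _ _).trans hn) ((le_max_left _ _).trans hk)
    refine hn₁ (fun x => w (e x)) (fun x y h => he (hw h)) (arr_emb h1 hI hv₁ hv ha he hc) ?_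
    intro x _ y _ z _
    exact hB (e x) trivial (e y) trivial (e z) trivial
  · intro hS
    obtain ⟨e, he, hc⟩ := ht₂ n k ((le_max_right _ _).trans hn) ((le_max_right _ _).trans hk)
    exact hn₂ (fun x => w (e x)) (fun x y h => he (hw h)) (arr_emb h1 hI hv₂ hv ha he hc)
      fun x y z h => hS (e x) (e y) (e z) h

end Pool.Agent.Work.MP_8dbde4_lc.FK
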