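import Pool.Agent.Work.MP_8dbde4_lc.FK.StmtsA

/-!
Item NLN: if `LIN` fails then no arrow maps large complete trees to combs.
-/

set_option autoImplicit false
open Classical

namespace Pool.Agent.Work.MP_8dbde4_lc.FK

open Pool.Agent.Work.MP_8dbde4_lc.TS
open Pool.Agent.Work.MP_8dbde4_lc.Tree (Word Agr Cc)
open Pool.Agent.Work.MP_8dbde4_lc.Phy (PP Hom)
open Pool.Agent.Work.MP_8dbde4_lc.Bra (Same InvU BinOn pull c₂)
open Pool.Agent.Work.MP_8dbde4_lc.Full (Arr NEq Cst0 BT Sub)
open Pool.Agent.Work.MP_8dbde4_lc.Full.BT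

namespace XNLN

variable {K : Type} {c : ℚ → K}

theorem combL_sublist {X : Type} (w : X → Word c) {l1 l2 : List X}
    (h : List.Sublist l1 l2) : CombL w l2 → CombL w l1 := by
  induction h with
  | slnil => exact id
  | cons a _ ih => exact fun h => ih h.2
  | cons_cons a hs ih =>
    intro h
    exact ⟨fun y hy z hz => h.1 y (hs.subset hy) z (hs.subset hz), ih h.2⟩

/-- combs along the same list have the same splits -/
theorem comb_same {X : Type} (v w : X → Word c) :
    ∀ ℓ : List X, CombL v ℓ → CombL w ℓ → SameOn {x | x ∈ ℓ} v w := by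
  intro ℓ
  induction ℓ with
  | nil =>
    intro _ _
    exact ⟨fun x hx => absurd hx (by simp), fun x hx => absurd hx (by simp)⟩
  | cons a ℓ ih =>
    intro hv hw
    obtain ⟨hv1, hv2⟩ := hv
    obtain ⟨hw1, hw2⟩ := hw
    have IH := ih hv2 hw2
    refine ⟨?_, ?_⟩
    · intro x hx y hy
      by_cases hxa : x ∈ ℓ
      · by_cases hya : y ∈ ℓ
        · exact IH.1 x hxa y hya
        · have : y = a := (List.mem_cons.1 hy).resolve_right hya
          subst this
          exact ⟨fun h => absurd h.symm (cc_ne (hv1 x hxa x hxa)),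
            fun h => absurd h.symm (cc_ne (hw1 x hxa x hxa))⟩
      · have : x = a := (List.mem_cons.1 hx).resolve_right hxa
        subst this
        by_cases hya : y ∈ ℓ
        · exact ⟨fun h => absurd h (cc_ne (hv1 y hya y hya)),
            fun h => absurd h (cc_ne (hw1 y hya y hya))⟩
        · have : y = x := (List.mem_cons.1 hy).resolve_right hya
          subst this
          exact ⟨fun _ => rfl, fun _ => rfl⟩
    · intro x hx y hy z hz
      by_cases hza : z ∈ ℓ
      · by_cases hxa : x ∈ ℓ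
        · by_cases hya : y ∈ ℓ
          · exact IH.2 x hxa y hya z hza
          · have : y = a := (List.mem_cons.1 hy).resolve_right hya
            subst this
            exact ⟨fun h => absurd (hv1 z hza x hxa) (fun h' => cc_asymm (cc_symm h) h'),
              fun h => absurd (hw1 z hza x hxa) (fun h' => cc_asymm (cc_symm h) h')⟩
        · have : x = a := (List.mem_cons.1 hx).resolve_right hxa
          subst this
          by_cases hya : y ∈ ℓ
          · exact ⟨fun h => absurd (hv1 z hza y hya) (fun h' => cc_asymm h h'),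
              fun h => absurd (hw1 z hza y hya) (fun h' => cc_asymm h h')⟩
          · have : y = x := (List.mem_cons.1 hy).resolve_right hya
            subst this
            rw [cc_iff_ne, cc_iff_ne]
            exact ⟨fun _ h => cc_ne (hw1 z hza z hza) h.symm, fun _ h => cc_ne (hv1 z hza z hza) h.symm⟩
      · have : z = a := (List.mem_cons.1 hz).resolve_right hza
        subst this
        by_cases hxa : x ∈ ℓ
        · by_cases hya : y ∈ ℓ
          · exact ⟨fun _ => hw1 x hxa y hya, fun _ => hv1 x hxa y hya⟩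
          · have : y = z := (List.mem_cons.1 hy).resolve_right hya
            subst this
            exact ⟨fun h => absurd h cc_irrefl', fun h => absurd h cc_irrefl'⟩
        · have : x = z := (List.mem_cons.1 hx).resolve_right hxa
          subst this
          exact ⟨fun h => absurd h cc_irrefl, fun h => absurd h cc_irrefl⟩

theorem lvs_map {X Y : Type} (e : X → Y) (t : BT X) : (t.map e).lvs = t.lvs.map e := by
  induction t with
  | lf x => rfl
  | nd l r ihl ihr =>
    show (l.map e).lvs ++ (r.map e).lvs = (l.lvs ++ r.lvs).map e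
    rw [ihl, ihr, List.map_append]

theorem combL_map {X Y : Type} (e : X → Y) (w : Y → Word c) :
    ∀ ℓ : List X, CombL w (ℓ.map e) → CombL (fun x => w (e x)) ℓ := by
  intro ℓ
  induction ℓ with
  | nil => exact fun _ => trivial
  | cons a ℓ ih =>
    intro h
    refine ⟨?_, ih h.2⟩
    intro y hy z hz
    exact h.1 (e y) (List.mem_map_of_mem hy) (e z) (List.mem_map_of_mem hz)

theorem univ_of {X : Type} (ℓ : List X) (hℓ : ∀ x, x ∈ ℓ) (v w : X → Word c)
    (h : SameOn {x | x ∈ ℓ} v w) : SameOn Set.univ v w :=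
  ⟨fun x _ y _ => h.1 x (hℓ x) y (hℓ y), fun x _ y _ z _ => h.2 x (hℓ x) y (hℓ y) z (hℓ z)⟩

end XNLN

theorem NLN_pf (hARR : S_ARR) (hSHF : S_SHF) (hSUB : Full.S_SUB) : S_NLN := by
  intro K c σ 𝔅 hI hL
  unfold LIN at hL
  push Not at hL
  obtain ⟨X, hX, T, v₀, z₀, hT, hv₀, hz₀, hna⟩ := hL
  obtain ⟨A1, A2, -, -, -, -⟩ := hARR K c σ 𝔅 hI
  have hndT : T.lvs.Nodup := ((hSHF K c X T).1 v₀ hv₀).1
  have hmir := (hSHF K c X T).2.2.2.2.1
  have hndM : T.mir.lvs.Nodup := by
    rw [(hmir v₀).2]
    exact List.nodup_reverse.2 hndT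
  obtain ⟨-, -, -, -, -, S6⟩ := hSUB X
  obtain ⟨n₁, hn₁⟩ := S6 T hndT
  obtain ⟨n₂, hn₂⟩ := S6 T.mir hndM
  have key : ∀ (Λ : Type) [Finite Λ] (v w : Λ → Word c) (e : X → Λ), Arr 𝔅 v w →
      Sh (fun x => v (e x)) T → CombL w (T.lvs.map e) → False := by
    intro Λ _ v w e ha hs hc
    apply hna
    have h1 : SameOn Set.univ v₀ (fun x => v (e x)) :=
      XNLN.univ_of T.lvs hT _ _ ((hSHF K c X T).2.1 _ _ hv₀ hs)
    have h2 : SameOn Set.univ (fun x => w (e x)) z₀ :=
      XNLN.univ_of T.lvs hT _ _ (XNLN.comb_same _ _ T.lvs (XNLN.combL_map e w _ hc) hz₀)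
    exact ((A1 X _ _ h1).trans (A2 Λ X e v w ha)).trans (A1 X _ _ h2)
  refine ⟨max n₁ n₂, ?_⟩
  intro Λ hΛ y v w hy hs ha
  have Y3 := (hSHF K c Λ y).2.2.2.2.2.1
  have Y4 := (hSHF K c Λ y).2.2.2.2.2.2.1
  constructor
  · intro hc
    obtain ⟨e, he⟩ := hn₁ (max n₁ n₂) (le_max_left _ _) Λ y hy
    apply key Λ v w e ha
    · exact ((hSHF K c X T).2.2.2.1 Λ e v).1 (Y3 _ v he hs)
    · have hsub := Y4 _ he
      rw [XNLN.lvs_map] at hsub
      exact XNLN.combL_sublist w hsub hc
  · intro hc
    obtain ⟨e, he⟩ := hn₂ (max n₁ n₂) (le_max_right _ _) Λ y hy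
    apply key Λ v w e ha
    · have h1 : Sh (fun x => v (e x)) T.mir :=
        ((hSHF K c X T.mir).2.2.2.1 Λ e v).1 (Y3 _ v he hs)
      exact (hmir _).1.1 h1
    · have hsub := Y4 _ he
      rw [XNLN.lvs_map, (hmir v₀).2, List.map_reverse] at hsub
      have hsub2 := List.Sublist.reverse hsub
      rw [List.reverse_reverse] at hsub2
      exact XNLN.combL_sublist w hsub2 hc

end Pool.Agent.Work.MP_8dbde4_lc.FK
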