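import Pool.Agent.Work.MP_8dbde4_lc.FK.Defs

/-!
# The ultrametric of a finite tuple

A tool for facts on few words: after `obtain ⟨d, M, h1, h2, h3, h4, h5⟩ := rank v` all the statements
about equalities and splits of the entries of `v` are inequalities between natural numbers.
-/

set_option autoImplicit false
open Classical

namespace Pool.Agent.Work.MP_8dbde4_lc.FK

open Pool.Agent.Work.MP_8dbde4_lc.TS
open Pool.Agent.Work.MP_8dbde4_lc.Tree (Word Agr Cc)

variable {K : Type} {c : ℚ → K}

/-- Different words have a first place where they differ. -/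
theorem first_diff {x y : Word c} (h : x ≠ y) : ∃ q, Agr x y q ∧ x.1 q ≠ y.1 q := by
  obtain ⟨q, h1, _, _, h2⟩ := cc_self h
  exact ⟨q, h1, h2⟩

/-- The first place where two words differ (`0` for equal words). -/
noncomputable def fd (x y : Word c) : ℚ := if h : x ≠ y then (first_diff h).choose else 0

theorem fd_spec {x y : Word c} (h : x ≠ y) : Agr x y (fd x y) ∧ x.1 (fd x y) ≠ y.1 (fd x y) := by
  unfold fd
  rw [dif_pos h]
  exact (first_diff h).choose_spec

theorem fd_unique {x y : Word c} {q : ℚ} (h1 : Agr x y q) (h2 : x.1 q ≠ y.1 q) : fd x y = q := by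
  have h : x ≠ y := fun h => h2 (by rw [h])
  obtain ⟨h3, h4⟩ := fd_spec h
  rcases lt_trichotomy (fd x y) q with h5 | h5 | h5
  · exact absurd (h1 _ h5) h4
  · exact h5
  · exact absurd (h3 _ h5) h2

theorem fd_symm (x y : Word c) : fd x y = fd y x := by
  by_cases h : x = y
  · rw [h]
  · obtain ⟨h3, h4⟩ := fd_spec h
    exact (fd_unique (fun q hq => (h3 q hq).symm) (Ne.symm h4)).symm

theorem fd_ult {x y z : Word c} (hxy : x ≠ y) (hyz : y ≠ z) (hxz : x ≠ z) :
    fd x y ≤ fd x z ∨ fd y z ≤ fd x z := by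
  by_contra hc
  push Not at hc
  obtain ⟨h1, h2⟩ := fd_spec hxz
  apply h2
  rw [(fd_spec hxy).1 _ hc.1, (fd_spec hyz).1 _ hc.2]

theorem cc_fd {x y z : Word c} (hxy : x ≠ y) (hxz : z ≠ x) : Cc z x y ↔ fd z x < fd x y := by
  constructor
  · rintro ⟨q, h1, h2, h3, h4⟩
    rw [fd_unique h1 h4]
    by_contra hc
    obtain ⟨h5, h6⟩ := fd_spec hxy
    rcases lt_or_eq_of_le (not_lt.1 hc) with h7 | h7
    · exact h6 ((h1 _ h7).symm.trans (h2 _ h7))
    · rw [h7] at h6
      exact h6 h3
  · intro h
    obtain ⟨h1, h2⟩ := fd_spec hxz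
    obtain ⟨h3, _⟩ := fd_spec hxy
    exact ⟨fd z x, h1, fun q hq => (h1 q hq).trans (h3 q (hq.trans h)), h3 _ h, h2⟩

/-- The ultrametric: `d x y` is the rank of the first place where `v x` and `v y` differ, `M` if
`v x = v y`. -/
theorem rank {X : Type} [Finite X] (v : X → Word c) : ∃ (d : X → X → ℕ) (M : ℕ),
    (∀ x y, d x y = d y x) ∧ (∀ x y z, d x y ≤ d x z ∨ d y z ≤ d x z) ∧ (∀ x y, d x y ≤ M) ∧
    (∀ x y, v x = v y ↔ d x y = M) ∧ ∀ x y z, Cc (v z) (v x) (v y) ↔ d z x < d x y := by
  have hfin : (Set.range fun p : X × X => fd (v p.1) (v p.2)).Finite := Set.finite_range _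
  let P : Finset ℚ := hfin.toFinset
  let r : ℚ → ℕ := fun q => (P.filter (fun q' => q' < q)).card
  have hP : ∀ x y, fd (v x) (v y) ∈ P := fun x y => hfin.mem_toFinset.2 ⟨(x, y), rfl⟩
  have hmono : ∀ q q', q ≤ q' → r q ≤ r q' := by
    intro q q' h
    apply Finset.card_le_card
    intro a ha
    rw [Finset.mem_filter] at ha ⊢
    exact ⟨ha.1, lt_of_lt_of_le ha.2 h⟩
  have hstrict : ∀ q ∈ P, ∀ q', q < q' → r q < r q' := by
    intro q hq q' h
    apply Finset.card_lt_card
    rw [Finset.ssubset_iff_of_subset]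
    · refine ⟨q, ?_, ?_⟩
      · rw [Finset.mem_filter]
        exact ⟨hq, h⟩
      · rw [Finset.mem_filter]
        exact fun h1 => lt_irrefl _ h1.2
    · intro a ha
      rw [Finset.mem_filter] at ha ⊢
      exact ⟨ha.1, ha.2.trans h⟩
  have hlt : ∀ x y z t, r (fd (v x) (v y)) < r (fd (v z) (v t)) ↔
      fd (v x) (v y) < fd (v z) (v t) := by
    intro x y z t
    constructor
    · intro h
      by_contra hc
      exact absurd (hmono _ _ (not_lt.1 hc)) (not_le.2 h)
    · exact fun h => hstrict _ (hP x y) _ h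
  have hle : ∀ x y z t, r (fd (v x) (v y)) ≤ r (fd (v z) (v t)) ↔
      fd (v x) (v y) ≤ fd (v z) (v t) := by
    intro x y z t
    rw [← not_lt, hlt, not_lt]
  have hM : ∀ q ∈ P, r q < P.card := by
    intro q hq
    apply Finset.card_lt_card
    rw [Finset.ssubset_iff_of_subset (Finset.filter_subset _ _)]
    exact ⟨q, hq, by rw [Finset.mem_filter]; exact fun h => lt_irrefl _ h.2⟩
  refine ⟨fun x y => if v x = v y then P.card else r (fd (v x) (v y)), P.card, ?_, ?_, ?_, ?_, ?_⟩
  · intro x y
    by_cases h : v x = v y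
    · simp only [h, if_true]
    · simp only [if_neg h, if_neg (Ne.symm h), fd_symm (v x) (v y)]
  · intro x y z
    by_cases h1 : v x = v z
    · left
      simp only [if_pos h1]
      split_ifs
      · exact le_rfl
      · exact (hM _ (hP x y)).le
    · simp only [if_neg h1]
      by_cases h2 : v x = v y
      · right
        have h3 : v y ≠ v z := fun h => h1 (h2.trans h)
        rw [if_neg h3, h2]
      · by_cases h3 : v y = v z
        · left
          rw [if_neg h2, h3]
        · rw [if_neg h2, if_neg h3, hle, hle]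
          exact fd_ult h2 h3 h1
  · intro x y
    dsimp only
    split_ifs
    · exact le_rfl
    · exact (hM _ (hP x y)).le
  · intro x y
    dsimp only
    constructor
    · intro h
      rw [if_pos h]
    · intro h
      by_contra hc
      rw [if_neg hc] at h
      exact absurd h (ne_of_lt (hM _ (hP x y)))
  · intro x y z
    dsimp only
    by_cases h1 : v z = v x
    · rw [if_pos h1, h1]
      constructor
      · exact fun h => absurd h cc_irrefl
      · intro h
        exfalso
        split_ifs at h with h2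
        · exact lt_irrefl _ h
        · exact absurd h (not_lt.2 (hM _ (hP x y)).le)
    · rw [if_neg h1]
      by_cases h2 : v x = v y
      · rw [if_pos h2, ← h2]
        exact ⟨fun _ => hM _ (hP z x), fun _ => cc_self h1⟩
      · rw [if_neg h2, hlt]
        exact cc_fd h2 h1

end Pool.Agent.Work.MP_8dbde4_lc.FK
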