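import Pool.Agent.Work.MP_8dbde4_lc.FK.StmtsB
import Pool.Agent.Work.MP_8dbde4_lc.FK.Rank

/-!
# Item [8dbde4 FK NM]: a point which is not fat can leave a star
-/

set_option autoImplicit false
open Classical

namespace Pool.Agent.Work.MP_8dbde4_lc.FK

open Pool.Agent.Work.MP_8dbde4_lc.TS
open Pool.Agent.Work.MP_8dbde4_lc.Tree (Word Agr Cc)
open Pool.Agent.Work.MP_8dbde4_lc.Phy (PP Hom)
open Pool.Agent.Work.MP_8dbde4_lc.Bra (Same InvU BinOn pull c₂)
open Pool.Agent.Work.MP_8dbde4_lc.Full (Arr NEq Cst0 BT Sub)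
open Pool.Agent.Work.MP_8dbde4_lc.Full.BT

namespace XNM

variable {K : Type} {c : ℚ → K} {σ : Sig} {ω : Prop}

theorem inj3 {Y : Type} {a b d : Y} (h1 : a ≠ b) (h2 : a ≠ d) (h3 : b ≠ d) :
    Function.Injective (![a, b, d] : Fin 3 → Y) := by
  intro i j hij
  fin_cases i <;> fin_cases j
  · rfl
  · exact absurd hij h1
  · exact absurd hij h2
  · exact absurd hij.symm h1
  · rfl
  · exact absurd hij h3
  · exact absurd hij.symm h2
  · exact absurd hij.symm h3
  · rfl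

/-- apply a fat arrow between triples to the points `a, b, d`; all the points except `a` are fat -/
theorem apply (hFAT : S_FAT) (hEXM : S_EXM) {𝔅 : Str σ (Word c)} (hA : AllInv 𝔅)
    (hX : Ext ω 𝔅) (hR : Rg3 ω 𝔅) {v₀ w₀ : Fin 3 → Word c} (hv₀ : Function.Injective v₀)
    (hw₀ : Function.Injective w₀) (hf : Fat ω 𝔅 {1, 2} v₀ w₀) {X : Type} [Finite X]
    (v : X → Word c) (hv : Function.Injective v) (a b d : X) (hab : a ≠ b) (had : a ≠ d)
    (hbd : b ≠ d) (hs : SameOn Set.univ v₀ (fun i => v ((![a, b, d] : Fin 3 → X) i))) :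
    ∃ w : X → Word c, Function.Injective w ∧ w a = w₀ 0 ∧ w b = w₀ 1 ∧ w d = w₀ 2 ∧
      Fat ω 𝔅 {x | x ≠ a} v w ∧ SameOn {x | x ≠ a} v w ∧ Arr 𝔅 v w := by
  have he : Function.Injective (![a, b, d] : Fin 3 → X) := inj3 hab had hbd
  have h1 : Fat ω 𝔅 {1, 2} (fun i => v ((![a, b, d] : Fin 3 → X) i)) w₀ :=
    (hFAT K c σ ω 𝔅 hA (Fin 3) _ v₀ w₀ hv₀ hw₀).2.2.2.2.1 _ _ hs (SameOn.refl _ _) hf
  obtain ⟨w, hw, hww, hfw⟩ := hEXM K c σ ω 𝔅 hA hX (Fin 3) X _ _ v w₀ he hv hw₀ h1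
  have h2 : Fat ω 𝔅 {x | x ≠ a} v w := by
    refine (hFAT K c σ ω 𝔅 hA X _ v w hv hw).2.2.2.1 _ ?_ hfw
    intro x hx i hi
    fin_cases i
    · exact absurd hi.symm hx
    · simp
    · simp
  exact ⟨w, hw, hww 0, hww 1, hww 2, h2, hR X _ v w hv hw h2,
    (hFAT K c σ ω 𝔅 hA X _ v w hv hw).1 h2⟩

theorem st_comp {Y : Type} {v : Y → Word c} {a b d : Y} (h : St (v a) (v b) (v d)) :
    Function.Injective (fun i => v ((![a, b, d] : Fin 3 → Y) i)) := by
  have : (fun i => v ((![a, b, d] : Fin 3 → Y) i)) = ![v a, v b, v d] := by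
    funext k
    fin_cases k <;> rfl
  rw [this]
  exact inj3 h.1 h.2.2.1 h.2.1

theorem same_st (hT : S_TY3) {v₀ : Fin 3 → Word c} (hv₀ : Function.Injective v₀)
    (h₀ : St (v₀ 0) (v₀ 1) (v₀ 2)) {Y : Type} {v : Y → Word c} {a b d : Y}
    (h : St (v a) (v b) (v d)) :
    SameOn Set.univ v₀ (fun i => v ((![a, b, d] : Fin 3 → Y) i)) :=
  (hT K c).1 _ _ hv₀ (st_comp h) h₀ h

/-- splits `2 | 0 1` -/
theorem same_cc (hT : S_TY3) {v₀ : Fin 3 → Word c} (hv₀ : Function.Injective v₀)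
    (h₀ : Cc (v₀ 2) (v₀ 0) (v₀ 1)) {Y : Type} {v : Y → Word c} (hv : Function.Injective v)
    {a b d : Y} (hab : a ≠ b) (h : Cc (v d) (v a) (v b)) :
    SameOn Set.univ v₀ (fun i => v ((![a, b, d] : Fin 3 → Y) i)) := by
  have hp : Function.Injective (![2, 0, 1] : Fin 3 → Fin 3) := by decide
  have hda : d ≠ a := fun h1 => cc_ne h (by rw [h1])
  have hdb : d ≠ b := fun h1 => cc_ne' h (by rw [h1])
  have he : Function.Injective (![a, b, d] : Fin 3 → Y) := inj3 hab hda.symm hdb.symm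
  have h1 := (hT K c).2.1 (fun i => v₀ ((![2, 0, 1] : Fin 3 → Fin 3) i))
    (fun i => v ((![a, b, d] : Fin 3 → Y) ((![2, 0, 1] : Fin 3 → Fin 3) i)))
    (hv₀.comp hp) ((hv.comp he).comp hp) h₀ h
  have h2 := h1.comp (![1, 2, 0] : Fin 3 → Fin 3)
  have h3 : ∀ i : Fin 3, (![2, 0, 1] : Fin 3 → Fin 3) ((![1, 2, 0] : Fin 3 → Fin 3) i) = i := by
    decide
  simpa only [h3] using h2

/-- a point next to a point of a star -/
theorem st_close {t s0 s1 s2 : Word c} (h : St s0 s1 s2) (h1 : Cc s1 t s0) (h2 : Cc s2 t s0) :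
    St t s1 s2 := by
  obtain ⟨a1, a2, a3, a4, a5, a6⟩ := h
  refine ⟨(cc_ne h1).symm, a2, (cc_ne h2).symm, ?_, ?_, ?_⟩
  · intro h3
    exact a4 (cc_trans (cc_symm h2) h3)
  · intro h3
    exact a5 (cc_trans (cc_symm h1) h3)
  · intro h3
    rcases cc_or h3 s0 with h4 | h4
    · exact cc_asymm h1 h4
    · exact a6 h4

/-- Case A, first step -/
theorem stepA (hFAT : S_FAT) (hEXM : S_EXM) (hT : S_TY3) {𝔅 : Str σ (Word c)} (hA : AllInv 𝔅)
    (hK : ∃ a b d : K, a ≠ b ∧ a ≠ d ∧ b ≠ d)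
    (hX : Ext ω 𝔅) (hR : Rg3 ω 𝔅) {v₀ w₀ : Fin 3 → Word c} (hv₀ : Function.Injective v₀)
    (hw₀ : Function.Injective w₀) (hf : Fat ω 𝔅 {1, 2} v₀ w₀) (hs : St (v₀ 0) (v₀ 1) (v₀ 2))
    (hc : Cc (w₀ 0) (w₀ 1) (w₀ 2)) :
    ∃ v w : Fin 3 → Word c, Function.Injective v ∧ Function.Injective w ∧
      Fat ω 𝔅 {1, 2} v w ∧ Cc (v 2) (v 0) (v 1) ∧ Cc (w 0) (w 1) (w 2) := by
  have hK2 : ∃ a b : K, a ≠ b := by
    obtain ⟨a, b, _, h, _⟩ := hK
    exact ⟨a, b, h⟩
  obtain ⟨s, hsi, hst⟩ := (hT K c).2.2.1 hK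
  obtain ⟨t, ht, htc⟩ := (hT K c).2.2.2.2.2 hK2 (Fin 3) s 0
  have h10 : Cc (s 1) t (s 0) := htc 1 fun h => absurd (hsi h) (by decide)
  have h20 : Cc (s 2) t (s 0) := htc 2 fun h => absurd (hsi h) (by decide)
  have hst' : St t (s 1) (s 2) := st_close hst h10 h20
  let v : Option (Fin 3) → Word c := fun o => o.elim t s
  have hti : ∀ i, t ≠ s i := by
    intro i
    fin_cases i
    · exact ht
    · exact (cc_ne h10).symm
    · exact (cc_ne h20).symm
  have hv : Function.Injective v := by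
    intro y y' h
    rcases y with _ | i <;> rcases y' with _ | j
    · rfl
    · exact absurd h (hti j)
    · exact absurd h.symm (hti i)
    · exact congrArg some (hsi h)
  obtain ⟨w, hw, hwa, hwb, hwd, hfw, hsw, _⟩ := apply hFAT hEXM hA hX hR hv₀ hw₀ hf v hv none
    (some 1) (some 2) (by decide) (by decide) (by decide) (same_st hT hv₀ hs hst')
  have hsw' : St (w (some 0)) (w (some 1)) (w (some 2)) :=
    (hsw.st (x := some 0) (y := some 1) (z := some 2) (by simp) (by simp) (by simp)).1 hst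
  have h1 : Cc (w none) (w (some 1)) (w (some 2)) := by
    rw [hwa, hwb, hwd]
    exact hc
  have h2 : Cc (w none) (w (some 1)) (w (some 0)) := by
    rcases cc_or h1 (w (some 0)) with h | h
    · exact h
    · exact absurd h hsw'.2.2.2.2.2
  have hi : Function.Injective (![none, some 0, some 1] : Fin 3 → Option (Fin 3)) := by
    decide
  have h6 := (hFAT K c σ ω 𝔅 hA (Option (Fin 3)) _ v w hv hw).2.2.2.2.2.1 (Fin 3) _ hi hfw
  have h7 := (hFAT K c σ ω 𝔅 hA (Fin 3) _ _ _ (hv.comp hi) (hw.comp hi)).2.2.2.1 {1, 2} (by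
    rintro x (rfl | rfl)
    · simp
    · simp) h6
  exact ⟨_, _, hv.comp hi, hw.comp hi, h7, h10, cc_symm h2⟩

/-- a tuple is binary if the other points are and `none` is in no star -/
theorem bin_of {X : Type} {w : Option X → Word c}
    (h1 : ∀ x y z : X, ¬ St (w (some x)) (w (some y)) (w (some z)))
    (h2 : ∀ x y : X, ¬ St (w none) (w (some x)) (w (some y))) : Bin Set.univ w := by
  intro a _ b _ d _ h
  rcases a with _ | a
  · rcases b with _ | b
    · exact h.1 rfl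
    · rcases d with _ | d
      · exact h.2.2.1 rfl
      · exact h2 b d h
  · rcases b with _ | b
    · rcases d with _ | d
      · exact h.2.1 rfl
      · exact h2 a d h.swap
    · rcases d with _ | d
      · exact h2 a b h.rot.rot
      · exact h1 a b d h

theorem as_iff {X : Type} {v : X → Word c} (hv : Function.Injective v) {a b d : X} :
    AS (fun z x y => Cc (v z) (v x) (v y)) a b d ↔ St (v a) (v b) (v d) := by
  unfold AS St
  rw [hv.ne_iff, hv.ne_iff, hv.ne_iff]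

theorem crel {X : Type} {v : X → Word c} (hv : Function.Injective v) :
    CRel (fun z x y => Cc (v z) (v x) (v y)) where
  symm := fun _ _ _ h => cc_symm h
  asymm := fun _ _ _ h => cc_asymm h
  or := fun _ _ _ w h => cc_or h (v w)
  self := fun _ _ h => cc_self (hv.ne h)

/-- Case A -/
theorem caseA (hFAT : S_FAT) (hEXM : S_EXM) (hT : S_TY3) {𝔅 : Str σ (Word c)} (hA : AllInv 𝔅)
    (hK : ∃ a b d : K, a ≠ b ∧ a ≠ d ∧ b ≠ d)
    (hX : Ext ω 𝔅) (hR : Rg3 ω 𝔅) {v₀ w₀ : Fin 3 → Word c} (hv₀ : Function.Injective v₀)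
    (hw₀ : Function.Injective w₀) (hf : Fat ω 𝔅 {1, 2} v₀ w₀) (hs : St (v₀ 0) (v₀ 1) (v₀ 2))
    (hc : Cc (w₀ 0) (w₀ 1) (w₀ 2)) (X : Type) [Finite X] (v : Option X → Word c)
    (hv : Function.Injective v) (hb : Bin Set.univ (fun x => v (some x))) :
    ∃ w : Option X → Word c, Function.Injective w ∧ Arr 𝔅 v w ∧ Bin Set.univ w := by
  obtain ⟨v₁, w₁, hv₁, hw₁, hf₁, hc₁, hd₁⟩ := stepA hFAT hEXM hT hA hK hX hR hv₀ hw₀ hf hs hc
  have hb' : ∀ x y z : X, ¬ St (v (some x)) (v (some y)) (v (some z)) := fun x y z =>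
    hb x trivial y trivial z trivial
  by_cases hsub : ∀ x y : X, x = y
  · refine ⟨v, hv, Arr.refl 𝔅 v, bin_of hb' ?_⟩
    intro x y h
    exact h.2.1 (by rw [hsub x y])
  · push Not at hsub
    obtain ⟨x₀, y₀, hxy₀⟩ := hsub
    obtain ⟨δ, M, h1, h2, h3, h4, h5⟩ := rank v
    have : Nonempty {p : X × X // p.1 ≠ p.2} := ⟨⟨(x₀, y₀), hxy₀⟩⟩
    obtain ⟨⟨⟨x, y⟩, hxy⟩, hmin⟩ := Finite.exists_min
      (fun p : {p : X × X // p.1 ≠ p.2} => δ (some p.1.1) (some p.1.2))
    have hno : ∀ t : X, ¬ Cc (v (some t)) (v (some x)) (v (some y)) := by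
      intro t ht
      have htx : t ≠ x := fun h => cc_ne ht (by rw [h])
      have h6 := hmin ⟨(t, x), htx⟩
      have h7 := (h5 _ _ _).1 ht
      exact absurd h7 (not_lt.2 h6)
    have hxy' : x ≠ y := hxy
    have hnx : (none : Option X) ≠ some x := by simp
    have hny : (none : Option X) ≠ some y := by simp
    have hxys : (some x : Option X) ≠ some y := fun h => hxy' (Option.some.inj h)
    have key : ∃ w : Option X → Word c, Function.Injective w ∧ Arr 𝔅 v w ∧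
        SameOn {o | o ≠ none} v w ∧ Cc (w none) (w (some x)) (w (some y)) := by
      rcases cc_tri (hv.ne hnx) (hv.ne hny) (hv.ne hxys) with h | h | h | h
      · exact ⟨v, hv, Arr.refl 𝔅 v, SameOn.refl _ v, h⟩
      · obtain ⟨w, hw, e0, e1, e2, _, hsw, harr⟩ := apply hFAT hEXM hA hX hR hv₁ hw₁ hf₁ v hv none
          (some y) (some x) hny hnx hxys.symm (same_cc hT hv₁ hc₁ hv hny h)
        refine ⟨w, hw, harr, hsw, ?_⟩
        rw [e0, e1, e2]
        exact cc_symm hd₁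
      · obtain ⟨w, hw, e0, e1, e2, _, hsw, harr⟩ := apply hFAT hEXM hA hX hR hv₁ hw₁ hf₁ v hv none
          (some x) (some y) hnx hny hxys (same_cc hT hv₁ hc₁ hv hnx h)
        refine ⟨w, hw, harr, hsw, ?_⟩
        rw [e0, e1, e2]
        exact hd₁
      · obtain ⟨w, hw, e0, e1, e2, _, hsw, harr⟩ := apply hFAT hEXM hA hX hR hv₀ hw₀ hf v hv none
          (some x) (some y) hnx hny hxys (same_st hT hv₀ hs h)
        refine ⟨w, hw, harr, hsw, ?_⟩
        rw [e0, e1, e2]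
        exact hc
    obtain ⟨w, hw, harr, hsw, hcw⟩ := key
    refine ⟨w, hw, harr, bin_of ?_ ?_⟩
    · intro a b d h
      exact hb' a b d ((hsw.st (x := some a) (y := some b) (z := some d) (by simp) (by simp)
        (by simp)).2 h)
    · intro s t h
      have h6 : ∀ t : X, Cc (w none) (w (some x)) (w (some t)) := by
        intro t
        rcases cc_or hcw (w (some t)) with h7 | h7
        · exact h7
        · exact absurd ((hsw.2 (some x) (by simp) (some y) (by simp) (some t) (by simp)).2 h7)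
            (hno t)
      exact h.2.2.2.2.2 (cc_trans (cc_symm (h6 s)) (h6 t))

/-- Case B -/
theorem caseB (hFAT : S_FAT) (hEXM : S_EXM) (hT : S_TY3) (hM : S_MOVE) {𝔅 : Str σ (Word c)}
    (hA : AllInv 𝔅) (hX : Ext ω 𝔅) (hR : Rg3 ω 𝔅) {v₀ w₀ : Fin 3 → Word c}
    (hv₀ : Function.Injective v₀) (hw₀ : Function.Injective w₀) (hf : Fat ω 𝔅 {1, 2} v₀ w₀)
    (hs : St (v₀ 0) (v₀ 1) (v₀ 2)) (hc : Cc (w₀ 2) (w₀ 0) (w₀ 1)) (X : Type) [Finite X] :
    ∀ (n : ℕ) (v : Option X → Word c), {s : X | ∃ t : X, St (v none) (v (some s))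
      (v (some t))}.ncard = n → Function.Injective v → Bin Set.univ (fun x => v (some x)) →
    ∃ w : Option X → Word c, Function.Injective w ∧ Arr 𝔅 v w ∧ Bin Set.univ w := by
  intro n
  induction n using Nat.strong_induction_on with
  | _ n ih =>
    intro v hn hv hb
    have hb' : ∀ x y z : X, ¬ St (v (some x)) (v (some y)) (v (some z)) := fun x y z =>
      hb x trivial y trivial z trivial
    by_cases hex : ∃ x y : X, St (v none) (v (some x)) (v (some y))
    · obtain ⟨x, y, hxy⟩ := hex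
      have hnx : (none : Option X) ≠ some x := by simp
      have hny : (none : Option X) ≠ some y := by simp
      have hxys : (some x : Option X) ≠ some y := fun h => hxy.2.1 (by rw [h])
      obtain ⟨w, hw, e0, e1, e2, _, hsw, harr⟩ := apply hFAT hEXM hA hX hR hv₀ hw₀ hf v hv none
        (some x) (some y) hnx hny hxys (same_st hT hv₀ hs hxy)
      have hcw : Cc (w (some y)) (w none) (w (some x)) := by
        rw [e0, e1, e2]
        exact hc
      have hsub := hM X (fun z x y => Cc (v z) (v x) (v y)) (fun z x y => Cc (w z) (w x) (w y))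
        (crel hv) (crel hw)
        (fun x y z => hsw.2 (some x) (by simp) (some y) (by simp) (some z) (by simp))
        (fun x y z h => hb' x y z ((as_iff hv).1 h)) x y ((as_iff hv).2 hxy) hcw
      simp only [as_iff hv, as_iff hw] at hsub
      have hlt := Set.ncard_lt_ncard hsub (Set.toFinite _)
      rw [hn] at hlt
      obtain ⟨w', hw', harr', hbw'⟩ := ih _ hlt w rfl hw (by
        intro a _ b _ d _ h
        exact hb' a b d ((hsw.st (x := some a) (y := some b) (z := some d) (by simp) (by simp)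
          (by simp)).2 h))
      exact ⟨w', hw', harr.trans harr', hbw'⟩
    · push Not at hex
      exact ⟨v, hv, Arr.refl 𝔅 v, bin_of hb' hex⟩

end XNM

open XNM in
theorem NM_pf (_h1 : S_ARR) (h2 : S_FAT) (h3 : S_EXM) (h4 : S_TY3) (h5 : S_IND) (h6 : S_MOVE) :
    S_NM := by
  intro K c σ ω 𝔅 hK hA hN hX hR hex
  obtain ⟨v₀, w₀, hv₀, hw₀, hf, hs, hns⟩ := hex
  have d01 : w₀ 0 ≠ w₀ 1 := hw₀.ne (by decide)
  have d02 : w₀ 0 ≠ w₀ 2 := hw₀.ne (by decide)
  have d12 : w₀ 1 ≠ w₀ 2 := hw₀.ne (by decide)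
  refine (h5 K c σ 𝔅 hA hN).1 ?_
  intro X _ v hv hb
  rcases cc_tri d01 d02 d12 with h | h | h | h
  · exact caseA h2 h3 h4 hA hK hX hR hv₀ hw₀ hf hs h X v hv hb
  · have hp : Function.Injective (![0, 2, 1] : Fin 3 → Fin 3) := by decide
    have h7 := (h2 K c σ ω 𝔅 hA (Fin 3) _ v₀ w₀ hv₀ hw₀).2.2.2.2.2.1 (Fin 3) _ hp hf
    have h8 := (h2 K c σ ω 𝔅 hA (Fin 3) _ _ _ (hv₀.comp hp) (hw₀.comp hp)).2.2.2.1 {1, 2} (by
      rintro x (rfl | rfl)
      · simp
      · simp) h7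
    exact caseB h2 h3 h4 h6 hA hX hR (hv₀.comp hp) (hw₀.comp hp) h8 hs.rot.swap.rot.rot h X _ v rfl
      hv hb
  · exact caseB h2 h3 h4 h6 hA hX hR hv₀ hw₀ hf hs h X _ v rfl hv hb
  · exact absurd h hns

end Pool.Agent.Work.MP_8dbde4_lc.FK
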