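import Pool.Agent.Work.MP_8dbde4_lc.FK.I_NM

/-!
Item NR of the block FK of MP_8dbde4_lc: points cannot leave stars.
-/

set_option autoImplicit false
open Classical

namespace Pool.Agent.Work.MP_8dbde4_lc.FK

open Pool.Agent.Work.MP_8dbde4_lc.TS
open Pool.Agent.Work.MP_8dbde4_lc.Tree (Word Agr Cc)
open Pool.Agent.Work.MP_8dbde4_lc.Phy (PP Hom)
open Pool.Agent.Work.MP_8dbde4_lc.Full (Arr NEq)

namespace XNR

open XNM

variable {K : Type} {c : ℚ → K} {σ : Sig} {ω : Prop}

/-- stars through the point which is not fat are preserved -/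
theorem keep (hFAT : S_FAT) {𝔅 : Str σ (Word c)} (hA : AllInv 𝔅)
    (hm : ¬ ∃ v w : Fin 3 → Word c, Function.Injective v ∧ Function.Injective w ∧
      Fat ω 𝔅 {1, 2} v w ∧ St (v 0) (v 1) (v 2) ∧ ¬ St (w 0) (w 1) (w 2))
    {X : Type} [Finite X] {v w : X → Word c} (hv : Function.Injective v)
    (hw : Function.Injective w) {a : X} (hf : Fat ω 𝔅 {x | x ≠ a} v w) {b d : X}
    (hs : St (v a) (v b) (v d)) : St (w a) (w b) (w d) := by
  by_contra hn
  have hab : a ≠ b := fun h => hs.1 (by rw [h])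
  have had : a ≠ d := fun h => hs.2.2.1 (by rw [h])
  have hbd : b ≠ d := fun h => hs.2.1 (by rw [h])
  have hi : Function.Injective (![a, b, d] : Fin 3 → X) := inj3 hab had hbd
  have h6 := (hFAT K c σ ω 𝔅 hA X _ v w hv hw).2.2.2.2.2.1 (Fin 3) _ hi hf
  have h7 := (hFAT K c σ ω 𝔅 hA (Fin 3) _ _ _ (hv.comp hi) (hw.comp hi)).2.2.2.1 {1, 2} (by
    rintro x (rfl | rfl)
    · exact hab.symm
    · exact had.symm) h6
  exact hm ⟨_, _, hv.comp hi, hw.comp hi, h7, hs, hn⟩

end XNR

open XNM XNR in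
theorem NR_pf (h1 : S_FAT) (h2 : S_EXM) (h3 : S_TY3) (h4 : S_ITR) : S_NR := by
  intro K c σ ω 𝔅 hK hA _ hX hR hex hm
  obtain ⟨v₀, w₀, hv₀, hw₀, hf, hc, hnc⟩ := hex
  have hK2 : ∃ a b : K, a ≠ b := by
    obtain ⟨a, b, _, h, _⟩ := hK
    exact ⟨a, b, h⟩
  have d01 : w₀ 0 ≠ w₀ 1 := hw₀.ne (by decide)
  have d02 : w₀ 0 ≠ w₀ 2 := hw₀.ne (by decide)
  have d12 : w₀ 1 ≠ w₀ 2 := hw₀.ne (by decide)
  have hst : St (w₀ 0) (w₀ 1) (w₀ 2) := by
    obtain ⟨s, hsi, hst⟩ := (h3 K c).2.2.1 hK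
    obtain ⟨t, ht, htc⟩ := (h3 K c).2.2.2.2.2 hK2 (Fin 3) s 0
    have h10 : Cc (s 1) t (s 0) := htc 1 fun h => absurd (hsi h) (by decide)
    have h20 : Cc (s 2) t (s 0) := htc 2 fun h => absurd (hsi h) (by decide)
    have hst' : St t (s 1) (s 2) := st_close hst h10 h20
    let v : Option (Fin 3) → Word c := fun o => o.elim t s
    have hti : ∀ i, t ≠ s i := by
      intro i
      fin_cases i
      · exact ht
      · exact (cc_ne h10).symm
      · exact (cc_ne h20).symm
    have hv : Function.Injective v := by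
      intro y y' h
      rcases y with _ | i <;> rcases y' with _ | j
      · rfl
      · exact absurd h (hti j)
      · exact absurd h.symm (hti i)
      · exact congrArg some (hsi h)
    obtain ⟨w, hw, hwa, hwb, hwd, hfw, hsw, _⟩ := apply h1 h2 hA hX hR hv₀ hw₀ hf v hv none
      (some 0) (some 1) (by decide) (by decide) (by decide)
      (same_cc h3 hv₀ hc hv (by decide) h10)
    have hsw' : St (w (some 0)) (w (some 1)) (w (some 2)) :=
      (hsw.st (x := some 0) (y := some 1) (z := some 2) (by simp) (by simp) (by simp)).1 hst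
    have hk : St (w none) (w (some 1)) (w (some 2)) := keep h1 hA hm hv hw hfw hst'
    rcases cc_tri d01 d02 d12 with h | h | h | h
    · rw [← hwa, ← hwb, ← hwd] at h
      rcases cc_or (cc_symm h) (w (some 2)) with h' | h'
      · exact absurd h' hk.2.2.2.2.2
      · exact absurd (cc_symm h') hsw'.2.2.2.1
    · rw [← hwa, ← hwb, ← hwd] at h
      rcases cc_or (cc_symm h) (w (some 2)) with h' | h'
      · exact absurd h' hsw'.2.2.2.2.2
      · exact absurd (cc_symm h') hk.2.2.2.1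
    · exact absurd h hnc
    · exact h
  refine (h4 K c σ 𝔅).2.1 ?_
  intro X _ v hv hns
  have hxyz : ∃ x y z, Cc (v z) (v x) (v y) ∧ v x ≠ v y := by
    by_contra hcon
    apply hns
    intro x y z h
    by_contra hne
    exact hcon ⟨x, y, z, h, hne⟩
  obtain ⟨x, y, z, hcc, hxy⟩ := hxyz
  have hxy' : x ≠ y := fun h => hxy (by rw [h])
  have hzx : x ≠ z := fun h => cc_ne hcc (by rw [h])
  have hzy : y ≠ z := fun h => cc_ne' hcc (by rw [h])
  obtain ⟨w, hw, e0, e1, e2, hfw, hsw, harr⟩ := apply h1 h2 hA hX hR hv₀ hw₀ hf v hv x y z hxy'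
    hzx hzy (same_cc h3 hv₀ hc hv hxy' hcc)
  refine ⟨w, hw, harr, ?_, x, y, z, ?_, fun h => h.2.2.2.1 hcc⟩
  · intro a b d h
    by_cases ha : a = x
    · subst ha
      exact keep h1 hA hm hv hw hfw h
    · by_cases hb : b = x
      · subst hb
        exact (keep h1 hA hm hv hw hfw h.swap).swap
      · by_cases hd : d = x
        · subst hd
          exact (keep h1 hA hm hv hw hfw h.rot.rot).rot
        · exact (hsw.st ha hb hd).1 h
  · rw [e0, e1, e2]
    exact hst

end Pool.Agent.Work.MP_8dbde4_lc.FK
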