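import Pool.Agent.Work.MP_8dbde4_lc.FK.StmtsE

set_option autoImplicit false
open Classical

namespace Pool.Agent.Work.MP_8dbde4_lc.FK

open Pool.Agent.Work.MP_8dbde4_lc.TS
open Pool.Agent.Work.MP_8dbde4_lc.Tree (Word Agr Cc)
open Pool.Agent.Work.MP_8dbde4_lc.Phy (PP Hom)
open Pool.Agent.Work.MP_8dbde4_lc.Bra (Same InvU BinOn pull c₂)
open Pool.Agent.Work.MP_8dbde4_lc.Full (Arr NEq Cst0 BT Sub)

theorem RPS_pf : S_RPS := by
  intro hPPB σ B 𝔅 X X₀ _ _ S v p s w₀ hS hv hps hA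
  have hPP : PP 𝔅 (fun u : X₀ → B => S (fun x => u (p x))) :=
    (hPPB σ B 𝔅).2.2.1 X X₀ S p hS
  refine hA _ hPP ?_
  have : (fun x => v (s (p x))) = v := funext hps
  show S (fun x => v (s (p x)))
  rw [this]
  exact hv

namespace XPOS

/-- Representatives of the classes of the equal entries. -/
theorem reps {X B : Type} [Finite X] (v : X → B) : ∃ (X₀ : Type) (_ : Finite X₀) (p : X → X₀)
    (s : X₀ → X), (∀ x, v (s (p x)) = v x) ∧ Function.Injective (fun a => v (s a)) := by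
  refine ⟨Set.range v, inferInstance, fun x => ⟨v x, x, rfl⟩, fun a => a.2.choose, ?_, ?_⟩
  · intro x
    exact (⟨v x, x, rfl⟩ : Set.range v).2.choose_spec
  · intro a b hab
    have h1 : v a.2.choose = a.1 := a.2.choose_spec
    have h2 : v b.2.choose = b.1 := b.2.choose_spec
    apply Subtype.ext
    rw [← h1, ← h2]
    exact hab

end XPOS

theorem BBM_pf : S_BBM := by
  intro hR hPPB K c σ 𝔅 hBB X _ S hS hex
  obtain ⟨v, hv⟩ := hex
  obtain ⟨X₀, hX₀, p, s, hps, hinj⟩ := XPOS.reps v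
  obtain ⟨w₀, hw1, hw2, hw3⟩ := hBB X₀ (fun a => v (s a)) hinj
  refine ⟨fun x => w₀ (p x), hR hPPB σ (Word c) 𝔅 X X₀ S v p s w₀ hS hv hps hw2, ?_⟩
  rw [bin_iff]
  intro x _ y _ z _
  exact hw3 (p x) trivial (p y) trivial (p z) trivial

theorem SSM_pf : S_SSM := by
  intro hR hPPB hARR K c σ 𝔅 hinv hSS X _ S hS v z hv hz hvz
  obtain ⟨X₀, hX₀, p, s, hps, hinj⟩ := XPOS.reps v
  obtain ⟨w₀, hw1, hw2, hw3⟩ := hSS X₀ (fun a => v (s a)) hinj
  have hz0 : Function.Injective (fun a => z (s a)) := by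
    intro a b hab
    exact hinj ((hvz _ _).1 hab)
  have hsame : SameOn Set.univ w₀ (fun a => z (s a)) := by
    refine ⟨fun i _ j _ => ⟨fun h => ?_, fun h => ?_⟩, fun i _ j _ k _ => ⟨fun h => ?_, fun h => ?_⟩⟩
    · rw [hw1 h]
    · rw [hz0 h]
    · have h1 : i = j := hw1 (hw3 _ _ _ h)
      subst h1
      have h2 : k ≠ i := fun h3 => cc_ne h (by rw [h3])
      exact cc_self (fun h3 => h2 (hz0 h3))
    · have h1 : i = j := hz0 (hz _ _ _ h)
      subst h1
      have h2 : k ≠ i := fun h3 => cc_ne h (by rw [h3])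
      exact cc_self (fun h3 => h2 (hw1 h3))
  have hA : Arr 𝔅 w₀ (fun a => z (s a)) := (hARR K c σ 𝔅 hinv).1 X₀ _ _ hsame
  have h := hR hPPB σ (Word c) 𝔅 X X₀ S v p s (fun a => z (s a)) hS hv hps (hw2.trans hA)
  have he : (fun x => z (s (p x))) = z := by
    funext x
    exact (hvz _ _).2 (hps x)
  have h' : S (fun x => z (s (p x))) := h
  rw [he] at h'
  exact h'

end Pool.Agent.Work.MP_8dbde4_lc.FK
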