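import Pool.Agent.Work.MP_8dbde4_lc.FK.StmtsB

/-!
Block FK of MP_8dbde4_lc, item QFA: facts on quartets of words.
-/

set_option autoImplicit false
open Classical

namespace Pool.Agent.Work.MP_8dbde4_lc.FK

open Pool.Agent.Work.MP_8dbde4_lc.TS
open Pool.Agent.Work.MP_8dbde4_lc.Tree (Word Agr Cc)

namespace XQFA

variable {K : Type} {c : ℚ → K}

theorem one (x y z t : Word c) : (Qr x y z t → Qr y x z t) ∧ (Qr x y z t → Qr z t x y) ∧
    (Qr x y z t → x ≠ y ∧ x ≠ z ∧ x ≠ t ∧ y ≠ z ∧ y ≠ t ∧ z ≠ t) := by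
  refine ⟨?_, ?_, ?_⟩
  · rintro ⟨h1, h2, h⟩
    refine ⟨h1.symm, h2, ?_⟩
    rcases h with h | h
    · exact Or.inl ⟨cc_symm h.1, cc_symm h.2⟩
    · exact Or.inr ⟨h.2, h.1⟩
  · rintro ⟨h1, h2, h⟩
    exact ⟨h2, h1, h.symm⟩
  · rintro ⟨h1, h2, h⟩
    rcases h with h | h
    · exact ⟨h1, (cc_ne h.1).symm, (cc_ne h.2).symm, (cc_ne' h.1).symm, (cc_ne' h.2).symm, h2⟩
    · exact ⟨h1, cc_ne h.1, cc_ne' h.1, cc_ne h.2, cc_ne' h.2, h2⟩

theorem un {x y z t : Word c} : ¬ (Qr x y z t ∧ Qr x z y t) := by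
  rintro ⟨⟨-, -, h1 | h1⟩, -, -, h2 | h2⟩
  · exact cc_asymm (cc_symm h1.1) (cc_symm h2.1)
  · exact cc_asymm h1.2 (cc_symm h2.1)
  · exact cc_asymm (cc_symm h1.1) h2.2
  · exact cc_asymm h1.2 h2.2

/-- a further point is on one of the two sides -/
theorem tr {a b x y : Word c} (f : Word c) (h : Qr a b x y) (ha : a ≠ f) (hb : b ≠ f)
    (hx : x ≠ f) (hy : y ≠ f) :
    (Qr a b x f ∧ Qr a b y f) ∨ (Qr a f x y ∧ Qr b f x y) := by
  obtain ⟨h1, h2, h | h⟩ := h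
  · by_cases hc : Cc f a b
    · exact Or.inl ⟨⟨h1, hx, Or.inl ⟨h.1, hc⟩⟩, ⟨h1, hy, Or.inl ⟨h.2, hc⟩⟩⟩
    · have k1 : Cc x a f := (cc_or h.1 f).resolve_right hc
      have k2 : Cc y a f := (cc_or h.2 f).resolve_right hc
      exact Or.inr ⟨⟨ha, h2, Or.inl ⟨k1, k2⟩⟩, ⟨hb, h2, Or.inl ⟨cc_trans (cc_symm h.1) k1,
        cc_trans (cc_symm h.2) k2⟩⟩⟩
  · by_cases hc : Cc f x y
    · exact Or.inr ⟨⟨ha, h2, Or.inr ⟨h.1, hc⟩⟩, ⟨hb, h2, Or.inr ⟨h.2, hc⟩⟩⟩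
    · have k1 : Cc a x f := (cc_or h.1 f).resolve_right hc
      have k2 : Cc b x f := (cc_or h.2 f).resolve_right hc
      exact Or.inl ⟨⟨h1, hx, Or.inr ⟨k1, k2⟩⟩, ⟨h1, hy, Or.inr ⟨cc_trans (cc_symm h.1) k1,
        cc_trans (cc_symm h.2) k2⟩⟩⟩

theorem s1 {a b e d : Word c} : Qr a b e d → Qr b a e d := (one a b e d).1

theorem s2 {a b e d : Word c} : Qr a b e d → Qr e d a b := (one a b e d).2.1

theorem s3 {a b e d : Word c} (h : Qr a b e d) : Qr a b d e := s2 (s1 (s2 h))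

theorem five {x y z t w : Word c} (h : Qr x y z t) (hx : w ≠ x) (hy : w ≠ y) (hz : w ≠ z)
    (ht : w ≠ t) : Qr w y z t ∨ Qr x y z w := by
  rcases tr w h hx.symm hy.symm hz.symm ht.symm with k | k
  · exact Or.inr k.1
  · exact Or.inl (s1 k.2)

theorem three {a f b₁ b₂ b₃ : Word c} (haf : a ≠ f) (h : Qr a b₁ b₂ b₃)
    (hn : ¬ Qr f b₁ b₂ b₃) (h1 : f ≠ b₁) (h2 : f ≠ b₂) (h3 : f ≠ b₃) :
    ¬ Qr a f b₁ b₂ ∧ ¬ Qr a f b₁ b₃ ∧ ¬ Qr a f b₂ b₃ := by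
  rcases tr f h haf h1.symm h2.symm h3.symm with k | k
  · refine ⟨fun q => un ⟨s3 k.1, q⟩, fun q => un ⟨s3 k.2, q⟩, fun q => ?_⟩
    obtain ⟨-, -, -, d1, d2, d3⟩ := (one a b₁ b₂ b₃).2.2 h
    have d0 : a ≠ b₁ := h.1
    rcases tr b₁ q d0 h1 d1.symm d2.symm with l | l
    · exact un ⟨s3 l.1, s3 k.1⟩
    · exact hn l.2
  · exact absurd (s1 k.2) hn

theorem crel {X : Type} (s : Word c) (v : X → Word c) (hv : Function.Injective v)
    (hs : ∀ x, v x ≠ s) : CRel (Rt s v) := by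
  constructor
  · rintro z x y (⟨h1, h2⟩ | h)
    · exact Or.inl ⟨h1.symm, h1 ▸ h2⟩
    · exact Or.inr (s3 h)
  · rintro z x y (⟨h1, h2⟩ | h) (⟨h3, h4⟩ | h')
    · exact h2 (h3.trans h1.symm)
    · exact ((one _ _ _ _).2.2 h').2.2.2.2.1 (congrArg v h1)
    · exact ((one _ _ _ _).2.2 h).2.2.2.2.1 (congrArg v h3)
    · exact un ⟨h, h'⟩
  · rintro z x y w (⟨h1, h2⟩ | h)
    · by_cases hw : w = x
      · exact Or.inl (Or.inl ⟨hw.symm, h2⟩)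
      · exact Or.inr (Or.inl ⟨h1, hw⟩)
    · by_cases hwx : w = x
      · refine Or.inl (Or.inl ⟨hwx.symm, fun hzx => ?_⟩)
        exact ((one _ _ _ _).2.2 h).2.2.2.1 (congrArg v hzx)
      · by_cases hwy : w = y
        · exact Or.inl (Or.inr (hwy ▸ h))
        · by_cases hwz : w = z
          · exact Or.inr (Or.inr (hwz ▸ h))
          · rcases tr (v w) h (hs w).symm (fun e => hwz (hv e).symm) (fun e => hwx (hv e).symm)
              (fun e => hwy (hv e).symm) with k | k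
            · exact Or.inl (Or.inr k.1)
            · exact Or.inr (Or.inr k.1)
  · exact fun z x h => Or.inl ⟨rfl, h⟩

theorem top {s z x y : Word c} (hxy : x ≠ y) (h1 : Cc s z x) (h2 : Cc s x y) :
    Qr s z x y ↔ Cc z x y := by
  constructor
  · rintro ⟨-, -, h | h⟩
    · exact absurd h.1 (cc_asymm (cc_symm h1))
    · exact h.2
  · exact fun h => ⟨cc_ne h1, hxy, Or.inr ⟨h2, h⟩⟩

theorem xr1 {x y z t : Word c} (h : Xr x y z t) : Xr y x z t :=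
  ⟨h.1.symm, h.2.2.2.1, h.2.2.2.2.1, h.2.1, h.2.2.1, h.2.2.2.2.2.1,
    fun q => h.2.2.2.2.2.2.1 (s1 q), fun q => h.2.2.2.2.2.2.2.2 (s2 q),
    fun q => h.2.2.2.2.2.2.2.1 (s2 q)⟩

theorem xr2 {x y z t : Word c} (h : Xr x y z t) : Xr y z t x :=
  ⟨h.2.2.2.1, h.2.2.2.2.1, h.1.symm, h.2.2.2.2.2.1, h.2.1.symm, h.2.2.1.symm,
    fun q => h.2.2.2.2.2.2.2.2 (s2 (s3 q)), fun q => h.2.2.2.2.2.2.2.1 (s2 (s3 q)),
    fun q => h.2.2.2.2.2.2.1 (s1 q)⟩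

theorem xr3 {x y z t : Word c} (h : Xr x y z t) : Xr x z y t := xr2 (xr2 (xr2 (xr1 (xr2 h))))

theorem xr4 {x y z t : Word c} (h : Xr x y z t) : Xr x y t z := xr2 (xr2 (xr1 (xr2 (xr2 h))))

theorem seven {s z x y a : Word c} (h1 : Xr s x y a) (h2 : Xr z x y a) : ¬ Qr s x z y := by
  intro h
  have d := (one _ _ _ _).2.2 h
  obtain ⟨hsx, hsy, hsa, hxy, hxa, hya, n1, n2, n3⟩ := h1
  obtain ⟨hzx, hzy, hza, -, -, -, m1, m2, m3⟩ := h2
  rcases five h hsa.symm hxa.symm hza.symm hya.symm with k | k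
  · exact m2 (s3 (s2 k))
  · rcases five (s2 k) hzy.symm hya hsy.symm hxy.symm with l | l
    · exact n1 (s2 l)
    · rcases five (s2 l) hsx.symm hxy hzx.symm hxa with p | p
      · exact m3 (s2 p)
      · exact un ⟨s3 h, s3 p⟩

theorem eight {a b₁ b₂ b₃ b₄ : Word c} (h : a ≠ b₄) (h1 : Xr b₁ b₂ b₃ b₄) (h2 : Qr a b₂ b₁ b₃) :
    Qr a b₂ b₃ b₄ := by
  obtain ⟨d12, d13, d14, d23, d24, d34, n1, n2, n3⟩ := h1
  rcases five (s3 h2) h.symm d24.symm d34.symm d14.symm with k | k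
  · exact absurd (s3 (s1 (s2 k))) n2
  · exact k

theorem nine0 {a r s t u : Word c} (har : a ≠ r) (hrt : r ≠ t) (hru : r ≠ u) (h : Xr a s t u)
    (h1 : Qr r s t u) : Xr a r t u := by
  obtain ⟨has, hat, hau, hst, hsu, htu, n1, n2, n3⟩ := h
  have hrs : r ≠ s := h1.1
  have hA : Qr r s t a := by
    rcases tr a h1 har.symm has.symm hat.symm hau.symm with k | k
    · exact k.1
    · exact absurd (s1 k.2) n1
  refine ⟨har, hat, hau, hrt, hru, htu, fun q => ?_, fun q => ?_, fun q => ?_⟩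
  · rcases tr s q has hrs hst.symm hsu.symm with k | k
    · exact un ⟨s3 hA, s3 (s1 k.1)⟩
    · exact n1 k.1
  · rcases tr s q has hst.symm hrs hsu.symm with k | k
    · exact n2 (s3 k.2)
    · exact un ⟨s1 h1, s1 k.2⟩
  · rcases tr s q has hsu.symm hrs hst.symm with k | k
    · exact n3 (s3 k.2)
    · exact un ⟨s3 (s1 h1), s1 k.2⟩

theorem nine {a r s t u : Word c} (har : a ≠ r) (hrs : r ≠ s) (hrt : r ≠ t) (hru : r ≠ u)
    (h : Xr a s t u) (h1 : ¬ Xr r s t u) : Xr a r t u ∨ Xr a s r u ∨ Xr a s t r := by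
  have hst := h.2.2.2.1
  have hsu := h.2.2.2.2.1
  have htu := h.2.2.2.2.2.1
  by_cases k1 : Qr r s t u
  · exact Or.inl (nine0 har hrt hru h k1)
  · by_cases k2 : Qr r t s u
    · right; left
      exact xr3 (nine0 har hrs hru (xr3 h) k2)
    · by_cases k3 : Qr r u s t
      · right; right
        exact xr4 (xr3 (nine0 har hrs hrt (xr3 (xr4 h)) k3))
      · exact absurd ⟨hrs, hrt, hru, hst, hsu, htu, k1, k2, k3⟩ h1

end XQFA

theorem QFA_pf : S_QFA := by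
  intro K c
  refine ⟨XQFA.one, fun x y z t => XQFA.un, fun x y z t w h h1 h2 h3 h4 => XQFA.five h h1 h2 h3 h4,
    fun X s v hv hs => XQFA.crel s v hv hs, fun s z x y _ h2 _ h4 h5 _ => XQFA.top h2 h4 h5,
    fun a f b₁ b₂ b₃ h1 h2 h3 h4 h5 h6 => XQFA.three h1 h2 h3 h4 h5 h6,
    fun s z x y a h1 h2 => XQFA.seven h1 h2, fun a b₁ b₂ b₃ b₄ h1 h2 h3 => XQFA.eight h1 h2 h3,
    fun a r s t u h1 h2 h3 h4 h5 h6 => XQFA.nine h1 h2 h3 h4 h5 h6,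
    fun x y z t => ⟨XQFA.xr1, XQFA.xr2⟩⟩

end Pool.Agent.Work.MP_8dbde4_lc.FK
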