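import Pool.Agent.Work.MP_8dbde4_lc.FK.StmtsB

set_option autoImplicit false
open Classical

namespace Pool.Agent.Work.MP_8dbde4_lc.FK

open Pool.Agent.Work.MP_8dbde4_lc.TS
open Pool.Agent.Work.MP_8dbde4_lc.Tree (Word Agr Cc)
open Pool.Agent.Work.MP_8dbde4_lc.Phy (PP Hom)
open Pool.Agent.Work.MP_8dbde4_lc.Bra (Same InvU BinOn pull c₂)
open Pool.Agent.Work.MP_8dbde4_lc.Full (Arr NEq Cst0 BT Sub)
open Pool.Agent.Work.MP_8dbde4_lc.Full.BT

namespace XQPP

variable {K : Type}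

/-- A letter different from `x`. -/
noncomputable def alt (a b x : K) : K := if x = a then b else a

theorem alt_ne {a b : K} (h : a ≠ b) (x : K) : alt a b x ≠ x := by
  unfold alt
  by_cases hx : x = a
  · rw [if_pos hx, hx]
    exact h.symm
  · rw [if_neg hx]
    exact fun h' => hx h'.symm

/-- The word `c` changed at the place `q`. -/
noncomputable def W (a b : K) (c : ℚ → K) (q : ℚ) : Word c :=
  ⟨fun p => if p = q then alt a b (c p) else c p, by
    refine (Set.finite_singleton q).subset ?_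
    intro p hp
    by_contra hc
    have h1 : p ≠ q := fun h => hc (by simp [h])
    simp only [Set.mem_ofPred_eq, if_neg h1] at hp
    exact hp rfl⟩

theorem W_self (a b : K) (c : ℚ → K) (q : ℚ) : (W a b c q).1 q = alt a b (c q) := by
  simp [W]

theorem W_ne (a b : K) (c : ℚ → K) {p q : ℚ} (h : p ≠ q) : (W a b c q).1 p = c p := by
  simp [W, h]

theorem cc_W {a b : K} (hab : a ≠ b) (c : ℚ → K) {x y z : ℚ} (h1 : x < y) (h2 : x < z) :
    Cc (W a b c x) (W a b c y) (W a b c z) := by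
  refine ⟨x, ?_, ?_, ?_, ?_⟩
  · intro q hq
    rw [W_ne a b c (ne_of_lt hq), W_ne a b c (ne_of_lt (hq.trans h1))]
  · intro q hq
    rw [W_ne a b c (ne_of_lt hq), W_ne a b c (ne_of_lt (hq.trans h2))]
  · rw [W_ne a b c (ne_of_lt h1), W_ne a b c (ne_of_lt h2)]
  · rw [W_self, W_ne a b c (ne_of_lt h1)]
    exact alt_ne hab _

theorem inj {c : ℚ → K} (h : S_QFA) (v : Fin 4 → Word c) (hv : Q4 v) :
    Function.Injective v := by
  obtain ⟨h1, h2, h3, h4, h5, h6⟩ := ((h K c).1 (v 0) (v 1) (v 2) (v 3)).2.2 hv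
  intro i j hij
  fin_cases i <;> fin_cases j <;> first | rfl | (exfalso; simp_all)

end XQPP

open XQPP

theorem QPP_pf (h1 : S_ARR) (h2 : S_QFT) (h3 : S_FAT) (h4 : S_QFA) (_h5 : S_TY3) : S_QPP := by
  intro K c σ ω 𝔅 hK hI hF hQ
  obtain ⟨a, b, hab⟩ := hK
  set v₀ : Fin 4 → Word c := fun i => W a b c (i.val : ℚ) with hv₀
  have h0 : Q4 v₀ := by
    have e0 : v₀ 0 = W a b c 0 := by simp [hv₀]
    have e1 : v₀ 1 = W a b c 1 := by simp [hv₀]
    have e2 : v₀ 2 = W a b c 2 := by simp [hv₀]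
    have e3 : v₀ 3 = W a b c 3 := by simp [hv₀]
    unfold Q4 Qr
    rw [e0, e1, e2, e3]
    have a1 : Cc (W a b c 0) (W a b c 1) (W a b c 1) := cc_W hab c (by norm_num) (by norm_num)
    have a2 : Cc (W a b c 2) (W a b c 3) (W a b c 3) := cc_W hab c (by norm_num) (by norm_num)
    exact ⟨cc_ne a1, cc_ne a2, Or.inr ⟨cc_W hab c (by norm_num) (by norm_num),
      cc_W hab c (by norm_num) (by norm_num)⟩⟩
  have hinj := inj h4 v₀ h0
  have hPP := (h1 K c σ 𝔅 hI).2.2.1 (Fin 4) v₀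
  have heq : (fun u : Fin 4 → Word c => Arr 𝔅 v₀ u) = Q4 := by
    funext u
    apply propext
    constructor
    · intro hu
      exact hQ v₀ u hinj hu h0
    · intro hu
      have hui := inj h4 u hu
      have hfat := h2 K c σ ω 𝔅 ⟨a, b, hab⟩ hI hF v₀ u hinj hui h0 hu
      exact (h3 K c σ ω 𝔅 hI (Fin 4) Set.univ v₀ u hinj hui).1 hfat
  rw [heq] at hPP
  exact hPP

end Pool.Agent.Work.MP_8dbde4_lc.FK
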