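import Pool.Agent.Work.MP_8dbde4_lc.FK.StmtsE

/-!
# Item [8dbde4 FK QQP]: the relation `QQ` is primitive positive definable
-/

set_option autoImplicit false
open Classical

namespace Pool.Agent.Work.MP_8dbde4_lc.FK

open Pool.Agent.Work.MP_8dbde4_lc.TS
open Pool.Agent.Work.MP_8dbde4_lc.Tree (Word Agr Cc)
open Pool.Agent.Work.MP_8dbde4_lc.Phy (PP Hom)
open Pool.Agent.Work.MP_8dbde4_lc.Bra (Same InvU BinOn pull c₂)
open Pool.Agent.Work.MP_8dbde4_lc.Full (Arr NEq Cst0 BT Sub)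

namespace XQQP

variable {K : Type} {c : ℚ → K}

/-- A word very close to `x`. -/
theorem close3 (hT : S_TY3) (hK : ∃ a b : K, a ≠ b) (x a b d : Word c) :
    ∃ e : Word c, e ≠ x ∧ (a ≠ x → Cc a x e) ∧
    (b ≠ x → Cc b x e) ∧ (d ≠ x → Cc d x e) := by
  obtain ⟨t, h1, h2⟩ := (hT K c).2.2.2.2.2 hK (Fin 4) ![x, a, b, d] 0
  exact ⟨t, h1, fun h => cc_symm (h2 1 h), fun h => cc_symm (h2 2 h), fun h => cc_symm (h2 3 h)⟩

/-- The two definitions. -/
theorem core (hQ : S_QFA) (hT : S_TY3) (hK : ∃ a b : K, a ≠ b) (a b x y : Word c) :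
    ((a ≠ b ∧ x ≠ a ∧ x ≠ b ∧ x = y) ∨ Qr a b x y) ↔
      ∃ e, Qr a b x e ∧ Qr a b y e := by
  constructor
  · rintro (⟨hab, hxa, hxb, rfl⟩ | h)
    · obtain ⟨e, he, h1, h2, _⟩ := close3 hT hK x a b a
      have h : Qr a b x e := ⟨hab, he.symm, Or.inr ⟨h1 hxa.symm, h2 hxb.symm⟩⟩
      exact ⟨e, h, h⟩
    · obtain ⟨hab, hax, hay, hbx, hby, hxy⟩ := ((hQ K c).1 a b x y).2.2 h
      obtain ⟨e, he, h1, h2, h3⟩ := close3 hT hK x a b y
      have a1 := h1 hax
      have a2 := h2 hbx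
      have a3 := h3 hxy.symm
      refine ⟨e, ⟨hab, he.symm, Or.inr ⟨a1, a2⟩⟩, hab, cc_ne' a3, ?_⟩
      rcases h.2.2 with ⟨h4, h5⟩ | ⟨h4, h5⟩
      · left
        refine ⟨h5, ?_⟩
        rcases cc_or h4 e with h6 | h6
        · exact absurd h6 (cc_asymm a1)
        · exact h6
      · right
        exact ⟨cc_trans (cc_symm h4) a1, cc_trans (cc_symm h5) a2⟩
  · rintro ⟨e, h, h'⟩
    obtain ⟨hab, hax, hae, hbx, hbe, hxe⟩ := ((hQ K c).1 a b x e).2.2 h
    by_cases hxy : x = y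
    · exact Or.inl ⟨hab, hax.symm, hbx.symm, hxy⟩
    · right
      refine ⟨hab, hxy, ?_⟩
      rcases h.2.2 with ⟨h1, h2⟩ | ⟨h1, h2⟩
      · rcases h'.2.2 with ⟨h3, h4⟩ | ⟨h3, h4⟩
        · exact Or.inl ⟨h1, h3⟩
        · left
          refine ⟨h1, ?_⟩
          rcases cc_or h2 y with h5 | h5
          · exact absurd (cc_symm h3) (cc_asymm h5)
          · exact h5
      · rcases h'.2.2 with ⟨h3, h4⟩ | ⟨h3, h4⟩
        · left
          refine ⟨?_, h3⟩
          rcases cc_or h4 x with h5 | h5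
          · exact absurd (cc_symm h1) (cc_asymm h5)
          · exact h5
        · right
          exact ⟨cc_trans h1 (cc_symm h3), cc_trans h2 (cc_symm h4)⟩

end XQQP

open XQQP in
theorem QQP_pf (h1 : Phy.S_PPB) (h2 : S_QFA) (h3 : S_TY3) : S_QQP := by
  intro K c σ 𝔅 hK h
  obtain ⟨_, hand, hsub, hex, _, _, _⟩ := h1 σ (Word c) 𝔅
  have h4 := hsub (Fin 4) (Fin 5) (Q4 (c := c)) ![0, 1, 2, 4] h
  have h5 := hsub (Fin 4) (Fin 5) (Q4 (c := c)) ![0, 1, 3, 4] h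
  have h6 := hand (Fin 5) _ _ h4 h5
  have h7 := hex (Fin 5) (Fin 4) _ Fin.castSucc h6
  have hEq : (QQ (c := c)) = (fun u : Fin 4 → Word c => ∃ v : Fin 5 → Word c,
      (Q4 (fun x => v (![0, 1, 2, 4] x)) ∧ Q4 (fun x => v (![0, 1, 3, 4] x))) ∧
        ∀ y, u y = v (Fin.castSucc y)) := by
    funext u
    apply propext
    have hc := core h2 h3 hK (u 0) (u 1) (u 2) (u 3)
    constructor
    · intro hu
      obtain ⟨e, he, he'⟩ := hc.1 hu
      refine ⟨Fin.snoc u e, ⟨?_, ?_⟩, ?_⟩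
      · exact he
      · exact he'
      · intro y
        rw [Fin.snoc_castSucc]
    · rintro ⟨v, ⟨h8, h9⟩, h10⟩
      apply hc.2
      refine ⟨v 4, ?_, ?_⟩
      · have e0 := h10 0
        have e1 := h10 1
        have e2 := h10 2
        rw [e0, e1, e2]
        exact h8
      · have e0 := h10 0
        have e1 := h10 1
        have e3 := h10 3
        rw [e0, e1, e3]
        exact h9
  rw [hEq]
  exact h7

end Pool.Agent.Work.MP_8dbde4_lc.FK
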