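import Pool.Agent.Work.MP_8dbde4_lc.FK.StmtsB

/-!
Block FK of MP_8dbde4_lc, item QV: violated quartets give a violation relative to three fat points.
-/

set_option autoImplicit false
open Classical

namespace Pool.Agent.Work.MP_8dbde4_lc.FK

open Pool.Agent.Work.MP_8dbde4_lc.TS
open Pool.Agent.Work.MP_8dbde4_lc.Tree (Word Agr Cc)
open Pool.Agent.Work.MP_8dbde4_lc.Phy (PP Hom)
open Pool.Agent.Work.MP_8dbde4_lc.Bra (Same InvU BinOn pull c₂)
open Pool.Agent.Work.MP_8dbde4_lc.Full (Arr NEq Cst0 BT Sub)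
open Pool.Agent.Work.MP_8dbde4_lc.Full.BT

namespace XQV

variable {K : Type} {c : ℚ → K} {σ : Sig} {ω : Prop}

/-- a violation with the set `F` of fat points -/
def Viol (ω : Prop) (𝔅 : Str σ (Word c)) (F : Set (Fin 4)) : Prop :=
  ∃ v w : Fin 4 → Word c, Function.Injective v ∧ Function.Injective w ∧ Fat ω 𝔅 F v w ∧ Q4 v ∧
    ¬ Q4 w

theorem mono (hFAT : S_FAT) {𝔅 : Str σ (Word c)} (hA : AllInv 𝔅) {F F' : Set (Fin 4)}
    (hF : F' ⊆ F) (h : Viol ω 𝔅 F) : Viol ω 𝔅 F' := by
  obtain ⟨v, w, hv, hw, hf, h1, h2⟩ := h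
  exact ⟨v, w, hv, hw, (hFAT K c σ ω 𝔅 hA (Fin 4) F v w hv hw).2.2.2.1 F' hF hf, h1, h2⟩

theorem ren (hFAT : S_FAT) {𝔅 : Str σ (Word c)} (hA : AllInv 𝔅) {F : Set (Fin 4)}
    (e : Fin 4 → Fin 4) (he : Function.Injective e)
    (hQ : ∀ u : Fin 4 → Word c, Q4 (fun x => u (e x)) ↔ Q4 u) (h : Viol ω 𝔅 F) :
    Viol ω 𝔅 {x | e x ∈ F} := by
  obtain ⟨v, w, hv, hw, hf, h1, h2⟩ := h
  refine ⟨fun x => v (e x), fun x => w (e x), fun a b hab => he (hv hab),
    fun a b hab => he (hw hab), ?_, (hQ v).mpr h1, fun h3 => h2 ((hQ w).mp h3)⟩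
  exact (hFAT K c σ ω 𝔅 hA (Fin 4) F v w hv hw).2.2.2.2.2.1 (Fin 4) e he hf

theorem close3 (hT : S_TY3) (hK : ∃ a b : K, a ≠ b) (x a b d : Word c) :
    ∃ e : Word c, e ≠ x ∧ (a ≠ x → Cc a x e) ∧
    (b ≠ x → Cc b x e) ∧ (d ≠ x → Cc d x e) := by
  obtain ⟨t, h1, h2⟩ := (hT K c).2.2.2.2.2 hK (Fin 4) ![x, a, b, d] 0
  exact ⟨t, h1, fun h => cc_symm (h2 1 h), fun h => cc_symm (h2 2 h), fun h => cc_symm (h2 3 h)⟩

/-- exchange of 0 and 1 -/
theorem q_swap (hQFA : S_QFA) (u : Fin 4 → Word c) :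
    Q4 (fun x => u (![1, 0, 2, 3] x)) ↔ Q4 u :=
  ⟨fun h => (((hQFA K c).1 _ _ _ _).1 h : Qr (u 0) (u 1) (u 2) (u 3)),
    fun h => (((hQFA K c).1 _ _ _ _).1 h : Qr (u 1) (u 0) (u 2) (u 3))⟩

/-- exchange of the pairs -/
theorem q_pair (hQFA : S_QFA) (u : Fin 4 → Word c) :
    Q4 (fun x => u (![2, 3, 0, 1] x)) ↔ Q4 u :=
  ⟨fun h => (((hQFA K c).1 _ _ _ _).2.1 h : Qr (u 0) (u 1) (u 2) (u 3)),
    fun h => (((hQFA K c).1 _ _ _ _).2.1 h : Qr (u 2) (u 3) (u 0) (u 1))⟩

/-- one step -/
theorem step (hFAT : S_FAT) (hQFA : S_QFA) (hT : S_TY3) (hK : ∃ a b : K, a ≠ b) {𝔅 : Str σ (Word c)} (hA : AllInv 𝔅) (hE : Ext ω 𝔅)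
    {F : Set (Fin 4)} (h : Viol ω 𝔅 F) :
    Viol ω 𝔅 {x | x = 0 ∨ x ∈ F} ∨
      (Viol ω 𝔅 {x | x = 0 ∨ (x = 2 ∧ (1 : Fin 4) ∈ F) ∨ (x = 3 ∧ (2 : Fin 4) ∈ F)} ∧
        Viol ω 𝔅 {x | x = 0 ∨ (x = 2 ∧ (2 : Fin 4) ∈ F) ∨ (x = 3 ∧ (3 : Fin 4) ∈ F)}) := by
  obtain ⟨v, w, hv, hw, hf, hq, hnq⟩ := h
  obtain ⟨e, he, h1, h2, h3⟩ := close3 hT hK (v 0) (v 1) (v 2) (v 3)
  have a1 : Cc (v 1) (v 0) e := h1 (fun h => absurd (hv h) (by decide))
  have a2 : Cc (v 2) (v 0) e := h2 (fun h => absurd (hv h) (by decide))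
  have a3 : Cc (v 3) (v 0) e := h3 (fun h => absurd (hv h) (by decide))
  have ne1 : v 1 ≠ e := cc_ne' a1
  have ne2 : v 2 ≠ e := cc_ne' a2
  have ne3 : v 3 ≠ e := cc_ne' a3
  have hne : ∀ i : Fin 4, v i ≠ e := by
    intro i
    fin_cases i
    · exact he.symm
    · exact ne1
    · exact ne2
    · exact ne3
  set v' : Option (Fin 4) → Word c := fun o => o.elim e v with hv'
  have hv'i : Function.Injective v' := by
    intro a b hab
    cases a with
    | none =>
      cases b with
      | none => rfl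
      | some b => exact absurd hab.symm (hne b)
    | some a =>
      cases b with
      | none => exact absurd hab (hne a)
      | some b => exact congrArg some (hv hab)
  obtain ⟨w', hw'i, hw's, hfat⟩ := hE (Fin 4) F v w hv hw hf v' hv'i fun x => rfl
  have hres := (hFAT K c σ ω 𝔅 hA (Option (Fin 4)) {o | ∀ x, o = some x → x ∈ F} v' w' hv'i
    hw'i).2.2.2.2.2.1
  -- quartets of `v'`
  have hqe : Qr e (v 1) (v 2) (v 3) := by
    refine ⟨ne1.symm, fun h => absurd (hv h) (by decide), ?_⟩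
    rcases hq.2.2 with ⟨b1, b2⟩ | ⟨b1, b2⟩
    · exact Or.inl ⟨cc_trans (cc_symm a2) b1, cc_trans (cc_symm a3) b2⟩
    · refine Or.inr ⟨?_, b2⟩
      rcases cc_or b1 e with b3 | b3
      · exact absurd b3 (cc_asymm a2)
      · exact b3
  have hq12 : Qr e (v 0) (v 1) (v 2) :=
    ⟨he, fun h => absurd (hv h) (by decide), Or.inl ⟨cc_symm a1, cc_symm a2⟩⟩
  have hq23 : Qr e (v 0) (v 2) (v 3) :=
    ⟨he, fun h => absurd (hv h) (by decide), Or.inl ⟨cc_symm a2, cc_symm a3⟩⟩
  by_cases hc : Qr (w' none) (w 1) (w 2) (w 3)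
  · right
    have hw0 : ∀ i : Fin 4, w' none ≠ w i := by
      intro i hi
      rw [← hw's i] at hi
      exact absurd (hw'i hi) (by simp)
    obtain ⟨c1, c2, c3⟩ := (hQFA K c).2.2.2.2.2.1 (w' none) (w 0) (w 1) (w 2) (w 3) (hw0 0) hc hnq
      (fun h => absurd (hw h) (by decide)) (fun h => absurd (hw h) (by decide))
      (fun h => absurd (hw h) (by decide))
    constructor
    · have hi : Function.Injective (![none, some 0, some 1, some 2] : Fin 4 → Option (Fin 4)) := by
        decide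
      refine ⟨fun x => v' (![none, some 0, some 1, some 2] x),
        fun x => w' (![none, some 0, some 1, some 2] x), fun a b hab => hi (hv'i hab),
        fun a b hab => hi (hw'i hab), ?_, hq12, ?_⟩
      · have h4 := hres (Fin 4) _ hi hfat
        refine (hFAT K c σ ω 𝔅 hA (Fin 4) _ _ _ (fun a b hab => hi (hv'i hab))
          (fun a b hab => hi (hw'i hab))).2.2.2.1 _ ?_ h4
        intro x hx y hy
        simp only [Set.mem_ofPred_eq] at hx
        rcases hx with rfl | ⟨rfl, h5⟩ | ⟨rfl, h5⟩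
        · exact absurd hy (by simp)
        · have : (1 : Fin 4) = y := Option.some_injective _ hy
          rw [← this]
          exact h5
        · have : (2 : Fin 4) = y := Option.some_injective _ hy
          rw [← this]
          exact h5
      · intro h5
        have h6 : Qr (w' none) (w' (some 0)) (w' (some 1)) (w' (some 2)) := h5
        rw [hw's, hw's, hw's] at h6
        exact c1 h6
    · have hi : Function.Injective (![none, some 0, some 2, some 3] : Fin 4 → Option (Fin 4)) := by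
        decide
      refine ⟨fun x => v' (![none, some 0, some 2, some 3] x),
        fun x => w' (![none, some 0, some 2, some 3] x), fun a b hab => hi (hv'i hab),
        fun a b hab => hi (hw'i hab), ?_, hq23, ?_⟩
      · have h4 := hres (Fin 4) _ hi hfat
        refine (hFAT K c σ ω 𝔅 hA (Fin 4) _ _ _ (fun a b hab => hi (hv'i hab))
          (fun a b hab => hi (hw'i hab))).2.2.2.1 _ ?_ h4
        intro x hx y hy
        simp only [Set.mem_ofPred_eq] at hx
        rcases hx with rfl | ⟨rfl, h5⟩ | ⟨rfl, h5⟩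
        · exact absurd hy (by simp)
        · have : (2 : Fin 4) = y := Option.some_injective _ hy
          rw [← this]
          exact h5
        · have : (3 : Fin 4) = y := Option.some_injective _ hy
          rw [← this]
          exact h5
      · intro h5
        have h6 : Qr (w' none) (w' (some 0)) (w' (some 2)) (w' (some 3)) := h5
        rw [hw's, hw's, hw's] at h6
        exact c3 h6
  · left
    have hi : Function.Injective (![none, some 1, some 2, some 3] : Fin 4 → Option (Fin 4)) := by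
      decide
    refine ⟨fun x => v' (![none, some 1, some 2, some 3] x),
      fun x => w' (![none, some 1, some 2, some 3] x), fun a b hab => hi (hv'i hab),
      fun a b hab => hi (hw'i hab), ?_, hqe, ?_⟩
    · have h4 := hres (Fin 4) _ hi hfat
      refine (hFAT K c σ ω 𝔅 hA (Fin 4) _ _ _ (fun a b hab => hi (hv'i hab))
        (fun a b hab => hi (hw'i hab))).2.2.2.1 _ ?_ h4
      intro x hx y hy
      simp only [Set.mem_ofPred_eq] at hx
      rcases hx with rfl | h5
      · exact absurd hy (by simp)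
      · fin_cases x
        · exact absurd hy (by simp)
        · have : (1 : Fin 4) = y := Option.some_injective _ hy
          rw [← this]
          exact h5
        · have : (2 : Fin 4) = y := Option.some_injective _ hy
          rw [← this]
          exact h5
        · have : (3 : Fin 4) = y := Option.some_injective _ hy
          rw [← this]
          exact h5
    · intro h5
      have h6 : Qr (w' none) (w' (some 1)) (w' (some 2)) (w' (some 3)) := h5
      rw [hw's, hw's, hw's] at h6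
      exact hc h6

end XQV

open XQV in
theorem QV_pf (hARR : S_ARR) (hFAT : S_FAT) (hQFA : S_QFA) (hT : S_TY3) : S_QV := by
  intro K c σ ω 𝔅 hK hA hN hE hnQP
  have h0 : Viol ω 𝔅 ∅ := by
    unfold QP at hnQP
    push Not at hnQP
    obtain ⟨v, w, hv, hvw, hq, hnq⟩ := hnQP
    have hw : Function.Injective w := by
      intro x y hxy
      by_contra hne
      exact (hARR K c σ 𝔅 hA).2.2.2.2.2 hN (Fin 4) v w x y hvw (fun h => hne (hv h)) hxy
    exact ⟨v, w, hv, hw, (hFAT K c σ ω 𝔅 hA (Fin 4) ∅ v w hv hw).2.1 hvw, hq, hnq⟩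
  have hsw : Function.Injective (![1, 0, 2, 3] : Fin 4 → Fin 4) := by decide
  have hpr : Function.Injective (![2, 3, 0, 1] : Fin 4 → Fin 4) := by decide
  -- one fat point
  have h1 : Viol ω 𝔅 {0} := by
    rcases step hFAT hQFA hT hK hA hE h0 with h | ⟨h, _⟩
    · exact mono hFAT hA (fun x hx => Or.inl hx) h
    · exact mono hFAT hA (fun x hx => Or.inl hx) h
  have h1' : Viol ω 𝔅 {1} := by
    refine mono hFAT hA ?_ (ren hFAT hA _ hsw (q_swap hQFA) h1)
    rintro x rfl
    exact (by decide : (0 : Fin 4) ∈ ({0} : Set (Fin 4)))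
  -- two fat points
  have h2 : Viol ω 𝔅 {2, 3} ∨ Viol ω 𝔅 {1, 2} := by
    rcases step hFAT hQFA hT hK hA hE h1' with h | ⟨h, _⟩
    · left
      refine mono hFAT hA ?_ (ren hFAT hA _ hpr (q_pair hQFA) h)
      intro x hx
      rcases hx with rfl | rfl
      · exact Or.inl rfl
      · exact Or.inr rfl
    · right
      refine mono hFAT hA ?_ (ren hFAT hA _ hsw (q_swap hQFA) h)
      intro x hx
      rcases hx with rfl | rfl
      · exact Or.inl rfl
      · exact Or.inr (Or.inl ⟨rfl, rfl⟩)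
  -- three fat points
  have h3 : Viol ω 𝔅 {0, 2, 3} ∨ Viol ω 𝔅 {0, 1, 2} := by
    rcases h2 with h2 | h2
    · left
      rcases step hFAT hQFA hT hK hA hE h2 with h | ⟨_, h⟩
      · refine mono hFAT hA ?_ h
        intro x hx
        rcases hx with rfl | rfl | rfl
        · exact Or.inl rfl
        · exact Or.inr (Or.inl rfl)
        · exact Or.inr (Or.inr rfl)
      · refine mono hFAT hA ?_ h
        intro x hx
        rcases hx with rfl | rfl | rfl
        · exact Or.inl rfl
        · exact Or.inr (Or.inl ⟨rfl, Or.inl rfl⟩)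
        · exact Or.inr (Or.inr ⟨rfl, Or.inr rfl⟩)
    · rcases step hFAT hQFA hT hK hA hE h2 with h | ⟨h, _⟩
      · right
        refine mono hFAT hA ?_ h
        intro x hx
        rcases hx with rfl | rfl | rfl
        · exact Or.inl rfl
        · exact Or.inr (Or.inl rfl)
        · exact Or.inr (Or.inr rfl)
      · left
        refine mono hFAT hA ?_ h
        intro x hx
        rcases hx with rfl | rfl | rfl
        · exact Or.inl rfl
        · exact Or.inr (Or.inl ⟨rfl, Or.inl rfl⟩)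
        · exact Or.inr (Or.inr ⟨rfl, Or.inr rfl⟩)
  have h4 : Viol ω 𝔅 {1, 2, 3} := by
    rcases h3 with h3 | h3
    · refine mono hFAT hA ?_ (ren hFAT hA _ hsw (q_swap hQFA) h3)
      intro x hx
      rcases hx with rfl | rfl | rfl
      · exact Or.inl rfl
      · exact Or.inr (Or.inl rfl)
      · exact Or.inr (Or.inr rfl)
    · have h5 := ren hFAT hA _ hpr (q_pair hQFA) h3
      refine mono hFAT hA ?_ (ren hFAT hA _ hsw (q_swap hQFA) h5)
      intro x hx
      rcases hx with rfl | rfl | rfl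
      · exact Or.inr (Or.inr rfl)
      · exact Or.inl rfl
      · exact Or.inr (Or.inl rfl)
  exact h4

end Pool.Agent.Work.MP_8dbde4_lc.FK
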