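import Pool.Agent.Work.MP_8dbde4_lc.FK.StmtsW

/-!
Item RAW of the block FK of MP_8dbde4_lc: generic trees with constant colours.
-/

set_option autoImplicit false
open Classical

namespace Pool.Agent.Work.MP_8dbde4_lc.FK

open Pool.Agent.Work.MP_8dbde4_lc.TS
open Pool.Agent.Work.MP_8dbde4_lc.Tree (Word Agr Cc)
open Pool.Agent.Work.MP_8dbde4_lc.Phy (PP Hom)
open Pool.Agent.Work.MP_8dbde4_lc.Bra (Same InvU BinOn pull c₂)
open Pool.Agent.Work.MP_8dbde4_lc.Full (Arr NEq Cst0 BT Sub)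

namespace XRAW

/-- The leaf `a` of depth `n` on the levels `f`, `z` at the other levels. -/
noncomputable def up {n N k : ℕ} (f : Fin n → Fin N) (z : Fin k) (a : Fin n → Fin k) :
    Fin N → Fin k := fun q => if h : ∃ l, f l = q then a h.choose else z

theorem up_at {n N k : ℕ} {f : Fin n → Fin N} (hf : StrictMono f) (z : Fin k)
    (a : Fin n → Fin k) (l : Fin n) : up f z a (f l) = a l := by
  unfold up
  have h : ∃ l', f l' = f l := ⟨l, rfl⟩
  rw [dif_pos h, hf.injective h.choose_spec]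

theorem up_df {n N k : ℕ} {f : Fin n → Fin N} (hf : StrictMono f) (z : Fin k)
    {a b : Fin n → Fin k} {m : Fin n} (h : Df a b m) : Df (up f z a) (up f z b) (f m) := by
  refine ⟨?_, ?_⟩
  · intro q hq
    by_cases hl : ∃ l, f l = q
    · obtain ⟨l, rfl⟩ := hl
      rw [up_at hf, up_at hf]
      exact h.1 l (hf.lt_iff_lt.1 hq)
    · unfold up
      rw [dif_neg hl, dif_neg hl]
  · rw [up_at hf, up_at hf]
    exact h.2

end XRAW

open XRAW in
theorem RAW_pf (h1 : S_UFW) (h2 : S_RPW) : S_RAW := by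
  intro κ' _ n k hk
  obtain ⟨N, hN⟩ := h2 (κ' × κ' × κ') (n + 1)
  refine ⟨N, ?_⟩
  intro κ _ χ θ
  obtain ⟨e, i, j, s, he, hχ, hi, hj, hs⟩ := h1 N k κ κ' χ θ
  obtain ⟨f₀, x, hf₀, hx⟩ := hN (fun m m' => (i m m', j m m', s m))
  let f : Fin n → Fin N := fun l => f₀ l.castSucc
  have hf : StrictMono f := fun a b hab => hf₀ (Fin.castSucc_lt_castSucc_iff.2 hab)
  let z : Fin k := ⟨0, hk⟩
  have hxi : ∀ m m', m < m' → i (f m) (f m') = x.1 := by
    intro m m' h
    have := hx m.castSucc m'.castSucc (Fin.castSucc_lt_castSucc_iff.2 h)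
    exact congrArg Prod.fst this
  have hxj : ∀ m m', m < m' → j (f m) (f m') = x.2.1 := by
    intro m m' h
    have := hx m.castSucc m'.castSucc (Fin.castSucc_lt_castSucc_iff.2 h)
    exact congrArg (fun p => p.2.1) this
  have hxs : ∀ m, s (f m) = x.2.2 := by
    intro m
    have := hx m.castSucc (Fin.last n) (Fin.castSucc_lt_last m)
    exact congrArg (fun p => p.2.2) this
  refine ⟨fun a => e (up f z a), f, x.1, x.2.1, x.2.2, hf, ?_, ?_, ?_, ?_, ?_⟩
  · intro a b m h
    exact he _ _ _ (up_df hf z h)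
  · intro a b
    exact hχ _ _
  · intro a b d m m' hm h3 h4 h5 h6
    rw [← hxi m m' hm]
    refine hi _ _ _ _ _ (hf hm) (up_df hf z h3) (up_df hf z h4) ?_ ?_
    · rw [up_at hf, up_at hf]
      exact h5
    · rw [up_at hf, up_at hf]
      exact h6
  · intro a b d m m' hm h3 h4 h5 h6
    rw [← hxj m m' hm]
    refine hj _ _ _ _ _ (hf hm) (up_df hf z h3) (up_df hf z h4) ?_ ?_
    · rw [up_at hf, up_at hf]
      exact h5
    · rw [up_at hf, up_at hf]
      exact h6
  · intro a b d m h3 h4 h5 h6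
    rw [← hxs m]
    refine hs _ _ _ _ (up_df hf z h3) (up_df hf z h4) ?_ ?_
    · rw [up_at hf, up_at hf]
      exact h5
    · rw [up_at hf, up_at hf]
      exact h6

end Pool.Agent.Work.MP_8dbde4_lc.FK
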