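import Pool.Agent.Work.MP_8dbde4_lc.FK.StmtsE

/-!
Item [8dbde4 FK REF]: refinement of abstract C-relations to binary trees.
-/

set_option autoImplicit false
open Classical

namespace Pool.Agent.Work.MP_8dbde4_lc.FK

open Pool.Agent.Work.MP_8dbde4_lc.TS
open Pool.Agent.Work.MP_8dbde4_lc.Tree (Word Agr Cc)
open Pool.Agent.Work.MP_8dbde4_lc.Bra (c₂)

namespace XREF

theorem irr {X : Type} {C : X → X → X → Prop} (h : CRel C) {x y : X} : ¬ C x x y :=
  fun h1 => h.asymm x x y h1 h1

theorem tr {X : Type} {C : X → X → X → Prop} (h : CRel C) {z x y w : X} (h1 : C z x y)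
    (h2 : C z y w) : C z x w := by
  rcases h.or _ _ _ w h1 with h3 | h3
  · exact h3
  · rcases h.or _ _ _ x (h.symm _ _ _ h2) with h4 | h4
    · exact h.symm _ _ _ h4
    · exact absurd h4 (h.asymm _ _ _ h3)

/-- Equivalence below the first split. -/
def Eqv {X : Type} (C : X → X → X → Prop) (x y : X) : Prop := ∃ z, C z x y

theorem eqv_symm {X : Type} {C : X → X → X → Prop} (h : CRel C) {x y : X} (h1 : Eqv C x y) :
    Eqv C y x := by
  obtain ⟨z, hz⟩ := h1
  exact ⟨z, h.symm _ _ _ hz⟩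

theorem eqv_trans {X : Type} {C : X → X → X → Prop} (h : CRel C) {x y t : X} (h1 : Eqv C x y)
    (h2 : Eqv C y t) : Eqv C x t := by
  obtain ⟨z, hz⟩ := h1
  obtain ⟨w, hw⟩ := h2
  rcases h.or _ _ _ t hz with h3 | h3
  · exact ⟨z, h3⟩
  · rcases h.or _ _ _ x hw with h4 | h4
    · exact ⟨w, tr h (h.symm _ _ _ h4) hw⟩
    · exact absurd (h.symm _ _ _ h4) (h.asymm _ _ _ h3)

theorem sep {X : Type} [Finite X] {C : X → X → X → Prop} (h : CRel C) : ∀ (n : ℕ) (x y : X),
    x ≠ y → Set.ncard {t | C t x y} = n → ∃ a b : X, a ≠ b ∧ ¬ Eqv C a b := by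
  intro n
  induction n using Nat.strong_induction_on with
  | _ n ih =>
    intro x y hxy hn
    by_cases he : Eqv C x y
    · obtain ⟨t, ht⟩ := he
      have htx : t ≠ x := by
        rintro rfl
        exact irr h ht
      have hss : {s | C s t x} ⊂ {s | C s x y} := by
        refine ⟨fun s hs => ?_, fun hcon => ?_⟩
        · have hs' : C s t x := hs
          rcases h.or _ _ _ y hs' with h3 | h3
          · exact tr h (h.symm _ _ _ hs') h3
          · exact absurd (h.symm _ _ _ h3) (fun h4 => h.asymm _ _ _ (h.symm _ _ _ ht)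
              (h.symm _ _ _ h4))
        · have : C t t x := hcon ht
          exact irr h this
      have hlt := Set.ncard_lt_ncard hss (Set.toFinite _)
      rw [hn] at hlt
      exact ih _ hlt t x htx rfl
    · exact ⟨x, y, hxy, he⟩

theorem restr {X : Type} {C : X → X → X → Prop} (h : CRel C) (P : X → Prop) :
    CRel (fun z x y : {x // P x} => C z.1 x.1 y.1) where
  symm _ _ _ h1 := h.symm _ _ _ h1
  asymm _ _ _ h1 := h.asymm _ _ _ h1
  or _ _ _ _ h1 := h.or _ _ _ _ h1
  self _ _ hne := h.self _ _ (fun h1 => hne (Subtype.ext h1))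

theorem main (hJ : Phy.S_JOI) : ∀ (n : ℕ) (X : Type) [Finite X] (C : X → X → X → Prop), CRel C →
    Nat.card X = n → ∃ g : X → Word c₂, Function.Injective g ∧
      ∀ z x y, C z x y → Cc (g z) (g x) (g y) := by
  intro n
  induction n using Nat.strong_induction_on with
  | _ n ih =>
    intro X _ C h hn
    have hfin0 : {q : ℚ | c₂ q ≠ c₂ q}.Finite := by simp
    by_cases hne : ∃ x y : X, x ≠ y
    · obtain ⟨x₁, y₁, hxy₁⟩ := hne
      obtain ⟨x₀, y₀, hxy, hnot⟩ := sep h _ x₁ y₁ hxy₁ rfl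
      have hx0 : Eqv C x₀ x₀ := ⟨y₀, h.self _ _ (Ne.symm hxy)⟩
      have hy0 : ¬ Eqv C y₀ x₀ := fun h1 => hnot (eqv_symm h h1)
      have hc1 : Nat.card {x // Eqv C x x₀} < n := by
        rw [← hn]
        exact Finite.card_subtype_lt hy0
      have hc0 : Nat.card {x // ¬ Eqv C x x₀} < n := by
        rw [← hn]
        exact Finite.card_subtype_lt (x := x₀) (fun h1 => h1 hx0)
      obtain ⟨g₁, hg1, hC1⟩ := ih _ hc1 {x // Eqv C x x₀} _ (restr h _) rfl
      obtain ⟨g₀, hg0, hC0⟩ := ih _ hc0 {x // ¬ Eqv C x x₀} _ (restr h _) rfl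
      let w : Word c₂ := ⟨c₂, hfin0⟩
      let u₁ : X → Word c₂ := fun x => if hx : Eqv C x x₀ then g₁ ⟨x, hx⟩ else w
      let u₀ : X → Word c₂ := fun x => if hx : ¬ Eqv C x x₀ then g₀ ⟨x, hx⟩ else w
      have e1 : ∀ x (hx : Eqv C x x₀), u₁ x = g₁ ⟨x, hx⟩ := fun x hx => dif_pos hx
      have e0 : ∀ x (hx : ¬ Eqv C x x₀), u₀ x = g₀ ⟨x, hx⟩ := fun x hx => dif_pos hx
      obtain ⟨u, hu, hs0, hs1⟩ := hJ c₂ X u₀ u₁ (fun x => decide (Eqv C x x₀))
      refine ⟨u, ?_, ?_⟩
      · intro x y hxy'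
        by_contra hcon
        by_cases hx : Eqv C x x₀
        · by_cases hy : Eqv C y x₀
          · have h1 := (hs1.1 x (by simp [hx]) y (by simp [hy])).2 hxy'
            rw [e1 x hx, e1 y hy] at h1
            exact hcon (congrArg Subtype.val (hg1 h1))
          · have h1 := hu y y x rfl (by simp [hx, hy])
            exact cc_ne h1 hxy'
        · by_cases hy : Eqv C y x₀
          · have h1 := hu y y x rfl (by simp [hx, hy])
            exact cc_ne h1 hxy'
          · have h1 := (hs0.1 x (by simp [hx]) y (by simp [hy])).2 hxy'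
            rw [e0 x hx, e0 y hy] at h1
            exact hcon (congrArg Subtype.val (hg0 h1))
      · intro z x y hz
        have hxy' : Eqv C x y := ⟨z, hz⟩
        by_cases hx : Eqv C x x₀
        · have hy : Eqv C y x₀ := eqv_trans h (eqv_symm h hxy') hx
          by_cases hzz : Eqv C z x₀
          · refine (hs1.2 x (by simp [hx]) y (by simp [hy]) z (by simp [hzz])).1 ?_
            rw [e1 x hx, e1 y hy, e1 z hzz]
            exact hC1 _ _ _ hz
          · exact hu x y z (by simp [hx, hy]) (by simp [hx, hzz])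
        · have hy : ¬ Eqv C y x₀ := fun h1 => hx (eqv_trans h hxy' h1)
          by_cases hzz : Eqv C z x₀
          · exact hu x y z (by simp [hx, hy]) (by simp [hx, hzz])
          · refine (hs0.2 x (by simp [hx]) y (by simp [hy]) z (by simp [hzz])).1 ?_
            rw [e0 x hx, e0 y hy, e0 z hzz]
            exact hC0 _ _ _ hz
    · push Not at hne
      refine ⟨fun _ => ⟨c₂, hfin0⟩, fun x y _ => hne x y, fun z x y hz => ?_⟩
      rw [hne z x] at hz
      exact absurd hz (irr h)

end XREF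

theorem REF_pf : S_REF := by
  intro hJ X _ C h
  exact XREF.main hJ _ X C h rfl

end Pool.Agent.Work.MP_8dbde4_lc.FK
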