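import Pool.Agent.Work.MP_8dbde4_lc.FK.StmtsE

/-!
Item RFQ of the block FK: refinement of the unrooted tree.
-/

set_option autoImplicit false
open Classical

namespace Pool.Agent.Work.MP_8dbde4_lc.FK

open Pool.Agent.Work.MP_8dbde4_lc.TS
open Pool.Agent.Work.MP_8dbde4_lc.Tree (Word Agr Cc)
open Pool.Agent.Work.MP_8dbde4_lc.Phy (PP Hom)
open Pool.Agent.Work.MP_8dbde4_lc.Bra (Same InvU BinOn pull c₂)
open Pool.Agent.Work.MP_8dbde4_lc.Full (Arr NEq Cst0 BT Sub)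

theorem RFQ_pf : S_RFQ := by
  intro hREF hQFA hJOI K c X _ s v hv hs
  obtain ⟨q1, _, q3, q4, _⟩ := hQFA K c
  obtain ⟨g, hg, hgC⟩ := hREF hJOI X (Rt s v) (q4 X s v hv hs)
  have w1 : ∀ {x y z t : Word c}, Qr x y z t → Qr y x z t := fun {x y z t} => (q1 x y z t).1
  have w2 : ∀ {x y z t : Word c}, Qr x y z t → Qr z t x y := fun {x y z t} => (q1 x y z t).2.1
  have w3 : ∀ {x y z t : Word c}, Qr x y z t → Qr x y t z := fun h => w2 (w1 (w2 h))
  -- the case that `x` and `z t` are not separated seen from `s`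
  have key : ∀ x y z t : X, Qr (v x) (v y) (v z) (v t) → ¬ Qr s (v x) (v z) (v t) →
      Cc (g z) (g x) (g y) ∧ Cc (g t) (g x) (g y) := by
    intro x y z t h hn
    have h1 : Qr (v y) (v x) (v z) s :=
      (q3 _ _ _ _ s (w1 h) (hs y).symm (hs x).symm (hs z).symm (hs t).symm).resolve_left hn
    have h2 : Qr (v y) (v x) (v t) s :=
      (q3 _ _ _ _ s (w3 (w1 h)) (hs y).symm (hs x).symm (hs t).symm (hs z).symm).resolve_left
        fun h' => hn (w3 h')
    exact ⟨hgC z x y (Or.inr (w3 (w1 (w2 h1)))), hgC t x y (Or.inr (w3 (w1 (w2 h2))))⟩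
  have hsym : ∀ {a b d : Word c₂}, Cc a b d → Cc a d b := by
    intro a b d h
    obtain ⟨q, h1, h2, h3, h4⟩ := h
    exact ⟨q, h2, h1, h3.symm, fun h => h4 (h.trans h3.symm)⟩
  refine ⟨g, hg, ?_, fun z x y h => hgC z x y h⟩
  intro x y z t h
  obtain ⟨d1, _, _, _, _, d6⟩ := (q1 _ _ _ _).2.2 h
  have e1 : g x ≠ g y := fun he => d1 (congrArg v (hg he))
  have e2 : g z ≠ g t := fun he => d6 (congrArg v (hg he))
  refine ⟨e1, e2, ?_⟩
  by_cases hx : Qr s (v x) (v z) (v t)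
  · by_cases hy : Qr s (v y) (v z) (v t)
    · exact Or.inr ⟨hgC x z t (Or.inr hx), hgC y z t (Or.inr hy)⟩
    · obtain ⟨h1, h2⟩ := key y x z t (w1 h) hy
      exact Or.inl ⟨hsym h1, hsym h2⟩
  · exact Or.inl (key x y z t h hx)

end Pool.Agent.Work.MP_8dbde4_lc.FK
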