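import Pool.Agent.Work.MP_8dbde4_lc.FK.StmtsW

/-!
Item RPW of the block FK of MP_8dbde4_lc: the finite Ramsey theorem for pairs.
-/

set_option autoImplicit false
open Classical

namespace Pool.Agent.Work.MP_8dbde4_lc.FK

namespace XRPW

/-- First step: the colour depends only on the smaller element. -/
theorem pre (κ : Type) [Fintype κ] : ∀ m : ℕ, ∃ M : ℕ, ∀ (α : Type) [LinearOrder α]
    (χ : α → α → κ) (S : Finset α), M ≤ S.card → ∃ (g : Fin m → α) (d : Fin m → κ),
    (∀ i, g i ∈ S) ∧ StrictMono g ∧ ∀ i j, i < j → χ (g i) (g j) = d i := by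
  intro m
  induction m with
  | zero =>
    exact ⟨0, fun α _ χ S _ => ⟨fun i => i.elim0, fun i => i.elim0, fun i => i.elim0,
      fun i => i.elim0, fun i => i.elim0⟩⟩
  | succ m ih =>
    obtain ⟨M, hM⟩ := ih
    refine ⟨Fintype.card κ * M + 2, ?_⟩
    intro α _ χ S hS
    have hne : S.Nonempty := Finset.card_pos.1 (by omega)
    set x := S.min' hne with hx
    have hxS : x ∈ S := Finset.min'_mem S hne
    have hcard : (S.erase x).card = S.card - 1 := Finset.card_erase_of_mem hxS
    obtain ⟨c₀, -, hc₀⟩ := Finset.exists_lt_card_fiber_of_mul_lt_card_of_maps_to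
      (s := S.erase x) (t := (Finset.univ : Finset κ)) (f := fun y => χ x y) (n := M)
      (fun a _ => Finset.mem_univ _) (by rw [Finset.card_univ]; omega)
    obtain ⟨g, d, hg, hmono, hgd⟩ := hM α χ ((S.erase x).filter fun y => χ x y = c₀) hc₀.le
    have hgx : ∀ i, x < g i := by
      intro i
      have h1 := Finset.mem_filter.1 (hg i)
      have h2 := Finset.mem_erase.1 h1.1
      exact lt_of_le_of_ne (Finset.min'_le S _ h2.2) (Ne.symm h2.1)
    refine ⟨Fin.cons x g, Fin.cons c₀ d, ?_, ?_, ?_⟩
    · intro i
      refine Fin.cases ?_ (fun i => ?_) i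
      · rw [Fin.cons_zero]
        exact hxS
      · rw [Fin.cons_succ]
        exact (Finset.mem_erase.1 (Finset.mem_filter.1 (hg i)).1).2
    · intro i j
      refine Fin.cases ?_ (fun i => ?_) i
      · refine Fin.cases ?_ (fun j => ?_) j
        · intro h
          exact absurd h (lt_irrefl _)
        · intro _
          rw [Fin.cons_zero, Fin.cons_succ]
          exact hgx j
      · refine Fin.cases ?_ (fun j => ?_) j
        · intro h
          exact absurd h (Fin.not_lt_zero _)
        · intro h
          rw [Fin.cons_succ, Fin.cons_succ]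
          exact hmono (Fin.succ_lt_succ_iff.1 h)
    · intro i j
      refine Fin.cases ?_ (fun i => ?_) i
      · refine Fin.cases ?_ (fun j => ?_) j
        · intro h
          exact absurd h (lt_irrefl _)
        · intro _
          rw [Fin.cons_zero, Fin.cons_succ, Fin.cons_zero]
          exact (Finset.mem_filter.1 (hg j)).2
      · refine Fin.cases ?_ (fun j => ?_) j
        · intro h
          exact absurd h (Fin.not_lt_zero _)
        · intro h
          rw [Fin.cons_succ, Fin.cons_succ, Fin.cons_succ]
          exact hgd i j (Fin.succ_lt_succ_iff.1 h)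

end XRPW

theorem RPW_pf : S_RPW := by
  intro κ _ n
  have := Fintype.ofFinite κ
  obtain ⟨M, hM⟩ := XRPW.pre κ (Fintype.card κ * n + 1)
  refine ⟨M + 1, ?_⟩
  intro χ
  obtain ⟨g, d, -, hmono, hgd⟩ := hM (Fin (M + 1)) χ Finset.univ (by
    rw [Finset.card_univ, Fintype.card_fin]
    omega)
  obtain ⟨x, hx⟩ := Fintype.exists_lt_card_fiber_of_mul_lt_card d (n := n) (by
    rw [Fintype.card_fin]
    omega)
  set e := Finset.orderEmbOfCardLe (Finset.univ.filter fun i => d i = x) hx.le with he
  refine ⟨fun i => g (e i), x, fun i j hij => hmono (e.strictMono hij), ?_⟩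
  intro i j hij
  rw [hgd _ _ (e.strictMono hij)]
  exact (Finset.mem_filter.1 (Finset.orderEmbOfCardLe_mem _ hx.le i)).2

end Pool.Agent.Work.MP_8dbde4_lc.FK
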