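import Pool.Agent.Work.MP_8dbde4_lc.FK.StmtsE

/-!
# Block [8dbde4 FK], item SFP: the positive part for stars and for constant tuples
-/

set_option autoImplicit false
open Classical

namespace Pool.Agent.Work.MP_8dbde4_lc.FK

open Pool.Agent.Work.MP_8dbde4_lc.TS
open Pool.Agent.Work.MP_8dbde4_lc.Tree (Word Agr Cc)
open Pool.Agent.Work.MP_8dbde4_lc.Phy (PP Hom)
open Pool.Agent.Work.MP_8dbde4_lc.Bra (Same InvU BinOn pull c₂)
open Pool.Agent.Work.MP_8dbde4_lc.Full (Arr NEq Cst0 BT Sub)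

namespace XSFP

theorem inFP_congr {σ : Sig} {𝒦 𝒦' : Class σ}
    (h : ∀ (A : Type) [Finite A] (𝔄 : Str σ A), 𝒦 A 𝔄 ↔ 𝒦' A 𝔄) (hF : InFP 𝒦) : InFP 𝒦' := by
  obtain ⟨φ, hφ⟩ := hF
  exact ⟨φ, fun A _ _ 𝔄 v => (hφ A 𝔄 v).trans (h A 𝔄)⟩

theorem inFPC_congr {σ : Sig} {𝒦 𝒦' : Class σ}
    (h : ∀ (A : Type) [Finite A] (𝔄 : Str σ A), 𝒦 A 𝔄 ↔ 𝒦' A 𝔄) (hF : InFPC 𝒦) : InFPC 𝒦' := by
  obtain ⟨φ, hφ⟩ := hF
  exact ⟨φ, fun A _ _ 𝔄 v ν => (hφ A 𝔄 v ν).trans (h A 𝔄)⟩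

theorem starT_comp {K : Type} {c : ℚ → K} {X Y : Type} {z : X → Word c} (h : StarT z)
    (t : Y → X) : StarT fun y => z (t y) := fun x y w hc => h (t x) (t y) (t w) hc

/-- the word `c` -/
def base {K : Type} (c : ℚ → K) : Word c := ⟨c, by simp⟩

/-- the word `c` changed at the place `0` -/
def chg {K : Type} (c : ℚ → K) (k : K) : Word c :=
  ⟨fun q => if q = 0 then k else c q, by
    refine (Set.finite_singleton (0 : ℚ)).subset ?_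
    intro q hq
    by_contra hc
    apply hq
    simp only [Set.mem_singleton_iff] at hc
    simp [hc]⟩

theorem infinite_word {K : Type} [Infinite K] (c : ℚ → K) : Infinite (Word c) := by
  refine Infinite.of_injective (chg c) fun a b h => ?_
  have h1 : (chg c a).1 0 = (chg c b).1 0 := by rw [h]
  simpa [chg] using h1

/-- constant tuples have the same splits -/
theorem const_sameOn {K : Type} {c : ℚ → K} {X : Type} (a b : Word c) :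
    SameOn (Set.univ : Set X) (fun _ => a) (fun _ => b) :=
  ⟨fun _ _ _ _ => ⟨fun _ => rfl, fun _ => rfl⟩,
    fun _ _ _ _ _ _ => ⟨fun h => absurd h cc_irrefl, fun h => absurd h cc_irrefl⟩⟩

section KC

variable {K : Type} {c : ℚ → K} {σ : Sig} {𝔅 : Str σ (Word c)}

theorem hom_up {A B : Type} {𝔄 : Str σ A} {𝔅 : Str σ B} {f : A → B}
    (h : Hom 𝔄 𝔅 f) : Hom 𝔄 (Full.kc 𝔅) f := fun R t ht =>
  ⟨fun j => f (t j), h R t ht, fun _ _ => Iff.rfl⟩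

theorem hom_down [Infinite K] (hSTX : S_STX)
    (h : ∀ (R : σ.S) (v z : Fin (σ.ar R) → Word c), 𝔅.rel R v → StarT z →
      (∀ x y, z x = z y ↔ v x = v y) → 𝔅.rel R z)
    {A : Type} [Finite A] {𝔄 : Str σ A} {f : A → Word c} (hf : Hom 𝔄 (Full.kc 𝔅) f) :
    ∃ z : A → Word c, Hom 𝔄 𝔅 z ∧ ∀ x y, z x = z y ↔ f x = f y := by
  obtain ⟨z, hz, he⟩ := hSTX K c A (Word c) f
  refine ⟨z, fun R t ht => ?_, he⟩
  obtain ⟨u, hu, hue⟩ := hf R t ht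
  refine h R u (fun j => z (t j)) hu (starT_comp hz t) fun x y => ?_
  rw [he, hue]

theorem csp_kc [Infinite K] (hSTX : S_STX)
    (h : ∀ (R : σ.S) (v z : Fin (σ.ar R) → Word c), 𝔅.rel R v → StarT z →
      (∀ x y, z x = z y ↔ v x = v y) → 𝔅.rel R z)
    (A : Type) [Finite A] (𝔄 : Str σ A) : CSP 𝔅 A 𝔄 ↔ CSP (Full.kc 𝔅) A 𝔄 := by
  constructor
  · rintro ⟨f, hf⟩
    exact ⟨f, hom_up hf⟩
  · rintro ⟨f, hf⟩
    obtain ⟨z, hz, -⟩ := hom_down hSTX h (𝔄 := 𝔄) (f := f) hf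
    exact ⟨z, hz⟩

theorem neq_kc [Infinite K] (hSTX : S_STX)
    (h : ∀ (R : σ.S) (v z : Fin (σ.ar R) → Word c), 𝔅.rel R v → StarT z →
      (∀ x y, z x = z y ↔ v x = v y) → 𝔅.rel R z) (hN : NEq 𝔅) : NEq (Full.kc 𝔅) := by
  obtain ⟨D, hD, 𝔇, m, hm⟩ := hN
  refine ⟨D, hD, 𝔇, m, fun v => ⟨?_, ?_⟩⟩
  · intro hv
    obtain ⟨f, hf, hfm⟩ := (hm v).mp hv
    exact ⟨f, hom_up hf, hfm⟩
  · rintro ⟨f, hf, hfm⟩
    obtain ⟨z, hz, hze⟩ := hom_down hSTX h (𝔄 := 𝔇) (f := f) hf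
    have h1 : z (m 0) ≠ z (m 1) := (hm fun x => z (m x)).mpr ⟨z, hz, fun _ => rfl⟩
    intro h2
    apply h1
    rw [hze, ← hfm, ← hfm]
    exact h2

end KC

/-- the equality language on `Word c₂` -/
def B2 {K : Type} {c : ℚ → K} {σ : Sig} (𝔅 : Str σ (Word c)) : Str σ (Word c₂) where
  rel R v := ∃ u, 𝔅.rel R u ∧ ∀ x y, u x = u y ↔ v x = v y

end XSFP

open XSFP

theorem SFP_pf : S_SFP := by
  intro hSTX hCMB hE K _ c σ 𝔅 hS
  have key : ∀ R, Full.EqH ((B2 𝔅).rel R) := by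
    intro R v w z hv hw _ hk
    obtain ⟨u, hu, hku⟩ := hv
    obtain ⟨u', hu', hku'⟩ := hw
    obtain ⟨z', hz', he⟩ := hSTX K c (Fin (σ.ar R)) (Word c₂) z
    refine ⟨z', hS R u u' z' hu hu' hz' fun x y => ?_, he⟩
    rw [he, hk, hku, hku']
  refine inFP_congr (fun A _ 𝔄 => ?_) (hE c₂ σ (B2 𝔅) key)
  constructor
  · rintro ⟨h, hh⟩
    obtain ⟨z, hz, he⟩ := hSTX K c A (Word c₂) h
    refine ⟨z, fun R t ht => ?_⟩
    obtain ⟨u, hu, hku⟩ := hh R t ht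
    refine hS R u u (fun j => z (t j)) hu hu (starT_comp hz t) fun x y => ?_
    rw [he, hku, and_self]
  · rintro ⟨h, hh⟩
    obtain ⟨h₂, -, he⟩ := hCMB c₂ A (Word c) h
    exact ⟨h₂, fun R t ht => ⟨fun j => h (t j), hh R t ht, fun x y => (he _ _).symm⟩⟩

theorem SNF_pf : S_SNF := by
  intro hSSM hRPS hPPB hARR hSTX hEQN K _ c σ 𝔅 hA hN hSS hF R v w z hv hw hz hk
  have hyp : ∀ (R : σ.S) (v z : Fin (σ.ar R) → Word c), 𝔅.rel R v → StarT z →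
      (∀ x y, z x = z y ↔ v x = v y) → 𝔅.rel R z := by
    intro R v z hv hz hk
    exact hSSM hRPS hPPB hARR K c σ 𝔅 hA hSS (Fin (σ.ar R)) (𝔅.rel R)
      ((hPPB σ (Word c) 𝔅).1 R) v z hv hz hk
  have hinf : Infinite (Word c) := infinite_word c
  have hKI : ∀ R, Full.KI ((Full.kc 𝔅).rel R) := by
    rintro R v w hvw ⟨u, hu, hu'⟩
    exact ⟨u, hu, fun x y => (hu' x y).trans (hvw x y)⟩
  obtain ⟨u, ⟨u', hu', hku'⟩, hku⟩ := hEQN σ (Word c) (Full.kc 𝔅) hKI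
    (neq_kc hSTX hyp hN) (inFPC_congr (fun A _ 𝔄 => csp_kc hSTX hyp A 𝔄) hF)
    (Fin (σ.ar R)) ((Full.kc 𝔅).rel R) ((hPPB σ (Word c) (Full.kc 𝔅)).1 R) v w
    ⟨v, hv, fun _ _ => Iff.rfl⟩ ⟨w, hw, fun _ _ => Iff.rfl⟩
  refine hyp R u' z hu' hz ?_
  intro x y
  rw [hk, hku', hku]

theorem CFP_pf : S_CFP := by
  intro hZ K c σ 𝔅 hInv hC
  refine inFP_congr (fun A _ 𝔄 => ?_)
    (hZ c₂ σ ⟨fun R _ => ∃ v, 𝔅.rel R v⟩ (fun R v w _ h => h) fun R h => ?_)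
  · constructor
    · rintro ⟨h, hh⟩
      refine ⟨fun _ => base c, fun R t ht => ?_⟩
      obtain ⟨a, ha⟩ := hC R (hh R t ht)
      exact hInv R _ _ (const_sameOn a _) ha
    · rintro ⟨h, hh⟩
      exact ⟨fun _ => base c₂, fun R t ht => ⟨_, hh R t ht⟩⟩
  · obtain ⟨_, h⟩ := h
    exact ⟨base c₂, h⟩

end Pool.Agent.Work.MP_8dbde4_lc.FK
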