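import Pool.Agent.Work.MP_8dbde4_lc.FK.StmtsA

/-!
Item SHF of the block FK of MP_8dbde4_lc: facts on shapes, any letters.
-/

set_option autoImplicit false
open Classical

namespace Pool.Agent.Work.MP_8dbde4_lc.FK

open Pool.Agent.Work.MP_8dbde4_lc.TS
open Pool.Agent.Work.MP_8dbde4_lc.Tree (Word Agr Cc)
open Pool.Agent.Work.MP_8dbde4_lc.Phy (PP Hom)
open Pool.Agent.Work.MP_8dbde4_lc.Bra (Same InvU BinOn pull c₂)
open Pool.Agent.Work.MP_8dbde4_lc.Full (Arr NEq Cst0 BT Sub)
open Pool.Agent.Work.MP_8dbde4_lc.Full.BT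

namespace XSHF

variable {K : Type} {c : ℚ → K} {X : Type}

theorem sep_ne {v : X → Word c} {A B : List X} (h : Sep v A B) {x y : X} (hx : x ∈ A)
    (hy : y ∈ B) : v x ≠ v y :=
  cc_ne (h.2 x hx y hy y hy)

theorem sep_symm {v : X → Word c} {A B : List X} (h : Sep v A B) : Sep v B A :=
  ⟨fun x hx y hy z hz => h.2 z hz x hx y hy, fun x hx y hy z hz => h.1 y hy z hz x hx⟩

/-- A point of the side of `x` does not split off from `x` and a point of the other side. -/
theorem sep_not {v : X → Word c} {A B : List X} (h : Sep v A B) {x y z : X} (hx : x ∈ A)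
    (hy : y ∈ B) (hz : z ∈ A) : ¬ Cc (v z) (v x) (v y) := by
  intro h1
  exact cc_asymm (cc_symm h1) (h.1 z hz x hx y hy)

theorem sep_not' {v : X → Word c} {A B : List X} (h : Sep v A B) {x y z : X} (hx : x ∈ A)
    (hy : y ∈ B) (hz : z ∈ B) : ¬ Cc (v z) (v x) (v y) := by
  intro h1
  exact sep_not (sep_symm h) hy hx hz (cc_symm h1)

/-- All the splits across the two sides are determined. -/
theorem sep_same {v w : X → Word c} {A B : List X} (hv : Sep v A B) (hw : Sep w A B)
    (hA : SameOn {x | x ∈ A} v w) (hB : SameOn {x | x ∈ B} v w) :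
    SameOn {x | x ∈ A ++ B} v w := by
  constructor
  · intro x hx y hy
    rcases List.mem_append.1 hx with hx | hx <;> rcases List.mem_append.1 hy with hy | hy
    · exact hA.1 x hx y hy
    · exact iff_of_false (sep_ne hv hx hy) (sep_ne hw hx hy)
    · exact iff_of_false (fun h => sep_ne hv hy hx h.symm) (fun h => sep_ne hw hy hx h.symm)
    · exact hB.1 x hx y hy
  · intro x hx y hy z hz
    rcases List.mem_append.1 hx with hx | hx <;> rcases List.mem_append.1 hy with hy | hy <;>
      rcases List.mem_append.1 hz with hz | hz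
    · exact hA.2 x hx y hy z hz
    · exact iff_of_true (hv.1 x hx y hy z hz) (hw.1 x hx y hy z hz)
    · exact iff_of_false (sep_not hv hx hy hz) (sep_not hw hx hy hz)
    · exact iff_of_false (sep_not' hv hx hy hz) (sep_not' hw hx hy hz)
    · exact iff_of_false (fun h => sep_not hv hy hx hz (cc_symm h))
        (fun h => sep_not hw hy hx hz (cc_symm h))
    · exact iff_of_false (fun h => sep_not' hv hy hx hz (cc_symm h))
        (fun h => sep_not' hw hy hx hz (cc_symm h))
    · exact iff_of_true (hv.2 z hz x hx y hy) (hw.2 z hz x hx y hy)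
    · exact hB.2 x hx y hy z hz

theorem f1 (v : X → Word c) : ∀ T : BT X, Sh v T →
    T.lvs.Nodup ∧ Set.InjOn v {x | x ∈ T.lvs} := by
  intro T
  induction T with
  | lf x =>
    intro _
    refine ⟨List.nodup_singleton x, ?_⟩
    intro a ha b hb _
    have h1 : a = x := List.mem_singleton.1 ha
    have h2 : b = x := List.mem_singleton.1 hb
    rw [h1, h2]
  | nd l r ihl ihr =>
    rintro ⟨hl, hr, hs⟩
    obtain ⟨hl1, hl2⟩ := ihl hl
    obtain ⟨hr1, hr2⟩ := ihr hr
    refine ⟨?_, ?_⟩
    · show (l.lvs ++ r.lvs).Nodup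
      refine List.Nodup.append hl1 hr1 ?_
      intro a ha hb
      exact sep_ne hs ha hb rfl
    · intro a ha b hb hab
      rcases List.mem_append.1 ha with ha | ha <;> rcases List.mem_append.1 hb with hb | hb
      · exact hl2 ha hb hab
      · exact absurd hab (sep_ne hs ha hb)
      · exact absurd hab.symm (sep_ne hs hb ha)
      · exact hr2 ha hb hab

theorem f2 (v w : X → Word c) : ∀ T : BT X, Sh v T → Sh w T →
    SameOn {x | x ∈ T.lvs} v w := by
  intro T
  induction T with
  | lf x =>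
    intro _ _
    have key : ∀ a ∈ {y | y ∈ (lf x).lvs}, a = x := fun a ha => List.mem_singleton.1 ha
    constructor
    · intro a ha b hb
      rw [key a ha, key b hb]
      exact iff_of_true rfl rfl
    · intro a ha b hb d hd
      rw [key a ha, key b hb, key d hd]
      exact iff_of_false cc_irrefl cc_irrefl
  | nd l r ihl ihr =>
    rintro ⟨hl, hr, hs⟩ ⟨hl', hr', hs'⟩
    exact sep_same hs hs' (ihl hl hl') (ihr hr hr')

theorem f3 (v w : X → Word c) : ∀ T : BT X, Sh v T → SameOn {x | x ∈ T.lvs} v w → Sh w T := by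
  intro T
  induction T with
  | lf x => intro _ _; trivial
  | nd l r ihl ihr =>
    rintro ⟨hl, hr, hs⟩ H
    have mA : ∀ x ∈ l.lvs, x ∈ {x | x ∈ (nd l r).lvs} :=
      fun x hx => List.mem_append.2 (Or.inl hx)
    have mB : ∀ x ∈ r.lvs, x ∈ {x | x ∈ (nd l r).lvs} :=
      fun x hx => List.mem_append.2 (Or.inr hx)
    refine ⟨ihl hl (H.mono mA), ihr hr (H.mono mB), ?_, ?_⟩
    · intro x hx y hy z hz
      exact (H.2 x (mA x hx) y (mA y hy) z (mB z hz)).1 (hs.1 x hx y hy z hz)
    · intro x hx y hy z hz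
      exact (H.2 y (mB y hy) z (mB z hz) x (mA x hx)).1 (hs.2 x hx y hy z hz)

theorem lvs_map {Y : Type} (e : X → Y) : ∀ T : BT X, (T.map e).lvs = T.lvs.map e := by
  intro T
  induction T with
  | lf x => rfl
  | nd l r ihl ihr =>
    show (l.map e).lvs ++ (r.map e).lvs = (l.lvs ++ r.lvs).map e
    rw [ihl, ihr, List.map_append]

theorem sep_map {Y : Type} (e : X → Y) (v : Y → Word c) (A B : List X) :
    Sep v (A.map e) (B.map e) ↔ Sep (fun x => v (e x)) A B := by
  constructor
  · rintro ⟨h1, h2⟩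
    refine ⟨?_, ?_⟩
    · intro x hx y hy z hz
      exact h1 _ (List.mem_map_of_mem hx) _ (List.mem_map_of_mem hy) _ (List.mem_map_of_mem hz)
    · intro x hx y hy z hz
      exact h2 _ (List.mem_map_of_mem hx) _ (List.mem_map_of_mem hy) _ (List.mem_map_of_mem hz)
  · rintro ⟨h1, h2⟩
    refine ⟨?_, ?_⟩
    · intro x hx y hy z hz
      obtain ⟨x', hx', rfl⟩ := List.mem_map.1 hx
      obtain ⟨y', hy', rfl⟩ := List.mem_map.1 hy
      obtain ⟨z', hz', rfl⟩ := List.mem_map.1 hz
      exact h1 x' hx' y' hy' z' hz'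
    · intro x hx y hy z hz
      obtain ⟨x', hx', rfl⟩ := List.mem_map.1 hx
      obtain ⟨y', hy', rfl⟩ := List.mem_map.1 hy
      obtain ⟨z', hz', rfl⟩ := List.mem_map.1 hz
      exact h2 x' hx' y' hy' z' hz'

theorem f4 {Y : Type} (e : X → Y) (v : Y → Word c) : ∀ T : BT X,
    Sh v (T.map e) ↔ Sh (fun x => v (e x)) T := by
  intro T
  induction T with
  | lf x => exact Iff.rfl
  | nd l r ihl ihr =>
    show (Sh v (l.map e) ∧ Sh v (r.map e) ∧ Sep v (l.map e).lvs (r.map e).lvs) ↔
      (Sh (fun x => v (e x)) l ∧ Sh (fun x => v (e x)) r ∧ Sep (fun x => v (e x)) l.lvs r.lvs)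
    rw [ihl, ihr, lvs_map, lvs_map, sep_map]

theorem lvs_mir : ∀ T : BT X, T.mir.lvs = T.lvs.reverse := by
  intro T
  induction T with
  | lf x => rfl
  | nd l r ihl ihr =>
    show r.mir.lvs ++ l.mir.lvs = (l.lvs ++ r.lvs).reverse
    rw [ihl, ihr, List.reverse_append]

theorem sep_rev (v : X → Word c) (A B : List X) :
    Sep v B.reverse A.reverse ↔ Sep v A B := by
  constructor
  · rintro ⟨h1, h2⟩
    refine ⟨?_, ?_⟩
    · intro x hx y hy z hz
      exact h2 z (List.mem_reverse.2 hz) x (List.mem_reverse.2 hx) y (List.mem_reverse.2 hy)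
    · intro x hx y hy z hz
      exact h1 y (List.mem_reverse.2 hy) z (List.mem_reverse.2 hz) x (List.mem_reverse.2 hx)
  · rintro ⟨h1, h2⟩
    refine ⟨?_, ?_⟩
    · intro x hx y hy z hz
      exact h2 z (List.mem_reverse.1 hz) x (List.mem_reverse.1 hx) y (List.mem_reverse.1 hy)
    · intro x hx y hy z hz
      exact h1 y (List.mem_reverse.1 hy) z (List.mem_reverse.1 hz) x (List.mem_reverse.1 hx)

theorem f5 (v : X → Word c) : ∀ T : BT X, Sh v T.mir ↔ Sh v T := by
  intro T
  induction T with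
  | lf x => exact Iff.rfl
  | nd l r ihl ihr =>
    show (Sh v r.mir ∧ Sh v l.mir ∧ Sep v r.mir.lvs l.mir.lvs) ↔
      (Sh v l ∧ Sh v r ∧ Sep v l.lvs r.lvs)
    rw [ihl, ihr, lvs_mir, lvs_mir, sep_rev]
    tauto

theorem f7 {t T : BT X} (h : Sub t T) : List.Sublist t.lvs T.lvs := by
  induction h with
  | rfl x => exact List.Sublist.refl _
  | left r _ ih => exact ih.trans (List.sublist_append_left _ _)
  | right l _ ih => exact ih.trans (List.sublist_append_right _ _)
  | both _ _ ih1 ih2 => exact ih1.append ih2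

theorem sep_mono {v : X → Word c} {A B A' B' : List X} (h : Sep v A B) (hA : A' ⊆ A)
    (hB : B' ⊆ B) : Sep v A' B' :=
  ⟨fun x hx y hy z hz => h.1 x (hA hx) y (hA hy) z (hB hz),
    fun x hx y hy z hz => h.2 x (hA hx) y (hB hy) z (hB hz)⟩

theorem f6 {t T : BT X} (v : X → Word c) (h : Sub t T) : Sh v T → Sh v t := by
  induction h with
  | rfl x => exact fun h => h
  | left r _ ih => exact fun h => ih h.1
  | right l _ ih => exact fun h => ih h.2.1
  | both h1 h2 ih1 ih2 =>
    rintro ⟨hl, hr, hs⟩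
    exact ⟨ih1 hl, ih2 hr, sep_mono hs (f7 h1).subset (f7 h2).subset⟩

theorem f8 (v : X → Word c) : ∀ T : BT X, Sh v T → Bin {x | x ∈ T.lvs} v := by
  intro T
  induction T with
  | lf x =>
    intro _ a ha b hb d _ hst
    have h1 : a = x := List.mem_singleton.1 ha
    have h2 : b = x := List.mem_singleton.1 hb
    exact hst.1 (by rw [h1, h2])
  | nd l r ihl ihr =>
    rintro ⟨hl, hr, hs⟩ x hx y hy z hz hst
    have hst' := hst
    obtain ⟨_, _, _, h4, h5, h6⟩ := hst'
    rcases List.mem_append.1 hx with hx | hx <;> rcases List.mem_append.1 hy with hy | hy <;>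
      rcases List.mem_append.1 hz with hz | hz
    · exact ihl hl x hx y hy z hz hst
    · exact h4 (hs.1 x hx y hy z hz)
    · exact h5 (hs.1 x hx z hz y hy)
    · exact h6 (hs.2 x hx y hy z hz)
    · exact h6 (hs.1 y hy z hz x hx)
    · exact h5 (hs.2 y hy x hx z hz)
    · exact h4 (hs.2 z hz x hx y hy)
    · exact ihr hr x hx y hy z hz hst

end XSHF

theorem SHF_pf : S_SHF := by
  intro K c X T
  exact ⟨fun v => XSHF.f1 v T, fun v w => XSHF.f2 v w T, fun v w => XSHF.f3 v w T,
    fun Y e v => XSHF.f4 e v T, fun v => ⟨XSHF.f5 v T, XSHF.lvs_mir T⟩,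
    fun t v h => XSHF.f6 v h, fun t h => XSHF.f7 h, fun v => XSHF.f8 v T⟩

end Pool.Agent.Work.MP_8dbde4_lc.FK
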