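import Pool.Agent.Work.MP_8dbde4_lc.FK.StmtsA
import Pool.Agent.Work.MP_8dbde4_lc.Bra.Stmts

/-!
Item SHX of the block FK of MP_8dbde4_lc: shapes exist.
-/

set_option autoImplicit false
open Classical

namespace Pool.Agent.Work.MP_8dbde4_lc.FK

open Pool.Agent.Work.MP_8dbde4_lc.TS
open Pool.Agent.Work.MP_8dbde4_lc.Tree (Word Agr Cc)
open Pool.Agent.Work.MP_8dbde4_lc.Phy (PP Hom)
open Pool.Agent.Work.MP_8dbde4_lc.Bra (Same InvU BinOn pull c₂)
open Pool.Agent.Work.MP_8dbde4_lc.Full (Arr NEq Cst0 BT Sub)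
open Pool.Agent.Work.MP_8dbde4_lc.Full.BT

namespace XSHX

/-- Transfer of a shape from the binary tree. -/
theorem sh_of_full {K X : Type} {c : ℚ → K} (u : X → Word c₂) (v : X → Word c)
    (h : ∀ x y z, Cc (u z) (u x) (u y) → Cc (v z) (v x) (v y)) :
    ∀ T : BT X, Full.Sh u T → Sh v T
  | lf _ => fun _ => trivial
  | nd l r => fun hT => by
      refine ⟨sh_of_full u v h l hT.1, sh_of_full u v h r hT.2.1, ?_, ?_⟩
      · intro x hx y hy z hz
        exact h x y z (hT.2.2.1 x hx y hy z hz)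
      · intro x hx y hy z hz
        exact h y z x (hT.2.2.2 x hx y hy z hz)

theorem lvs_map {X Y : Type} (e : X → Y) : ∀ T : BT X, (T.map e).lvs = T.lvs.map e
  | lf _ => rfl
  | nd l r => by
      change (l.map e).lvs ++ (r.map e).lvs = (l.lvs ++ r.lvs).map e
      rw [lvs_map e l, lvs_map e r, List.map_append]

theorem sh_map {K X Y : Type} {c : ℚ → K} (e : X → Y) (v : Y → Word c) :
    ∀ T : BT X, Sh (fun x => v (e x)) T → Sh v (T.map e)
  | lf _ => fun _ => trivial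
  | nd l r => fun hT => by
      refine ⟨sh_map e v l hT.1, sh_map e v r hT.2.1, ?_, ?_⟩
      · intro x hx y hy z hz
        rw [lvs_map, List.mem_map] at hx hy hz
        obtain ⟨x', hx', rfl⟩ := hx
        obtain ⟨y', hy', rfl⟩ := hy
        obtain ⟨z', hz', rfl⟩ := hz
        exact hT.2.2.1 x' hx' y' hy' z' hz'
      · intro x hx y hy z hz
        rw [lvs_map, List.mem_map] at hx hy hz
        obtain ⟨x', hx', rfl⟩ := hx
        obtain ⟨y', hy', rfl⟩ := hy
        obtain ⟨z', hz', rfl⟩ := hz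
        exact hT.2.2.2 x' hx' y' hy' z' hz'

/-- The word `c` changed at one place. -/
noncomputable def chg {K : Type} (c : ℚ → K) (a : K) (p : ℚ) : Word c :=
  ⟨fun q => if q = p then a else c q, by
    refine (Set.finite_singleton p).subset ?_
    intro q hq
    by_contra hc
    have h1 : q ≠ p := hc
    apply hq
    change (if q = p then a else c q) = c q
    rw [if_neg h1]⟩

theorem chg_at {K : Type} (c : ℚ → K) (a : K) (p : ℚ) : (chg c a p).1 p = a := if_pos rfl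

theorem chg_ne {K : Type} (c : ℚ → K) (a : K) {p q : ℚ} (h : q ≠ p) : (chg c a p).1 q = c q :=
  if_neg h

/-- The comb. -/
noncomputable def cz {K X : Type} (c : ℚ → K) (oth : K → K) (f : X → ℕ) (x : X) : Word c :=
  chg c (oth (c (f x))) (f x)

theorem cz_cc {K X : Type} {c : ℚ → K} {oth : K → K} (ho : ∀ k, oth k ≠ k) {f : X → ℕ} {x y z : X}
    (h1 : f x < f y) (h2 : f x < f z) : Cc (cz c oth f x) (cz c oth f y) (cz c oth f z) := by
  have h1' : ((f x : ℕ) : ℚ) < ((f y : ℕ) : ℚ) := by exact_mod_cast h1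
  have h2' : ((f x : ℕ) : ℚ) < ((f z : ℕ) : ℚ) := by exact_mod_cast h2
  have hx : (cz c oth f x).1 (f x) = oth (c (f x)) := chg_at _ _ _
  have hy : ∀ q : ℚ, q ≤ (f x : ℕ) → (cz c oth f y).1 q = c q :=
    fun q hq => chg_ne _ _ (ne_of_lt (lt_of_le_of_lt hq h1'))
  have hz : ∀ q : ℚ, q ≤ (f x : ℕ) → (cz c oth f z).1 q = c q :=
    fun q hq => chg_ne _ _ (ne_of_lt (lt_of_le_of_lt hq h2'))
  have hx' : ∀ q : ℚ, q < (f x : ℕ) → (cz c oth f x).1 q = c q :=
    fun q hq => chg_ne _ _ (ne_of_lt hq)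
  refine ⟨(f x : ℕ), ?_, ?_, ?_, ?_⟩
  · intro q hq
    rw [hx' q hq, hy q hq.le]
  · intro q hq
    rw [hx' q hq, hz q hq.le]
  · rw [hy _ le_rfl, hz _ le_rfl]
  · rw [hx, hy _ le_rfl]
    exact ho _

theorem cz_inj {K X : Type} {c : ℚ → K} {oth : K → K} (ho : ∀ k, oth k ≠ k) {f : X → ℕ}
    (hf : Function.Injective f) : Function.Injective (cz c oth f) := by
  intro x y hxy
  by_contra hne
  rcases lt_or_gt_of_ne (fun h => hne (hf h)) with h | h
  · exact cc_ne (cz_cc ho h h) hxy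
  · exact cc_ne (cz_cc ho h h) hxy.symm

theorem comb_of {K X : Type} {c : ℚ → K} {z : X → Word c} {f : X → ℕ}
    (h : ∀ x y y', f x < f y → f x < f y' → Cc (z x) (z y) (z y')) :
    ∀ ℓ : List X, ℓ.Pairwise (fun x y => f x < f y) → CombL z ℓ
  | [] => fun _ => trivial
  | x :: ℓ => fun hp => by
      rw [List.pairwise_cons] at hp
      exact ⟨fun y hy y' hy' => h x y y' (hp.1 y hy) (hp.1 y' hy'), comb_of h ℓ hp.2⟩

theorem exists_pos {X : Type} (ℓ : List X) (hn : ℓ.Nodup) (hm : ∀ x, x ∈ ℓ) :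
    ∃ f : X → ℕ, Function.Injective f ∧ ℓ.Pairwise (fun x y => f x < f y) := by
  refine ⟨fun x => ℓ.idxOf x, ?_, ?_⟩
  · intro x y hxy
    exact (List.idxOf_inj (hm x)).1 hxy
  · rw [List.pairwise_iff_getElem]
    intro i j hi hj hij
    change ℓ.idxOf ℓ[i] < ℓ.idxOf ℓ[j]
    rw [List.Nodup.idxOf_getElem hn i hi, List.Nodup.idxOf_getElem hn j hj]
    exact hij

end XSHX

open XSHX in
theorem SHX_pf (h1 : Full.S_SHX) (h2 : Bra.S_EMB) (h3 : Bra.S_IOT) (h4 : S_SHF) : S_SHX := by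
  have _ := h4
  intro K c X _
  refine ⟨?_, ?_, ?_⟩
  · intro hab T hT
    obtain ⟨ι, _, hι⟩ := h3 K c hab
    obtain ⟨v₂, hv⟩ := (h1 c₂ X).1 T hT
    exact ⟨fun x => ι (v₂ x), sh_of_full v₂ _ (fun x y z h => (hι _ _ _).1 h) T hv⟩
  · intro v Y hY hinj hbin
    have hb : BinOn Set.univ (fun y : Y => v y.1) := by
      rw [bin_iff]
      intro x _ y _ z _
      exact hbin x.1 x.2 y.1 y.2 z.1 z.2
    obtain ⟨u, hu⟩ := h2 K c Y (fun y => v y.1) hb
    obtain ⟨T, hT, hs⟩ := (h1 c₂ Y).2 u Set.univ ⟨⟨hY.choose, hY.choose_spec⟩, trivial⟩ (by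
      intro x _ y _ hxy
      have h5 : v x.1 = v y.1 := (hu.1 x y).2 hxy
      exact Subtype.ext (hinj x.2 y.2 h5))
    refine ⟨T.map Subtype.val, ?_, ?_⟩
    · intro x
      rw [lvs_map, List.mem_map]
      constructor
      · rintro ⟨y, _, rfl⟩
        exact y.2
      · intro hx
        exact ⟨⟨x, hx⟩, (hT _).2 trivial, rfl⟩
    · exact sh_map Subtype.val v T (sh_of_full u _ (fun x y z h => (hu.2 x y z).2 h) T hs)
  · rintro ⟨a, b, hab⟩ ℓ hn hm
    have ho : ∀ k : K, ∃ k' : K, k' ≠ k := by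
      intro k
      by_cases h : k = a
      · exact ⟨b, fun h' => hab (h.symm.trans h'.symm)⟩
      · exact ⟨a, fun h' => h h'.symm⟩
    choose oth hoth using ho
    obtain ⟨f, hf, hp⟩ := exists_pos ℓ hn hm
    exact ⟨cz c oth f, cz_inj hoth hf, comb_of (fun x y y' h h' => cz_cc hoth h h') ℓ hp⟩

end Pool.Agent.Work.MP_8dbde4_lc.FK
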