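import Pool.Agent.Work.MP_8dbde4_lc.FK.StmtsE

/-!
# Block FK: existence of stars; no stars for finitely many letters
-/

set_option autoImplicit false
open Classical

namespace Pool.Agent.Work.MP_8dbde4_lc.FK

open Pool.Agent.Work.MP_8dbde4_lc.TS
open Pool.Agent.Work.MP_8dbde4_lc.Tree (Word Agr Cc)
open Pool.Agent.Work.MP_8dbde4_lc.Phy (PP Hom)
open Pool.Agent.Work.MP_8dbde4_lc.Bra (Same InvU BinOn pull c₂)
open Pool.Agent.Work.MP_8dbde4_lc.Full (Arr NEq Cst0 BT Sub)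

namespace XSTX

/-- The word `c` changed to `k` at the place `p`. -/
noncomputable def chg {K : Type} (c : ℚ → K) (p : ℚ) (k : K) : Word c :=
  ⟨fun q => if q = p then k else c q, by
    refine (Set.finite_singleton p).subset ?_
    intro q hq
    by_contra hc
    apply hq
    have h1 : q ≠ p := hc
    simp only [if_neg h1]⟩

theorem chg_same {K : Type} (c : ℚ → K) (p : ℚ) (k : K) : (chg c p k).1 p = k := by
  unfold chg
  simp only [if_true]

theorem chg_ne {K : Type} (c : ℚ → K) (p : ℚ) (k : K) (q : ℚ) (h : q ≠ p) :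
    (chg c p k).1 q = c q := by
  unfold chg
  simp only [if_neg h]

end XSTX

/-- Item STX. -/
theorem STX_pf : S_STX := by
  intro K _ c X B _ f
  haveI : Finite (Set.range f) := Set.finite_range f
  obtain ⟨g, hg⟩ := Countable.exists_injective_nat (Set.range f)
  obtain ⟨e⟩ : Nonempty (ℕ ↪ K) := ⟨Infinite.natEmbedding K⟩
  obtain ⟨r, hr⟩ : ∃ r : X → ℕ, ∀ x y, r x = r y ↔ f x = f y := by
    refine ⟨fun x => g ⟨f x, x, rfl⟩, fun x y => ⟨fun h => ?_, fun h => ?_⟩⟩
    · have h1 := hg h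
      exact congrArg Subtype.val h1
    · have h1 : (⟨f x, x, rfl⟩ : Set.range f) = ⟨f y, y, rfl⟩ := Subtype.ext h
      show g _ = g _
      rw [h1]
  have hz : ∀ x y, XSTX.chg c 0 (e (r x)) = XSTX.chg c 0 (e (r y)) ↔ f x = f y := by
    intro x y
    rw [← hr x y]
    refine ⟨fun h => ?_, fun h => by rw [h]⟩
    have h1 : (XSTX.chg c 0 (e (r x))).1 0 = (XSTX.chg c 0 (e (r y))).1 0 := by rw [h]
    rw [XSTX.chg_same, XSTX.chg_same] at h1
    exact e.injective h1
  refine ⟨fun x => XSTX.chg c 0 (e (r x)), ?_, hz⟩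
  rintro x y z ⟨q, h1, h2, h3, h4⟩
  have hq : q = 0 := by
    by_contra hq
    apply h4
    rw [XSTX.chg_ne _ _ _ _ hq, XSTX.chg_ne _ _ _ _ hq]
  subst hq
  rw [XSTX.chg_same, XSTX.chg_same] at h3
  show XSTX.chg c 0 (e (r x)) = XSTX.chg c 0 (e (r y))
  rw [h3]

/-- Item SSK. -/
theorem SSK_pf : S_SSK := by
  intro K c σ 𝔅 hab hSS
  by_contra hK
  rw [not_infinite_iff_finite] at hK
  haveI := Fintype.ofFinite K
  obtain ⟨m, hm⟩ : ∃ m, m = Fintype.card K := ⟨_, rfl⟩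
  obtain ⟨a, b, hne⟩ := hab
  have hm1 : 1 ≤ m := by
    rw [hm]
    exact Fintype.card_pos_iff.2 ⟨a⟩
  -- the letter different from a given one
  obtain ⟨o, ho⟩ : ∃ o : K → K, ∀ k, o k ≠ k := by
    refine ⟨fun k => if k = a then b else a, fun k => ?_⟩
    by_cases h : k = a
    · simp only [if_pos h]
      rw [h]
      exact hne.symm
    · simp only [if_neg h]
      exact fun h' => h h'.symm
  obtain ⟨w, hwi, _, hws⟩ := hSS (Fin (m + 1)) (fun i => XSTX.chg c (i : ℕ) (o (c (i : ℕ)))) (by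
    intro i j hij
    by_contra hc
    have h1 : ((i : ℕ) : ℚ) ≠ ((j : ℕ) : ℚ) := by
      intro h
      apply hc
      have h2 : (i : ℕ) = (j : ℕ) := by exact_mod_cast h
      exact Fin.ext h2
    have h2 : (XSTX.chg c ((i : ℕ) : ℚ) (o (c (i : ℕ)))).1 ((i : ℕ) : ℚ) =
        (XSTX.chg c ((j : ℕ) : ℚ) (o (c (j : ℕ)))).1 ((i : ℕ) : ℚ) := by
      have h3 : XSTX.chg c ((i : ℕ) : ℚ) (o (c (i : ℕ))) =
        XSTX.chg c ((j : ℕ) : ℚ) (o (c (j : ℕ))) := hij
      rw [h3]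
    rw [XSTX.chg_same, XSTX.chg_ne _ _ _ _ h1] at h2
    exact ho _ h2)
  obtain ⟨x₀, hx₀⟩ : ∃ x : Fin (m + 1), x = 0 := ⟨0, rfl⟩
  obtain ⟨y₀, hy₀⟩ : ∃ y : Fin (m + 1), y = Fin.last m := ⟨_, rfl⟩
  have hxy : x₀ ≠ y₀ := by
    rw [hx₀, hy₀]
    intro h
    have h1 := congrArg Fin.val h
    simp only [Fin.val_zero, Fin.val_last] at h1
    omega
  have hwne : w x₀ ≠ w y₀ := fun h => hxy (hwi h)
  obtain ⟨q, hq1, _, _, hq4⟩ := cc_self hwne
  have hA : ∀ z, Agr (w z) (w x₀) q := by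
    intro z
    by_contra hc
    have hzne : w z ≠ w x₀ := by
      intro h
      apply hc
      intro q' _
      rw [h]
    obtain ⟨r, hr1, _, _, hr4⟩ := cc_self hzne
    have hrq : r < q := by
      by_contra hrq
      apply hc
      intro q' hq'
      exact hr1 q' (lt_of_lt_of_le hq' (not_lt.1 hrq))
    have h1 : Cc (w z) (w x₀) (w y₀) := by
      refine ⟨r, hr1, ?_, hq1 r hrq, hr4⟩
      intro q' hq'
      exact (hr1 q' hq').trans (hq1 q' (hq'.trans hrq))
    exact hwne (hws x₀ y₀ z h1)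
  have hB : Function.Injective (fun z => (w z).1 q) := by
    intro z z' hzz'
    have hzz : (w z).1 q = (w z').1 q := hzz'
    obtain ⟨t, ht⟩ : ∃ t, (w t).1 q ≠ (w z).1 q := by
      by_cases h : (w x₀).1 q = (w z).1 q
      · refine ⟨y₀, fun h' => hq4 (h.trans h'.symm)⟩
      · exact ⟨x₀, h⟩
    have h1 : Cc (w t) (w z) (w z') := by
      refine ⟨q, ?_, ?_, hzz, ht⟩
      · intro q' hq'
        exact (hA t q' hq').trans (hA z q' hq').symm
      · intro q' hq'
        exact (hA t q' hq').trans (hA z' q' hq').symm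
    exact hwi (hws z z' t h1)
  have h2 := Fintype.card_le_of_injective _ hB
  rw [Fintype.card_fin] at h2
  omega

end Pool.Agent.Work.MP_8dbde4_lc.FK
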