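import Pool.Agent.Work.MP_8dbde4_lc.FK.StmtsA

/-!
Block FK of MP_8dbde4_lc, item T0: arrows between the types of three points, three or more letters.
-/

set_option autoImplicit false
open Classical

namespace Pool.Agent.Work.MP_8dbde4_lc.FK

open Pool.Agent.Work.MP_8dbde4_lc.TS
open Pool.Agent.Work.MP_8dbde4_lc.Tree (Word Agr Cc)
open Pool.Agent.Work.MP_8dbde4_lc.Phy (PP Hom)
open Pool.Agent.Work.MP_8dbde4_lc.Full (Arr NEq Cst0)

namespace XT0

variable {K : Type} {c : ℚ → K} {σ : Sig}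

/-- The point `i` splits off from the other two. -/
def Shp (v : Fin 3 → Word c) (i : Fin 3) : Prop := ∀ j k, j ≠ i → k ≠ i → Cc (v i) (v j) (v k)

theorem shp_of {v : Fin 3 → Word c} (hv : Function.Injective v) {i j k : Fin 3} (hij : j ≠ i)
    (hik : k ≠ i) (hjk : j ≠ k) (h : Cc (v i) (v j) (v k)) : Shp v i := by
  intro a b ha hb
  by_cases hab : a = b
  · subst hab
    exact cc_self (fun h => ha (hv h).symm)
  · have h1 : (a = j ∧ b = k) ∨ (a = k ∧ b = j) := by omega
    rcases h1 with ⟨h1, h2⟩ | ⟨h1, h2⟩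
    · rw [h1, h2]
      exact h
    · rw [h1, h2]
      exact cc_symm h

/-- A star: no point splits off. -/
def Str0 (v : Fin 3 → Word c) : Prop := ∀ i, ¬ Shp v i

theorem str_iff {v : Fin 3 → Word c} (hv : Function.Injective v) :
    Str0 v ↔ St (v 0) (v 1) (v 2) := by
  have h01 : v 0 ≠ v 1 := fun h => absurd (hv h) (by decide)
  have h02 : v 0 ≠ v 2 := fun h => absurd (hv h) (by decide)
  have h12 : v 1 ≠ v 2 := fun h => absurd (hv h) (by decide)
  constructor
  · intro h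
    rcases cc_tri h01 h02 h12 with h' | h' | h' | h'
    · exact absurd (shp_of hv (by decide) (by decide) (by decide) h') (h 0)
    · exact absurd (shp_of hv (by decide) (by decide) (by decide) h') (h 1)
    · exact absurd (shp_of hv (by decide) (by decide) (by decide) h') (h 2)
    · exact h'
  · rintro ⟨_, _, _, h1, h2, h3⟩ i hi
    have hc : i = 0 ∨ i = 1 ∨ i = 2 := by omega
    rcases hc with rfl | rfl | rfl
    · exact h3 (hi 1 2 (by decide) (by decide))
    · exact h2 (hi 0 2 (by decide) (by decide))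
    · exact h1 (hi 0 1 (by decide) (by decide))

theorem shp_iff {v : Fin 3 → Word c} (hv : Function.Injective v) {i : Fin 3} (h : Shp v i)
    (z x y : Fin 3) :
    Cc (v z) (v x) (v y) ↔ (x = y ∧ z ≠ x) ∨ (x ≠ y ∧ z = i ∧ x ≠ i ∧ y ≠ i) := by
  by_cases hxy : x = y
  · subst hxy
    rw [cc_iff_ne]
    constructor
    · intro h1
      exact Or.inl ⟨rfl, fun h2 => h1 (by rw [h2])⟩
    · rintro (h1 | h1)
      · exact fun h2 => h1.2 (hv h2)
      · exact absurd rfl h1.1
  · constructor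
    · intro h1
      right
      have hzx : z ≠ x := fun h2 => cc_ne h1 (by rw [h2])
      have hzy : z ≠ y := fun h2 => cc_ne' h1 (by rw [h2])
      have hz : z = i := by
        by_contra hz
        have h2 : x = i ∨ y = i := by omega
        rcases h2 with h2 | h2
        · rw [h2] at h1
          exact cc_asymm h1 (h z y hz (fun h3 => hxy (h2.trans h3.symm)))
        · rw [h2] at h1
          exact cc_asymm (cc_symm h1) (h z x hz (fun h3 => hxy (h3.trans h2.symm)))
      exact ⟨hxy, hz, fun h2 => hzx (hz.trans h2.symm), fun h2 => hzy (hz.trans h2.symm)⟩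
    · rintro (h1 | ⟨_, h1, h2, h3⟩)
      · exact absurd h1.1 hxy
      · rw [h1]
        exact h x y h2 h3

theorem shp_same {v w : Fin 3 → Word c} (hv : Function.Injective v) (hw : Function.Injective w)
    {i : Fin 3} (h : Shp v i) (h' : Shp w i) : SameOn Set.univ v w := by
  refine ⟨fun x _ y _ => ?_, fun x _ y _ z _ => ?_⟩
  · exact ⟨fun h1 => by rw [hv h1], fun h1 => by rw [hw h1]⟩
  · rw [shp_iff hv h, shp_iff hw h']

theorem shp_perm {v : Fin 3 → Word c} {i i' : Fin 3} (h : Shp v i) (e : Equiv.Perm (Fin 3))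
    (he : e i' = i) : Shp (fun x => v (e x)) i' := by
  intro j k hj hk
  have h1 : e j ≠ i := fun h2 => hj (e.injective (h2.trans he.symm))
  have h2 : e k ≠ i := fun h2 => hk (e.injective (h2.trans he.symm))
  have h3 := h (e j) (e k) h1 h2
  rw [← he] at h3
  exact h3

theorem str_perm {v : Fin 3 → Word c} (h : Str0 v) (e : Equiv.Perm (Fin 3)) :
    Str0 (fun x => v (e x)) := by
  intro i hi
  apply h (e i)
  intro j k hj hk
  have h1 := hi (e.symm j) (e.symm k) (fun h2 => hj (by rw [← h2, Equiv.apply_symm_apply]))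
    (fun h2 => hk (by rw [← h2, Equiv.apply_symm_apply]))
  simp only [Equiv.apply_symm_apply] at h1
  exact h1

theorem str_same (hT : S_TY3) {v w : Fin 3 → Word c} (hv : Function.Injective v)
    (hw : Function.Injective w) (h : Str0 v) (h' : Str0 w) : SameOn Set.univ v w :=
  (hT K c).1 v w hv hw ((str_iff hv).1 h) ((str_iff hw).1 h')

theorem perm_ex1 : ∀ i i₀ : Fin 3, ∃ e : Equiv.Perm (Fin 3), e i = i₀ := by
  decide

theorem inj3 {a b d : Word c} (h1 : a ≠ b) (h2 : a ≠ d) (h3 : b ≠ d) :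
    Function.Injective (![a, b, d] : Fin 3 → Word c) := by
  intro i j hij
  fin_cases i <;> fin_cases j
  · rfl
  · exact absurd hij h1
  · exact absurd hij h2
  · exact absurd hij.symm h1
  · rfl
  · exact absurd hij h3
  · exact absurd hij.symm h2
  · exact absurd hij.symm h3
  · rfl

theorem comp3 {Y : Type} (v : Y → Word c) (a b d : Y) :
    (fun x => v ((![a, b, d] : Fin 3 → Y) x)) = ![v a, v b, v d] := by
  funext k
  fin_cases k <;> rfl

theorem ex_close (hT : S_TY3) (hK : ∃ a b : K, a ≠ b) (z x y : Word c) (hzx : z ≠ x) :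
    ∃ e : Word c, Cc z x e ∧ e ≠ z ∧ e ≠ x ∧ e ≠ y := by
  obtain ⟨e, he, he'⟩ := (hT K c).2.2.2.2.2 hK (Fin 3) ![z, x, y] 1
  have hx : (![z, x, y] : Fin 3 → Word c) 1 = x := rfl
  rw [hx] at he he'
  have h1 : Cc z e x := he' 0 hzx
  refine ⟨e, cc_symm h1, (cc_ne h1).symm, he, ?_⟩
  by_cases hyx : y = x
  · rw [hyx]
    exact he
  · have h2 : Cc y e x := he' 2 hyx
    exact (cc_ne h2).symm

theorem arr_inj (h1 : S_ARR) {𝔅 : Str σ (Word c)} (hA : AllInv 𝔅) (hN : NEq 𝔅) {X : Type}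
    [Finite X] {v u : X → Word c} (hv : Function.Injective v) (h : Arr 𝔅 v u) :
    Function.Injective u := by
  intro x y hxy
  by_contra hne
  exact (h1 K c σ 𝔅 hA).2.2.2.2.2 hN X v u x y h (fun h1 => hne (hv h1)) hxy

/-- If no arrow changes the shape then the split relation is primitive positive definable. -/
theorem pp_c3 (hARR : S_ARR) (hT : S_TY3) (hPPB : Phy.S_PPB) (hK : ∃ a b : K, a ≠ b)
    (𝔅 : Str σ (Word c)) (hA : AllInv 𝔅) (hN : NEq 𝔅)
    (H : ∀ v w : Fin 3 → Word c, Function.Injective v → Function.Injective w → Shp v 0 →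
      Arr 𝔅 v w → Shp w 0) : PP 𝔅 (C3 (c := c)) := by
  obtain ⟨a1, _, a3, _, _, a6⟩ := hARR K c σ 𝔅 hA
  obtain ⟨_, b2, b3, b4, _⟩ := hPPB σ (Word c) 𝔅
  obtain ⟨v₀, hv₀, hs₀'⟩ := (hT K c).2.2.2.1 hK
  have hs₀ : Shp v₀ 0 := shp_of hv₀ (by decide) (by decide) (by decide) hs₀'
  have hO : ∀ u, Arr 𝔅 v₀ u ↔ Function.Injective u ∧ Shp u 0 := by
    intro u
    constructor
    · intro h
      have hu : Function.Injective u := arr_inj hARR hA hN hv₀ h
      exact ⟨hu, H v₀ u hv₀ hu hs₀ h⟩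
    · rintro ⟨h1, h2⟩
      exact a1 (Fin 3) v₀ u (shp_same hv₀ h1 hs₀ h2)
  have hp := a3 (Fin 3) v₀
  have hp1 := b3 (Fin 3) (Fin 4) (fun u => Arr 𝔅 v₀ u) ![0, 1, 3] hp
  have hp2 := b3 (Fin 3) (Fin 4) (fun u => Arr 𝔅 v₀ u) ![0, 2, 3] hp
  have hp3 := b2 (Fin 4) _ _ hp1 hp2
  have hp4 := b4 (Fin 4) (Fin 3) _ ![0, 1, 2] hp3
  have he : (C3 (c := c)) = (fun u : Fin 3 → Word c => ∃ v : Fin 4 → Word c,
      (Arr 𝔅 v₀ (fun x => v ((![0, 1, 3] : Fin 3 → Fin 4) x)) ∧
        Arr 𝔅 v₀ (fun x => v ((![0, 2, 3] : Fin 3 → Fin 4) x))) ∧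
      ∀ y, u y = v ((![0, 1, 2] : Fin 3 → Fin 4) y)) := by
    funext u
    apply propext
    constructor
    · intro h
      have h' : Cc (u 0) (u 1) (u 2) := h
      obtain ⟨e, h1, h2, h3, h4⟩ := ex_close hT hK (u 0) (u 1) (u 2) (cc_ne h')
      have h5 : Cc (u 0) (u 2) e := cc_trans (cc_symm h') h1
      refine ⟨![u 0, u 1, u 2, e], ⟨?_, ?_⟩, ?_⟩
      · rw [comp3]
        have h6 : Function.Injective (![u 0, u 1, e] : Fin 3 → Word c) :=
          inj3 (cc_ne h') h2.symm h3.symm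
        exact (hO _).2 ⟨h6, shp_of h6 (j := 1) (k := 2) (by decide) (by decide) (by decide) h1⟩
      · rw [comp3]
        have h6 : Function.Injective (![u 0, u 2, e] : Fin 3 → Word c) :=
          inj3 (cc_ne' h') h2.symm h4.symm
        exact (hO _).2 ⟨h6, shp_of h6 (j := 1) (k := 2) (by decide) (by decide) (by decide) h5⟩
      · intro y
        fin_cases y <;> rfl
    · rintro ⟨v, ⟨h1, h2⟩, h3⟩
      rw [comp3] at h1 h2
      have h4 := ((hO _).1 h1).2 1 2 (by decide) (by decide)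
      have h5 := ((hO _).1 h2).2 1 2 (by decide) (by decide)
      have h6 : Cc (v 0) (v 1) (v 3) := h4
      have h7 : Cc (v 0) (v 2) (v 3) := h5
      have h8 : Cc (v 0) (v 1) (v 2) := cc_trans h6 (cc_symm h7)
      have e0 : u 0 = v 0 := h3 0
      have e1 : u 1 = v 1 := h3 1
      have e2 : u 2 = v 2 := h3 2
      show Cc (u 0) (u 1) (u 2)
      rw [e0, e1, e2]
      exact h8
  rw [he]
  exact hp4

/-- There is an arrow from a star to a non-star. -/
def ArB (𝔅 : Str σ (Word c)) : Prop := ∃ v w : Fin 3 → Word c, Function.Injective v ∧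
  Function.Injective w ∧ Str0 v ∧ ¬ Str0 w ∧ Arr 𝔅 v w

/-- There is an arrow from a non-star to a star. -/
def ArA (𝔅 : Str σ (Word c)) : Prop := ∃ v w : Fin 3 → Word c, Function.Injective v ∧
  Function.Injective w ∧ ¬ Str0 v ∧ Str0 w ∧ Arr 𝔅 v w

theorem not_str {v : Fin 3 → Word c} : ¬ Str0 v ↔ ∃ i, Shp v i := by
  unfold Str0
  push Not
  exact Iff.rfl

theorem allB (h1 : S_ARR) (h2 : S_TY3) {𝔅 : Str σ (Word c)} (hA : AllInv 𝔅) (hB : ArB 𝔅)
    {v w : Fin 3 → Word c} (hv : Function.Injective v) (hw : Function.Injective w)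
    (hs : Str0 v) (hn : ¬ Str0 w) : Arr 𝔅 v w := by
  obtain ⟨a1, a2, _, _, _, _⟩ := h1 K c σ 𝔅 hA
  obtain ⟨v₁, w₁, hv₁, hw₁, hs₁, hn₁, ha⟩ := hB
  obtain ⟨i₁, hi₁⟩ := not_str.1 hn₁
  obtain ⟨i, hi⟩ := not_str.1 hn
  obtain ⟨e, he⟩ := perm_ex1 i i₁
  have hve : Function.Injective (fun x => v₁ (e x)) := hv₁.comp e.injective
  have hwe : Function.Injective (fun x => w₁ (e x)) := hw₁.comp e.injective
  have r1 : Arr 𝔅 v (fun x => v₁ (e x)) :=
    a1 (Fin 3) _ _ (str_same h2 hv hve hs (str_perm hs₁ e))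
  have r2 : Arr 𝔅 (fun x => v₁ (e x)) (fun x => w₁ (e x)) := a2 (Fin 3) (Fin 3) e v₁ w₁ ha
  have r3 : Arr 𝔅 (fun x => w₁ (e x)) w :=
    a1 (Fin 3) _ _ (shp_same hwe hw (shp_perm hi₁ e he) hi)
  exact (r1.trans r2).trans r3

theorem allA (h1 : S_ARR) (h2 : S_TY3) {𝔅 : Str σ (Word c)} (hA : AllInv 𝔅) (hB : ArA 𝔅)
    {v w : Fin 3 → Word c} (hv : Function.Injective v) (hw : Function.Injective w)
    (hn : ¬ Str0 v) (hs : Str0 w) : Arr 𝔅 v w := by
  obtain ⟨a1, a2, _, _, _, _⟩ := h1 K c σ 𝔅 hA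
  obtain ⟨v₁, w₁, hv₁, hw₁, hn₁, hs₁, ha⟩ := hB
  obtain ⟨i₁, hi₁⟩ := not_str.1 hn₁
  obtain ⟨i, hi⟩ := not_str.1 hn
  obtain ⟨e, he⟩ := perm_ex1 i i₁
  have hve : Function.Injective (fun x => v₁ (e x)) := hv₁.comp e.injective
  have hwe : Function.Injective (fun x => w₁ (e x)) := hw₁.comp e.injective
  have r1 : Arr 𝔅 v (fun x => v₁ (e x)) :=
    a1 (Fin 3) _ _ (shp_same hv hve hi (shp_perm hi₁ e he))
  have r2 : Arr 𝔅 (fun x => v₁ (e x)) (fun x => w₁ (e x)) := a2 (Fin 3) (Fin 3) e v₁ w₁ ha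
  have r3 : Arr 𝔅 (fun x => w₁ (e x)) w :=
    a1 (Fin 3) _ _ (str_same h2 hwe hw (str_perm hs₁ e) hs)
  exact (r1.trans r2).trans r3

/-- The computation with four words. -/
theorem four {u : Fin 4 → Word c} (hu : Function.Injective u) (h1 : Cc (u 1) (u 0) (u 2))
    (h2 : St (u 1) (u 2) (u 3)) : St (u 0) (u 1) (u 3) := by
  obtain ⟨d, M, d1, d2, d3, d4, d5⟩ := rank u
  have e01 : u 0 ≠ u 1 := fun h => absurd (hu h) (by decide)
  have e13 : u 1 ≠ u 3 := fun h => absurd (hu h) (by decide)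
  have e03 : u 0 ≠ u 3 := fun h => absurd (hu h) (by decide)
  refine ⟨e01, e13, e03, ?_, ?_, ?_⟩
  all_goals
    obtain ⟨_, _, _, g1, g2, g3⟩ := h2
    rw [d5] at h1 g1 g2 g3 ⊢
    have s10 := d1 1 0
    have s20 := d1 2 0
    have s30 := d1 3 0
    have s21 := d1 2 1
    have s31 := d1 3 1
    have s32 := d1 3 2
    have t1 := d2 0 1 2
    have t2 := d2 1 0 2
    have t3 := d2 0 2 1
    have t4 := d2 0 1 3
    have t5 := d2 1 0 3
    have t6 := d2 0 3 1
    have t7 := d2 0 2 3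
    have t8 := d2 2 0 3
    have t9 := d2 0 3 2
    have t10 := d2 1 2 3
    have t11 := d2 2 1 3
    have t12 := d2 1 3 2
    omega

/-- If no arrow maps a star to a non-star then some arrow maps a non-star to a star. -/
theorem exA (h1 : S_ARR) (h2 : S_TY3) (h4 : Phy.S_PPB) (hK : ∃ a b d : K, a ≠ b ∧ a ≠ d ∧ b ≠ d)
    (𝔅 : Str σ (Word c)) (hA : AllInv 𝔅) (hN : NEq 𝔅) (hC : ¬ PP 𝔅 (C3 (c := c)))
    (hB : ¬ ArB 𝔅) : ArA 𝔅 := by
  obtain ⟨a1, a2, _, a4, _, _⟩ := h1 K c σ 𝔅 hA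
  have hK' : ∃ a b : K, a ≠ b := by
    obtain ⟨a, b, _, h, _⟩ := hK
    exact ⟨a, b, h⟩
  have hex : ∃ v w : Fin 3 → Word c, Function.Injective v ∧ Function.Injective w ∧ Shp v 0 ∧
      Arr 𝔅 v w ∧ ¬ Shp w 0 := by
    by_contra hcon
    apply hC
    apply pp_c3 h1 h2 h4 hK' 𝔅 hA hN
    intro v w hv hw hs ha
    by_contra hns
    exact hcon ⟨v, w, hv, hw, hs, ha, hns⟩
  -- normalise: the point 1 splits off in the image
  by_contra hnA
  have hex2 : ∃ v w : Fin 3 → Word c, Function.Injective v ∧ Function.Injective w ∧ Shp v 0 ∧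
      Arr 𝔅 v w ∧ Shp w 1 := by
    obtain ⟨v, w, hv, hw, hs, ha, hns⟩ := hex
    have hnw : ¬ Str0 w := by
      intro hw'
      exact hnA ⟨v, w, hv, hw, fun h => h 0 hs, hw', ha⟩
    obtain ⟨j, hj⟩ := not_str.1 hnw
    have hc : j = 0 ∨ j = 1 ∨ j = 2 := by omega
    rcases hc with rfl | rfl | rfl
    · exact absurd hj hns
    · exact ⟨v, w, hv, hw, hs, ha, hj⟩
    · let e : Equiv.Perm (Fin 3) := Equiv.swap 1 2
      refine ⟨fun x => v (e x), fun x => w (e x), hv.comp e.injective, hw.comp e.injective,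
        shp_perm hs e ?_, a2 (Fin 3) (Fin 3) e v w ha, shp_perm hj e ?_⟩
      · show Equiv.swap (1 : Fin 3) 2 0 = 0
        decide
      · show Equiv.swap (1 : Fin 3) 2 1 = 2
        decide
  obtain ⟨v, w, hv, hw, hs, ha, hj⟩ := hex2
  obtain ⟨s, hsi, hss⟩ := (h2 K c).2.2.1 hK
  obtain ⟨t, ht⟩ := (h2 K c).2.2.2.2.1 hK' (Fin 3) s
  let q : Fin 4 → Word c := ![t, s 0, s 1, s 2]
  have hts : ∀ i, t ≠ s i := fun i => cc_ne (ht i i)
  have hq : Function.Injective q := by
    have s01 : s 0 ≠ s 1 := fun h => absurd (hsi h) (by decide)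
    have s02 : s 0 ≠ s 2 := fun h => absurd (hsi h) (by decide)
    have s12 : s 1 ≠ s 2 := fun h => absurd (hsi h) (by decide)
    intro i j hij
    fin_cases i <;> fin_cases j
    · rfl
    · exact absurd hij (hts 0)
    · exact absurd hij (hts 1)
    · exact absurd hij (hts 2)
    · exact absurd hij.symm (hts 0)
    · rfl
    · exact absurd hij s01
    · exact absurd hij s02
    · exact absurd hij.symm (hts 1)
    · exact absurd hij.symm s01
    · rfl
    · exact absurd hij s12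
    · exact absurd hij.symm (hts 2)
    · exact absurd hij.symm s02
    · exact absurd hij.symm s12
    · rfl
  -- the arrow on the first three points
  have i012 : Function.Injective (![0, 1, 2] : Fin 3 → Fin 4) := by decide
  have i123 : Function.Injective (![1, 2, 3] : Fin 3 → Fin 4) := by decide
  have i013 : Function.Injective (![0, 1, 3] : Fin 3 → Fin 4) := by decide
  have hq0 : Function.Injective (fun x => q ((![0, 1, 2] : Fin 3 → Fin 4) x)) := hq.comp i012
  have hqs0 : Shp (fun x => q ((![0, 1, 2] : Fin 3 → Fin 4) x)) 0 :=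
    shp_of hq0 (j := 1) (k := 2) (by decide) (by decide) (by decide) (ht 0 1)
  have r1 : Arr 𝔅 (fun x => q ((![0, 1, 2] : Fin 3 → Fin 4) x)) w :=
    (a1 (Fin 3) _ _ (shp_same hq0 hv hqs0 hs)).trans ha
  obtain ⟨u, hu1, hu2⟩ := a4 (Fin 3) (Fin 4) ![0, 1, 2] q w r1
  have hui : Function.Injective u := arr_inj h1 hA hN hq hu2
  have hcu : Cc (u 1) (u 0) (u 2) := by
    have e0 : u 0 = w 0 := hu1 0
    have e1 : u 1 = w 1 := hu1 1
    have e2 : u 2 = w 2 := hu1 2
    rw [e0, e1, e2]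
    exact hj 0 2 (by decide) (by decide)
  have hq3 : Function.Injective (fun x => q ((![1, 2, 3] : Fin 3 → Fin 4) x)) := hq.comp i123
  have hu3 : Function.Injective (fun x => u ((![1, 2, 3] : Fin 3 → Fin 4) x)) := hui.comp i123
  have hstar : Str0 (fun x => u ((![1, 2, 3] : Fin 3 → Fin 4) x)) := by
    by_contra hns
    apply hB
    refine ⟨_, _, hq3, hu3, ?_, hns, a2 (Fin 4) (Fin 3) ![1, 2, 3] q u hu2⟩
    rw [str_iff hq3]
    exact hss
  have hstu : St (u 1) (u 2) (u 3) := (str_iff hu3).1 hstar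
  have hfin := four hui hcu hstu
  have hq4 : Function.Injective (fun x => q ((![0, 1, 3] : Fin 3 → Fin 4) x)) := hq.comp i013
  have hu4 : Function.Injective (fun x => u ((![0, 1, 3] : Fin 3 → Fin 4) x)) := hui.comp i013
  apply hnA
  refine ⟨_, _, hq4, hu4, ?_, ?_, a2 (Fin 4) (Fin 3) ![0, 1, 3] q u hu2⟩
  · intro h
    exact h 0 (shp_of hq4 (j := 1) (k := 2) (by decide) (by decide) (by decide) (ht 0 2))
  · rw [str_iff hu4]
    exact hfin

theorem inj_tri {X : Type} {v : X → Word c} {x y z : X} (h1 : v x ≠ v y) (h2 : v x ≠ v z)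
    (h3 : v y ≠ v z) : Function.Injective (fun k => v ((![x, y, z] : Fin 3 → X) k)) := by
  rw [comp3]
  exact inj3 h1 h2 h3

end XT0

open XT0

theorem T0_pf (h1 : S_ARR) (h2 : S_TY3) (h3 : S_ITR) (h4 : Phy.S_PPB) : S_T0 := by
  intro K c σ 𝔅 hK hA hN hC
  obtain ⟨a1, a2, _, a4, _, _⟩ := h1 K c σ 𝔅 hA
  have hK' : ∃ a b : K, a ≠ b := by
    obtain ⟨a, b, _, h, _⟩ := hK
    exact ⟨a, b, h⟩
  obtain ⟨s, hsi, hss⟩ := (h2 K c).2.2.1 hK
  have hs0 : Str0 s := (str_iff hsi).2 hss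
  obtain ⟨n, hni, hnn⟩ := (h2 K c).2.2.2.1 hK'
  have hn0 : ¬ Str0 n := fun h => h 0 (shp_of hni (by decide) (by decide) (by decide) hnn)
  by_cases hB : ArB 𝔅
  · by_cases hAA : ArA 𝔅
    · -- all arrows
      right
      right
      intro v w hv hw
      by_cases hvs : Str0 v
      · by_cases hws : Str0 w
        · exact a1 (Fin 3) v w (str_same h2 hv hw hvs hws)
        · exact allB h1 h2 hA hB hv hw hvs hws
      · by_cases hws : Str0 w
        · exact allA h1 h2 hA hAA hv hw hvs hws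
        · exact (allA h1 h2 hA hAA hv hsi hvs hs0).trans (allB h1 h2 hA hB hsi hw hs0 hws)
    · -- no arrow from a non-star to a star
      left
      apply (h3 K c σ 𝔅).1
      intro X _ v hv hst
      obtain ⟨x, y, z, hxyz⟩ := hst
      have hvi : Function.Injective (fun k => v ((![x, y, z] : Fin 3 → X) k)) :=
        inj_tri hxyz.1 hxyz.2.2.1 hxyz.2.1
      have r : Arr 𝔅 (fun k => v ((![x, y, z] : Fin 3 → X) k)) n :=
        allB h1 h2 hA hB hvi hni ((str_iff hvi).2 hxyz) hn0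
      obtain ⟨w, hw1, hw2⟩ := a4 (Fin 3) X ![x, y, z] v n r
      have hwi : Function.Injective w := arr_inj h1 hA hN hv hw2
      refine ⟨w, hwi, hw2, ?_, x, y, z, hxyz, ?_⟩
      · intro a b d habd
        have hwi3 : Function.Injective (fun k => w ((![a, b, d] : Fin 3 → X) k)) :=
          inj_tri habd.1 habd.2.2.1 habd.2.1
        have hab : a ≠ b := fun h => habd.1 (by rw [h])
        have hbd : b ≠ d := fun h => habd.2.1 (by rw [h])
        have had : a ≠ d := fun h => habd.2.2.1 (by rw [h])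
        have hvi3 : Function.Injective (fun k => v ((![a, b, d] : Fin 3 → X) k)) :=
          inj_tri (fun h => hab (hv h)) (fun h => had (hv h)) (fun h => hbd (hv h))
        by_contra hns
        apply hAA
        exact ⟨_, _, hvi3, hwi3, fun h => hns ((str_iff hvi3).1 h), (str_iff hwi3).2 habd,
          a2 X (Fin 3) ![a, b, d] v w hw2⟩
      · intro hst
        have e0 : w x = n 0 := hw1 0
        have e1 : w y = n 1 := hw1 1
        have e2 : w z = n 2 := hw1 2
        rw [e0, e1, e2] at hst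
        exact hn0 ((str_iff hni).2 hst)
  · -- no arrow from a star to a non-star
    have hAA : ArA 𝔅 := exA h1 h2 h4 hK 𝔅 hA hN hC hB
    right
    left
    apply (h3 K c σ 𝔅).2.1
    intro X _ v hv hns
    have hex : ∃ x y z, Cc (v z) (v x) (v y) ∧ v x ≠ v y := by
      by_contra hcon
      apply hns
      intro x y z hxyz
      by_contra hne
      exact hcon ⟨x, y, z, hxyz, hne⟩
    obtain ⟨x, y, z, hxyz, hne⟩ := hex
    have hvi : Function.Injective (fun k => v ((![z, x, y] : Fin 3 → X) k)) :=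
      inj_tri (cc_ne hxyz) (cc_ne' hxyz) hne
    have r : Arr 𝔅 (fun k => v ((![z, x, y] : Fin 3 → X) k)) s :=
      allA h1 h2 hA hAA hvi hsi
        (fun h => h 0 (shp_of hvi (j := 1) (k := 2) (by decide) (by decide) (by decide) hxyz)) hs0
    obtain ⟨w, hw1, hw2⟩ := a4 (Fin 3) X ![z, x, y] v s r
    have hwi : Function.Injective w := arr_inj h1 hA hN hv hw2
    refine ⟨w, hwi, hw2, ?_, z, x, y, ?_, ?_⟩
    · intro a b d habd
      have hvi3 : Function.Injective (fun k => v ((![a, b, d] : Fin 3 → X) k)) :=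
        inj_tri habd.1 habd.2.2.1 habd.2.1
      have hab : a ≠ b := fun h => habd.1 (by rw [h])
      have hbd : b ≠ d := fun h => habd.2.1 (by rw [h])
      have had : a ≠ d := fun h => habd.2.2.1 (by rw [h])
      have hwi3 : Function.Injective (fun k => w ((![a, b, d] : Fin 3 → X) k)) :=
        inj_tri (fun h => hab (hwi h)) (fun h => had (hwi h)) (fun h => hbd (hwi h))
      by_contra hns
      apply hB
      exact ⟨_, _, hvi3, hwi3, (str_iff hvi3).2 habd, fun h => hns ((str_iff hwi3).1 h),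
        a2 X (Fin 3) ![a, b, d] v w hw2⟩
    · have e0 : w z = s 0 := hw1 0
      have e1 : w x = s 1 := hw1 1
      have e2 : w y = s 2 := hw1 2
      rw [e0, e1, e2]
      exact hss
    · intro hst
      exact hst.2.2.2.2.2 hxyz

end Pool.Agent.Work.MP_8dbde4_lc.FK
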