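import Pool.Agent.Work.MP_8dbde4_lc.FK.StmtsB
import Pool.Agent.Work.MP_8dbde4_lc.FK.Rank

/-!
Item T1: fat triples (`BB` or `SS` or `F3` or `Rg3`).
-/

set_option autoImplicit false
open Classical

namespace Pool.Agent.Work.MP_8dbde4_lc.FK

open Pool.Agent.Work.MP_8dbde4_lc.TS
open Pool.Agent.Work.MP_8dbde4_lc.Tree (Word Agr Cc)
open Pool.Agent.Work.MP_8dbde4_lc.Phy (PP Hom)
open Pool.Agent.Work.MP_8dbde4_lc.Bra (Same InvU BinOn pull c₂)
open Pool.Agent.Work.MP_8dbde4_lc.Full (Arr NEq Cst0 BT Sub)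
open Pool.Agent.Work.MP_8dbde4_lc.Full.BT

namespace XT1

variable {K : Type} {c : ℚ → K} {σ : Sig}

/-- A star on three coordinates. -/
def S3 (u : Fin 3 → Word c) : Prop := St (u 0) (u 1) (u 2)

theorem s3_any (u : Fin 3 → Word c) (h : S3 u) (x y z : Fin 3) (hxy : x ≠ y) (hyz : y ≠ z)
    (hxz : x ≠ z) : St (u x) (u y) (u z) := by
  unfold S3 at h
  revert hxy hyz hxz
  fin_cases x <;> fin_cases y <;> fin_cases z <;> intro h1 h2 h3 <;>
    first
    | exact absurd rfl h1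
    | exact absurd rfl h2
    | exact absurd rfl h3
    | exact h
    | exact h.swap
    | exact h.rot
    | exact h.rot.rot
    | exact h.rot.swap
    | exact h.rot.rot.swap

theorem s3_perm (u : Fin 3 → Word c) (τ : Equiv.Perm (Fin 3)) :
    S3 (fun x => u (τ x)) ↔ S3 u := by
  constructor
  · intro h
    have h1 := s3_any _ h (τ.symm 0) (τ.symm 1) (τ.symm 2)
      (fun h' => absurd (τ.symm.injective h') (by decide))
      (fun h' => absurd (τ.symm.injective h') (by decide))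
      (fun h' => absurd (τ.symm.injective h') (by decide))
    have h2 : St (u 0) (u 1) (u 2) := by simpa using h1
    exact h2
  · intro h
    exact s3_any u h (τ 0) (τ 1) (τ 2)
      (fun h' => absurd (τ.injective h') (by decide))
      (fun h' => absurd (τ.injective h') (by decide))
      (fun h' => absurd (τ.injective h') (by decide))

/-- The point `k` splits off from the others. -/
def Shp (u : Fin 3 → Word c) (k : Fin 3) : Prop := ∀ a b, a ≠ k → b ≠ k → Cc (u k) (u a) (u b)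

theorem shp_of (u : Fin 3 → Word c) (hu : Function.Injective u) (k a b : Fin 3)
    (hka : k ≠ a) (hkb : k ≠ b) (hab : a ≠ b) (h : Cc (u k) (u a) (u b)) : Shp u k := by
  have hall : ∀ x : Fin 3, x ≠ k → x = a ∨ x = b := by
    revert hka hkb hab
    clear h
    revert k a b
    decide
  intro x y hx hy
  rcases hall x hx with rfl | rfl <;> rcases hall y hy with rfl | rfl
  · exact cc_self fun h' => hka (hu h')
  · exact h
  · exact cc_symm h
  · exact cc_self fun h' => hkb (hu h')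

theorem shp_ex (u : Fin 3 → Word c) (hu : Function.Injective u) (hs : ¬ S3 u) :
    ∃ k, Shp u k := by
  have h01 : u 0 ≠ u 1 := fun h => absurd (hu h) (by decide)
  have h02 : u 0 ≠ u 2 := fun h => absurd (hu h) (by decide)
  have h12 : u 1 ≠ u 2 := fun h => absurd (hu h) (by decide)
  rcases cc_tri h01 h02 h12 with h | h | h | h
  · exact ⟨0, shp_of u hu 0 1 2 (by decide) (by decide) (by decide) h⟩
  · exact ⟨1, shp_of u hu 1 0 2 (by decide) (by decide) (by decide) h⟩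
  · exact ⟨2, shp_of u hu 2 0 1 (by decide) (by decide) (by decide) h⟩
  · exact absurd h hs

theorem shp_not (u : Fin 3 → Word c) (k : Fin 3) (h : Shp u k) : ¬ S3 u := by
  intro hs
  fin_cases k
  · exact hs.2.2.2.2.2 (h 1 2 (by decide) (by decide))
  · exact hs.2.2.2.2.1 (h 0 2 (by decide) (by decide))
  · exact hs.2.2.2.1 (h 0 1 (by decide) (by decide))

theorem cc_shp (u : Fin 3 → Word c) (hu : Function.Injective u) (k : Fin 3) (hk : Shp u k)
    (x y z : Fin 3) : Cc (u z) (u x) (u y) ↔ (z ≠ x ∧ z ≠ y ∧ (z = k ∨ x = y)) := by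
  constructor
  · intro h
    have hzx : z ≠ x := fun h' => cc_ne h (by rw [h'])
    have hzy : z ≠ y := fun h' => cc_ne' h (by rw [h'])
    refine ⟨hzx, hzy, ?_⟩
    by_contra hc
    simp only [not_or] at hc
    obtain ⟨hzk, hxy⟩ := hc
    have hk' : k = x ∨ k = y := by
      revert hzx hzy hzk hxy
      clear h hk
      revert x y z k
      decide
    rcases hk' with rfl | rfl
    · exact cc_asymm h (hk z y hzx (Ne.symm hxy))
    · exact cc_asymm (cc_symm h) (hk z x hzy hxy)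
  · rintro ⟨hzx, hzy, rfl | rfl⟩
    · exact hk x y (Ne.symm hzx) (Ne.symm hzy)
    · exact cc_self fun h' => hzx (hu h')

theorem same (u u' : Fin 3 → Word c) (hu : Function.Injective u) (hu' : Function.Injective u')
    (k : Fin 3) (hk : Shp u k) (hk' : Shp u' k) : SameOn Set.univ u u' := by
  refine ⟨fun x _ y _ => ?_, fun x _ y _ z _ => ?_⟩
  · rw [hu.eq_iff, hu'.eq_iff]
  · rw [cc_shp u hu k hk, cc_shp u' hu' k hk']

theorem shp_perm (u : Fin 3 → Word c) (τ : Equiv.Perm (Fin 3)) (k : Fin 3) (h : Shp u (τ k)) :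
    Shp (fun x => u (τ x)) k := by
  intro a b ha hb
  exact h (τ a) (τ b) (fun h' => ha (τ.injective h')) (fun h' => hb (τ.injective h'))

theorem two_tr : ∀ i j a b : Fin 3, i ≠ j → a ≠ b →
    ∃ τ : Equiv.Perm (Fin 3), τ i = a ∧ τ j = b := by
  decide

theorem one_tr : ∀ i a : Fin 3, ∃ τ : Equiv.Perm (Fin 3), τ i = a := by
  decide

/-- Three different coordinates. -/
theorem inj3 {X : Type} (x y z : X) (hxy : x ≠ y) (hyz : y ≠ z) (hxz : x ≠ z) :
    Function.Injective (![x, y, z] : Fin 3 → X) := by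
  intro a b hab
  fin_cases a <;> fin_cases b <;>
    simp_all [hxy.symm, hyz.symm, hxz.symm]

/-- Restriction to three coordinates in `F`. -/
theorem fat_res (hF : S_FAT) {ω : Prop} {𝔅 : Str σ (Word c)} (hA : AllInv 𝔅) {X : Type}
    [Finite X] {F : Set X} {v w : X → Word c} (hv : Function.Injective v)
    (hw : Function.Injective w) (h : Fat ω 𝔅 F v w) (ι : Fin 3 → X)
    (hι : Function.Injective ι) (hιF : ∀ j, ι j ∈ F) :
    Fat ω 𝔅 Set.univ (fun j => v (ι j)) (fun j => w (ι j)) := by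
  have h1 := (hF K c σ ω 𝔅 hA X F v w hv hw).2.2.2.2.2.1 (Fin 3) ι hι h
  have h2 : {j : Fin 3 | ι j ∈ F} = Set.univ := by
    ext j
    simp [hιF j]
  rwa [h2] at h1

/-- Extension to all the coordinates. -/
theorem fat_ext (hX : S_EXM) {ω : Prop} {𝔅 : Str σ (Word c)} (hA : AllInv 𝔅)
    (hE : Ext ω 𝔅) {X : Type} [Finite X] (v : X → Word c) (hv : Function.Injective v)
    (ι : Fin 3 → X) (hι : Function.Injective ι) (w : Fin 3 → Word c)
    (hw : Function.Injective w) (h : Fat ω 𝔅 Set.univ (fun j => v (ι j)) w) :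
    ∃ w' : X → Word c, Function.Injective w' ∧ (∀ j, w' (ι j) = w j) ∧
      Fat ω 𝔅 Set.univ v w' := by
  obtain ⟨w', h1, h2, h3⟩ := hX K c σ ω 𝔅 hA hE (Fin 3) X ι Set.univ v w hι hv hw h
  refine ⟨w', h1, h2, ?_⟩
  have h4 : {x' : X | ∀ x, ι x = x' → x ∈ (Set.univ : Set (Fin 3))} = Set.univ := by
    ext x'
    simp
  rwa [h4] at h3

/-- Some fat arrow maps a star to a non-star. -/
def NN (ω : Prop) (𝔅 : Str σ (Word c)) : Prop := ∃ v w : Fin 3 → Word c,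
  Function.Injective v ∧ Function.Injective w ∧ Fat ω 𝔅 Set.univ v w ∧ S3 v ∧ ¬ S3 w

/-- Some fat arrow maps a non-star to a star. -/
def CN (ω : Prop) (𝔅 : Str σ (Word c)) : Prop := ∃ v w : Fin 3 → Word c,
  Function.Injective v ∧ Function.Injective w ∧ Fat ω 𝔅 Set.univ v w ∧ ¬ S3 v ∧ S3 w

/-- (N) and not (C). -/
theorem case_bb (hF : S_FAT) (hX : S_EXM) (hT : S_TY3) (hI : S_ITR) {ω : Prop}
    {𝔅 : Str σ (Word c)} (hA : AllInv 𝔅) (hE : Ext ω 𝔅) (hN : NN ω 𝔅)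
    (hC : ¬ CN ω 𝔅) : BB 𝔅 := by
  obtain ⟨v₀, w₀, hv₀, hw₀, hf₀, hs₀, hn₀⟩ := hN
  apply (hI K c σ 𝔅).1
  rintro X _ v hv ⟨x, y, z, hs⟩
  have hxy : x ≠ y := fun h => hs.1 (by rw [h])
  have hyz : y ≠ z := fun h => hs.2.1 (by rw [h])
  have hxz : x ≠ z := fun h => hs.2.2.1 (by rw [h])
  have hι := inj3 x y z hxy hyz hxz
  have hvι : Function.Injective (fun j => v ((![x, y, z] : Fin 3 → X) j)) := hv.comp hι
  have h1 : Fat ω 𝔅 Set.univ (fun j => v ((![x, y, z] : Fin 3 → X) j)) w₀ :=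
    (hF K c σ ω 𝔅 hA (Fin 3) Set.univ v₀ w₀ hv₀ hw₀).2.2.2.2.1 _ w₀
      ((hT K c).1 v₀ _ hv₀ hvι hs₀ hs) (SameOn.refl _ _) hf₀
  obtain ⟨w, hw, hwι, hfw⟩ := fat_ext hX hA hE v hv _ hι w₀ hw₀ h1
  refine ⟨w, hw, (hF K c σ ω 𝔅 hA X Set.univ v w hv hw).1 hfw, ?_, x, y, z, hs, ?_⟩
  · intro a b d hd
    by_contra hc
    apply hC
    have hab : a ≠ b := fun h => hd.1 (by rw [h])
    have hbd : b ≠ d := fun h => hd.2.1 (by rw [h])
    have had : a ≠ d := fun h => hd.2.2.1 (by rw [h])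
    have hκ := inj3 a b d hab hbd had
    exact ⟨_, _, hv.comp hκ, hw.comp hκ,
      fat_res hF hA hv hw hfw _ hκ (fun j => Set.mem_univ _), hc, hd⟩
  · intro hc
    apply hn₀
    have h2 := hwι 0
    have h3 := hwι 1
    have h4 := hwι 2
    unfold S3
    rw [← h2, ← h3, ← h4]
    exact hc

/-- (C) and not (N). -/
theorem case_ss (hF : S_FAT) (hX : S_EXM) (hI : S_ITR) {ω : Prop}
    {𝔅 : Str σ (Word c)} (hA : AllInv 𝔅) (hE : Ext ω 𝔅) (hC : CN ω 𝔅)
    (hN : ¬ NN ω 𝔅) : SS 𝔅 := by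
  obtain ⟨v₀, w₀, hv₀, hw₀, hf₀, hn₀, hs₀⟩ := hC
  apply (hI K c σ 𝔅).2.1
  intro X _ v hv hst
  have hex : ∃ x y z, Cc (v z) (v x) (v y) ∧ v x ≠ v y := by
    by_contra hc
    apply hst
    intro x y z h
    by_contra h'
    exact hc ⟨x, y, z, h, h'⟩
  obtain ⟨x, y, z, hcc, hne⟩ := hex
  have hxy : x ≠ y := fun h => hne (by rw [h])
  have hzx : z ≠ x := fun h => cc_ne hcc (by rw [h])
  have hzy : z ≠ y := fun h => cc_ne' hcc (by rw [h])
  have hι := inj3 z x y hzx hxy hzy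
  have hvι : Function.Injective (fun j => v ((![z, x, y] : Fin 3 → X) j)) := hv.comp hι
  have hvs : Shp (fun j => v ((![z, x, y] : Fin 3 → X) j)) 0 :=
    shp_of _ hvι 0 1 2 (by decide) (by decide) (by decide) hcc
  obtain ⟨i, hi⟩ := shp_ex v₀ hv₀ hn₀
  obtain ⟨τ, rfl⟩ := one_tr 0 i
  have hvτ : Function.Injective (fun j => v₀ (τ j)) := hv₀.comp τ.injective
  have hwτ : Function.Injective (fun j => w₀ (τ j)) := hw₀.comp τ.injective
  have h0 := fat_res hF hA hv₀ hw₀ hf₀ τ τ.injective (fun j => Set.mem_univ _)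
  have h1 : Fat ω 𝔅 Set.univ (fun j => v ((![z, x, y] : Fin 3 → X) j))
      (fun j => w₀ (τ j)) :=
    (hF K c σ ω 𝔅 hA (Fin 3) Set.univ _ _ hvτ hwτ).2.2.2.2.1 _ _
      (same _ _ hvτ hvι 0 (shp_perm v₀ τ 0 hi) hvs) (SameOn.refl _ _) h0
  obtain ⟨w, hw, hwι, hfw⟩ := fat_ext hX hA hE v hv _ hι _ hwτ h1
  refine ⟨w, hw, (hF K c σ ω 𝔅 hA X Set.univ v w hv hw).1 hfw, ?_, z, x, y, ?_, ?_⟩
  · intro a b d hd
    by_contra hc
    apply hN
    have hab : a ≠ b := fun h => hd.1 (by rw [h])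
    have hbd : b ≠ d := fun h => hd.2.1 (by rw [h])
    have had : a ≠ d := fun h => hd.2.2.1 (by rw [h])
    have hκ := inj3 a b d hab hbd had
    exact ⟨_, _, hv.comp hκ, hw.comp hκ,
      fat_res hF hA hv hw hfw _ hκ (fun j => Set.mem_univ _), hd, hc⟩
  · have h2 : w z = w₀ (τ 0) := hwι 0
    have h3 : w x = w₀ (τ 1) := hwι 1
    have h4 : w y = w₀ (τ 2) := hwι 2
    rw [h2, h3, h4]
    exact (s3_perm w₀ τ).2 hs₀
  · exact fun hc => hc.2.2.2.2.2 hcc

/-- (N): all the fat arrows from stars to non-stars. -/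
theorem nn_all (hF : S_FAT) (hT : S_TY3) {ω : Prop} {𝔅 : Str σ (Word c)} (hA : AllInv 𝔅)
    (hN : NN ω 𝔅) (v w : Fin 3 → Word c) (hv : Function.Injective v)
    (hw : Function.Injective w) (hs : S3 v) (hn : ¬ S3 w) : Fat ω 𝔅 Set.univ v w := by
  obtain ⟨v₀, w₀, hv₀, hw₀, hf₀, hs₀, hn₀⟩ := hN
  obtain ⟨i, hi⟩ := shp_ex w₀ hw₀ hn₀
  obtain ⟨j, hj⟩ := shp_ex w hw hn
  obtain ⟨τ, rfl⟩ := one_tr j i
  have hvτ : Function.Injective (fun j => v₀ (τ j)) := hv₀.comp τ.injective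
  have hwτ : Function.Injective (fun j => w₀ (τ j)) := hw₀.comp τ.injective
  have h0 := fat_res hF hA hv₀ hw₀ hf₀ τ τ.injective (fun j => Set.mem_univ _)
  exact (hF K c σ ω 𝔅 hA (Fin 3) Set.univ _ _ hvτ hwτ).2.2.2.2.1 v w
      ((hT K c).1 _ v hvτ hv ((s3_perm v₀ τ).2 hs₀) hs)
      (same _ _ hwτ hw j (shp_perm w₀ τ j hi) hj) h0

/-- (C): all the fat arrows from non-stars to stars. -/
theorem cn_all (hF : S_FAT) (hT : S_TY3) {ω : Prop} {𝔅 : Str σ (Word c)} (hA : AllInv 𝔅)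
    (hC : CN ω 𝔅) (v w : Fin 3 → Word c) (hv : Function.Injective v)
    (hw : Function.Injective w) (hn : ¬ S3 v) (hs : S3 w) : Fat ω 𝔅 Set.univ v w := by
  obtain ⟨v₀, w₀, hv₀, hw₀, hf₀, hn₀, hs₀⟩ := hC
  obtain ⟨i, hi⟩ := shp_ex v₀ hv₀ hn₀
  obtain ⟨j, hj⟩ := shp_ex v hv hn
  obtain ⟨τ, rfl⟩ := one_tr j i
  have hvτ : Function.Injective (fun j => v₀ (τ j)) := hv₀.comp τ.injective
  have hwτ : Function.Injective (fun j => w₀ (τ j)) := hw₀.comp τ.injective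
  have h0 := fat_res hF hA hv₀ hw₀ hf₀ τ τ.injective (fun j => Set.mem_univ _)
  exact (hF K c σ ω 𝔅 hA (Fin 3) Set.univ _ _ hvτ hwτ).2.2.2.2.1 v w
      (same _ _ hvτ hv j (shp_perm v₀ τ j hi) hj)
      ((hT K c).1 _ w hwτ hw ((s3_perm w₀ τ).2 hs₀) hs) h0

/-- (N) and (C). -/
theorem case_f3 (hF : S_FAT) (hT : S_TY3) {ω : Prop} {𝔅 : Str σ (Word c)} (hA : AllInv 𝔅)
    (hN : NN ω 𝔅) (hC : CN ω 𝔅) : F3 ω 𝔅 := by
  intro v w hv hw
  have hN' := nn_all hF hT hA hN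
  have hC' := cn_all hF hT hA hC
  obtain ⟨v₀, w₀, hv₀, hw₀, hf₀, hs₀, hn₀⟩ := hN
  have hcomp := (hF K c σ ω 𝔅 hA (Fin 3) Set.univ v w hv hw).2.2.1
  by_cases h1 : S3 v
  · by_cases h2 : S3 w
    · exact hcomp w₀ hw₀ (hN' v w₀ hv hw₀ h1 hn₀) (hC' w₀ w hw₀ hw hn₀ h2)
    · exact hN' v w hv hw h1 h2
  · by_cases h2 : S3 w
    · exact hC' v w hv hw h1 h2
    · exact hcomp v₀ hv₀ (hC' v v₀ hv hv₀ h1 hs₀) (hN' v₀ w hv₀ hw hs₀ h2)

/-- If `x` splits off from `z`, `y` and `x`, `y`, `a` form a star then `x`, `z`, `a` form a star. -/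
theorem st_move (u : Fin 4 → Word c) (hu : Function.Injective u) (h1 : Cc (u 1) (u 0) (u 2))
    (h2 : St (u 1) (u 2) (u 3)) : St (u 0) (u 1) (u 3) := by
  obtain ⟨d, M, e1, e2, e3, e4, e5⟩ := rank u
  have n01 : u 0 ≠ u 1 := fun h => absurd (hu h) (by decide)
  have n13 : u 1 ≠ u 3 := fun h => absurd (hu h) (by decide)
  have n03 : u 0 ≠ u 3 := fun h => absurd (hu h) (by decide)
  obtain ⟨-, -, -, g1, g2, g3⟩ := h2
  rw [e5] at h1 g1 g2 g3
  have s01 := e1 0 1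
  have s02 := e1 0 2
  have s03 := e1 0 3
  have s12 := e1 1 2
  have s13 := e1 1 3
  have s23 := e1 2 3
  have t1 := e2 0 1 2
  have t2 := e2 0 2 1
  have t3 := e2 1 0 2
  have t4 := e2 0 1 3
  have t5 := e2 0 3 1
  have t6 := e2 1 0 3
  have t7 := e2 0 2 3
  have t8 := e2 0 3 2
  have t9 := e2 2 0 3
  have t10 := e2 1 2 3
  have t11 := e2 1 3 2
  have t12 := e2 2 1 3
  refine ⟨n01, n13, n03, ?_, ?_, ?_⟩
  · rw [e5]
    omega
  · rw [e5]
    omega
  · rw [e5]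
    omega

/-- Neither (N) nor (C): there is no fat arrow from the shape `0` to the shape `1`. -/
theorem no01 (hF : S_FAT) (hX : S_EXM) (hT : S_TY3) {ω : Prop} {𝔅 : Str σ (Word c)}
    (hK : ∃ a b d : K, a ≠ b ∧ a ≠ d ∧ b ≠ d) (hA : AllInv 𝔅) (hE : Ext ω 𝔅)
    (hN : ¬ NN ω 𝔅) (hC : ¬ CN ω 𝔅) (v w : Fin 3 → Word c) (hv : Function.Injective v)
    (hw : Function.Injective w) (hv0 : Shp v 0) (hw1 : Shp w 1) :
    ¬ Fat ω 𝔅 Set.univ v w := by
  intro hf
  obtain ⟨a, b, d, hab, had, hbd⟩ := hK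
  obtain ⟨u, hu, hus⟩ := (hT K c).2.2.1 ⟨a, b, d, hab, had, hbd⟩
  obtain ⟨t, ht⟩ := (hT K c).2.2.2.2.1 ⟨a, b, hab⟩ (Fin 3) u
  have hu' : Function.Injective (![t, u 0, u 1, u 2] : Fin 4 → Word c) := by
    have n0 : t ≠ u 0 := cc_ne (ht 0 0)
    have n1 : t ≠ u 1 := cc_ne (ht 1 1)
    have n2 : t ≠ u 2 := cc_ne (ht 2 2)
    have n01 : u 0 ≠ u 1 := fun h => absurd (hu h) (by decide)
    have n02 : u 0 ≠ u 2 := fun h => absurd (hu h) (by decide)
    have n12 : u 1 ≠ u 2 := fun h => absurd (hu h) (by decide)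
    intro p q hpq
    fin_cases p <;> fin_cases q <;>
      first
      | rfl
      | exact absurd hpq n0
      | exact absurd hpq n1
      | exact absurd hpq n2
      | exact absurd hpq n01
      | exact absurd hpq n02
      | exact absurd hpq n12
      | exact absurd hpq n0.symm
      | exact absurd hpq n1.symm
      | exact absurd hpq n2.symm
      | exact absurd hpq n01.symm
      | exact absurd hpq n02.symm
      | exact absurd hpq n12.symm
  have hι := inj3 (0 : Fin 4) 1 2 (by decide) (by decide) (by decide)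
  have hvι : Function.Injective (fun j => (![t, u 0, u 1, u 2] : Fin 4 → Word c)
      ((![0, 1, 2] : Fin 3 → Fin 4) j)) := hu'.comp hι
  have hshp : Shp (fun j => (![t, u 0, u 1, u 2] : Fin 4 → Word c)
      ((![0, 1, 2] : Fin 3 → Fin 4) j)) 0 :=
    shp_of _ hvι 0 1 2 (by decide) (by decide) (by decide) (ht 0 1)
  have h1 : Fat ω 𝔅 Set.univ (fun j => (![t, u 0, u 1, u 2] : Fin 4 → Word c)
      ((![0, 1, 2] : Fin 3 → Fin 4) j)) w :=
    (hF K c σ ω 𝔅 hA (Fin 3) Set.univ v w hv hw).2.2.2.2.1 _ w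
      (same _ _ hv hvι 0 hv0 hshp) (SameOn.refl _ _) hf
  obtain ⟨w', hw', hwι, hfw⟩ := fat_ext hX hA hE _ hu' _ hι w hw h1
  have e0 : w' 0 = w 0 := hwι 0
  have e1 : w' 1 = w 1 := hwι 1
  have e2 : w' 2 = w 2 := hwι 2
  have h2 : Cc (w' 1) (w' 0) (w' 2) := by
    rw [e0, e1, e2]
    exact hw1 0 2 (by decide) (by decide)
  have hκ := inj3 (1 : Fin 4) 2 3 (by decide) (by decide) (by decide)
  have h3 : St (w' 1) (w' 2) (w' 3) := by
    by_contra hc
    apply hN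
    exact ⟨_, _, hu'.comp hκ, hw'.comp hκ,
      fat_res hF hA hu' hw' hfw _ hκ (fun j => Set.mem_univ _), hus, hc⟩
  have h4 := st_move w' hw' h2 h3
  have hμ := inj3 (0 : Fin 4) 1 3 (by decide) (by decide) (by decide)
  apply hC
  refine ⟨_, _, hu'.comp hμ, hw'.comp hμ,
    fat_res hF hA hu' hw' hfw _ hμ (fun j => Set.mem_univ _), ?_, h4⟩
  intro hc
  exact hc.2.2.2.2.2 (ht 0 2)

/-- Neither (N) nor (C). -/
theorem case_rg (hF : S_FAT) (hX : S_EXM) (hT : S_TY3) {ω : Prop} {𝔅 : Str σ (Word c)}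
    (hK : ∃ a b d : K, a ≠ b ∧ a ≠ d ∧ b ≠ d) (hA : AllInv 𝔅) (hE : Ext ω 𝔅)
    (hN : ¬ NN ω 𝔅) (hC : ¬ CN ω 𝔅) : Rg3 ω 𝔅 := by
  intro X _ F v w hv hw hfat
  refine ⟨fun x _ y _ => by rw [hv.eq_iff, hw.eq_iff], fun x hx y hy z hz => ?_⟩
  by_contra hd
  have hzx : z ≠ x := by
    rintro rfl
    exact hd ⟨fun h => absurd h cc_irrefl, fun h => absurd h cc_irrefl⟩
  have hzy : z ≠ y := by
    rintro rfl
    exact hd ⟨fun h => absurd h cc_irrefl', fun h => absurd h cc_irrefl'⟩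
  have hxy : x ≠ y := by
    rintro rfl
    exact hd ⟨fun _ => cc_self fun h => hzx (hw h), fun _ => cc_self fun h => hzx (hv h)⟩
  have hι := inj3 z x y hzx hxy hzy
  have hιF : ∀ j, (![z, x, y] : Fin 3 → X) j ∈ F := by
    intro j
    fin_cases j
    · exact hz
    · exact hx
    · exact hy
  have hf1 := fat_res hF hA hv hw hfat _ hι hιF
  have hv1 : Function.Injective (fun j => v ((![z, x, y] : Fin 3 → X) j)) := hv.comp hι
  have hw1 : Function.Injective (fun j => w ((![z, x, y] : Fin 3 → X) j)) := hw.comp hι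
  by_cases hs1 : S3 (fun j => v ((![z, x, y] : Fin 3 → X) j))
  · by_cases hs2 : S3 (fun j => w ((![z, x, y] : Fin 3 → X) j))
    · exact hd (((hT K c).1 _ _ hv1 hw1 hs1 hs2).2 1 (Set.mem_univ _) 2 (Set.mem_univ _) 0
        (Set.mem_univ _))
    · exact hN ⟨_, _, hv1, hw1, hf1, hs1, hs2⟩
  · by_cases hs2 : S3 (fun j => w ((![z, x, y] : Fin 3 → X) j))
    · exact hC ⟨_, _, hv1, hw1, hf1, hs1, hs2⟩
    · obtain ⟨i, hi⟩ := shp_ex _ hv1 hs1
      obtain ⟨j, hj⟩ := shp_ex _ hw1 hs2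
      have hij : i ≠ j := by
        rintro rfl
        exact hd ((same _ _ hv1 hw1 i hi hj).2 1 (Set.mem_univ _) 2 (Set.mem_univ _) 0
          (Set.mem_univ _))
      obtain ⟨τ, rfl, rfl⟩ := two_tr 0 1 i j (by decide) hij
      have h0 := fat_res hF hA hv1 hw1 hf1 τ τ.injective (fun j => Set.mem_univ _)
      exact no01 hF hX hT hK hA hE hN hC _ _ (hv1.comp τ.injective) (hw1.comp τ.injective)
        (shp_perm _ τ 0 hi) (shp_perm _ τ 1 hj) h0

end XT1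

open XT1 in
theorem T1_pf (h1 : S_FAT) (h2 : S_EXM) (h3 : S_TY3) (h4 : S_ITR) : S_T1 := by
  intro K c σ ω 𝔅 hK hA _ hE
  by_cases hN : NN ω 𝔅
  · by_cases hC : CN ω 𝔅
    · exact Or.inr (Or.inr (Or.inl (case_f3 h1 h3 hA hN hC)))
    · exact Or.inl (case_bb h1 h2 h3 h4 hA hE hN hC)
  · by_cases hC : CN ω 𝔅
    · exact Or.inr (Or.inl (case_ss h1 h2 h4 hA hE hC hN))
    · exact Or.inr (Or.inr (Or.inr (case_rg h1 h2 h3 hK hA hE hN hC)))

end Pool.Agent.Work.MP_8dbde4_lc.FK
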