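import Pool.Agent.Work.MP_8dbde4_lc.FK.StmtsW

/-!
# Finite tuples embed in the complete trees (item TCE)
-/

set_option autoImplicit false
open Classical

namespace Pool.Agent.Work.MP_8dbde4_lc.FK

open Pool.Agent.Work.MP_8dbde4_lc.TS
open Pool.Agent.Work.MP_8dbde4_lc.Tree (Word Agr Cc)
open Pool.Agent.Work.MP_8dbde4_lc.Phy (PP Hom)
open Pool.Agent.Work.MP_8dbde4_lc.Bra (Same InvU BinOn pull c₂)
open Pool.Agent.Work.MP_8dbde4_lc.Full (Arr NEq Cst0 BT Sub)

namespace XTCE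

/-- The words seen through an enumeration `j` of the places and a coding `r` of the letters. -/
theorem main {K : Type} {c : ℚ → K} {X : Type} (v : X → Word c) {n₀ n k : ℕ} (hn : n₀ ≤ n)
    (j : Fin n₀ → ℚ) (hj : StrictMono j)
    (hD : ∀ q, (∀ l, j l ≠ q) → ∀ x y, (v x).1 q = (v y).1 q)
    (e : X → (Fin n → Fin k))
    (h1 : ∀ x y (l : Fin n₀), e x (Fin.castLE hn l) = e y (Fin.castLE hn l) ↔
      (v x).1 (j l) = (v y).1 (j l))
    (h2 : ∀ x y (l : Fin n), n₀ ≤ l.1 → e x l = e y l) (hv : Function.Injective v) :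
    Function.Injective e ∧ ∀ z x y, Cc (v z) (v x) (v y) ↔ TC (e z) (e x) (e y) := by
  have hback : ∀ l : Fin n, l.1 < n₀ → ∃ l' : Fin n₀, l = Fin.castLE hn l' := fun l hl =>
    ⟨⟨l.1, hl⟩, rfl⟩
  have hdf : ∀ x y (l : Fin n₀), Df (e x) (e y) (Fin.castLE hn l) ↔
      (Agr (v x) (v y) (j l) ∧ (v x).1 (j l) ≠ (v y).1 (j l)) := by
    intro x y l
    constructor
    · rintro ⟨h3, h4⟩
      refine ⟨?_, fun h => h4 ((h1 x y l).2 h)⟩
      intro q hq
      by_cases hq' : ∃ l', j l' = q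
      · obtain ⟨l', rfl⟩ := hq'
        have hl : l' < l := hj.lt_iff_lt.1 hq
        exact (h1 x y l').1 (h3 (Fin.castLE hn l') hl)
      · push Not at hq'
        exact hD q hq' x y
    · rintro ⟨h3, h4⟩
      refine ⟨?_, fun h => h4 ((h1 x y l).1 h)⟩
      intro l' hl'
      have hl'' : l'.1 < l.1 := hl'
      obtain ⟨l₁, rfl⟩ := hback l' (hl''.trans l.2)
      exact (h1 x y l₁).2 (h3 (j l₁) (hj hl''))
  have hdf' : ∀ x y (m : Fin n), Df (e x) (e y) m → ∃ l : Fin n₀, m = Fin.castLE hn l := by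
    rintro x y m ⟨_, h4⟩
    refine hback m ?_
    by_contra hc
    exact h4 (h2 x y m (not_lt.1 hc))
  constructor
  · intro x y hxy
    apply hv
    apply Subtype.ext
    funext q
    by_cases hq' : ∃ l', j l' = q
    · obtain ⟨l', rfl⟩ := hq'
      exact (h1 x y l').1 (by rw [hxy])
    · push Not at hq'
      exact hD q hq' x y
  · intro z x y
    constructor
    · rintro ⟨q, h3, h4, h5, h6⟩
      have hq' : ∃ l', j l' = q := by
        by_contra hc
        push Not at hc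
        exact h6 (hD q hc z x)
      obtain ⟨l, rfl⟩ := hq'
      refine ⟨Fin.castLE hn l, (hdf z x l).2 ⟨h3, h6⟩, (hdf z y l).2 ⟨h4, ?_⟩, (h1 x y l).2 h5⟩
      intro h
      exact h6 (h.trans h5.symm)
    · rintro ⟨m, h3, h4, h5⟩
      obtain ⟨l, rfl⟩ := hdf' z x m h3
      obtain ⟨h6, h7⟩ := (hdf z x l).1 h3
      obtain ⟨h8, _⟩ := (hdf z y l).1 h4
      exact ⟨j l, h6, h8, (h1 x y l).1 h5, h7⟩

/-- A coding of finitely many letters. -/
theorem code {K : Type} (L : Finset K) : ∃ r : K → ℕ, (∀ a, r a < L.card + 1) ∧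
    ∀ a ∈ L, ∀ b ∈ L, r a = r b → a = b := by
  refine ⟨fun a => if h : a ∈ L then (L.equivFin ⟨a, h⟩ : Fin L.card).1 else L.card, ?_, ?_⟩
  · intro a
    dsimp only
    split_ifs with h
    · exact (L.equivFin ⟨a, h⟩).2.trans (Nat.lt_succ_self _)
    · exact Nat.lt_succ_self _
  · intro a ha b hb hab
    dsimp only at hab
    rw [dif_pos ha, dif_pos hb] at hab
    have h1 := L.equivFin.injective (Fin.ext hab)
    exact congrArg Subtype.val h1

end XTCE

theorem TCE_pf : S_TCE := by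
  intro K c X _ v hv
  have : Fintype X := Fintype.ofFinite X
  have hfin : (⋃ x : X, {q | (v x).1 q ≠ c q}).Finite := Set.finite_iUnion fun x => (v x).2
  let D : Finset ℚ := hfin.toFinset
  have hDm : ∀ q, q ∉ D → ∀ x, (v x).1 q = c q := by
    intro q hq x
    by_contra hc
    apply hq
    rw [Set.Finite.mem_toFinset, Set.mem_iUnion]
    exact ⟨x, hc⟩
  let j : Fin D.card → ℚ := fun l => D.orderEmbOfFin rfl l
  have hj : StrictMono j := (D.orderEmbOfFin rfl).strictMono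
  have hjr : ∀ q ∈ D, ∃ l, j l = q := by
    intro q hq
    have h1 : q ∈ Set.range (D.orderEmbOfFin rfl) := by
      rw [Finset.range_orderEmbOfFin]
      exact hq
    exact h1
  let L : Finset K := (Finset.univ : Finset (X × Fin D.card)).image fun p => (v p.1).1 (j p.2)
  have hL : ∀ x l, (v x).1 (j l) ∈ L := fun x l =>
    Finset.mem_image.2 ⟨(x, l), Finset.mem_univ _, rfl⟩
  obtain ⟨r, hr1, hr2⟩ := XTCE.code L
  refine ⟨D.card, L.card + 1, fun n k hn hk => ?_⟩
  let e : X → (Fin n → Fin k) := fun x l =>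
    if h : l.1 < D.card then ⟨r ((v x).1 (j ⟨l.1, h⟩)), (hr1 _).trans_le hk⟩
    else ⟨0, lt_of_lt_of_le (Nat.succ_pos _) hk⟩
  refine ⟨e, XTCE.main v hn j hj ?_ e ?_ ?_ hv⟩
  · intro q hq x y
    have hq' : q ∉ D := by
      intro h
      obtain ⟨l, hl⟩ := hjr q h
      exact hq l hl
    rw [hDm q hq' x, hDm q hq' y]
  · intro x y l
    have he : ∀ x, e x (Fin.castLE hn l) = ⟨r ((v x).1 (j l)), (hr1 _).trans_le hk⟩ := by
      intro x
      have h3 : (Fin.castLE hn l).1 < D.card := l.2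
      change (if h : (Fin.castLE hn l).1 < D.card then
        (⟨r ((v x).1 (j ⟨(Fin.castLE hn l).1, h⟩)), (hr1 _).trans_le hk⟩ : Fin k)
        else ⟨0, lt_of_lt_of_le (Nat.succ_pos _) hk⟩) = _
      rw [dif_pos h3]
      rfl
    rw [he x, he y]
    constructor
    · intro h
      exact hr2 _ (hL x l) _ (hL y l) (congrArg Fin.val h)
    · intro h
      apply Fin.ext
      change r ((v x).1 (j l)) = r ((v y).1 (j l))
      rw [h]
  · intro x y l hl
    change (if h : l.1 < D.card then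
        (⟨r ((v x).1 (j ⟨l.1, h⟩)), (hr1 _).trans_le hk⟩ : Fin k)
        else ⟨0, lt_of_lt_of_le (Nat.succ_pos _) hk⟩) =
      (if h : l.1 < D.card then
        (⟨r ((v y).1 (j ⟨l.1, h⟩)), (hr1 _).trans_le hk⟩ : Fin k)
        else ⟨0, lt_of_lt_of_le (Nat.succ_pos _) hk⟩)
    rw [dif_neg (not_lt.2 hl), dif_neg (not_lt.2 hl)]

end Pool.Agent.Work.MP_8dbde4_lc.FK
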