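import Pool.Agent.Work.MP_8dbde4_lc.FK.StmtsW

/-!
MP_8dbde4_lc, block FK, item TCF: facts on the trees `Fin n → A`.
-/

set_option autoImplicit false
open Classical

namespace Pool.Agent.Work.MP_8dbde4_lc.FK

namespace XTCF

theorem df_ex {n : ℕ} {A : Type} {a b : Fin n → A} (h : a ≠ b) : ∃ m, Df a b m := by
  have hne : ({l | a l ≠ b l} : Set (Fin n)).Nonempty := by
    by_contra hc
    apply h
    funext l
    by_contra hl
    exact hc ⟨l, hl⟩
  obtain ⟨m, hm, hmin⟩ := WellFounded.has_min (wellFounded_lt (α := Fin n)) _ hne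
  refine ⟨m, fun l hl => ?_, hm⟩
  by_contra hc
  exact hmin l hc hl

theorem df_uniq {n : ℕ} {A : Type} {a b : Fin n → A} {m m' : Fin n} (h : Df a b m)
    (h' : Df a b m') : m = m' := by
  rcases lt_trichotomy m m' with hlt | heq | hlt
  · exact absurd (h'.1 m hlt) h.2
  · exact heq
  · exact absurd (h.1 m' hlt) h'.2

theorem df_symm {n : ℕ} {A : Type} {a b : Fin n → A} {m : Fin n} (h : Df a b m) : Df b a m :=
  ⟨fun l hl => (h.1 l hl).symm, fun e => h.2 e.symm⟩

theorem df_ne {n : ℕ} {A : Type} {a b : Fin n → A} {m : Fin n} (h : Df a b m) : a ≠ b :=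
  fun e => h.2 (by rw [e])

theorem map {n n' : ℕ} {A A' : Type} (g : (Fin n → A) → (Fin n' → A')) (f : Fin n → Fin n')
    (hf : StrictMono f) (hg : ∀ a b m, Df a b m → Df (g a) (g b) (f m)) :
    Function.Injective g ∧ ∀ z x y, TC z x y ↔ TC (g z) (g x) (g y) := by
  refine ⟨?_, ?_⟩
  · intro a b hab
    by_contra hne
    obtain ⟨m, hm⟩ := df_ex hne
    exact df_ne (hg a b m hm) hab
  · intro z x y
    constructor
    · rintro ⟨m, h1, h2, h3⟩
      refine ⟨f m, hg z x m h1, hg z y m h2, ?_⟩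
      by_cases hxy : x = y
      · rw [hxy]
      · obtain ⟨l, hl⟩ := df_ex hxy
        have hml : m < l := by
          rcases lt_trichotomy m l with h | h | h
          · exact h
          · exact absurd h3 (by rw [h]; exact hl.2)
          · exact absurd ((h1.1 l h).symm.trans (h2.1 l h)) hl.2
        exact (hg x y l hl).1 (f m) (hf hml)
    · rintro ⟨M, h1, h2, h3⟩
      have hzx : z ≠ x := fun e => df_ne h1 (by rw [e])
      have hzy : z ≠ y := fun e => df_ne h2 (by rw [e])
      obtain ⟨m, hm⟩ := df_ex hzx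
      obtain ⟨m', hm'⟩ := df_ex hzy
      have e1 : f m = M := df_uniq (hg z x m hm) h1
      have e2 : f m' = M := df_uniq (hg z y m' hm') h2
      have e3 : m' = m := hf.injective (e2.trans e1.symm)
      subst e3
      refine ⟨m', hm, hm', ?_⟩
      by_contra hne
      have hd : Df x y m' := ⟨fun l hl => (hm.1 l hl).symm.trans (hm'.1 l hl), hne⟩
      have := (hg x y m' hd).2
      rw [e1] at this
      exact this h3

theorem emb {n n' k k' : ℕ} (hn : n ≤ n') (hk : k ≤ k') (h1 : 1 ≤ k') :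
    ∃ g : (Fin n → Fin k) → (Fin n' → Fin k'),
      Function.Injective g ∧ ∀ z x y, TC z x y ↔ TC (g z) (g x) (g y) := by
  let g : (Fin n → Fin k) → (Fin n' → Fin k') := fun a l =>
    if h : l.val < n then Fin.castLE hk (a ⟨l.val, h⟩) else ⟨0, h1⟩
  refine ⟨g, map g (Fin.castLE hn) (Fin.strictMono_castLE hn) ?_⟩
  intro a b m hm
  have e : ∀ (a : Fin n → Fin k) (l : Fin n') (h : l.val < n),
      g a l = Fin.castLE hk (a ⟨l.val, h⟩) := fun a l h => dif_pos h
  refine ⟨fun l hl => ?_, ?_⟩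
  · have hl' : l.val < m.val := hl
    have hl2 : l.val < n := hl'.trans m.isLt
    rw [e a l hl2, e b l hl2, hm.1 ⟨l.val, hl2⟩ hl']
  · have hm2 : (Fin.castLE hn m).val < n := m.isLt
    rw [e a _ hm2, e b _ hm2]
    intro hc
    exact hm.2 (Fin.castLE_injective hk hc)

theorem cons {n : ℕ} {A : Type} (t : A) (z x y : Fin n → A) : TC z x y ↔
    TC (Fin.cons t z : Fin (n + 1) → A) (Fin.cons t x) (Fin.cons t y) := by
  refine (map (fun a : Fin n → A => (Fin.cons t a : Fin (n + 1) → A)) Fin.succ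
    (Fin.strictMono_succ) ?_).2 z x y
  intro a b m hm
  refine ⟨fun l hl => ?_, ?_⟩
  · refine Fin.cases (fun _ => ?_) (fun l' hl' => ?_) l hl
    · simp
    · simp only [Fin.cons_succ]
      exact hm.1 l' (Fin.succ_lt_succ_iff.1 hl')
  · simp only [Fin.cons_succ]
    exact hm.2

end XTCF

theorem TCF_pf : S_TCF :=
  ⟨fun _ _ _ _ => ⟨fun h => XTCF.df_ex h, fun _ _ h h' => XTCF.df_uniq h h',
      fun _ h => XTCF.df_symm h⟩,
    fun _ _ _ _ g f hf hg => XTCF.map g f hf hg,
    fun _ _ _ _ hn hk h1 => XTCF.emb hn hk h1,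
    fun _ _ t z x y => XTCF.cons t z x y⟩

end Pool.Agent.Work.MP_8dbde4_lc.FK
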