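import Pool.Agent.Work.MP_8dbde4_lc.FK.StmtsW

/-!
Block FK of MP_8dbde4_lc, item THW: thinning (at most one bad branch), and tuples with blocks.
-/

set_option autoImplicit false
open Classical

namespace Pool.Agent.Work.MP_8dbde4_lc.FK

open Pool.Agent.Work.MP_8dbde4_lc.TS
open Pool.Agent.Work.MP_8dbde4_lc.Tree (Word Agr Cc)
open Pool.Agent.Work.MP_8dbde4_lc.Phy (PP Hom)
open Pool.Agent.Work.MP_8dbde4_lc.Bra (Same InvU BinOn pull c₂)
open Pool.Agent.Work.MP_8dbde4_lc.Full (Arr NEq Cst0 BT Sub)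

namespace XTHW

/-- Leaves with the same first entry, seen from a leaf with another first entry. -/
theorem tc_zero {n k : ℕ} {z x y : Fin (n + 1) → Fin k} (h1 : z 0 ≠ x 0) (h2 : x 0 = y 0) :
    TC z x y :=
  ⟨0, ⟨fun l hl => absurd hl (Fin.not_lt_zero l), h1⟩,
    ⟨fun l hl => absurd hl (Fin.not_lt_zero l), fun h => h1 (h.trans h2.symm)⟩, h2⟩

end XTHW

/-- Thinning. -/
theorem THW_pf : S_THW := by
  intro K c n k u X _ b hu hX
  by_contra hc
  push Not at hc
  choose x a a' h1 h2 h3 using hc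
  have hni : ¬ Function.Injective x := by
    intro hi
    have h := Nat.card_le_card_of_injective x hi
    rw [Nat.card_eq_fintype_card, Fintype.card_fin] at h
    omega
  simp only [Function.Injective, not_forall] at hni
  obtain ⟨t, t', hx, hne⟩ := hni
  have e1 : Cc (u (a t')) (u (a t)) (u (a' t)) := (hu.2 _ _ _).2
    (XTHW.tc_zero (by rw [h1, h1]; exact Ne.symm hne) (by rw [h1, h2]))
  have e2 : Cc (u (a t)) (u (a t')) (u (a' t')) := (hu.2 _ _ _).2
    (XTHW.tc_zero (by rw [h1, h1]; exact hne) (by rw [h1, h2]))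
  have f1 : Cc (u (a t')) (u (a t)) (b (x t)) := (cc_or e1 (b (x t))).resolve_right (h3 t)
  have f2 : Cc (u (a t)) (u (a t')) (b (x t)) := (cc_or e2 (b (x t))).resolve_right
    (by rw [hx]; exact h3 t')
  exact cc_asymm f1 f2

/-- Tuples with blocks. -/
theorem BLS_pf : S_BLS := by
  intro K c X Y π u s hs hu
  constructor
  · intro y y' y'' h1 h2
    have r1 : ∀ (y z : Y) (w : Word c), π z ≠ π y →
        (Cc (u z) (u y) w ↔ Cc (u z) (u (s (π y))) w) := by
      intro y z w h
      have h' : Cc (u z) (u y) (u (s (π y))) := hu y (s (π y)) z (hs _).symm h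
      exact ⟨fun h3 => cc_trans (cc_symm h') h3, fun h3 => cc_trans h' h3⟩
    have r2 : ∀ (z a a' : Y), π z ≠ π a →
        (Cc (u z) (u a) (u a') ↔ Cc (u (s (π z))) (u a) (u a')) := by
      intro z a a' h
      constructor
      · intro h3
        exact (cc_or h3 _).resolve_left fun h4 =>
          cc_asymm h4 (hu z (s (π z)) a (hs _).symm (Ne.symm h))
      · intro h3
        exact (cc_or h3 _).resolve_left fun h4 =>
          cc_asymm h4 (hu (s (π z)) z a (hs _) (by rw [hs]; exact Ne.symm h))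
    have g1 : π y'' ≠ π (s (π y)) := by rw [hs]; exact h1
    rw [r1 y y'' _ h1]
    constructor
    · intro h3
      have h4 := (r1 y' y'' _ h2).1 (cc_symm h3)
      exact (r2 y'' _ _ g1).1 (cc_symm h4)
    · intro h3
      have h4 := (r2 y'' _ _ g1).2 h3
      exact cc_symm ((r1 y' y'' _ h2).2 (cc_symm h4))
  · intro x x' h
    by_contra hne
    have h1 : Cc (u (s x')) (u (s x)) (u (s x)) :=
      hu (s x) (s x) (s x') rfl (by rw [hs, hs]; exact Ne.symm hne)
    exact cc_ne h1 h.symm

end Pool.Agent.Work.MP_8dbde4_lc.FK
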