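import Pool.Agent.Work.MP_8dbde4_lc.FK.StmtsA

/-!
Items TP1, TP2, THN of the block FK of MP_8dbde4_lc: two trees; one tree relative to a finite family.
-/

set_option autoImplicit false
open Classical

namespace Pool.Agent.Work.MP_8dbde4_lc.FK

open Pool.Agent.Work.MP_8dbde4_lc.TS
open Pool.Agent.Work.MP_8dbde4_lc.Tree (Word Agr Cc)
open Pool.Agent.Work.MP_8dbde4_lc.Phy (PP Hom)
open Pool.Agent.Work.MP_8dbde4_lc.Bra (Same InvU BinOn pull c₂)
open Pool.Agent.Work.MP_8dbde4_lc.Full (Arr NEq Cst0 BT Sub)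
open Pool.Agent.Work.MP_8dbde4_lc.Full.BT


theorem TP1_pf : S_TP1 := by
  intro K c Λ w l r b hS
  by_cases h : ∀ a ∈ l.lvs, ∀ a' ∈ l.lvs, Cc b (w a) (w a')
  · exact Or.inl h
  · right
    push Not at h
    obtain ⟨a, ha, a', ha', hb⟩ := h
    obtain ⟨_, _, h1, h2⟩ := hS
    intro d hd d' hd'
    have h3 : Cc (w d) (w a) b := by
      rcases cc_or (h1 a ha a' ha' d hd) b with h4 | h4
      · exact h4
      · exact absurd h4 hb
    exact cc_mid h3 (h2 a ha d hd d' hd')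



namespace XTP1

theorem lvs_ne {X : Type} (t : BT X) : ∃ a, a ∈ t.lvs := by
  induction t with
  | lf x => exact ⟨x, by simp [lvs]⟩
  | nd l r ihl ihr =>
    obtain ⟨a, ha⟩ := ihl
    exact ⟨a, by simp [lvs, ha]⟩

theorem core (hTP1 : S_TP1) (hSUB : Full.S_SUB) (hSHF : S_SHF) {K : Type} {c : ℚ → K} {Λ : Type}
    (w : Λ → Word c) (s H z : BT Λ) (m : ℕ) (hH : Sh w H) (hz : Sub z H) (hzm : z.Cpl (m + 1))
    (hs : ∀ b ∈ z.lvs, ∀ a ∈ s.lvs, ∀ a' ∈ s.lvs, Cc (w b) (w a) (w a')) :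
    ∃ H', Sub H' H ∧ H'.Cpl m ∧
      (∀ a ∈ s.lvs, ∀ a' ∈ s.lvs, ∀ b ∈ H'.lvs, Cc (w b) (w a) (w a')) ∧
      ∀ a ∈ s.lvs, ∀ b ∈ H'.lvs, ∀ b' ∈ H'.lvs, Cc (w a) (w b) (w b') := by
  obtain ⟨a0, ha0⟩ := lvs_ne s
  have hSz : Sh w z := (hSHF K c Λ H).2.2.2.2.2.1 z w hz hH
  cases z with
  | lf x => exact absurd hzm (by simp [Cpl])
  | nd z1 z2 =>
    have hc : z1.Cpl m ∧ z2.Cpl m := by simpa [Cpl] using hzm
    have key : ∀ H' : BT Λ, (∀ b ∈ H'.lvs, b ∈ (nd z1 z2).lvs) →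
        (∀ b ∈ H'.lvs, ∀ b' ∈ H'.lvs, Cc (w a0) (w b) (w b')) →
        (∀ a ∈ s.lvs, ∀ a' ∈ s.lvs, ∀ b ∈ H'.lvs, Cc (w b) (w a) (w a')) ∧
        ∀ a ∈ s.lvs, ∀ b ∈ H'.lvs, ∀ b' ∈ H'.lvs, Cc (w a) (w b) (w b') := by
      intro H' hsub h0
      refine ⟨fun a ha a' ha' b hb => hs b (hsub b hb) a ha a' ha', ?_⟩
      intro a ha b hb b' hb'
      rcases cc_or (h0 b hb b' hb') (w a) with h1 | h1
      · exact absurd (hs b (hsub b hb) a0 ha0 a ha) (cc_asymm h1)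
      · exact h1
    rcases hTP1 K c Λ w z1 z2 (w a0) hSz with h | h
    · refine ⟨z1, (hSUB Λ).2.1 _ _ _ (Sub.left z2 ((hSUB Λ).1 z1)) hz, hc.1, ?_⟩
      exact key z1 (fun b hb => by simp [lvs, hb]) (fun b hb b' hb' => h b hb b' hb')
    · refine ⟨z2, (hSUB Λ).2.1 _ _ _ (Sub.right z1 ((hSUB Λ).1 z2)) hz, hc.2, ?_⟩
      exact key z2 (fun b hb => by simp [lvs, hb]) (fun b hb b' hb' => h b hb b' hb')

end XTP1

theorem TP2_pf (hTP1 : S_TP1) (hLPH : Full.S_LPH) (hSUB : Full.S_SUB) (hSHF : S_SHF) : S_TP2 := by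
  intro K c Λ w T H k m hK hH hSK hSH
  cases T with
  | lf x => exact absurd hK (by simp [Cpl])
  | nd l r =>
    have hc : l.Cpl k ∧ r.Cpl k := by simpa [Cpl] using hK
    let χ : Λ → Bool := fun b => decide (∀ a ∈ l.lvs, ∀ a' ∈ l.lvs, Cc (w b) (w a) (w a'))
    obtain ⟨i, z, hz, hzm, hcol⟩ := hLPH Λ Bool χ (2 * m + 2) (fun _ => m + 1) H hH (by
      simp only [Finset.sum_const, Finset.card_univ, Fintype.card_bool, smul_eq_mul]
      omega)
    cases i with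
    | true =>
      have hs : ∀ b ∈ z.lvs, ∀ a ∈ l.lvs, ∀ a' ∈ l.lvs, Cc (w b) (w a) (w a') := by
        intro b hb
        exact of_decide_eq_true (hcol b hb)
      obtain ⟨H', h1, h2, h3, h4⟩ := XTP1.core hTP1 hSUB hSHF w l H z m hSH hz hzm hs
      exact ⟨l, H', Sub.left r ((hSUB Λ).1 l), h1, hc.1, h2, h3, h4⟩
    | false =>
      have hs : ∀ b ∈ z.lvs, ∀ a ∈ r.lvs, ∀ a' ∈ r.lvs, Cc (w b) (w a) (w a') := by
        intro b hb
        rcases hTP1 K c Λ w l r (w b) hSK with h | h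
        · exact absurd h (of_decide_eq_false (hcol b hb))
        · exact h
      obtain ⟨H', h1, h2, h3, h4⟩ := XTP1.core hTP1 hSUB hSHF w r H z m hSH hz hzm hs
      exact ⟨r, H', Sub.right l ((hSUB Λ).1 r), h1, hc.2, h2, h3, h4⟩



namespace XTHN

theorem lvs_ne {X : Type} (t : BT X) : ∃ a, a ∈ t.lvs := by
  induction t with
  | lf x => exact ⟨x, by simp [lvs]⟩
  | nd l r ihl ihr =>
    obtain ⟨a, ha⟩ := ihl
    exact ⟨a, by simp [lvs, ha]⟩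

theorem sub_leaf {X : Type} (t : BT X) : ∀ a ∈ t.lvs, Sub (lf a) t := by
  induction t with
  | lf x =>
    intro a ha
    have : a = x := by simpa [lvs] using ha
    subst this
    exact Sub.rfl a
  | nd l r ihl ihr =>
    intro a ha
    have : a ∈ l.lvs ∨ a ∈ r.lvs := by simpa [lvs] using ha
    rcases this with h | h
    · exact Sub.left r (ihl a h)
    · exact Sub.right l (ihr a h)

theorem main (hTP1 : S_TP1) (hTP2 : S_TP2) (hSUB : Full.S_SUB) (hSHF : S_SHF) (X : Type) (n : ℕ)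
    (s : Finset X) : ∀ m : ℕ, ∃ N : ℕ, ∀ (K : Type) (c : ℚ → K) (Λ : Type)
  (w : Λ → Word c) (F : Set X) (T : X → BT Λ) (H : BT Λ), (∀ x ∈ F, (T x).Cpl (n + 1)) →
  (∀ x, Sh w (T x)) → H.Cpl N → Sh w H → (∀ x, ∀ a ∈ (T x).lvs, ∀ b ∈ H.lvs, w a ≠ w b) →
  ∃ (T' : X → BT Λ) (H' : BT Λ), (∀ x ∈ s, Sub (T' x) (T x)) ∧ Sub H' H ∧
    (∀ x ∈ s, x ∈ F → (T' x).Cpl n) ∧
    (∀ x ∈ s, x ∉ F → ∃ a, T' x = lf a) ∧ H'.Cpl m ∧
    (∀ x ∈ s, ∀ a ∈ (T' x).lvs, ∀ a' ∈ (T' x).lvs, ∀ b ∈ H'.lvs, Cc (w b) (w a) (w a')) ∧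
    (∀ x ∈ s, ∀ a ∈ (T' x).lvs, ∀ b ∈ H'.lvs, ∀ b' ∈ H'.lvs, Cc (w a) (w b) (w b')) := by
  induction s using Finset.induction_on with
  | empty =>
    intro m
    refine ⟨m, ?_⟩
    intro K c Λ w F T H hF hK hH hSH hd
    exact ⟨T, H, by simp, (hSUB Λ).1 H, by simp, by simp, hH, by simp, by simp⟩
  | insert x0 s hx0 ih =>
    intro m
    obtain ⟨N, hN⟩ := ih (2 * m + 2)
    refine ⟨N, ?_⟩
    intro K c Λ w F T H hF hK hH hSH hd
    obtain ⟨T1, H1, h1, h2, h3, h4, h5, h6, h7⟩ := hN K c Λ w F T H hF hK hH hSH hd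
    have hSH1 : Sh w H1 := (hSHF K c Λ H).2.2.2.2.2.1 H1 w h2 hSH
    have hH1H : ∀ b ∈ H1.lvs, b ∈ H.lvs := fun b hb =>
      ((hSHF K c Λ H).2.2.2.2.2.2.1 H1 h2).subset hb
    -- it is enough to treat `x0`
    have key : ∃ (Kx H2 : BT Λ), Sub Kx (T x0) ∧ Sub H2 H1 ∧ (x0 ∈ F → Kx.Cpl n) ∧
        (x0 ∉ F → ∃ a, Kx = lf a) ∧ H2.Cpl m ∧
        (∀ a ∈ Kx.lvs, ∀ a' ∈ Kx.lvs, ∀ b ∈ H2.lvs, Cc (w b) (w a) (w a')) ∧
        (∀ a ∈ Kx.lvs, ∀ b ∈ H2.lvs, ∀ b' ∈ H2.lvs, Cc (w a) (w b) (w b')) := by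
      by_cases hxF : x0 ∈ F
      · obtain ⟨Kx, H2, g1, g2, g3, g4, g5, g6⟩ :=
          hTP2 K c Λ w (T x0) H1 n m (hF x0 hxF) h5 (hK x0) hSH1
        exact ⟨Kx, H2, g1, g2, fun _ => g3, fun h => absurd hxF h, g4, g5, g6⟩
      · obtain ⟨a0, ha0⟩ := lvs_ne (T x0)
        have fin : ∀ z : BT Λ, Sub z H1 → z.Cpl (2 * m + 1) →
            (∀ b ∈ z.lvs, ∀ b' ∈ z.lvs, Cc (w a0) (w b) (w b')) →
            ∃ (Kx H2 : BT Λ), Sub Kx (T x0) ∧ Sub H2 H1 ∧ (x0 ∈ F → Kx.Cpl n) ∧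
            (x0 ∉ F → ∃ a, Kx = lf a) ∧ H2.Cpl m ∧
            (∀ a ∈ Kx.lvs, ∀ a' ∈ Kx.lvs, ∀ b ∈ H2.lvs, Cc (w b) (w a) (w a')) ∧
            (∀ a ∈ Kx.lvs, ∀ b ∈ H2.lvs, ∀ b' ∈ H2.lvs, Cc (w a) (w b) (w b')) := by
          intro z hz hzc hzz
          obtain ⟨H2, hH2, hH2c⟩ := (hSUB Λ).2.2.1 z m (2 * m + 1) hzc (by omega)
          have hSz : Sh w z := (hSHF K c Λ H1).2.2.2.2.2.1 z w hz hSH1
          have hH2z : ∀ b ∈ H2.lvs, b ∈ z.lvs := fun b hb =>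
            ((hSHF K c Λ z).2.2.2.2.2.2.1 H2 hH2).subset hb
          have hH2H : Sub H2 H1 := (hSUB Λ).2.1 _ _ _ hH2 hz
          have hH2H1 : ∀ b ∈ H2.lvs, b ∈ H1.lvs := fun b hb =>
            ((hSHF K c Λ H1).2.2.2.2.2.2.1 H2 hH2H).subset hb
          refine ⟨lf a0, H2, sub_leaf _ a0 ha0, hH2H, fun h => absurd h hxF, fun _ => ⟨a0, rfl⟩,
            hH2c, ?_, ?_⟩
          · intro a ha a' ha' b hb
            have e1 : a = a0 := by simpa [lvs] using ha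
            have e2 : a' = a0 := by simpa [lvs] using ha'
            subst e1
            subst e2
            exact cc_self (fun h => hd x0 _ ha0 b (hH1H b (hH2H1 b hb)) h.symm)
          · intro a ha b hb b' hb'
            have e1 : a = a0 := by simpa [lvs] using ha
            subst e1
            exact hzz b (hH2z b hb) b' (hH2z b' hb')
        cases H1 with
        | lf x => exact absurd h5 (by simp [Cpl])
        | nd l r =>
          have hc : l.Cpl (2 * m + 1) ∧ r.Cpl (2 * m + 1) := by simpa [Cpl] using h5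
          rcases hTP1 K c Λ w l r (w a0) hSH1 with h | h
          · exact fin l (Sub.left r ((hSUB Λ).1 l)) hc.1 h
          · exact fin r (Sub.right l ((hSUB Λ).1 r)) hc.2 h
    obtain ⟨Kx, H2, k1, k2, k3, k4, k5, k6, k7⟩ := key
    have hH21 : ∀ b ∈ H2.lvs, b ∈ H1.lvs := fun b hb =>
      ((hSHF K c Λ H1).2.2.2.2.2.2.1 H2 k2).subset hb
    have hu0 : Function.update T1 x0 Kx x0 = Kx := by simp
    have hus : ∀ x ∈ s, Function.update T1 x0 Kx x = T1 x := by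
      intro x hx
      have : x ≠ x0 := by
        rintro rfl
        exact hx0 hx
      simp [this]
    refine ⟨Function.update T1 x0 Kx, H2, ?_, (hSUB Λ).2.1 _ _ _ k2 h2, ?_, ?_, k5, ?_, ?_⟩
    · intro x hx
      rcases Finset.mem_insert.1 hx with rfl | hx
      · rw [hu0]
        exact k1
      · rw [hus x hx]
        exact h1 x hx
    · intro x hx hxF
      rcases Finset.mem_insert.1 hx with rfl | hx
      · rw [hu0]
        exact k3 hxF
      · rw [hus x hx]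
        exact h3 x hx hxF
    · intro x hx hxF
      rcases Finset.mem_insert.1 hx with rfl | hx
      · rw [hu0]
        exact k4 hxF
      · rw [hus x hx]
        exact h4 x hx hxF
    · intro x hx
      rcases Finset.mem_insert.1 hx with rfl | hx
      · rw [hu0]
        exact k6
      · rw [hus x hx]
        intro a ha a' ha' b hb
        exact h6 x hx a ha a' ha' b (hH21 b hb)
    · intro x hx
      rcases Finset.mem_insert.1 hx with rfl | hx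
      · rw [hu0]
        exact k7
      · rw [hus x hx]
        intro a ha b hb b' hb'
        exact h7 x hx a ha b (hH21 b hb) b' (hH21 b' hb')

end XTHN

theorem THN_pf (hTP1 : S_TP1) (hTP2 : S_TP2) (hSUB : Full.S_SUB) (hSHF : S_SHF) : S_THN := by
  intro X _ n
  have := Fintype.ofFinite X
  obtain ⟨N, hN⟩ := XTHN.main hTP1 hTP2 hSUB hSHF X n Finset.univ n
  refine ⟨N, ?_⟩
  intro K c Λ w F T H hF hK hH hSH hd
  obtain ⟨T', H', h1, h2, h3, h4, h5, h6, h7⟩ := hN K c Λ w F T H hF hK hH hSH hd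
  exact ⟨T', H', fun x => h1 x (Finset.mem_univ x), h2, fun x hx => h3 x (Finset.mem_univ x) hx,
    fun x hx => h4 x (Finset.mem_univ x) hx, h5, fun x => h6 x (Finset.mem_univ x),
    fun x => h7 x (Finset.mem_univ x)⟩

end Pool.Agent.Work.MP_8dbde4_lc.FK
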