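import Pool.Agent.Work.MP_8dbde4_lc.FK.StmtsA

/-!
# Types of three words and existence of words
-/

set_option autoImplicit false
open Classical

namespace Pool.Agent.Work.MP_8dbde4_lc.FK

open Pool.Agent.Work.MP_8dbde4_lc.TS
open Pool.Agent.Work.MP_8dbde4_lc.Tree (Word Agr Cc)

namespace XTY3

variable {K : Type} {c : ℚ → K}

/-- injective triples with the same splits -/
theorem same3 {v w : Fin 3 → Word c} (hv : Function.Injective v) (hw : Function.Injective w)
    (h0 : Cc (v 0) (v 1) (v 2) ↔ Cc (w 0) (w 1) (w 2))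
    (h1 : Cc (v 1) (v 0) (v 2) ↔ Cc (w 1) (w 0) (w 2))
    (h2 : Cc (v 2) (v 0) (v 1) ↔ Cc (w 2) (w 0) (w 1)) : SameOn Set.univ v w := by
  have k0 : Cc (v 0) (v 2) (v 1) ↔ Cc (w 0) (w 2) (w 1) :=
    ⟨fun h => cc_symm (h0.1 (cc_symm h)), fun h => cc_symm (h0.2 (cc_symm h))⟩
  have k1 : Cc (v 1) (v 2) (v 0) ↔ Cc (w 1) (w 2) (w 0) :=
    ⟨fun h => cc_symm (h1.1 (cc_symm h)), fun h => cc_symm (h1.2 (cc_symm h))⟩
  have k2 : Cc (v 2) (v 1) (v 0) ↔ Cc (w 2) (w 1) (w 0) :=
    ⟨fun h => cc_symm (h2.1 (cc_symm h)), fun h => cc_symm (h2.2 (cc_symm h))⟩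
  refine ⟨fun x _ y _ => ?_, fun x _ y _ z _ => ?_⟩
  · rw [hv.eq_iff, hw.eq_iff]
  · by_cases hxy : x = y
    · subst hxy
      rw [cc_iff_ne, cc_iff_ne, hv.ne_iff, hw.ne_iff]
    · by_cases hzx : z = x
      · subst hzx
        exact iff_of_false cc_irrefl cc_irrefl
      · by_cases hzy : z = y
        · subst hzy
          exact iff_of_false cc_irrefl' cc_irrefl'
        · fin_cases x <;> fin_cases y <;> fin_cases z <;>
            first
            | exact h0
            | exact h1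
            | exact h2
            | exact k0
            | exact k1
            | exact k2
            | exact absurd rfl hxy
            | exact absurd rfl hzx
            | exact absurd rfl hzy

/-- change one letter -/
noncomputable def upd (w : Word c) (q : ℚ) (a : K) : Word c :=
  ⟨Function.update w.1 q a, ((Set.finite_singleton q).union w.2).subset fun q' hq' => by
    by_cases h : q' = q
    · exact Or.inl h
    · right
      have h1 : Function.update w.1 q a q' = w.1 q' := Function.update_of_ne h _ _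
      intro h2
      exact hq' (h1.trans h2)⟩

theorem upd_self (w : Word c) (q : ℚ) (a : K) : (upd w q a).1 q = a :=
  Function.update_self _ _ _

theorem upd_ne (w : Word c) {q q' : ℚ} (a : K) (h : q' ≠ q) : (upd w q a).1 q' = w.1 q' :=
  Function.update_of_ne h _ _

/-- the default word -/
def dw (c : ℚ → K) : Word c := ⟨c, by simp⟩

/-- a letter different from a given one -/
theorem letter (h : ∃ a b : K, a ≠ b) (e : K) : ∃ a : K, a ≠ e := by
  obtain ⟨a, b, hab⟩ := h
  by_cases h1 : a = e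
  · exact ⟨b, fun h2 => hab (h1.trans h2.symm)⟩
  · exact ⟨a, h1⟩

/-- the places where one of the words differs from the default word -/
theorem fin_places {X : Type} [Finite X] (v : X → Word c) :
    (⋃ x, {q | (v x).1 q ≠ c q}).Finite := Set.finite_iUnion fun x => (v x).2

theorem eq_c {X : Type} {v : X → Word c} {q : ℚ} (h : q ∉ ⋃ x, {q | (v x).1 q ≠ c q}) (x : X) :
    (v x).1 q = c q := by
  by_contra h1
  exact h (Set.mem_iUnion.2 ⟨x, h1⟩)

theorem star (a b d : K) (hab : a ≠ b) (had : a ≠ d) (hbd : b ≠ d) :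
    ∃ v : Fin 3 → Word c, Function.Injective v ∧ St (v 0) (v 1) (v 2) := by
  have hne : ∀ e f : K, e ≠ f → upd (dw c) 0 e ≠ upd (dw c) 0 f := by
    intro e f hef h
    apply hef
    rw [← upd_self (dw c) 0 e, h, upd_self]
  have hcc : ∀ e f g : K, f ≠ g →
      ¬ Cc (upd (dw c) 0 e) (upd (dw c) 0 f) (upd (dw c) 0 g) := by
    rintro e f g hfg ⟨q, _, _, h3, h4⟩
    by_cases hq : q = 0
    · subst hq
      rw [upd_self, upd_self] at h3
      exact hfg h3
    · rw [upd_ne _ _ hq, upd_ne _ _ hq] at h4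
      exact h4 rfl
  refine ⟨![upd (dw c) 0 a, upd (dw c) 0 b, upd (dw c) 0 d], ?_, ?_⟩
  · intro i j hij
    fin_cases i <;> fin_cases j <;>
      first
      | rfl
      | exact absurd hij (hne _ _ hab)
      | exact absurd hij (hne _ _ had)
      | exact absurd hij (hne _ _ hbd)
      | exact absurd hij (hne _ _ hab.symm)
      | exact absurd hij (hne _ _ had.symm)
      | exact absurd hij (hne _ _ hbd.symm)
  · exact ⟨hne _ _ hab, hne _ _ hbd, hne _ _ had, hcc _ _ _ hab, hcc _ _ _ had, hcc _ _ _ hbd⟩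

theorem split (a b : K) (hab : a ≠ b) :
    ∃ v : Fin 3 → Word c, Function.Injective v ∧ Cc (v 0) (v 1) (v 2) := by
  have h01 : (0 : ℚ) ≠ 1 := zero_ne_one
  have hcc : Cc (upd (dw c) 0 b) (upd (upd (dw c) 1 a) 0 a) (upd (upd (dw c) 1 b) 0 a) := by
    refine ⟨0, ?_, ?_, ?_, ?_⟩
    · intro q hq
      have hq1 : q < 1 := hq.trans one_pos
      rw [upd_ne _ _ hq.ne, upd_ne _ _ hq.ne, upd_ne _ _ hq1.ne]
    · intro q hq
      have hq1 : q < 1 := hq.trans one_pos
      rw [upd_ne _ _ hq.ne, upd_ne _ _ hq.ne, upd_ne _ _ hq1.ne]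
    · rw [upd_self, upd_self]
    · rw [upd_self, upd_self]
      exact hab.symm
  have h12 : upd (upd (dw c) 1 a) 0 a ≠ upd (upd (dw c) 1 b) 0 a := by
    intro h
    apply hab
    have h1 : (upd (upd (dw c) 1 a) 0 a).1 1 = (upd (upd (dw c) 1 b) 0 a).1 1 := by rw [h]
    rwa [upd_ne _ _ h01.symm, upd_ne _ _ h01.symm, upd_self, upd_self] at h1
  refine ⟨![upd (dw c) 0 b, upd (upd (dw c) 1 a) 0 a, upd (upd (dw c) 1 b) 0 a], ?_, hcc⟩
  intro i j hij
  fin_cases i <;> fin_cases j <;>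
    first
    | rfl
    | exact absurd hij (cc_ne hcc)
    | exact absurd hij (cc_ne' hcc)
    | exact absurd hij h12
    | exact absurd hij (cc_ne hcc).symm
    | exact absurd hij (cc_ne' hcc).symm
    | exact absurd hij h12.symm

theorem above (h : ∃ a b : K, a ≠ b) {X : Type} [Finite X] (v : X → Word c) :
    ∃ t : Word c, ∀ x y, Cc t (v x) (v y) := by
  obtain ⟨m, hm⟩ := (fin_places v).bddBelow
  have hlt : ∀ q < m, q ∉ ⋃ x, {q | (v x).1 q ≠ c q} := fun q hq hq' =>
    absurd (hm hq') (not_le.2 hq)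
  obtain ⟨e, he⟩ := letter h (c (m - 1))
  have hm1 : m - 1 < m := sub_one_lt m
  have hag : ∀ x, Agr (upd (dw c) (m - 1) e) (v x) (m - 1) := by
    intro x q hq
    rw [upd_ne _ _ hq.ne, eq_c (hlt q (hq.trans hm1)) x]
    rfl
  refine ⟨upd (dw c) (m - 1) e, fun x y => ⟨m - 1, hag x, hag y, ?_, ?_⟩⟩
  · rw [eq_c (hlt _ hm1) x, eq_c (hlt _ hm1) y]
  · rw [upd_self, eq_c (hlt _ hm1) x]
    exact he

theorem close (h : ∃ a b : K, a ≠ b) {X : Type} [Finite X] (v : X → Word c) (x : X) :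
    ∃ t : Word c, t ≠ v x ∧ ∀ y, v y ≠ v x → Cc (v y) t (v x) := by
  obtain ⟨m, hm⟩ := (fin_places v).bddAbove
  obtain ⟨e, he⟩ := letter h ((v x).1 (m + 1))
  refine ⟨upd (v x) (m + 1) e, ?_, ?_⟩
  · intro h1
    apply he
    rw [← upd_self (v x) (m + 1) e, h1]
  · intro y hy
    obtain ⟨q, h1, _, _, h4⟩ := cc_self hy
    have hq : q < m + 1 := by
      by_contra hc
      have hq' : q ∉ ⋃ x, {q | (v x).1 q ≠ c q} := fun h5 =>
        absurd (hm h5) (by linarith [not_lt.1 hc])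
      rw [eq_c hq' y, eq_c hq' x] at h4
      exact h4 rfl
    refine ⟨q, ?_, h1, ?_, ?_⟩
    · intro q' hq'
      rw [upd_ne _ _ (hq'.trans hq).ne]
      exact h1 q' hq'
    · rw [upd_ne _ _ hq.ne]
    · rw [upd_ne _ _ hq.ne]
      exact h4

end XTY3

open XTY3 in
theorem TY3_pf : S_TY3 := by
  intro K c
  refine ⟨?_, ?_, ?_, ?_, ?_, ?_⟩
  · intro v w hv hw h1 h2
    exact same3 hv hw (iff_of_false h1.2.2.2.2.2 h2.2.2.2.2.2)
      (iff_of_false h1.2.2.2.2.1 h2.2.2.2.2.1) (iff_of_false h1.2.2.2.1 h2.2.2.2.1)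
  · intro v w hv hw h1 h2
    exact same3 hv hw (iff_of_true h1 h2) (iff_of_false (cc_asymm h1) (cc_asymm h2))
      (iff_of_false (cc_asymm (cc_symm h1)) (cc_asymm (cc_symm h2)))
  · rintro ⟨a, b, d, h1, h2, h3⟩
    exact star a b d h1 h2 h3
  · rintro ⟨a, b, h1⟩
    exact split a b h1
  · intro h X _ v
    exact above h v
  · intro h X _ v x
    exact close h v x

end Pool.Agent.Work.MP_8dbde4_lc.FK
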