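import Pool.Agent.Work.MP_8dbde4_lc.FK.StmtsW

set_option autoImplicit false
open Classical

namespace Pool.Agent.Work.MP_8dbde4_lc.FK

open Pool.Agent.Work.MP_8dbde4_lc.TS
open Pool.Agent.Work.MP_8dbde4_lc.Tree (Word Agr Cc)
open Pool.Agent.Work.MP_8dbde4_lc.Phy (PP Hom)
open Pool.Agent.Work.MP_8dbde4_lc.Bra (Same InvU BinOn pull c₂)
open Pool.Agent.Work.MP_8dbde4_lc.Full (Arr NEq Cst0 BT Sub)

namespace XUFW

/-- The iterated ultrafilter of sequences of length `r`. -/
noncomputable def W : (r : ℕ) → Ultrafilter (Fin r → ℕ)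
  | 0 => pure (fun i => i.elim0)
  | r + 1 => (Filter.hyperfilter ℕ).bind (fun x => (W r).map (fun s => (Fin.cons x s : Fin (r + 1) → ℕ)))

theorem W_succ {r : ℕ} {P : (Fin (r + 1) → ℕ) → Prop} :
    (∀ᶠ g in (W (r + 1) : Filter (Fin (r + 1) → ℕ)), P g) ↔
      ∀ᶠ x in (Filter.hyperfilter ℕ : Filter ℕ), ∀ᶠ s in (W r : Filter (Fin r → ℕ)),
        P (Fin.cons x s) := Iff.rfl

theorem W_zero {P : (Fin 0 → ℕ) → Prop} (s : Fin 0 → ℕ) :
    (∀ᶠ g in (W 0 : Filter (Fin 0 → ℕ)), P g) ↔ P s := by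
  have h : s = (fun i => i.elim0) := funext fun i => i.elim0
  rw [h]
  exact Iff.rfl

theorem proj : ∀ (M r : ℕ) (ι : Fin r → Fin M) (P : (Fin r → ℕ) → Prop), StrictMono ι →
    ((∀ᶠ g in (W M : Filter (Fin M → ℕ)), P (fun i => g (ι i))) ↔
      ∀ᶠ s in (W r : Filter (Fin r → ℕ)), P s) := by
  intro M
  induction M with
  | zero =>
    intro r ι P hι
    cases r with
    | zero =>
      rw [W_zero (fun i => i.elim0), W_zero (fun i => i.elim0)]
      have h : (fun i => (fun i : Fin 0 => (i.elim0 : ℕ)) (ι i)) = (fun i : Fin 0 => (i.elim0 : ℕ)) :=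
        funext fun i => i.elim0
      rw [h]
    | succ r => exact (ι 0).elim0
  | succ M ih =>
    intro r ι P hι
    by_cases h0 : ∀ i, ι i ≠ 0
    · have hι' : StrictMono (fun i => (ι i).pred (h0 i)) := by
        intro i j hij
        exact Fin.pred_lt_pred_iff.2 (hι hij)
      rw [W_succ, ← ih r (fun i => (ι i).pred (h0 i)) P hι', ← Filter.eventually_const
        (f := (Filter.hyperfilter ℕ : Filter ℕ)) (p := ∀ᶠ g in (W M : Filter (Fin M → ℕ)),
          P (fun i => g ((ι i).pred (h0 i))))]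
      apply Filter.eventually_congr
      refine Filter.Eventually.of_forall fun x => ?_
      apply Filter.eventually_congr
      refine Filter.Eventually.of_forall fun s => ?_
      have h : (fun i => (Fin.cons x s : Fin (M + 1) → ℕ) (ι i)) =
          fun i => s ((ι i).pred (h0 i)) := by
        funext i
        conv_lhs => rw [← Fin.succ_pred (ι i) (h0 i)]
        rw [Fin.cons_succ]
      rw [h]
    · push Not at h0
      obtain ⟨i, hi⟩ := h0
      cases r with
      | zero => exact i.elim0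
      | succ r =>
        have h1 : ι 0 = 0 := by
          have h2 : ι 0 ≤ ι i := hι.monotone (Fin.zero_le i)
          rw [hi] at h2
          exact le_antisymm h2 (Fin.zero_le _)
        have h2 : ∀ i : Fin r, ι i.succ ≠ 0 := by
          intro i h3
          have h4 : ι 0 < ι i.succ := hι (Fin.succ_pos i)
          rw [h3] at h4
          exact absurd h4 (Fin.not_lt_zero _)
        have hι' : StrictMono (fun i : Fin r => (ι i.succ).pred (h2 i)) := by
          intro i j hij
          exact Fin.pred_lt_pred_iff.2 (hι (Fin.succ_lt_succ_iff.2 hij))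
        rw [W_succ, W_succ]
        apply Filter.eventually_congr
        refine Filter.Eventually.of_forall fun x => ?_
        rw [← ih r (fun i : Fin r => (ι i.succ).pred (h2 i)) (fun s => P (Fin.cons x s)) hι']
        apply Filter.eventually_congr
        refine Filter.Eventually.of_forall fun s => ?_
        have h : (fun i => (Fin.cons x s : Fin (M + 1) → ℕ) (ι i)) =
            (Fin.cons x (fun i : Fin r => s ((ι i.succ).pred (h2 i))) : Fin (r + 1) → ℕ) := by
          funext i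
          refine Fin.cases ?_ ?_ i
          · rw [h1, Fin.cons_zero, Fin.cons_zero]
          · intro i
            rw [Fin.cons_succ]
            conv_lhs => rw [← Fin.succ_pred (ι i.succ) (h2 i)]
            rw [Fin.cons_succ]
        rw [h]

/-- Generic sequences are injective. -/
theorem inj (M : ℕ) : ∀ᶠ g in (W M : Filter (Fin M → ℕ)), ∀ i j, i < j → g i ≠ g j := by
  rw [Filter.eventually_all]
  intro i
  rw [Filter.eventually_all]
  intro j
  by_cases hij : i < j
  · have hι : StrictMono (![i, j] : Fin 2 → Fin M) := by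
      intro a b hab
      fin_cases a <;> fin_cases b <;> simp_all
    have h := (proj M 2 ![i, j] (fun s => s 0 ≠ s 1) hι).2 (by
      rw [W_succ]
      refine Filter.Eventually.of_forall fun x => ?_
      rw [W_succ]
      have h1 : ∀ᶠ y in (Filter.hyperfilter ℕ : Filter ℕ), y ≠ x := by
        apply Filter.mem_hyperfilter_of_finite_compl
        have : {y | y ≠ x}ᶜ = {x} := by
          ext y
          simp
        rw [this]
        exact Set.finite_singleton x
      refine h1.mono fun y hy => ?_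
      rw [W_zero (fun i => i.elim0)]
      exact fun h => hy h.symm)
    refine h.mono fun g hg _ => ?_
    simpa using hg
  · exact Filter.Eventually.of_forall fun g h => absurd h hij

/-- The same order type. -/
def Ot {I : Type} {A : Type} [LT A] (x y : I → A) : Prop := ∀ i j, x i < x j ↔ y i < y j

theorem Ot.eq {I : Type} {A : Type} [LinearOrder A] {x y : I → A} (h : Ot x y) {i j : I}
    (hij : x i = x j) : y i = y j := by
  by_contra hc
  rcases lt_or_gt_of_ne hc with h1 | h1
  · exact absurd hij (ne_of_lt ((h i j).2 h1))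
  · exact absurd hij.symm (ne_of_lt ((h j i).2 h1))

/-- The colours of generic sequences depend only on the order type. -/
theorem can (M : ℕ) (I κ : Type) [Finite I] [Finite κ] (Θ : (I → ℕ) → κ) :
    ∀ᶠ g in (W M : Filter (Fin M → ℕ)), ∀ x y : I → Fin M, Ot x y →
      Θ (fun i => g (x i)) = Θ (fun i => g (y i)) := by
  rw [Filter.eventually_all]
  intro x
  rw [Filter.eventually_all]
  intro y
  by_cases hxy : Ot x y
  · obtain ⟨r, ι, p, hι, hp⟩ : ∃ (r : ℕ) (ι : Fin r → I) (p : I → Fin r),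
        StrictMono (fun t => x (ι t)) ∧ ∀ i, x (ι (p i)) = x i := by
      have := Fintype.ofFinite I
      let s : Finset (Fin M) := Finset.univ.image x
      have h1 : ∀ t : Fin s.card, ∃ i, x i = s.orderEmbOfFin rfl t := by
        intro t
        have h2 := Finset.orderEmbOfFin_mem s rfl t
        obtain ⟨i, _, hi⟩ := Finset.mem_image.1 h2
        exact ⟨i, hi⟩
      choose ι hι using h1
      have h2 : ∀ i, ∃ t : Fin s.card, s.orderEmbOfFin rfl t = x i := by
        intro i
        have h3 : x i ∈ Set.range (s.orderEmbOfFin rfl) := by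
          rw [Finset.range_orderEmbOfFin]
          exact Finset.mem_coe.2 (Finset.mem_image_of_mem x (Finset.mem_univ i))
        exact h3
      choose p hp using h2
      refine ⟨s.card, ι, p, ?_, ?_⟩
      · intro a b hab
        show x (ι a) < x (ι b)
        rw [hι, hι]
        exact (s.orderEmbOfFin rfl).strictMono hab
      · intro i
        rw [hι, hp]
    have hex : ∃ c : κ, ∀ᶠ s in (W r : Filter (Fin r → ℕ)), Θ (fun i => s (p i)) = c := by
      by_contra hc
      push Not at hc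
      have h1 : ∀ c : κ, ∀ᶠ s in (W r : Filter (Fin r → ℕ)), ¬ Θ (fun i => s (p i)) = c :=
        hc
      rw [← Filter.eventually_all] at h1
      obtain ⟨s, hs⟩ := h1.exists
      exact hs _ rfl
    obtain ⟨c, hc⟩ := hex
    have key : ∀ z : I → Fin M, Ot x z →
        ∀ᶠ g in (W M : Filter (Fin M → ℕ)), Θ (fun i => g (z i)) = c := by
      intro z hz
      have hm : StrictMono (fun t => z (ι t)) := by
        intro a b hab
        exact (hz _ _).1 (hι hab)
      have h1 := (proj M r (fun t => z (ι t)) (fun s => Θ (fun i => s (p i)) = c) hm).2 hc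
      refine h1.mono fun g hg => ?_
      rw [← hg]
      congr 1
      funext i
      show g (z i) = g (z (ι (p i)))
      rw [hz.eq (hp i)]
    have h1 := key x (fun i j => Iff.rfl)
    have h2 := key y hxy
    filter_upwards [h1, h2] with g h3 h4 _
    rw [h3, h4]
  · exact Filter.Eventually.of_forall fun g h => absurd h hxy

/-! ### The nodes -/

variable {N k : ℕ}

/-- The node of the leaf `a` at the level `l`, padded with `0`. -/
def nd (a : Fin N → Fin k) (l : Fin N) : Lex (Fin N → Fin (k + 1)) :=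
  toLex fun q => if q ≤ l then (a q).succ else 0

theorem nd_congr {a b : Fin N → Fin k} {l : Fin N} (h : ∀ q, q ≤ l → a q = b q) :
    nd a l = nd b l := by
  unfold nd
  congr 1
  funext q
  by_cases hq : q ≤ l
  · rw [if_pos hq, if_pos hq, h q hq]
  · rw [if_neg hq, if_neg hq]

theorem nd_lt_of {a b : Fin N → Fin k} {l l' : Fin N} (hl : l < l') (h : ∀ q, q ≤ l → a q = b q) :
    nd a l < nd b l' := by
  have hN : l.1 + 1 < N := lt_of_le_of_lt hl l'.2
  refine ⟨⟨l.1 + 1, hN⟩, ?_, ?_⟩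
  · intro q hq
    have h1 : q ≤ l := Nat.lt_succ_iff.1 hq
    show (if q ≤ l then (a q).succ else 0) = (if q ≤ l' then (b q).succ else 0)
    rw [if_pos h1, if_pos (h1.trans hl.le), h q h1]
  · show (if (⟨l.1 + 1, hN⟩ : Fin N) ≤ l then (a ⟨l.1 + 1, hN⟩).succ else 0) <
      (if (⟨l.1 + 1, hN⟩ : Fin N) ≤ l' then (b ⟨l.1 + 1, hN⟩).succ else 0)
    have h1 : ¬ (⟨l.1 + 1, hN⟩ : Fin N) ≤ l := by
      rw [Fin.le_def]
      simp
    have h2 : (⟨l.1 + 1, hN⟩ : Fin N) ≤ l' := hl
    rw [if_neg h1, if_pos h2]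
    exact Fin.succ_pos _

theorem nd_lt_of' {a b : Fin N → Fin k} {l l' m : Fin N} (h : Df a b m) (hm : a m < b m)
    (hl : m ≤ l) (hl' : m ≤ l') : nd a l < nd b l' := by
  refine ⟨m, ?_, ?_⟩
  · intro q hq
    show (if q ≤ l then (a q).succ else 0) = (if q ≤ l' then (b q).succ else 0)
    have h1 : q < m := hq
    rw [if_pos (h1.le.trans hl), if_pos (h1.le.trans hl'), h.1 q h1]
  · show (if m ≤ l then (a m).succ else 0) < (if m ≤ l' then (b m).succ else 0)
    rw [if_pos hl, if_pos hl']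
    exact Fin.succ_lt_succ_iff.2 hm

theorem nd_self {a : Fin N → Fin k} {l l' : Fin N} : nd a l < nd a l' ↔ l < l' := by
  constructor
  · intro h
    by_contra hc
    rcases lt_or_eq_of_le (not_lt.1 hc) with h1 | h1
    · exact absurd (h.trans (nd_lt_of h1 fun q _ => rfl)) (lt_irrefl _)
    · rw [h1] at h
      exact lt_irrefl _ h
  · exact fun h => nd_lt_of h fun q _ => rfl

theorem nd_lt {a b : Fin N → Fin k} {l l' m : Fin N} (h : Df a b m) (hm : a m < b m) :
    nd a l < nd b l' ↔ l < l' ∨ (m ≤ l ∧ m ≤ l') := by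
  by_cases h1 : m ≤ l ∧ m ≤ l'
  · exact ⟨fun _ => Or.inr h1, fun _ => nd_lt_of' h hm h1.1 h1.2⟩
  · by_cases h2 : m ≤ l
    · have h3 : l' < m := by
        by_contra hc
        exact h1 ⟨h2, not_lt.1 hc⟩
      rw [← nd_congr (a := a) (b := b) (l := l') fun q hq => h.1 q (lt_of_le_of_lt hq h3), nd_self]
      exact ⟨Or.inl, fun h4 => h4.resolve_right h1⟩
    · have h3 : l < m := not_le.1 h2
      rw [nd_congr (a := a) (b := b) (l := l) fun q hq => h.1 q (lt_of_le_of_lt hq h3), nd_self]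
      exact ⟨Or.inl, fun h4 => h4.resolve_right h1⟩

theorem nd_lt' {a b : Fin N → Fin k} {l l' m : Fin N} (h : Df a b m) (hm : a m < b m) :
    nd b l < nd a l' ↔ l < l' ∧ ¬ (m ≤ l ∧ m ≤ l') := by
  by_cases h1 : m ≤ l ∧ m ≤ l'
  · exact ⟨fun h2 => absurd (h2.trans (nd_lt_of' h hm h1.2 h1.1)) (lt_irrefl _),
      fun h2 => absurd h1 h2.2⟩
  · by_cases h2 : m ≤ l
    · have h3 : l' < m := by
        by_contra hc
        exact h1 ⟨h2, not_lt.1 hc⟩
      rw [nd_congr (a := a) (b := b) (l := l') fun q hq => h.1 q (lt_of_le_of_lt hq h3), nd_self]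
      exact ⟨fun h4 => ⟨h4, h1⟩, fun h4 => h4.1⟩
    · have h3 : l < m := not_le.1 h2
      rw [← nd_congr (a := a) (b := b) (l := l) fun q hq => h.1 q (lt_of_le_of_lt hq h3), nd_self]
      exact ⟨fun h4 => ⟨h4, h1⟩, fun h4 => h4.1⟩

/-- The levelled shape of an increasing triple. -/
def Shp (t : Fin 3 → Fin N → Fin k) (L : Fin 3 → Fin 3 → Fin N) : Prop :=
  ∀ u v, u < v → Df (t u) (t v) (L u v) ∧ t u (L u v) < t v (L u v)

theorem ot {t t' : Fin 3 → Fin N → Fin k} {L : Fin 3 → Fin 3 → Fin N} (h : Shp t L)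
    (h' : Shp t' L) : Ot (fun p : Fin 3 × Fin N => nd (t p.1) p.2)
      (fun p : Fin 3 × Fin N => nd (t' p.1) p.2) := by
  rintro ⟨u, l⟩ ⟨v, l'⟩
  show nd (t u) l < nd (t v) l' ↔ nd (t' u) l < nd (t' v) l'
  rcases lt_trichotomy u v with huv | huv | huv
  · rw [nd_lt (h u v huv).1 (h u v huv).2, nd_lt (h' u v huv).1 (h' u v huv).2]
  · rw [huv, nd_self, nd_self]
  · rw [nd_lt' (h v u huv).1 (h v u huv).2, nd_lt' (h' v u huv).1 (h' v u huv).2]

theorem shp_mk {a b d : Fin N → Fin k} {m₁ m₂ m₃ : Fin N} (h1 : Df a b m₁) (h1' : a m₁ < b m₁)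
    (h2 : Df b d m₂) (h2' : b m₂ < d m₂) (h3 : Df a d m₃) (h3' : a m₃ < d m₃) :
    Shp ![a, b, d] (fun u v => if u = 0 then (if v = 1 then m₁ else m₃) else m₂) := by
  intro u v huv
  fin_cases u <;> fin_cases v <;> first | exact absurd huv (by decide) | skip
  · exact ⟨h1, h1'⟩
  · exact ⟨h3, h3'⟩
  · exact ⟨h2, h2'⟩

theorem enum (N k : ℕ) : ∃ M : ℕ, Nonempty (Lex (Fin N → Fin (k + 1)) ≃o Fin M) :=
  ⟨_, ⟨(@Fintype.orderIsoFinOfCardEq (Lex (Fin N → Fin (k + 1))) _
    (Fintype.ofEquiv (Fin N → Fin (k + 1)) toLex) _ rfl).symm⟩⟩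

end XUFW

open XUFW in
theorem UFW_pf : S_UFW := by
  intro N k κ κ' _ _ χ θ
  obtain ⟨M, ⟨φ⟩⟩ := enum N k
  let Θ : (Fin 3 × Fin N → ℕ) → κ' := fun z =>
    θ (fun l => z (0, l)) (fun l => z (1, l)) (fun l => z (2, l))
  obtain ⟨g, hg1, hg2, hg3⟩ := ((inj M).and ((can M (Fin 3 × Fin N) κ' Θ).and
    (can M (Fin N) κ χ))).exists
  let e : (Fin N → Fin k) → (Fin N → ℕ) := fun a l => g (φ (nd a l))
  have hΘ : ∀ (t t' : Fin 3 → Fin N → Fin k) (L : Fin 3 → Fin 3 → Fin N), Shp t L → Shp t' L →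
      θ (e (t 0)) (e (t 1)) (e (t 2)) = θ (e (t' 0)) (e (t' 1)) (e (t' 2)) := by
    intro t t' L h h'
    have h1 : Ot (fun p : Fin 3 × Fin N => φ (nd (t p.1) p.2))
        (fun p : Fin 3 × Fin N => φ (nd (t' p.1) p.2)) := by
      intro p q
      rw [φ.lt_iff_lt, φ.lt_iff_lt]
      exact ot h h' p q
    exact hg2 _ _ h1
  -- the colour of a shape
  have hcol : ∀ L : Fin 3 → Fin 3 → Fin N, ∃ x : κ', ∀ t : Fin 3 → Fin N → Fin k, Shp t L →
      θ (e (t 0)) (e (t 1)) (e (t 2)) = x := by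
    intro L
    by_cases h : ∃ t, Shp (k := k) t L
    · obtain ⟨t, ht⟩ := h
      exact ⟨_, fun t' ht' => hΘ t' t L ht' ht⟩
    · exact ⟨θ (fun _ => 0) (fun _ => 0) (fun _ => 0), fun t ht => absurd ⟨t, ht⟩ h⟩
  choose col hcol using hcol
  have key : ∀ (a b d : Fin N → Fin k) (m₁ m₂ m₃ : Fin N), Df a b m₁ → a m₁ < b m₁ → Df b d m₂ →
      b m₂ < d m₂ → Df a d m₃ → a m₃ < d m₃ → θ (e a) (e b) (e d) =
        col (fun u v => if u = 0 then (if v = 1 then m₁ else m₃) else m₂) :=
    fun a b d m₁ m₂ m₃ h1 h1' h2 h2' h3 h3' => hcol _ ![a, b, d] (shp_mk h1 h1' h2 h2' h3 h3')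
  refine ⟨e, fun m m' => col (fun u v => if u = 0 then (if v = 1 then m' else m) else m),
    fun m m' => col (fun u v => if u = 0 then (if v = 1 then m else m) else m'),
    fun m => col (fun u v => if u = 0 then (if v = 1 then m else m) else m), ?_, ?_, ?_, ?_, ?_⟩
  · intro a b m h
    refine ⟨?_, ?_⟩
    · intro l hl
      show g (φ (nd a l)) = g (φ (nd b l))
      rw [nd_congr fun q hq => h.1 q (lt_of_le_of_lt hq hl)]
    · show g (φ (nd a m)) ≠ g (φ (nd b m))
      rcases lt_or_gt_of_ne h.2 with h1 | h1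
      · exact hg1 _ _ (φ.lt_iff_lt.2 (nd_lt_of' h h1 le_rfl le_rfl))
      · have h2 : Df b a m := ⟨fun l hl => (h.1 l hl).symm, fun h3 => h.2 h3.symm⟩
        exact (hg1 _ _ (φ.lt_iff_lt.2 (nd_lt_of' h2 h1 le_rfl le_rfl))).symm
  · intro a b
    have h1 : Ot (fun l : Fin N => φ (nd a l)) (fun l : Fin N => φ (nd b l)) := by
      intro l l'
      exact (φ.lt_iff_lt.trans nd_self).trans (φ.lt_iff_lt.trans nd_self).symm
    exact hg3 _ _ h1
  · intro a b d m m' hm h1 h2 h3 h4
    have h5 : b m = a m := (h2.1 m hm).symm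
    have h6 : Df b d m := by
      refine ⟨fun l hl => ?_, ?_⟩
      · rw [← h2.1 l (hl.trans hm)]
        exact h1.1 l hl
      · rw [h5]
        exact h1.2
    exact key a b d m' m m h2 h4 h6 (by rw [h5]; exact h3) h1 h3
  · intro a b d m m' hm h1 h2 h3 h4
    have h5 : d m = b m := (h2.1 m hm).symm
    have h6 : Df a d m := by
      refine ⟨fun l hl => ?_, ?_⟩
      · rw [← h2.1 l (hl.trans hm)]
        exact h1.1 l hl
      · rw [h5]
        exact h1.2
    exact key a b d m m' m h1 h3 h2 h4 h6 (by rw [h5]; exact h3)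
  · intro a b d m h1 h2 h3 h4
    have h6 : Df a d m := by
      refine ⟨fun l hl => (h1.1 l hl).trans (h2.1 l hl), ?_⟩
      exact ne_of_lt (h3.trans h4)
    exact key a b d m m m h1 h3 h2 h4 h6 (h3.trans h4)

end Pool.Agent.Work.MP_8dbde4_lc.FK
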