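import Pool.Agent.Work.MP_8dbde4_lc.FK.StmtsB

/-!
# Item [8dbde4 FK VD]: violations on three points
-/

set_option autoImplicit false
open Classical

namespace Pool.Agent.Work.MP_8dbde4_lc.FK

open Pool.Agent.Work.MP_8dbde4_lc.TS
open Pool.Agent.Work.MP_8dbde4_lc.Tree (Word Agr Cc)
open Pool.Agent.Work.MP_8dbde4_lc.Phy (PP Hom)
open Pool.Agent.Work.MP_8dbde4_lc.Bra (Same InvU BinOn pull c₂)
open Pool.Agent.Work.MP_8dbde4_lc.Full (Arr NEq Cst0 BT Sub)
open Pool.Agent.Work.MP_8dbde4_lc.Full.BT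

namespace XVD

variable {K : Type} {c : ℚ → K} {σ : Sig} {ω : Prop}

/-- a split of three points -/
lemma ex3 (hT : S_TY3) (c : ℚ → K) (hK : ∃ a b : K, a ≠ b) :
    ∃ v : Fin 3 → Word c, Function.Injective v ∧ Cc (v 2) (v 0) (v 1) := by
  obtain ⟨v, hv, h1⟩ := (hT K c).2.2.2.1 hK
  have hp : Function.Injective (![1, 2, 0] : Fin 3 → Fin 3) := by
    decide
  exact ⟨fun i => v ((![1, 2, 0] : Fin 3 → Fin 3) i), hv.comp hp, h1⟩

/-- a point close to `v k` -/
lemma close (hT : S_TY3) (hK : ∃ a b : K, a ≠ b) (v : Fin 3 → Word c)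
    (hv : Function.Injective v) (k : Fin 3) :
    ∃ v' : Option (Fin 3) → Word c, Function.Injective v' ∧
      (∀ i, v' (some i) = v i) ∧
      ∀ i, i ≠ k → Cc (v' (some i)) (v' none) (v' (some k)) := by
  obtain ⟨t, h1, h2⟩ := (hT K c).2.2.2.2.2 hK (Fin 3) v k
  have h3 : ∀ i, t ≠ v i := by
    intro i
    by_cases hi : i = k
    · rw [hi]
      exact h1
    · exact (cc_ne (h2 i fun h => hi (hv h))).symm
  refine ⟨fun o => o.elim t v, ?_, fun i => rfl, fun i hi => h2 i fun h => hi (hv h)⟩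
  intro y y' h
  rcases y with _ | i <;> rcases y' with _ | j
  · rfl
  · exact absurd h (h3 j)
  · exact absurd h.symm (h3 i)
  · exact congrArg some (hv h)

/-- the first violation -/
lemma step1 (hF : S_FAT) (hT : S_TY3) (hK : ∃ a b : K, a ≠ b) (𝔅 : Str σ (Word c))
    (hI : AllInv 𝔅) (hE : E3 𝔅) (hX : Ext ω 𝔅) :
    ∃ v w : Fin 3 → Word c, Function.Injective v ∧ Function.Injective w ∧
      Fat ω 𝔅 {1} v w ∧ Cc (v 2) (v 0) (v 1) ∧ ¬ Cc (w 2) (w 0) (w 1) := by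
  obtain ⟨v, hv, hvc⟩ := ex3 hT c hK
  obtain ⟨v', hv', hs, hcl⟩ := close hT hK v hv 1
  have hp : Function.Injective (![2, 0, 1] : Fin 3 → Fin 3) := by
    decide
  have hw : Function.Injective (fun i : Fin 3 => v ((![2, 0, 1] : Fin 3 → Fin 3) i)) :=
    hv.comp hp
  have hc1 : Cc (v' (some 2)) (v' (some 0)) (v' (some 1)) := by
    rw [hs, hs, hs]
    exact hvc
  have hfat : Fat ω 𝔅 ∅ v (fun i : Fin 3 => v ((![2, 0, 1] : Fin 3 → Fin 3) i)) :=
    (hF K c σ ω 𝔅 hI (Fin 3) Set.univ _ _ hv hw).2.1 (hE _ _ hv hw)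
  obtain ⟨w', hw', hww, hfat'⟩ := hX (Fin 3) ∅ _ _ hv hw hfat v' hv' hs
  have e0 : w' (some 0) = v 2 := hww 0
  have e1 : w' (some 1) = v 0 := hww 1
  have e2 : w' (some 2) = v 1 := hww 2
  have hcw : Cc (w' (some 0)) (w' (some 1)) (w' (some 2)) := by
    rw [e0, e1, e2]
    exact hvc
  by_cases hA : Cc (w' (some 2)) (w' (some 0)) (w' none)
  · have hi : Function.Injective (![some 1, none, some 2] : Fin 3 → Option (Fin 3)) := by
      decide
    have h6 := (hF K c σ ω 𝔅 hI (Option (Fin 3)) _ v' w' hv' hw').2.2.2.2.2.1 (Fin 3) _ hi hfat'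
    have h7 := (hF K c σ ω 𝔅 hI (Fin 3) _ _ _ (hv'.comp hi) (hw'.comp hi)).2.2.2.1 {1} (by
      rintro x rfl
      intro y hy
      exact absurd hy (by simp)) h6
    refine ⟨_, _, hv'.comp hi, hw'.comp hi, h7, ?_, ?_⟩
    · exact cc_symm (hcl 2 (by decide))
    · intro h8
      have h9 : Cc (w' (some 2)) (w' (some 1)) (w' none) := h8
      have h10 := cc_trans h9 (cc_symm hA)
      exact cc_asymm (cc_symm hcw) (cc_symm h10)
  · have hi : Function.Injective (![some 0, none, some 2] : Fin 3 → Option (Fin 3)) := by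
      decide
    have h6 := (hF K c σ ω 𝔅 hI (Option (Fin 3)) _ v' w' hv' hw').2.2.2.2.2.1 (Fin 3) _ hi hfat'
    have h7 := (hF K c σ ω 𝔅 hI (Fin 3) _ _ _ (hv'.comp hi) (hw'.comp hi)).2.2.2.1 {1} (by
      rintro x rfl
      intro y hy
      exact absurd hy (by simp)) h6
    refine ⟨_, _, hv'.comp hi, hw'.comp hi, h7, ?_, hA⟩
    exact cc_trans hc1 (cc_symm (hcl 2 (by decide)))

/-- the second violation -/
lemma step2 (hF : S_FAT) (hT : S_TY3) (hK : ∃ a b : K, a ≠ b) (𝔅 : Str σ (Word c))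
    (hI : AllInv 𝔅) (hX : Ext ω 𝔅) (v w : Fin 3 → Word c) (hv : Function.Injective v)
    (hw : Function.Injective w) (hfat : Fat ω 𝔅 {1} v w) (hvc : Cc (v 2) (v 0) (v 1))
    (hwc : ¬ Cc (w 2) (w 0) (w 1)) :
    ∃ v w : Fin 3 → Word c, Function.Injective v ∧ Function.Injective w ∧
      Fat ω 𝔅 {1, 2} v w ∧ Cc (v 2) (v 0) (v 1) ∧ ¬ Cc (w 2) (w 0) (w 1) := by
  obtain ⟨v', hv', hs, hcl⟩ := close hT hK v hv 2
  have hc1 : Cc (v' (some 2)) (v' (some 0)) (v' (some 1)) := by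
    rw [hs, hs, hs]
    exact hvc
  obtain ⟨w', hw', hww, hfat'⟩ := hX (Fin 3) {1} _ _ hv hw hfat v' hv' hs
  have hwc' : ¬ Cc (w' (some 2)) (w' (some 0)) (w' (some 1)) := by
    rw [hww 0, hww 1, hww 2]
    exact hwc
  by_cases hA : Cc (w' none) (w' (some 0)) (w' (some 1))
  · have hi : Function.Injective (![some 2, none, some 1] : Fin 3 → Option (Fin 3)) := by
      decide
    have h6 := (hF K c σ ω 𝔅 hI (Option (Fin 3)) _ v' w' hv' hw').2.2.2.2.2.1 (Fin 3) _ hi hfat'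
    have h7 := (hF K c σ ω 𝔅 hI (Fin 3) _ _ _ (hv'.comp hi) (hw'.comp hi)).2.2.2.1 {1, 2} (by
      rintro x (rfl | rfl)
      · intro y hy
        exact absurd hy (by simp)
      · intro y hy
        exact (Option.some.inj hy).symm) h6
    refine ⟨_, _, hv'.comp hi, hw'.comp hi, h7, ?_, ?_⟩
    · exact cc_symm (hcl 1 (by decide))
    · intro h8
      have h9 : Cc (w' (some 1)) (w' (some 2)) (w' none) := h8
      rcases cc_or (cc_symm hA) (w' (some 2)) with h10 | h10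
      · exact cc_asymm h10 (cc_symm h9)
      · exact hwc' (cc_symm h10)
  · have hi : Function.Injective (![some 0, some 1, none] : Fin 3 → Option (Fin 3)) := by
      decide
    have h6 := (hF K c σ ω 𝔅 hI (Option (Fin 3)) _ v' w' hv' hw').2.2.2.2.2.1 (Fin 3) _ hi hfat'
    have h7 := (hF K c σ ω 𝔅 hI (Fin 3) _ _ _ (hv'.comp hi) (hw'.comp hi)).2.2.2.1 {1, 2} (by
      rintro x (rfl | rfl)
      · intro y hy
        exact (Option.some.inj hy).symm
      · intro y hy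
        exact absurd hy (by simp)) h6
    refine ⟨_, _, hv'.comp hi, hw'.comp hi, h7, ?_, hA⟩
    show Cc (v' none) (v' (some 0)) (v' (some 1))
    rcases cc_or hc1 (v' none) with h10 | h10
    · exact absurd (cc_symm (hcl 0 (by decide))) (cc_asymm h10)
    · exact h10

end XVD

theorem VD_pf (h1 : S_FAT) (h2 : S_TY3) : S_VD := by
  intro K c σ ω 𝔅 hK hI hE hX
  obtain ⟨v, w, hv, hw, hf, h3, h4⟩ := XVD.step1 h1 h2 hK 𝔅 hI hE hX
  exact XVD.step2 h1 h2 hK 𝔅 hI hX v w hv hw hf h3 h4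

end Pool.Agent.Work.MP_8dbde4_lc.FK
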