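import Pool.Agent.Work.MP_8dbde4_lc.FK.StmtsB

/-!
Block FK of MP_8dbde4_lc, item XAL: fat arrows between the types of four points.
-/

set_option autoImplicit false
open Classical

namespace Pool.Agent.Work.MP_8dbde4_lc.FK

open Pool.Agent.Work.MP_8dbde4_lc.TS
open Pool.Agent.Work.MP_8dbde4_lc.Tree (Word Agr Cc)
open Pool.Agent.Work.MP_8dbde4_lc.Phy (PP Hom)
open Pool.Agent.Work.MP_8dbde4_lc.Bra (Same InvU BinOn pull c₂)
open Pool.Agent.Work.MP_8dbde4_lc.Full (Arr NEq Cst0 BT Sub)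
open Pool.Agent.Work.MP_8dbde4_lc.Full.BT

namespace XXAL

variable {K : Type} {c : ℚ → K} {σ : Sig} {ω : Prop} {𝔅 : Str σ (Word c)}

/-- The types of four points: a star (`none`), or `i` above a star of the three others. -/
def TT (I : Option (Fin 4)) (v : Fin 4 → Word c) : Prop :=
  ∀ x y z, Cc (v z) (v x) (v y) ↔ (x = y ∧ z ≠ x) ∨ (some z = I ∧ some x ≠ I ∧ some y ≠ I)

theorem TT.same {I : Option (Fin 4)} {v w : Fin 4 → Word c} (hv : Function.Injective v)
    (hw : Function.Injective w) (h : TT I v) (h' : TT I w) : SameOn Set.univ v w :=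
  ⟨fun x _ y _ => by rw [hv.eq_iff, hw.eq_iff], fun x _ y _ z _ => (h x y z).trans (h' x y z).symm⟩

theorem TT.no {I : Option (Fin 4)} {v : Fin 4 → Word c} (h : TT I v) (x y z t : Fin 4) :
    ¬ Qr (v x) (v y) (v z) (v t) := by
  rintro ⟨hxy, hzt, h1 | h1⟩
  · rcases (h x y z).1 h1.1 with h2 | h2
    · exact hxy (by rw [h2.1])
    rcases (h x y t).1 h1.2 with h3 | h3
    · exact hxy (by rw [h3.1])
    exact hzt (by rw [Option.some.inj (h2.1.trans h3.1.symm)])
  · rcases (h z t x).1 h1.1 with h2 | h2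
    · exact hzt (by rw [h2.1])
    rcases (h z t y).1 h1.2 with h3 | h3
    · exact hzt (by rw [h3.1])
    exact hxy (by rw [Option.some.inj (h2.1.trans h3.1.symm)])

theorem TT.xr {I : Option (Fin 4)} {v : Fin 4 → Word c} (hv : Function.Injective v)
    (h : TT I v) : Xr (v 0) (v 1) (v 2) (v 3) :=
  ⟨hv.ne (by decide), hv.ne (by decide), hv.ne (by decide), hv.ne (by decide),
    hv.ne (by decide), hv.ne (by decide), h.no _ _ _ _, h.no _ _ _ _, h.no _ _ _ _⟩

theorem TT.perm {I : Option (Fin 4)} {v : Fin 4 → Word c} (h : TT I v)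
    (τ : Fin 4 → Fin 4) (hτ : Function.Injective τ) (hI : ∀ x, some (τ x) = I ↔ some x = I) :
    TT I (fun x => v (τ x)) := by
  intro x y z
  have h1 := h (τ x) (τ y) (τ z)
  rw [hI, ne_eq, ne_eq, ne_eq, hI, hI, hτ.eq_iff, hτ.eq_iff] at h1
  exact h1

/-- Symmetries of quartets. -/
structure Sy (c : ℚ → K) : Prop where
  a : ∀ x y z t : Word c, Qr x y z t → Qr y x z t
  b : ∀ x y z t : Word c, Qr x y z t → Qr z t x y
  ne : ∀ x y z t : Word c, Qr x y z t → x ≠ y ∧ x ≠ z ∧ x ≠ t ∧ y ≠ z ∧ y ≠ t ∧ z ≠ t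

theorem sy (h3 : S_QFA) (c : ℚ → K) : Sy c :=
  ⟨fun x y z t => ((h3 K c).1 x y z t).1, fun x y z t => ((h3 K c).1 x y z t).2.1,
    fun x y z t => ((h3 K c).1 x y z t).2.2⟩

theorem Sy.d (s : Sy c) (x y z t : Word c) (h : Qr x y z t) : Qr x y t z :=
  s.b _ _ _ _ (s.a _ _ _ _ (s.b _ _ _ _ h))

/-- Four points in different directions: no quartets. -/
theorem xr_no (s : Sy c) {v : Fin 4 → Word c} (hx : Xr (v 0) (v 1) (v 2) (v 3))
    (x y z t : Fin 4) : ¬ Qr (v x) (v y) (v z) (v t) := by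
  obtain ⟨_, _, _, _, _, _, q1, q2, q3⟩ := hx
  have h0 : ∀ y z t : Fin 4, ¬ Qr (v 0) (v y) (v z) (v t) := by
    intro y z t h
    obtain ⟨n1, n2, n3, n4, n5, n6⟩ := s.ne _ _ _ _ h
    have e : ∀ y z t : Fin 4, y ≠ 0 → z ≠ 0 → t ≠ 0 → y ≠ z → y ≠ t → z ≠ t →
        (y = 1 ∧ z = 2 ∧ t = 3) ∨ (y = 1 ∧ z = 3 ∧ t = 2) ∨ (y = 2 ∧ z = 1 ∧ t = 3) ∨
        (y = 2 ∧ z = 3 ∧ t = 1) ∨ (y = 3 ∧ z = 1 ∧ t = 2) ∨ (y = 3 ∧ z = 2 ∧ t = 1) := by
      intro y z t
      fin_cases y <;> fin_cases z <;> fin_cases t <;> simp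
    rcases e y z t (fun h => n1 (by rw [h])) (fun h => n2 (by rw [h])) (fun h => n3 (by rw [h]))
      (fun h => n4 (by rw [h])) (fun h => n5 (by rw [h])) (fun h => n6 (by rw [h])) with
      ⟨rfl, rfl, rfl⟩ | ⟨rfl, rfl, rfl⟩ | ⟨rfl, rfl, rfl⟩ | ⟨rfl, rfl, rfl⟩ | ⟨rfl, rfl, rfl⟩ |
      ⟨rfl, rfl, rfl⟩
    · exact q1 h
    · exact q1 (s.d _ _ _ _ h)
    · exact q2 h
    · exact q2 (s.d _ _ _ _ h)
    · exact q3 h
    · exact q3 (s.d _ _ _ _ h)
  intro h
  obtain ⟨n1, n2, n3, n4, n5, n6⟩ := s.ne _ _ _ _ h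
  have e : ∀ x y z t : Fin 4, x ≠ y → x ≠ z → x ≠ t → y ≠ z → y ≠ t → z ≠ t →
      x = 0 ∨ y = 0 ∨ z = 0 ∨ t = 0 := by
    intro x y z t
    have := x.2
    have := y.2
    have := z.2
    have := t.2
    simp only [ne_eq, Fin.ext_iff]
    omega
  rcases e x y z t (fun h => n1 (by rw [h])) (fun h => n2 (by rw [h])) (fun h => n3 (by rw [h]))
    (fun h => n4 (by rw [h])) (fun h => n5 (by rw [h])) (fun h => n6 (by rw [h])) with
    rfl | rfl | rfl | rfl
  · exact h0 _ _ _ h
  · exact h0 _ _ _ (s.a _ _ _ _ h)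
  · exact h0 _ _ _ (s.b _ _ _ _ h)
  · exact h0 _ _ _ (s.a _ _ _ _ (s.b _ _ _ _ h))

/-- Four points in different directions have one of the five types. -/
theorem cl (s : Sy c) {v : Fin 4 → Word c} (hv : Function.Injective v)
    (hx : Xr (v 0) (v 1) (v 2) (v 3)) : ∃ I, TT I v := by
  have no := xr_no s hx
  by_cases h : ∃ i j k : Fin 4, j ≠ k ∧ Cc (v i) (v j) (v k)
  · obtain ⟨i, j, k, hjk, hc⟩ := h
    have hij : i ≠ j := fun h => cc_ne hc (by rw [h])
    have hik : i ≠ k := fun h => cc_ne' hc (by rw [h])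
    have h1 : ∀ x, x ≠ i → Cc (v i) (v j) (v x) := by
      intro x hxi
      rcases cc_or hc (v x) with h2 | h2
      · exact h2
      · exact absurd ⟨hv.ne hjk, hv.ne hxi.symm, Or.inl ⟨hc, h2⟩⟩ (no j k i x)
    have h2 : ∀ x y, x ≠ i → y ≠ i → Cc (v i) (v x) (v y) := fun x y hx hy =>
      cc_trans (cc_symm (h1 x hx)) (h1 y hy)
    refine ⟨some i, fun x y z => ⟨fun h => ?_, ?_⟩⟩
    · by_cases hxy : x = y
      · subst hxy
        exact Or.inl ⟨rfl, fun h' => cc_ne h (by rw [h'])⟩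
      · right
        have hzx : z ≠ x := fun h' => cc_ne h (by rw [h'])
        have hzy : z ≠ y := fun h' => cc_ne' h (by rw [h'])
        by_cases hzi : z = i
        · subst hzi
          exact ⟨rfl, fun h' => hzx (Option.some.inj h').symm,
            fun h' => hzy (Option.some.inj h').symm⟩
        · exfalso
          by_cases hxi : x = i
          · subst hxi
            exact cc_asymm (h2 z y hzi (Ne.symm hxy)) h
          · by_cases hyi : y = i
            · subst hyi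
              exact cc_asymm (h2 z x hzi hxy) (cc_symm h)
            · exact no x y z i ⟨hv.ne hxy, hv.ne hzi, Or.inl ⟨h, h2 x y hxi hyi⟩⟩
    · rintro (h | h)
      · rw [h.1]
        exact cc_self (hv.ne (h.1 ▸ h.2))
      · have hz : z = i := Option.some.inj h.1
        subst hz
        exact h2 x y (fun h' => h.2.1 (by rw [h'])) (fun h' => h.2.2 (by rw [h']))
  · refine ⟨none, fun x y z => ⟨fun h' => ?_, ?_⟩⟩
    · left
      by_cases hxy : x = y
      · exact ⟨hxy, fun h2 => cc_ne h' (by rw [h2])⟩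
      · exact absurd ⟨z, x, y, hxy, h'⟩ h
    · rintro (h' | h')
      · rw [h'.1]
        exact cc_self (hv.ne (h'.1 ▸ h'.2))
      · exact absurd h'.1 (Option.some_ne_none z)

/-- `p` is the partner of `i` in the quartet `w`. -/
def PQ (w : Fin 4 → Word c) (i p : Fin 4) : Prop :=
  ∀ a b, a ≠ b → a ≠ i → a ≠ p → b ≠ i → b ≠ p → Qr (w i) (w p) (w a) (w b)

theorem pq_of (s : Sy c) {w : Fin 4 → Word c} {x y z t : Fin 4}
    (h : Qr (w x) (w y) (w z) (w t)) : PQ w x y := by
  obtain ⟨n1, n2, n3, n4, n5, n6⟩ := s.ne _ _ _ _ h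
  have e : ∀ x y z t a b : Fin 4, x ≠ y → x ≠ z → x ≠ t → y ≠ z → y ≠ t → z ≠ t →
      a ≠ b → a ≠ x → a ≠ y → b ≠ x → b ≠ y → (a = z ∧ b = t) ∨ (a = t ∧ b = z) := by
    intro x y z t a b
    have := x.2
    have := y.2
    have := z.2
    have := t.2
    have := a.2
    have := b.2
    simp only [ne_eq, Fin.ext_iff]
    omega
  intro a b hab hax hay hbx hby
  rcases e x y z t a b (fun h => n1 (by rw [h])) (fun h => n2 (by rw [h])) (fun h => n3 (by rw [h]))
    (fun h => n4 (by rw [h])) (fun h => n5 (by rw [h])) (fun h => n6 (by rw [h])) hab hax hay hbx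
    hby with ⟨rfl, rfl⟩ | ⟨rfl, rfl⟩
  · exact h
  · exact s.d _ _ _ _ h

/-- In a quartet every point has a partner. -/
theorem pq_ex (s : Sy c) {w : Fin 4 → Word c} (hw : Function.Injective w)
    (hx : ¬ Xr (w 0) (w 1) (w 2) (w 3)) (i : Fin 4) : ∃ p, p ≠ i ∧ PQ w i p := by
  have h : ∃ x y z t : Fin 4, (i = x ∨ i = y ∨ i = z ∨ i = t) ∧ Qr (w x) (w y) (w z) (w t) := by
    by_contra hc
    push Not at hc
    have e1 : ∀ i : Fin 4, i = 0 ∨ i = 1 ∨ i = 2 ∨ i = 3 := by decide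
    have e2 : ∀ i : Fin 4, i = 0 ∨ i = 2 ∨ i = 1 ∨ i = 3 := by decide
    have e3 : ∀ i : Fin 4, i = 0 ∨ i = 3 ∨ i = 1 ∨ i = 2 := by decide
    exact hx ⟨hw.ne (by decide), hw.ne (by decide), hw.ne (by decide), hw.ne (by decide),
      hw.ne (by decide), hw.ne (by decide), hc 0 1 2 3 (e1 i), hc 0 2 1 3 (e2 i),
      hc 0 3 1 2 (e3 i)⟩
  obtain ⟨x, y, z, t, hi, hq⟩ := h
  obtain ⟨n1, n2, n3, n4, n5, n6⟩ := s.ne _ _ _ _ hq
  rcases hi with rfl | rfl | rfl | rfl
  · exact ⟨y, fun h => n1 (by rw [h]), pq_of s hq⟩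
  · exact ⟨x, fun h => n1 (by rw [h]), pq_of s (s.a _ _ _ _ hq)⟩
  · exact ⟨t, fun h => n6 (by rw [h]), pq_of s (s.b _ _ _ _ hq)⟩
  · exact ⟨z, fun h => n6 (by rw [h]), pq_of s (s.a _ _ _ _ (s.b _ _ _ _ hq))⟩

theorem inj3 {X : Type} {i j k : X} (h1 : i ≠ j) (h2 : i ≠ k) (h3 : j ≠ k) :
    Function.Injective ![i, j, k] := by
  intro a b hab
  fin_cases a <;> fin_cases b <;> simp_all [eq_comm]

theorem inj4 {X : Type} {i j k l : X} (h1 : i ≠ j) (h2 : i ≠ k) (h3 : i ≠ l) (h4 : j ≠ k)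
    (h5 : j ≠ l) (h6 : k ≠ l) : Function.Injective ![i, j, k, l] := by
  intro a b hab
  fin_cases a <;> fin_cases b <;> simp_all [eq_comm]

/-! ### Fat arrows -/

theorem comp (h1 : S_FAT) (hI : AllInv 𝔅) {X : Type} [Finite X] {v u w : X → Word c}
    (hv : Function.Injective v) (hu : Function.Injective u) (hw : Function.Injective w)
    (h : Fat ω 𝔅 Set.univ v u) (h' : Fat ω 𝔅 Set.univ u w) : Fat ω 𝔅 Set.univ v w :=
  (h1 K c σ ω 𝔅 hI X Set.univ v w hv hw).2.2.1 u hu h h'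

theorem sm (h1 : S_FAT) (hI : AllInv 𝔅) {X : Type} [Finite X] {v w v₁ w₁ : X → Word c}
    (hv : Function.Injective v) (hw : Function.Injective w) (hs : SameOn Set.univ v v₁)
    (hs' : SameOn Set.univ w w₁) (h : Fat ω 𝔅 Set.univ v w) : Fat ω 𝔅 Set.univ v₁ w₁ :=
  (h1 K c σ ω 𝔅 hI X Set.univ v w hv hw).2.2.2.2.1 v₁ w₁ hs hs' h

theorem rs (h1 : S_FAT) (hI : AllInv 𝔅) {X X₀ : Type} [Finite X] {v w : X → Word c}
    (hv : Function.Injective v) (hw : Function.Injective w) {i : X₀ → X}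
    (hi : Function.Injective i) (h : Fat ω 𝔅 Set.univ v w) :
    Fat ω 𝔅 Set.univ (fun x => v (i x)) (fun x => w (i x)) := by
  have h2 := (h1 K c σ ω 𝔅 hI X Set.univ v w hv hw).2.2.2.2.2.1 X₀ i hi h
  have h3 : {x | i x ∈ (Set.univ : Set X)} = Set.univ := by
    ext x
    simp
  rwa [h3] at h2

/-- Change three coordinates arbitrarily. -/
theorem ex3 (h2 : S_EXM) (hI : AllInv 𝔅) (hE : Ext ω 𝔅) (hF : F3 ω 𝔅) {X' : Type} [Finite X']
    {v : X' → Word c} (hv : Function.Injective v) {e : Fin 3 → X'} (he : Function.Injective e)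
    {w₀ : Fin 3 → Word c} (hw₀ : Function.Injective w₀) : ∃ w' : X' → Word c,
      Function.Injective w' ∧ (∀ x, w' (e x) = w₀ x) ∧ Fat ω 𝔅 Set.univ v w' := by
  obtain ⟨w', hw', hww, hf⟩ := h2 K c σ ω 𝔅 hI hE (Fin 3) X' e Set.univ v w₀ he hv hw₀
    (hF _ _ (hv.comp he) hw₀)
  refine ⟨w', hw', hww, ?_⟩
  have h3 : {x' : X' | ∀ x, e x = x' → x ∈ (Set.univ : Set (Fin 3))} = Set.univ := by
    ext x
    simp
  rwa [h3] at hf

/-- From every tuple to the type where `i` is above a star of the others, or to a quartet. -/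
theorem rA (h2 : S_EXM) (h5 : S_TY3) (s : Sy c) (hK : ∃ a b : K, a ≠ b) (hI : AllInv 𝔅)
    (hE : Ext ω 𝔅) (hF : F3 ω 𝔅) {v : Fin 4 → Word c} (hv : Function.Injective v) (i : Fin 4) :
    ∃ w : Fin 4 → Word c, Function.Injective w ∧ Fat ω 𝔅 Set.univ v w ∧
      (TT (some i) w ∨ ¬ Xr (w 0) (w 1) (w 2) (w 3)) := by
  obtain ⟨j, k, hij, hik, hjk⟩ : ∃ j k : Fin 4, i ≠ j ∧ i ≠ k ∧ j ≠ k := by
    fin_cases i
    · exact ⟨1, 2, by simp, by simp, by simp⟩
    · exact ⟨0, 2, by simp, by simp, by simp⟩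
    · exact ⟨0, 1, by simp, by simp, by simp⟩
    · exact ⟨0, 1, by simp, by simp, by simp⟩
  obtain ⟨w₀, hw₀, hc⟩ := (h5 K c).2.2.2.1 hK
  obtain ⟨w, hw, he, hf⟩ := ex3 h2 hI hE hF hv (inj3 hij hik hjk) hw₀
  refine ⟨w, hw, hf, ?_⟩
  by_cases hx : Xr (w 0) (w 1) (w 2) (w 3)
  · left
    obtain ⟨I, hT⟩ := cl s hw hx
    have e0 : w i = w₀ 0 := he 0
    have e1 : w j = w₀ 1 := he 1
    have e2 : w k = w₀ 2 := he 2
    rw [← e0, ← e1, ← e2] at hc
    rcases (hT j k i).1 hc with h3 | h3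
    · exact absurd h3.1 hjk
    · rw [h3.1]
      exact hT
  · exact Or.inr hx

/-- The word `t` is above the star `b`. -/
theorem tt_cons {t : Word c} {b : Fin 4 → Word c} (hb : TT none b) (_hi : Function.Injective b)
    (ht : ∀ x y, Cc t (b x) (b y)) {g : Fin 3 → Fin 4} (hg : Function.Injective g)
    {u : Option (Fin 4) → Word c} (u0 : u none = t) (u1 : ∀ x, u (some x) = b x) :
    TT (some 0) (fun x => u ((Fin.cons none (fun y => some (g y)) : Fin 4 → Option (Fin 4)) x)) := by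
  intro x y z
  refine Fin.cases ?_ (fun z => ?_) z
  · refine Fin.cases ?_ (fun x => ?_) x
    · simp only [Fin.cons_zero, u0]
      constructor
      · exact fun h => absurd h cc_irrefl
      · rintro (h | h)
        · exact absurd rfl h.2
        · exact absurd rfl h.2.1
    · refine Fin.cases ?_ (fun y => ?_) y
      · simp only [Fin.cons_zero, Fin.cons_succ, u0]
        constructor
        · exact fun h => absurd h cc_irrefl'
        · rintro (h | h)
          · exact absurd h.1 (Fin.succ_ne_zero x)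
          · exact absurd rfl h.2.2
      · simp only [Fin.cons_zero, Fin.cons_succ, u0, u1]
        constructor
        · exact fun _ => Or.inr ⟨trivial, fun h => Fin.succ_ne_zero x (Option.some.inj h),
            fun h => Fin.succ_ne_zero y (Option.some.inj h)⟩
        · exact fun _ => ht _ _
  · refine Fin.cases ?_ (fun x => ?_) x
    · refine Fin.cases ?_ (fun y => ?_) y
      · simp only [Fin.cons_zero, Fin.cons_succ, u0, u1]
        constructor
        · exact fun _ => Or.inl ⟨trivial, Fin.succ_ne_zero z⟩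
        · exact fun _ => cc_self (cc_ne (ht (g z) (g z))).symm
      · simp only [Fin.cons_zero, Fin.cons_succ, u0, u1]
        constructor
        · exact fun h => absurd h (cc_asymm (ht _ _))
        · rintro (h | h)
          · exact absurd h.1.symm (Fin.succ_ne_zero y)
          · exact absurd rfl h.2.1
    · refine Fin.cases ?_ (fun y => ?_) y
      · simp only [Fin.cons_zero, Fin.cons_succ, u0, u1]
        constructor
        · exact fun h => absurd (cc_symm h) (cc_asymm (ht _ _))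
        · rintro (h | h)
          · exact absurd h.1 (Fin.succ_ne_zero x)
          · exact absurd rfl h.2.2
      · simp only [Fin.cons_succ, u1]
        rw [hb (g x) (g y) (g z)]
        constructor
        · rintro (h | h)
          · exact Or.inl ⟨by rw [hg h.1], fun h' => h.2 (by rw [Fin.succ_injective _ h'])⟩
          · exact absurd h.1 (Option.some_ne_none _)
        · rintro (h | h)
          · exact Or.inl ⟨by rw [Fin.succ_injective _ h.1], fun h' => h.2 (by rw [hg h'])⟩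
          · exact absurd (Option.some.inj h.1) (Fin.succ_ne_zero z)

/-- If no fat arrow leads from the types with a top point to quartets then one leads to a star. -/
theorem rC (h1 : S_FAT) (h2 : S_EXM) (h5 : S_TY3) (s : Sy c) (hK : ∃ a b : K, a ≠ b)
    (hI : AllInv 𝔅) (hE : Ext ω 𝔅) (hF : F3 ω 𝔅) {b : Fin 4 → Word c}
    (hb : Function.Injective b) (hT : TT none b)
    (HU : ∀ a w : Fin 4 → Word c, Function.Injective a → Function.Injective w →
      TT (some 0) a → Fat ω 𝔅 Set.univ a w → Xr (w 0) (w 1) (w 2) (w 3)) :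
    ∃ a w : Fin 4 → Word c, Function.Injective a ∧ Function.Injective w ∧ TT (some 0) a ∧
      TT none w ∧ Fat ω 𝔅 Set.univ a w := by
  obtain ⟨t, ht⟩ := (h5 K c).2.2.2.2.1 hK (Fin 4) b
  let u : Option (Fin 4) → Word c := fun o => o.elim t b
  have hu : Function.Injective u := by
    intro x y hxy
    cases x with
    | none =>
      cases y with
      | none => rfl
      | some y => exact absurd hxy (cc_ne (ht y y))
    | some x =>
      cases y with
      | none => exact absurd hxy.symm (cc_ne (ht x x))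
      | some y => exact congrArg some (hb hxy)
  have n01 : (0 : Fin 4) ≠ 1 := by simp
  have n02 : (0 : Fin 4) ≠ 2 := by simp
  have n12 : (1 : Fin 4) ≠ 2 := by simp
  have n03 : (0 : Fin 4) ≠ 3 := by simp
  have n13 : (1 : Fin 4) ≠ 3 := by simp
  have n23 : (2 : Fin 4) ≠ 3 := by simp
  have hw₀ : Function.Injective (fun x : Fin 3 => b (![0, 1, 2] x)) :=
    hb.comp (inj3 n01 n02 n12)
  have he : Function.Injective ![(none : Option (Fin 4)), some 0, some 1] :=
    inj3 (Option.some_ne_none 0).symm (Option.some_ne_none 1).symm (by simp)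
  obtain ⟨w', hw', hww, hf⟩ := ex3 h2 hI hE hF hu he hw₀
  have e0 : w' none = b 0 := hww 0
  have e1 : w' (some 0) = b 1 := hww 1
  have e2 : w' (some 1) = b 2 := hww 2
  have st : ∀ x y z : Fin 4, x ≠ y → ¬ Cc (b z) (b x) (b y) := by
    intro x y z hxy h
    rcases (hT x y z).1 h with h3 | h3
    · exact hxy h3.1
    · exact absurd h3.1 (Option.some_ne_none z)
  -- one quadruple
  have Q : ∀ g : Fin 3 → Fin 4, Function.Injective g → ∃ a w : Fin 4 → Word c,
      Function.Injective a ∧ Function.Injective w ∧ TT (some 0) a ∧ Fat ω 𝔅 Set.univ a w ∧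
      Xr (w 0) (w 1) (w 2) (w 3) ∧ w 0 = w' none ∧ w 1 = w' (some (g 0)) ∧
      w 2 = w' (some (g 1)) ∧ w 3 = w' (some (g 2)) := by
    intro g hg
    have hi : Function.Injective
        (Fin.cons none (fun y => some (g y)) : Fin 4 → Option (Fin 4)) := by
      rw [Fin.cons_injective_iff]
      refine ⟨?_, fun x y h => hg (Option.some.inj h)⟩
      rintro ⟨x, hx⟩
      exact absurd hx (Option.some_ne_none _)
    have hT0 := tt_cons (c := c) hT hb ht hg (u := u) rfl (fun _ => rfl)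
    have hfa := rs h1 hI hu hw' hi hf
    exact ⟨_, _, hu.comp hi, hw'.comp hi, hT0, hfa, HU _ _ (hu.comp hi) (hw'.comp hi) hT0 hfa,
      rfl, rfl, rfl, rfl⟩
  obtain ⟨a₁, w₁, ha₁, hw₁, hTa₁, hf₁, hx₁, p10, p11, p12, p13⟩ := Q ![0, 1, 2] (inj3 n01 n02 n12)
  obtain ⟨a₂, w₂, ha₂, hw₂, hTa₂, hf₂, hx₂, p20, p21, p22, p23⟩ := Q ![0, 1, 3] (inj3 n01 n03 n13)
  obtain ⟨a₃, w₃, ha₃, hw₃, hTa₃, hf₃, hx₃, p30, p31, p32, p33⟩ := Q ![0, 2, 3] (inj3 n02 n03 n23)
  have R : ∀ w : Fin 4 → Word c, Function.Injective w → Xr (w 0) (w 1) (w 2) (w 3) →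
      w 0 = w' none → w 1 = w' (some 0) → w 2 = w' (some 1) → TT none w ∨ TT (some 3) w := by
    intro w hw hx q0 q1 q2
    obtain ⟨I, hTI⟩ := cl s hw hx
    cases I with
    | none => exact Or.inl hTI
    | some m =>
      right
      rw [e0] at q0
      rw [e1] at q1
      rw [e2] at q2
      fin_cases m
      · exfalso
        have h3 := (hTI 1 2 0).2 (Or.inr ⟨rfl, by simp, by simp⟩)
        rw [q0, q1, q2] at h3
        exact st 1 2 0 n12 h3
      · exfalso
        have h3 := (hTI 0 2 1).2 (Or.inr ⟨rfl, by simp, by simp⟩)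
        rw [q0, q1, q2] at h3
        exact st 0 2 1 n02 h3
      · exfalso
        have h3 := (hTI 0 1 2).2 (Or.inr ⟨rfl, by simp, by simp⟩)
        rw [q0, q1, q2] at h3
        exact st 0 1 2 n01 h3
      · exact hTI
  rcases R w₁ hw₁ hx₁ p10 p11 p12 with k1 | k1
  · exact ⟨a₁, w₁, ha₁, hw₁, hTa₁, k1, hf₁⟩
  · rcases R w₂ hw₂ hx₂ p20 p21 p22 with k2 | k2
    · exact ⟨a₂, w₂, ha₂, hw₂, hTa₂, k2, hf₂⟩
    · exfalso
      have c1 := (k1 0 1 3).2 (Or.inr ⟨rfl, by simp, by simp⟩)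
      have c2 := (k2 0 1 3).2 (Or.inr ⟨rfl, by simp, by simp⟩)
      have p13' : w₁ 3 = w' (some 2) := p13
      have p23' : w₂ 3 = w' (some 3) := p23
      have p11' : w₁ 1 = w' (some 0) := p11
      have p21' : w₂ 1 = w' (some 0) := p21
      have p31' : w₃ 1 = w' (some 0) := p31
      have p32' : w₃ 2 = w' (some 2) := p32
      have p33' : w₃ 3 = w' (some 3) := p33
      rw [p13', p10, p11'] at c1
      rw [p23', p20, p21'] at c2
      refine hx₃.2.2.2.2.2.2.1 ⟨hw₃.ne n01, hw₃.ne n23, Or.inl ⟨?_, ?_⟩⟩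
      · rw [p32', p30, p31']
        exact c1
      · rw [p33', p30, p31']
        exact c2

end XXAL

open XXAL in
theorem XAL_pf (h1 : S_FAT) (h2 : S_EXM) (h3 : S_QFA) (h4 : S_QFT) (h5 : S_TY3) : S_XAL := by
  intro K c σ ω 𝔅 hK hI hN hE hF
  have s := sy h3 c
  constructor
  · intro hQ v w hv hw hxv hxw
    have HX : ∀ a b : Fin 4 → Word c, Function.Injective a → Function.Injective b →
        Xr (a 0) (a 1) (a 2) (a 3) → Fat ω 𝔅 Set.univ a b → Xr (b 0) (b 1) (b 2) (b 3) := by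
      intro a b ha hb hxa hf
      by_contra hc
      exact hQ ⟨a, b, ha, hb, hf, hxa, hc⟩
    obtain ⟨I, hT⟩ := cl s hw hxw
    cases I with
    | some l =>
      obtain ⟨w', hw', hf, h⟩ := rA h2 h5 s hK hI hE hF hv l
      have hT' := h.resolve_right (not_not.2 (HX _ _ hv hw' hxv hf))
      exact sm h1 hI hv hw' (SameOn.refl _ _) (TT.same hw' hw hT' hT) hf
    | none =>
      obtain ⟨a, b, ha, hb, hTa, hTb, hab⟩ := rC h1 h2 h5 s hK hI hE hF hw hT
        (fun a b ha hb hTa hf => HX a b ha hb (TT.xr ha hTa) hf)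
      obtain ⟨w', hw', hf, h⟩ := rA h2 h5 s hK hI hE hF hv 0
      have hT' := h.resolve_right (not_not.2 (HX _ _ hv hw' hxv hf))
      exact comp h1 hI hv hw' hw hf
        (sm h1 hI ha hb (TT.same ha hw' hTa hT') (TT.same hb hw hTb hT) hab)
  · rintro ⟨v₀, w₀, hv₀, hw₀, hf₀, hxv₀, hxw₀⟩ v w hv hw hxv hxw
    -- a fat arrow to some quartet
    have Q : ∃ u : Fin 4 → Word c, Function.Injective u ∧ Fat ω 𝔅 Set.univ v u ∧
        ¬ Xr (u 0) (u 1) (u 2) (u 3) := by
      -- from an arrow which starts at a type with a top point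
      have Q1 : ∀ (i : Fin 4) (a b : Fin 4 → Word c), Function.Injective a →
          Function.Injective b → TT (some i) a → Fat ω 𝔅 Set.univ a b →
          ¬ Xr (b 0) (b 1) (b 2) (b 3) → ∃ u : Fin 4 → Word c, Function.Injective u ∧
            Fat ω 𝔅 Set.univ v u ∧ ¬ Xr (u 0) (u 1) (u 2) (u 3) := by
        intro i a b ha hb hTa hf hx
        obtain ⟨w', hw', hf', h⟩ := rA h2 h5 s hK hI hE hF hv i
        rcases h with h | h
        · exact ⟨b, hb, comp h1 hI hv hw' hb hf'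
            (sm h1 hI ha hb (TT.same ha hw' hTa h) (SameOn.refl _ _) hf), hx⟩
        · exact ⟨w', hw', hf', h⟩
      obtain ⟨I, hT⟩ := cl s hv₀ hxv₀
      cases I with
      | some i => exact Q1 i v₀ w₀ hv₀ hw₀ hT hf₀ hxw₀
      | none =>
        by_contra hc
        obtain ⟨a, b, ha, hb, hTa, hTb, hab⟩ := rC h1 h2 h5 s hK hI hE hF hv₀ hT
          (fun a b ha hb hTa hf => by
            by_contra hx
            exact hc (Q1 0 a b ha hb hTa hf hx))
        exact hc (Q1 0 a w₀ ha hw₀ hTa (comp h1 hI ha hb hw₀ hab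
          (sm h1 hI hv₀ hw₀ (TT.same hv₀ hb hT hTb) (SameOn.refl _ _) hf₀)) hxw₀)
    obtain ⟨u, hu, hfu, hxu⟩ := Q
    obtain ⟨I, hT⟩ := cl s hv hxv
    obtain ⟨i, hIi⟩ : ∃ i : Fin 4, I = none ∨ I = some i := by
      cases I with
      | none => exact ⟨0, Or.inl rfl⟩
      | some i => exact ⟨i, Or.inr rfl⟩
    obtain ⟨p, hpi, hp⟩ := pq_ex s hw hxw i
    obtain ⟨p', hpi', hp'⟩ := pq_ex s hu hxu i
    let τ : Fin 4 → Fin 4 := Equiv.swap p p'
    have hτ : Function.Injective τ := (Equiv.swap p p').injective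
    have hτi : τ i = i := Equiv.swap_apply_of_ne_of_ne hpi.symm hpi'.symm
    have hτp : τ p = p' := Equiv.swap_apply_left p p'
    have hIτ : ∀ x, some (τ x) = I ↔ some x = I := by
      intro x
      rcases hIi with h | h
      · rw [h]
        exact ⟨fun h => absurd h (Option.some_ne_none _), fun h => absurd h (Option.some_ne_none _)⟩
      · rw [h]
        constructor
        · intro h'
          have h6 : τ x = τ i := (Option.some.inj h').trans hτi.symm
          rw [hτ h6]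
        · intro h'
          rw [Option.some.inj h', hτi]
    have hvu : Fat ω 𝔅 Set.univ v (fun x => u (τ x)) :=
      sm h1 hI (hv.comp hτ) (hu.comp hτ) (TT.same (hv.comp hτ) hv (hT.perm τ hτ hIτ) hT)
        (SameOn.refl _ _) (rs h1 hI hv hu hτ hfu)
    refine comp h1 hI hv (hu.comp hτ) hw hvu ?_
    obtain ⟨a, b, hab, hai, hap, hbi, hbp⟩ : ∃ a b : Fin 4, a ≠ b ∧ a ≠ i ∧ a ≠ p ∧ b ≠ i ∧
        b ≠ p := by
      revert hpi
      clear_value τ
      clear hp hp' hτ hτi hτp hIτ hvu hIi hT hxu hfu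
      fin_cases i <;> fin_cases p <;> intro hpi
      · exact absurd rfl hpi
      · exact ⟨2, 3, by simp, by simp, by simp, by simp, by simp⟩
      · exact ⟨1, 3, by simp, by simp, by simp, by simp, by simp⟩
      · exact ⟨1, 2, by simp, by simp, by simp, by simp, by simp⟩
      · exact ⟨2, 3, by simp, by simp, by simp, by simp, by simp⟩
      · exact absurd rfl hpi
      · exact ⟨0, 3, by simp, by simp, by simp, by simp, by simp⟩
      · exact ⟨0, 2, by simp, by simp, by simp, by simp, by simp⟩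
      · exact ⟨1, 3, by simp, by simp, by simp, by simp, by simp⟩
      · exact ⟨0, 3, by simp, by simp, by simp, by simp, by simp⟩
      · exact absurd rfl hpi
      · exact ⟨0, 1, by simp, by simp, by simp, by simp, by simp⟩
      · exact ⟨1, 2, by simp, by simp, by simp, by simp, by simp⟩
      · exact ⟨0, 2, by simp, by simp, by simp, by simp, by simp⟩
      · exact ⟨0, 1, by simp, by simp, by simp, by simp, by simp⟩
      · exact absurd rfl hpi
    have hρ : Function.Injective ![i, p, a, b] :=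
      inj4 hpi.symm hai.symm hbi.symm hap.symm hbp.symm hab
    have hqw : Q4 (fun x => w (![i, p, a, b] x)) := hp a b hab hai hap hbi hbp
    have hqu : Q4 (fun x => u (τ (![i, p, a, b] x))) := by
      show Qr (u (τ i)) (u (τ p)) (u (τ a)) (u (τ b))
      rw [hτi, hτp]
      refine hp' (τ a) (τ b) (hτ.ne hab) ?_ ?_ ?_ ?_
      · rw [← hτi]
        exact hτ.ne hai
      · rw [← hτp]
        exact hτ.ne hap
      · rw [← hτi]
        exact hτ.ne hbi
      · rw [← hτp]
        exact hτ.ne hbp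
    have hf1 := h4 K c σ ω 𝔅 hK hI hF _ _ ((hu.comp hτ).comp hρ) (hw.comp hρ) hqu hqw
    have hbij : Function.Bijective ![i, p, a, b] := Finite.injective_iff_bijective.1 hρ
    let ρ' := (Equiv.ofBijective _ hbij).symm
    have hρ' : ∀ x, ![i, p, a, b] (ρ' x) = x := fun x => (Equiv.ofBijective _ hbij).apply_symm_apply x
    have hf2 := rs h1 hI ((hu.comp hτ).comp hρ) (hw.comp hρ) ρ'.injective hf1
    have g1 : (fun x => ((fun x => u (τ x)) ∘ ![i, p, a, b]) (ρ' x)) = fun x => u (τ x) := by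
      funext x
      show u (τ (![i, p, a, b] (ρ' x))) = u (τ x)
      rw [hρ']
    have g2 : (fun x => (w ∘ ![i, p, a, b]) (ρ' x)) = w := by
      funext x
      show w (![i, p, a, b] (ρ' x)) = w x
      rw [hρ']
    have g1' : (fun x => (fun x => u (τ (![i, p, a, b] x))) (ρ' x)) = fun x => u (τ x) := g1
    have hf3 : Fat ω 𝔅 Set.univ (fun x => (fun x => u (τ (![i, p, a, b] x))) (ρ' x))
        (fun x => (w ∘ ![i, p, a, b]) (ρ' x)) := hf2
    rw [g1', g2] at hf3
    exact hf3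

end Pool.Agent.Work.MP_8dbde4_lc.FK
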