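import Pool.Agent.Work.MP_8dbde4_lc.FK.StmtsB
import Pool.Agent.Work.MP_8dbde4_lc.FK.Rank

/-!
# Item XFB: tuples without four directions can be mapped to binary tuples
-/

set_option autoImplicit false
open Classical

namespace Pool.Agent.Work.MP_8dbde4_lc.FK

open Pool.Agent.Work.MP_8dbde4_lc.TS
open Pool.Agent.Work.MP_8dbde4_lc.Tree (Word Agr Cc)
open Pool.Agent.Work.MP_8dbde4_lc.Phy (PP Hom)
open Pool.Agent.Work.MP_8dbde4_lc.Bra (Same InvU BinOn pull c₂)
open Pool.Agent.Work.MP_8dbde4_lc.Full (Arr NEq Cst0 BT Sub)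
open Pool.Agent.Work.MP_8dbde4_lc.Full.BT

namespace XXFB

variable {K : Type} {c : ℚ → K}

/-- A triple with a split is binary. -/
theorem bin3 {u : Fin 3 → Word c} (h : Cc (u 0) (u 1) (u 2)) : Bin Set.univ u := by
  intro a _ b _ d _ hs
  obtain ⟨h1, h2, h3, h4, h5, h6⟩ := hs
  fin_cases a <;> fin_cases b <;> fin_cases d <;>
    first
    | exact h1 rfl
    | exact h2 rfl
    | exact h3 rfl
    | exact h4 h
    | exact h4 (cc_symm h)
    | exact h5 h
    | exact h5 (cc_symm h)
    | exact h6 h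
    | exact h6 (cc_symm h)

/-- The splits of a star. -/
theorem star3 {u : Fin 3 → Word c} (hu : Function.Injective u) (h : St (u 0) (u 1) (u 2))
    (a b d : Fin 3) : Cc (u a) (u b) (u d) ↔ b = d ∧ a ≠ b := by
  constructor
  · intro h1
    obtain ⟨-, -, -, h4, h5, h6⟩ := h
    fin_cases a <;> fin_cases b <;> fin_cases d <;>
      first
      | exact absurd h1 cc_irrefl
      | exact absurd h1 cc_irrefl'
      | exact absurd h1 h4
      | exact absurd (cc_symm h1) h4
      | exact absurd h1 h5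
      | exact absurd (cc_symm h1) h5
      | exact absurd h1 h6
      | exact absurd (cc_symm h1) h6
      | exact ⟨rfl, by decide⟩
  · rintro ⟨rfl, h1⟩
    exact cc_self fun h2 => h1 (hu h2)

end XXFB

open XXFB in
theorem XFB_pf (h1 : S_ARR) (h2 : S_BLW) (h3 : S_BLF) (h4 : S_TY3) : S_XFB := by
  intro K c σ ω 𝔅 hab hI hF X _ v hv hX
  by_cases hB : Bin Set.univ v
  · exact ⟨v, hv, (h1 K c σ 𝔅 hI).1 X v v (SameOn.refl _ _), hB⟩
  obtain ⟨x, y, z, hs⟩ : ∃ x y z, St (v x) (v y) (v z) := by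
    by_contra hc
    push Not at hc
    exact hB fun x _ y _ z _ => hc x y z
  obtain ⟨d, M, d1, d2, d3, d4, d5⟩ := rank v
  have hxy : d x y ≠ M := fun h => hs.1 ((d4 x y).2 h)
  have hyz : d y z ≠ M := fun h => hs.2.1 ((d4 y z).2 h)
  have hxz : d x z ≠ M := fun h => hs.2.2.1 ((d4 x z).2 h)
  have e1 : ¬ d z x < d x y := fun h => hs.2.2.2.1 ((d5 x y z).2 h)
  have e2 : ¬ d y x < d x z := fun h => hs.2.2.2.2.1 ((d5 x z y).2 h)
  have e3 : ¬ d x y < d y z := fun h => hs.2.2.2.2.2 ((d5 y z x).2 h)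
  have hsM := d3 x y
  have a1 := d1 z x
  have a2 := d1 y x
  have a3 := d1 z y
  obtain ⟨q1, q2⟩ : d x z = d x y ∧ d y z = d x y := by
    have u1 := d2 x y z
    have u2 := d2 x z y
    have u3 := d2 y x z
    omega
  clear e1 e2 e3 hyz hxz
  obtain ⟨s, hsd⟩ : ∃ s, s = d x y := ⟨_, rfl⟩
  -- every point is in one of the three branches
  have hbr : ∀ t, s < d t x ∨ s < d t y ∨ s < d t z := by
    intro t
    by_contra hc
    push Not at hc
    obtain ⟨c1, c2, c3⟩ := hc
    have k1 : d t y = d t x := by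
      have w1 := d2 t x y
      have w2 := d2 t y x
      omega
    have k2 : d t z = d t x := by
      have w1 := d2 t x z
      have w2 := d2 t z x
      omega
    have b1 := d1 t x
    have b2 := d1 t y
    have b3 := d1 t z
    refine hX t x y z ⟨?_, ?_, ?_, hs.1, hs.2.2.1, hs.2.1, ?_, ?_, ?_⟩
    · rw [ne_eq, d4]; omega
    · rw [ne_eq, d4]; omega
    · rw [ne_eq, d4]; omega
    · rintro ⟨-, -, ⟨k3, -⟩ | ⟨-, k3⟩⟩
      · rw [d5] at k3
        omega
      · rw [d5] at k3
        omega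
    · rintro ⟨-, -, ⟨k3, -⟩ | ⟨-, k3⟩⟩
      · rw [d5] at k3
        omega
      · rw [d5] at k3
        omega
    · rintro ⟨-, -, ⟨k3, -⟩ | ⟨-, k3⟩⟩
      · rw [d5] at k3
        omega
      · rw [d5] at k3
        omega
  let p : Fin 3 → X := ![x, y, z]
  have hp : ∀ i j : Fin 3, i ≠ j → d (p i) (p j) = s := by
    intro i j hij
    fin_cases i <;> fin_cases j <;> simp [p] at hij ⊢ <;> omega
  have hex : ∀ t, ∃ i : Fin 3, s < d t (p i) := by
    intro t
    rcases hbr t with h | h | h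
    · exact ⟨0, h⟩
    · exact ⟨1, h⟩
    · exact ⟨2, h⟩
  choose π hπ using hex
  have hsame : ∀ t t', π t = π t' → s < d t t' := by
    intro t t' h
    have b1 := hπ t
    have b2 := hπ t'
    rw [← h] at b2
    have b3 := d2 t (p (π t)) t'
    have b4 := d1 t' (p (π t))
    omega
  have hdiff : ∀ t t', π t ≠ π t' → d t t' = s := by
    intro t t' h
    have b1 := hπ t
    have b2 := hπ t'
    have b0 := hp _ _ h
    have c1 := d1 t' (p (π t'))
    have c3 := d1 t (p (π t))
    have e1 : d t (p (π t')) = s := by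
      have b3 := d2 t (p (π t)) (p (π t'))
      have b4 := d2 (p (π t)) t (p (π t'))
      omega
    have b5 := d2 t (p (π t')) t'
    have b7 := d2 t t' (p (π t'))
    omega
  have hsM' : s < M := by omega
  let u : Fin 3 → Word c := fun i => v (p i)
  have hu : Function.Injective u := by
    intro i j hij
    by_contra hne
    have := hp i j hne
    have h5 : d (p i) (p j) = M := (d4 _ _).1 hij
    omega
  have hus : St (u 0) (u 1) (u 2) := hs
  have hbl : Bl π u v := by
    intro t t' t'' k1 k2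
    rw [d5, star3 hu hus, hdiff t'' t k1]
    constructor
    · intro k3
      refine ⟨?_, k1⟩
      by_contra k4
      rw [hdiff t t' k4] at k3
      exact lt_irrefl _ k3
    · rintro ⟨k3, -⟩
      exact hsame t t' k3
  -- the blocks are binary
  have hblk : ∀ i, Bin {t | π t = i} v := by
    intro i a ha b hb e he hse
    obtain ⟨j, hj⟩ : ∃ j : Fin 3, j ≠ i := by
      fin_cases i
      · exact ⟨1, by decide⟩
      · exact ⟨0, by decide⟩
      · exact ⟨0, by decide⟩
    have hpj : ∀ t, π t = i → d (p j) t = s := by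
      intro t ht
      have b1 := hπ t
      rw [ht] at b1
      have b0 := hp _ _ hj
      have b2 := d2 (p j) (p i) t
      have b3 := d2 (p j) t (p i)
      have b4 := d1 t (p i)
      omega
    have r1 := hpj a ha
    have r2 := hpj b hb
    have r3 := hpj e he
    have r4 := d1 (p j) a
    have r5 := d1 (p j) b
    have r6 := d1 (p j) e
    have g1 : ¬ d e a < d a b := fun h => hse.2.2.2.1 ((d5 a b e).2 h)
    have g2 : ¬ d b a < d a e := fun h => hse.2.2.2.2.1 ((d5 a e b).2 h)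
    have g3 : ¬ d a b < d b e := fun h => hse.2.2.2.2.2 ((d5 b e a).2 h)
    have f1 := d1 e a
    have f2 := d1 b a
    have f3 := d1 b e
    refine hX (p j) a b e ⟨?_, ?_, ?_, hse.1, hse.2.2.1, hse.2.1, ?_, ?_, ?_⟩
    · rw [ne_eq, d4]; omega
    · rw [ne_eq, d4]; omega
    · rw [ne_eq, d4]; omega
    · rintro ⟨-, -, ⟨k1, -⟩ | ⟨-, k1⟩⟩
      · rw [d5] at k1
        omega
      · rw [d5] at k1
        omega
    · rintro ⟨-, -, ⟨k1, -⟩ | ⟨-, k1⟩⟩
      · rw [d5] at k1
        omega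
      · rw [d5] at k1
        omega
    · rintro ⟨-, -, ⟨k1, -⟩ | ⟨-, k1⟩⟩
      · rw [d5] at k1
        omega
      · rw [d5] at k1
        omega
  obtain ⟨u₀, hu₀, hc₀⟩ := (h4 K c).2.2.2.1 hab
  obtain ⟨w, hw, hblw, hsw⟩ := h2 K c (Fin 3) X π u₀ v hu₀ (fun _ _ _ h => hv h)
  refine ⟨w, hw, ?_, ?_⟩
  · exact hF u u₀ hu hu₀ X π v w (fun _ _ _ h => absurd (Set.mem_univ _) h) hv hw (Or.inr hblk) hbl
      hblw hsw
  · exact (h3 K c (Fin 3) X π u₀ w hu₀ hw hblw).2.2.2.2.1 (bin3 hc₀)
      (fun i => (hsw i).bin (hblk i))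

end Pool.Agent.Work.MP_8dbde4_lc.FK
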