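import Pool.Agent.Work.MP_8dbde4_lc.FK.StmtsW

/-!
Item XIW of the block FK of MP_8dbde4_lc: infinite extensions of arrows.
-/

set_option autoImplicit false
open Classical

namespace Pool.Agent.Work.MP_8dbde4_lc.FK

open Pool.Agent.Work.MP_8dbde4_lc.TS
open Pool.Agent.Work.MP_8dbde4_lc.Tree (Word Agr Cc)
open Pool.Agent.Work.MP_8dbde4_lc.Phy (PP Hom)
open Pool.Agent.Work.MP_8dbde4_lc.Bra (Same InvU BinOn pull c₂)
open Pool.Agent.Work.MP_8dbde4_lc.Full (Arr NEq Cst0 BT Sub)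
open Pool.Agent.Work.MP_8dbde4_lc.Full.BT

namespace XXIW

variable {K : Type} {c : ℚ → K} {σ : Sig}

/-- the first points -/
def io {P : Type} (n : ℕ) : P ⊕ Fin n → P ⊕ ℕ := Sum.map id (fun m => (m : ℕ))

/-- good up to `n` -/
def Gd (𝔅 : Str σ (Word c)) {P : Type} (v : P ⊕ ℕ → Word c) (w₀ : P → Word c) (n : ℕ)
    (w : P ⊕ ℕ → Word c) : Prop :=
  Arr 𝔅 (fun x => v (io n x)) (fun x => w (io n x)) ∧ ∀ p, w (.inl p) = w₀ p

theorem step (h : S_ARR) (𝔅 : Str σ (Word c)) (hB : AllInv 𝔅) {P : Type} [Finite P]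
    (v : P ⊕ ℕ → Word c) (w₀ : P → Word c) (n : ℕ) (w : P ⊕ ℕ → Word c) (hw : Gd 𝔅 v w₀ n w) :
    ∃ w' : P ⊕ ℕ → Word c, Gd 𝔅 v w₀ (n + 1) w' ∧ ∀ m, m < n → w' (.inr m) = w (.inr m) := by
  obtain ⟨-, -, -, hA4, -, -⟩ := h K c σ 𝔅 hB
  let i : P ⊕ Fin n → P ⊕ Fin (n + 1) := Sum.map id Fin.castSucc
  have hi : ∀ x, io (n + 1) (i x) = io n x := by
    rintro (p | m)
    · rfl
    · rfl
  obtain ⟨w₁, h1, h2⟩ := hA4 (P ⊕ Fin n) (P ⊕ Fin (n + 1)) i (fun x => v (io (n + 1) x))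
    (fun x => w (io n x)) (by simpa only [hi] using hw.1)
  refine ⟨Sum.elim w₀ (fun m => if hm : m < n + 1 then w₁ (.inr ⟨m, hm⟩) else w (.inr m)),
    ⟨?_, fun p => rfl⟩, ?_⟩
  · have h3 : (fun x => Sum.elim w₀ (fun m => if hm : m < n + 1 then w₁ (.inr ⟨m, hm⟩)
        else w (.inr m)) (io (n + 1) x)) = w₁ := by
      funext x
      rcases x with p | m
      · change w₀ p = w₁ (.inl p)
        have h4 : w₁ (.inl p) = w (.inl p) := h1 (.inl p)
        rw [h4, hw.2]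
      · change (if hm : (m : ℕ) < n + 1 then w₁ (.inr ⟨m, hm⟩) else w (.inr m)) = w₁ (.inr m)
        rw [dif_pos m.2]
    rw [h3]
    exact h2
  · intro m hm
    change (if hm : m < n + 1 then w₁ (.inr ⟨m, hm⟩) else w (.inr m)) = w (.inr m)
    rw [dif_pos (Nat.lt_succ_of_lt hm)]
    exact h1 (.inr ⟨m, hm⟩)

/-- the case of the natural numbers -/
theorem nat (h : S_ARR) (𝔅 : Str σ (Word c)) (hB : AllInv 𝔅) {P : Type} [Finite P]
    (v : P ⊕ ℕ → Word c) (w₀ : P → Word c) (h0 : Arr 𝔅 (fun p => v (.inl p)) w₀) :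
    ∃ w : P ⊕ ℕ → Word c, (∀ p, w (.inl p) = w₀ p) ∧
      ∀ (Y : Type) [Finite Y] (e : Y → P ⊕ ℕ), Arr 𝔅 (fun y => v (e y)) (fun y => w (e y)) := by
  obtain ⟨-, hA2, -, -, -, -⟩ := h K c σ 𝔅 hB
  have hst : Gd 𝔅 v w₀ 0 (Sum.elim w₀ fun m => v (.inr m)) := by
    refine ⟨?_, fun p => rfl⟩
    have h1 := hA2 P (P ⊕ Fin 0) (Sum.elim id fun m => m.elim0) (fun p => v (.inl p)) w₀ h0
    have e1 : (fun x : P ⊕ Fin 0 => v (io 0 x)) =
        fun y => v (.inl (Sum.elim id (fun m : Fin 0 => m.elim0) y)) := by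
      funext x
      rcases x with p | m
      · rfl
      · exact m.elim0
    have e2 : (fun x : P ⊕ Fin 0 => (Sum.elim w₀ fun m => v (.inr m) : P ⊕ ℕ → Word c) (io 0 x)) =
        fun y => w₀ (Sum.elim id (fun m : Fin 0 => m.elim0) y) := by
      funext x
      rcases x with p | m
      · rfl
      · exact m.elim0
    rw [e1, e2]
    exact h1
  choose f hf1 hf2 using fun (n : ℕ) (w : P ⊕ ℕ → Word c) (hw : Gd 𝔅 v w₀ n w) =>
    step h 𝔅 hB v w₀ n w hw
  let S : (n : ℕ) → {w : P ⊕ ℕ → Word c // Gd 𝔅 v w₀ n w} := fun n =>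
    Nat.rec ⟨_, hst⟩ (fun n w => ⟨f n w.1 w.2, hf1 n w.1 w.2⟩) n
  have hS : ∀ n m, m < n → (S (n + 1)).1 (.inr m) = (S n).1 (.inr m) := fun n m hm =>
    hf2 n (S n).1 (S n).2 m hm
  have hS2 : ∀ n m, m < n → (S n).1 (.inr m) = (S (m + 1)).1 (.inr m) := by
    intro n
    induction n with
    | zero => intro m hm; omega
    | succ n ih =>
      intro m hm
      rcases Nat.lt_succ_iff_lt_or_eq.1 hm with h1 | h1
      · rw [hS n m h1, ih m h1]
      · subst h1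
        rfl
  refine ⟨Sum.elim w₀ fun m => (S (m + 1)).1 (.inr m), fun p => rfl, ?_⟩
  intro Y _ e
  -- a bound
  obtain ⟨n, hn⟩ : ∃ n : ℕ, ∀ y m, e y = .inr m → m < n := by
    obtain ⟨N, hN⟩ := (Set.finite_range fun y => Sum.elim (fun _ => 0) id (e y)).bddAbove
    refine ⟨N + 1, fun y m hm => Nat.lt_succ_of_le ?_⟩
    have h1 := hN ⟨y, rfl⟩
    change Sum.elim (fun _ => 0) id (e y) ≤ N at h1
    rw [hm] at h1
    exact h1
  have hex : ∀ y, ∃ x : P ⊕ Fin n, io n x = e y := by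
    intro y
    rcases hy : e y with p | m
    · exact ⟨.inl p, rfl⟩
    · exact ⟨.inr ⟨m, hn y m hy⟩, rfl⟩
  choose e' he' using hex
  have h1 := hA2 (P ⊕ Fin n) Y e' _ _ (S n).2.1
  have e1 : (fun y => v (e y)) = fun y => v (io n (e' y)) := by
    funext y
    rw [he']
  have e2 : (fun y => (Sum.elim w₀ (fun m => (S (m + 1)).1 (.inr m)) : P ⊕ ℕ → Word c) (e y)) =
      fun y => (S n).1 (io n (e' y)) := by
    funext y
    rw [← he']
    rcases e' y with p | m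
    · exact ((S n).2.2 p).symm
    · exact (hS2 n m m.2).symm
  rw [e1, e2]
  exact h1

end XXIW

open XXIW in
/-- Item XIW. -/
theorem XIW_pf (h : S_ARR) : S_XIW := by
  intro K c σ 𝔅 hB P Λ _ _ v w₀ h0
  obtain ⟨-, hA2, -, -, hA5, -⟩ := h K c σ 𝔅 hB
  rcases isEmpty_or_nonempty Λ with hΛ | hΛ
  · refine ⟨Sum.elim w₀ fun l => isEmptyElim l, fun p => rfl, ?_⟩
    intro Y _ e
    have h1 := hA2 P Y (fun y => Sum.elim id (fun l => isEmptyElim l) (e y)) _ _ h0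
    have e1 : (fun y => v (e y)) =
        fun y => v (.inl (Sum.elim id (fun l : Λ => (isEmptyElim l : P)) (e y))) := by
      funext y
      rcases e y with p | l
      · rfl
      · exact isEmptyElim l
    have e2 : (fun y => (Sum.elim w₀ (fun l => isEmptyElim l) : P ⊕ Λ → Word c) (e y)) =
        fun y => w₀ (Sum.elim id (fun l : Λ => (isEmptyElim l : P)) (e y)) := by
      funext y
      rcases e y with p | l
      · rfl
      · exact isEmptyElim l
    rw [e1, e2]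
    exact h1
  · obtain ⟨a, ha⟩ := exists_surjective_nat Λ
    choose b hb using ha
    obtain ⟨w, hw1, hw2⟩ := XXIW.nat h 𝔅 hB (fun x => v (Sum.map id a x)) w₀ h0
    refine ⟨fun x => w (Sum.map id b x), hw1, ?_⟩
    intro Y _ e
    have h1 := hw2 Y (fun y => Sum.map id b (e y))
    have e1 : (fun y => v (e y)) = fun y => v (Sum.map id a (Sum.map id b (e y))) := by
      funext y
      rcases e y with p | l
      · rfl
      · change v (.inr l) = v (.inr (a (b l)))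
        rw [hb]
    rw [e1]
    exact h1

end Pool.Agent.Work.MP_8dbde4_lc.FK
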