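import Pool.Agent.Work.MP_8dbde4_lc.FK.StmtsB

/-!
# Block FK, item XM: a point which is not fat can leave a branch point of the unrooted tree
-/

set_option autoImplicit false
open Classical

namespace Pool.Agent.Work.MP_8dbde4_lc.FK

open Pool.Agent.Work.MP_8dbde4_lc.TS
open Pool.Agent.Work.MP_8dbde4_lc.Tree (Word Agr Cc)
open Pool.Agent.Work.MP_8dbde4_lc.Phy (PP Hom)
open Pool.Agent.Work.MP_8dbde4_lc.Bra (Same InvU BinOn pull c₂)
open Pool.Agent.Work.MP_8dbde4_lc.Full (Arr NEq Cst0 BT Sub)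
open Pool.Agent.Work.MP_8dbde4_lc.Full.BT

namespace XXM

variable {K : Type} {c : ℚ → K} {σ : Sig}

theorem xrA (h4 : S_QFA) {x y z t : Word c} (h : Xr x y z t) : Xr y x z t :=
  ((h4 K c).2.2.2.2.2.2.2.2.2 x y z t).1 h

theorem xrR (h4 : S_QFA) {x y z t : Word c} (h : Xr x y z t) : Xr y z t x :=
  ((h4 K c).2.2.2.2.2.2.2.2.2 x y z t).2 h

theorem xrB (h4 : S_QFA) {x y z t : Word c} (h : Xr x y z t) : Xr x z y t :=
  xrR h4 (xrR h4 (xrR h4 (xrA h4 (xrR h4 h))))

theorem xrC (h4 : S_QFA) {x y z t : Word c} (h : Xr x y z t) : Xr x y t z :=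
  xrR h4 (xrR h4 (xrA h4 (xrR h4 (xrR h4 h))))

theorem inj4 {A : Type} {a b d e : A} (h1 : a ≠ b) (h2 : a ≠ d) (h3 : a ≠ e) (h4 : b ≠ d)
    (h5 : b ≠ e) (h6 : d ≠ e) : Function.Injective (![a, b, d, e] : Fin 4 → A) := by
  intro i j h
  by_contra hne
  fin_cases i <;> fin_cases j <;> simp_all

theorem mem123 {i : Fin 4} (h : i ≠ 0) : i ∈ ({1, 2, 3} : Set (Fin 4)) := by
  fin_cases i
  · exact absurd rfl h
  · exact Or.inl rfl
  · exact Or.inr (Or.inl rfl)
  · exact Or.inr (Or.inr rfl)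

/-- `Xr` passes from `v` to `w` if the quartets agree. -/
theorem xr_of {X : Type} {v w : X → Word c} (hw : Function.Injective w) {x y z t : X}
    (h : Xr (v x) (v y) (v z) (v t))
    (h1 : Qr (v x) (v y) (v z) (v t) ↔ Qr (w x) (w y) (w z) (w t))
    (h2 : Qr (v x) (v z) (v y) (v t) ↔ Qr (w x) (w z) (w y) (w t))
    (h3 : Qr (v x) (v t) (v y) (v z) ↔ Qr (w x) (w t) (w y) (w z)) :
    Xr (w x) (w y) (w z) (w t) := by
  obtain ⟨a1, a2, a3, a4, a5, a6, b1, b2, b3⟩ := h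
  have hne : ∀ {p q : X}, v p ≠ v q → w p ≠ w q := fun h5 h6 => h5 (by rw [hw h6])
  exact ⟨hne a1, hne a2, hne a3, hne a4, hne a5, hne a6, fun h5 => b1 (h1.2 h5),
    fun h5 => b2 (h2.2 h5), fun h5 => b3 (h3.2 h5)⟩

theorem not_xq {ω : Prop} {𝔅 : Str σ (Word c)} (hR : Rg4 ω 𝔅) : ¬ XQ ω 𝔅 := by
  rintro ⟨v, w, hv, hw, hf, hxv, hxw⟩
  have hq := hR (Fin 4) Set.univ v w hv hw hf
  exact hxw (xr_of hw hxv (hq 0 trivial 1 trivial 2 trivial 3 trivial)
    (hq 0 trivial 2 trivial 1 trivial 3 trivial) (hq 0 trivial 3 trivial 1 trivial 2 trivial))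

theorem step0 {ω : Prop} {𝔅 : Str σ (Word c)} (h2 : S_FAT) (h6 : S_XAL)
    (hK : ∃ a b : K, a ≠ b) (hI : AllInv 𝔅) (hN : NEq 𝔅) (hE : Ext ω 𝔅) (hF : F3 ω 𝔅)
    (hR : Rg4 ω 𝔅) {v₀ w₀ : Fin 4 → Word c} (hv₀ : Function.Injective v₀)
    (hw₀ : Function.Injective w₀) (hf : Fat ω 𝔅 {1, 2, 3} v₀ w₀)
    (e : Fin 4 → Fin 4) (he : Function.Injective e) (he0 : e 0 = 0)
    (hx₀ : Xr (v₀ (e 0)) (v₀ (e 1)) (v₀ (e 2)) (v₀ (e 3)))
    (hq : Qr (w₀ (e 0)) (w₀ (e 2)) (w₀ (e 1)) (w₀ (e 3)))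
    (v' : Fin 4 → Word c) (hv' : Function.Injective v')
    (hx' : Xr (v' 0) (v' 1) (v' 2) (v' 3)) :
    ∃ w' : Fin 4 → Word c, Function.Injective w' ∧ Fat ω 𝔅 {1, 2, 3} v' w' ∧
      Qr (w' 0) (w' 2) (w' 1) (w' 3) := by
  have hve : Function.Injective (fun i => v₀ (e i)) := hv₀.comp he
  have hwe : Function.Injective (fun i => w₀ (e i)) := hw₀.comp he
  have f1 : Fat ω 𝔅 Set.univ v' (fun i => v₀ (e i)) :=
    (h6 K c σ ω 𝔅 hK hI hN hE hF).1 (not_xq hR) v' _ hv' hve hx' hx₀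
  have f2 : Fat ω 𝔅 {1, 2, 3} v' (fun i => v₀ (e i)) :=
    (h2 K c σ ω 𝔅 hI (Fin 4) Set.univ v' _ hv' hve).2.2.2.1 {1, 2, 3} (Set.subset_univ _) f1
  have f3 : Fat ω 𝔅 {x | e x ∈ ({1, 2, 3} : Set (Fin 4))} (fun i => v₀ (e i))
      (fun i => w₀ (e i)) :=
    (h2 K c σ ω 𝔅 hI (Fin 4) {1, 2, 3} v₀ w₀ hv₀ hw₀).2.2.2.2.2.1 (Fin 4) e he hf
  have f4 : Fat ω 𝔅 {1, 2, 3} (fun i => v₀ (e i)) (fun i => w₀ (e i)) := by
    refine (h2 K c σ ω 𝔅 hI (Fin 4) _ _ _ hve hwe).2.2.2.1 {1, 2, 3} ?_ f3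
    intro i hi
    apply mem123
    intro h7
    have h8 : i = 0 := he (by rw [h7, he0])
    rw [h8] at hi
    rcases hi with h9 | h9 | h9
    · exact absurd h9 (by decide)
    · exact absurd h9 (by decide)
    · exact absurd h9 (by decide)
  exact ⟨fun i => w₀ (e i), hwe,
    (h2 K c σ ω 𝔅 hI (Fin 4) {1, 2, 3} v' _ hv' hwe).2.2.1 _ hve f2 f4, hq⟩

theorem step1 {ω : Prop} {𝔅 : Str σ (Word c)} (h2 : S_FAT) (h4 : S_QFA) (h6 : S_XAL)
    (hK : ∃ a b : K, a ≠ b) (hI : AllInv 𝔅) (hN : NEq 𝔅) (hE : Ext ω 𝔅) (hF : F3 ω 𝔅)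
    (hR : Rg4 ω 𝔅) {v₀ w₀ : Fin 4 → Word c} (hv₀ : Function.Injective v₀)
    (hw₀ : Function.Injective w₀) (hf : Fat ω 𝔅 {1, 2, 3} v₀ w₀)
    (hx₀ : Xr (v₀ 0) (v₀ 1) (v₀ 2) (v₀ 3)) (hy₀ : ¬ Xr (w₀ 0) (w₀ 1) (w₀ 2) (w₀ 3))
    (v' : Fin 4 → Word c) (hv' : Function.Injective v')
    (hx' : Xr (v' 0) (v' 1) (v' 2) (v' 3)) :
    ∃ w' : Fin 4 → Word c, Function.Injective w' ∧ Fat ω 𝔅 {1, 2, 3} v' w' ∧
      Qr (w' 0) (w' 2) (w' 1) (w' 3) := by
  have hne : ∀ {i j : Fin 4}, i ≠ j → w₀ i ≠ w₀ j := fun h h' => h (hw₀ h')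
  by_cases hA : Qr (w₀ 0) (w₀ 1) (w₀ 2) (w₀ 3)
  · refine step0 h2 h6 hK hI hN hE hF hR hv₀ hw₀ hf ![0, 2, 1, 3] (by decide) rfl ?_ ?_
      v' hv' hx'
    · exact xrB h4 hx₀
    · exact hA
  · by_cases hB : Qr (w₀ 0) (w₀ 2) (w₀ 1) (w₀ 3)
    · exact step0 h2 h6 hK hI hN hE hF hR hv₀ hw₀ hf id Function.injective_id rfl hx₀ hB
        v' hv' hx'
    · by_cases hC : Qr (w₀ 0) (w₀ 3) (w₀ 1) (w₀ 2)
      · refine step0 h2 h6 hK hI hN hE hF hR hv₀ hw₀ hf ![0, 1, 3, 2] (by decide) rfl ?_ ?_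
          v' hv' hx'
        · exact xrC h4 hx₀
        · exact hC
      · exact absurd ⟨hne (by decide), hne (by decide), hne (by decide), hne (by decide),
          hne (by decide), hne (by decide), hA, hB, hC⟩ hy₀

/-- Stars seen from `s`. -/
theorem as_iff {X : Type} {s : Word c} {v : X → Word c} (hv : Function.Injective v)
    (hs : ∀ x, v x ≠ s) (x y z : X) : AS (Rt s v) x y z ↔ Xr s (v x) (v y) (v z) := by
  unfold AS Rt
  constructor
  · rintro ⟨h1, h2, h3, h4, h5, h6⟩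
    exact ⟨(hs x).symm, (hs y).symm, (hs z).symm, fun h => h1 (hv h), fun h => h3 (hv h),
      fun h => h2 (hv h), fun h => h6 (Or.inr h), fun h => h5 (Or.inr h),
      fun h => h4 (Or.inr h)⟩
  · rintro ⟨_, _, _, h1, h3, h2, h6, h5, h4⟩
    refine ⟨fun h => h1 (by rw [h]), fun h => h2 (by rw [h]), fun h => h3 (by rw [h]), ?_, ?_, ?_⟩
    · rintro (⟨h, _⟩ | h)
      · exact h1 (by rw [h])
      · exact h4 h
    · rintro (⟨h, _⟩ | h)
      · exact h3 (by rw [h])
      · exact h5 h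
    · rintro (⟨h, _⟩ | h)
      · exact h2 (by rw [h])
      · exact h6 h

/-- No `Xr` at all if there is none with `none`. -/
theorem no_xr (h4 : S_QFA) {X : Type} {w : Option X → Word c}
    (h : ∀ x y z t : X, ¬ Xr (w (some x)) (w (some y)) (w (some z)) (w (some t)))
    (h' : ∀ x y z : X, ¬ Xr (w none) (w (some x)) (w (some y)) (w (some z)))
    (x y z t : Option X) : ¬ Xr (w x) (w y) (w z) (w t) := by
  intro hx
  have hd := hx
  obtain ⟨a1, a2, a3, a4, a5, a6, -, -, -⟩ := hd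
  cases x with
  | none =>
    cases y with
    | none => exact a1 rfl
    | some y =>
      cases z with
      | none => exact a2 rfl
      | some z =>
        cases t with
        | none => exact a3 rfl
        | some t => exact h' y z t hx
  | some x =>
    cases y with
    | none =>
      cases z with
      | none => exact a4 rfl
      | some z =>
        cases t with
        | none => exact a5 rfl
        | some t => exact h' x z t (xrA h4 hx)
    | some y =>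
      cases z with
      | none =>
        cases t with
        | none => exact a6 rfl
        | some t => exact h' x y t (xrA h4 (xrB h4 hx))
      | some z =>
        cases t with
        | none => exact h' x y z (xrA h4 (xrB h4 (xrC h4 hx)))
        | some t => exact h x y z t hx

/-- The set of the induction. -/
def Ms {X : Type} (r : X) (v : Option X → Word c) : Set {x : X // x ≠ r} :=
  {s | ∃ t : {x : X // x ≠ r}, Xr (v (some r)) (v none) (v (some s.1)) (v (some t.1))}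

theorem step2 {ω : Prop} {𝔅 : Str σ (Word c)} (h2 : S_FAT) (h3 : S_EXM) (h4 : S_QFA)
    (h6 : S_XAL) (h9 : S_MOVE) (hK : ∃ a b : K, a ≠ b) (hI : AllInv 𝔅) (hN : NEq 𝔅)
    (hE : Ext ω 𝔅) (hF : F3 ω 𝔅) (hR : Rg4 ω 𝔅) {v₀ w₀ : Fin 4 → Word c}
    (hv₀ : Function.Injective v₀) (hw₀ : Function.Injective w₀)
    (hf : Fat ω 𝔅 {1, 2, 3} v₀ w₀) (hx₀ : Xr (v₀ 0) (v₀ 1) (v₀ 2) (v₀ 3))
    (hy₀ : ¬ Xr (w₀ 0) (w₀ 1) (w₀ 2) (w₀ 3)) (X : Type) [Finite X] (r : X)
    (v : Option X → Word c) (hv : Function.Injective v)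
    (hno : ∀ x y z t : X, ¬ Xr (v (some x)) (v (some y)) (v (some z)) (v (some t)))
    (x y : {x : X // x ≠ r})
    (hxy : Xr (v (some r)) (v none) (v (some x.1)) (v (some y.1))) :
    ∃ w : Option X → Word c, Function.Injective w ∧ Arr 𝔅 v w ∧
      (∀ x y z t : X, ¬ Xr (w (some x)) (w (some y)) (w (some z)) (w (some t))) ∧
      Ms r w ⊂ Ms r v := by
  have hxy' : Xr (v none) (v (some r)) (v (some x.1)) (v (some y.1)) := xrA h4 hxy
  have hxyne : x.1 ≠ y.1 := by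
    intro h
    exact hxy.2.2.2.2.2.1 (by rw [h])
  set e : Fin 4 → Option X := ![none, some r, some x.1, some y.1] with he
  have hsr : (some r : Option X) ≠ some x.1 := fun h => x.2 (Option.some_injective _ h).symm
  have hsr' : (some r : Option X) ≠ some y.1 := fun h => y.2 (Option.some_injective _ h).symm
  have hei : Function.Injective e := by
    apply inj4
    · exact (Option.some_ne_none r).symm
    · exact (Option.some_ne_none x.1).symm
    · exact (Option.some_ne_none y.1).symm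
    · exact hsr
    · exact hsr'
    · exact fun h => hxyne (Option.some_injective _ h)
  obtain ⟨w', hw', hfw, hqw⟩ := step1 h2 h4 h6 hK hI hN hE hF hR hv₀ hw₀ hf hx₀ hy₀
    (fun i => v (e i)) (hv.comp hei) hxy'
  obtain ⟨w, hw, hwe, hfat⟩ := h3 K c σ ω 𝔅 hI hE (Fin 4) (Option X) e {1, 2, 3} v w' hei hv hw'
    hfw
  have hmem : ∀ a : X, (some a : Option X) ∈ {x' | ∀ i, e i = x' → i ∈ ({1, 2, 3} : Set (Fin 4))} := by
    intro a i hi
    apply mem123
    rintro rfl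
    exact absurd hi (Option.some_ne_none a).symm
  have hq : ∀ a b d f : X, Qr (v (some a)) (v (some b)) (v (some d)) (v (some f)) ↔
      Qr (w (some a)) (w (some b)) (w (some d)) (w (some f)) := fun a b d f =>
    hR (Option X) _ v w hv hw hfat _ (hmem a) _ (hmem b) _ (hmem d) _ (hmem f)
  have e0 : w none = w' 0 := hwe 0
  have e1 : w (some r) = w' 1 := hwe 1
  have e2 : w (some x.1) = w' 2 := hwe 2
  have e3 : w (some y.1) = w' 3 := hwe 3
  refine ⟨w, hw, (h2 K c σ ω 𝔅 hI (Option X) _ v w hv hw).1 hfat, ?_, ?_⟩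
  · intro a b d f hab
    exact hno a b d f (xr_of (fun p q hpq => hv hpq) hab (hq a b d f).symm (hq a d b f).symm
      (hq a f b d).symm)
  · -- the move
    set vv : Option {x : X // x ≠ r} → Word c := fun o => v (Option.map Subtype.val o) with hvv
    set ww : Option {x : X // x ≠ r} → Word c := fun o => w (Option.map Subtype.val o) with hww
    have hvvi : Function.Injective vv := hv.comp (Option.map_injective Subtype.val_injective)
    have hwwi : Function.Injective ww := hw.comp (Option.map_injective Subtype.val_injective)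
    have hne : ∀ o : Option {x : X // x ≠ r}, Option.map Subtype.val o ≠ some r := by
      intro o
      cases o with
      | none => exact (Option.some_ne_none r).symm
      | some s => exact fun h => s.2 (Option.some_injective _ h)
    have hvs : ∀ o, vv o ≠ v (some r) := fun o h => hne o (hv h)
    have hws : ∀ o, ww o ≠ w (some r) := fun o h => hne o (hw h)
    have hC : CRel (Rt (v (some r)) vv) := (h4 K c).2.2.2.1 (Option {x : X // x ≠ r}) _ vv hvvi hvs
    have hC' : CRel (Rt (w (some r)) ww) := (h4 K c).2.2.2.1 (Option {x : X // x ≠ r}) _ ww hwwi hws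
    have hmove := h9 {x : X // x ≠ r} (Rt (v (some r)) vv) (Rt (w (some r)) ww) hC hC' ?_ ?_ x y ?_ ?_
    · have s1 : {s : {x : X // x ≠ r} | ∃ t : {x : X // x ≠ r}, AS (Rt (w (some r)) ww) none (some s) (some t)} = Ms r w := by
        ext s
        constructor
        · rintro ⟨t, ht⟩
          exact ⟨t, (as_iff hwwi hws none (some s) (some t)).1 ht⟩
        · rintro ⟨t, ht⟩
          exact ⟨t, (as_iff hwwi hws none (some s) (some t)).2 ht⟩
      have s2 : {s : {x : X // x ≠ r} | ∃ t : {x : X // x ≠ r}, AS (Rt (v (some r)) vv) none (some s) (some t)} = Ms r v := by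
        ext s
        constructor
        · rintro ⟨t, ht⟩
          exact ⟨t, (as_iff hvvi hvs none (some s) (some t)).1 ht⟩
        · rintro ⟨t, ht⟩
          exact ⟨t, (as_iff hvvi hvs none (some s) (some t)).2 ht⟩
      rw [s1, s2] at hmove
      exact hmove
    · intro a b d
      unfold Rt
      have q1 := hq r d.1 a.1 b.1
      constructor
      · rintro (h | h)
        · exact Or.inl h
        · exact Or.inr (q1.1 h)
      · rintro (h | h)
        · exact Or.inl h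
        · exact Or.inr (q1.2 h)
    · intro a b d h
      exact hno r a.1 b.1 d.1 ((as_iff hvvi hvs (some a) (some b) (some d)).1 h)
    · exact (as_iff hvvi hvs none (some x) (some y)).2 hxy
    · right
      have q2 : Qr (w none) (w (some x.1)) (w (some r)) (w (some y.1)) := by
        rw [e0, e1, e2, e3]
        exact hqw
      -- `Qr r y none x`
      exact ((h4 K c).1 _ _ _ _).2.1 q2

theorem claim {ω : Prop} {𝔅 : Str σ (Word c)} (h2 : S_FAT) (h3 : S_EXM) (h4 : S_QFA)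
    (h6 : S_XAL) (h9 : S_MOVE) (hK : ∃ a b : K, a ≠ b) (hI : AllInv 𝔅) (hN : NEq 𝔅)
    (hE : Ext ω 𝔅) (hF : F3 ω 𝔅) (hR : Rg4 ω 𝔅) {v₀ w₀ : Fin 4 → Word c}
    (hv₀ : Function.Injective v₀) (hw₀ : Function.Injective w₀)
    (hf : Fat ω 𝔅 {1, 2, 3} v₀ w₀) (hx₀ : Xr (v₀ 0) (v₀ 1) (v₀ 2) (v₀ 3))
    (hy₀ : ¬ Xr (w₀ 0) (w₀ 1) (w₀ 2) (w₀ 3)) (X : Type) [Finite X] (r : X) (n : ℕ) :
    ∀ v : Option X → Word c, Function.Injective v →
    (∀ x y z t : X, ¬ Xr (v (some x)) (v (some y)) (v (some z)) (v (some t))) →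
    (Ms r v).ncard ≤ n →
    ∃ w : Option X → Word c, Function.Injective w ∧ Arr 𝔅 v w ∧
      (∀ x y z t : X, ¬ Xr (w (some x)) (w (some y)) (w (some z)) (w (some t))) ∧
      ∀ s t : {x : X // x ≠ r}, ¬ Xr (w (some r)) (w none) (w (some s.1)) (w (some t.1)) := by
  induction n with
  | zero =>
    intro v hv hno hn
    have h0 : Ms r v = ∅ := by
      rw [← Set.ncard_eq_zero (Set.toFinite _)]
      omega
    refine ⟨v, hv, Arr.refl 𝔅 v, hno, ?_⟩
    intro s t h
    have hs : s ∈ Ms r v := ⟨t, h⟩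
    rw [h0] at hs
    exact hs
  | succ n ih =>
    intro v hv hno hn
    by_cases hex : ∃ x y : {x : X // x ≠ r},
      Xr (v (some r)) (v none) (v (some x.1)) (v (some y.1))
    · obtain ⟨x, y, hxy⟩ := hex
      obtain ⟨w, hw, ha, hwno, hlt⟩ := step2 h2 h3 h4 h6 h9 hK hI hN hE hF hR hv₀ hw₀ hf hx₀ hy₀
        X r v hv hno x y hxy
      have hc : (Ms r w).ncard < (Ms r v).ncard := Set.ncard_lt_ncard hlt (Set.toFinite _)
      obtain ⟨u, hu, hb, huno, hend⟩ := ih w hw hwno (by omega)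
      exact ⟨u, hu, Arr.trans ha hb, huno, hend⟩
    · refine ⟨v, hv, Arr.refl 𝔅 v, hno, ?_⟩
      intro s t h
      exact hex ⟨s, t, h⟩

end XXM

open XXM in
/-- **XM.** -/
theorem XM_pf (h1 : S_ARR) (h2 : S_FAT) (h3 : S_EXM) (h4 : S_QFA) (h5 : S_QFT) (h6 : S_XAL)
    (h7 : S_IND) (h8 : S_XFB) (h9 : S_MOVE) : S_XM := by
  intro K c σ ω 𝔅 hK hI hN hE hF hR hex
  obtain ⟨v₀, w₀, hv₀, hw₀, hf, hx₀, hy₀⟩ := hex
  have key := (h7 K c σ 𝔅 hI hN).2 ?_
  · intro X _ v hv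
    obtain ⟨w, hw, ha, hno⟩ := key X v hv
    obtain ⟨u, hu, hb, hbin⟩ := h8 K c σ ω 𝔅 hK hI hF X w hw hno
    exact ⟨u, hu, Arr.trans ha hb, hbin⟩
  · intro X _ v hv hno
    by_cases hr : ∃ r s t : X, Xr (v none) (v (some r)) (v (some s)) (v (some t))
    · obtain ⟨r, s₀, t₀, hrst⟩ := hr
      obtain ⟨w, hw, ha, hwno, hend⟩ := claim h2 h3 h4 h6 h9 hK hI hN hE hF hR hv₀ hw₀ hf hx₀ hy₀
        X r (Ms r v).ncard v hv hno le_rfl
      have hend' : ∀ s t : X, ¬ Xr (w none) (w (some r)) (w (some s)) (w (some t)) := by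
        intro s t h
        have hs : s ≠ r := by
          rintro rfl
          exact h.2.2.2.1 rfl
        have ht : t ≠ r := by
          rintro rfl
          exact h.2.2.2.2.1 rfl
        exact hend ⟨s, hs⟩ ⟨t, ht⟩ (xrA h4 h)
      refine ⟨w, hw, ha, no_xr h4 hwno ?_⟩
      intro s t u h
      by_cases hs : s = r
      · subst hs
        exact hend' t u h
      by_cases ht : t = r
      · subst ht
        exact hend' s u (xrB h4 h)
      by_cases hu : u = r
      · subst hu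
        exact hend' s t (xrB h4 (xrC h4 h))
      have hne : ∀ {p q : Option X}, p ≠ q → w p ≠ w q := fun h5 h6 => h5 (hw h6)
      have hr1 : ∀ {p : X}, p ≠ r → w (some r) ≠ w (some p) := fun h5 =>
        hne fun h6 => h5 (Option.some_injective _ h6).symm
      rcases (h4 K c).2.2.2.2.2.2.2.2.1 (w none) (w (some r)) (w (some s)) (w (some t))
        (w (some u)) (hne (Option.some_ne_none r).symm) (hr1 hs) (hr1 ht) (hr1 hu) h
        (hwno r s t u) with h5 | h5 | h5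
      · exact hend' t u h5
      · exact hend' s u (xrB h4 h5)
      · exact hend' s t (xrB h4 (xrC h4 h5))
    · refine ⟨v, hv, Arr.refl 𝔅 v, no_xr h4 hno ?_⟩
      intro x y z h
      exact hr ⟨x, y, z, h⟩

end Pool.Agent.Work.MP_8dbde4_lc.FK
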