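import Pool.Agent.Work.MP_8dbde4_lc.FK.StmtsB

/-!
Item XR of the block FK: points cannot leave branch points, quartets are not preserved: stars.
-/

set_option autoImplicit false
open Classical

namespace Pool.Agent.Work.MP_8dbde4_lc.FK

open Pool.Agent.Work.MP_8dbde4_lc.TS
open Pool.Agent.Work.MP_8dbde4_lc.Tree (Word Agr Cc)
open Pool.Agent.Work.MP_8dbde4_lc.Phy (PP Hom)
open Pool.Agent.Work.MP_8dbde4_lc.Bra (Same InvU BinOn pull c₂)
open Pool.Agent.Work.MP_8dbde4_lc.Full (Arr NEq Cst0 BT Sub)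
open Pool.Agent.Work.MP_8dbde4_lc.Full.BT

namespace XXR

variable {K : Type} {c : ℚ → K} {σ : Sig}

/-- A word above a star. -/
theorem xr_above {x y z t : Word c} (h : St x y z) (h1 : Cc t x y) (h2 : Cc t x z)
    (h3 : Cc t y z) : Xr x y z t := by
  obtain ⟨hxy, hyz, hxz, h4, h5, h6⟩ := h
  refine ⟨hxy, hxz, Ne.symm (cc_ne h1), hyz, Ne.symm (cc_ne h3), Ne.symm (cc_ne' h2), ?_, ?_, ?_⟩
  · rintro ⟨_, _, ⟨h7, _⟩ | ⟨h7, _⟩⟩
    · exact h4 h7
    · exact cc_asymm h2 (cc_symm h7)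
  · rintro ⟨_, _, ⟨h7, _⟩ | ⟨h7, _⟩⟩
    · exact h5 h7
    · exact cc_asymm h1 (cc_symm h7)
  · rintro ⟨_, _, ⟨h7, _⟩ | ⟨h7, _⟩⟩
    · exact cc_asymm (cc_symm h1) (cc_symm h7)
    · exact h6 h7

/-- A word very close to a word of a star. -/
theorem st_close {x x' y z : Word c} (h : St x y z) (h1 : Cc y x' x) (h2 : Cc z x' x) :
    St x' y z := by
  obtain ⟨hxy, hyz, hxz, h4, h5, h6⟩ := h
  refine ⟨Ne.symm (cc_ne h1), hyz, Ne.symm (cc_ne h2), ?_, ?_, ?_⟩
  · intro h7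
    exact h4 (cc_trans (cc_symm h2) h7)
  · intro h7
    exact h5 (cc_trans (cc_symm h1) h7)
  · intro h7
    rcases cc_or h7 x with h8 | h8
    · exact cc_asymm h1 h8
    · exact h6 h8

/-- Fat points keep the property of being in different directions. -/
theorem xr_rg {ω : Prop} {𝔅 : Str σ (Word c)} (hR : Rg4 ω 𝔅) {X : Type} [Finite X] {F : Set X}
    {v w : X → Word c} (hv : Function.Injective v) (hw : Function.Injective w)
    (hF : Fat ω 𝔅 F v w) {x y z t : X} (hx : x ∈ F) (hy : y ∈ F) (hz : z ∈ F) (ht : t ∈ F)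
    (h : Xr (v x) (v y) (v z) (v t)) : Xr (w x) (w y) (w z) (w t) := by
  obtain ⟨g1, g2, g3, g4, g5, g6, g7, g8, g9⟩ := h
  have key := hR X F v w hv hw hF
  refine ⟨fun h => g1 (by rw [hw h]), fun h => g2 (by rw [hw h]), fun h => g3 (by rw [hw h]),
    fun h => g4 (by rw [hw h]), fun h => g5 (by rw [hw h]), fun h => g6 (by rw [hw h]),
    fun h => g7 ((key x hx y hy z hz t ht).2 h), fun h => g8 ((key x hx z hz y hy t ht).2 h),
    fun h => g9 ((key x hx t ht y hy z hz).2 h)⟩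

end XXR

open XXR in
theorem XR_pf (h1 : S_FAT) (h2 : S_EXM) (h3 : S_QFA) (h4 : S_QFT) (h5 : S_ITR) (h6 : S_AXS)
    (h7 : S_TY3) : S_XR := by
  intro K c σ ω 𝔅 hK hI hN hE hF3 hR4 hex hno
  obtain ⟨v₀, w₀, hv₀, hw₀, hF₀, hQ₀, hnQ₀⟩ := hex
  have hK2 : ∃ a b : K, a ≠ b := by
    obtain ⟨a, b, d, h, _, _⟩ := hK
    exact ⟨a, b, h⟩
  obtain ⟨q1, _, _, _, _, _, _, q8, _, q10⟩ := h3 K c
  have hXR : ∀ v w : Fin 4 → Word c, Function.Injective v → Function.Injective w →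
      Fat ω 𝔅 {1, 2, 3} v w → Xr (v 0) (v 1) (v 2) (v 3) → Xr (w 0) (w 1) (w 2) (w 3) := by
    intro v w hv hw hF hX
    by_contra hc
    exact hno ⟨v, w, hv, hw, hF, hX, hc⟩
  have hsymQ : ∀ x y z t : Word c, Qr x y z t → Qr x y t z := by
    intro x y z t h
    exact (q1 _ _ _ _).2.1 ((q1 _ _ _ _).1 ((q1 _ _ _ _).2.1 h))
  -- arrows from arbitrary quartets
  have hgo : ∀ v₁ w₁ u : Fin 4 → Word c, Function.Injective v₁ → Function.Injective w₁ →
      Function.Injective u → Q4 v₁ → Q4 u → Fat ω 𝔅 {1, 2, 3} v₁ w₁ →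
      Fat ω 𝔅 {1, 2, 3} u w₁ := by
    intro v₁ w₁ u hv₁ hw₁ hu hQ hQu hF
    have a1 := h4 K c σ ω 𝔅 hK2 hI hF3 u v₁ hu hv₁ hQu hQ
    have a2 := (h1 K c σ ω 𝔅 hI (Fin 4) Set.univ u v₁ hu hv₁).2.2.2.1 {1, 2, 3}
      (Set.subset_univ _) a1
    exact (h1 K c σ ω 𝔅 hI (Fin 4) {1, 2, 3} u w₁ hu hw₁).2.2.1 v₁ hv₁ a2 hF
  -- the impossible case
  have himp : ∀ v₁ w₁ : Fin 4 → Word c, Function.Injective v₁ → Function.Injective w₁ →
      Q4 v₁ → Fat ω 𝔅 {1, 2, 3} v₁ w₁ → ¬ Qr (w₁ 0) (w₁ 2) (w₁ 1) (w₁ 3) := by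
    intro v₁ w₁ hv₁ hw₁ hQ hF hbad
    obtain ⟨_, _, t3, _, t5, t6⟩ := h7 K c
    obtain ⟨u, hu, hst⟩ := t3 hK
    obtain ⟨t₀, ht₀, hcl⟩ := t6 hK2 (Fin 3) u 0
    obtain ⟨t₄, hab⟩ := t5 hK2 (Fin 4) ![t₀, u 0, u 1, u 2]
    have n01 : u 1 ≠ u 0 := fun h => absurd (hu h) (by decide)
    have n02 : u 2 ≠ u 0 := fun h => absurd (hu h) (by decide)
    have c1 := hcl 1 n01
    have c2 := hcl 2 n02
    have b01 : Cc t₄ t₀ (u 0) := hab 0 1
    have b02 : Cc t₄ t₀ (u 1) := hab 0 2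
    have b03 : Cc t₄ t₀ (u 2) := hab 0 3
    have b12 : Cc t₄ (u 0) (u 1) := hab 1 2
    have b13 : Cc t₄ (u 0) (u 2) := hab 1 3
    have b23 : Cc t₄ (u 1) (u 2) := hab 2 3
    have hst' : St t₀ (u 1) (u 2) := st_close hst c1 c2
    have hX1 : Xr (u 0) (u 1) (u 2) t₄ := xr_above hst b12 b13 b23
    have hX2 : Xr t₀ (u 1) (u 2) t₄ := xr_above hst' b02 b03 b23
    let p : Fin 5 → Word c := ![t₀, u 0, u 1, u 2, t₄]
    have hp : Function.Injective p := by
      obtain ⟨e1, e2, e3, e4, e5, e6, _⟩ := hX1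
      obtain ⟨f1, f2, f3, _⟩ := hX2
      intro i j hij
      fin_cases i <;> fin_cases j <;>
        first
        | rfl
        | (exfalso; revert hij; simp [p]; first
            | exact ht₀ | exact Ne.symm ht₀ | exact f1 | exact Ne.symm f1 | exact f2
            | exact Ne.symm f2 | exact f3 | exact Ne.symm f3 | exact e1 | exact Ne.symm e1
            | exact e2 | exact Ne.symm e2 | exact e3 | exact Ne.symm e3 | exact e4
            | exact Ne.symm e4 | exact e5 | exact Ne.symm e5 | exact e6 | exact Ne.symm e6)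
    have hcs : Function.Injective (Fin.castSucc : Fin 4 → Fin 5) := Fin.castSucc_injective 4
    have hpQ : Q4 (fun i : Fin 4 => p i.castSucc) := by
      show Qr t₀ (u 0) (u 1) (u 2)
      exact ⟨ht₀, hst.2.1, Or.inl ⟨c1, c2⟩⟩
    have hFp := hgo v₁ w₁ (fun i : Fin 4 => p i.castSucc) hv₁ hw₁ (hp.comp hcs) hQ hpQ hF
    obtain ⟨w', hw', hww, hFw⟩ := h2 K c σ ω 𝔅 hI hE (Fin 4) (Fin 5) Fin.castSucc {1, 2, 3} p w₁
      hcs hp hw₁ hFp
    have hmem : ∀ j : Fin 5, j ≠ 0 →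
        j ∈ {x' : Fin 5 | ∀ x : Fin 4, x.castSucc = x' → x ∈ ({1, 2, 3} : Set (Fin 4))} := by
      intro j hj x hx
      fin_cases x
      · exact absurd hx.symm hj
      · simp
      · simp
      · simp
    have hX1' : Xr (w' 1) (w' 2) (w' 3) (w' 4) :=
      xr_rg hR4 hp hw' hFw (hmem 1 (by decide)) (hmem 2 (by decide)) (hmem 3 (by decide))
        (hmem 4 (by decide)) hX1
    have e0 : w' 0 = w₁ 0 := hww 0
    have e1 : w' 1 = w₁ 1 := hww 1
    have e2 : w' 2 = w₁ 2 := hww 2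
    have e3 : w' 3 = w₁ 3 := hww 3
    have hQ' : Qr (w' 0) (w' 2) (w' 3) (w' 4) := by
      apply q8 (w' 0) (w' 1) (w' 2) (w' 3) (w' 4) _ hX1'
      · rw [e0, e1, e2, e3]
        exact hbad
      · intro h
        exact absurd (hw' h) (by decide)
    let i : Fin 4 → Fin 5 := ![0, 2, 3, 4]
    have hi : Function.Injective i := by decide
    have hFi := (h1 K c σ ω 𝔅 hI (Fin 5) _ p w' hp hw').2.2.2.2.2.1 (Fin 4) i hi hFw
    have hFi' := (h1 K c σ ω 𝔅 hI (Fin 4) _ (fun x => p (i x)) (fun x => w' (i x)) (hp.comp hi)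
      (hw'.comp hi)).2.2.2.1 {1, 2, 3} (by
        intro j hj
        apply hmem
        rcases hj with rfl | rfl | rfl <;> decide) hFi
    have := hXR _ _ (hp.comp hi) (hw'.comp hi) hFi' hX2
    exact this.2.2.2.2.2.2.1 hQ'
  have hXw : Xr (w₀ 0) (w₀ 1) (w₀ 2) (w₀ 3) := by
    have hne : ∀ i j : Fin 4, i ≠ j → w₀ i ≠ w₀ j := fun i j h h' => h (hw₀ h')
    refine ⟨hne _ _ (by decide), hne _ _ (by decide), hne _ _ (by decide), hne _ _ (by decide),
      hne _ _ (by decide), hne _ _ (by decide), hnQ₀, himp v₀ w₀ hv₀ hw₀ hQ₀ hF₀, ?_⟩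
    intro hbad
    have hs : Function.Injective (Equiv.swap (2 : Fin 4) 3) := (Equiv.swap (2 : Fin 4) 3).injective
    have hF1 := (h1 K c σ ω 𝔅 hI (Fin 4) {1, 2, 3} v₀ w₀ hv₀ hw₀).2.2.2.2.2.1 (Fin 4)
      (Equiv.swap (2 : Fin 4) 3) hs hF₀
    have hF2 := (h1 K c σ ω 𝔅 hI (Fin 4) _ _ _ (hv₀.comp hs) (hw₀.comp hs)).2.2.2.1 {1, 2, 3} (by
        intro j hj
        show (Equiv.swap (2 : Fin 4) 3) j ∈ ({1, 2, 3} : Set (Fin 4))
        rcases hj with rfl | rfl | rfl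
        · rw [Equiv.swap_apply_of_ne_of_ne (by decide) (by decide)]
          simp
        · rw [Equiv.swap_apply_left]
          simp
        · rw [Equiv.swap_apply_right]
          simp) hF1
    have s0 : (Equiv.swap (2 : Fin 4) 3) 0 = 0 := by decide
    have s1 : (Equiv.swap (2 : Fin 4) 3) 1 = 1 := by decide
    have s2 : (Equiv.swap (2 : Fin 4) 3) 2 = 3 := by decide
    have s3 : (Equiv.swap (2 : Fin 4) 3) 3 = 2 := by decide
    apply himp _ _ (hv₀.comp hs) (hw₀.comp hs) _ hF2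
    · show Qr (w₀ (Equiv.swap (2 : Fin 4) 3 0)) (w₀ (Equiv.swap (2 : Fin 4) 3 2))
        (w₀ (Equiv.swap (2 : Fin 4) 3 1)) (w₀ (Equiv.swap (2 : Fin 4) 3 3))
      rw [s0, s1, s2, s3]
      exact hbad
    · show Qr (v₀ (Equiv.swap (2 : Fin 4) 3 0)) (v₀ (Equiv.swap (2 : Fin 4) 3 1))
        (v₀ (Equiv.swap (2 : Fin 4) 3 2)) (v₀ (Equiv.swap (2 : Fin 4) 3 3))
      rw [s0, s1, s2, s3]
      exact hsymQ _ _ _ _ hQ₀
  apply h6 K c σ 𝔅 hI hN
  apply (h5 K c σ 𝔅).2.2.2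
  intro X _ v hv hq
  obtain ⟨x, y, z, t, hQ⟩ := hq
  obtain ⟨d1, d2, d3, d4, d5, d6⟩ := (q1 _ _ _ _).2.2 hQ
  let e : Fin 4 → X := ![x, y, z, t]
  have he : Function.Injective e := by
    have f1 : x ≠ y := fun h => d1 (by rw [h])
    have f2 : x ≠ z := fun h => d2 (by rw [h])
    have f3 : x ≠ t := fun h => d3 (by rw [h])
    have f4 : y ≠ z := fun h => d4 (by rw [h])
    have f5 : y ≠ t := fun h => d5 (by rw [h])
    have f6 : z ≠ t := fun h => d6 (by rw [h])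
    intro i j hij
    fin_cases i <;> fin_cases j <;>
      first
      | rfl
      | (exfalso; revert hij; simp [e]; first
          | exact f1 | exact Ne.symm f1 | exact f2
          | exact Ne.symm f2 | exact f3 | exact Ne.symm f3 | exact f4
          | exact Ne.symm f4 | exact f5 | exact Ne.symm f5 | exact f6 | exact Ne.symm f6)
  have hFe := hgo v₀ w₀ (fun i => v (e i)) hv₀ hw₀ (hv.comp he) hQ₀ hQ hF₀
  obtain ⟨w', hw', hww, hFw⟩ := h2 K c σ ω 𝔅 hI hE (Fin 4) X e {1, 2, 3} v w₀ he hv hw₀ hFe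
  have hmem : ∀ j : X, j ≠ x →
      j ∈ {x' : X | ∀ i : Fin 4, e i = x' → i ∈ ({1, 2, 3} : Set (Fin 4))} := by
    intro j hj i hi
    fin_cases i
    · exact absurd hi.symm hj
    · simp
    · simp
    · simp
  have hstep : ∀ b d g : X, Xr (v x) (v b) (v d) (v g) → Xr (w' x) (w' b) (w' d) (w' g) := by
    intro b d g hX
    obtain ⟨g1, g2, g3, g4, g5, g6, _⟩ := id hX
    have f1 : x ≠ b := fun h => g1 (by rw [h])
    have f2 : x ≠ d := fun h => g2 (by rw [h])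
    have f3 : x ≠ g := fun h => g3 (by rw [h])
    have f4 : b ≠ d := fun h => g4 (by rw [h])
    have f5 : b ≠ g := fun h => g5 (by rw [h])
    have f6 : d ≠ g := fun h => g6 (by rw [h])
    let i : Fin 4 → X := ![x, b, d, g]
    have hi : Function.Injective i := by
      intro k l hkl
      fin_cases k <;> fin_cases l <;>
        first
        | rfl
        | (exfalso; revert hkl; simp [i]; first
            | exact f1 | exact Ne.symm f1 | exact f2
            | exact Ne.symm f2 | exact f3 | exact Ne.symm f3 | exact f4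
            | exact Ne.symm f4 | exact f5 | exact Ne.symm f5 | exact f6 | exact Ne.symm f6)
    have hFi := (h1 K c σ ω 𝔅 hI X _ v w' hv hw').2.2.2.2.2.1 (Fin 4) i hi hFw
    have hFi' := (h1 K c σ ω 𝔅 hI (Fin 4) _ (fun k => v (i k)) (fun k => w' (i k)) (hv.comp hi)
      (hw'.comp hi)).2.2.2.1 {1, 2, 3} (by
        intro j hj
        apply hmem
        rcases hj with rfl | rfl | rfl
        · exact Ne.symm f1
        · exact Ne.symm f2
        · exact Ne.symm f3) hFi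
    exact hXR _ _ (hv.comp hi) (hw'.comp hi) hFi' hX
  have hrot : ∀ a b d g : Word c, Xr a b d g → Xr b d g a := fun a b d g => (q10 a b d g).2
  have hswp : ∀ a b d g : Word c, Xr a b d g → Xr b a d g := fun a b d g => (q10 a b d g).1
  refine ⟨w', hw', (h1 K c σ ω 𝔅 hI X _ v w' hv hw').1 hFw, ?_, x, y, z, t, ?_, ?_⟩
  · intro a b d g hX
    by_cases ha : a = x
    · rw [ha] at hX ⊢
      exact hstep b d g hX
    · by_cases hb : b = x
      · rw [hb] at hX ⊢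
        exact hswp _ _ _ _ (hstep a d g (hswp _ _ _ _ hX))
      · by_cases hd : d = x
        · rw [hd] at hX ⊢
          exact hrot _ _ _ _ (hrot _ _ _ _ (hstep g a b (hrot _ _ _ _ (hrot _ _ _ _ hX))))
        · by_cases hg : g = x
          · rw [hg] at hX ⊢
            exact hrot _ _ _ _ (hstep a b d (hrot _ _ _ _ (hrot _ _ _ _ (hrot _ _ _ _ hX))))
          · exact xr_rg hR4 hv hw' hFw (hmem a ha) (hmem b hb) (hmem d hd) (hmem g hg) hX
  · have k0 : w' x = w₀ 0 := hww 0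
    have k1 : w' y = w₀ 1 := hww 1
    have k2 : w' z = w₀ 2 := hww 2
    have k3 : w' t = w₀ 3 := hww 3
    rw [k0, k1, k2, k3]
    exact hXw
  · intro hX
    exact hX.2.2.2.2.2.2.1 hQ

end Pool.Agent.Work.MP_8dbde4_lc.FK
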