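import Pool.Agent.Work.MP_8dbde4_lc.FK.Class
import Pool.Agent.Work.MP_8dbde4_lc.FK.I_OPG
import Pool.Agent.Work.MP_8dbde4_lc.FK.I_AMG
import Pool.Agent.Work.MP_8dbde4_lc.FK.I_ARR
import Pool.Agent.Work.MP_8dbde4_lc.FK.I_NEC
import Pool.Agent.Work.MP_8dbde4_lc.FK.I_TY3
import Pool.Agent.Work.MP_8dbde4_lc.FK.I_ITR
import Pool.Agent.Work.MP_8dbde4_lc.FK.I_IND
import Pool.Agent.Work.MP_8dbde4_lc.FK.I_T0
import Pool.Agent.Work.MP_8dbde4_lc.FK.I_BLW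
import Pool.Agent.Work.MP_8dbde4_lc.FK.I_BLF
import Pool.Agent.Work.MP_8dbde4_lc.FK.I_SHF
import Pool.Agent.Work.MP_8dbde4_lc.FK.I_SHX
import Pool.Agent.Work.MP_8dbde4_lc.FK.I_BEH
import Pool.Agent.Work.MP_8dbde4_lc.FK.I_CAN
import Pool.Agent.Work.MP_8dbde4_lc.FK.I_TP1
import Pool.Agent.Work.MP_8dbde4_lc.FK.I_NLN
import Pool.Agent.Work.MP_8dbde4_lc.FK.I_FAT
import Pool.Agent.Work.MP_8dbde4_lc.FK.I_NFF
import Pool.Agent.Work.MP_8dbde4_lc.FK.I_EXN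
import Pool.Agent.Work.MP_8dbde4_lc.FK.I_EXT
import Pool.Agent.Work.MP_8dbde4_lc.FK.I_EXM
import Pool.Agent.Work.MP_8dbde4_lc.FK.I_LBB
import Pool.Agent.Work.MP_8dbde4_lc.FK.I_T1
import Pool.Agent.Work.MP_8dbde4_lc.FK.I_VD
import Pool.Agent.Work.MP_8dbde4_lc.FK.I_MOVE
import Pool.Agent.Work.MP_8dbde4_lc.FK.I_NM

import Pool.Agent.Work.MP_8dbde4_lc.FK.I_NR
import Pool.Agent.Work.MP_8dbde4_lc.FK.I_QFA
import Pool.Agent.Work.MP_8dbde4_lc.FK.I_QFT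
import Pool.Agent.Work.MP_8dbde4_lc.FK.I_XAL
import Pool.Agent.Work.MP_8dbde4_lc.FK.I_CBQ
import Pool.Agent.Work.MP_8dbde4_lc.FK.I_XFB
import Pool.Agent.Work.MP_8dbde4_lc.FK.I_AXS
import Pool.Agent.Work.MP_8dbde4_lc.FK.I_CX
import Pool.Agent.Work.MP_8dbde4_lc.FK.I_CR
import Pool.Agent.Work.MP_8dbde4_lc.FK.I_QV
import Pool.Agent.Work.MP_8dbde4_lc.FK.I_XM
import Pool.Agent.Work.MP_8dbde4_lc.FK.I_XR
import Pool.Agent.Work.MP_8dbde4_lc.FK.I_QPP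
import Pool.Agent.Work.MP_8dbde4_lc.FK.I_REF
import Pool.Agent.Work.MP_8dbde4_lc.FK.I_QQP
import Pool.Agent.Work.MP_8dbde4_lc.FK.I_RFQ
import Pool.Agent.Work.MP_8dbde4_lc.FK.I_NFQ
import Pool.Agent.Work.MP_8dbde4_lc.FK.I_POS
import Pool.Agent.Work.MP_8dbde4_lc.FK.I_STX
import Pool.Agent.Work.MP_8dbde4_lc.FK.I_SFP
import Pool.Agent.Work.MP_8dbde4_lc.FK.I_TCF
import Pool.Agent.Work.MP_8dbde4_lc.FK.I_TCE
import Pool.Agent.Work.MP_8dbde4_lc.FK.I_BLI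
import Pool.Agent.Work.MP_8dbde4_lc.FK.I_XIW
import Pool.Agent.Work.MP_8dbde4_lc.FK.I_UFW
import Pool.Agent.Work.MP_8dbde4_lc.FK.I_RPW
import Pool.Agent.Work.MP_8dbde4_lc.FK.I_RAW
import Pool.Agent.Work.MP_8dbde4_lc.FK.I_BHW
import Pool.Agent.Work.MP_8dbde4_lc.FK.I_NBW
import Pool.Agent.Work.MP_8dbde4_lc.FK.I_GRW
import Pool.Agent.Work.MP_8dbde4_lc.FK.I_THW
import Pool.Agent.Work.MP_8dbde4_lc.FK.I_MNW
import Pool.Agent.Work.MP_8dbde4_lc.FK.I_ENW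
import Pool.Agent.Work.MP_8dbde4_lc.FK.I_ETW

/-!
# All first-order reducts of the homogeneous C-relations
-/

set_option autoImplicit false
open Classical

namespace Pool.Agent.Work.MP_8dbde4_lc.FK

open Pool.Agent.Work.MP_8dbde4_lc.TS
open Pool.Agent.Work.MP_8dbde4_lc.Tree (Word Agr Cc RFBH)
open Pool.Agent.Work.MP_8dbde4_lc.Phy (PP Hom HornC)
open Pool.Agent.Work.MP_8dbde4_lc.Bra (Same InvU BinOn pull c₂)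
open Pool.Agent.Work.MP_8dbde4_lc.Full (Arr NEq Cst0 BT Sub EqH)
open Pool.Agent.Work.MP_8dbde4_lc.Om (HornR)

theorem AMG_ok : S_AMG := AMG_pf OPG_pf
theorem IN_ok : S_IN := IN_pf AMG_ok
theorem ARR_ok : S_ARR := ARR_pf IN_ok Phy.PPB_pf
theorem NEC_ok : S_NEC := NEC_pf ARR_ok Phy.PPB_pf
theorem IND_ok : S_IND := IND_pf ARR_ok
theorem T0_ok : S_T0 := T0_pf ARR_ok TY3_pf ITR_pf Phy.PPB_pf
theorem SHX_ok : S_SHX := SHX_pf Full.SHX_ok Bra.EMB_pf Bra.IOT_pf SHF_pf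
theorem CAN_ok : S_CAN := CAN_pf Full.RAM_ok BEH_pf Full.SUB_ok SHF_pf
theorem TP2_ok : S_TP2 := TP2_pf TP1_pf Full.LPH_ok Full.SUB_ok SHF_pf
theorem THN_ok : S_THN := THN_pf TP1_pf TP2_ok Full.SUB_ok SHF_pf
theorem NLN_ok : S_NLN := NLN_pf ARR_ok SHF_pf Full.SUB_ok
theorem FAT_ok : S_FAT := FAT_pf ARR_ok BLW_pf BLF_pf
theorem NFF_ok : S_NFF := NFF_pf ARR_ok BLF_pf SHF_pf SHX_ok Full.SUB_ok
theorem EXN_ok : S_EXN := EXN_pf ARR_ok BLW_pf BLF_pf SHF_pf SHX_ok Full.SUB_ok CAN_ok THN_ok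
  NLN_ok AMG_ok
theorem EXT_ok : S_EXT := EXT_pf EXN_ok NFF_ok Full.SUB_ok SHF_pf
theorem EXM_ok : S_EXM := EXM_pf FAT_ok
theorem LLC_ok : S_LLC := LLC_pf SHX_ok SHF_pf
theorem LBB_ok : S_LBB := LBB_pf ARR_ok IND_ok BLW_pf BLF_pf
theorem T1_ok : S_T1 := T1_pf FAT_ok EXM_ok TY3_pf ITR_pf
theorem VD_ok : S_VD := VD_pf FAT_ok TY3_pf
theorem NM_ok : S_NM := NM_pf ARR_ok FAT_ok EXM_ok TY3_pf IND_ok MOVE_pf
theorem NR_ok : S_NR := NR_pf FAT_ok EXM_ok TY3_pf ITR_pf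
theorem QFT_ok : S_QFT := QFT_pf FAT_ok BLW_pf
theorem XAL_ok : S_XAL := XAL_pf FAT_ok EXM_ok QFA_pf QFT_ok TY3_pf
theorem CBQ_ok : S_CBQ := CBQ_pf FAT_ok SHF_pf SHX_ok BLW_pf BLF_pf ARR_ok
theorem XFB_ok : S_XFB := XFB_pf ARR_ok BLW_pf BLF_pf TY3_pf
theorem AXS_ok : S_AXS := AXS_pf ARR_ok BLW_pf BLF_pf
theorem CX_ok : S_CX := CX_pf FAT_ok EXM_ok QFA_pf QFT_ok XAL_ok CBQ_ok LBB_ok ITR_pf XFB_ok TY3_pf
theorem CR_ok : S_CR := CR_pf FAT_ok EXM_ok QFA_pf QFT_ok ITR_pf AXS_ok TY3_pf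
theorem QV_ok : S_QV := QV_pf ARR_ok FAT_ok QFA_pf TY3_pf
theorem XM_ok : S_XM := XM_pf ARR_ok FAT_ok EXM_ok QFA_pf QFT_ok XAL_ok IND_ok XFB_ok MOVE_pf
theorem XR_ok : S_XR := XR_pf FAT_ok EXM_ok QFA_pf QFT_ok ITR_pf AXS_ok TY3_pf
theorem QPP_ok : S_QPP := QPP_pf ARR_ok QFT_ok FAT_ok QFA_pf TY3_pf
theorem QQP_ok : S_QQP := QQP_pf Phy.PPB_pf QFA_pf TY3_pf
theorem XIW_ok : S_XIW := XIW_pf ARR_ok
theorem RAW_ok : S_RAW := RAW_pf UFW_pf RPW_pf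
theorem BHW_ok : S_BHW := BHW_pf TCF_pf
theorem NBW_ok : S_NBW := NBW_pf ARR_ok TCE_pf
theorem GRW_ok : S_GRW := GRW_pf ARR_ok TCF_pf BLI_pf XIW_ok RAW_ok BHW_ok
theorem MNW_ok : S_MNW := MNW_pf ARR_ok TCF_pf
theorem NGW_ok : S_NGW := NGW_pf ARR_ok BLF_pf TCE_pf
theorem ENW_ok : S_ENW := ENW_pf ARR_ok BLW_pf BLF_pf AMG_ok TCF_pf BLI_pf NBW_ok GRW_ok THW_pf
  BLS_pf MNW_ok
theorem ETW_ok : S_ETW := ETW_pf ENW_ok NGW_ok MNW_ok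

/-- Theorem A: every tuple can be mapped to a binary one, or to a star, or the quartet relation is
primitive positive definable. -/
theorem thmA (K : Type) (c : ℚ → K) (σ : Sig) (𝔅 : Str σ (Word c))
    (hK : ∃ a b d : K, a ≠ b ∧ a ≠ d ∧ b ≠ d) (hA : AllInv 𝔅) (hN : NEq 𝔅)
    (hC : ¬ PP 𝔅 (C3 (c := c))) : BB 𝔅 ∨ SS 𝔅 ∨ PP 𝔅 (Q4 (c := c)) :=
  thmA_of T0_ok T1_ok VD_ok NM_ok NR_ok CX_ok CR_ok QV_ok XM_ok XR_ok QPP_ok LLC_ok LBB_ok EXT_ok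
    ETW_ok hK hA hN hC

/-- The theorems of the block. -/
theorem pk : Pk where
  nec := NEC_ok
  thmA := thmA
  nfq := NFQ_pf Full.ENG_ok Full.QGD_ok Tree.GAD_ok Tree.TWIN_pf Phy.SA0_ok
    (Phy.UN1_pf Phy.PLC_pf) Full.FRQ_ok Full.QQT_ok Bra.IOT_pf Phy.JOI_pf RFQ_pf REF_pf QFA_pf
    QQP_ok
  bbm := BBM_pf RPS_pf Phy.PPB_pf
  ssk := SSK_pf
  snf := SNF_pf SSM_pf RPS_pf Phy.PPB_pf ARR_ok STX_pf
    (Full.EQN_ok Full.KIP_ok Full.EQP_ok Full.EQU_ok Full.EQD_ok Full.nfe_ok)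
  sfp := SFP_pf STX_pf Full.CMB_ok (Full.EFP_ok Full.inFP_of_horn)
  cfp := CFP_pf (fun c σ 𝔅 hA h => Full.ZFP_ok Full.inFP_of_horn c σ 𝔅 hA h)

end Pool.Agent.Work.MP_8dbde4_lc.FK
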