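import Pool.Agent.Work.MP_8dbde4_lc.TS.Defs

/-!
# The homogeneous C-relations and their first-order reducts: definitions

The homogeneous C-relation with `card K` branches (`K` the set of letters), first-order definable
relations, Horn clauses, combs and stars, finitely bounded homogeneous structures, and the relations
of the examples.
-/

set_option autoImplicit false

namespace Pool.Agent.Work.MP_8dbde4_lc.Pub

open Pool.Agent.Work.MP_8dbde4_lc.TS

/-! ### The C-relation with `card K` branches -/

/-- The words `ℚ → K` which differ from `c` in finitely many places. -/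
def Word {K : Type} (c : ℚ → K) : Type := {x : ℚ → K // {q | x q ≠ c q}.Finite}

variable {K : Type} {c : ℚ → K}

/-- `x` and `y` agree below the place `q`. -/
def Agree (x y : Word c) (q : ℚ) : Prop := ∀ q' < q, x.1 q' = y.1 q'

/-- The C-relation `C(z; x, y)`: at some place below which `x`, `y`, `z` agree, `x` and `y` have the
same letter and `z` has another one. -/
def C (z x y : Word c) : Prop :=
  ∃ q, Agree z x q ∧ Agree z y q ∧ x.1 q = y.1 q ∧ z.1 q ≠ x.1 q

/-- `S` is invariant under all automorphisms of the C-relation. (The C-relation is homogeneous, so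
this says that `S` is first-order definable in it.) -/
def Definable {X : Type} (S : (X → Word c) → Prop) : Prop :=
  ∀ g : Word c ≃ Word c, (∀ x y z, C x y z ↔ C (g x) (g y) (g z)) →
    ∀ v, S v → S (fun x => g (v x))

/-- The default word of the tree with two branches. -/
def c₂ : ℚ → Bool := fun _ => false

/-- `ι` embeds the C-relation of `Word c'` into the C-relation of `Word c`. -/
def Embeds {K' : Type} {c' : ℚ → K'} (ι : Word c' → Word c) : Prop :=
  Function.Injective ι ∧ ∀ x y z, C x y z ↔ C (ι x) (ι y) (ι z)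

/-- The structure induced by `𝔅` along `ι`: a copy of the restriction of `𝔅` to the range of
`ι`. -/
def pull {σ : Sig} {B B' : Type} (𝔅 : Str σ B) (ι : B' → B) : Str σ B' where
  rel R t := 𝔅.rel R (fun j => ι (t j))

/-! ### Finitely bounded homogeneous structures -/

/-- `e` is an embedding of `𝔄` into `𝔅`. -/
def Emb {σ : Sig} {A B : Type} (𝔄 : Str σ A) (𝔅 : Str σ B) (e : A → B) : Prop :=
  Function.Injective e ∧ ∀ (R : σ.S) (t : Fin (σ.ar R) → A),
    𝔄.rel R t ↔ 𝔅.rel R (fun j => e (t j))

/-- Homogeneous: every isomorphism between finite substructures extends to an automorphism. -/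
def Homogeneous {σ : Sig} {A : Type} (𝔄 : Str σ A) : Prop :=
  ∀ (S : Finset A) (f : A → A), Set.InjOn f S →
    (∀ (R : σ.S) (t : Fin (σ.ar R) → A), (∀ j, t j ∈ S) →
      (𝔄.rel R t ↔ 𝔄.rel R (fun j => f (t j)))) →
    ∃ g : A ≃ A, (∀ (R : σ.S) (t : Fin (σ.ar R) → A), 𝔄.rel R t ↔ 𝔄.rel R (fun j => g (t j))) ∧
      ∀ x ∈ S, g x = f x

/-- Finitely bounded: the finite structures which embed are those into which no member of a finite
set of finite structures embeds. -/
def FinitelyBounded {σ : Sig} {A : Type} (𝔄 : Str σ A) : Prop :=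
  ∃ F : Set (Σ m : ℕ, Str σ (Fin m)), F.Finite ∧ ∀ (B : Type) [Finite B] (𝔅 : Str σ B),
    (∃ e, Emb 𝔅 𝔄 e) ↔ ∀ X ∈ F, ¬ ∃ e, Emb X.2 𝔅 e

/-- `𝔅` is a reduct of `𝔄`: the relations of `𝔅` are relations of `𝔄`. -/
def Reduct {σ τ : Sig} {A : Type} (𝔅 : Str τ A) (𝔄 : Str σ A) : Prop :=
  ∀ R : τ.S, ∃ (R' : σ.S) (h : σ.ar R' = τ.ar R), ∀ t : Fin (τ.ar R) → A,
    𝔅.rel R t ↔ 𝔄.rel R' (fun j => t (Fin.cast h j))

/-- `𝔅` is a reduct of a countable finitely bounded homogeneous structure. -/
def RFBH {τ : Sig} {A : Type} (𝔅 : Str τ A) : Prop :=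
  Countable A ∧ ∃ (σ : Sig) (𝔄 : Str σ A), Homogeneous 𝔄 ∧ FinitelyBounded 𝔄 ∧ Reduct 𝔅 𝔄

/-! ### The conditions of the classification -/

/-- Every nonempty relation contains a constant tuple. -/
def Const {σ : Sig} {B : Type} (𝔅 : Str σ B) : Prop :=
  ∀ R, (∃ v, 𝔅.rel R v) → ∃ a, 𝔅.rel R (fun _ => a)

/-- `q` is the first place where the words `v x`, `x ∈ Y`, do not all have the same letter. -/
def FirstPlace {X : Type} (Y : Set X) (v : X → Word c) (q : ℚ) : Prop :=
  (∀ x ∈ Y, ∀ y ∈ Y, Agree (v x) (v y) q) ∧ ∃ x ∈ Y, ∃ y ∈ Y, (v x).1 q ≠ (v y).1 q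

/-- A Horn clause: a set `prem` of equations, and the conclusion: `none` is false, and
`some (i, j, Y, E)` says that `i` and `j` are not separated by the first split on `Y ∪ {i, j}` if this
split separates no pair in `E`. -/
structure Clause (n : ℕ) where
  prem : Set (Fin n × Fin n)
  concl : Option (Fin n × Fin n × Set (Fin n) × Set (Fin n × Fin n))

/-- Truth of a clause. -/
def Clause.Holds {n : ℕ} (D : Clause n) (v : Fin n → Word c) : Prop :=
  (∀ e ∈ D.prem, v e.1 = v e.2) →
    match D.concl with
    | none => False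
    | some (i, j, Y, E) => ∀ q, FirstPlace (insert i (insert j Y)) v q →
      (∀ e ∈ E, e.1 ∈ insert i (insert j Y) → e.2 ∈ insert i (insert j Y) →
        (v e.1).1 q = (v e.2).1 q) → (v i).1 q = (v j).1 q

/-- `R` is defined by a conjunction of Horn clauses. -/
def Horn {n : ℕ} (R : (Fin n → Word c) → Prop) : Prop :=
  ∃ Φ : Set (Clause n), ∀ v, R v ↔ ∀ D ∈ Φ, D.Holds v

/-- `R` is defined by a conjunction of Horn clauses in which all the sets `E` are empty. -/
def Horn₀ {n : ℕ} (R : (Fin n → Word c) → Prop) : Prop :=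
  ∃ Φ : Set (Clause n), (∀ D ∈ Φ, ∀ i j Y E, D.concl = some (i, j, Y, E) → E = ∅) ∧
    ∀ v, R v ↔ ∀ D ∈ Φ, D.Holds v

/-- A comb: the different entries split off one by one (`r` gives the order). -/
def Comb {X : Type} (z : X → Word c) : Prop := ∃ r : X → ℕ, (∀ x y, r x = r y ↔ z x = z y) ∧
  ∀ x y y', r x < r y → r x < r y' → C (z x) (z y) (z y')

/-- A star: all the different entries split at the same place. -/
def Star {X : Type} (z : X → Word c) : Prop := ∀ x y t, C (z t) (z x) (z y) → z x = z y

/-- `R` contains all the combs whose equalities are the common equalities of two members of `R`. -/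
def CombClosed {n : ℕ} (R : (Fin n → Word c) → Prop) : Prop := ∀ v w z : Fin n → Word c,
  R v → R w → Comb z → (∀ x y, z x = z y ↔ v x = v y ∧ w x = w y) → R z

/-- `R` contains all the stars whose equalities are the common equalities of two members of `R`. -/
def StarClosed {n : ℕ} (R : (Fin n → Word c) → Prop) : Prop := ∀ v w z : Fin n → Word c,
  R v → R w → Star z → (∀ x y, z x = z y ↔ v x = v y ∧ w x = w y) → R z

/-! ### Examples -/

/-- The quartet relation `x y | z t` of the unrooted tree. -/
def Quartet (x y z t : Word c) : Prop :=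
  x ≠ y ∧ z ≠ t ∧ ((C z x y ∧ C t x y) ∨ (C x z t ∧ C y z t))

/-- Three different words which split at the same place. -/
def N (x y z : Word c) : Prop :=
  x ≠ y ∧ y ≠ z ∧ x ≠ z ∧ ¬ C z x y ∧ ¬ C y x z ∧ ¬ C x y z

/-- The first place where `v` is not constant has an even number of letters of each kind. -/
def Even4 {c : ℚ → Bool} (v : Fin 4 → Word c) : Prop :=
  ∀ q, FirstPlace Set.univ v q →
    xor (xor ((v 0).1 q) ((v 1).1 q)) (xor ((v 2).1 q) ((v 3).1 q)) = false

/-- The signature with one symbol, of arity `n`. -/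
def sg (n : ℕ) : Sig where
  S := Unit
  fin := inferInstance
  ar _ := n

/-- The signature with two symbols, of arities `m` and `n`. -/
def sg₂ (m n : ℕ) : Sig where
  S := Unit ⊕ Unit
  fin := inferInstance
  ar := Sum.elim (fun _ => m) (fun _ => n)

/-- The structure with the relation `R` only. -/
def one {B : Type} {n : ℕ} (R : (Fin n → B) → Prop) : Str (sg n) B where
  rel _ t := R t

/-- The structure with the relations `R` and `R'`. -/
def two {B : Type} {m n : ℕ} (R : (Fin m → B) → Prop) (R' : (Fin n → B) → Prop) :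
    Str (sg₂ m n) B where
  rel
    | .inl _ => fun t => R t
    | .inr _ => fun t => R' t

/-- The C-relation as a set of triples. -/
def C3 (t : Fin 3 → Word c) : Prop := C (t 0) (t 1) (t 2)

/-- `N` as a set of triples. -/
def N3 (t : Fin 3 → Word c) : Prop := N (t 0) (t 1) (t 2)

/-- The quartet relation as a set of quadruples. -/
def Q4 (t : Fin 4 → Word c) : Prop := Quartet (t 0) (t 1) (t 2) (t 3)

end Pool.Agent.Work.MP_8dbde4_lc.Pub
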