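import Pool.Agent.Work.MP_8dbde4_lc.FK.Pub
import Pool.Agent.Work.MP_8dbde4_lc.FK.Main
import Pool.Agent.Work.MP_8dbde4_lc.FK.Example

/-!
# The definitions of `FK/Pub.lean` and those of the project
-/

set_option autoImplicit false
open Classical

namespace Pool.Agent.Work.MP_8dbde4_lc.Pub

open Pool.Agent.Work.MP_8dbde4_lc.TS

variable {K : Type} {c : ℚ → K} {σ : Sig}

theorem definable_iff {X : Type} (S : (X → Word c) → Prop) :
    Definable S ↔ Bra.AutInv (c := c) S := Iff.rfl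

theorem rfbh_iff {A : Type} (𝔅 : Str σ A) : RFBH 𝔅 ↔ Tree.RFBH 𝔅 := Iff.rfl

/-! ### Horn clauses -/

/-- Letters at a place give a partition. -/
theorem ex_num {n : ℕ} {A : Type} (f : Fin n → A) : ∃ h : Fin n → ℕ, ∀ x y, h x = h y ↔ f x = f y := by
  obtain ⟨e⟩ : Nonempty (Set.range f ↪ ℕ) := by
    have : Countable (Set.range f) := (Set.finite_range f).countable
    exact nonempty_embedding_nat _
  refine ⟨fun x => e ⟨f x, x, rfl⟩, fun x y => ?_⟩
  rw [e.injective.eq_iff, Subtype.mk.injEq]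

theorem cholds_iff {c : ℚ → ℕ} {n : ℕ} (v : Fin n → Word c)
    (o : Option (Fin n × Fin n × Set (Fin n) × Set (Fin n × Fin n))) :
    Om.CHolds (c := c) v o ↔ (match o with
      | none => False
      | some (i, j, Y, E) => ∀ q, FirstPlace (insert i (insert j Y)) v q →
        (∀ e ∈ E, e.1 ∈ insert i (insert j Y) → e.2 ∈ insert i (insert j Y) →
          (v e.1).1 q = (v e.2).1 q) → (v i).1 q = (v j).1 q) := by
  rcases o with _ | ⟨i, j, Y, E⟩
  · exact Iff.rfl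
  · have hi : i ∈ insert i (insert j Y) := Set.mem_insert _ _
    have hj : j ∈ insert i (insert j Y) := Set.mem_insert_of_mem _ (Set.mem_insert _ _)
    constructor
    · intro H q hq hE
      obtain ⟨h, hh⟩ := ex_num (fun x => (v x).1 q)
      have h1 := H h ⟨?_, q, hq.1, fun x _ y _ => (hh x y).symm⟩
        (fun e he h1 h2 => (hh _ _).2 (hE e he h1 h2))
      · exact (hh _ _).1 h1
      · obtain ⟨_, x, hx, y, hy, hxy⟩ := hq
        exact ⟨x, hx, y, hy, fun h1 => hxy ((hh _ _).1 h1)⟩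
    · intro H h hs hE
      obtain ⟨⟨x, hx, y, hy, hxy⟩, q, h1, h2⟩ := hs
      refine (h2 i hi j hj).1 (H q ⟨h1, x, hx, y, hy, fun h3 => hxy ((h2 x hx y hy).1 h3)⟩ ?_)
      intro e he h3 h4
      exact (h2 _ h3 _ h4).2 (hE e he h3 h4)

/-- the clause in the other form -/
def toCl {n : ℕ} (D : Clause n) : Om.Cl n := ⟨D.prem, D.concl⟩

theorem holds_iff {c : ℚ → ℕ} {n : ℕ} (D : Clause n) (v : Fin n → Word c) :
    (toCl D).Holds (c := c) v ↔ D.Holds v :=
  imp_congr Iff.rfl (cholds_iff v D.concl)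

theorem horn_iff {c : ℚ → ℕ} {n : ℕ} (R : (Fin n → Word c) → Prop) :
    Horn R ↔ Om.HornR (c := c) R := by
  constructor
  · rintro ⟨Φ, hΦ⟩
    refine ⟨toCl '' Φ, fun v => (hΦ v).trans ?_⟩
    rw [Set.forall_mem_image]
    exact forall₂_congr fun D _ => (holds_iff D v).symm
  · rintro ⟨Φ, hΦ⟩
    refine ⟨{D | toCl D ∈ Φ}, fun v => (hΦ v).trans ⟨fun h D hD => (holds_iff D v).1 (h _ hD),
      fun h D hD => (holds_iff ⟨D.prem, D.concl⟩ v).2 (h ⟨D.prem, D.concl⟩ hD)⟩⟩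

theorem cholds₀_iff {c : ℚ → Bool} {n : ℕ} (v : Fin n → Word c) (i j : Fin n) (Y : Set (Fin n)) :
    Phy.CHolds (c := c) v (some (i, j, Y)) ↔
      ∀ q, FirstPlace (insert i (insert j Y)) v q → (v i).1 q = (v j).1 q := by
  have hi : i ∈ insert i (insert j Y) := Set.mem_insert _ _
  have hj : j ∈ insert i (insert j Y) := Set.mem_insert_of_mem _ (Set.mem_insert _ _)
  constructor
  · intro H q hq
    refine H (fun x => (v x).1 q) ((Phy.PLC_pf c (Fin n) _ v _).2 ⟨?_, q, hq.1,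
      fun x _ y _ => Iff.rfl⟩)
    exact hq.2
  · intro H h hs
    obtain ⟨⟨x, hx, y, hy, hxy⟩, q, h1, h2⟩ := (Phy.PLC_pf c (Fin n) _ v _).1 hs
    exact (h2 i hi j hj).1 (H q ⟨h1, x, hx, y, hy, fun h3 => hxy ((h2 x hx y hy).1 h3)⟩)

theorem horn₀_iff {c : ℚ → Bool} {n : ℕ} (R : (Fin n → Word c) → Prop) :
    Horn₀ R ↔ Phy.HornC (c := c) R := by
  constructor
  · rintro ⟨Φ, hE, hΦ⟩
    refine ⟨(fun D : Clause n => (⟨D.prem, D.concl.map (fun o => (o.1, o.2.1, o.2.2.1))⟩ :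
      Phy.Cl n)) '' Φ, fun v => (hΦ v).trans ?_⟩
    rw [Set.forall_mem_image]
    refine forall₂_congr fun D hD => ?_
    refine imp_congr Iff.rfl ?_
    have h1 := hE D hD
    rcases hc : D.concl with _ | ⟨i, j, Y, E⟩
    · exact Iff.rfl
    · obtain rfl : E = ∅ := h1 i j Y E hc
      refine Iff.trans ?_ (cholds₀_iff v i j Y).symm
      exact forall₂_congr fun q _ => ⟨fun h => h (fun e he => absurd he (Set.notMem_empty e)),
        fun h _ => h⟩
  · rintro ⟨Φ, hΦ⟩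
    refine ⟨(fun D : Phy.Cl n => (⟨D.prem, D.concl.map (fun o => (o.1, o.2.1, o.2.2, ∅))⟩ :
      Clause n)) '' Φ, ?_, fun v => (hΦ v).trans ?_⟩
    · rintro _ ⟨D, _, rfl⟩ i j Y E h
      dsimp only at h
      rcases hc : D.concl with _ | ⟨i', j', Y'⟩
      · rw [hc] at h
        exact absurd h (by simp)
      · rw [hc] at h
        have h2 := Option.some.inj h
        exact (congrArg (fun o : Fin n × Fin n × Set (Fin n) × Set (Fin n × Fin n) => o.2.2.2)
          h2).symm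
    · rw [Set.forall_mem_image]
      refine forall₂_congr fun D _ => ?_
      refine imp_congr Iff.rfl ?_
      rcases hc : D.concl with _ | ⟨i, j, Y⟩
      · exact Iff.rfl
      · refine (cholds₀_iff v i j Y).trans ?_
        exact forall₂_congr fun q _ => ⟨fun h _ => h,
          fun h => h (fun e he => absurd he (Set.notMem_empty e))⟩

/-! ### Examples -/

theorem even4_iff {c : ℚ → Bool} (v : Fin 4 → Word c) : Phy.Even4 (c := c) v ↔ Even4 v := by
  constructor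
  · intro H q hq
    exact H (fun x => (v x).1 q) ((Phy.PLC_pf c (Fin 4) _ v _).2 ⟨hq.2, q, hq.1,
      fun x _ y _ => Iff.rfl⟩)
  · intro H h hs
    obtain ⟨⟨x, hx, y, hy, hxy⟩, q, h1, h2⟩ := (Phy.PLC_pf c (Fin 4) _ v _).1 hs
    have h3 := H q ⟨h1, x, hx, y, hy, fun h3 => hxy ((h2 x hx y hy).1 h3)⟩
    have h4 : ∀ x y, (v x).1 q = (v y).1 q ↔ h x = h y := fun x y => h2 x trivial y trivial
    have e1 := h4 0 1
    have e2 := h4 0 2
    have e3 := h4 0 3
    revert h3 e1 e2 e3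
    generalize (v 0).1 q = a0
    generalize (v 1).1 q = a1
    generalize (v 2).1 q = a2
    generalize (v 3).1 q = a3
    generalize h 0 = b0
    generalize h 1 = b1
    generalize h 2 = b2
    generalize h 3 = b3
    revert a0 a1 a2 a3 b0 b1 b2 b3
    decide

theorem not_inFPC_even4 (c : ℚ → Bool) :
    ¬ InFPC (CSP (two (C3 (c := c)) (Even4 (c := c)))) := by
  intro h
  refine Full.not_inFPC_Even4 (c := c) (Bra.inFPC_congr (fun A _ 𝔄 => ?_) h)
  have he : ∀ (R : (sg₂ 3 4).S) (t : Fin ((sg₂ 3 4).ar R) → Word c),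
      (two (C3 (c := c)) (Even4 (c := c))).rel R t ↔
        (Phy.withR (Phy.Even4 (c := c))).rel R t := by
    rintro (R | R) t
    · exact Iff.rfl
    · exact (even4_iff (c := c) t).symm
  exact exists_congr fun f => forall₃_congr fun R t _ => he R (fun j => f (t j))

theorem not_inFPC_q (c : ℚ → K) (hK : ∃ a b : K, a ≠ b) : ¬ InFPC (CSP (one (Q4 (c := c)))) :=
  FK.not_inFPC_Qk FK.pk c hK

theorem not_inFPC_n [Finite K] (c : ℚ → K) (hK : ∃ a b d : K, a ≠ b ∧ b ≠ d ∧ a ≠ d) :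
    ¬ InFPC (CSP (one (N3 (c := c)))) :=
  FK.not_inFPC_Nk FK.pk c hK

theorem inFP_n (c : ℚ → ℕ) : InFP (CSP (one (N3 (c := c)))) :=
  FK.inFP_Nk FK.pk c

theorem inFP_c3 (c : ℚ → Bool) : InFP (CSP (one (C3 (c := c)))) :=
  Full.inFP_Cst (c := c)

theorem allInv_cn (c : ℚ → K) : FK.AllInv (c := c) (two (C3 (c := c)) (N3 (c := c))) := by
  rintro (R | R) v w H hv
  · exact (H.2 _ trivial _ trivial _ trivial).1 hv
  · exact (H.st (Set.mem_univ (0 : Fin 3)) (Set.mem_univ (1 : Fin 3)) (Set.mem_univ (2 : Fin 3))).1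
      (show FK.St (v (0 : Fin 3)) (v (1 : Fin 3)) (v (2 : Fin 3)) from hv)

theorem not_inFPC_cn [Finite K] (c : ℚ → K) (hK : ∃ a b d : K, a ≠ b ∧ b ≠ d ∧ a ≠ d) :
    ¬ InFPC (CSP (two (C3 (c := c)) (N3 (c := c)))) := by
  intro h
  obtain ⟨a, b, d, hab, hbd, had⟩ := hK
  obtain ⟨ι, hi, hι⟩ := Bra.IOT_pf K c ⟨a, b, hab⟩
  have hst := Bra.star_at0 c hab hbd had
  rcases FK.class_fin FK.pk (allInv_cn c) hi hι h with h1 | ⟨_, h1⟩
  · obtain ⟨e, he⟩ := h1 (Sum.inr ())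
      ⟨(![Bra.at0 c a, Bra.at0 c b, Bra.at0 c d] : Fin 3 → Word c), hst⟩
    exact he.1 rfl
  · let 𝔄 : Str (sg₂ 3 3) (Fin 3) := ⟨fun R => match R with
      | .inl _ => fun _ => False
      | .inr _ => fun t => t = fun j : Fin 3 => j⟩
    have h2 : CSP (two (C3 (c := c)) (N3 (c := c))) (Fin 3) 𝔄 := by
      refine ⟨![Bra.at0 c a, Bra.at0 c b, Bra.at0 c d], ?_⟩
      rintro (R | R) t ht
      · exact absurd ht (by simp [𝔄])
      · have ht' : t = fun j : Fin 3 => j := ht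
        rw [ht']
        exact hst
    obtain ⟨u, hu⟩ := (h1 (Fin 3) 𝔄).1 h2
    have h3 : Bra.Star (ι (u 0)) (ι (u 1)) (ι (u 2)) := hu (Sum.inr ()) (fun j : Fin 3 => j) rfl
    obtain ⟨e1, e2, e3, e4, e5, e6⟩ := h3
    exact Bra.no_star (u 0) (u 1) (u 2) ⟨fun h => e1 (congrArg ι h), fun h => e2 (congrArg ι h),
      fun h => e3 (congrArg ι h), fun h => e4 ((hι _ _ _).1 h), fun h => e5 ((hι _ _ _).1 h),
      fun h => e6 ((hι _ _ _).1 h)⟩

theorem inFP_cn (c : ℚ → ℕ) : InFP (CSP (two (C3 (c := c)) (N3 (c := c)))) := by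
  refine Om.inFP_of_hornR (c := c) (two (C3 (c := c)) (N3 (c := c))) ?_
  rintro (_ | _)
  · exact Om.hornR_CC
  · exact Om.hornR_N3

end Pool.Agent.Work.MP_8dbde4_lc.Pub
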