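import Pool.Agent.Work.MP_8dbde4_lc.FK.Rank

/-!
Statements of the block FK of MP_8dbde4_lc, first part: amalgamation, arrows, three points, blow-ups
and shapes, extension of fat arrows. Every docstring contains the proof. The facts `cc_symm`, `cc_ne`,
`cc_self`, `cc_iff_ne`, `cc_asymm`, `cc_or`, `cc_trans`, `cc_mid`, `cc_irrefl`, `cc_tri` (four cases!),
`St.swap`, `St.rot`, `SameOn...` of FK/Defs.lean and `rank` of FK/Rank.lean are proved and can be used
everywhere. Many statements are those of helper90's block Full for an arbitrary set `K` of letters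
instead of `Bool`: the proofs in Full/I_X.lean can be copied (replace `cc_tri` where it is used).

Theorem FULL_K: for every countable `K` and every structure `𝔅` of finite signature on `Word c`,
`c : ℚ → K`, with invariant relations CSP(𝔅) is in FPC iff it is in FP.
-/

set_option autoImplicit false
open Classical

namespace Pool.Agent.Work.MP_8dbde4_lc.FK

open Pool.Agent.Work.MP_8dbde4_lc.TS
open Pool.Agent.Work.MP_8dbde4_lc.Tree (Word Agr Cc)
open Pool.Agent.Work.MP_8dbde4_lc.Phy (PP Hom)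
open Pool.Agent.Work.MP_8dbde4_lc.Bra (Same InvU BinOn pull c₂)
open Pool.Agent.Work.MP_8dbde4_lc.Full (Arr NEq Cst0 BT Sub)
open Pool.Agent.Work.MP_8dbde4_lc.Full.BT

/-! ### Part A: amalgamation, arrows -/

/-- One-point extension. For finite `K` this is `Bra.OPK_pf`; for infinite `K` copy the proof of
`Om.OPW_pf` (file Om/I_OPW.lean, `K = ℕ`; only the choice of a letter which is not in a finite set of
letters depends on `K`). -/
def S_OPG : Prop := ∀ (K : Type) (c : ℚ → K) (X : Type) [Finite X] (w f : X → Word c),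
  Same w f → ∀ x : Word c, ∃ y : Word c,
    Same (fun o : Option X => o.elim x w) (fun o : Option X => o.elim y f)

/-- Amalgamation. As `Om.AMW_pf` (file Om/I_AMW.lean, `K = ℕ`), from S_OPG. -/
def S_AMG : Prop := ∀ (K : Type) (c : ℚ → K) (X W : Type) [Finite X] [Finite W] (w : X → Word c)
  (a : W → Word c) (b : W → X), Same a (fun k => w (b k)) →
  ∃ g : X → Word c, Same w g ∧ ∀ k, g (b k) = a k

/-- Primitive positive definable sets are invariant. As `Full/I_IN2.lean`, from S_AMG. -/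
def S_IN : Prop := ∀ (K : Type) (c : ℚ → K) (σ : Sig) (𝔅 : Str σ (Word c)), AllInv 𝔅 →
  ∀ (X : Type) [Finite X] (S : (X → Word c) → Prop), PP 𝔅 S → Inv S

/-- Arrows. As `Full/I_ARR.lean`, from S_IN and `Phy.PPB_pf`. (1) Same splits. (2) Restriction. (3) The
arrows from `v` form a PP set. (4) Extension. (5), (6) equalities and disequalities are preserved. -/
def S_ARR : Prop := ∀ (K : Type) (c : ℚ → K) (σ : Sig) (𝔅 : Str σ (Word c)), AllInv 𝔅 →
  (∀ (X : Type) [Finite X] (v w : X → Word c), SameOn Set.univ v w → Arr 𝔅 v w) ∧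
  (∀ (X Y : Type) [Finite X] (e : Y → X) (v w : X → Word c), Arr 𝔅 v w →
    Arr 𝔅 (fun y => v (e y)) (fun y => w (e y))) ∧
  (∀ (X : Type) [Finite X] (v : X → Word c), PP 𝔅 (fun u => Arr 𝔅 v u)) ∧
  (∀ (X X' : Type) [Finite X'] (i : X → X') (v' : X' → Word c) (w : X → Word c),
    Arr 𝔅 (fun x => v' (i x)) w → ∃ w' : X' → Word c, (∀ x, w' (i x) = w x) ∧ Arr 𝔅 v' w') ∧
  (∀ (X : Type) [Finite X] (v w : X → Word c) (x y : X), Arr 𝔅 v w → v x = v y → w x = w y) ∧
  (NEq 𝔅 → ∀ (X : Type) [Finite X] (v w : X → Word c) (x y : X), Arr 𝔅 v w → v x ≠ v y →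
    w x ≠ w y)

/-- If disequality is not PP then every nonempty relation contains a constant tuple. As
`Full/I_NEC.lean`. -/
def S_NEC : Prop := ∀ (K : Type) (c : ℚ → K) (σ : Sig) (𝔅 : Str σ (Word c)), AllInv 𝔅 →
  ¬ NEq 𝔅 → Cst0 𝔅

/-- Types of three points and existence. (1), (2): for injective triples the splits are determined by
the three relations `Cc (v i) (v j) (v k)`, `i, j, k` different (the others are trivial: `cc_self`,
`cc_irrefl`). (3), (4): change the letter of `c` at the place `0` (three different letters), resp. at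
the places `0` and `1`. (5) A tuple has a further word above all its words: change a letter of one
of them (or of `c`) at a place below all the places where one of the words differs from `c`. (6) A
further word very close to `v x`: change a letter of `v x` at a place above all these places. -/
def S_TY3 : Prop := ∀ (K : Type) (c : ℚ → K),
  (∀ v w : Fin 3 → Word c, Function.Injective v → Function.Injective w →
    St (v 0) (v 1) (v 2) → St (w 0) (w 1) (w 2) → SameOn Set.univ v w) ∧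
  (∀ v w : Fin 3 → Word c, Function.Injective v → Function.Injective w →
    Cc (v 0) (v 1) (v 2) → Cc (w 0) (w 1) (w 2) → SameOn Set.univ v w) ∧
  ((∃ a b d : K, a ≠ b ∧ a ≠ d ∧ b ≠ d) → ∃ v : Fin 3 → Word c, Function.Injective v ∧
    St (v 0) (v 1) (v 2)) ∧
  ((∃ a b : K, a ≠ b) → ∃ v : Fin 3 → Word c, Function.Injective v ∧ Cc (v 0) (v 1) (v 2)) ∧
  ((∃ a b : K, a ≠ b) → ∀ (X : Type) [Finite X] (v : X → Word c), ∃ t : Word c,
    ∀ x y, Cc t (v x) (v y)) ∧
  ((∃ a b : K, a ≠ b) → ∀ (X : Type) [Finite X] (v : X → Word c) (x : X), ∃ t : Word c,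
    t ≠ v x ∧ ∀ y, v y ≠ v x → Cc (v y) t (v x))

/-- Iteration. Each part is a well-founded induction on the number of elements of a finite set of
triples or quadruples of coordinates (in (2), (4) of its complement). `Arr.trans`. -/
def S_ITR : Prop := ∀ (K : Type) (c : ℚ → K) (σ : Sig) (𝔅 : Str σ (Word c)),
  ((∀ (X : Type) [Finite X] (v : X → Word c), Function.Injective v →
    (∃ x y z, St (v x) (v y) (v z)) → ∃ w : X → Word c, Function.Injective w ∧ Arr 𝔅 v w ∧
      (∀ x y z, St (w x) (w y) (w z) → St (v x) (v y) (v z)) ∧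
      ∃ x y z, St (v x) (v y) (v z) ∧ ¬ St (w x) (w y) (w z)) → BB 𝔅) ∧
  ((∀ (X : Type) [Finite X] (v : X → Word c), Function.Injective v → ¬ StarT v →
    ∃ w : X → Word c, Function.Injective w ∧ Arr 𝔅 v w ∧
      (∀ x y z, St (v x) (v y) (v z) → St (w x) (w y) (w z)) ∧
      ∃ x y z, St (w x) (w y) (w z) ∧ ¬ St (v x) (v y) (v z)) → SS 𝔅) ∧
  ((∀ (X : Type) [Finite X] (v : X → Word c), Function.Injective v →
    (∃ x y z t, Xr (v x) (v y) (v z) (v t)) → ∃ w : X → Word c, Function.Injective w ∧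
      Arr 𝔅 v w ∧ (∀ x y z t, Xr (w x) (w y) (w z) (w t) → Xr (v x) (v y) (v z) (v t)) ∧
      ∃ x y z t, Xr (v x) (v y) (v z) (v t) ∧ ¬ Xr (w x) (w y) (w z) (w t)) →
    ∀ (X : Type) [Finite X] (v : X → Word c), Function.Injective v → ∃ w : X → Word c,
      Function.Injective w ∧ Arr 𝔅 v w ∧ ∀ x y z t, ¬ Xr (w x) (w y) (w z) (w t)) ∧
  ((∀ (X : Type) [Finite X] (v : X → Word c), Function.Injective v →
    (∃ x y z t, Qr (v x) (v y) (v z) (v t)) → ∃ w : X → Word c, Function.Injective w ∧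
      Arr 𝔅 v w ∧ (∀ x y z t, Xr (v x) (v y) (v z) (v t) → Xr (w x) (w y) (w z) (w t)) ∧
      ∃ x y z t, Xr (w x) (w y) (w z) (w t) ∧ ¬ Xr (v x) (v y) (v z) (v t)) →
    ∀ (X : Type) [Finite X] (v : X → Word c), Function.Injective v → ∃ w : X → Word c,
      Function.Injective w ∧ Arr 𝔅 v w ∧ ∀ x y z t, ¬ Qr (w x) (w y) (w z) (w t))

/-- Adding points one after the other. Induction on the number of elements of `X` (`Option X`): map
`v ∘ some` to a binary tuple (resp. a tuple without `Xr`), extend this to `none` (S_ARR (4); it is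
injective by S_ARR (6)), and use the hypothesis. If `X` is empty take `w = v`. For a nonempty finite `X`
use a bijection with some `Option X'` (S_ARR (2)). -/
def S_IND : Prop := ∀ (K : Type) (c : ℚ → K) (σ : Sig) (𝔅 : Str σ (Word c)), AllInv 𝔅 → NEq 𝔅 →
  ((∀ (X : Type) [Finite X] (v : Option X → Word c), Function.Injective v →
    Bin Set.univ (fun x => v (some x)) → ∃ w : Option X → Word c, Function.Injective w ∧
      Arr 𝔅 v w ∧ Bin Set.univ w) → BB 𝔅) ∧
  ((∀ (X : Type) [Finite X] (v : Option X → Word c), Function.Injective v →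
    (∀ x y z t, ¬ Xr (v (some x)) (v (some y)) (v (some z)) (v (some t))) →
    ∃ w : Option X → Word c, Function.Injective w ∧ Arr 𝔅 v w ∧
      ∀ x y z t, ¬ Xr (w x) (w y) (w z) (w t)) →
    ∀ (X : Type) [Finite X] (v : X → Word c), Function.Injective v → ∃ w : X → Word c,
      Function.Injective w ∧ Arr 𝔅 v w ∧ ∀ x y z t, ¬ Xr (w x) (w y) (w z) (w t))

/-- Three points. All the tuples are injective (S_ARR (6)); S_ARR (2), (1) and S_TY3 are used to change
coordinates. (1) There is an arrow from a triple `v` with `Cc (v 0) (v 1) (v 2)` to a triple `w` without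
`Cc (w 0) (w 1) (w 2)`: otherwise `C3` is PP (as in `Full/I_E3.lean`). (2) If there is no arrow from a
star to a non-star: then there is an arrow from a non-star to a star. For `w` in (1) is a star or
(exchange 1 and 2) `Cc (w 1) (w 0) (w 2)`; in the second case take four words `z, x, y, a` with
`St x y a` and `Cc z x y`, `Cc z x a`, `Cc z y a` (S_TY3 (3), (5)); the arrow on `z, x, y` (types `v`, `w`)
extends to `a` (S_ARR (4)): `z', x', y', a'` with `Cc x' z' y'` and `St x' y' a'` (hypothesis); then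
`St x' z' a'` (`Cc x' z' a'` and `cc_trans` give `Cc x' y' a'`; `Cc z' x' a'`: `cc_or` with `y'` gives
`Cc z' x' y'`, excluded by `cc_asymm`, or `Cc y' x' a'`; `Cc a' x' z'`: `cc_or` with `y'` gives
`Cc a' x' y'` or `Cc y' x' z'`, excluded), while `Cc z x a`. Then SS by S_ITR (2): if `v` is injective and
not `StarT` there are `x, y, z` with `Cc (v z) (v x) (v y)`, `v x ≠ v y`; map `![z, x, y]` to a star and
extend (S_ARR (4)). (3) Otherwise there is an arrow from a star to a non-star. If there is none from a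
non-star to a star: BB by S_ITR (1) in the same way. (4) If there are both: since stars are symmetric
there are arrows from every star to every non-star and vice versa, and E3 follows (`Arr.trans`). -/
def S_T0 : Prop := ∀ (K : Type) (c : ℚ → K) (σ : Sig) (𝔅 : Str σ (Word c)),
  (∃ a b d : K, a ≠ b ∧ a ≠ d ∧ b ≠ d) → AllInv 𝔅 → NEq 𝔅 → ¬ PP 𝔅 (C3 (c := c)) →
  BB 𝔅 ∨ SS 𝔅 ∨ E3 𝔅

/-! ### Part B: blow-ups and shapes -/

/-- Blow-ups exist, with arbitrary blocks. As `Full/I_BLW.lean`. -/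
def S_BLW : Prop := ∀ (K : Type) (c : ℚ → K) (X Y : Type) [Finite X] [Finite Y] (π : Y → X)
  (v : X → Word c) (u : Y → Word c), Function.Injective v →
  (∀ y y', π y = π y' → u y = u y' → y = y') →
  ∃ v' : Y → Word c, Function.Injective v' ∧ Bl π v v' ∧ ∀ x, SameOn {y | π y = x} u v'

/-- Facts on blow-ups. (1)-(4) as `Full/I_BLF.lean`. (5) If `v` is binary and the blocks are binary then
`v'` is binary: three coordinates in one block; two in one block: `Cc (v' y'') (v' y) (v' y')` by `Bl`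
(`cc_self`); in three blocks: `Bl`. (6) is the same for one block of a composition: star triples in
the block `{z | π (ρ z) = x}` of `v''` are in one block of `ρ`, or have three different `ρ z` and give a
star in the block of `v'`. -/
def S_BLF : Prop := ∀ (K : Type) (c : ℚ → K) (X Y : Type) (π : Y → X) (v : X → Word c)
  (v' : Y → Word c), Function.Injective v → Function.Injective v' → Bl π v v' →
  (Function.Injective π → SameOn Set.univ (fun y => v (π y)) v') ∧
  (∀ (Z : Type) (ρ : Z → Y) (v'' : Z → Word c), Bl ρ v' v'' → Bl (fun z => π (ρ z)) v v'') ∧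
  (∀ v'' : Y → Word c, Function.Injective v'' → Bl π v v'' →
    (∀ x, SameOn {y | π y = x} v' v'') → SameOn Set.univ v' v'') ∧
  (∀ s : X → Y, (∀ x, π (s x) = x) → SameOn Set.univ v (fun x => v' (s x))) ∧
  (Bin Set.univ v → (∀ x, Bin {y | π y = x} v') → Bin Set.univ v') ∧
  (∀ (Z : Type) (ρ : Z → Y) (v'' : Z → Word c), Function.Injective v'' → Bl ρ v' v'' →
    (∀ x, Bin {y | π y = x} v') → (∀ y, Bin {z | ρ z = y} v'') →
    ∀ x, Bin {z | π (ρ z) = x} v'')

/-- Facts on shapes. (1)-(7) as `Full/I_SHF.lean` ((1) injectivity, (2), (3) shapes and splits, (4)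
renaming, (5) mirror image, (6), (7) deletion of leaves). (8) Tuples with a shape are binary on the
leaves: induction; three leaves not on one side: `Sep`. -/
def S_SHF : Prop := ∀ (K : Type) (c : ℚ → K) (X : Type) (T : BT X),
  (∀ v : X → Word c, Sh v T → T.lvs.Nodup ∧ Set.InjOn v {x | x ∈ T.lvs}) ∧
  (∀ v w : X → Word c, Sh v T → Sh w T → SameOn {x | x ∈ T.lvs} v w) ∧
  (∀ v w : X → Word c, Sh v T → SameOn {x | x ∈ T.lvs} v w → Sh w T) ∧
  (∀ (Y : Type) (e : X → Y) (v : Y → Word c), Sh v (T.map e) ↔ Sh (fun x => v (e x)) T) ∧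
  (∀ v : X → Word c, (Sh v T.mir ↔ Sh v T) ∧ T.mir.lvs = T.lvs.reverse) ∧
  (∀ (t : BT X) (v : X → Word c), Sub t T → Sh v T → Sh v t) ∧
  (∀ t : BT X, Sub t T → List.Sublist t.lvs T.lvs) ∧
  (∀ v : X → Word c, Sh v T → Bin {x | x ∈ T.lvs} v)

/-- Shapes exist. (1) From `Full.SHX_ok` (two letters) and `Bra.IOT_pf` (an embedding `ι` of
`Word c₂`): `v = ι ∘ v₂`. (2) `Bra.EMB_pf` (with `bin_iff`) on the subtype `Y`: a tuple `u : Y → Word c₂`
with the same splits; `Full.SHX_ok` (2) for `u` and `Set.univ`; rename the leaves by the inclusion of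
`Y` in `X`. (3) Combs exist: `z x` is `c` changed at the place which is the position of `x` in `ℓ`. -/
def S_SHX : Prop := ∀ (K : Type) (c : ℚ → K) (X : Type) [Finite X],
  ((∃ a b : K, a ≠ b) → ∀ T : BT X, T.lvs.Nodup → ∃ v : X → Word c, Sh v T) ∧
  (∀ (v : X → Word c) (Y : Set X), Y.Nonempty → Set.InjOn v Y → Bin Y v →
    ∃ T : BT X, (∀ x, x ∈ T.lvs ↔ x ∈ Y) ∧ Sh v T) ∧
  ((∃ a b : K, a ≠ b) → ∀ ℓ : List X, ℓ.Nodup → (∀ x, x ∈ ℓ) → ∃ z : X → Word c,
    Function.Injective z ∧ CombL z ℓ)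

/-- The behaviour on three leaves: `i = 0, 1, 2` splits off from the other two, `i = 3` is a star. -/
def Beh {K : Type} {c : ℚ → K} {Λ : Type} (w : Λ → Word c) (i : Fin 4) (a b d : Λ) : Prop :=
  match i with
  | 0 => Cc (w a) (w b) (w d)
  | 1 => Cc (w b) (w a) (w d)
  | 2 => Cc (w d) (w a) (w b)
  | 3 => St (w a) (w b) (w d)

/-- Constant behaviour on triples of a complete binary tree: `i` on the subtrees `(a b) d` and `j` on
the subtrees `a (b d)`. As `Full/I_BEH.lean`: `i = 1` is excluded by `((a b) d) e`, `j = 1` by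
`a (b (d e))`, `(0, 2)` by `(a b) (d e)` (there). New: `(0, 3)`: `(a b) (d e)`: `Cc a b d`, `Cc a b e`, so
`Cc a d e`, contradiction to `St a d e`. `(3, 2)`: `Cc e a d`, `Cc e b d`, so `Cc e a b`, contradiction to
`St a b e`. `(2, 3)`: `a ((b d) e)`: `Cc e b d`, `cc_or` with `a`: `Cc e b a` or `Cc a b d`, contradiction
to `St a b e`, `St a b d`. `(3, 0)`: `(a (b d)) e`: `Cc a b d`, `cc_or` with `e`: `Cc a b e` or `Cc e b d`,
contradiction to `St a b e`, `St b d e`. So `(i, j)` is `(2, 0)`, `(0, 0)`, `(2, 2)` or `(3, 3)`. In the last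
case any three leaves `a, b, d` in this order form a subtree of one of the two shapes, so a star. -/
def S_BEH : Prop := ∀ (K : Type) (c : ℚ → K) (Λ : Type) (z : BT Λ) (w : Λ → Word c) (n : ℕ)
  (i j : Fin 4), 3 ≤ n → z.Cpl n → z.lvs.Nodup → Set.InjOn w {x | x ∈ z.lvs} →
  (∀ a b d, Sub (nd (nd (lf a) (lf b)) (lf d)) z → Beh w i a b d) →
  (∀ a b d, Sub (nd (lf a) (nd (lf b) (lf d))) z → Beh w j a b d) →
  Sh w z ∨ CombL w z.lvs ∨ CombL w z.lvs.reverse ∨ StL w z.lvs

/-- Canonical behaviour for finitely many letters. As `Full/I_CAN.lean`, with four colours, from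
`Full.RAM_ok` (four colours), `Full.SUB_ok`, S_BEH, S_SHF. The case `StL`: a complete tree of depth `m` has
`2 ^ m` leaves; different letters of the star at the place where the leaves split: at most
`Nat.card K` leaves; take the depth such that `2 ^ m > Nat.card K`. (`rank` or: fix the place `q` where
two of the words split; all the words agree below `q` and have different letters at `q`.) -/
def S_CAN : Prop := ∀ (K : Type) [Finite K] (n : ℕ), ∃ N : ℕ, ∀ (c : ℚ → K) (Λ : Type) (y : BT Λ)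
  (w : Λ → Word c), y.Cpl N → y.lvs.Nodup → Set.InjOn w {x | x ∈ y.lvs} →
  ∃ z, Sub z y ∧ z.Cpl n ∧ (Sh w z ∨ CombL w z.lvs ∨ CombL w z.lvs.reverse)

/-- As `Full/I_TP1.lean`. -/
def S_TP1 : Prop := ∀ (K : Type) (c : ℚ → K) (Λ : Type) (w : Λ → Word c) (l r : BT Λ)
  (b : Word c), Sh w (nd l r) → (∀ a ∈ l.lvs, ∀ a' ∈ l.lvs, Cc b (w a) (w a')) ∨
    (∀ a ∈ r.lvs, ∀ a' ∈ r.lvs, Cc b (w a) (w a'))

/-- As `Full/I_TP2.lean` (and `Full.LPH_ok`, `Full.SUB_ok`). -/
def S_TP2 : Prop := ∀ (K : Type) (c : ℚ → K) (Λ : Type) (w : Λ → Word c) (T H : BT Λ) (k m : ℕ),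
  T.Cpl (k + 1) → H.Cpl (2 * m + 2) → Sh w T → Sh w H → ∃ T' H', Sub T' T ∧ Sub H' H ∧
    T'.Cpl k ∧ H'.Cpl m ∧ (∀ a ∈ T'.lvs, ∀ a' ∈ T'.lvs, ∀ b ∈ H'.lvs, Cc (w b) (w a) (w a')) ∧
    ∀ a ∈ T'.lvs, ∀ b ∈ H'.lvs, ∀ b' ∈ H'.lvs, Cc (w a) (w b) (w b')

/-- As `Full/I_THN.lean`. -/
def S_THN : Prop := ∀ (X : Type) [Finite X] (n : ℕ), ∃ N : ℕ, ∀ (K : Type) (c : ℚ → K) (Λ : Type)
  (w : Λ → Word c) (F : Set X) (T : X → BT Λ) (H : BT Λ), (∀ x ∈ F, (T x).Cpl (n + 1)) →
  (∀ x, Sh w (T x)) → H.Cpl N → Sh w H → (∀ x, ∀ a ∈ (T x).lvs, ∀ b ∈ H.lvs, w a ≠ w b) →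
  ∃ (T' : X → BT Λ) (H' : BT Λ), (∀ x, Sub (T' x) (T x)) ∧ Sub H' H ∧ (∀ x ∈ F, (T' x).Cpl n) ∧
    (∀ x, x ∉ F → ∃ a, T' x = lf a) ∧ H'.Cpl n ∧
    (∀ x, ∀ a ∈ (T' x).lvs, ∀ a' ∈ (T' x).lvs, ∀ b ∈ H'.lvs, Cc (w b) (w a) (w a')) ∧
    (∀ x, ∀ a ∈ (T' x).lvs, ∀ b ∈ H'.lvs, ∀ b' ∈ H'.lvs, Cc (w a) (w b) (w b'))

/-- If `LIN` fails then no arrow maps large complete trees to combs. As `Full/I_NLN.lean`. -/
def S_NLN : Prop := ∀ (K : Type) (c : ℚ → K) (σ : Sig) (𝔅 : Str σ (Word c)), AllInv 𝔅 →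
  ¬ LIN 𝔅 → ∃ n₀ : ℕ, ∀ (Λ : Type) [Finite Λ] (y : BT Λ) (v w : Λ → Word c), y.Cpl n₀ →
    Sh v y → Arr 𝔅 v w → ¬ CombL w y.lvs ∧ ¬ CombL w y.lvs.reverse

/-! ### Part F: fat arrows -/

/-- Facts on fat arrows (all injective), as `Full/I_FAT.lean`. (1) `π = id` (one-element blocks are
binary: the words of a star are different). (2) From `Arr`. (3) Composition. (4) Smaller `F`. (5) Same
splits. (6) Restriction. (7) Substitution: the blocks of the composition are binary by S_BLF (6). -/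
def S_FAT : Prop := ∀ (K : Type) (c : ℚ → K) (σ : Sig) (ω : Prop) (𝔅 : Str σ (Word c)),
  AllInv 𝔅 → ∀ (X : Type) [Finite X] (F : Set X) (v w : X → Word c), Function.Injective v →
    Function.Injective w →
  (Fat ω 𝔅 F v w → Arr 𝔅 v w) ∧ (Arr 𝔅 v w → Fat ω 𝔅 ∅ v w) ∧
  (∀ u : X → Word c, Function.Injective u → Fat ω 𝔅 F v u → Fat ω 𝔅 F u w → Fat ω 𝔅 F v w) ∧
  (∀ F' ⊆ F, Fat ω 𝔅 F v w → Fat ω 𝔅 F' v w) ∧
  (∀ v₁ w₁ : X → Word c, SameOn Set.univ v v₁ → SameOn Set.univ w w₁ → Fat ω 𝔅 F v w →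
    Fat ω 𝔅 F v₁ w₁) ∧
  (∀ (X₀ : Type) (i : X₀ → X), Function.Injective i → Fat ω 𝔅 F v w →
    Fat ω 𝔅 {x | i x ∈ F} (fun x => v (i x)) (fun x => w (i x))) ∧
  (∀ (Y : Type) [Finite Y] (π : Y → X) (v' w' : Y → Word c) (F' : Set Y),
    (∀ y y', π y = π y' → π y ∉ F → y = y') → (∀ y ∈ F', π y ∈ F) → Function.Injective v' →
    Function.Injective w' → (ω ∨ ∀ x, Bin {y | π y = x} v') → Bl π v v' → Bl π w w' →
    (∀ x, SameOn {y | π y = x} v' w') → Fat ω 𝔅 F v w → Fat ω 𝔅 F' v' w')

/-- Arrows between blow-ups with complete binary trees of all depths suffice (for `ω = False`). As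
`Full/I_NFF.lean`; the blocks are binary, so they have shapes (S_SHX (2)). -/
def S_NFF : Prop := ∀ (K : Type) (c : ℚ → K) (σ : Sig) (𝔅 : Str σ (Word c)), AllInv 𝔅 →
  ∀ (X : Type) [Finite X] (F : Set X) (v w : X → Word c), Function.Injective v →
    Function.Injective w → (∀ n, NF 𝔅 n F v w) → Fat False 𝔅 F v w

/-- One step of the extension, for finitely many letters. As `Full/I_EXN.lean`, from S_ARR, S_BLW, S_BLF,
S_SHF, S_SHX, `Full.SUB_ok`, S_CAN, S_THN, S_NLN, S_AMG (here the hypothesis `Bin` of `Fat` holds because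
the blocks have binary shapes, S_SHF (8)). -/
def S_EXN : Prop := ∀ (K : Type) [Finite K] (c : ℚ → K) (σ : Sig) (𝔅 : Str σ (Word c)),
  (∃ a b : K, a ≠ b) → AllInv 𝔅 → NEq 𝔅 → ¬ LIN 𝔅 → ∀ (X : Type) [Finite X] (F : Set X)
  (v w : X → Word c), Function.Injective v → Function.Injective w → Fat False 𝔅 F v w →
  ∀ v' : Option X → Word c, Function.Injective v' → (∀ x, v' (some x) = v x) → ∀ n : ℕ,
  ∃ w' : Option X → Word c, Function.Injective w' ∧ (∀ x, w' (some x) = w x) ∧
    NF 𝔅 n {o | ∀ x, o = some x → x ∈ F} v' w'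

/-- The extension property for finitely many letters. As `Full/I_EXT2.lean`. -/
def S_EXT : Prop := ∀ (K : Type) [Finite K] (c : ℚ → K) (σ : Sig) (𝔅 : Str σ (Word c)),
  (∃ a b : K, a ≠ b) → AllInv 𝔅 → NEq 𝔅 → ¬ LIN 𝔅 → Ext False 𝔅

/-- Extension along an injective map. First the version `X ⊕ P` as `Full/I_EXM.lean` (induction on
`P`, S_FAT (6), (4)); then for `e : X → X'` use a bijection of `X'` with `X ⊕ {x' // x' ∉ range e}` (S_FAT (6),
(4) for bijections). -/
def S_EXM : Prop := ∀ (K : Type) (c : ℚ → K) (σ : Sig) (ω : Prop) (𝔅 : Str σ (Word c)),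
  AllInv 𝔅 → Ext ω 𝔅 → ∀ (X X' : Type) [Finite X] [Finite X'] (e : X → X') (F : Set X)
  (v : X' → Word c) (w : X → Word c), Function.Injective e → Function.Injective v →
  Function.Injective w → Fat ω 𝔅 F (fun x => v (e x)) w →
  ∃ w' : X' → Word c, Function.Injective w' ∧ (∀ x, w' (e x) = w x) ∧
    Fat ω 𝔅 {x' | ∀ x, e x = x' → x ∈ F} v w'

/-- Binary tuples can be mapped to combs if `LIN` holds: S_SHX (2) (shape `T`; if `X` is empty take
`z = v`, `ℓ = []`), S_SHX (3) (`ℓ = T.lvs`, without repetition by S_SHF (1)). -/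
def S_LLC : Prop := ∀ (K : Type) (c : ℚ → K) (σ : Sig) (𝔅 : Str σ (Word c)),
  (∃ a b : K, a ≠ b) → AllInv 𝔅 → LIN 𝔅 → LINC 𝔅

/-- If binary tuples can be mapped to combs then all tuples can be mapped to binary tuples. By S_IND (1)
let `v : Option X → Word c` be injective with `v ∘ some` binary. Let `Y = Option (X × Bool)`,
`π : Y → Option X` (`π none = none`, `π (some (x, b)) = some x`), `v⁺` a blow-up of `v` along `π`
(S_BLW; for `u` take for example `u (some (x, b)) = if b then v none else v (some x)`). `v⁺` is binary on the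
coordinates `some _` (S_BLF (5) for the restriction, two-element blocks are binary). `LINC` maps
`v⁺ ∘ some` to a comb `z` along `ℓ`; S_ARR (4) extends this: `w⁺` on `Y`, injective by S_ARR (6). Claim:
there is `y₀` such that all the stars of `w⁺` contain `none` and `some y₀` (if there is any): a star in
the comb is impossible (`CombL`: for three different members of `ℓ` the first one splits off); so every
star is, up to the order, `none, some y, some y'`, with `y` before `y'` in `ℓ`; let `none, some y, some y'` and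
`none, some t, some t'` be two of them (`y` before `y'`, `t` before `t'`), and suppose `y ≠ t`, say `y`
before `t`. Then `Cc y y' t`, `Cc y y' t'` (`CombL`), and `cc_or` with `none`: `Cc y y' none`, excluded by the
star, or `Cc none y' t`; so `Cc none y' t`, `Cc none y' t'`, so `Cc none t t'` (`cc_trans`), contradiction
to the star `none, t, t'`. Choose `s : X → X × Bool`, `s x = (x, b)`, with `s x ≠ y₀` for all `x`. `w` =
`w⁺ ∘ (Option.map s)` is binary; `v` has the splits of `v⁺ ∘ (Option.map s)` (S_BLF (4)); S_ARR (1), (2). -/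
def S_LBB : Prop := ∀ (K : Type) (c : ℚ → K) (σ : Sig) (𝔅 : Str σ (Word c)), AllInv 𝔅 → NEq 𝔅 →
  LINC 𝔅 → BB 𝔅

end Pool.Agent.Work.MP_8dbde4_lc.FK
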