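import Pool.Agent.Work.MP_8dbde4_lc.FK.StmtsA

/-!
Statements of the block FK of MP_8dbde4_lc, second part: the classification of the arrows for at least
three letters. Every docstring contains the proof. `Ext ω` and the facts S_FAT, S_EXM hold for every `ω`.
-/

set_option autoImplicit false
open Classical

namespace Pool.Agent.Work.MP_8dbde4_lc.FK

open Pool.Agent.Work.MP_8dbde4_lc.TS
open Pool.Agent.Work.MP_8dbde4_lc.Tree (Word Agr Cc)
open Pool.Agent.Work.MP_8dbde4_lc.Phy (PP Hom)
open Pool.Agent.Work.MP_8dbde4_lc.Bra (Same InvU BinOn pull c₂)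
open Pool.Agent.Work.MP_8dbde4_lc.Full (Arr NEq Cst0 BT Sub)
open Pool.Agent.Work.MP_8dbde4_lc.Full.BT

/-! ### Part C: fat triples -/

/-- Fat arrows between triples. Let (N) be: some fat arrow (`F = univ`) maps a star (`Fin 3`) to a
non-star, (C): some fat arrow maps a non-star to a star. By S_FAT (5), (6), S_TY3 (coordinates can be
permuted, types replaced) (N) gives a fat arrow from every star to a non-star, (C) one from every
non-star to a star. (N) and not (C): BB by S_ITR (1): if `St (v x) (v y) (v z)` take the arrow for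
`v ∘ ![x, y, z]`, extend it by S_EXM (`F = univ`) to `w`; a star in `w` at `a, b, d` is a star in `v`:
otherwise restrict (S_FAT (6)) to `![a, b, d]`, which contradicts not (C). (C) and not (N): SS by S_ITR (2)
in the same way. (N) and (C): F3 (all stars to all non-stars: a star goes to some non-star, and by
permutations to all; S_FAT (3)). Neither: suppose that a fat arrow on `Fin 3` changes the splits, so
(permuting) it maps `Cc 0 1 2` to `Cc 1 0 2`. Take words `z, x, y, a` with `St x y a` and `z` above them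
(S_TY3 (3), (5)), extend the arrow for `![z, x, y]` to `a` (S_EXM): `Cc x' z' y'` and, by not (N),
`St x' y' a'`; so `St x' z' a'` (see S_T0), while `Cc z x a`: a fat arrow from a non-star to a star,
contradiction to not (C). So fat arrows keep the splits of fat triples: Rg3 (S_FAT (6); triples with
equal coordinates are trivial). -/
def S_T1 : Prop := ∀ (K : Type) (c : ℚ → K) (σ : Sig) (ω : Prop) (𝔅 : Str σ (Word c)),
  (∃ a b d : K, a ≠ b ∧ a ≠ d ∧ b ≠ d) → AllInv 𝔅 → NEq 𝔅 → Ext ω 𝔅 →
  BB 𝔅 ∨ SS 𝔅 ∨ F3 ω 𝔅 ∨ Rg3 ω 𝔅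

/-- Three points, one of them not fat. The proof of `Full/I_VD.lean` (which gives `D1` or `D2` there by
`cc_tri`; here we stop one step before). -/
def S_VD : Prop := ∀ (K : Type) (c : ℚ → K) (σ : Sig) (ω : Prop) (𝔅 : Str σ (Word c)),
  (∃ a b : K, a ≠ b) → AllInv 𝔅 → E3 𝔅 → Ext ω 𝔅 →
  ∃ v w : Fin 3 → Word c, Function.Injective v ∧ Function.Injective w ∧ Fat ω 𝔅 {1, 2} v w ∧
    Cc (v 2) (v 0) (v 1) ∧ ¬ Cc (w 2) (w 0) (w 1)

/-- A point `none` moves away from its branch point into the branch of `x`; the other points form a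
binary tree. (`C'` and `C` agree on the other points, which have no stars.) Facts for `C'`: let
`AS C' none s t`. Claim `C' y none s`. Otherwise `or` for `C' y none x` and `s` gives `C' s none x`;
`or` for this and `t`: `C' s none t` is excluded by the star, so `C' t none x`; then `AS C' x s t`
(`none` and `x` are together relative to `s` and to `t`), contradiction (stars of `some`-points). So
`s ≠ y` (`C y none y` is impossible by `asymm`/`irrefl`); and `C' y none s`, `C' y none x` give
`C' y s x`, so `C y s x`, and with `AS C none x y`: `AS C none s y` (if `s = x` trivial). So the second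
set contains `s`, and it contains `y` (`t = x`), the first one does not. (First derive from the properties of `CRel`:
`irrefl : ¬ C x x y`, `trans : C z x y → C z y w → C z x w`, `mid` as for `Cc`.) -/
def S_MOVE : Prop := ∀ (X : Type) (C C' : Option X → Option X → Option X → Prop), CRel C →
  CRel C' → (∀ x y z : X, C (some z) (some x) (some y) ↔ C' (some z) (some x) (some y)) →
  (∀ x y z : X, ¬ AS C (some x) (some y) (some z)) → ∀ x y : X, AS C none (some x) (some y) →
  C' (some y) none (some x) →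
  {s : X | ∃ t : X, AS C' none (some s) (some t)} ⊂ {s : X | ∃ t : X, AS C none (some s) (some t)}

/-- If a point which is not fat can leave a star then all tuples can be mapped to binary tuples. Let
`v₀`, `w₀` be the given arrow. By S_IND (1) let `v : Option X → Word c` be injective, `v ∘ some` binary.
Case A: `Cc (w₀ 0) (w₀ 1) (w₀ 2)`. (A1) There is a fat arrow (fat points 1, 2) from every triple with
`Cc 2 0 1` to one with `Cc 0 1 2`: take words `0, 1, 2, 3` with `St 1 2 3` and `0` very close to `1`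
(S_TY3 (3), (6)), so `Cc 2 0 1`, `Cc 3 0 1` and `St 0 2 3`. The arrow for `![0, 2, 3]` (`v₀`, S_TY3 (1)) extends
to `1` (fat) by S_EXM; `St 1' 2' 3'` by Rg3, `Cc 0' 2' 3'`; `cc_or` with `1'`: `Cc 0' 2' 1'` (the other one
contradicts the star). Restrict to `![0, 1, 2]`. (A2) Let `X` have two elements (otherwise `v` is
binary). Choose `x ≠ y` in `X` such that the number of `t` with `Cc t x y` is minimal; then there is no
such `t` (if `Cc t x y` then `Cc s t x` implies `Cc s x y`: `cc_or` with `y`, and `t` itself does not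
satisfy `Cc t t x`). If `Cc none x y`, or after an arrow with `none` not fat and all others fat: `w` with
`Cc none x y` (from `St none x y` by `v₀ → w₀`, from `Cc y none x` by (A1), from `Cc x none y` by (A1) for
`![none, y, x]`; S_EXM), and by Rg3 the splits of `w` and `v` on `some` agree. So `Cc none t t'` for all
`t, t'` (`cc_or` for `Cc none x y` and `t`: `Cc none x t` or `Cc t x y`, the latter is impossible). `w` is
binary. Case B: otherwise (exchange 1 and 2, `v₀` is a star) `Cc (w₀ 2) (w₀ 0) (w₀ 1)`. Induction on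
the number of elements of `{s : X | ∃ t : X, St (v none) (v s) (v t)}`. If it is empty `v` is binary.
Otherwise let `St none x y`; the arrow `v₀ → w₀` for `![none, x, y]` extends (S_EXM) to `w` with
`Cc y none x` and (Rg3) the same splits on `some`; by S_MOVE (for `C z x y := Cc (v z) (v x) (v y)`, `C'` the
same with `w`) the set is smaller for `w`, `w ∘ some` is binary; `Arr.trans`. -/
def S_NM : Prop := ∀ (K : Type) (c : ℚ → K) (σ : Sig) (ω : Prop) (𝔅 : Str σ (Word c)),
  (∃ a b d : K, a ≠ b ∧ a ≠ d ∧ b ≠ d) → AllInv 𝔅 → NEq 𝔅 → Ext ω 𝔅 → Rg3 ω 𝔅 →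
  (∃ v w : Fin 3 → Word c, Function.Injective v ∧ Function.Injective w ∧ Fat ω 𝔅 {1, 2} v w ∧
    St (v 0) (v 1) (v 2) ∧ ¬ St (w 0) (w 1) (w 2)) → BB 𝔅

/-- If points cannot leave stars then all tuples can be mapped to stars. Let `v₀`, `w₀` be as in S_VD.
Suppose `Cc (w₀ 0) (w₀ 1) (w₀ 2)` or `Cc (w₀ 1) (w₀ 0) (w₀ 2)`: take words `0, 1, 2, 3` as in S_NM (A1), extend the
arrow for `![0, 1, 2]` to `3` (fat): `St 1' 2' 3'` (Rg3). In the first case `Cc 0' 2' 3'` (`cc_or` for
`Cc 0' 2' 1'` and `3'`), in the second `Cc 3' 2' 0'` (`cc_or` for `Cc 1' 2' 0'` and `3'`): but `St 0 2 3`, so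
restricting to `![0, 2, 3]` contradicts the hypothesis. So (`cc_tri`) `St (w₀ 0) (w₀ 1) (w₀ 2)`. SS by
S_ITR (2): let `v` be injective, `Cc (v z) (v x) (v y)`, `v x ≠ v y`. The arrow `v₀ → w₀` for `![x, y, z]`
extends (S_EXM) to `w`, all points except `x` are fat. A star of `v` which does not contain `x` is a
star of `w` by Rg3, one which contains `x` (permute it to `x, s, t`) by the hypothesis. `St (w x) (w y)
(w z)`. -/
def S_NR : Prop := ∀ (K : Type) (c : ℚ → K) (σ : Sig) (ω : Prop) (𝔅 : Str σ (Word c)),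
  (∃ a b d : K, a ≠ b ∧ a ≠ d ∧ b ≠ d) → AllInv 𝔅 → NEq 𝔅 → Ext ω 𝔅 → Rg3 ω 𝔅 →
  (∃ v w : Fin 3 → Word c, Function.Injective v ∧ Function.Injective w ∧ Fat ω 𝔅 {1, 2} v w ∧
    Cc (v 2) (v 0) (v 1) ∧ ¬ Cc (w 2) (w 0) (w 1)) →
  (¬ ∃ v w : Fin 3 → Word c, Function.Injective v ∧ Function.Injective w ∧ Fat ω 𝔅 {1, 2} v w ∧
    St (v 0) (v 1) (v 2) ∧ ¬ St (w 0) (w 1) (w 2)) → SS 𝔅

/-! ### Part D: quartets -/

/-- Facts on quartets. (1) Symmetries and distinctness. (2) Two of the three quartets exclude each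
other. (3) The five-point property: for `Cc z x y`, `Cc t x y`: `cc_or` for `Cc z x y` and `w` gives
`Cc z x w` or `Cc w x y`; in the second case `Qr x y z w`; in the first case the same for `t`: `Cc t x w`
(otherwise done), so `Cc z w y`, `Cc t w y`: `Qr w y z t`. For `Cc x z t`, `Cc y z t`: `cc_or` for
`Cc x z t` and `w`: `Cc w z t`, then `Qr w y z t`; or `Cc x z w`, and the same for `y`: `Qr x y z w`.
(4) Seen from a word `s` quartets are an abstract C-relation: from (1), (2), (3). (5) Seen from a word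
on the top they are the splits. (6) From (3), (4): let `a` be next to `b₁` and `f` not; if `Qr a f b₁ b₂`
then (seen from `b₂`, ...) `f` is next to `b₁`, contradiction, etc. (7) From (3): `Qr s x z y` and `a`:
`Qr a x z y` (excluded by `Xr z x y a`) or `Qr s x z a`; `Qr z a s x` and `y`: `Qr y a s x` (excluded by
`Xr s x y a`) or `Qr z a s y`; `Qr s y z a` and `x`: `Qr x y z a` (excluded) or `Qr s y z x` (excluded by
(2)). (8) `Qr a b₂ b₃ b₁` and `b₄`: `Qr b₄ b₂ b₃ b₁` is excluded. (9) Seen from `a` (4): `s, t, u` form a star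
and `r, s, t, u`... : if `Qr r s t u` (up to the order of `s, t, u`) then `Xr a r t u`: seen from `t`, say,
use (3). -/
def S_QFA : Prop := ∀ (K : Type) (c : ℚ → K),
  (∀ x y z t : Word c, (Qr x y z t → Qr y x z t) ∧ (Qr x y z t → Qr z t x y) ∧
    (Qr x y z t → x ≠ y ∧ x ≠ z ∧ x ≠ t ∧ y ≠ z ∧ y ≠ t ∧ z ≠ t)) ∧
  (∀ x y z t : Word c, ¬ (Qr x y z t ∧ Qr x z y t)) ∧
  (∀ x y z t w : Word c, Qr x y z t → w ≠ x → w ≠ y → w ≠ z → w ≠ t →
    Qr w y z t ∨ Qr x y z w) ∧
  (∀ (X : Type) (s : Word c) (v : X → Word c), Function.Injective v → (∀ x, v x ≠ s) →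
    CRel (Rt s v)) ∧
  (∀ s z x y : Word c, z ≠ x → x ≠ y → z ≠ y → Cc s z x → Cc s x y → Cc s z y →
    (Qr s z x y ↔ Cc z x y)) ∧
  (∀ a f b₁ b₂ b₃ : Word c, a ≠ f → Qr a b₁ b₂ b₃ → ¬ Qr f b₁ b₂ b₃ → f ≠ b₁ → f ≠ b₂ → f ≠ b₃ →
    ¬ Qr a f b₁ b₂ ∧ ¬ Qr a f b₁ b₃ ∧ ¬ Qr a f b₂ b₃) ∧
  (∀ s z x y a : Word c, Xr s x y a → Xr z x y a → ¬ Qr s x z y) ∧
  (∀ a b₁ b₂ b₃ b₄ : Word c, a ≠ b₄ → Xr b₁ b₂ b₃ b₄ → Qr a b₂ b₁ b₃ → Qr a b₂ b₃ b₄) ∧
  (∀ a r s t u : Word c, a ≠ r → r ≠ s → r ≠ t → r ≠ u → Xr a s t u → ¬ Xr r s t u →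
    Xr a r t u ∨ Xr a s r u ∨ Xr a s t r) ∧
  (∀ x y z t : Word c, (Xr x y z t → Xr y x z t) ∧ (Xr x y z t → Xr y z t x))

/-- Types of four points. (1) `F3` gives all the fat arrows between quartets: `Q4 v` says that `{2, 3}` or
`{0, 1}` is a block of `v` (the definition of `Qr`; the latter: `Cc (v 2) (v 0) (v 1)`,
`Cc (v 3) (v 0) (v 1)`). If `{2, 3}` is a block of `v` and of `w` then both are blow-ups of triples along
`![0, 1, 2, 2]`, with the same (two-element, so binary) blocks, and S_FAT (7) for `F3` gives the fat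
arrow; the same for `{0, 1}`; a tuple `u` in which both are blocks exists (the blow-up of a pair, S_BLW),
`Fat v u`, `Fat u w`, S_FAT (3). (2) The types with `Xr`: stars, and one point above a star of the three
others (if `Xr` and `Cc (v i) (v j) (v k)` then `v i` is above a star of the three others). -/
def S_QFT : Prop := ∀ (K : Type) (c : ℚ → K) (σ : Sig) (ω : Prop) (𝔅 : Str σ (Word c)),
  (∃ a b : K, a ≠ b) → AllInv 𝔅 → F3 ω 𝔅 → ∀ v w : Fin 4 → Word c, Function.Injective v →
    Function.Injective w → Q4 v → Q4 w → Fat ω 𝔅 Set.univ v w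

/-- Four points in different directions. Call the types (up to renaming): `S`: a star of four points;
`U_i`: `v i` is above a star of the three others (`Xr` and `Cc (v i) (v j) (v k)` imply `U_i`: use the
three excluded quartets and `cc_or`). Two tuples of the same type have the same splits. Facts from `F3`
and S_EXM (all points fat): (a) from `S` the arrow star → `Cc 0 1 2` on three of the points `![i, j, k]`,
extended to the fourth, leads to `U_i` or to a quartet; (b) from `U_i` the arrow `Cc 0 1 2` → star on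
`![i, j, k]` leads, with the fourth point `l`, to `S`, `U_l` or a quartet. (c) Suppose that there are tuples
of type `S` and that no fat arrow leads from `U`-types to quartets; then there is a fat arrow from
`U_i` to `S`: take five words `i, j, k, l, m`: `j, k, l, m` a star, `i` above (S_TY3 (5)), apply the arrow to
a star on `![i, j, k]`, extended: the quadruples which contain `i` have type `U_i`, so after the arrow
they satisfy `Xr`; if `i', j', k', l'` is not of type `S` it is `U_l`, and if `i', j', k', m'` is not of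
type `S` it is `U_m`; not both, because otherwise `Cc l' i' j'`, `Cc m' i' j'`, so `Qr l' m' i' j'`,
although `i, j, l, m` is of type `U_i`. (1) If `XQ` fails: all the types with `Xr` are connected by fat
arrows: `U_i → U_l` for all `i ≠ l` ((b) leads to `U_l`, or to `S` and then (a)), `S → U_i` by (a), and `U_i → S`
by (c). (2) If `XQ` holds: from every tuple with `Xr` there is a fat arrow to a quartet: if `XQ` starts
from a `U`-type, then from all `U`-types (rename), and from `S` by (a). If it starts from `S` and there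
were no fat arrow from `U`-types to quartets, (c) would give one: `U_i → S → ` quartet. Then all the
quartets are reached: permutations of the coordinates which fix the type of `v` (all of them for
`S`, those with `σ i = i` for `U_i`) permute the three quartets transitively; and S_QFT. -/
def S_XAL : Prop := ∀ (K : Type) (c : ℚ → K) (σ : Sig) (ω : Prop) (𝔅 : Str σ (Word c)),
  (∃ a b : K, a ≠ b) → AllInv 𝔅 → NEq 𝔅 → Ext ω 𝔅 → F3 ω 𝔅 →
  (¬ XQ ω 𝔅 → ∀ v w : Fin 4 → Word c, Function.Injective v → Function.Injective w →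
    Xr (v 0) (v 1) (v 2) (v 3) → Xr (w 0) (w 1) (w 2) (w 3) → Fat ω 𝔅 Set.univ v w) ∧
  (XQ ω 𝔅 → ∀ v w : Fin 4 → Word c, Function.Injective v → Function.Injective w →
    Xr (v 0) (v 1) (v 2) (v 3) → ¬ Xr (w 0) (w 1) (w 2) (w 3) → Fat ω 𝔅 Set.univ v w)

/-- If fat arrows connect all the binary types of four points then all binary tuples can be mapped to
combs. For trees `T`, `T'` on the points of `X` (every point is a leaf exactly once) write `T ⇒ T'` if
`Arr 𝔅 v w` for all `v` of shape `T` and `w` of shape `T'`; this is transitive (S_SHX (1)). Exchanging left and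
right anywhere does not change the tuples of a shape. (M3) `nd (nd A B) C ⇒ nd A (nd B C)` and back:
blow-ups of triples with the blocks of shapes `A`, `B`, `C` (binary, S_SHF (8)); `F3` and the definition of
`Fat` (compare `Full/I_F3T.lean`). (M4) `nd D (nd (nd A B) C) ⇒ nd D (nd A (nd B C))`: blow-ups of
tuples on `Fin 4` (which are not `Xr`), hypothesis. Claim: for every tree `T` and every comb
`D = combT x ℓ` (`Full.combT`; as trees, with disjoint sets of leaves, all points of `X`) there are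
`x'`, `ℓ'` with `nd D T ⇒ combT x' ℓ'`. Induction on the number of leaves of `T`. `T = lf y`: `nd D (lf y)`
is `combT y (x :: ℓ)` up to exchanging the sides. `T = nd T₁ T₂`: by (M4) (induction on the number of
leaves of `T₁`) `nd D T ⇒ nd D (nd (lf y) T₃)`, and this `⇒ nd (nd D (lf y)) T₃` (M3), the same as
`nd (combT y (x :: ℓ)) T₃`; induction hypothesis for `T₃`. Finally every tree with at least two leaves
`⇒ nd (lf x) T'` by (M3) (induction on the left side), `lf x = combT x []`. A tuple of the shape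
`combT x ℓ` satisfies `CombL` for `x :: ℓ`. For an injective binary `v` use S_SHX (2) (`X` empty or one
point: trivial). -/
def S_CBQ : Prop := ∀ (K : Type) (c : ℚ → K) (σ : Sig) (ω : Prop) (𝔅 : Str σ (Word c)),
  (∃ a b : K, a ≠ b) → AllInv 𝔅 → F3 ω 𝔅 →
  (∀ v w : Fin 4 → Word c, Function.Injective v → Function.Injective w →
    ¬ Xr (v 0) (v 1) (v 2) (v 3) → ¬ Xr (w 0) (w 1) (w 2) (w 3) → Fat ω 𝔅 Set.univ v w) →
  LINC 𝔅

/-- Tuples without `Xr` can be mapped to binary tuples. If `v` is not binary let `St (v x) (v y) (v z)`.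
Every `t` satisfies one of `Cc (v y) (v t) (v x)`, `Cc (v x) (v t) (v y)`, `Cc (v x) (v t) (v z)` (otherwise
`Xr (v t) (v x) (v y) (v z)`: none of the three quartets holds); let `π t = 0, 1, 2` accordingly. `v` is the
blow-up of the star `![v x, v y, v z]` along `π`, and the blocks are binary (a star `a, a', a''` in one
block and the point `x`, `y` or `z` of another block satisfy `Xr`). Let `u₀` be a triple with
`Cc (u₀ 0) (u₀ 1) (u₀ 2)` (S_TY3 (4)), `w` its blow-up with the blocks of `v` (S_BLW). `F3` for the star and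
`u₀` and the definition of `Fat` give `Arr 𝔅 v w`. `w` is binary (S_BLF (5)). -/
def S_XFB : Prop := ∀ (K : Type) (c : ℚ → K) (σ : Sig) (ω : Prop) (𝔅 : Str σ (Word c)),
  (∃ a b : K, a ≠ b) → AllInv 𝔅 → F3 ω 𝔅 → ∀ (X : Type) [Finite X] (v : X → Word c),
  Function.Injective v → (∀ x y z t, ¬ Xr (v x) (v y) (v z) (v t)) →
  ∃ w : X → Word c, Function.Injective w ∧ Arr 𝔅 v w ∧ Bin Set.univ w

/-- If all tuples can be mapped to tuples without quartets then they can be mapped to stars. Let `v`
be injective, `v⁺` a blow-up along `Prod.fst : X × Bool → X` (S_BLW), `w⁺` its image without quartets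
(injective). Claim: there is `l` such that `Cc (w⁺ z) (w⁺ x) (w⁺ y)`, `x ≠ y`, implies `z = l`. Let
`Cc (w⁺ z) (w⁺ x) (w⁺ y)`, `x ≠ y`. For every `t ≠ z`: `Cc (w⁺ z) (w⁺ x) (w⁺ t)` (for `t ≠ x, y`: `cc_or` for
`Cc z x y` and `t`: otherwise `Cc t x y`, so `Qr x y z t`). So `Cc z s t` for all `s, t ≠ z`
(`cc_trans`). If also `Cc z' x' y'`, `x' ≠ y'`, `z' ≠ z`: `Cc z' s t` for all `s, t ≠ z'`; take `t ≠ z, z'` (`x`
or `y`): `Cc z z' t` and `Cc z' z t`, contradiction to `cc_asymm`. Choose a section `s` of `Prod.fst`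
avoiding `l`; `w = w⁺ ∘ s` is a star and `v` has the splits of `v⁺ ∘ s` (S_BLF (4)); S_ARR (1), (2). -/
def S_AXS : Prop := ∀ (K : Type) (c : ℚ → K) (σ : Sig) (𝔅 : Str σ (Word c)), AllInv 𝔅 →
  NEq 𝔅 → (∀ (X : Type) [Finite X] (v : X → Word c), Function.Injective v →
    ∃ w : X → Word c, Function.Injective w ∧ Arr 𝔅 v w ∧
      ∀ x y z t, ¬ Qr (w x) (w y) (w z) (w t)) → SS 𝔅

/-- The case `XQ`. If also `QX`: all the fat arrows between tuples on `Fin 4` without `Xr`: from such a
tuple (a quartet, permute the coordinates) by S_QFT to the first tuple of `QX`, then to one with `Xr`,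
then by S_XAL (2) to every tuple without `Xr`; S_CBQ and the conclusion of S_LBB. If `QX` fails: S_ITR (3):
if `Xr (v x) (v y) (v z) (v t)` take the fat arrow of S_XAL (2) for `![x, y, z, t]` to a quartet
(`Fin 4` tuples without `Xr` exist: combs), extend (S_EXM) to `w`; if `Xr` holds in `w` at a quadruple of
coordinates then it holds in `v`: otherwise there is (after a permutation) a fat arrow from a quartet to
a tuple with `Xr`, `QX`. So every tuple can be mapped to one without `Xr`, and S_XFB gives BB. -/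
def S_CX : Prop := ∀ (K : Type) (c : ℚ → K) (σ : Sig) (ω : Prop) (𝔅 : Str σ (Word c)),
  (∃ a b : K, a ≠ b) → AllInv 𝔅 → NEq 𝔅 → Ext ω 𝔅 → F3 ω 𝔅 → XQ ω 𝔅 → BB 𝔅

/-- The case without `XQ`. If `QX` holds: the hypothesis of S_AXS by S_ITR (4): if `Qr (v x) (v y) (v z)
(v t)` the fat arrow of `QX` (after S_QFT) for `![x, y, z, t]` extends (S_EXM) to `w`, and `Xr` is preserved
as `XQ` fails; so SS. If `QX` fails: Rg4. Let `Fat ω 𝔅 F v w` and `x, y, z, t ∈ F`; `Qr` requires four
different coordinates; restrict to `![x, y, z, t]` (S_FAT (6), `F = univ`). `Xr` is preserved and so is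
its complement. Suppose that a quartet is mapped to another one: by permutations and S_QFT there is a
fat arrow from every tuple `![s, z, x, y]` with `Qr s z x y` to one with `Qr s x z y`. Take five words
`s, z, x, y, a`: `St x y a`, `z` above them, `s` above all (S_TY3 (3), (5), three letters): `Qr s z x y`,
`Xr s x y a`, `Xr z x y a`. Extend the arrow for `![s, z, x, y]` to `a` (S_EXM): `Qr s' x' z' y'`,
`Xr s' x' y' a'`, `Xr z' x' y' a'` (`XQ` fails), contradiction to S_QFA (7). -/
def S_CR : Prop := ∀ (K : Type) (c : ℚ → K) (σ : Sig) (ω : Prop) (𝔅 : Str σ (Word c)),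
  (∃ a b d : K, a ≠ b ∧ a ≠ d ∧ b ≠ d) → AllInv 𝔅 → NEq 𝔅 → Ext ω 𝔅 → F3 ω 𝔅 → ¬ XQ ω 𝔅 →
  SS 𝔅 ∨ Rg4 ω 𝔅

/-- Four points, one of them not fat. The proof of `Full/I_QV.lean` (three extension steps, S_QFA (6)),
with the conclusion `¬ Q4 w`. -/
def S_QV : Prop := ∀ (K : Type) (c : ℚ → K) (σ : Sig) (ω : Prop) (𝔅 : Str σ (Word c)),
  (∃ a b : K, a ≠ b) → AllInv 𝔅 → NEq 𝔅 → Ext ω 𝔅 → ¬ QP 𝔅 →
  ∃ v w : Fin 4 → Word c, Function.Injective v ∧ Function.Injective w ∧
    Fat ω 𝔅 {1, 2, 3} v w ∧ Q4 v ∧ ¬ Q4 w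

/-- If a point which is not fat can leave a branch point of the unrooted tree then all tuples can be
mapped to binary tuples. (1) For every injective `v' : Fin 4 → Word c` with `Xr` there is a fat arrow
(fat points 1, 2, 3) to some `w'` with `Qr (w' 0) (w' 2) (w' 1) (w' 3)`: let `v₀ → w₀` be the given arrow; `w₀` is a
quartet; let `σ` be a permutation with `σ 0 = 0` such that `w₀ ∘ σ` satisfies this; `Fat univ v' (v₀ ∘ σ)` by
S_XAL (1) (`XQ` fails by Rg4), S_FAT (6), (3), (4). (2) By S_IND (2) and S_XFB it is enough to map injective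
`v : Option X → Word c`, with `v ∘ some` without `Xr`, to tuples without `Xr`. If `v` itself has none
we are done. Otherwise `Xr` holds at `none` and three elements of `X`; let `r` be one of them. Claim: there
is `w`, `Arr 𝔅 v w`, `w ∘ some` without `Xr`, and `Xr (w none) (w (some r)) (w (some s)) (w (some t))` for no
`s, t`. Induction on the number of elements of `{s | ∃ t, Xr none r s t}`. If `Xr none r x y`: the arrow
(1) for `![none, r, x, y]` (`Qr none x r y`), extended (S_EXM, all the points of `X` fat) to `w`; by Rg4 the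
quartets of `w` and `v` on `X` are the same. S_MOVE on the subtype `X' = {x // x ≠ r}` with
`C = Rt (v (some r)) (v restricted to Option X')`, `C' = ` the same with `w` (S_QFA (4)): `C' y none x` is
`Qr r y none x`; `AS C` is `Xr` with `r`; so the set is smaller for `w`. (3) Then `w` has no `Xr` at all: if
`Xr none s t u` with `s, t, u ∈ X`, `r ≠ s, t, u` (otherwise clear), S_QFA (9) (`Xr r s t u` is excluded)
gives one of `Xr none r t u`, `Xr none s r u`, `Xr none s t r`, contradiction. -/
def S_XM : Prop := ∀ (K : Type) (c : ℚ → K) (σ : Sig) (ω : Prop) (𝔅 : Str σ (Word c)),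
  (∃ a b : K, a ≠ b) → AllInv 𝔅 → NEq 𝔅 → Ext ω 𝔅 → F3 ω 𝔅 → Rg4 ω 𝔅 →
  (∃ v w : Fin 4 → Word c, Function.Injective v ∧ Function.Injective w ∧
    Fat ω 𝔅 {1, 2, 3} v w ∧ Xr (v 0) (v 1) (v 2) (v 3) ∧ ¬ Xr (w 0) (w 1) (w 2) (w 3)) → BB 𝔅

/-- If points cannot leave branch points of the unrooted tree but quartets are not preserved then all
tuples can be mapped to stars. Let `v₀ → w₀` be as in S_QV. Suppose that `w₀` is a quartet, by
symmetry (exchange 2 and 3) `Qr (w₀ 0) (w₀ 2) (w₀ 1) (w₀ 3)`. Take five words `0, 1, 2, 3, 4`: `St 1 2 3`, `0` very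
close to `1`, `4` above all (S_TY3 (3), (6), (5)): `Qr 0 1 2 3`, `Xr 1 2 3 4`, `Xr 0 2 3 4`. The arrow
`v₀ → w₀` for `![0, 1, 2, 3]` (S_QFT first) extends to `4`: `Qr 0' 2' 1' 3'`, and `Xr 1' 2' 3' 4'` (Rg4), so
`Qr 0' 2' 3' 4'` by S_QFA (8) (`b₁ = 1'`, ...), which contradicts the hypothesis for `![0, 2, 3, 4]`.
So `Xr (w₀ 0) (w₀ 1) (w₀ 2) (w₀ 3)`. The hypothesis of S_AXS by S_ITR (4): if `Qr (v x) (v y) (v z) (v t)` the
arrow `v₀ → w₀` (S_QFT first) for `![x, y, z, t]` extends to `w` with all points except `x` fat; `Xr` of `v` at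
points different from `x` is preserved by Rg4, and at `x, s, t, u` by the hypothesis. -/
def S_XR : Prop := ∀ (K : Type) (c : ℚ → K) (σ : Sig) (ω : Prop) (𝔅 : Str σ (Word c)),
  (∃ a b d : K, a ≠ b ∧ a ≠ d ∧ b ≠ d) → AllInv 𝔅 → NEq 𝔅 → Ext ω 𝔅 → F3 ω 𝔅 → Rg4 ω 𝔅 →
  (∃ v w : Fin 4 → Word c, Function.Injective v ∧ Function.Injective w ∧
    Fat ω 𝔅 {1, 2, 3} v w ∧ Q4 v ∧ ¬ Q4 w) →
  (¬ ∃ v w : Fin 4 → Word c, Function.Injective v ∧ Function.Injective w ∧
    Fat ω 𝔅 {1, 2, 3} v w ∧ Xr (v 0) (v 1) (v 2) (v 3) ∧ ¬ Xr (w 0) (w 1) (w 2) (w 3)) → SS 𝔅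

/-- The quartet relation is PP. As `Full/I_QPP.lean`: `{u | Arr 𝔅 v₀ u}`, `Q4 v₀`, is PP (S_ARR (3)), contained
in `Q4` (`QP`), and contains `Q4` (S_QFT, S_FAT (1)). -/
def S_QPP : Prop := ∀ (K : Type) (c : ℚ → K) (σ : Sig) (ω : Prop) (𝔅 : Str σ (Word c)),
  (∃ a b : K, a ≠ b) → AllInv 𝔅 → F3 ω 𝔅 → QP 𝔅 → PP 𝔅 (Q4 (c := c))

end Pool.Agent.Work.MP_8dbde4_lc.FK
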