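import Pool.Agent.Work.MP_8dbde4_lc.FK.StmtsB
import Pool.Agent.Work.MP_8dbde4_lc.Bra.Stmts

/-!
Statements of the block FK of MP_8dbde4_lc, third part: the quartet relation is not in FPC, the positive
part. Every docstring contains the proof. The statements of the older blocks (`Full.S_...`, `Phy.S_...`,
`Tree.S_...`, `Bra.S_...`) are proved; they are hypotheses here to keep the files small.
-/

set_option autoImplicit false
open Classical

namespace Pool.Agent.Work.MP_8dbde4_lc.FK

open Pool.Agent.Work.MP_8dbde4_lc.TS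
open Pool.Agent.Work.MP_8dbde4_lc.Tree (Word Agr Cc)
open Pool.Agent.Work.MP_8dbde4_lc.Phy (PP Hom)
open Pool.Agent.Work.MP_8dbde4_lc.Bra (Same InvU BinOn pull c₂)
open Pool.Agent.Work.MP_8dbde4_lc.Full (Arr NEq Cst0 BT Sub)

/-- Abstract C-relations can be refined to binary ones. Strong induction on the number of elements of
`X`. From the properties in `CRel`: `¬ C x x y`, `C z x y → C z y w → C z x w` (as `cc_irrefl`, `cc_trans`). If `X` has at
most one element there are no `z, x, y` with `C z x y` (`z ≠ x`), take a constant map. Otherwise let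
`x ~ y` iff `C z x y` for some `z`. It is reflexive (`self`), symmetric, and transitive: `C z x y`, `C w y t`:
`or` for the first and `t`: `C z x t`, or `C t x y`; in the second case `or` for `C w y t` and `x`:
`C w y x`, so `C w x t` (`trans`), or `C x y t`, which contradicts `C t x y` by `asymm` (and `symm`). There
are `x ≠ y` with `¬ x ~ y`: choose `x ≠ y` with a minimal number of elements `t` with `C t x y`; if
`C t x y` then every `s` with `C s t x` satisfies `C s x y` (`or` with `y`: otherwise `C y x t`, which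
contradicts `C t x y` by `symm`, `asymm`), and `t` itself satisfies `C t x y` but not `C t t x`: the pair
`t, x` would have fewer. Let `h t = decide (t ~ x)`; both classes are proper subsets. By induction there
are `g₀`, `g₁` for the two classes (subtypes; extend them to `X` arbitrarily), and `g` is their join
(`Phy.S_JOI`). If `C z x y`: `x ~ y`, so `h x = h y`; if `h z = h x` use `g₀`, `g₁` (same splits on the classes),
otherwise the property of the join. `g` is injective: on the classes, and `h x ≠ h y` implies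
`Cc (g x) (g y) (g y)`. -/
def S_REF : Prop := Phy.S_JOI → ∀ (X : Type) [Finite X] (C : X → X → X → Prop), CRel C →
  ∃ g : X → Word c₂, Function.Injective g ∧ ∀ z x y, C z x y → Cc (g z) (g x) (g y)

/-- `QQ` is PP. As `Full/I_QQP.lean` (the words very close to another word by S_TY3 (6)). -/
def S_QQP : Prop := ∀ (K : Type) (c : ℚ → K) (σ : Sig) (𝔅 : Str σ (Word c)),
  (∃ a b : K, a ≠ b) → PP 𝔅 (Q4 (c := c)) → PP 𝔅 (QQ (c := c))

/-- Refinement of the unrooted tree. `Rt s v` is an abstract C-relation (S_QFA (4)); let `g` be as in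
S_REF. The second part: `Qr s z x y` is `Rt`, if `x = y`, `z ≠ x` too. The first part: let
`Qr (v x) (v y) (v z) (v t)`. By S_QFA (3) with `s`: if `Qr s x z t` and `Qr s y z t` then
`Cc (g x) (g z) (g t)`, `Cc (g y) (g z) (g t)`. Otherwise, by symmetry, not `Qr s x z t`; S_QFA (3) for
`Qr y x z t` and `Qr y x t z` gives `Qr y x z s`, `Qr y x t s`, so `Qr s z x y`, `Qr s t x y`. -/
def S_RFQ : Prop := S_REF → S_QFA → Phy.S_JOI → ∀ (K : Type) (c : ℚ → K) (X : Type) [Finite X]
  (s : Word c) (v : X → Word c), Function.Injective v → (∀ x, v x ≠ s) →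
  ∃ g : X → Word c₂, Function.Injective g ∧
    (∀ x y z t, Qr (v x) (v y) (v z) (v t) → Full.Qr (g x) (g y) (g z) (g t)) ∧
    ∀ z x y, ((x = y ∧ z ≠ x) ∨ Qr s (v z) (v x) (v y)) → Cc (g z) (g x) (g y)

/-- If the quartet relation is PP the problem is not in FPC. The proof of `Full/I_NFQ.lean` (there for
two letters, with `RR`). `p, I, Δ` from `Full.S_QGD` for `c₂`; the engine `Full.S_ENG` for `𝔅` (domain
`Word c`), `S true = Q4`, `S false = QQ` (S_QQP; an injective member of `Q4`: the images under `ι` of the one in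
I_NFQ), and the frame `Full.S_FRQ` with `T = CT (Full.Q4 (c := c₂)) I`, `tt t = t.1`. (Solvable for `b = 0`)
the solution `f₂` over `Word c₂` of I_NFQ (with `Phy.S_SA0` for `c₂`), composed with an embedding
`ι : Word c₂ → Word c` (`Bra.S_IOT`), which preserves `Q4` and `QQ`. (Not solvable for `b = 1`) Let `f` be a
solution. As in I_NFQ all the `f (some x)` are different from `s = f none`. Let `X = Set.range (fun x =>
f (some x))`, `v` the inclusion, `g` from S_RFQ. The words `g (f (some x))` satisfy the fields of `Sat` for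
`c₂`, as in I_NFQ: the constraints of kind `Q4` by the first part of S_RFQ, the ties `QQ` by the second
part (`QQ ![s, z, x, y]` says `x = y`, `z ≠ x`, or `Qr s z x y`), contradiction to `Phy.S_UN1`. -/
def S_NFQ : Prop := Full.S_ENG → Full.S_QGD → Tree.S_GAD → Tree.S_TWIN → Phy.S_SA0 → Phy.S_UN1 →
  Full.S_FRQ → Full.S_QQT → Bra.S_IOT → Phy.S_JOI → S_RFQ → S_REF → S_QFA → S_QQP →
  ∀ (K : Type) (c : ℚ → K) (σ : Sig) (𝔅 : Str σ (Word c)), (∃ a b : K, a ≠ b) →
    PP 𝔅 (Q4 (c := c)) → ¬ InFPC (CSP 𝔅)

/-! ### The positive part -/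

/-- PP sets and representatives of the classes of the equal entries: the set of the `u : X₀ → Word c`
with `S (fun x => u (p x))` is PP (`Phy.S_PPB` (3)) and contains `fun x₀ => v (s x₀)`, as
`v (s (p x)) = v x`; so it contains `w₀`. -/
def S_RPS : Prop := Phy.S_PPB → ∀ (σ : Sig) (B : Type) (𝔅 : Str σ B) (X X₀ : Type) [Finite X]
  [Finite X₀] (S : (X → B) → Prop) (v : X → B) (p : X → X₀) (s : X₀ → X) (w₀ : X₀ → B), PP 𝔅 S →
  S v → (∀ x, v (s (p x)) = v x) → Arr 𝔅 (fun x => v (s x)) w₀ → S (fun x => w₀ (p x))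

/-- Binary members. Let `S v`; let `X₀ ⊆ X` be a set of representatives of the classes of the equal
entries of `v` (for example `X₀ = Set.range v`, `p x = v x`, `s` a section), so `v ∘ s` is injective; `BB`
gives a binary `w₀` with `Arr (v ∘ s) w₀`; by S_RPS `S (w₀ ∘ p)`, and `w₀ ∘ p` is binary (`Bin` is preserved by
composition; `bin_iff`). -/
def S_BBM : Prop := S_RPS → Phy.S_PPB → ∀ (K : Type) (c : ℚ → K) (σ : Sig) (𝔅 : Str σ (Word c)),
  BB 𝔅 → ∀ (X : Type) [Finite X] (S : (X → Word c) → Prop), PP 𝔅 S → (∃ w, S w) →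
  ∃ w, S w ∧ BinOn Set.univ w

/-- Star members. As S_BBM: `SS` gives an injective star `w₀` with `Arr (v ∘ s) w₀`. Let `z₀ = z ∘ s`: it is
injective (the equalities of `z` are those of `v`) and a star, so it has the same splits as `w₀`
(`Cc (w₀ k) (w₀ i) (w₀ j)` iff `i = j` and `k ≠ i`, by `StarT`, injectivity, `cc_self`, `cc_irrefl`);
`Arr (v ∘ s) z₀` (S_ARR (1)), S_RPS: `S (z₀ ∘ p)`, and `z₀ ∘ p = z`. -/
def S_SSM : Prop := S_RPS → Phy.S_PPB → S_ARR → ∀ (K : Type) (c : ℚ → K) (σ : Sig)
  (𝔅 : Str σ (Word c)), AllInv 𝔅 → SS 𝔅 → ∀ (X : Type) [Finite X] (S : (X → Word c) → Prop),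
  PP 𝔅 S → ∀ v z : X → Word c, S v → StarT z → (∀ x y, z x = z y ↔ v x = v y) → S z

/-- Stars with prescribed equalities: let `r : X → ℕ` have the same equalities as `f` and `e : ℕ → K` be
injective; `z x` is `c` changed to `e (r x)` at the place `0`. (If `Cc (z z') (z x) (z y)` then the place is
`0` and `z x`, `z y` have the same letter there.) -/
def S_STX : Prop := ∀ (K : Type) [Infinite K] (c : ℚ → K) (X B : Type) [Finite X] (f : X → B),
  ∃ z : X → Word c, StarT z ∧ ∀ x y, z x = z y ↔ f x = f y

/-- If all tuples can be mapped to stars and there are two letters there are infinitely many: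
otherwise take an injective tuple with `Nat.card K + 1` entries (`Word c` is infinite: `c` changed at one
place), an injective star with the same index set; its entries have different letters at the first
place where the first two of them differ (they all agree below it). -/
def S_SSK : Prop := ∀ (K : Type) (c : ℚ → K) (σ : Sig) (𝔅 : Str σ (Word c)),
  (∃ a b : K, a ≠ b) → SS 𝔅 → Infinite K

/-- Closed under the injective binary operations whose values form stars: the relation contains all
stars whose equalities are the common equalities of two of its members. -/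
def EqS {K : Type} {c : ℚ → K} {n : ℕ} (R : (Fin n → Word c) → Prop) : Prop :=
  ∀ v w z : Fin n → Word c, R v → R w → StarT z →
    (∀ x y, z x = z y ↔ v x = v y ∧ w x = w y) → R z

/-- `EqS` implies FP. Let `𝔅₂` on `Word c₂`: `R v` iff some member of `𝔅.rel R` has the same equalities as
`v`. `EqH (𝔅₂.rel R)`: given `v`, `w`, `z`, with `u`, `u'` for `v`, `w`; S_STX gives a star `z'` in `Word c` with
the equalities of `z`; `EqS` gives `𝔅.rel R z'`. `𝔅` and `𝔅₂` have the same CSP: if `h : A → Word c₂` is a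
homomorphism to `𝔅₂` let `z` be a star with the same equalities (S_STX); it is a homomorphism to `𝔅` by
`EqS` (`v = w = u`); conversely let `h₂ : A → Word c₂` have the same equalities as a given `h : A → Word c`
(`Full.S_CMB`). Then `Bra.inFP_congr` (file Bra/Main.lean; or repeat its two lines). The hypothesis is
`EFP` of the block Full. -/
def S_SFP : Prop := S_STX → Full.S_CMB →
  (∀ (c : ℚ → Bool) (σ : Sig) (𝔅 : Str σ (Word c)), (∀ R, Full.EqH (𝔅.rel R)) → InFP (CSP 𝔅)) →
  ∀ (K : Type) [Infinite K] (c : ℚ → K) (σ : Sig) (𝔅 : Str σ (Word c)), (∀ R, EqS (𝔅.rel R)) →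
    InFP (CSP 𝔅)

/-- The case `SS` in FPC: `Full.kc 𝔅` is an equality language (`Full.KI`) with the same CSP: a
homomorphism to `kc 𝔅`, composed with a star with the same equalities (S_STX), is one to `𝔅` (S_SSM for
`𝔅.rel R`, `Phy.S_PPB` (1)). `NEq (kc 𝔅)`: the same structure and marked points define disequality (as in
`Full/I_KCL.lean`). By the hypothesis (`EQN` of the block Full) for `kc 𝔅` the equalities of its members
are closed under intersections; for `v, w ∈ 𝔅.rel R` there are `u ∈ (kc 𝔅).rel R` and `u' ∈ 𝔅.rel R` with the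
common equalities, and S_SSM gives `𝔅.rel R z`. (See `Full/I_EQH.lean`.) -/
def S_SNF : Prop := S_SSM → S_RPS → Phy.S_PPB → S_ARR → S_STX →
  (∀ (σ : Sig) (B : Type) [Infinite B] (𝔅 : Str σ B), (∀ R, Full.KI (𝔅.rel R)) → NEq 𝔅 →
    InFPC (CSP 𝔅) → ∀ (X : Type) [Finite X] (S : (X → B) → Prop), PP 𝔅 S → ∀ v₁ v₂, S v₁ → S v₂ →
    ∃ u, S u ∧ ∀ x y, u x = u y ↔ v₁ x = v₁ y ∧ v₂ x = v₂ y) →
  ∀ (K : Type) [Infinite K] (c : ℚ → K) (σ : Sig) (𝔅 : Str σ (Word c)), AllInv 𝔅 → NEq 𝔅 →
    SS 𝔅 → InFPC (CSP 𝔅) → ∀ R, EqS (𝔅.rel R)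

/-- Constant tuples. Let `𝔅₂` on `Word c₂`: `R v` iff `𝔅.rel R` is not empty. The hypothesis (`ZFP` of the
block Full) applies to `𝔅₂`. Same CSP: if `h` is a homomorphism to `𝔅₂` then any constant map to `Word c`
is one to `𝔅` (constant tuples have the same splits, `AllInv`); conversely any map. -/
def S_CFP : Prop := (∀ (c : ℚ → Bool) (σ : Sig) (𝔅 : Str σ (Word c)), Full.AllInv 𝔅 → Cst0 𝔅 →
    InFP (CSP 𝔅)) →
  ∀ (K : Type) (c : ℚ → K) (σ : Sig) (𝔅 : Str σ (Word c)), AllInv 𝔅 → Cst0 𝔅 → InFP (CSP 𝔅)

end Pool.Agent.Work.MP_8dbde4_lc.FK
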